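import Pool.Agent.ConeD.Mono

/-!
Problem MP_b9fb85_pr: the ray of infections is asymptotically straight. Analysis of the sequence of
points `y i` of the ray at distances about `|y i| ^ (1 - θ)`.
-/

set_option autoImplicit false

namespace OneR

open Finset

section vec

variable {F : Type*} [NormedAddCommGroup F] [InnerProductSpace ℝ F]

-- BEGIN cst
/-- change of the cosine of the angle with `u` in one step `w` from `y`. Proof: `r = ‖y‖`,
`p = <w, y> / r`, `R = ‖y + w‖`, `c = <y, u> / r` (`|c| ≤ 1`). `R ≥ r + p` (Cauchy-Schwarz with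
`y / r`), `R ^ 2 = r ^ 2 + 2 p r + ‖w‖ ^ 2`, so `e = R - r - p` has `0 ≤ e ≤ 9/4 δ ^ 2 r` (as
`R + r + p ≥ r`). `c' - c = (<w, u> - c (R - r)) / R`, with numerator
`N = (<w, u> - p) + (1 - c) p - c e`; `|R - r| ≤ ‖w‖`, `R ≥ 13/16 r`, so `|N| ≤ 3 δ r` and
`N / R ≤ N / r + |N| |R - r| / (R r) ≤ N / r + 6 δ ^ 2`. -/
theorem cos_step {y w u : F} {δ : ℝ} (hy : 0 < ‖y‖) (hu : ‖u‖ = 1) (hδ0 : 0 ≤ δ) (hδ : δ ≤ 1 / 8)
    (hw : ‖w‖ ≤ 3 / 2 * δ * ‖y‖) :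
    inner ℝ (y + w) u / ‖y + w‖ - inner ℝ y u / ‖y‖ ≤
      (inner ℝ w u - inner ℝ w y / ‖y‖) / ‖y‖ + 2 * δ * (1 - inner ℝ y u / ‖y‖) + 18 * δ ^ 2 := by
  have hR2 : ‖y + w‖ ^ 2 = ‖y‖ ^ 2 + 2 * inner ℝ y w + ‖w‖ ^ 2 := norm_add_sq_real y w
  rw [real_inner_comm w y] at hR2
  have hB : |inner ℝ w y| ≤ ‖w‖ * ‖y‖ := abs_real_inner_le_norm w y
  have hA : |inner ℝ w u| ≤ ‖w‖ * ‖u‖ := abs_real_inner_le_norm w u
  have hC : |inner ℝ y u| ≤ ‖y‖ * ‖u‖ := abs_real_inner_le_norm y u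
  rw [hu, mul_one] at hA hC
  have hR1 : inner ℝ (y + w) y ≤ ‖y + w‖ * ‖y‖ := real_inner_le_norm (y + w) y
  rw [inner_add_left, real_inner_self_eq_norm_sq] at hR1
  have hlow : ‖y‖ - ‖w‖ ≤ ‖y + w‖ := norm_sub_le_norm_add y w
  have hup : ‖y + w‖ ≤ ‖y‖ + ‖w‖ := norm_add_le y w
  have hwn : 0 ≤ ‖w‖ := norm_nonneg w
  rw [inner_add_left]
  set r := ‖y‖ with hr
  set R := ‖y + w‖ with hRd
  set n := ‖w‖ with hn
  obtain ⟨p, hp⟩ : ∃ p : ℝ, inner ℝ w y = p * r := ⟨inner ℝ w y / r, by field_simp⟩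
  obtain ⟨c, hc⟩ : ∃ c : ℝ, inner ℝ y u = c * r := ⟨inner ℝ y u / r, by field_simp⟩
  rw [hp] at hR2 hB hR1 ⊢
  rw [hc] at hC ⊢
  set A := inner ℝ w u with hAd
  clear_value r R n A
  have hne : r ≠ 0 := hy.ne'
  rw [mul_div_cancel_right₀ _ hne, mul_div_cancel_right₀ _ hne]
  have hδr : 0 ≤ δ * r := mul_nonneg hδ0 hy.le
  have hpn : |p| ≤ n := by
    rw [abs_mul, abs_of_pos hy] at hB
    exact le_of_mul_le_mul_right hB hy
  have hc1 : |c| ≤ 1 := by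
    rw [abs_mul, abs_of_pos hy] at hC
    exact le_of_mul_le_mul_right (by linarith) hy
  obtain ⟨hp1, hp2⟩ := abs_le.1 hpn
  obtain ⟨hc2, hc3⟩ := abs_le.1 hc1
  obtain ⟨hA1, hA2⟩ := abs_le.1 hA
  have hn1 : n ≤ 3 / 16 * r := by
    have : δ * r ≤ 1 / 8 * r := mul_le_mul_of_nonneg_right hδ hy.le
    linarith
  have hRpos : 0 < R := by linarith
  have hR13 : 13 / 16 * r ≤ R := by linarith
  -- e
  have he0 : 0 ≤ R - r - p := by
    have : (r + p) * r ≤ R * r := by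
      have h0 : (r + p) * r = r ^ 2 + p * r := by ring
      rw [h0]
      exact hR1
    have := le_of_mul_le_mul_right this hy
    linarith
  have he1 : (R - r - p) * r ≤ 9 / 4 * δ ^ 2 * r ^ 2 := by
    have h1 : (R - r - p) * (R + r + p) = n ^ 2 - p ^ 2 := by
      have h0 : (R - r - p) * (R + r + p) = R ^ 2 - (r ^ 2 + 2 * (p * r)) - p ^ 2 := by ring
      rw [h0, hR2]
      ring
    have h2 : (R - r - p) * r ≤ (R - r - p) * (R + r + p) :=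
      mul_le_mul_of_nonneg_left (by linarith) he0
    have h3 : n ^ 2 ≤ (3 / 2 * δ * r) ^ 2 := by
      apply pow_le_pow_left₀ hwn
      linarith
    have h4 : (3 / 2 * δ * r) ^ 2 = 9 / 4 * δ ^ 2 * r ^ 2 := by ring
    rw [h1] at h2
    rw [h4] at h3
    linarith [sq_nonneg p]
  have he2 : R - r - p ≤ 9 / 4 * δ ^ 2 * r := by
    have : (R - r - p) * r ≤ (9 / 4 * δ ^ 2 * r) * r := by
      have h0 : (9 / 4 * δ ^ 2 * r) * r = 9 / 4 * δ ^ 2 * r ^ 2 := by ring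
      rw [h0]
      exact he1
    exact le_of_mul_le_mul_right this hy
  -- N
  obtain ⟨N, hN⟩ : ∃ N : ℝ, N = A - c * (R - r) := ⟨_, rfl⟩
  have hRr : |R - r| ≤ n := by
    rw [abs_le]
    constructor <;> linarith
  have hcR : |c * (R - r)| ≤ n := by
    rw [abs_mul]
    calc |c| * |R - r| ≤ 1 * |R - r| := mul_le_mul_of_nonneg_right hc1 (abs_nonneg _)
      _ ≤ n := by linarith
  have hNabs : |N| ≤ 3 * δ * r := by
    rw [hN]
    calc |A - c * (R - r)| ≤ |A| + |c * (R - r)| := abs_sub _ _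
      _ ≤ n + n := by
        have : |A| ≤ n := hA
        linarith
      _ ≤ 3 * δ * r := by linarith
  have hlhs : (c * r + A) / R - c = N / R := by
    rw [hN]
    field_simp
    ring
  have hstep : N / R ≤ N / r + 6 * δ ^ 2 := by
    have hprod : N * (r - R) ≤ 9 / 2 * δ ^ 2 * r ^ 2 := by
      calc N * (r - R) ≤ |N * (r - R)| := le_abs_self _
        _ = |N| * |R - r| := by rw [abs_mul, abs_sub_comm r R]
        _ ≤ (3 * δ * r) * (3 / 2 * δ * r) := by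
          apply mul_le_mul hNabs (by linarith) (abs_nonneg _) (by positivity)
        _ = 9 / 2 * δ ^ 2 * r ^ 2 := by ring
    have hdiff : N / R - N / r = N * (r - R) / (R * r) := by
      field_simp
    have : N * (r - R) / (R * r) ≤ 6 * δ ^ 2 := by
      rw [div_le_iff₀ (by positivity)]
      have h5 : δ ^ 2 * r * (13 / 16 * r) ≤ δ ^ 2 * r * R :=
        mul_le_mul_of_nonneg_left hR13 (by positivity)
      have h5a : δ ^ 2 * r * (13 / 16 * r) = 13 / 16 * (δ ^ 2 * r ^ 2) := by ring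
      have h5b : 6 * δ ^ 2 * (R * r) = 6 * (δ ^ 2 * r * R) := by ring
      have h5c : 9 / 2 * δ ^ 2 * r ^ 2 = 9 / 2 * (δ ^ 2 * r ^ 2) := by ring
      have h5d : 0 ≤ δ ^ 2 * r ^ 2 := by positivity
      rw [h5a] at h5
      rw [h5b]
      rw [h5c] at hprod
      linarith
    linarith
  have hNr : N / r ≤ (A - p) / r + 3 / 2 * δ * (1 - c) + 9 / 4 * δ ^ 2 := by
    have hNeq : N = (A - p) + (1 - c) * p - c * (R - r - p) := by
      rw [hN]
      ring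
    have h6 : (1 - c) * p ≤ (1 - c) * (3 / 2 * δ * r) :=
      mul_le_mul_of_nonneg_left (by linarith) (by linarith)
    have h7 : -(c * (R - r - p)) ≤ 9 / 4 * δ ^ 2 * r := by
      have : -c * (R - r - p) ≤ 1 * (R - r - p) := mul_le_mul_of_nonneg_right (by linarith) he0
      linarith
    have h8 : N ≤ ((A - p) / r + 3 / 2 * δ * (1 - c) + 9 / 4 * δ ^ 2) * r := by
      have h9 : (A - p) / r * r = A - p := by field_simp
      rw [add_mul, add_mul, h9, hNeq]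
      linarith
    rwa [div_le_iff₀ hy]
  rw [hlhs]
  have h10 : 3 / 2 * δ * (1 - c) ≤ 2 * δ * (1 - c) := by
    have : 0 ≤ δ * (1 - c) := mul_nonneg hδ0 (by linarith)
    linarith
  linarith [sq_nonneg δ]
-- END cst

-- BEGIN unv
/-- unit vectors of close points: `x/|x| - y/|y| = x (1/|x| - 1/|y|) + (x - y)/|y|` -/
theorem unit_close {x y : F} (hx : 0 < ‖x‖) (hy : 0 < ‖y‖) :
    ‖(‖x‖⁻¹ • x) - (‖y‖⁻¹ • y)‖ ≤ 2 * ‖x - y‖ / ‖y‖ := by
  have h1 : (‖x‖⁻¹ • x) - (‖y‖⁻¹ • y) = (‖x‖⁻¹ - ‖y‖⁻¹) • x + ‖y‖⁻¹ • (x - y) := by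
    rw [sub_smul, smul_sub]
    abel
  have h2 : ‖(‖x‖⁻¹ - ‖y‖⁻¹) • x‖ ≤ ‖x - y‖ / ‖y‖ := by
    rw [norm_smul, Real.norm_eq_abs]
    have h3 : ‖x‖⁻¹ - ‖y‖⁻¹ = (‖y‖ - ‖x‖) / (‖x‖ * ‖y‖) := by
      field_simp
    rw [h3, abs_div, abs_of_pos (mul_pos hx hy)]
    have h4 : |‖y‖ - ‖x‖| / (‖x‖ * ‖y‖) * ‖x‖ = |‖y‖ - ‖x‖| / ‖y‖ := by
      field_simp
    rw [h4]
    apply div_le_div_of_nonneg_right _ hy.le
    rw [abs_sub_comm]
    exact abs_norm_sub_norm_le x y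
  have h5 : ‖‖y‖⁻¹ • (x - y)‖ = ‖x - y‖ / ‖y‖ := by
    rw [norm_smul, norm_inv, norm_norm]
    field_simp
  rw [h1]
  calc ‖(‖x‖⁻¹ - ‖y‖⁻¹) • x + ‖y‖⁻¹ • (x - y)‖
      ≤ ‖(‖x‖⁻¹ - ‖y‖⁻¹) • x‖ + ‖‖y‖⁻¹ • (x - y)‖ := norm_add_le _ _
    _ ≤ ‖x - y‖ / ‖y‖ + ‖x - y‖ / ‖y‖ := by rw [h5]; linarith
    _ = 2 * ‖x - y‖ / ‖y‖ := by ring

theorem unit_sq {x y : F} (hx : 0 < ‖x‖) (hy : 0 < ‖y‖) :
    ‖(‖x‖⁻¹ • x) - (‖y‖⁻¹ • y)‖ ^ 2 = 2 * (1 - inner ℝ x y / (‖x‖ * ‖y‖)) := by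
  rw [norm_sub_sq_real, norm_smul, norm_smul, norm_inv, norm_inv, norm_norm, norm_norm,
    real_inner_smul_left, real_inner_smul_right, inv_mul_cancel₀ hx.ne', inv_mul_cancel₀ hy.ne']
  field_simp
  ring
-- END unv

end vec

-- BEGIN grn
/-- discrete Gronwall inequality, backwards: `q i ≤ exp (4 δ i) (q (i + 1) + e i)` since
`(1 - 2 δ)⁻¹ ≤ 1 + 4 δ ≤ exp (4 δ)`; induction on `n - m` (`Finset.sum_eq_sum_Ico_succ_bot` or
`Nat.decreasingInduction`) -/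
theorem gron {q δ e : ℕ → ℝ} {m n : ℕ} (hmn : m ≤ n) (hq : ∀ i, 0 ≤ q i) (he : ∀ i, 0 ≤ e i)
    (hδ : ∀ i, 0 ≤ δ i ∧ δ i ≤ 1 / 8)
    (h : ∀ i, m ≤ i → i < n → q i ≤ q (i + 1) + 2 * δ i * q i + e i) :
    q m ≤ Real.exp (4 * ∑ i ∈ Ico m n, δ i) * (q n + ∑ i ∈ Ico m n, e i) := by
  induction n, hmn using Nat.le_induction with
  | base => simp
  | succ n hmn ih =>
    have h1 := ih (fun i hi hin => h i hi (by omega))
    have h2 := h n hmn (by omega)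
    obtain ⟨d0, d1⟩ := hδ n
    have hx : 1 + 4 * δ n ≤ Real.exp (4 * δ n) := by
      have := Real.add_one_le_exp (4 * δ n)
      linarith
    have hone : (1 : ℝ) ≤ Real.exp (4 * δ n) := by linarith
    have h3 : q n ≤ Real.exp (4 * δ n) * (q (n + 1) + e n) := by
      have a1 : (1 - 2 * δ n) * q n ≤ q (n + 1) + e n := by linarith
      have a2 : Real.exp (4 * δ n) * ((1 - 2 * δ n) * q n) ≤
          Real.exp (4 * δ n) * (q (n + 1) + e n) :=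
        mul_le_mul_of_nonneg_left a1 (Real.exp_pos _).le
      have a3 : (1 : ℝ) ≤ Real.exp (4 * δ n) * (1 - 2 * δ n) := by
        have b1 : (1 + 4 * δ n) * (1 - 2 * δ n) ≤ Real.exp (4 * δ n) * (1 - 2 * δ n) :=
          mul_le_mul_of_nonneg_right hx (by linarith)
        have b2 : (1 : ℝ) ≤ (1 + 4 * δ n) * (1 - 2 * δ n) := by nlinarith
        linarith
      have a4 : q n ≤ (Real.exp (4 * δ n) * (1 - 2 * δ n)) * q n := by
        have := mul_le_mul_of_nonneg_right a3 (hq n)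
        linarith
      calc q n ≤ (Real.exp (4 * δ n) * (1 - 2 * δ n)) * q n := a4
        _ = Real.exp (4 * δ n) * ((1 - 2 * δ n) * q n) := by ring
        _ ≤ _ := a2
    have hS : 0 ≤ ∑ i ∈ Ico m n, e i := Finset.sum_nonneg fun i _ => he i
    have h4 : q n + ∑ i ∈ Ico m n, e i ≤
        Real.exp (4 * δ n) * (q (n + 1) + (∑ i ∈ Ico m n, e i + e n)) := by
      have : ∑ i ∈ Ico m n, e i ≤ Real.exp (4 * δ n) * ∑ i ∈ Ico m n, e i := by
        have := mul_le_mul_of_nonneg_right hone hS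
        linarith
      calc q n + ∑ i ∈ Ico m n, e i
          ≤ Real.exp (4 * δ n) * (q (n + 1) + e n) + Real.exp (4 * δ n) * ∑ i ∈ Ico m n, e i :=
            add_le_add h3 this
        _ = _ := by ring
    rw [Finset.sum_Ico_succ_top hmn, Finset.sum_Ico_succ_top hmn,
      show 4 * (∑ k ∈ Ico m n, δ k + δ n) = 4 * ∑ k ∈ Ico m n, δ k + 4 * δ n by ring,
      Real.exp_add]
    calc q m ≤ Real.exp (4 * ∑ i ∈ Ico m n, δ i) * (q n + ∑ i ∈ Ico m n, e i) := h1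
      _ ≤ Real.exp (4 * ∑ i ∈ Ico m n, δ i) *
          (Real.exp (4 * δ n) * (q (n + 1) + (∑ i ∈ Ico m n, e i + e n))) :=
          mul_le_mul_of_nonneg_left h4 (Real.exp_pos _).le
      _ = _ := by ring
-- END grn

/-- the data: points `y i`, remaining times `W i`, costs `H i` of the steps -/
structure DS {d : ℕ} (y : ℕ → EuclideanSpace ℝ (Fin d)) (W H : ℕ → ℝ) (a b K K1 M α θ : ℝ) :
    Prop where
  hα : 1 < α
  hθ : 0 < θ
  hθ1 : θ ≤ 1 / 8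
  ha : 0 < a
  hb : 0 < b
  hK : 0 < K
  hK1 : 0 < K1
  hM : 0 < M
  one : ∀ i, 1 ≤ ‖y i‖
  small : ∀ i, ‖y i‖ ^ (-θ) ≤ 1 / 32
  lim : Filter.Tendsto (fun i => ‖y i‖) Filter.atTop Filter.atTop
  stp : ∀ i, ‖y (i + 1) - y i‖ ≤ 3 / 2 * ‖y i‖ ^ (-θ) * ‖y i‖
  Wpos : ∀ i, 0 < W i
  upW : ∀ i, ‖y i‖ ^ (α - 1) * W i ≤ M
  decW : ∀ i, a / 2 * ‖y i‖ ^ (-θ) * ‖y i‖ ^ (1 - α) ≤ W i - W (i + 1)
  H0 : ∀ i, 0 ≤ H i
  Hb : ∀ i, H i ≤ b * ‖y (i + 1) - y i‖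
  hB : ∀ i, H i / ‖y i‖ - (α - 1) * (inner ℝ (y (i + 1) - y i) (y i) / ‖y i‖ / ‖y i‖) *
      (‖y i‖ ^ (α - 1) * W i) - K1 * (‖y i‖ ^ (-θ)) ^ 2 ≤
      ‖y i‖ ^ (α - 1) * W i - ‖y (i + 1)‖ ^ (α - 1) * W (i + 1)
  hF : ∀ i, -K1 * (‖y i‖ ^ (-θ)) ^ 2 ≤
      ‖y i‖ ^ (α - 1) * W i - ‖y (i + 1)‖ ^ (α - 1) * W (i + 1)
  hD : ∀ i q, ‖y (i + 1) - y i‖ ≤ 2 * (‖y q‖ ^ (-θ) * ‖y q‖) →
      (‖y q‖ ^ (-θ)) ^ 2 * ‖y q‖ / 2 ≤ inner ℝ (y (i + 1) - y i) (y q) / ‖y q‖ →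
      W q ≤ (1 + K * ‖y q‖ ^ (-θ)) *
        (H i / ((α - 1) * (inner ℝ (y (i + 1) - y i) (y q) / ‖y q‖))) * ‖y q‖ ^ (1 - α)

section ds

variable {d : ℕ} {y : ℕ → EuclideanSpace ℝ (Fin d)} {W H : ℕ → ℝ} {a b K K1 M α θ : ℝ}

/-- the energy -/
noncomputable def En (y : ℕ → EuclideanSpace ℝ (Fin d)) (W : ℕ → ℝ) (α : ℝ) (i : ℕ) : ℝ :=
  ‖y i‖ ^ (α - 1) * W i

/-- the relative step size -/
noncomputable def De (y : ℕ → EuclideanSpace ℝ (Fin d)) (θ : ℝ) (i : ℕ) : ℝ := ‖y i‖ ^ (-θ)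

/-- the dissipation of one step -/
noncomputable def Bb (y : ℕ → EuclideanSpace ℝ (Fin d)) (W : ℕ → ℝ) (K1 α θ : ℝ) (i : ℕ) : ℝ :=
  (En y W α i - En y W α (i + 1) + K1 * De y θ i ^ 2) + De y θ i ^ 2

-- BEGIN rad
/-- comparison of the radii in a short piece: by `stp`, `‖y (i+1)‖ ≤ exp (3/2 De i) ‖y i‖` and
`‖y i‖ ≤ exp (3 De i) ‖y (i+1)‖` (as `1 - x ≥ exp (-2 x)` for `x ≤ 1/2`), multiply over `Ico p q`;
`exp (3/16) ≤ 5/4`; `De y θ q ≤ (5/4) ^ θ De y θ p` -/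
theorem DS.rad (h : DS y W H a b K K1 M α θ) {p q : ℕ} (hpq : p ≤ q)
    (hs : ∑ i ∈ Ico p q, De y θ i ≤ 1 / 16) :
    ‖y p‖ ≤ 5 / 4 * ‖y q‖ ∧ ‖y q‖ ≤ 5 / 4 * ‖y p‖ ∧ De y θ q ≤ 2 * De y θ p := by
  have hD0 : ∀ i, 0 ≤ De y θ i := fun i => Real.rpow_nonneg (norm_nonneg _) _
  have hD1 : ∀ i, De y θ i ≤ 1 / 32 := fun i => h.small i
  have key : ∀ q, p ≤ q →
      ‖y q‖ ≤ Real.exp (3 * ∑ i ∈ Ico p q, De y θ i) * ‖y p‖ ∧
      ‖y p‖ ≤ Real.exp (3 * ∑ i ∈ Ico p q, De y θ i) * ‖y q‖ := by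
    intro q hq
    induction q, hq using Nat.le_induction with
    | base => simp
    | succ q hq ih =>
      obtain ⟨i1, i2⟩ := ih
      have d0 := hD0 q
      have d1 := hD1 q
      have hst : ‖y (q + 1) - y q‖ ≤ 3 / 2 * De y θ q * ‖y q‖ := h.stp q
      have hn : 0 ≤ ‖y q‖ := norm_nonneg _
      have hx : 1 + 3 * De y θ q ≤ Real.exp (3 * De y θ q) := by
        have := Real.add_one_le_exp (3 * De y θ q)
        linarith
      have t1 : ‖y (q + 1)‖ ≤ ‖y q‖ + ‖y (q + 1) - y q‖ := by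
        have := norm_add_le (y q) (y (q + 1) - y q)
        rwa [add_sub_cancel] at this
      have t2 : ‖y q‖ ≤ ‖y (q + 1)‖ + ‖y (q + 1) - y q‖ := by
        have := norm_sub_le (y (q + 1)) (y (q + 1) - y q)
        rwa [sub_sub_cancel] at this
      have s1 : ‖y (q + 1)‖ ≤ Real.exp (3 * De y θ q) * ‖y q‖ := by
        have b1 : (1 + 3 * De y θ q) * ‖y q‖ ≤ Real.exp (3 * De y θ q) * ‖y q‖ :=
          mul_le_mul_of_nonneg_right hx hn
        have b2 : 0 ≤ De y θ q * ‖y q‖ := mul_nonneg d0 hn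
        nlinarith
      have s2 : ‖y q‖ ≤ Real.exp (3 * De y θ q) * ‖y (q + 1)‖ := by
        have c1 : (1 - 3 / 2 * De y θ q) * ‖y q‖ ≤ ‖y (q + 1)‖ := by linarith
        have c2 : Real.exp (3 * De y θ q) * ((1 - 3 / 2 * De y θ q) * ‖y q‖) ≤
            Real.exp (3 * De y θ q) * ‖y (q + 1)‖ :=
          mul_le_mul_of_nonneg_left c1 (Real.exp_pos _).le
        have c3 : (1 + 3 * De y θ q) * (1 - 3 / 2 * De y θ q) ≤
            Real.exp (3 * De y θ q) * (1 - 3 / 2 * De y θ q) :=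
          mul_le_mul_of_nonneg_right hx (by linarith)
        have c4 : (1 : ℝ) ≤ (1 + 3 * De y θ q) * (1 - 3 / 2 * De y θ q) := by nlinarith
        have c5 : ‖y q‖ ≤ (Real.exp (3 * De y θ q) * (1 - 3 / 2 * De y θ q)) * ‖y q‖ := by
          have := mul_le_mul_of_nonneg_right (c4.trans c3) hn
          linarith
        calc ‖y q‖ ≤ (Real.exp (3 * De y θ q) * (1 - 3 / 2 * De y θ q)) * ‖y q‖ := c5
          _ = Real.exp (3 * De y θ q) * ((1 - 3 / 2 * De y θ q) * ‖y q‖) := by ring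
          _ ≤ _ := c2
      rw [Finset.sum_Ico_succ_top hq, mul_add, Real.exp_add]
      constructor
      · calc ‖y (q + 1)‖ ≤ Real.exp (3 * De y θ q) * ‖y q‖ := s1
          _ ≤ Real.exp (3 * De y θ q) *
              (Real.exp (3 * ∑ i ∈ Ico p q, De y θ i) * ‖y p‖) :=
              mul_le_mul_of_nonneg_left i1 (Real.exp_pos _).le
          _ = _ := by ring
      · calc ‖y p‖ ≤ Real.exp (3 * ∑ i ∈ Ico p q, De y θ i) * ‖y q‖ := i2
          _ ≤ Real.exp (3 * ∑ i ∈ Ico p q, De y θ i) *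
              (Real.exp (3 * De y θ q) * ‖y (q + 1)‖) :=
              mul_le_mul_of_nonneg_left s2 (Real.exp_pos _).le
          _ = _ := by ring
  obtain ⟨k1, k2⟩ := key q hpq
  have hE : Real.exp (3 * ∑ i ∈ Ico p q, De y θ i) ≤ 5 / 4 := by
    have e1 : Real.exp (3 * ∑ i ∈ Ico p q, De y θ i) ≤ Real.exp (3 / 16) :=
      Real.exp_le_exp.2 (by linarith)
    have e2 := Real.exp_bound_div_one_sub_of_interval (x := 3 / 16) (by norm_num) (by norm_num)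
    have e3 : (1 : ℝ) / (1 - 3 / 16) ≤ 5 / 4 := by norm_num
    linarith
  have r1 : ‖y p‖ ≤ 5 / 4 * ‖y q‖ :=
    k2.trans (mul_le_mul_of_nonneg_right hE (norm_nonneg _))
  have r2 : ‖y q‖ ≤ 5 / 4 * ‖y p‖ :=
    k1.trans (mul_le_mul_of_nonneg_right hE (norm_nonneg _))
  refine ⟨r1, r2, ?_⟩
  have hp0 : 0 < ‖y p‖ := lt_of_lt_of_le one_pos (h.one p)
  have hθ := h.hθ
  have hθ1 := h.hθ1
  have u1 : ‖y q‖ ^ (-θ) ≤ (4 / 5 * ‖y p‖) ^ (-θ) :=
    Real.rpow_le_rpow_of_nonpos (by positivity) (by linarith) (by linarith)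
  have u2 : (4 / 5 * ‖y p‖) ^ (-θ) = (4 / 5 : ℝ) ^ (-θ) * ‖y p‖ ^ (-θ) :=
    Real.mul_rpow (by norm_num) hp0.le
  have u3 : (4 / 5 : ℝ) ^ (-θ) ≤ (4 / 5 : ℝ) ^ (-1 : ℝ) :=
    Real.rpow_le_rpow_of_exponent_ge (by norm_num) (by norm_num) (by linarith)
  have u4 : (4 / 5 : ℝ) ^ (-1 : ℝ) ≤ 2 := by
    rw [Real.rpow_neg_one]
    norm_num
  have u5 : 0 ≤ ‖y p‖ ^ (-θ) := Real.rpow_nonneg (norm_nonneg _) _
  have : (4 / 5 : ℝ) ^ (-θ) * ‖y p‖ ^ (-θ) ≤ 2 * ‖y p‖ ^ (-θ) :=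
    mul_le_mul_of_nonneg_right (u3.trans u4) u5
  show ‖y q‖ ^ (-θ) ≤ 2 * ‖y p‖ ^ (-θ)
  linarith
-- END rad

-- BEGIN ubq
/-- the upper bound at a later point of a short piece, for the step `i`. By `DS.rad` (for `i`, `q`)
and `stp`: `‖w‖ ≤ 3/2 ‖y i‖ ^ (1-θ) ≤ 15/8 ‖y q‖ ^ (1-θ)`. If the inner product over `‖y q‖` is at
least `De q ^ 2 ‖y q‖ / 2` use `hD`, multiply by `(α-1) pr ‖y q‖ ^ (α-1)`; otherwise `En ≤ M` (`upW`)
(or the left side is `≤ 0`) -/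
theorem DS.ubq (h : DS y W H a b K K1 M α θ) {i q : ℕ} (hiq : i < q)
    (hs : ∑ j ∈ Ico i q, De y θ j ≤ 1 / 16) :
    (α - 1) * En y W α q * (inner ℝ (y (i + 1) - y i) (y q) / ‖y q‖) ≤
      (1 + K * De y θ q) * H i + (α - 1) * M * (De y θ q ^ 2 * ‖y q‖ / 2) := by
  obtain ⟨h1, -, -⟩ := h.rad hiq.le hs
  have hr1 : 1 ≤ ‖y q‖ := h.one q
  have hr : 0 < ‖y q‖ := lt_of_lt_of_le one_pos hr1
  have hi : 0 < ‖y i‖ := lt_of_lt_of_le one_pos (h.one i)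
  have hα : 0 < α - 1 := sub_pos.mpr h.hα
  have hK := h.hK
  have hθ := h.hθ
  have hθ1 := h.hθ1
  have hD0 : 0 < De y θ q := Real.rpow_pos_of_pos hr _
  have hE0 : 0 < En y W α q := mul_pos (Real.rpow_pos_of_pos hr _) (h.Wpos q)
  have hEM : En y W α q ≤ M := h.upW q
  have hH : 0 ≤ H i := h.H0 i
  set p := inner ℝ (y (i + 1) - y i) (y q) / ‖y q‖ with hp
  -- the step is short compared with the radius at `q`
  have hpow : ‖y i‖ ^ (-θ) * ‖y i‖ ≤ 5 / 4 * (‖y q‖ ^ (-θ) * ‖y q‖) := by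
    have e1 : ‖y i‖ ^ (-θ) * ‖y i‖ = ‖y i‖ ^ (1 - θ) := by
      rw [← Real.rpow_add_one hi.ne']
      congr 1
      ring
    have e2 : ‖y q‖ ^ (-θ) * ‖y q‖ = ‖y q‖ ^ (1 - θ) := by
      rw [← Real.rpow_add_one hr.ne']
      congr 1
      ring
    rw [e1, e2]
    calc ‖y i‖ ^ (1 - θ) ≤ (5 / 4 * ‖y q‖) ^ (1 - θ) :=
          Real.rpow_le_rpow hi.le h1 (by linarith)
      _ = (5 / 4 : ℝ) ^ (1 - θ) * ‖y q‖ ^ (1 - θ) := Real.mul_rpow (by norm_num) hr.le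
      _ ≤ 5 / 4 * ‖y q‖ ^ (1 - θ) := by
          apply mul_le_mul_of_nonneg_right _ (Real.rpow_nonneg hr.le _)
          calc (5 / 4 : ℝ) ^ (1 - θ) ≤ (5 / 4 : ℝ) ^ (1 : ℝ) :=
                Real.rpow_le_rpow_of_exponent_le (by norm_num) (by linarith)
            _ = 5 / 4 := Real.rpow_one _
  have hstep : ‖y (i + 1) - y i‖ ≤ 2 * (‖y q‖ ^ (-θ) * ‖y q‖) := by
    have h2 := h.stp i
    have h3 : 0 ≤ ‖y q‖ ^ (-θ) * ‖y q‖ := by positivity
    nlinarith [h2, hpow, h3]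
  rcases le_or_gt ((‖y q‖ ^ (-θ)) ^ 2 * ‖y q‖ / 2) p with hc | hc
  · have hp0 : 0 < p := lt_of_lt_of_le (by positivity) hc
    have h4 := h.hD i q hstep hc
    have h5 : (α - 1) * En y W α q * p ≤ (1 + K * De y θ q) * H i := by
      have e3 : ‖y q‖ ^ (α - 1) * ‖y q‖ ^ (1 - α) = 1 := by
        rw [← Real.rpow_add hr]
        have : α - 1 + (1 - α) = 0 := by ring
        rw [this, Real.rpow_zero]
      have h6 : En y W α q ≤ (1 + K * De y θ q) * (H i / ((α - 1) * p)) := by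
        unfold En
        calc ‖y q‖ ^ (α - 1) * W q ≤ ‖y q‖ ^ (α - 1) *
              ((1 + K * ‖y q‖ ^ (-θ)) * (H i / ((α - 1) * p)) * ‖y q‖ ^ (1 - α)) :=
              mul_le_mul_of_nonneg_left h4 (Real.rpow_nonneg hr.le _)
          _ = (1 + K * ‖y q‖ ^ (-θ)) * (H i / ((α - 1) * p)) *
              (‖y q‖ ^ (α - 1) * ‖y q‖ ^ (1 - α)) := by ring
          _ = (1 + K * De y θ q) * (H i / ((α - 1) * p)) := by rw [e3, mul_one]; rfl
      have h7 : 0 < (α - 1) * p := mul_pos hα hp0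
      calc (α - 1) * En y W α q * p = En y W α q * ((α - 1) * p) := by ring
        _ ≤ (1 + K * De y θ q) * (H i / ((α - 1) * p)) * ((α - 1) * p) :=
            mul_le_mul_of_nonneg_right h6 h7.le
        _ = (1 + K * De y θ q) * H i := by
            rw [mul_assoc, div_mul_cancel₀ _ h7.ne']
    have h8 : 0 ≤ (α - 1) * M * (De y θ q ^ 2 * ‖y q‖ / 2) := by
      have hM := h.hM
      positivity
    linarith
  · have hc' : p ≤ De y θ q ^ 2 * ‖y q‖ / 2 := hc.le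
    have h5 : (α - 1) * En y W α q * p ≤ (α - 1) * M * (De y θ q ^ 2 * ‖y q‖ / 2) := by
      calc (α - 1) * En y W α q * p ≤ (α - 1) * En y W α q * (De y θ q ^ 2 * ‖y q‖ / 2) :=
            mul_le_mul_of_nonneg_left hc' (by positivity)
        _ ≤ (α - 1) * M * (De y θ q ^ 2 * ‖y q‖ / 2) := by
            apply mul_le_mul_of_nonneg_right _ (by positivity)
            exact mul_le_mul_of_nonneg_left hEM hα.le
    have h8 : 0 ≤ (1 + K * De y θ q) * H i := by positivity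
    linarith
-- END ubq

-- BEGIN stq
/-- the main inequality for one step: `DS.ubq` divided by `‖y i‖`, `H i / ‖y i‖ ≤ 3/2 b De i`,
`De q ≤ 2 De i`, `‖y q‖ ≤ 5/4 ‖y i‖` (`DS.rad`), then `hB`, and
`|inner (y (i+1) - y i) (y i) / ‖y i‖ / ‖y i‖| ≤ 3/2 De i` -/
theorem DS.stepq (h : DS y W H a b K K1 M α θ) {i q : ℕ} (hiq : i < q)
    (hs : ∑ j ∈ Ico i q, De y θ j ≤ 1 / 16) :
    (α - 1) * En y W α q * ((inner ℝ (y (i + 1) - y i) (‖y q‖⁻¹ • y q) -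
      inner ℝ (y (i + 1) - y i) (y i) / ‖y i‖) / ‖y i‖) ≤
      (En y W α i - En y W α (i + 1) + K1 * De y θ i ^ 2) +
        (3 * K * b + 4 * (α - 1) * M) * De y θ i ^ 2 +
        (α - 1) * (3 / 2) * De y θ i * |En y W α i - En y W α q| := by
  have hu := h.ubq hiq hs
  obtain ⟨-, hR, hDq⟩ := h.rad hiq.le hs
  have hr : 0 < ‖y i‖ := lt_of_lt_of_le one_pos (h.one i)
  have hRp : 0 < ‖y q‖ := lt_of_lt_of_le one_pos (h.one q)
  have hw := h.stp i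
  have hHb := h.Hb i
  have hB := h.hB i
  have hH0 := h.H0 i
  have hα := h.hα
  have hD0 : 0 < De y θ i := Real.rpow_pos_of_pos hr _
  have hDq0 : 0 < De y θ q := Real.rpow_pos_of_pos hRp _
  have eDi : ‖y i‖ ^ (-θ) = De y θ i := rfl
  have eE : ‖y i‖ ^ (α - 1) * W i = En y W α i := rfl
  have eE' : ‖y (i + 1)‖ ^ (α - 1) * W (i + 1) = En y W α (i + 1) := rfl
  rw [eDi] at hw hB
  rw [eE, eE'] at hB
  have e1 : inner ℝ (y (i + 1) - y i) (‖y q‖⁻¹ • y q) =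
      inner ℝ (y (i + 1) - y i) (y q) / ‖y q‖ := by
    rw [real_inner_smul_right]
    ring
  rw [e1]
  have hip : |inner ℝ (y (i + 1) - y i) (y i)| ≤ ‖y (i + 1) - y i‖ * ‖y i‖ :=
    abs_real_inner_le_norm _ _
  generalize inner ℝ (y (i + 1) - y i) (y q) / ‖y q‖ = pr at hu ⊢
  generalize inner ℝ (y (i + 1) - y i) (y i) = t at hB hip ⊢
  generalize ‖y (i + 1) - y i‖ = w at hw hHb hip
  generalize En y W α i = Ei at hB ⊢
  generalize En y W α q = Eq at hu ⊢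
  generalize En y W α (i + 1) = E' at hB ⊢
  generalize De y θ i = D at hw hB hD0 hDq ⊢
  generalize De y θ q = Q at hu hDq hDq0
  generalize ‖y i‖ = r at hw hB hip hr hR ⊢
  generalize ‖y q‖ = R at hu hRp hR
  generalize H i = hh at hu hHb hB hH0
  have hb := h.hb
  have hK := h.hK
  have hM := h.hM
  -- bounds
  have hHr : hh / r ≤ 3 / 2 * b * D := by
    rw [div_le_iff₀ hr]
    calc hh ≤ b * w := hHb
      _ ≤ b * (3 / 2 * D * r) := mul_le_mul_of_nonneg_left hw hb.le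
      _ = 3 / 2 * b * D * r := by ring
  have hHr0 : 0 ≤ hh / r := div_nonneg hH0 hr.le
  have hx : |t / r / r| ≤ 3 / 2 * D := by
    rw [abs_div, abs_div, abs_of_pos hr, div_le_iff₀ hr, div_le_iff₀ hr]
    calc |t| ≤ w * r := hip
      _ ≤ (3 / 2 * D * r) * r := mul_le_mul_of_nonneg_right hw hr.le
  have h1 : (α - 1) * Eq * (pr / r) ≤
      (1 + K * Q) * (hh / r) + (α - 1) * M * (Q ^ 2 * (R / r) / 2) := by
    have h2 := div_le_div_of_nonneg_right hu hr.le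
    calc (α - 1) * Eq * (pr / r) = (α - 1) * Eq * pr / r := by ring
      _ ≤ ((1 + K * Q) * hh + (α - 1) * M * (Q ^ 2 * R / 2)) / r := h2
      _ = _ := by ring
  have hRr : R / r ≤ 5 / 4 := by
    rw [div_le_iff₀ hr]
    exact hR
  have hRr0 : 0 ≤ R / r := (div_pos hRp hr).le
  have hQ2 : Q ^ 2 ≤ 4 * D ^ 2 := by nlinarith
  have h3 : K * Q * (hh / r) ≤ 3 * K * b * D ^ 2 := by
    calc K * Q * (hh / r) ≤ K * (2 * D) * (3 / 2 * b * D) :=
          mul_le_mul (mul_le_mul_of_nonneg_left hDq hK.le) hHr hHr0 (by positivity)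
      _ = 3 * K * b * D ^ 2 := by ring
  have hα0 : 0 ≤ α - 1 := by linarith
  have h4 : (α - 1) * M * (Q ^ 2 * (R / r) / 2) ≤ 4 * (α - 1) * M * D ^ 2 := by
    have h5 : Q ^ 2 * (R / r) ≤ 4 * D ^ 2 * (5 / 4) :=
      mul_le_mul hQ2 hRr hRr0 (by positivity)
    have h6 : 0 ≤ (α - 1) * M := mul_nonneg hα0 hM.le
    have h7 : Q ^ 2 * (R / r) / 2 ≤ 4 * D ^ 2 := by nlinarith [sq_nonneg D]
    calc (α - 1) * M * (Q ^ 2 * (R / r) / 2) ≤ (α - 1) * M * (4 * D ^ 2) :=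
          mul_le_mul_of_nonneg_left h7 h6
      _ = 4 * (α - 1) * M * D ^ 2 := by ring
  have h8 : (α - 1) * (t / r / r) * (Ei - Eq) ≤ (α - 1) * (3 / 2) * D * |Ei - Eq| := by
    have h9 : (t / r / r) * (Ei - Eq) ≤ 3 / 2 * D * |Ei - Eq| := by
      calc (t / r / r) * (Ei - Eq) ≤ |(t / r / r) * (Ei - Eq)| := le_abs_self _
        _ = |t / r / r| * |Ei - Eq| := abs_mul _ _
        _ ≤ 3 / 2 * D * |Ei - Eq| := mul_le_mul_of_nonneg_right hx (abs_nonneg _)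
    calc (α - 1) * (t / r / r) * (Ei - Eq) = (α - 1) * ((t / r / r) * (Ei - Eq)) := by ring
      _ ≤ (α - 1) * (3 / 2 * D * |Ei - Eq|) := mul_le_mul_of_nonneg_left h9 hα0
      _ = _ := by ring
  have e2 : (α - 1) * Eq * ((pr - t / r) / r) =
      (α - 1) * Eq * (pr / r) - (α - 1) * (t / r / r) * Eq := by ring
  rw [e2]
  have e3 : (1 + K * Q) * (hh / r) = hh / r + K * Q * (hh / r) := by ring
  rw [e3] at h1
  have e4 : (α - 1) * (t / r / r) * (Ei - Eq) =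
      (α - 1) * (t / r / r) * Ei - (α - 1) * (t / r / r) * Eq := by ring
  rw [e4] at h8
  have e5 : (3 * K * b + 4 * (α - 1) * M) * D ^ 2 =
      3 * K * b * D ^ 2 + 4 * (α - 1) * M * D ^ 2 := by ring
  rw [e5]
  linarith
-- END stq

-- BEGIN glo
/-- the distances of consecutive points add up -/
theorem glo_tri (y : ℕ → EuclideanSpace ℝ (Fin d)) {i q : ℕ} (hiq : i ≤ q) :
    ‖y q‖ - ‖y i‖ ≤ ∑ j ∈ Ico i q, ‖y (j + 1) - y j‖ := by
  induction q, hiq using Nat.le_induction with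
  | base => simp
  | succ n hn ih =>
    rw [Finset.sum_Ico_succ_top hn]
    have h1 : ‖y (n + 1)‖ ≤ ‖y (n + 1) - y n‖ + ‖y n‖ := by
      have := norm_add_le (y (n + 1) - y n) (y n)
      simpa using this
    linarith

/-- the times telescope -/
theorem glo_tel (W : ℕ → ℝ) {i q : ℕ} (hiq : i ≤ q) :
    ∑ j ∈ Ico i q, (W j - W (j + 1)) = W i - W q := by
  induction q, hiq using Nat.le_induction with
  | base => simp
  | succ n hn ih =>
    rw [Finset.sum_Ico_succ_top hn, ih]; ring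

/-- lower bound of the energy: sum `decW` from `i` to the first `q` with `‖y q‖ ≥ 2 ‖y i‖`
(exists by `lim`): for `i ≤ j < q`, `W j - W (j+1) ≥ a/2 De j ‖y j‖ ^ (1-α) ≥
a/3 ‖y (j+1) - y j‖ ‖y j‖ ^ (-α) ≥ a/3 ‖y (j+1) - y j‖ (2 ‖y i‖) ^ (-α)`, and the sum of
`‖y (j+1) - y j‖` is at least `‖y q‖ - ‖y i‖ ≥ ‖y i‖` -/
theorem DS.glow (h : DS y W H a b K K1 M α θ) (i : ℕ) :
    a / 3 * (2 : ℝ) ^ (-α) ≤ En y W α i := by
  classical
  have hpos : ∀ j, 0 < ‖y j‖ := fun j => lt_of_lt_of_le one_pos (h.one j)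
  have ha := h.ha
  -- first q ≥ i with norm at least twice
  have hex : ∃ q, i ≤ q ∧ 2 * ‖y i‖ ≤ ‖y q‖ := by
    have h1 := h.lim.eventually_ge_atTop (2 * ‖y i‖)
    obtain ⟨N, hN⟩ := Filter.eventually_atTop.1 h1
    exact ⟨max i N, le_max_left _ _, hN _ (le_max_right _ _)⟩
  obtain ⟨hq1, hq2⟩ := Nat.find_spec hex
  have hmin : ∀ m, m < Nat.find hex → ¬ (i ≤ m ∧ 2 * ‖y i‖ ≤ ‖y m‖) :=
    fun m hm => Nat.find_min hex hm
  generalize Nat.find hex = q at hq1 hq2 hmin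
  have hstep : ∀ j ∈ Ico i q,
      a / 3 * (2 * ‖y i‖) ^ (-α) * ‖y (j + 1) - y j‖ ≤ W j - W (j + 1) := by
    intro j hj
    obtain ⟨hj1, hj2⟩ := Finset.mem_Ico.1 hj
    have hlt : ‖y j‖ < 2 * ‖y i‖ := by
      by_contra hc
      exact hmin j hj2 ⟨hj1, not_lt.1 hc⟩
    have h1 := h.decW j
    have h2 := h.stp j
    have h3 : (2 * ‖y i‖) ^ (-α) ≤ ‖y j‖ ^ (-α) :=
      Real.rpow_le_rpow_of_nonpos (hpos j) hlt.le (by linarith [h.hα])
    have h4 : ‖y j‖ ^ (1 - α) = ‖y j‖ * ‖y j‖ ^ (-α) := by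
      rw [sub_eq_add_neg, Real.rpow_add (hpos j), Real.rpow_one]
    have h5 : 0 ≤ ‖y j‖ ^ (-α) := Real.rpow_nonneg (hpos j).le _
    have h6 : 0 ≤ ‖y (j + 1) - y j‖ := norm_nonneg _
    calc a / 3 * (2 * ‖y i‖) ^ (-α) * ‖y (j + 1) - y j‖
        ≤ a / 3 * ‖y j‖ ^ (-α) * ‖y (j + 1) - y j‖ := by gcongr
      _ ≤ a / 3 * ‖y j‖ ^ (-α) * (3 / 2 * ‖y j‖ ^ (-θ) * ‖y j‖) := by gcongr
      _ = a / 2 * ‖y j‖ ^ (-θ) * ‖y j‖ ^ (1 - α) := by rw [h4]; ring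
      _ ≤ W j - W (j + 1) := h1
  have hsum : a / 3 * (2 * ‖y i‖) ^ (-α) * ∑ j ∈ Ico i q, ‖y (j + 1) - y j‖ ≤ W i - W q := by
    rw [← glo_tel W hq1, Finset.mul_sum]
    exact Finset.sum_le_sum hstep
  have htri := glo_tri y hq1
  have hWq := h.Wpos q
  have hc0 : 0 ≤ a / 3 * (2 * ‖y i‖) ^ (-α) :=
    mul_nonneg (by linarith) (Real.rpow_nonneg (by linarith [hpos i]) _)
  have h7 : a / 3 * (2 * ‖y i‖) ^ (-α) * ‖y i‖ ≤ W i := by
    have h8 : ‖y i‖ ≤ ∑ j ∈ Ico i q, ‖y (j + 1) - y j‖ := by linarith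
    have := mul_le_mul_of_nonneg_left h8 hc0
    linarith
  have h9 : (2 * ‖y i‖) ^ (-α) = (2 : ℝ) ^ (-α) * ‖y i‖ ^ (-α) :=
    Real.mul_rpow (by norm_num) (hpos i).le
  have h10 : ‖y i‖ ^ (α - 1) * (‖y i‖ ^ (-α) * ‖y i‖) = 1 := by
    have e1 : ‖y i‖ ^ (-α) * ‖y i‖ = ‖y i‖ ^ (-α + 1) := by
      rw [Real.rpow_add (hpos i), Real.rpow_one]
    rw [e1, ← Real.rpow_add (hpos i)]
    have : α - 1 + (-α + 1) = 0 := by ring
    rw [this, Real.rpow_zero]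
  have h11 : 0 ≤ ‖y i‖ ^ (α - 1) := Real.rpow_nonneg (hpos i).le _
  unfold En
  calc a / 3 * (2 : ℝ) ^ (-α) = a / 3 * (2 : ℝ) ^ (-α) *
        (‖y i‖ ^ (α - 1) * (‖y i‖ ^ (-α) * ‖y i‖)) := by rw [h10, mul_one]
    _ = ‖y i‖ ^ (α - 1) * (a / 3 * (2 * ‖y i‖) ^ (-α) * ‖y i‖) := by rw [h9]; ring
    _ ≤ ‖y i‖ ^ (α - 1) * W i := mul_le_mul_of_nonneg_left h7 h11
-- END glo

-- BEGIN bnn
/-- from `hF`, `small`, `one` -/
theorem DS.bnn (h : DS y W H a b K K1 M α θ) (i : ℕ) :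
    0 ≤ En y W α i - En y W α (i + 1) + K1 * De y θ i ^ 2 ∧ De y θ i ^ 2 ≤ Bb y W K1 α θ i ∧
      0 ≤ Bb y W K1 α θ i ∧ 0 < De y θ i ∧ De y θ i ≤ 1 / 32 := by
  have h1 : 0 ≤ En y W α i - En y W α (i + 1) + K1 * De y θ i ^ 2 := by
    have := h.hF i
    unfold En De
    linarith
  have h2 : 0 < De y θ i := Real.rpow_pos_of_pos (lt_of_lt_of_le one_pos (h.one i)) _
  have h3 : 0 ≤ De y θ i ^ 2 := by positivity
  refine ⟨h1, ?_, ?_, h2, h.small i⟩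
  · unfold Bb
    linarith
  · unfold Bb
    linarith

/-- variation of the energy: telescoping, `|G j - G (j+1)| ≤ D j + K1 De j ^ 2 ≤ (1 + K1) Bb j` where
`D j = G j - G (j+1) + K1 De j ^ 2 ≥ 0` -/
theorem DS.osc (h : DS y W H a b K K1 M α θ) {i q : ℕ} (hiq : i ≤ q) :
    |En y W α i - En y W α q| ≤ (1 + K1) * ∑ j ∈ Ico i q, Bb y W K1 α θ j := by
  induction q, hiq using Nat.le_induction with
  | base => simp
  | succ q hiq ih =>
    rw [sum_Ico_succ_top hiq, mul_add]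
    have h1 := h.bnn q
    have hK := h.hK1
    have h2 : |En y W α q - En y W α (q + 1)| ≤ (1 + K1) * Bb y W K1 α θ q := by
      have e : Bb y W K1 α θ q = (En y W α q - En y W α (q + 1) + K1 * De y θ q ^ 2) +
        De y θ q ^ 2 := rfl
      have h3 : K1 * De y θ q ^ 2 ≤ K1 * Bb y W K1 α θ q :=
        mul_le_mul_of_nonneg_left h1.2.1 hK.le
      have h4 : 0 ≤ De y θ q ^ 2 := by positivity
      have h5 : 0 ≤ K1 * De y θ q ^ 2 := by positivity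
      rw [abs_le]
      constructor <;> linarith [h1.1, h1.2.2.1]
    calc |En y W α i - En y W α (q + 1)|
        ≤ |En y W α i - En y W α q| + |En y W α q - En y W α (q + 1)| := abs_sub_le _ _ _
      _ ≤ _ := add_le_add ih h2
-- END bnn

-- BEGIN pie
/-- the turning in a short piece (`p < q`): `u = ‖y q‖⁻¹ • y q`, `q i = 1 - inner (y i) u / ‖y i‖`
(zero at `q`), `cos_step` gives `q i ≤ q (i+1) + 2 De i q i + e i` with
`e i = Y i / ((α-1) g0) + 18 De i ^ 2`, `g0` from `DS.glow`, `Y i ≥ 0` the right side of `DS.stepq`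
(if the bracket is negative there is nothing to do), `Σ Y i ≤ (1 + c1 + (α-1) (1+K1)) Σ Bb` by
`DS.osc` and `Σ De ≤ 1/16`; `gron` (extend `q`, `e` by zero outside `[p, q]`), `exp (1/4) ≤ 2`;
`unit_sq` -/
theorem DS.piece (h : DS y W H a b K K1 M α θ) {p q : ℕ} (hpq : p ≤ q)
    (hs : ∑ i ∈ Ico p q, De y θ i ≤ 1 / 16) :
    ‖(‖y p‖⁻¹ • y p) - (‖y q‖⁻¹ • y q)‖ ^ 2 ≤
      4 * ((1 + (3 * K * b + 4 * (α - 1) * M) + (α - 1) * (1 + K1)) /
        ((α - 1) * (a / 3 * (2 : ℝ) ^ (-α))) + 18) * ∑ i ∈ Ico p q, Bb y W K1 α θ i := by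
  have hα : 0 < α - 1 := by linarith [h.hα]
  have ha := h.ha
  have hb := h.hb
  have hK := h.hK
  have hK1 := h.hK1
  have hM := h.hM
  have hy : ∀ i, 0 < ‖y i‖ := fun i => lt_of_lt_of_le one_pos (h.one i)
  obtain ⟨g0, hg⟩ : ∃ g0, (α - 1) * (a / 3 * (2 : ℝ) ^ (-α)) = g0 := ⟨_, rfl⟩
  have hg0 : 0 < g0 := by
    rw [← hg]
    have : (0 : ℝ) < 2 ^ (-α) := Real.rpow_pos_of_pos (by norm_num) _
    positivity
  obtain ⟨c1, hc1⟩ : ∃ c1, 3 * K * b + 4 * (α - 1) * M = c1 := ⟨_, rfl⟩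
  have hc10 : 0 ≤ c1 := by rw [← hc1]; positivity
  obtain ⟨S, hS⟩ : ∃ S, ∑ i ∈ Ico p q, Bb y W K1 α θ i = S := ⟨_, rfl⟩
  have hS0 : 0 ≤ S := by rw [← hS]; exact Finset.sum_nonneg fun i _ => (h.bnn i).2.2.1
  rw [hg, hc1, hS]
  obtain ⟨u, hu⟩ : ∃ u, ‖y q‖⁻¹ • y q = u := ⟨_, rfl⟩
  have hu1 : ‖u‖ = 1 := by
    rw [← hu, norm_smul, norm_inv, norm_norm, inv_mul_cancel₀ (hy q).ne']
  obtain ⟨c, hc⟩ : ∃ c : ℕ → ℝ, ∀ i, c i = inner ℝ (y i) u / ‖y i‖ := ⟨_, fun _ => rfl⟩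
  have hcle : ∀ i, c i ≤ 1 := by
    intro i
    rw [hc, div_le_one (hy i)]
    have := real_inner_le_norm (y i) u
    rwa [hu1, mul_one] at this
  have hcq : c q = 1 := by
    rw [hc, ← hu, real_inner_smul_right, real_inner_self_eq_norm_sq]
    have := (hy q).ne'
    field_simp
  obtain ⟨Y, hY⟩ : ∃ Y : ℕ → ℝ, ∀ i, Y i = (En y W α i - En y W α (i + 1) + K1 * De y θ i ^ 2) +
      c1 * De y θ i ^ 2 + (α - 1) * (3 / 2) * De y θ i * |En y W α i - En y W α q| :=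
    ⟨_, fun _ => rfl⟩
  have hDe : ∀ i, 0 < De y θ i := fun i => (h.bnn i).2.2.2.1
  have hY0 : ∀ i, 0 ≤ Y i := by
    intro i
    rw [hY]
    have h1 := (h.bnn i).1
    have h2 : 0 ≤ c1 * De y θ i ^ 2 := by positivity
    have h3 : 0 ≤ (α - 1) * (3 / 2) * De y θ i * |En y W α i - En y W α q| := by
      have := (hDe i).le
      positivity
    linarith
  have hsub : ∀ i, p ≤ i → ∑ j ∈ Ico i q, De y θ j ≤ 1 / 16 := by
    intro i hi
    refine le_trans ?_ hs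
    exact Finset.sum_le_sum_of_subset_of_nonneg (Finset.Ico_subset_Ico_left hi)
      fun j _ _ => (hDe j).le
  have hX : ∀ i, p ≤ i → i < q → (inner ℝ (y (i + 1) - y i) u -
      inner ℝ (y (i + 1) - y i) (y i) / ‖y i‖) / ‖y i‖ ≤ Y i / g0 := by
    intro i hi hiq
    have h1 := h.stepq hiq (hsub i hi)
    rw [hu, hc1, ← hY i] at h1
    obtain ⟨X, hXd⟩ : ∃ X, (inner ℝ (y (i + 1) - y i) u -
      inner ℝ (y (i + 1) - y i) (y i) / ‖y i‖) / ‖y i‖ = X := ⟨_, rfl⟩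
    rw [hXd] at h1 ⊢
    rcases le_or_gt X 0 with hX0 | hX0
    · exact hX0.trans (div_nonneg (hY0 i) hg0.le)
    · rw [le_div_iff₀ hg0]
      have h2 : g0 ≤ (α - 1) * En y W α q := by
        rw [← hg]
        exact mul_le_mul_of_nonneg_left (h.glow q) hα.le
      have h3 := mul_le_mul_of_nonneg_right h2 hX0.le
      linarith
  have hgr := gron (q := fun i => 1 - c i) (δ := De y θ)
    (e := fun i => Y i / g0 + 18 * De y θ i ^ 2) hpq (fun i => by linarith [hcle i])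
    (fun i => by
      have h1 := div_nonneg (hY0 i) hg0.le
      have h2 : 0 ≤ 18 * De y θ i ^ 2 := by positivity
      linarith)
    (fun i => ⟨(hDe i).le, by linarith [(h.bnn i).2.2.2.2]⟩)
    (fun i hi hiq => by
      have h1 := cos_step (y := y i) (w := y (i + 1) - y i) (u := u) (δ := De y θ i) (hy i) hu1
        (hDe i).le (by linarith [(h.bnn i).2.2.2.2]) (h.stp i)
      rw [add_sub_cancel, ← hc, ← hc] at h1
      have h2 := hX i hi hiq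
      show 1 - c i ≤ 1 - c (i + 1) + 2 * De y θ i * (1 - c i) + (Y i / g0 + 18 * De y θ i ^ 2)
      linarith)
  simp only [hcq, sub_self, zero_add] at hgr
  have hexp : Real.exp (4 * ∑ i ∈ Ico p q, De y θ i) ≤ 2 := by
    have h1 : Real.exp (4 * ∑ i ∈ Ico p q, De y θ i) ≤ Real.exp (1 / 4) :=
      Real.exp_le_exp.2 (by linarith)
    have h2 : Real.exp (1 / 4 : ℝ) ≤ 2 := by
      have h3 := Real.exp_bound_div_one_sub_of_interval (x := (1 / 4 : ℝ)) (by norm_num)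
        (by norm_num)
      refine h3.trans ?_
      norm_num
    exact h1.trans h2
  have hsum : ∑ i ∈ Ico p q, (Y i / g0 + 18 * De y θ i ^ 2) ≤
      ((1 + c1 + (α - 1) * (1 + K1)) / g0 + 18) * S := by
    have h1 : ∀ i ∈ Ico p q, Y i / g0 + 18 * De y θ i ^ 2 ≤
        ((1 + c1) / g0 + 18) * Bb y W K1 α θ i + (α - 1) * (3 / 2) * ((1 + K1) * S) / g0 *
          De y θ i := by
      intro i hi
      rw [Finset.mem_Ico] at hi
      obtain ⟨b1, b2, b3, b4, b5⟩ := h.bnn i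
      have h2 : |En y W α i - En y W α q| ≤ (1 + K1) * S := by
        refine (h.osc hi.2.le).trans (mul_le_mul_of_nonneg_left ?_ (by linarith))
        rw [← hS]
        exact Finset.sum_le_sum_of_subset_of_nonneg (Finset.Ico_subset_Ico_left hi.1)
          fun j _ _ => (h.bnn j).2.2.1
      have h3 : Y i ≤ (1 + c1) * Bb y W K1 α θ i + (α - 1) * (3 / 2) * ((1 + K1) * S) *
          De y θ i := by
        rw [hY]
        have h4 : (En y W α i - En y W α (i + 1) + K1 * De y θ i ^ 2) ≤ Bb y W K1 α θ i := by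
          unfold Bb
          have := sq_nonneg (De y θ i)
          linarith
        have h5 : c1 * De y θ i ^ 2 ≤ c1 * Bb y W K1 α θ i := mul_le_mul_of_nonneg_left b2 hc10
        have h6 : (α - 1) * (3 / 2) * De y θ i * |En y W α i - En y W α q| ≤
            (α - 1) * (3 / 2) * De y θ i * ((1 + K1) * S) :=
          mul_le_mul_of_nonneg_left h2 (by positivity)
        linarith
      have h7 : Y i / g0 ≤ ((1 + c1) * Bb y W K1 α θ i + (α - 1) * (3 / 2) * ((1 + K1) * S) *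
          De y θ i) / g0 := div_le_div_of_nonneg_right h3 hg0.le
      have h8 : ((1 + c1) * Bb y W K1 α θ i + (α - 1) * (3 / 2) * ((1 + K1) * S) *
          De y θ i) / g0 = (1 + c1) / g0 * Bb y W K1 α θ i + (α - 1) * (3 / 2) *
            ((1 + K1) * S) / g0 * De y θ i := by
        field_simp
      have h9 : 18 * De y θ i ^ 2 ≤ 18 * Bb y W K1 α θ i := by linarith
      rw [h8] at h7
      linarith
    refine (Finset.sum_le_sum h1).trans ?_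
    rw [Finset.sum_add_distrib, ← Finset.mul_sum, ← Finset.mul_sum, hS]
    have h10 : (α - 1) * (3 / 2) * ((1 + K1) * S) / g0 * ∑ i ∈ Ico p q, De y θ i ≤
        (α - 1) * (3 / 2) * ((1 + K1) * S) / g0 * (1 / 16) :=
      mul_le_mul_of_nonneg_left hs (by positivity)
    have h11 : (α - 1) * (3 / 2) * ((1 + K1) * S) / g0 * (1 / 16) ≤
        (α - 1) * (1 + K1) / g0 * S := by
      have h12 : 0 ≤ (α - 1) * (1 + K1) / g0 * S := by positivity
      have h13 : (α - 1) * (3 / 2) * ((1 + K1) * S) / g0 * (1 / 16) =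
          (α - 1) * (1 + K1) / g0 * S * (3 / 32) := by ring
      rw [h13]
      linarith
    have h14 : ((1 + c1 + (α - 1) * (1 + K1)) / g0 + 18) * S =
        ((1 + c1) / g0 + 18) * S + (α - 1) * (1 + K1) / g0 * S := by
      field_simp
      ring
    rw [h14]
    linarith
  have hEs : 0 ≤ ∑ i ∈ Ico p q, (Y i / g0 + 18 * De y θ i ^ 2) :=
    Finset.sum_nonneg fun i _ => by
      have h1 := div_nonneg (hY0 i) hg0.le
      have h2 : 0 ≤ 18 * De y θ i ^ 2 := by positivity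
      linarith
  have hfin : 1 - c p ≤ 2 * (((1 + c1 + (α - 1) * (1 + K1)) / g0 + 18) * S) := by
    refine hgr.trans ?_
    refine (mul_le_mul_of_nonneg_right hexp hEs).trans ?_
    exact mul_le_mul_of_nonneg_left hsum (by norm_num)
  rw [unit_sq (hy p) (hy q)]
  have hcp : c p = inner ℝ (y p) (y q) / (‖y p‖ * ‖y q‖) := by
    rw [hc, ← hu, real_inner_smul_right]
    have h1 := (hy p).ne'
    have h2 := (hy q).ne'
    field_simp
  rw [← hcp]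
  linarith
-- END pie

-- BEGIN sde
/-- the number of steps between two points is controlled by the remaining times:
`De i ≤ 2/a ‖y i‖ ^ (α-1) (W i - W (i+1))`, `‖y i‖ ^ (α-1) ≤ M / W i ≤ M / W q` (`W` decreases by
`decW`) -/
theorem DS.sumde (h : DS y W H a b K K1 M α θ) {p q : ℕ} (hpq : p ≤ q) :
    ∑ i ∈ Ico p q, De y θ i ≤ 2 * M / a * (W p / W q) := by
  have ha := h.ha
  have hM := h.hM
  have hy : ∀ i, 0 < ‖y i‖ := fun i => zero_lt_one.trans_le (h.one i)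
  have hdec : ∀ i, W (i + 1) ≤ W i := by
    intro i
    have h1 := h.decW i
    have h2 : 0 ≤ a / 2 * ‖y i‖ ^ (-θ) * ‖y i‖ ^ (1 - α) := by
      have := hy i
      positivity
    linarith
  have hanti : Antitone W := antitone_nat_of_succ_le hdec
  have hWq := h.Wpos q
  have key : ∀ i ∈ Ico p q, De y θ i ≤ 2 * M / a * ((W i - W (i + 1)) / W q) := by
    intro i hi
    rw [Finset.mem_Ico] at hi
    have h1 := h.decW i
    have h2 : ‖y i‖ ^ (1 - α) * ‖y i‖ ^ (α - 1) = 1 := by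
      rw [← Real.rpow_add (hy i)]
      simp
    have h3 : 0 < ‖y i‖ ^ (α - 1) := Real.rpow_pos_of_pos (hy i) _
    have h4 : De y θ i ≤ 2 / a * (‖y i‖ ^ (α - 1) * (W i - W (i + 1))) := by
      have h5 := mul_le_mul_of_nonneg_left h1 h3.le
      have h6 : ‖y i‖ ^ (α - 1) * (a / 2 * ‖y i‖ ^ (-θ) * ‖y i‖ ^ (1 - α)) = a / 2 * De y θ i := by
        unfold De
        calc ‖y i‖ ^ (α - 1) * (a / 2 * ‖y i‖ ^ (-θ) * ‖y i‖ ^ (1 - α)) =
            a / 2 * ‖y i‖ ^ (-θ) * (‖y i‖ ^ (1 - α) * ‖y i‖ ^ (α - 1)) := by ring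
          _ = a / 2 * ‖y i‖ ^ (-θ) := by rw [h2, mul_one]
      rw [h6] at h5
      have h7 : De y θ i = 2 / a * (a / 2 * De y θ i) := by field_simp
      rw [h7]
      exact mul_le_mul_of_nonneg_left h5 (by positivity)
    have h8 : ‖y i‖ ^ (α - 1) ≤ M / W q := by
      rw [le_div_iff₀ hWq]
      have h9 := h.upW i
      have h10 : W q ≤ W i := hanti hi.2.le
      nlinarith
    have h11 : 0 ≤ W i - W (i + 1) := sub_nonneg.2 (hdec i)
    have h12 := mul_le_mul_of_nonneg_right h8 h11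
    have h13 := mul_le_mul_of_nonneg_left h12 (show 0 ≤ 2 / a by positivity)
    refine h4.trans (h13.trans (le_of_eq ?_))
    ring
  refine (Finset.sum_le_sum key).trans ?_
  rw [← Finset.mul_sum, ← Finset.sum_div]
  have h1 : ∑ i ∈ Ico p q, (W i - W (i + 1)) = W p - W q := by
    have h2 := Finset.sum_Ico_sub W hpq
    have h3 : ∑ i ∈ Ico p q, (W i - W (i + 1)) = -∑ i ∈ Ico p q, (W (i + 1) - W i) := by
      rw [← Finset.sum_neg_distrib]
      refine Finset.sum_congr rfl fun i _ => by ring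
    rw [h3, h2]
    ring
  rw [h1]
  refine mul_le_mul_of_nonneg_left ?_ (by positivity)
  exact div_le_div_of_nonneg_right (by linarith) hWq.le
-- END sde

-- BEGIN sqs
/-- power inequality: `κ ≥ 1`: `z ^ κ ≤ z x ^ (κ-1)`; `κ < 1`: tangent (Bernoulli) -/
theorem pow_tel {κ x z : ℝ} (hκ : 0 < κ) (hz : 0 < z) (hzx : z ≤ x) :
    (x - z) * x ^ (κ - 1) ≤ 1 / min κ 1 * (x ^ κ - z ^ κ) := by
  have hx : 0 < x := lt_of_lt_of_le hz hzx
  have ex : x ^ κ = x ^ (κ - 1) * x := by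
    rw [← Real.rpow_add_one hx.ne']
    congr 1
    ring
  rcases le_total 1 κ with h | h
  · rw [min_eq_right h, div_one, one_mul]
    have ez : z ^ κ = z ^ (κ - 1) * z := by
      rw [← Real.rpow_add_one hz.ne']
      congr 1
      ring
    have h1 : z ^ (κ - 1) ≤ x ^ (κ - 1) := Real.rpow_le_rpow hz.le hzx (by linarith)
    rw [ex, ez]
    nlinarith
  · rw [min_eq_left h]
    have hb := rpow_one_add_le_one_add_mul_self (s := z / x - 1) (p := κ)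
      (by have := (div_pos hz hx).le; linarith) hκ.le h
    have e1 : (1 + (z / x - 1)) ^ κ = z ^ κ / x ^ κ := by
      rw [← Real.div_rpow hz.le hx.le]
      congr 1
      ring
    rw [e1] at hb
    have hxk : 0 < x ^ κ := Real.rpow_pos_of_pos hx κ
    have hxk1 : 0 < x ^ (κ - 1) := Real.rpow_pos_of_pos hx (κ - 1)
    rw [div_le_iff₀ hxk] at hb
    have e2 : (1 + κ * (z / x - 1)) * x ^ κ = x ^ κ - κ * ((x - z) * x ^ (κ - 1)) := by
      rw [ex]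
      field_simp
      ring
    rw [e2] at hb
    have e3 : 1 / κ * (x ^ κ - z ^ κ) = (x ^ κ - z ^ κ) / κ := by ring
    rw [e3, le_div_iff₀ hκ]
    linarith

private theorem sqs_one {P W W' De g κ M a : ℝ} (ha : 0 < a) (hg : 0 < g) (hP : 0 < P)
    (hW : 0 < W) (hM : 0 < M) (hκ : 0 < κ) (hDe : 0 < De) (h1 : a / 2 * De * P⁻¹ ≤ W - W')
    (h2 : P * W ≤ M) (h3 : g ≤ P * W) (h4 : De = P⁻¹ ^ κ) :
    De ^ 2 ≤ 2 * M / a * (g ^ κ)⁻¹ * ((W - W') * W ^ (κ - 1)) := by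
  have hPi : 0 < P⁻¹ := inv_pos.2 hP
  have hd : 0 ≤ W - W' := le_trans (by positivity) h1
  have h5 : De ≤ 2 / a * (P * (W - W')) := by
    have : a / 2 * De ≤ P * (W - W') := by
      have := mul_le_mul_of_nonneg_left h1 hP.le
      have e : P * (a / 2 * De * P⁻¹) = a / 2 * De := by
        field_simp
      linarith
    have e : De = 2 / a * (a / 2 * De) := by
      field_simp
    rw [e]
    exact mul_le_mul_of_nonneg_left this (by positivity)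
  have h6 : De * W ≤ 2 * M / a * (W - W') := by
    calc De * W ≤ 2 / a * (P * (W - W')) * W := mul_le_mul_of_nonneg_right h5 hW.le
      _ = 2 / a * (W - W') * (P * W) := by ring
      _ ≤ 2 / a * (W - W') * M := mul_le_mul_of_nonneg_left h2 (by positivity)
      _ = 2 * M / a * (W - W') := by ring
  have h7 : P⁻¹ ≤ W / g := by
    rw [le_div_iff₀ hg, inv_mul_le_iff₀ hP]
    exact h3
  have h8 : De ≤ W ^ κ * (g ^ κ)⁻¹ := by
    rw [h4]
    calc P⁻¹ ^ κ ≤ (W / g) ^ κ := Real.rpow_le_rpow hPi.le h7 hκ.le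
      _ = W ^ κ * (g ^ κ)⁻¹ := by rw [Real.div_rpow hW.le hg.le, div_eq_mul_inv]
  have hgk : 0 < (g ^ κ)⁻¹ := inv_pos.2 (Real.rpow_pos_of_pos hg κ)
  have hWk : 0 < W ^ κ := Real.rpow_pos_of_pos hW κ
  have eW : W ^ κ = W ^ (κ - 1) * W := by
    rw [← Real.rpow_add_one hW.ne']
    congr 1
    ring
  have h9 : De ^ 2 * W ≤ (2 * M / a * (g ^ κ)⁻¹ * ((W - W') * W ^ (κ - 1))) * W := by
    calc De ^ 2 * W = (De * W) * De := by ring
      _ ≤ (2 * M / a * (W - W')) * (W ^ κ * (g ^ κ)⁻¹) :=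
        mul_le_mul h6 h8 hDe.le (by positivity)
      _ = (2 * M / a * (g ^ κ)⁻¹ * ((W - W') * W ^ (κ - 1))) * W := by rw [eW]; ring
  exact le_of_mul_le_mul_right h9 hW

/-- square summability of the step sizes: as in `DS.sumde`,
`De i ≤ 2 M / a (W i - W (i+1)) / W i`, and with `κ = θ / (α-1)`, `De i = ‖y i‖ ^ (-θ) ≤
(W i / g0) ^ κ` by `DS.glow`; so `De i ^ 2 ≤ c (W i - W (i+1)) W i ^ (κ-1)`, `pow_tel`, telescoping -/
theorem DS.sumsq (h : DS y W H a b K K1 M α θ) :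
    ∃ B : ℝ, ∀ n, ∑ i ∈ range n, De y θ i ^ 2 ≤ B := by
  have ha := h.ha
  have hM := h.hM
  have hα1 : 0 < α - 1 := by linarith [h.hα]
  have hκ : 0 < θ / (α - 1) := div_pos h.hθ hα1
  have hg : 0 < a / 3 * (2 : ℝ) ^ (-α) := by positivity
  have hm : 0 < min (θ / (α - 1)) 1 := lt_min hκ one_pos
  have hstep : ∀ i, De y θ i ^ 2 ≤ 2 * M / a * ((a / 3 * (2 : ℝ) ^ (-α)) ^ (θ / (α - 1)))⁻¹ *
      (1 / min (θ / (α - 1)) 1) * (W i ^ (θ / (α - 1)) - W (i + 1) ^ (θ / (α - 1))) := by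
    intro i
    have hr : 0 < ‖y i‖ := lt_of_lt_of_le one_pos (h.one i)
    have hP : 0 < ‖y i‖ ^ (α - 1) := Real.rpow_pos_of_pos hr _
    have hDe : 0 < De y θ i := Real.rpow_pos_of_pos hr _
    have e1 : ‖y i‖ ^ (1 - α) = (‖y i‖ ^ (α - 1))⁻¹ := by
      rw [← Real.rpow_neg hr.le]
      congr 1
      ring
    have hdec := h.decW i
    rw [e1] at hdec
    have hgl : a / 3 * (2 : ℝ) ^ (-α) ≤ ‖y i‖ ^ (α - 1) * W i := h.glow i
    have e2 : De y θ i = (‖y i‖ ^ (α - 1))⁻¹ ^ (θ / (α - 1)) := by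
      rw [← Real.rpow_neg hr.le, ← Real.rpow_mul hr.le]
      unfold De
      congr 1
      field_simp
    have hone := sqs_one (W' := W (i + 1)) ha hg hP (h.Wpos i) hM hκ hDe hdec (h.upW i) hgl e2
    have hle : W (i + 1) ≤ W i := by
      have : 0 ≤ a / 2 * ‖y i‖ ^ (-θ) * (‖y i‖ ^ (α - 1))⁻¹ := by positivity
      linarith
    have htel := pow_tel hκ (h.Wpos (i + 1)) hle
    have hc : 0 ≤ 2 * M / a * ((a / 3 * (2 : ℝ) ^ (-α)) ^ (θ / (α - 1)))⁻¹ := by positivity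
    calc De y θ i ^ 2 ≤ _ := hone
      _ ≤ 2 * M / a * ((a / 3 * (2 : ℝ) ^ (-α)) ^ (θ / (α - 1)))⁻¹ *
          (1 / min (θ / (α - 1)) 1 * (W i ^ (θ / (α - 1)) - W (i + 1) ^ (θ / (α - 1)))) :=
        mul_le_mul_of_nonneg_left htel hc
      _ = _ := by ring
  refine ⟨2 * M / a * ((a / 3 * (2 : ℝ) ^ (-α)) ^ (θ / (α - 1)))⁻¹ *
      (1 / min (θ / (α - 1)) 1) * W 0 ^ (θ / (α - 1)), fun n => ?_⟩
  have hc : 0 ≤ 2 * M / a * ((a / 3 * (2 : ℝ) ^ (-α)) ^ (θ / (α - 1)))⁻¹ *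
      (1 / min (θ / (α - 1)) 1) := by positivity
  calc ∑ i ∈ range n, De y θ i ^ 2 ≤ ∑ i ∈ range n,
        (2 * M / a * ((a / 3 * (2 : ℝ) ^ (-α)) ^ (θ / (α - 1)))⁻¹ *
        (1 / min (θ / (α - 1)) 1) * (W i ^ (θ / (α - 1)) - W (i + 1) ^ (θ / (α - 1)))) :=
        sum_le_sum fun i _ => hstep i
    _ = 2 * M / a * ((a / 3 * (2 : ℝ) ^ (-α)) ^ (θ / (α - 1)))⁻¹ *
        (1 / min (θ / (α - 1)) 1) * (W 0 ^ (θ / (α - 1)) - W n ^ (θ / (α - 1))) := by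
        rw [← mul_sum, sum_range_sub']
    _ ≤ _ := by
        refine mul_le_mul_of_nonneg_left ?_ hc
        have := (Real.rpow_pos_of_pos (h.Wpos n) (θ / (α - 1))).le
        linarith
-- END sqs

-- BEGIN bsm
/-- telescoping with `En ≤ M` (`upW`), `En ≥ 0`, and `DS.sumsq` -/
theorem DS.bsum (h : DS y W H a b K K1 M α θ) :
    ∃ B : ℝ, ∀ n, ∑ i ∈ range n, Bb y W K1 α θ i ≤ B := by
  obtain ⟨B, hB⟩ := h.sumsq
  refine ⟨M + (K1 + 1) * B, fun n => ?_⟩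
  have h1 : ∑ i ∈ range n, Bb y W K1 α θ i =
      (En y W α 0 - En y W α n) + (K1 + 1) * ∑ i ∈ range n, De y θ i ^ 2 := by
    rw [Finset.mul_sum, ← Finset.sum_range_sub' (En y W α) n, ← Finset.sum_add_distrib]
    refine Finset.sum_congr rfl fun i _ => ?_
    unfold Bb
    ring
  have h2 : En y W α 0 ≤ M := h.upW 0
  have h3 : 0 ≤ En y W α n := mul_nonneg (Real.rpow_nonneg (norm_nonneg _) _) (h.Wpos n).le
  have h5 : (0 : ℝ) ≤ K1 + 1 := by linarith [h.hK1]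
  have h4 := mul_le_mul_of_nonneg_left (hB n) h5
  rw [h1]
  linarith
-- END bsm

-- BEGIN far
/-- long pieces, induction on `N`: if `Σ De > 1 / 16` take the smallest `m ≥ p` with
`Σ_[m, q) De ≤ 1 / 16`; it is larger than `1 / 32` as `De ≤ 1 / 32` (`DS.bnn`), so
`Σ_[p, m) De ≤ N / 32`; `((N+1) s + s) ^ 2` with `s = sqrt (C Σ Bb)` -/
theorem DS.far (h : DS y W H a b K K1 M α θ) {C : ℝ} (hC : 0 ≤ C)
    (hp : ∀ p q : ℕ, p ≤ q → ∑ i ∈ Ico p q, De y θ i ≤ 1 / 16 →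
      ‖(‖y p‖⁻¹ • y p) - (‖y q‖⁻¹ • y q)‖ ^ 2 ≤ C * ∑ i ∈ Ico p q, Bb y W K1 α θ i)
    (N : ℕ) {p q : ℕ} (hpq : p ≤ q) (hs : ∑ i ∈ Ico p q, De y θ i ≤ N / 32) :
    ‖(‖y p‖⁻¹ • y p) - (‖y q‖⁻¹ • y q)‖ ^ 2 ≤
      (N + 1) ^ 2 * C * ∑ i ∈ Ico p q, Bb y W K1 α θ i := by
  classical
  induction N generalizing p q with
  | zero =>
    have h1 := hp p q hpq (hs.trans (by norm_num))
    simpa using h1
  | succ N ih =>
    have hB : ∀ r t : ℕ, 0 ≤ ∑ i ∈ Ico r t, Bb y W K1 α θ i := fun r t =>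
      Finset.sum_nonneg fun i _ => (h.bnn i).2.2.1
    have hN0 : (0 : ℝ) ≤ N := Nat.cast_nonneg N
    push_cast at hs ⊢
    by_cases hc : ∑ i ∈ Ico p q, De y θ i ≤ 1 / 16
    · refine (hp p q hpq hc).trans ?_
      have h1 : 0 ≤ C * ∑ i ∈ Ico p q, Bb y W K1 α θ i := mul_nonneg hC (hB p q)
      have h2 : (1 : ℝ) ≤ ((N : ℝ) + 1 + 1) ^ 2 := by nlinarith
      nlinarith
    · have hex : ∃ m, p ≤ m ∧ ∑ i ∈ Ico m q, De y θ i ≤ 1 / 16 :=
        ⟨q, hpq, by simp⟩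
      obtain ⟨hm1, hm2⟩ := Nat.find_spec hex
      have hmin := fun k (hk : k < Nat.find hex) => Nat.find_min hex hk
      set m := Nat.find hex with hm
      have hmq : m ≤ q := Nat.find_min' hex ⟨hpq, by simp⟩
      have hpm : p < m := by
        rcases Nat.lt_or_ge p m with h1 | h1
        · exact h1
        · have h2 : m = p := le_antisymm h1 hm1
          rw [h2] at hm2
          exact absurd hm2 hc
      obtain ⟨m', hm'⟩ : ∃ m', m = m' + 1 := ⟨m - 1, by omega⟩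
      have h3 : ¬ ∑ i ∈ Ico m' q, De y θ i ≤ 1 / 16 := fun h4 =>
        hmin m' (by omega) ⟨by omega, h4⟩
      have h4 : ∑ i ∈ Ico m' q, De y θ i = De y θ m' + ∑ i ∈ Ico m q, De y θ i := by
        rw [hm', Finset.sum_eq_sum_Ico_succ_bot (by omega)]
      have h5 := (h.bnn m').2.2.2.2
      have h6 : ∑ i ∈ Ico p m, De y θ i + ∑ i ∈ Ico m q, De y θ i = ∑ i ∈ Ico p q, De y θ i :=
        Finset.sum_Ico_consecutive _ hpm.le hmq
      have h7 : ∑ i ∈ Ico p m, Bb y W K1 α θ i + ∑ i ∈ Ico m q, Bb y W K1 α θ i =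
          ∑ i ∈ Ico p q, Bb y W K1 α θ i := Finset.sum_Ico_consecutive _ hpm.le hmq
      push Not at h3
      have h8 : ∑ i ∈ Ico p m, De y θ i ≤ N / 32 := by linarith
      have h9 := ih hpm.le h8
      have h10 := hp m q hmq hm2
      set S := ∑ i ∈ Ico p q, Bb y W K1 α θ i with hS
      have hS1 : ∑ i ∈ Ico p m, Bb y W K1 α θ i ≤ S := by linarith [hB m q]
      have hS2 : ∑ i ∈ Ico m q, Bb y W K1 α θ i ≤ S := by linarith [hB p m]
      have hCS : 0 ≤ C * S := mul_nonneg hC (hB p q)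
      set s := Real.sqrt (C * S) with hsdef
      have hs0 : 0 ≤ s := Real.sqrt_nonneg _
      have hss : s ^ 2 = C * S := Real.sq_sqrt hCS
      have g1 : ‖(‖y p‖⁻¹ • y p) - (‖y m‖⁻¹ • y m)‖ ≤ (N + 1) * s := by
        apply le_of_sq_le_sq _ (by positivity)
        calc ‖(‖y p‖⁻¹ • y p) - (‖y m‖⁻¹ • y m)‖ ^ 2
            ≤ (N + 1) ^ 2 * C * ∑ i ∈ Ico p m, Bb y W K1 α θ i := h9
          _ ≤ (N + 1) ^ 2 * C * S :=
              mul_le_mul_of_nonneg_left hS1 (mul_nonneg (sq_nonneg _) hC)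
          _ = ((N + 1) * s) ^ 2 := by rw [mul_pow, hss]; ring
      have g2 : ‖(‖y m‖⁻¹ • y m) - (‖y q‖⁻¹ • y q)‖ ≤ s := by
        apply le_of_sq_le_sq _ hs0
        calc ‖(‖y m‖⁻¹ • y m) - (‖y q‖⁻¹ • y q)‖ ^ 2
            ≤ C * ∑ i ∈ Ico m q, Bb y W K1 α θ i := h10
          _ ≤ C * S := mul_le_mul_of_nonneg_left hS2 hC
          _ = s ^ 2 := hss.symm
      have g3 : ‖(‖y p‖⁻¹ • y p) - (‖y q‖⁻¹ • y q)‖ ≤ (N + 1 + 1) * s := by
        have := norm_sub_le_norm_sub_add_norm_sub (‖y p‖⁻¹ • y p) (‖y m‖⁻¹ • y m) (‖y q‖⁻¹ • y q)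
        linarith
      calc ‖(‖y p‖⁻¹ • y p) - (‖y q‖⁻¹ • y q)‖ ^ 2 ≤ ((N + 1 + 1) * s) ^ 2 :=
            pow_le_pow_left₀ (norm_nonneg _) g3 2
        _ = (N + 1 + 1) ^ 2 * C * S := by rw [mul_pow, hss]; ring
-- END far

end ds

end OneR
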