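import Pool.Agent.OneR.Fat

/-!
Problem MP_b9fb85_pr: the cluster contains everything within reach of the ray along arcs, with
explicit constants.
-/

set_option autoImplicit false

namespace OneR

open Finset ConeD ConeD.TRANSAux OneE Filter MeasureTheory

variable {d : ℕ}

/-- the reflection of the coordinate `i` -/
def flp (i : Fin d) (z : V d) : V d := fun k => if k = i then -z k else z k

-- BEGIN fli
private theorem fli_endp (f : V d →+ V d) (g : Step d → Step d) (hv : ∀ s, f (vec s) = vec (g s))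
    (l : List (Step d)) : ∀ x : V d, endp (f x) (l.map g) = f (endp x l) := by
  induction l with
  | nil => intro x; rfl
  | cons s l ih =>
    intro x
    show endp (f x + vec (g s)) (l.map g) = f (endp (x + vec s) l)
    rw [← hv, ← map_add, ih]

private theorem fli_wt (E : Edge d → ℝ) (f : V d →+ V d) (g : Step d → Step d)
    (k : Edge d → Edge d) (hv : ∀ s, f (vec s) = vec (g s))
    (hk : ∀ x s, k (edg x s) = edg (f x) (g s)) (l : List (Step d)) :
    ∀ x : V d, wt E (f x) (l.map g) = wt (fun e => E (k e)) x l := by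
  induction l with
  | nil => intro x; rfl
  | cons s l ih =>
    intro x
    show E (edg (f x) (g s)) + wt E (f x + vec (g s)) (l.map g) =
      E (k (edg x s)) + wt (fun e => E (k e)) (x + vec s) l
    rw [← hv, ← map_add, ih, hk]

private theorem fli_T (E : Edge d → ℝ) (f : V d ≃+ V d) (g : Step d ≃ Step d)
    (k : Edge d ≃ Edge d) (hv : ∀ s, f (vec s) = vec (g s))
    (hk : ∀ x s, k (edg x s) = edg (f x) (g s)) (z : V d) :
    T E 0 (f z) = T (fun e => E (k e)) 0 z := by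
  have h1 : ∀ l : List (Step d), endp 0 (l.map g) = f (endp 0 l) := by
    intro l
    have h := fli_endp f.toAddMonoidHom g hv l 0
    simpa using h
  have h2 : ∀ l : List (Step d), wt E 0 (l.map g) = wt (fun e => E (k e)) 0 l := by
    intro l
    have h := fli_wt E f.toAddMonoidHom g k hv hk l 0
    simpa using h
  unfold T
  refine (Equiv.iInf_congr ((Equiv.listEquivOfEquiv g).subtypeEquiv fun l => ?_) fun l => ?_).symm
  · show endp 0 l = z ↔ endp 0 (l.map g) = f z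
    rw [h1]
    exact (EmbeddingLike.apply_eq_iff_eq f).symm
  · exact h2 l.1

private theorem fli_hm (f : V d ≃+ V d) (g : Step d ≃ Step d)
    (k : Edge d ≃ Edge d) (hv : ∀ s, f (vec s) = vec (g s))
    (hk : ∀ x s, k (edg x s) = edg (f x) (g s)) (z : V d) : hm (f z) = hm z := by
  unfold hm
  simp_rw [fli_T _ f g k hv hk z]
  have h := measurePreserving_perm k
  have h2 : ∫ E, T E 0 z ∂(Measure.map (fun (E : Edge d → ℝ) (e : Edge d) => E (k e)) (PE d)) =
      ∫ E, T (fun e => E (k e)) 0 z ∂(PE d) :=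
    integral_map h.measurable.aemeasurable (measurable_T 0 z).aestronglyMeasurable
  rw [← h2, h.map_eq]

private def fli_r (i : Fin d) : V d ≃+ V d where
  toFun z := flp i z
  invFun z := flp i z
  left_inv z := by
    funext k
    by_cases h : k = i <;> simp [flp, h]
  right_inv z := by
    funext k
    by_cases h : k = i <;> simp [flp, h]
  map_add' z w := by
    funext k
    by_cases h : k = i
    · simp [flp, h, add_comm]
    · simp [flp, h]

private def fli_s (i : Fin d) : Step d ≃ Step d where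
  toFun s := (s.1, if s.1 = i then !s.2 else s.2)
  invFun s := (s.1, if s.1 = i then !s.2 else s.2)
  left_inv s := by
    obtain ⟨j, b⟩ := s
    by_cases h : j = i <;> simp [h]
  right_inv s := by
    obtain ⟨j, b⟩ := s
    by_cases h : j = i <;> simp [h]

private theorem fli_ev (i j : Fin d) : fli_r i (ev j) = if j = i then -ev j else ev j := by
  funext m
  show (if m = i then -(ev j : V d) m else (ev j : V d) m) = _
  unfold ev
  by_cases h : j = i
  · subst h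
    by_cases hm : m = j
    · subst hm; simp
    · simp [hm]
  · by_cases hm : m = i
    · subst hm
      simp [h, Ne.symm h]
    · simp [h, hm]

private def fli_e (i : Fin d) : Edge d ≃ Edge d where
  toFun e := (if e.2 = i then fli_r i e.1 - ev i else fli_r i e.1, e.2)
  invFun e := (if e.2 = i then fli_r i e.1 - ev i else fli_r i e.1, e.2)
  left_inv e := by
    obtain ⟨x, j⟩ := e
    have h2 : fli_r i (fli_r i x) = x := (fli_r i).left_inv x
    by_cases h : j = i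
    · simp [h, map_sub, h2, fli_ev]
    · simp [h, h2]
  right_inv e := by
    obtain ⟨x, j⟩ := e
    have h2 : fli_r i (fli_r i x) = x := (fli_r i).left_inv x
    by_cases h : j = i
    · simp [h, map_sub, h2, fli_ev]
    · simp [h, h2]

/-- `measurePreserving_perm` (ConeD/Prod) for the edge map `(v, j) ↦ (flp i v, j)` if `j ≠ i`,
`(flp i v - ev i, i)` if `j = i` (an involution); walks from `0` with steps `(j, b) ↦ (j, b)` if
`j ≠ i`, `(i, b) ↦ (i, !b)`; as `T_shift`, `integral_shift`, `integral_T` (ConeD/TProp) -/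
theorem hm_flp (i : Fin d) (z : V d) : hm (flp i z) = hm z := by
  refine fli_hm (fli_r i) (fli_s i) (fli_e i) ?_ ?_ z
  · rintro ⟨j, b⟩
    by_cases h : j = i
    · subst h
      cases b <;> simp [vec, fli_s, fli_ev]
    · cases b <;> simp [vec, fli_s, fli_ev, h]
  · rintro x ⟨j, b⟩
    by_cases h : j = i
    · subst h
      cases b <;> simp [edg, fli_s, fli_e, fli_ev]
    · cases b <;> simp [edg, fli_s, fli_e, fli_ev, h]
-- END fli

-- BEGIN prm
private def prm_P (σ : Equiv.Perm (Fin d)) (x : V d) : V d := fun k => x (σ k)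

private def prm_Q (σ : Equiv.Perm (Fin d)) : Edge d ≃ Edge d where
  toFun e := (prm_P σ e.1, σ.symm e.2)
  invFun e := (prm_P σ.symm e.1, σ e.2)
  left_inv e := by
    refine Prod.ext ?_ (σ.apply_symm_apply e.2)
    funext k
    show e.1 (σ (σ.symm k)) = e.1 k
    rw [σ.apply_symm_apply]
  right_inv e := by
    refine Prod.ext ?_ (σ.symm_apply_apply e.2)
    funext k
    show e.1 (σ.symm (σ k)) = e.1 k
    rw [σ.symm_apply_apply]

private def prm_S (σ : Equiv.Perm (Fin d)) : Step d ≃ Step d := Equiv.prodCongr σ.symm (Equiv.refl _)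

private theorem prm_ev (σ : Equiv.Perm (Fin d)) (j : Fin d) : prm_P σ (ev j) = ev (σ.symm j) := by
  classical
  funext k
  show (Pi.single j 1 : V d) (σ k) = (Pi.single (σ.symm j) 1 : V d) k
  rw [Pi.single_apply, Pi.single_apply]
  refine if_congr ?_ rfl rfl
  rw [Equiv.eq_symm_apply]

private theorem prm_add (σ : Equiv.Perm (Fin d)) (x y : V d) :
    prm_P σ (x + y) = prm_P σ x + prm_P σ y := rfl

private theorem prm_neg (σ : Equiv.Perm (Fin d)) (x : V d) : prm_P σ (-x) = -prm_P σ x := rfl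

private theorem prm_sub (σ : Equiv.Perm (Fin d)) (x y : V d) :
    prm_P σ (x - y) = prm_P σ x - prm_P σ y := rfl

private theorem prm_vec (σ : Equiv.Perm (Fin d)) (s : Step d) :
    vec (prm_S σ s) = prm_P σ (vec s) := by
  obtain ⟨j, b⟩ := s
  cases b
  · show -ev (σ.symm j) = prm_P σ (-ev j)
    rw [prm_neg, prm_ev]
  · show ev (σ.symm j) = prm_P σ (ev j)
    rw [prm_ev]

private theorem prm_edg (σ : Equiv.Perm (Fin d)) (x : V d) (s : Step d) :
    edg (prm_P σ x) (prm_S σ s) = prm_Q σ (edg x s) := by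
  obtain ⟨j, b⟩ := s
  cases b
  · show (prm_P σ x - ev (σ.symm j), σ.symm j) = (prm_P σ (x - ev j), σ.symm j)
    rw [prm_sub, prm_ev]
  · rfl

private theorem prm_endp (σ : Equiv.Perm (Fin d)) (x : V d) (l : List (Step d)) :
    endp (prm_P σ x) (l.map (prm_S σ)) = prm_P σ (endp x l) := by
  induction l generalizing x with
  | nil => rfl
  | cons s l ih =>
    rw [List.map_cons]
    show endp (prm_P σ x + vec (prm_S σ s)) (l.map (prm_S σ)) = prm_P σ (endp (x + vec s) l)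
    rw [prm_vec, ← prm_add]
    exact ih _

private theorem prm_wt (σ : Equiv.Perm (Fin d)) (E : Edge d → ℝ) (x : V d) (l : List (Step d)) :
    wt E (prm_P σ x) (l.map (prm_S σ)) = wt (fun e => E (prm_Q σ e)) x l := by
  induction l generalizing x with
  | nil => rfl
  | cons s l ih =>
    rw [List.map_cons]
    show E (edg (prm_P σ x) (prm_S σ s)) + wt E (prm_P σ x + vec (prm_S σ s)) (l.map (prm_S σ)) =
      E (prm_Q σ (edg x s)) + wt (fun e => E (prm_Q σ e)) (x + vec s) l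
    rw [prm_edg, prm_vec, ← prm_add, ih]

private theorem prm_inj (σ : Equiv.Perm (Fin d)) {x y : V d} (h : prm_P σ x = prm_P σ y) : x = y := by
  funext k
  have := congrFun h (σ.symm k)
  simpa [prm_P] using this

private theorem prm_T (σ : Equiv.Perm (Fin d)) (E : Edge d → ℝ) (z : V d) :
    T E 0 (prm_P σ z) = T (fun e => E (prm_Q σ e)) 0 z := by
  unfold T
  have h0 : prm_P σ 0 = 0 := rfl
  refine (Equiv.iInf_congr ((Equiv.listEquivOfEquiv (prm_S σ)).subtypeEquiv fun l => ?_)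
    fun l => ?_).symm
  · constructor
    · intro h
      have := prm_endp σ 0 l
      rw [h0] at this
      exact this.trans (congrArg _ h)
    · intro h
      have h1 := prm_endp σ 0 l
      rw [h0] at h1
      exact prm_inj σ (h1.symm.trans h)
  · have := prm_wt σ E 0 l.1
    rw [h0] at this
    exact this

/-- `measurePreserving_perm` (ConeD/Prod) for the edge map `(v, j) ↦ (v ∘ σ, σ.symm j)`; walks from
`0` with steps `(j, b) ↦ (σ.symm j, b)`; as `T_shift`, `integral_shift`, `integral_T` (ConeD/TProp) -/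
theorem hm_prm (σ : Equiv.Perm (Fin d)) (z : V d) : hm (fun k => z (σ k)) = hm z := by
  show hm (prm_P σ z) = hm z
  unfold hm
  simp_rw [prm_T σ _ z]
  have h := measurePreserving_perm (prm_Q σ)
  have h2 : ∫ E, T E 0 z ∂(Measure.map (fun (E : Edge d → ℝ) (e : Edge d) => E (prm_Q σ e)) (PE d)) =
      ∫ E, T (fun e => E (prm_Q σ e)) 0 z ∂(PE d) :=
    integral_map h.measurable.aemeasurable (measurable_T 0 z).aestronglyMeasurable
  rw [← h2, h.map_eq]
-- END prm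

-- BEGIN mue
/-- `hm_prm` for `Equiv.swap i j` in the definition of `mu`, `muh` -/
theorem mu_ev (i j : Fin d) : mu (ev i) = mu (ev j) := by
  classical
  unfold mu muh
  refine iInf_congr fun n => ?_
  have h1 : (fun k => ((n + 1) • ev j : V d) (Equiv.swap i j k)) = (n + 1) • ev i := by
    funext k
    show (n + 1) • (Pi.single j 1 : V d) (Equiv.swap i j k) = (n + 1) • (Pi.single i 1 : V d) k
    rw [Pi.single_apply, Pi.single_apply]
    congr 1
    refine if_congr ?_ rfl rfl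
    constructor
    · intro h
      have := congrArg (Equiv.swap i j) h
      rwa [Equiv.swap_apply_self, Equiv.swap_apply_right] at this
    · rintro rfl
      exact Equiv.swap_apply_left _ _
  rw [← h1, hm_prm]

/-- `muh_low` (OneR/Val) and `hf_hm` -/
theorem mu_ev_pos (i : Fin d) : 0 < mu (ev i) := by
  obtain ⟨a, C, hh⟩ := hf_hm d
  have h1 := muh_low hh (ev i)
  rw [nrm_ev, mul_one] at h1
  exact hh.pos.trans_le h1
-- END mue

-- BEGIN mlo
private theorem mlo_neg (z : V d) : mu (-z) = mu z := by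
  unfold mu muh
  congr 1
  funext n
  rw [smul_neg, hm_neg]

private theorem mlo_flp (i : Fin d) (z : V d) : mu (flp i z) = mu z := by
  unfold mu muh
  congr 1
  funext n
  have h : (n + 1) • flp i z = flp i ((n + 1) • z) := by
    funext k
    unfold flp
    simp only [Pi.smul_apply]
    split_ifs
    · rw [smul_neg]
    · rfl
  rw [h, hm_flp]

private theorem mlo_id (i : Fin d) (z : V d) :
    mu ((2 * (z i).natAbs) • ev i) = mu (z + -(flp i z)) := by
  have e1 : ∀ k : Fin d, (z + -(flp i z)) k = if k = i then 2 * z i else 0 := by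
    intro k
    show z k + -(flp i z k) = _
    unfold flp
    split_ifs with hk
    · rw [hk]; ring
    · ring
  have e2 : ∀ k : Fin d, ((2 * (z i).natAbs) • (ev i : V d)) k =
      if k = i then 2 * ((z i).natAbs : ℤ) else 0 := by
    intro k
    rw [Pi.smul_apply]
    unfold ev
    rw [Pi.single_apply]
    split_ifs
    · simp
    · simp
  rcases Int.natAbs_eq (z i) with h | h
  · congr 1
    funext k
    rw [e1, e2]
    split_ifs
    · rw [← h]
    · rfl
  · rw [← mlo_neg (z + -(flp i z))]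
    congr 1
    funext k
    rw [Pi.neg_apply, e1, e2]
    split_ifs
    · omega
    · rfl

/-- `2 z_i e_i = z + (-(flp i z))`, `muh_add`, `muh_nsmul_le`, `le_muh_nsmul` (OneR/Crit, Val),
`hm_neg`, `hm_flp` -/
theorem mu_coord (i : Fin d) (z : V d) : |(z i : ℝ)| * mu (ev i) ≤ mu z := by
  obtain ⟨a, C, hh⟩ := hf_hm d
  by_cases h0 : z i = 0
  · rw [h0, Int.cast_zero, abs_zero, zero_mul]
    exact muh_nonneg hh z
  have hp : 0 < 2 * (z i).natAbs := by
    have := Int.natAbs_pos.2 h0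
    omega
  have h1 : ((2 * (z i).natAbs : ℕ) : ℝ) * mu (ev i) ≤ mu ((2 * (z i).natAbs) • ev i) :=
    le_muh_nsmul hh hp (ev i)
  have h3 : mu (z + -(flp i z)) ≤ mu z + mu (-(flp i z)) := muh_add hh _ _
  rw [mlo_neg, mlo_flp] at h3
  rw [mlo_id] at h1
  have h5 : (((z i).natAbs : ℕ) : ℝ) = |(z i : ℝ)| := by
    rw [Nat.cast_natAbs, Int.cast_abs]
  push_cast at h1
  rw [← h5]
  nlinarith [h1, h3]

/-- `nrm z ^ 2 ≤ d * max |z k| ^ 2`, `mu_coord`, `mu_ev` -/
theorem mu_nrm (i : Fin d) (z : V d) : nrm z * mu (ev i) ≤ Real.sqrt d * mu z := by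
  obtain ⟨a, C, hh⟩ := hf_hm d
  have hz : 0 ≤ mu z := muh_nonneg hh z
  have hi : 0 ≤ mu (ev i) := muh_nonneg hh _
  have h1 : ∀ k : Fin d, ((z k : ℝ)) ^ 2 * mu (ev i) ^ 2 ≤ mu z ^ 2 := by
    intro k
    have h2 := mu_coord k z
    rw [mu_ev k i] at h2
    have h3 : (|(z k : ℝ)| * mu (ev i)) ^ 2 ≤ mu z ^ 2 :=
      pow_le_pow_left₀ (mul_nonneg (abs_nonneg _) hi) h2 2
    rw [mul_pow, sq_abs] at h3
    exact h3
  have h4 : (∑ k : Fin d, ((z k : ℝ)) ^ 2) * mu (ev i) ^ 2 ≤ d * mu z ^ 2 := by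
    rw [Finset.sum_mul]
    calc ∑ k : Fin d, ((z k : ℝ)) ^ 2 * mu (ev i) ^ 2 ≤ ∑ _k : Fin d, mu z ^ 2 :=
          Finset.sum_le_sum fun k _ => h1 k
      _ = d * mu z ^ 2 := by
          rw [Finset.sum_const, Finset.card_univ, Fintype.card_fin, nsmul_eq_mul]
  have h6 : (nrm z * mu (ev i)) ^ 2 ≤ (Real.sqrt d * mu z) ^ 2 := by
    rw [mul_pow, mul_pow, Real.sq_sqrt (Nat.cast_nonneg d)]
    unfold nrm
    rw [Real.sq_sqrt (Finset.sum_nonneg fun k _ => sq_nonneg _)]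
    exact h4
  exact le_of_sq_le_sq h6 (mul_nonneg (Real.sqrt_nonneg _) hz)
-- END mlo

-- BEGIN hup
private theorem hup_axis {h : V d → ℝ} {a b C : ℝ} (hh : HF h a b C) {M : ℝ} (i : Fin d)
    (hM : muh h (ev i) ≤ M) {ε : ℝ} (hε : 0 < ε) :
    ∃ C' : ℝ, 0 ≤ C' ∧ ∀ z : ℤ, h (z • ev i) ≤ (M + ε) * |(z : ℝ)| + C' := by
  have hM0 : 0 ≤ M + ε := by
    have := muh_nonneg hh (ev i)
    linarith
  have h1 := (muh_tendsto hh (ev i)).eventually_lt_const
    (show muh h (ev i) < M + ε by linarith)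
  obtain ⟨N, hN⟩ := eventually_atTop.1 h1
  have h2 : ∀ n : ℕ, h (n • ev i) ≤ (M + ε) * n + |b| * (N + 1) := by
    intro n
    have hb : 0 ≤ |b| * ((N : ℝ) + 1) := by positivity
    rcases Nat.lt_or_ge n (N + 1) with hn | hn
    · have h3 : h (n • ev i) ≤ |b| * (N + 1) := by
        refine (hh.up _).trans ?_
        rw [nrm_nsmul, nrm_ev, mul_one]
        have h4 : (n : ℝ) ≤ N + 1 := by exact_mod_cast hn.le
        exact (mul_le_mul_of_nonneg_right (le_abs_self b) (Nat.cast_nonneg n)).trans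
          (mul_le_mul_of_nonneg_left h4 (abs_nonneg b))
      have h4 : 0 ≤ (M + ε) * (n : ℝ) := by positivity
      linarith
    · have h3 := hN n (by omega)
      have hn0 : (0 : ℝ) < n := by
        have : 0 < n := by omega
        exact_mod_cast this
      rw [div_lt_iff₀ hn0] at h3
      linarith
  refine ⟨|b| * (N + 1), by positivity, fun z => ?_⟩
  rcases Int.natAbs_eq z with hz | hz
  · have h3 := h2 z.natAbs
    rw [hz]
    have h4 : ((z.natAbs : ℤ) : ℤ) • ev i = z.natAbs • ev i := natCast_zsmul (ev i) z.natAbs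
    rw [h4]
    simpa using h3
  · have h3 := h2 z.natAbs
    rw [hz]
    have h4 : (-(z.natAbs : ℤ)) • ev i = -(z.natAbs • ev i) := by
      rw [neg_smul, natCast_zsmul]
    rw [h4, hh.neg]
    simpa using h3

private theorem hup_gen {h : V d → ℝ} {a b C : ℝ} (hh : HF h a b C) {M : ℝ}
    (hM : ∀ i : Fin d, muh h (ev i) ≤ M) {ε : ℝ} (hε : 0 < ε) :
    ∃ C' : ℝ, 0 ≤ C' ∧ ∀ x : V d, h x ≤ (M + ε) * ∑ i, |(x i : ℝ)| + C' := by
  choose C1 hC1 hC2 using fun i : Fin d => hup_axis hh i (hM i) hε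
  refine ⟨∑ i, C1 i, Finset.sum_nonneg fun i _ => hC1 i, fun x => ?_⟩
  have h0 : h 0 ≤ 0 := by
    have := hh.up 0
    rwa [nrm_zero, mul_zero] at this
  have key : ∀ s : Finset (Fin d), h (∑ i ∈ s, x i • ev i) ≤
      ∑ i ∈ s, ((M + ε) * |(x i : ℝ)| + C1 i) := by
    intro s
    induction s using Finset.induction_on with
    | empty => simpa using h0
    | insert i s hi ih =>
      rw [Finset.sum_insert hi, Finset.sum_insert hi]
      exact (hh.sub _ _).trans (add_le_add (hC2 i (x i)) ih)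
  have hx : ∑ i, x i • ev i = x := by
    funext j
    rw [Finset.sum_apply, Finset.sum_eq_single j]
    · simp [ev]
    · intro i _ hij
      simp [ev, hij.symm]
    · intro hj
      exact absurd (Finset.mem_univ _) hj
  have h1 := key Finset.univ
  rw [hx, Finset.sum_add_distrib, ← Finset.mul_sum] at h1
  exact h1

/-- `muh_tendsto` (OneR/Crit) for each `ev k`, `mu_ev`: `hm (n • ev k) ≤ (mu (ev i) + ε) * n + C` for
all `n`; then `z = ∑ k, z k • ev k`, `hm_neg`, `hm_add_le` -/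
theorem hm_up (i : Fin d) {ε : ℝ} (hε : 0 < ε) :
    ∃ C : ℝ, 0 ≤ C ∧ ∀ z : V d, hm z ≤ (mu (ev i) + ε) * ∑ k : Fin d, |(z k : ℝ)| + C := by
  obtain ⟨a, C, hh⟩ := hf_hm d
  exact hup_gen hh (fun k => le_of_eq (mu_ev k i)) hε
-- END hup

-- BEGIN leg
private theorem leg_rho {α ε : ℝ} (hα : 1 < α) (hε : 0 < ε) :
    ∃ ρ : ℝ, 0 < ρ ∧ ρ ≤ 1 / 4 ∧ (1 - 2 * ρ) ^ (-α) ≤ 1 + ε := by
  have h0 : 0 < (1 + ε) ^ (-(1 / α)) := Real.rpow_pos_of_pos (by linarith) _
  have h1 : (1 + ε) ^ (-(1 / α)) < 1 :=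
    Real.rpow_lt_one_of_one_lt_of_neg (by linarith) (by
      have : 0 < 1 / α := by positivity
      linarith)
  refine ⟨min (1 / 4) ((1 - (1 + ε) ^ (-(1 / α))) / 2), lt_min (by norm_num) (by linarith),
    min_le_left _ _, ?_⟩
  have h2 : (1 + ε) ^ (-(1 / α)) ≤ 1 - 2 * min (1 / 4) ((1 - (1 + ε) ^ (-(1 / α))) / 2) := by
    have := min_le_right (1 / 4 : ℝ) ((1 - (1 + ε) ^ (-(1 / α))) / 2)
    linarith
  have h3 := Real.rpow_le_rpow_of_nonpos h0 h2 (by linarith : -α ≤ 0)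
  refine h3.trans ?_
  rw [← Real.rpow_mul (by linarith)]
  have h4 : -(1 / α) * -α = 1 := by field_simp
  rw [h4, Real.rpow_one]

/-- as `ball_walk` (OneR/Fat): `T E x y ≤ h (y - x) + (2 nrm x) ^ (1 - η)` (`CC` at `2 nrm x`), a walk
with `E`-weight at most this plus one; its vertices are within `M δ nrm x` of `x`, `M` depending on
`a`, `b` only (the first vertex outside, `CC` again, `HF.low`), so the midpoints have norm at least
`(1 - M δ) nrm x - 1`; `wt_tau_le` -/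
theorem leg_walk {h : V d → ℝ} {a b C : ℝ} (hh : HF h a b C) {η : ℝ} (hη : 0 < η) (hη1 : η ≤ 1)
    {α : ℝ} (hα : 1 < α) {ε : ℝ} (hε : 0 < ε) :
    ∃ δ : ℝ, 0 < δ ∧ δ ≤ 1 / 2 ∧ ∀ κ C1 : ℝ, 0 ≤ κ → 0 ≤ C1 →
      (∀ z, h z ≤ κ * ∑ k : Fin d, |(z k : ℝ)| + C1) → ∀ ε' : ℝ, 0 < ε' → ∃ R1 : ℝ,
      ∀ (E : Edge d → ℝ) (R0 : ℝ), (∀ e, 0 ≤ E e) → CC h η E R0 →
      ∀ x y : V d, R1 ≤ nrm x → R0 ≤ nrm x → nrm (y - x) ≤ δ * nrm x →
        ∃ l : List (Step d), endp x l = y ∧ wt (tau α E) x l ≤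
          (1 + ε) * nrm x ^ (-α) * (κ * ∑ k : Fin d, |((y - x) k : ℝ)| + ε' * nrm x) := by
  obtain ⟨ρ, hρ0, hρ4, hρα⟩ := leg_rho hα hε
  have ha : 0 < a := hh.pos
  have hB : 0 < |b| + 1 := by positivity
  have haρ : 0 < a * ρ := mul_pos ha hρ0
  refine ⟨min (1 / 2) (a * ρ / (4 * (|b| + 1))), lt_min (by norm_num) (by positivity),
    min_le_left _ _, ?_⟩
  intro κ C1 hκ hC1 hup ε' hε'
  obtain ⟨k0, hk0, hka, hkε⟩ : ∃ k : ℝ, 0 < k ∧ k ≤ a * ρ / 4 ∧ k ≤ ε' :=
    ⟨min (a * ρ / 4) ε', lt_min (by positivity) hε', min_le_left _ _, min_le_right _ _⟩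
  have hY : 0 < (8 / k0) ^ (1 / η) := Real.rpow_pos_of_pos (by positivity) _
  refine ⟨max (max 2 (1 / ρ)) (max ((8 / k0) ^ (1 / η))
    (max (2 * (C + 1) / k0) (2 * (C1 + 1) / ε'))), ?_⟩
  intro E R0 hE hCC z v hr hR0 hv
  obtain ⟨r, hrdef⟩ : ∃ r : ℝ, r = nrm z := ⟨_, rfl⟩
  obtain ⟨δ, hδdef⟩ : ∃ δ : ℝ, δ = min (1 / 2) (a * ρ / (4 * (|b| + 1))) := ⟨_, rfl⟩
  rw [← hδdef, ← hrdef] at hv
  rw [← hrdef] at hr hR0
  rw [← hrdef]
  have hδ1 : δ ≤ 1 / 2 := by rw [hδdef]; exact min_le_left _ _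
  have hδk : |b| * δ ≤ a * ρ / 4 := by
    have h1 : δ ≤ a * ρ / (4 * (|b| + 1)) := by rw [hδdef]; exact min_le_right _ _
    have h2 : |b| * δ ≤ |b| * (a * ρ / (4 * (|b| + 1))) :=
      mul_le_mul_of_nonneg_left h1 (abs_nonneg b)
    have h3 : |b| * (a * ρ / (4 * (|b| + 1))) ≤ a * ρ / 4 := by
      rw [mul_div_assoc', div_le_div_iff₀ (by positivity) (by norm_num)]
      nlinarith [abs_nonneg b]
    linarith
  have hr2 : 2 ≤ r := ((le_max_left _ _).trans (le_max_left _ _)).trans hr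
  have hr0 : 0 < r := by linarith
  have hrρ : 1 ≤ ρ * r := by
    have h1 : 1 / ρ ≤ r := ((le_max_right _ _).trans (le_max_left _ _)).trans hr
    rw [div_le_iff₀ hρ0] at h1
    linarith
  have hrr := (le_max_right _ _).trans hr
  have hrY : (8 / k0) ^ (1 / η) ≤ r := (le_max_left _ _).trans hrr
  have hrr2 := (le_max_right _ _).trans hrr
  have hrC : 2 * (C + 1) / k0 ≤ r := (le_max_left _ _).trans hrr2
  have hrC1 : 2 * (C1 + 1) / ε' ≤ r := (le_max_right _ _).trans hrr2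
  have hX : (2 * r) ^ (1 - η) ≤ k0 / 4 * r := by
    have h1 : 8 / k0 ≤ (2 * r) ^ η := by
      have h2 : ((8 / k0) ^ (1 / η)) ^ η = 8 / k0 := by
        rw [← Real.rpow_mul (by positivity), one_div, inv_mul_cancel₀ hη.ne', Real.rpow_one]
      rw [← h2]
      exact Real.rpow_le_rpow hY.le (by linarith) hη.le
    have h3 : 0 < (2 * r) ^ η := Real.rpow_pos_of_pos (by linarith) _
    rw [Real.rpow_sub (by linarith), Real.rpow_one, div_le_iff₀ h3]
    have h4 : k0 / 4 * r * (8 / k0) ≤ k0 / 4 * r * (2 * r) ^ η :=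
      mul_le_mul_of_nonneg_left h1 (by positivity)
    have h5 : k0 / 4 * r * (8 / k0) = 2 * r := by
      field_simp
      norm_num
    linarith
  have hX0 : 0 ≤ (2 * r) ^ (1 - η) := Real.rpow_nonneg (by linarith) _
  have hCk : C + 1 ≤ k0 / 2 * r := by
    rw [div_le_iff₀ hk0] at hrC
    linarith
  have hC1k : C1 + 1 ≤ ε' / 2 * r := by
    rw [div_le_iff₀ hε'] at hrC1
    linarith
  have hkar : k0 * r ≤ a * ρ / 4 * r := mul_le_mul_of_nonneg_right hka hr0.le
  have hkεr : k0 * r ≤ ε' * r := mul_le_mul_of_nonneg_right hkε hr0.le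
  have hρr : ρ * r ≤ 1 / 4 * r := mul_le_mul_of_nonneg_right hρ4 hr0.le
  have hvz : nrm v ≤ 2 * r := by
    have h1 := nrm_le_add v z
    have h2 : δ * r ≤ 1 / 2 * r := mul_le_mul_of_nonneg_right hδ1 hr0.le
    rw [← hrdef] at h1
    linarith
  have hzz : nrm z ≤ 2 * r := by rw [← hrdef]; linarith
  have hT := hCC (2 * r) (by linarith) z v hzz hvz
  have hT2 := (abs_le.mp hT).2
  have hhv : h (v - z) ≤ a * ρ / 4 * r := by
    have h1 : h (v - z) ≤ |b| * nrm (v - z) := (hh.up _).trans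
      (mul_le_mul_of_nonneg_right (le_abs_self b) (nrm_nonneg _))
    have h2 : |b| * nrm (v - z) ≤ |b| * (δ * r) := mul_le_mul_of_nonneg_left hv (abs_nonneg b)
    have h3 : |b| * δ * r ≤ a * ρ / 4 * r := mul_le_mul_of_nonneg_right hδk hr0.le
    linarith
  obtain ⟨l, hl, hwl⟩ := exists_wt_lt (τ := E) (x := z) (y := v)
    (t := h (v - z) + (2 * r) ^ (1 - η) + 1) (by linarith)
  have hconf : ∀ l1 : List (Step d), (∃ l2, l = l1 ++ l2) → nrm (endp z l1 - z) ≤ ρ * r := by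
    intro l1
    induction l1 using List.reverseRecOn with
    | nil =>
      intro _
      rw [endp_nil, sub_self, nrm_zero]
      positivity
    | append_singleton l1 s ih =>
      rintro ⟨l2, hl2⟩
      have h1 := ih ⟨s :: l2, by rw [hl2]; simp⟩
      have h2 : nrm (endp z (l1 ++ [s]) - z) ≤ ρ * r + 1 := by
        rw [endp_append, endp_cons, endp_nil]
        have h3 : endp z l1 + vec s - z = (endp z l1 - z) + vec s := by abel
        rw [h3]
        refine (nrm_add_le _ _).trans ?_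
        rw [nrm_vec]
        linarith
      obtain ⟨x, hx⟩ : ∃ x : V d, x = endp z (l1 ++ [s]) := ⟨_, rfl⟩
      rw [← hx] at h2 ⊢
      have hxn : nrm x ≤ 2 * r := by
        have h4 := nrm_le_add x z
        rw [← hrdef] at h4
        linarith
      have h5 := hCC (2 * r) (by linarith) z x hzz hxn
      have h6 : T E z x ≤ wt E z (l1 ++ [s]) := T_le_wt hE hx.symm
      have h7 : wt E z (l1 ++ [s]) ≤ wt E z l := by
        rw [hl2, wt_append E z (l1 ++ [s]) l2]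
        linarith [wt_nonneg hE (endp z (l1 ++ [s])) l2]
      have h8 := hh.low (x - z)
      have h9 := (abs_le.mp h5).1
      have h10 : a * nrm (x - z) ≤ a * (ρ * r) := by
        have h11 : a * (ρ * r) = 4 * (a * ρ / 4 * r) := by ring
        rw [h11]
        linarith
      exact le_of_mul_le_mul_left h10 hh.pos
  have hm0 : 0 < (1 - 2 * ρ) * r := mul_pos (by linarith) hr0
  have hmid : ∀ l1 s l2, l = l1 ++ s :: l2 →
      (1 - 2 * ρ) * r ≤ mid (edg (endp z l1) s) := by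
    intro l1 s l2 hl2
    have h1 := hconf l1 ⟨s :: l2, hl2⟩
    have h2 := le_mid_edg (endp z l1) s
    have h3 := nrm_le_add z (endp z l1)
    rw [nrm_sub_comm, ← hrdef] at h3
    linarith
  refine ⟨l, hl, ?_⟩
  have hfin := wt_tau_le (ρ := 0) (τ' := tau α E) (by linarith : (0 : ℝ) ≤ α)
    hm0 hE (fun e _ => le_rfl) (by linarith) z l hmid
  refine hfin.trans ?_
  have hrα : 0 < r ^ (-α) := Real.rpow_pos_of_pos hr0 _
  rw [Real.mul_rpow (by linarith) hr0.le]
  have hw : wt E z l ≤ κ * ∑ k : Fin d, |((v - z) k : ℝ)| + ε' * r := by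
    have h1 := hup (v - z)
    linarith
  have hw0 : 0 ≤ wt E z l := wt_nonneg hE z l
  calc (1 - 2 * ρ) ^ (-α) * r ^ (-α) * wt E z l
      ≤ (1 + ε) * r ^ (-α) * wt E z l :=
        mul_le_mul_of_nonneg_right (mul_le_mul_of_nonneg_right hρα hrα.le) hw0
    _ ≤ _ := mul_le_mul_of_nonneg_left hw (mul_nonneg (by linarith) hrα.le)
-- END leg

-- BEGIN pts
private theorem pts_frame {E : Type*} [NormedAddCommGroup E] [InnerProductSpace ℝ E] [FiniteDimensional ℝ E]
    (hd : 2 ≤ Module.finrank ℝ E) {z v : E} (hz : 0 < ‖z‖) (hv : 0 < ‖v‖) :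
    ∃ f : E, ‖f‖ = 1 ∧ inner ℝ z f = 0 ∧
      v = ‖v‖ • (Real.cos (Real.arccos (inner ℝ z v / (‖z‖ * ‖v‖))) • (‖z‖⁻¹ • z) +
        Real.sin (Real.arccos (inner ℝ z v / (‖z‖ * ‖v‖))) • f) := by
  obtain ⟨e, he⟩ : ∃ e : E, e = ‖z‖⁻¹ • z := ⟨_, rfl⟩
  have he1 : ‖e‖ = 1 := by
    rw [he, norm_smul, norm_inv, norm_norm]
    exact inv_mul_cancel₀ hz.ne'
  have hze : z = ‖z‖ • e := by
    rw [he, smul_smul, mul_inv_cancel₀ hz.ne', one_smul]
  have hrat : inner ℝ z v / (‖z‖ * ‖v‖) = inner ℝ e v / ‖v‖ := by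
    conv_lhs => rw [hze, real_inner_smul_left]
    rw [norm_smul, he1, mul_one, norm_norm, mul_div_mul_left _ _ hz.ne']
  obtain ⟨c, hc⟩ : ∃ c : ℝ, c = inner ℝ e v / ‖v‖ := ⟨_, rfl⟩
  have hcv : inner ℝ e v = c * ‖v‖ := by
    rw [hc, div_mul_cancel₀ _ hv.ne']
  have habs : |inner ℝ e v| ≤ ‖v‖ := by
    have := abs_real_inner_le_norm e v
    rwa [he1, one_mul] at this
  have hc1 : |c| ≤ 1 := by
    rw [hc, abs_div, abs_of_pos hv, div_le_one hv]
    exact habs
  obtain ⟨hcl, hcu⟩ := abs_le.1 hc1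
  rw [hrat, ← hc, ← he, Real.cos_arccos hcl hcu, Real.sin_arccos]
  -- the orthogonal part
  obtain ⟨w, hw⟩ : ∃ w : E, w = v - (c * ‖v‖) • e := ⟨_, rfl⟩
  have hew : inner ℝ e w = 0 := by
    rw [hw, inner_sub_right, real_inner_smul_right, real_inner_self_eq_norm_sq, he1, hcv]
    ring
  have hww : ‖w‖ ^ 2 = ‖v‖ ^ 2 * (1 - c ^ 2) := by
    rw [← real_inner_self_eq_norm_sq]
    have h1 : inner ℝ w w = inner ℝ v w := by
      have h2 : inner ℝ (v - (c * ‖v‖) • e) w = inner ℝ v w := by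
        rw [inner_sub_left, real_inner_smul_left, hew, mul_zero, sub_zero]
      rwa [← hw] at h2
    rw [h1, hw, inner_sub_right, real_inner_smul_right, real_inner_self_eq_norm_sq,
      real_inner_comm, hcv]
    ring
  have hwn : ‖w‖ = ‖v‖ * Real.sqrt (1 - c ^ 2) := by
    rw [← Real.sqrt_sq (norm_nonneg w), hww, Real.sqrt_mul (sq_nonneg _), Real.sqrt_sq hv.le]
  by_cases h0 : w = 0
  · -- any unit vector orthogonal to e
    have hs0 : Real.sqrt (1 - c ^ 2) = 0 := by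
      rw [h0, norm_zero] at hwn
      exact (mul_eq_zero.1 hwn.symm).resolve_left hv.ne'
    have hne : (ℝ ∙ e)ᗮ ≠ ⊥ := by
      intro hbot
      have h2 := Submodule.finrank_add_finrank_orthogonal (ℝ ∙ e)
      rw [hbot, finrank_bot, add_zero] at h2
      have h3 := finrank_span_le_card (R := ℝ) ({e} : Set E)
      rw [Set.toFinset_singleton, Finset.card_singleton] at h3
      omega
    obtain ⟨g, hg, hg0⟩ := (Submodule.ne_bot_iff _).1 hne
    have hg0' : 0 < ‖g‖ := norm_pos_iff.2 hg0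
    refine ⟨‖g‖⁻¹ • g, ?_, ?_, ?_⟩
    · rw [norm_smul, norm_inv, norm_norm]
      exact inv_mul_cancel₀ hg0'.ne'
    · rw [real_inner_smul_right, hze, real_inner_smul_left,
        (Submodule.mem_orthogonal_singleton_iff_inner_right.1 hg), mul_zero, mul_zero]
    · rw [hs0, zero_smul, add_zero, smul_smul, mul_comm]
      have := hw
      rw [h0] at this
      exact (sub_eq_zero.1 this.symm)
  · have hw0 : 0 < ‖w‖ := norm_pos_iff.2 h0
    refine ⟨‖w‖⁻¹ • w, ?_, ?_, ?_⟩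
    · rw [norm_smul, norm_inv, norm_norm]
      exact inv_mul_cancel₀ hw0.ne'
    · rw [real_inner_smul_right, hze, real_inner_smul_left, hew, mul_zero, mul_zero]
    · have h4 : (‖v‖ * Real.sqrt (1 - c ^ 2)) • (‖w‖⁻¹ • w) = w := by
        rw [← hwn, smul_smul, mul_inv_cancel₀ hw0.ne', one_smul]
      rw [smul_add, smul_smul, smul_smul, h4, hw, mul_comm ‖v‖ c]
      abel

private theorem pts_lip {E : Type*} [NormedAddCommGroup E] [InnerProductSpace ℝ E] {e f : E}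
    (he : ‖e‖ = 1) (hf : ‖f‖ = 1) (hef : inner ℝ e f = 0) (s t : ℝ) :
    ‖(Real.cos s • e + Real.sin s • f) - (Real.cos t • e + Real.sin t • f)‖ ≤ |s - t| := by
  have h1 : (Real.cos s • e + Real.sin s • f) - (Real.cos t • e + Real.sin t • f) =
      (Real.cos s - Real.cos t) • e + (Real.sin s - Real.sin t) • f := by
    rw [sub_smul, sub_smul]
    abel
  have h2 : ‖(Real.cos s - Real.cos t) • e + (Real.sin s - Real.sin t) • f‖ ^ 2 =
      (Real.cos s - Real.cos t) ^ 2 + (Real.sin s - Real.sin t) ^ 2 := by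
    rw [norm_add_sq_real, norm_smul, norm_smul, he, hf, real_inner_smul_left, real_inner_smul_right,
      hef, mul_one, mul_one, Real.norm_eq_abs, Real.norm_eq_abs, sq_abs, sq_abs]
    ring
  have h3 : (Real.cos s - Real.cos t) ^ 2 + (Real.sin s - Real.sin t) ^ 2 ≤ |s - t| ^ 2 := by
    rw [sq_abs]
    have h4 := Real.one_sub_sq_div_two_le_cos (x := s - t)
    rw [Real.cos_sub] at h4
    nlinarith [Real.sin_sq_add_cos_sq s, Real.sin_sq_add_cos_sq t]
  rw [h1]
  exact abs_le_of_sq_le_sq' (by rw [h2]; exact h3) (abs_nonneg _) |>.2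

private theorem pts_unit {E : Type*} [NormedAddCommGroup E] [InnerProductSpace ℝ E] {e f : E}
    (he : ‖e‖ = 1) (hf : ‖f‖ = 1) (hef : inner ℝ e f = 0) (s : ℝ) :
    ‖Real.cos s • e + Real.sin s • f‖ = 1 := by
  have h2 : ‖Real.cos s • e + Real.sin s • f‖ ^ 2 = 1 := by
    rw [norm_add_sq_real, norm_smul, norm_smul, he, hf, real_inner_smul_left, real_inner_smul_right,
      hef, mul_one, mul_one, Real.norm_eq_abs, Real.norm_eq_abs, sq_abs, sq_abs]
    nlinarith [Real.sin_sq_add_cos_sq s]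
  exact (pow_eq_one_iff_of_nonneg (norm_nonneg _) two_ne_zero).1 h2

private noncomputable def pts_rnd (p : EuclideanSpace ℝ (Fin d)) : V d := fun k => round (p k)

private theorem pts_err (p : EuclideanSpace ℝ (Fin d)) : ‖toE (pts_rnd p) - p‖ ≤ Real.sqrt d / 2 := by
  rw [EuclideanSpace.norm_eq]
  have h1 : ∑ k : Fin d, ‖(toE (pts_rnd p) - p) k‖ ^ 2 ≤ d * (1 / 4 : ℝ) := by
    have h2 : ∀ k ∈ (Finset.univ : Finset (Fin d)), ‖(toE (pts_rnd p) - p) k‖ ^ 2 ≤ (1 / 4 : ℝ) := by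
      intro k _
      have h3 : (toE (pts_rnd p) - p) k = ((round (p k) : ℤ) : ℝ) - p k := rfl
      rw [h3, Real.norm_eq_abs, abs_sub_comm]
      have h4 := abs_sub_round (p k)
      nlinarith [abs_nonneg (p k - (round (p k) : ℝ))]
    refine (Finset.sum_le_card_nsmul _ _ _ h2).trans ?_
    rw [Finset.card_univ, Fintype.card_fin, nsmul_eq_mul]
  refine (Real.sqrt_le_sqrt h1).trans ?_
  rw [Real.sqrt_mul (Nat.cast_nonneg d)]
  have h5 : Real.sqrt (1 / 4 : ℝ) = 1 / 2 := by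
    rw [show (1 / 4 : ℝ) = (1 / 2) ^ 2 by norm_num]
    exact Real.sqrt_sq (by norm_num)
  rw [h5]
  linarith

private theorem pts_fix (x : V d) : pts_rnd (toE x) = x := by
  funext k
  unfold pts_rnd
  rw [toE_apply, round_intCast]

/-- points on an arc: `P t = r t • (cos (t θ) e + sin (t θ) f)`, `e = z / nrm z`,
`θ = arccos (ip z v / (nrm z nrm v))`, `r t = nrm z + t (nrm v - nrm z)`, `f` a unit vector orthogonal
to `e` with `v = nrm v (cos θ e + sin θ f)` (if `sin θ = 0` any unit vector orthogonal to `e`, it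
exists since `2 ≤ d`); `x i` is `P (i / N)` rounded (error at most `√d / 2`), `x 0 = z`, `x N = v` -/
theorem arc_pts (hd : 2 ≤ d) {N : ℕ} (hN : 0 < N) {δ : ℝ} (hδ : 0 ≤ δ) (hδ1 : δ ≤ 1 / 2)
    {z v : V d} (hz : 0 < nrm z) (hv : |nrm v - nrm z| ≤ δ * nrm z) :
    ∃ x : ℕ → V d, x 0 = z ∧ x N = v ∧
      (∀ i ≤ N, (1 - δ) * nrm z - Real.sqrt d ≤ nrm (x i) ∧
        nrm (x i) ≤ (1 + δ) * nrm z + Real.sqrt d) ∧
      ∀ i < N, nrm (x (i + 1) - x i) ≤
        ((1 + δ) * nrm z * Real.arccos (ip z v / (nrm z * nrm v)) + δ * nrm z) / N +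
          2 * Real.sqrt d := by
  obtain ⟨hv1, hv2⟩ := abs_le.1 hv
  have hvpos : 0 < nrm v := by nlinarith
  have hip : ip z v = inner ℝ (toE z) (toE v) := by
    unfold ip
    rw [EuclideanSpace.inner_eq_star_dotProduct]
    simp only [dotProduct, toE_apply, star_trivial]
    exact Finset.sum_congr rfl fun k _ => mul_comm _ _
  obtain ⟨f, hf1, hzf, hvf⟩ := pts_frame (E := EuclideanSpace ℝ (Fin d)) (z := toE z) (v := toE v)
    (by rw [finrank_euclideanSpace, Fintype.card_fin]; exact hd)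
    (by rw [← nrm_eq]; exact hz) (by rw [← nrm_eq]; exact hvpos)
  rw [← nrm_eq, ← nrm_eq, ← hip] at hvf
  obtain ⟨θ, hθ⟩ : ∃ θ : ℝ, θ = Real.arccos (ip z v / (nrm z * nrm v)) := ⟨_, rfl⟩
  rw [← hθ] at hvf ⊢
  have hθ0 : 0 ≤ θ := by rw [hθ]; exact Real.arccos_nonneg _
  obtain ⟨e, he⟩ : ∃ e : EuclideanSpace ℝ (Fin d), e = (nrm z)⁻¹ • toE z := ⟨_, rfl⟩
  rw [← he] at hvf
  have he1 : ‖e‖ = 1 := by
    rw [he, norm_smul, norm_inv, ← nrm_eq, Real.norm_of_nonneg hz.le]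
    exact inv_mul_cancel₀ hz.ne'
  have hef : inner ℝ e f = 0 := by
    rw [he, real_inner_smul_left, hzf, mul_zero]
  have hze : toE z = nrm z • e := by
    rw [he, smul_smul, mul_inv_cancel₀ hz.ne', one_smul]
  let r : ℝ → ℝ := fun t => nrm z + t * (nrm v - nrm z)
  let P : ℝ → EuclideanSpace ℝ (Fin d) := fun t =>
    r t • (Real.cos (t * θ) • e + Real.sin (t * θ) • f)
  have hNr : (0 : ℝ) < N := by exact_mod_cast hN
  have hr : ∀ t : ℝ, 0 ≤ t → t ≤ 1 → (1 - δ) * nrm z ≤ r t ∧ r t ≤ (1 + δ) * nrm z := by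
    intro t h0 h1
    have h2 : t * |nrm v - nrm z| ≤ δ * nrm z :=
      (mul_le_of_le_one_left (abs_nonneg _) h1).trans hv
    have h3 : |t * (nrm v - nrm z)| ≤ δ * nrm z := by
      rw [abs_mul, abs_of_nonneg h0]
      exact h2
    obtain ⟨h4, h5⟩ := abs_le.1 h3
    constructor
    · show (1 - δ) * nrm z ≤ nrm z + t * (nrm v - nrm z)
      linarith
    · show nrm z + t * (nrm v - nrm z) ≤ (1 + δ) * nrm z
      linarith
  have hP : ∀ t : ℝ, 0 ≤ t → t ≤ 1 → ‖P t‖ = r t := by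
    intro t h0 h1
    show ‖r t • (Real.cos (t * θ) • e + Real.sin (t * θ) • f)‖ = r t
    rw [norm_smul, pts_unit he1 hf1 hef, mul_one, Real.norm_of_nonneg]
    refine le_trans ?_ (hr t h0 h1).1
    have : 0 ≤ 1 - δ := by linarith
    positivity
  have hPP : ∀ s t : ℝ, 0 ≤ s → s ≤ 1 → ‖P t - P s‖ ≤
      |t - s| * ((1 + δ) * nrm z * θ + δ * nrm z) := by
    intro s t h0 h1
    have h2 : P t - P s = (r t - r s) • (Real.cos (t * θ) • e + Real.sin (t * θ) • f) +
        r s • ((Real.cos (t * θ) • e + Real.sin (t * θ) • f) -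
          (Real.cos (s * θ) • e + Real.sin (s * θ) • f)) := by
      show r t • (Real.cos (t * θ) • e + Real.sin (t * θ) • f) -
        r s • (Real.cos (s * θ) • e + Real.sin (s * θ) • f) = _
      rw [sub_smul, smul_sub]
      abel
    have hrs : 0 ≤ r s := by
      refine le_trans ?_ (hr s h0 h1).1
      have : 0 ≤ 1 - δ := by linarith
      positivity
    have h3 : ‖(r t - r s) • (Real.cos (t * θ) • e + Real.sin (t * θ) • f)‖ ≤
        |t - s| * (δ * nrm z) := by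
      rw [norm_smul, pts_unit he1 hf1 hef, mul_one, Real.norm_eq_abs]
      have h4 : r t - r s = (t - s) * (nrm v - nrm z) := by
        show nrm z + t * (nrm v - nrm z) - (nrm z + s * (nrm v - nrm z)) = _
        ring
      rw [h4, abs_mul]
      exact mul_le_mul_of_nonneg_left hv (abs_nonneg _)
    have h5 : ‖r s • ((Real.cos (t * θ) • e + Real.sin (t * θ) • f) -
          (Real.cos (s * θ) • e + Real.sin (s * θ) • f))‖ ≤ |t - s| * ((1 + δ) * nrm z * θ) := by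
      rw [norm_smul, Real.norm_of_nonneg hrs]
      have h6 := pts_lip he1 hf1 hef (t * θ) (s * θ)
      rw [← sub_mul, abs_mul, abs_of_nonneg hθ0] at h6
      calc r s * ‖(Real.cos (t * θ) • e + Real.sin (t * θ) • f) -
          (Real.cos (s * θ) • e + Real.sin (s * θ) • f)‖ ≤ ((1 + δ) * nrm z) * (|t - s| * θ) :=
            mul_le_mul (hr s h0 h1).2 h6 (norm_nonneg _) (by positivity)
        _ = |t - s| * ((1 + δ) * nrm z * θ) := by ring
    rw [h2]
    refine (norm_add_le _ _).trans ((add_le_add h3 h5).trans (le_of_eq ?_))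
    ring
  have hsq : 0 ≤ Real.sqrt d := Real.sqrt_nonneg _
  refine ⟨fun i => pts_rnd (P ((i : ℝ) / N)), ?_, ?_, ?_, ?_⟩
  · have h1 : P (((0 : ℕ) : ℝ) / N) = toE z := by
      show (nrm z + ((0 : ℕ) : ℝ) / N * (nrm v - nrm z)) •
        (Real.cos (((0 : ℕ) : ℝ) / N * θ) • e + Real.sin (((0 : ℕ) : ℝ) / N * θ) • f) = toE z
      rw [Nat.cast_zero, zero_div, zero_mul, zero_mul, Real.cos_zero, Real.sin_zero, one_smul,
        zero_smul, add_zero, add_zero, ← hze]
    show pts_rnd (P (((0 : ℕ) : ℝ) / N)) = z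
    rw [h1, pts_fix]
  · have h1 : P ((N : ℝ) / N) = toE v := by
      show (nrm z + (N : ℝ) / N * (nrm v - nrm z)) •
        (Real.cos ((N : ℝ) / N * θ) • e + Real.sin ((N : ℝ) / N * θ) • f) = toE v
      rw [div_self hNr.ne', one_mul, one_mul, add_sub_cancel, ← hvf]
    show pts_rnd (P ((N : ℝ) / N)) = v
    rw [h1, pts_fix]
  · intro i hi
    have h0 : (0 : ℝ) ≤ (i : ℝ) / N := by positivity
    have h1 : (i : ℝ) / N ≤ 1 := by
      rw [div_le_one hNr]
      exact_mod_cast hi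
    have h2 := pts_err (P ((i : ℝ) / N))
    have h3 := hP _ h0 h1
    have h4 := abs_norm_sub_norm_le (toE (pts_rnd (P ((i : ℝ) / N)))) (P ((i : ℝ) / N))
    obtain ⟨h5, h6⟩ := abs_le.1 (h4.trans h2)
    obtain ⟨h7, h8⟩ := hr _ h0 h1
    have h9 : nrm (pts_rnd (P ((i : ℝ) / N))) = ‖toE (pts_rnd (P ((i : ℝ) / N)))‖ := nrm_eq _
    constructor
    · show _ ≤ nrm (pts_rnd (P ((i : ℝ) / N)))
      linarith
    · show nrm (pts_rnd (P ((i : ℝ) / N))) ≤ _
      linarith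
  · intro i hi
    have h0 : (0 : ℝ) ≤ (i : ℝ) / N := by positivity
    have h1 : (i : ℝ) / N ≤ 1 := by
      rw [div_le_one hNr]
      exact_mod_cast hi.le
    have h2 := pts_err (P ((i : ℝ) / N))
    have h3 := pts_err (P (((i + 1 : ℕ) : ℝ) / N))
    have h4 := hPP ((i : ℝ) / N) (((i + 1 : ℕ) : ℝ) / N) h0 h1
    have h5 : ((i + 1 : ℕ) : ℝ) / N - (i : ℝ) / N = 1 / N := by
      rw [Nat.cast_succ, ← sub_div]
      congr 1
      ring
    rw [h5, abs_of_pos (by positivity)] at h4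
    show nrm (pts_rnd (P (((i + 1 : ℕ) : ℝ) / N)) - pts_rnd (P ((i : ℝ) / N))) ≤ _
    rw [nrm_eq, toE_sub]
    have h6 : toE (pts_rnd (P (((i + 1 : ℕ) : ℝ) / N))) - toE (pts_rnd (P ((i : ℝ) / N))) =
        (toE (pts_rnd (P (((i + 1 : ℕ) : ℝ) / N))) - P (((i + 1 : ℕ) : ℝ) / N)) +
        (P (((i + 1 : ℕ) : ℝ) / N) - P ((i : ℝ) / N)) -
        (toE (pts_rnd (P ((i : ℝ) / N))) - P ((i : ℝ) / N)) := by abel
    rw [h6]
    refine (norm_sub_le _ _).trans ?_
    have h7 := norm_add_le (toE (pts_rnd (P (((i + 1 : ℕ) : ℝ) / N))) - P (((i + 1 : ℕ) : ℝ) / N))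
      (P (((i + 1 : ℕ) : ℝ) / N) - P ((i : ℝ) / N))
    have h8 : 1 / (N : ℝ) * ((1 + δ) * nrm z * θ + δ * nrm z) =
        ((1 + δ) * nrm z * θ + δ * nrm z) / N := by ring
    rw [h8] at h4
    linarith
-- END pts

-- BEGIN chn
/-- concatenation -/
theorem chain_walk {τ : Edge d → ℝ} {x : ℕ → V d} {w : ℕ → ℝ} {N : ℕ}
    (h : ∀ i < N, ∃ l : List (Step d), endp (x i) l = x (i + 1) ∧ wt τ (x i) l ≤ w i) :
    ∃ l : List (Step d), endp (x 0) l = x N ∧ wt τ (x 0) l ≤ ∑ i ∈ range N, w i := by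
  induction N with
  | zero => exact ⟨[], rfl, by rw [wt_nil, range_zero, sum_empty]⟩
  | succ N ih =>
    obtain ⟨l, hl, hw⟩ := ih fun i hi => h i (Nat.lt_succ_of_lt hi)
    obtain ⟨l', hl', hw'⟩ := h N (Nat.lt_succ_self N)
    refine ⟨l ++ l', ?_, ?_⟩
    · rw [endp_append, hl, hl']
    · rw [wt_append, hl, sum_range_succ]
      exact add_le_add hw hw'
-- END chn

-- BEGIN par
/-- choice of the parameter: at `t = 0` and `θ = (1 - ε) / (q (α - 1))` (here `θ ≤ π` as well) the left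
side is at most `(1 - ε)` times the last factor; it is continuous in `t` and monotone in `θ` -/
theorem par_choice {m1 q sq α ε : ℝ} (hm : 0 < m1) (hq : 0 < q) (hsq : 0 < sq)
    (hqs : sq * sq = q) (hα : 1 < α) (hε : 0 < ε) (hε1 : ε < 1) :
    ∃ t : ℝ, 0 < t ∧ t ≤ 1 / 4 ∧ ∀ θ : ℝ, 0 ≤ θ → θ * (q * (α - 1)) ≤ 1 - ε →
      (1 + t) * (1 - 2 * t) ^ (-α) * ((m1 + t) * sq * ((1 + t) * θ + 2 * t) + 2 * t) ≤
        (1 - ε / 2) * (m1 / (sq * (α - 1))) := by
  have hA : 0 < α - 1 := by linarith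
  have hqA : 0 < q * (α - 1) := mul_pos hq hA
  have hF : ContinuousAt (fun t : ℝ => (1 + t) * (1 - 2 * t) ^ (-α) *
      ((m1 + t) * sq * ((1 + t) * ((1 - ε) / (q * (α - 1))) + 2 * t) + 2 * t)) 0 := by
    have h1 : ContinuousAt (fun t : ℝ => (1 - 2 * t) ^ (-α)) 0 := by
      apply ContinuousAt.rpow_const
      · fun_prop
      · left; norm_num
    have h2 : ContinuousAt (fun t : ℝ => (1 + t)) 0 := by fun_prop
    have h3 : ContinuousAt (fun t : ℝ =>
        (m1 + t) * sq * ((1 + t) * ((1 - ε) / (q * (α - 1))) + 2 * t) + 2 * t) 0 := by fun_prop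
    exact (h2.mul h1).mul h3
  have hF0 : (fun t : ℝ => (1 + t) * (1 - 2 * t) ^ (-α) *
      ((m1 + t) * sq * ((1 + t) * ((1 - ε) / (q * (α - 1))) + 2 * t) + 2 * t)) 0 <
      (1 - ε / 2) * (m1 / (sq * (α - 1))) := by
    have h0 : (fun t : ℝ => (1 + t) * (1 - 2 * t) ^ (-α) *
      ((m1 + t) * sq * ((1 + t) * ((1 - ε) / (q * (α - 1))) + 2 * t) + 2 * t)) 0 =
      (1 - ε) * (m1 / (sq * (α - 1))) := by
      simp only [mul_zero, sub_zero, add_zero, Real.one_rpow, one_mul]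
      rw [← hqs]
      field_simp
    rw [h0]
    have h1 : 0 < m1 / (sq * (α - 1)) := by positivity
    nlinarith
  have hev := (hF.eventually_lt continuousAt_const hF0).filter_mono
    (nhdsWithin_le_nhds (s := Set.Ioi (0 : ℝ)))
  have hev2 : ∀ᶠ t in nhdsWithin (0 : ℝ) (Set.Ioi 0), t ∈ Set.Ioo (0 : ℝ) (1 / 4) :=
    Ioo_mem_nhdsGT (by norm_num)
  obtain ⟨t, ht, ht0, ht4⟩ := (hev.and hev2).exists
  refine ⟨t, ht0, ht4.le, fun θ _ hθ => le_trans ?_ ht.le⟩
  have hθ' : θ ≤ (1 - ε) / (q * (α - 1)) := (le_div_iff₀ hqA).2 hθ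
  have hp : (0 : ℝ) ≤ (1 - 2 * t) ^ (-α) := Real.rpow_nonneg (by linarith) _
  have h1 : (0 : ℝ) ≤ (1 + t) * (1 - 2 * t) ^ (-α) := mul_nonneg (by linarith) hp
  have h2 : (0 : ℝ) ≤ (m1 + t) * sq := mul_nonneg (by linarith) hsq.le
  refine mul_le_mul_of_nonneg_left ?_ h1
  have h3 : (1 + t) * θ + 2 * t ≤ (1 + t) * ((1 - ε) / (q * (α - 1))) + 2 * t := by
    have := mul_le_mul_of_nonneg_left hθ' (by linarith : (0 : ℝ) ≤ 1 + t)
    linarith
  have h4 := mul_le_mul_of_nonneg_left h3 h2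
  linarith
-- END par

-- BEGIN awk
private theorem awk_sum (z : V d) :
    ∑ k : Fin d, |(z k : ℝ)| ≤ Real.sqrt d * nrm z := by
  have h1 : (∑ k : Fin d, |(z k : ℝ)|) ^ 2 ≤ (d : ℝ) * ∑ k : Fin d, |(z k : ℝ)| ^ 2 := by
    have h := sq_sum_le_card_mul_sum_sq (s := (Finset.univ : Finset (Fin d)))
      (f := fun k => |(z k : ℝ)|)
    simpa using h
  have h2 : ∑ k : Fin d, |(z k : ℝ)| ^ 2 = nrm z ^ 2 := by
    rw [nrm_sq]
    exact Finset.sum_congr rfl fun k _ => sq_abs _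
  rw [h2] at h1
  have h3 : 0 ≤ Real.sqrt d * nrm z := mul_nonneg (Real.sqrt_nonneg _) (nrm_nonneg _)
  refine le_of_sq_le_sq ?_ h3
  rw [mul_pow, Real.sq_sqrt (Nat.cast_nonneg d)]
  exact h1

/-- `t` from `par_choice` (`q = d`, `sq = √d`, `m1 = mu (ev i)`), `κ = m1 + t`, `hm_up`, `leg_walk`
with `ε := t` (its `δ` is called `δ'`), `N` with `2 (1 + π) / N ≤ δ' / 4`, `ε' := t / N`; for `nrm z`
large: `arc_pts` with `δ := t`, all `nrm (x i) ≥ (1 - 2 t) nrm z`, `≤ 2 nrm z`, the legs are shorter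
than `δ' nrm (x i)`, `∑ |.|_1 ≤ √d ∑ nrm ≤ √d nrm z ((1 + t) θ + 2 t)`; `chain_walk` -/
theorem arc_walk (hd : 2 ≤ d) (i0 : Fin d) {α : ℝ} (hα : 1 < α) {ε : ℝ} (hε : 0 < ε)
    (hε1 : ε < 1) :
    ∃ δ R1 : ℝ, 0 < δ ∧ ∀ (E : Edge d → ℝ) (R0 : ℝ), (∀ e, 0 ≤ E e) →
      CC (hm (d := d)) (eta d) E R0 → ∀ z v : V d, R1 ≤ nrm z → 2 * R0 ≤ nrm z →
      |nrm v - nrm z| ≤ δ * nrm z →
      Real.arccos (ip z v / (nrm z * nrm v)) * (d * (α - 1)) ≤ 1 - ε →
      ∃ l : List (Step d), endp z l = v ∧ wt (tau α E) z l ≤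
        (1 - ε / 2) * (mu (ev i0) / (Real.sqrt d * (α - 1))) * nrm z ^ (1 - α) := by
  obtain ⟨a, C0, hh⟩ := hf_hm d
  have he0 : 0 < eta d := by
    unfold eta
    positivity
  have he1 : eta d ≤ 1 := by
    unfold eta
    rw [div_le_one (by positivity)]
    have h : (0 : ℝ) ≤ (d : ℝ) := Nat.cast_nonneg d
    linarith
  have hm1 := mu_ev_pos i0
  have hd0 : (0 : ℝ) < (d : ℝ) := by
    have : 0 < d := by omega
    exact_mod_cast this
  have hsq : 0 < Real.sqrt d := Real.sqrt_pos.2 hd0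
  obtain ⟨t, ht0, ht1, ht⟩ := par_choice (q := (d : ℝ)) hm1 hd0 hsq
    (Real.mul_self_sqrt hd0.le) hα hε hε1
  obtain ⟨C, hC0, hC⟩ := hm_up i0 ht0
  obtain ⟨δ', hδ0, hδ1, hleg⟩ := leg_walk hh he0 he1 hα ht0
  obtain ⟨N, hN⟩ := exists_nat_gt (20 / δ')
  have h20 : 0 < 20 / δ' := by positivity
  have hN0 : (0 : ℝ) < N := h20.trans hN
  have hNpos : 0 < N := by exact_mod_cast hN0
  have hNδ : 20 / N ≤ δ' := by
    rw [div_lt_iff₀ hδ0] at hN
    rw [div_le_iff₀ hN0]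
    linarith
  have hκ : 0 ≤ mu (ev i0) + t := by linarith
  obtain ⟨R1, hR1⟩ := hleg (mu (ev i0) + t) C hκ hC0 hC (t / N) (by positivity)
  refine ⟨t, max 1 (max (2 * R1) (max (8 * Real.sqrt d / δ') (2 * N * Real.sqrt d / t))), ht0, ?_⟩
  intro E R0 hE hCC z v hr hR0 hv hθ
  have g1 : 1 ≤ nrm z := (le_max_left _ _).trans hr
  have g2 := (le_max_right _ _).trans hr
  have g3 : 2 * R1 ≤ nrm z := (le_max_left _ _).trans g2
  have g4 := (le_max_right _ _).trans g2
  have g5 : 8 * Real.sqrt d / δ' ≤ nrm z := (le_max_left _ _).trans g4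
  have g6 : 2 * N * Real.sqrt d / t ≤ nrm z := (le_max_right _ _).trans g4
  rw [div_le_iff₀ hδ0] at g5
  rw [div_le_iff₀ ht0] at g6
  obtain ⟨r, hrd⟩ : ∃ r : ℝ, r = nrm z := ⟨_, rfl⟩
  obtain ⟨θ, hθd⟩ : ∃ θ : ℝ, θ = Real.arccos (ip z v / (nrm z * nrm v)) := ⟨_, rfl⟩
  have hθ0 : 0 ≤ θ := hθd ▸ Real.arccos_nonneg _
  have hθπ : θ ≤ Real.pi := hθd ▸ Real.arccos_le_pi _
  have hz : 0 < nrm z := by linarith
  obtain ⟨x, hx0, hxN, hxr, hxs⟩ := arc_pts hd hNpos ht0.le (by linarith : t ≤ 1 / 2) hz hv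
  rw [← hθd] at hθ
  simp only [← hθd] at hxs
  rw [← hrd] at g1 g3 g5 g6 hR0 hz
  simp only [← hrd] at hxr hxs
  rw [← hrd]
  have hN1 : (1 : ℝ) ≤ N := by exact_mod_cast hNpos
  have hsd : Real.sqrt d ≤ r * t := by nlinarith
  have hsd2 : 2 * (N * Real.sqrt d) ≤ r * t := by linarith
  have hlow : ∀ i ≤ N, (1 - 2 * t) * r ≤ nrm (x i) := by
    intro i hi
    have := (hxr i hi).1
    nlinarith
  have hhalf : ∀ i ≤ N, r / 2 ≤ nrm (x i) := by
    intro i hi
    have h1 := hlow i hi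
    nlinarith
  have hup : ∀ i ≤ N, nrm (x i) ≤ 2 * r := by
    intro i hi
    have := (hxr i hi).2
    nlinarith
  have hstep : ∀ i < N, nrm (x (i + 1) - x i) ≤ δ' * nrm (x i) := by
    intro i hi
    have h1 := hxs i hi
    have h2 := hhalf i hi.le
    have h3 : (1 + t) * r * θ + t * r ≤ 5 * r := by
      have h4 : θ ≤ 3.15 := hθπ.trans Real.pi_lt_d2.le
      have h5 : (1 + t) * r * θ ≤ (1 + 1 / 4) * r * 3.15 := by gcongr
      nlinarith
    have h6 : ((1 + t) * r * θ + t * r) / N ≤ 5 * r / N := by gcongr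
    have h7 : 5 * r / N ≤ δ' * r / 4 := by
      have h8 : 5 * r / N = (20 / N) * r / 4 := by ring
      rw [h8]
      gcongr
    have h9 : δ' * (r / 2) ≤ δ' * nrm (x i) := mul_le_mul_of_nonneg_left h2 hδ0.le
    linarith
  obtain ⟨w, hw⟩ : ∃ w : ℝ, w = (1 + t) * ((1 - 2 * t) * r) ^ (-α) *
      ((mu (ev i0) + t) * (Real.sqrt d * (((1 + t) * r * θ + t * r) / N + 2 * Real.sqrt d)) +
        t / N * (2 * r)) := ⟨_, rfl⟩
  have h12 : 0 < (1 - 2 * t) := by linarith
  have h12r : 0 < (1 - 2 * t) * r := mul_pos h12 hz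
  have hlegs : ∀ i < N, ∃ l : List (Step d), endp (x i) l = x (i + 1) ∧
      wt (tau α E) (x i) l ≤ w := by
    intro i hi
    have h1 := hhalf i hi.le
    obtain ⟨l, hl, hl2⟩ := hR1 E R0 hE hCC (x i) (x (i + 1)) (by linarith) (by linarith)
      (hstep i hi)
    refine ⟨l, hl, hl2.trans ?_⟩
    rw [hw]
    have h2 : nrm (x i) ^ (-α) ≤ ((1 - 2 * t) * r) ^ (-α) :=
      Real.rpow_le_rpow_of_nonpos h12r (hlow i hi.le) (by linarith)
    have h3 : ∑ k : Fin d, |((x (i + 1) - x i) k : ℝ)| ≤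
        Real.sqrt d * (((1 + t) * r * θ + t * r) / N + 2 * Real.sqrt d) :=
      (awk_sum _).trans (mul_le_mul_of_nonneg_left (hxs i hi) hsq.le)
    have h4 : t / N * nrm (x i) ≤ t / N * (2 * r) :=
      mul_le_mul_of_nonneg_left (hup i hi.le) (by positivity)
    have h5 : 0 ≤ (mu (ev i0) + t) * ∑ k : Fin d, |((x (i + 1) - x i) k : ℝ)| + t / N * nrm (x i) :=
      add_nonneg (mul_nonneg hκ (Finset.sum_nonneg fun k _ => abs_nonneg _))
        (mul_nonneg (by positivity) (nrm_nonneg _))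
    have h6 : (1 + t) * nrm (x i) ^ (-α) ≤ (1 + t) * ((1 - 2 * t) * r) ^ (-α) :=
      mul_le_mul_of_nonneg_left h2 (by linarith)
    have h7 : 0 ≤ (1 + t) * ((1 - 2 * t) * r) ^ (-α) := by positivity
    exact mul_le_mul h6 (add_le_add (mul_le_mul_of_nonneg_left h3 hκ) h4) h5 h7
  obtain ⟨l, hl, hl2⟩ := chain_walk (w := fun _ => w) hlegs
  rw [hx0] at hl hl2
  rw [hxN] at hl
  refine ⟨l, hl, hl2.trans ?_⟩
  rw [Finset.sum_const, Finset.card_range, nsmul_eq_mul, hw]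
  have hfin := ht θ hθ0 hθ
  have hrα : r ^ (1 - α) = r ^ (-α) * r := by
    rw [show (1 : ℝ) - α = -α + 1 by ring, Real.rpow_add hz, Real.rpow_one]
  have hmul : ((1 - 2 * t) * r) ^ (-α) = (1 - 2 * t) ^ (-α) * r ^ (-α) :=
    Real.mul_rpow h12.le hz.le
  have hrp : 0 < r ^ (-α) := Real.rpow_pos_of_pos hz _
  have h1p : 0 < (1 - 2 * t) ^ (-α) := Real.rpow_pos_of_pos h12 _
  rw [hmul, hrα]
  have e1 : (N : ℝ) * ((1 + t) * ((1 - 2 * t) ^ (-α) * r ^ (-α)) *
      ((mu (ev i0) + t) * (Real.sqrt d * (((1 + t) * r * θ + t * r) / N + 2 * Real.sqrt d)) +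
        t / N * (2 * r))) =
      (1 + t) * (1 - 2 * t) ^ (-α) * r ^ (-α) *
      ((mu (ev i0) + t) * Real.sqrt d * ((1 + t) * r * θ + t * r + 2 * (N * Real.sqrt d)) +
        2 * t * r) := by
    field_simp
  rw [e1]
  have h2 : (mu (ev i0) + t) * Real.sqrt d * ((1 + t) * r * θ + t * r + 2 * (N * Real.sqrt d)) +
      2 * t * r ≤
      ((mu (ev i0) + t) * Real.sqrt d * ((1 + t) * θ + 2 * t) + 2 * t) * r := by
    have h3 : (1 + t) * r * θ + t * r + 2 * (N * Real.sqrt d) ≤ ((1 + t) * θ + 2 * t) * r := by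
      linarith
    have h4 := mul_le_mul_of_nonneg_left h3 (mul_nonneg hκ hsq.le)
    linarith
  have h5 : 0 ≤ (1 + t) * (1 - 2 * t) ^ (-α) * r ^ (-α) := by positivity
  refine (mul_le_mul_of_nonneg_left h2 h5).trans ?_
  have h6 : (1 + t) * (1 - 2 * t) ^ (-α) * r ^ (-α) *
      (((mu (ev i0) + t) * Real.sqrt d * ((1 + t) * θ + 2 * t) + 2 * t) * r) =
      ((1 + t) * (1 - 2 * t) ^ (-α) *
        ((mu (ev i0) + t) * Real.sqrt d * ((1 + t) * θ + 2 * t) + 2 * t)) * (r ^ (-α) * r) := by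
    ring
  rw [h6]
  exact mul_le_mul_of_nonneg_right hfin (by positivity)
-- END awk

-- BEGIN bud
/-- the energy of the ray: as `ray_low` (OneR/Fat), with `ray_upper` (OneR/Crit) and `mu_nrm`:
`(α - 1) c ≥ mu (ev i0) / √d` -/
theorem ray_budget (i0 : Fin d) {a C : ℝ} (hh : HF (hm (d := d)) a d C) {α : ℝ} (hα : 1 < α)
    {K : ℝ} (hK : 0 < K) {E : Edge d → ℝ} {R0 : ℝ} (hE : ∀ e, 0 ≤ E e)
    (hCC : CC (hm (d := d)) (eta d) E R0) (he0 : 0 < eta d) (he1 : eta d ≤ 1) {γ : ℕ → V d}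
    {st : ℕ → Step d} {W : ℕ → ℝ} (hr : InfRay (hm (d := d)) (eta d) α K E γ st W) {ε : ℝ}
    (hε : 0 < ε) :
    ∀ᶠ m in atTop, (1 - ε) * (mu (ev i0) / (Real.sqrt d * (α - 1))) ≤
      nrm (γ m) ^ (α - 1) * W m := by
  obtain ⟨K1, R1, hmk⟩ := mkDS hh he0 he1 hα hK
  have hlarge : ∀ᶠ n in atTop, max 1 (max R1 R0) ≤ nrm (γ n) :=
    hr.lim.eventually_ge_atTop (max 1 (max R1 R0))
  obtain ⟨N0, hN0⟩ := eventually_atTop.1 (hlarge.and hr.ub)
  have hone : ∀ k, N0 ≤ k → 1 ≤ nrm (γ k) := fun k hk => (le_max_left _ _).trans (hN0 k hk).1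
  have hR1 : ∀ k, N0 ≤ k → R1 ≤ nrm (γ k) := fun k hk =>
    ((le_max_left _ _).trans (le_max_right _ _)).trans (hN0 k hk).1
  have hR0 : ∀ k, N0 ≤ k → R0 ≤ nrm (γ k) := fun k hk =>
    ((le_max_right _ _).trans (le_max_right _ _)).trans (hN0 k hk).1
  obtain ⟨n, hn0, hnm, hnlt, hnge⟩ := disc hr.lim (fun v => nrm v ^ (1 - eta d / 8))
    (fun v hv => Real.rpow_pos_of_pos hv _) N0 (fun k hk => lt_of_lt_of_le one_pos (hone k hk))
  have hDS := hmk E R0 hE hCC γ st W hr N0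
    (fun k hk => ⟨hR1 k hk, hR0 k hk, (hN0 k hk).2⟩) n hn0 hnm hnlt hnge
  have hin : ∀ i k, n i ≤ k → k < n (i + 1) →
      nrm (γ k - γ (n i)) ≤ nrm (γ (n i)) ^ (-(eta d / 8)) * nrm (γ (n i)) := by
    intro i k h1 h2
    have h3 : N0 ≤ n i := by
      rw [← hn0]
      exact hnm.monotone (Nat.zero_le i)
    have h4 : 0 < nrm (γ (n i)) := lt_of_lt_of_le one_pos (hone _ h3)
    have h5 : nrm (γ (n i)) ^ (-(eta d / 8)) * nrm (γ (n i)) =
        nrm (γ (n i)) ^ (1 - eta d / 8) := by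
      have h6 : (1 - eta d / 8 : ℝ) = -(eta d / 8) + 1 := by ring
      rw [h6, Real.rpow_add h4, Real.rpow_one]
    rw [h5]
    exact (hnlt i k h1 h2).le
  have hW : ∀ k, W (k + 1) ≤ W k := by
    intro k
    have h1 : 0 ≤ tau α E (edg (γ k) (st k)) :=
      div_nonneg (hE _) (Real.rpow_nonneg (Real.sqrt_nonneg _) _)
    have h2 := hr.Weq k
    linarith
  obtain ⟨c, hc0, hc⟩ := hDS.lim_en
  have hce := ray_en hDS hnm hin hW hc
  have hd0 : 0 < d := i0.pos
  have hs : 0 < Real.sqrt d := Real.sqrt_pos.2 (by exact_mod_cast hd0)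
  have hmp : 0 < mu (ev i0) := mu_ev_pos i0
  have ha1 : 0 < α - 1 := by linarith
  have hx : mu (ev i0) / (Real.sqrt d * (α - 1)) ≤ c := by
    by_contra hcon
    rw [not_le, lt_div_iff₀ (by positivity)] at hcon
    have h0 : (α - 1) * c < mu (ev i0) / Real.sqrt d := by
      rw [lt_div_iff₀ hs]
      linarith
    have hup := ray_upper hh hDS hnm hin hc0 hc
      (ε := (mu (ev i0) / Real.sqrt d - (α - 1) * c) / 2) (by linarith)
    obtain ⟨m, hm1, hm2⟩ := (hup.and (hr.lim.eventually_ge_atTop 1)).exists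
    have h1 := mu_nrm i0 (γ m)
    have h2 : mu (γ m) ≤
        ((α - 1) * c + (mu (ev i0) / Real.sqrt d - (α - 1) * c) / 2) * nrm (γ m) := hm1
    have h3 := mul_le_mul_of_nonneg_left h2 hs.le
    have h4 : Real.sqrt d * (mu (ev i0) / Real.sqrt d) = mu (ev i0) :=
      mul_div_cancel₀ _ hs.ne'
    have h5 : Real.sqrt d *
        (((α - 1) * c + (mu (ev i0) / Real.sqrt d - (α - 1) * c) / 2) * nrm (γ m)) =
        (Real.sqrt d * ((α - 1) * c) + Real.sqrt d * (mu (ev i0) / Real.sqrt d)) / 2 *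
          nrm (γ m) := by ring
    rw [h5, h4] at h3
    have h6 : (Real.sqrt d * ((α - 1) * c) + mu (ev i0)) / 2 < mu (ev i0) := by
      linarith [mul_comm c (Real.sqrt d * (α - 1)), mul_assoc (Real.sqrt d) (α - 1) c]
    have h7 := mul_lt_mul_of_pos_right h6 (lt_of_lt_of_le one_pos hm2)
    linarith [mul_comm (nrm (γ m)) (mu (ev i0))]
  have hx0 : 0 < mu (ev i0) / (Real.sqrt d * (α - 1)) := by positivity
  have hlt : (1 - ε) * (mu (ev i0) / (Real.sqrt d * (α - 1))) < c := by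
    linarith [mul_pos hε hx0,
      sub_mul 1 ε (mu (ev i0) / (Real.sqrt d * (α - 1)))]
  exact (hce.eventually_const_lt hlt).mono fun m hm => hm.le
-- END bud

/-- the cluster contains the arcs of angle `(1 - 1 / (j + 2)) / (d (α - 1))` around the ray -/
def ArcFat (α : ℝ) (j : ℕ) (δ : ℝ) (s : ℕ → Edge d) : Prop :=
  ∃ R : ℕ, ∀ z v : V d, (Desc s z).Infinite → (R : ℝ) ≤ nrm z → |nrm v - nrm z| ≤ δ * nrm z →
    Real.arccos (ip z v / (nrm z * nrm v)) * (d * (α - 1)) ≤ 1 - 1 / ((j : ℝ) + 2) →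
    v ∈ Reached s

-- BEGIN mar
private theorem mar_desc (z : V d) :
    MeasurableSet {s : ℕ → Edge d | (Desc s z).Infinite} := by
  refine UNIQAux.meas_inf (fun s : ℕ → Edge d => Desc s z) fun v => ?_
  exact measurableSet_rtg (fun (s : ℕ → Edge d) x y => Infects s x y)
    (fun x y => measurableSet_infects x y) z v

private theorem mar_reached (v : V d) :
    MeasurableSet {s : ℕ → Edge d | v ∈ Reached s} := by
  have h : {s : ℕ → Edge d | v ∈ Reached s} = ⋃ n, {s | v ∈ vs (lst s n)} := by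
    ext s
    simp only [Reached, Set.mem_ofPred_eq, Set.mem_iUnion]
  rw [h]
  exact MeasurableSet.iUnion fun n => measurableSet_vs v n

/-- as `measurableSet_fat` (OneR/Fat) -/
theorem measurableSet_arcFat (α : ℝ) (j : ℕ) (δ : ℝ) :
    MeasurableSet {s : ℕ → Edge d | ArcFat α j δ s} := by
  have hset : {s : ℕ → Edge d | ArcFat α j δ s} = ⋃ R : ℕ, ⋂ z : V d, ⋂ v : V d,
      ({s : ℕ → Edge d | (Desc s z).Infinite}ᶜ ∪
        ({_s : ℕ → Edge d | ¬ (R : ℝ) ≤ nrm z} ∪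
          ({_s : ℕ → Edge d | ¬ |nrm v - nrm z| ≤ δ * nrm z} ∪
            ({_s : ℕ → Edge d | ¬ Real.arccos (ip z v / (nrm z * nrm v)) * (d * (α - 1)) ≤
                1 - 1 / ((j : ℝ) + 2)} ∪
              {s : ℕ → Edge d | v ∈ Reached s})))) := by
    ext s
    simp only [ArcFat, Set.mem_ofPred_eq, Set.mem_iUnion, Set.mem_iInter, Set.mem_union,
      Set.mem_compl_iff]
    refine exists_congr fun R => forall_congr' fun z => forall_congr' fun v => ?_
    rw [← imp_iff_not_or, ← imp_iff_not_or, ← imp_iff_not_or, ← imp_iff_not_or]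
  rw [hset]
  exact MeasurableSet.iUnion fun R => MeasurableSet.iInter fun z => MeasurableSet.iInter fun v =>
    (mar_desc z).compl.union ((MeasurableSet.const _).union
      ((MeasurableSet.const _).union ((MeasurableSet.const _).union (mar_reached v))))
-- END mar

-- BEGIN aae
/-- as `fat_ae` (OneR/Fat), with `arc_walk` for `ε = 1 / (j + 2)` and `ray_budget` for `ε / 4` -/
theorem arcFat_ae (hd : 2 ≤ d) {α : ℝ} (hα : 1 < α) (j : ℕ) : ∃ δ : ℝ, 0 < δ ∧
    ∀ᵐ E ∂(PE d), ∀ s : ℕ → Edge d, (∀ n, G (tau α E) (lst s n)) → ArcFat α j δ s := by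
  obtain ⟨a, C, hh⟩ := hf_hm d
  obtain ⟨i0⟩ : Nonempty (Fin d) := ⟨⟨0, by omega⟩⟩
  have he0 : 0 < eta d := by
    unfold eta
    positivity
  have he1 : eta d ≤ 1 := by
    unfold eta
    rw [div_le_one (by positivity)]
    have h : (0 : ℝ) ≤ (d : ℝ) := Nat.cast_nonneg d
    linarith
  obtain ⟨K, R1, hK, hub⟩ := ub_S hh he0 he1 hα
  obtain ⟨ε, hεdef⟩ : ∃ ε : ℝ, ε = 1 / ((j : ℝ) + 2) := ⟨_, rfl⟩
  have hj : (0 : ℝ) ≤ (j : ℝ) := Nat.cast_nonneg j
  have hε : 0 < ε := by rw [hεdef]; positivity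
  have hε1 : ε < 1 := by
    rw [hεdef, div_lt_one (by positivity)]
    linarith
  obtain ⟨B, hBdef⟩ : ∃ B : ℝ, B = mu (ev i0) / (Real.sqrt d * (α - 1)) := ⟨_, rfl⟩
  have hB : 0 < B := by
    rw [hBdef]
    have hd0 : (0 : ℝ) < (d : ℝ) := by
      have : 0 < d := by omega
      exact_mod_cast this
    exact div_pos (mu_ev_pos i0) (mul_pos (Real.sqrt_pos.2 hd0) (by linarith))
  obtain ⟨δ, R2, hδ, haw⟩ := arc_walk hd i0 hα hε hε1
  refine ⟨δ, hδ, ?_⟩
  filter_upwards [conc d, ae_pos, explodes_ae i0 hα, via_or_avoid (d := d) α]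
    with E hconc hpos hex hva s hG
  obtain ⟨R0, hCC⟩ := hconc
  have hτ : ∀ f, 0 < tau α E f := fun f =>
    div_pos (hpos f) (Real.rpow_pos_of_pos (mid_pos f) α)
  have hE : ∀ e, 0 ≤ E e := fun e => (hpos e).le
  have hdes : ∀ (m : ℕ) (z : V d), z ∈ ends (s m) → z ∉ vs (lst s m) →
      (Desc s z).Finite ∨ (Reached s \ Desc s z).Finite :=
    fun m z h1 h2 => desc_or i0 hτ hex hG (hva hex) h1 h2
  obtain ⟨γ, st, h0, h1, h2, h3⟩ := exists_ray hG hdes
  obtain ⟨W, w1, w2, w3, w4, w5⟩ := ray_times i0 hτ hex hG h0 h1 h2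
  have hray : InfRay (hm (d := d)) (eta d) α K E γ st W := by
    refine ⟨h1, w1, w2, w3, w5, ?_⟩
    filter_upwards [w5.eventually_ge_atTop (max R1 R0)] with n hn
    exact hub E R0 hE hCC (γ n) (W n) ((le_max_left _ _).trans hn) ((le_max_right _ _).trans hn)
      (w4 n)
  have hWS : W 0 ≤ S (tau α E) 0 := by
    have h4 := w4 0
    rwa [h0] at h4
  obtain ⟨m0, hm0⟩ := eventually_atTop.1
    (ray_budget i0 hh hα hK hE hCC he0 he1 hray (ε := ε / 4) (by linarith))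
  rw [← hBdef] at hm0 haw
  have hsum : ∀ m, m < m0 → nrm (γ m) ≤ ∑ i ∈ range m0, nrm (γ i) := fun m hm =>
    Finset.single_le_sum (f := fun i => nrm (γ i)) (fun j _ => nrm_nonneg _) (Finset.mem_range.2 hm)
  have hidx : ∀ m, 1 + ∑ i ∈ range m0, nrm (γ i) ≤ nrm (γ m) → m0 ≤ m := by
    intro m hm
    by_contra h4
    have h5 := hsum m (not_le.1 h4)
    linarith
  refine ⟨⌈max (1 + ∑ i ∈ range m0, nrm (γ i)) (max (2 * R0) (max R2 1))⌉₊,
    fun z v hz hRz hv hang => ?_⟩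
  obtain ⟨m, rfl⟩ := h3 z hz
  have hR := (Nat.le_ceil _).trans hRz
  have g1 := (le_max_left _ _).trans hR
  have g2 := (le_max_right _ _).trans hR
  have g3 : 2 * R0 ≤ nrm (γ m) := (le_max_left _ _).trans g2
  have g4 := (le_max_right _ _).trans g2
  have g5 : R2 ≤ nrm (γ m) := (le_max_left _ _).trans g4
  have g6 : (1 : ℝ) ≤ nrm (γ m) := (le_max_right _ _).trans g4
  rw [← hεdef] at hang
  obtain ⟨l, hl, hwt⟩ := haw E R0 hE hCC (γ m) v g5 g3 hv hang
  have hlt : wt (tau α E) (γ m) l < W m := by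
    have h7 := hm0 m (hidx m g1)
    have hp : 0 < nrm (γ m) := by linarith
    have h8 : 0 < nrm (γ m) ^ (1 - α) := Real.rpow_pos_of_pos hp _
    have h9 : nrm (γ m) ^ (1 - α) * nrm (γ m) ^ (α - 1) = 1 := by
      rw [← Real.rpow_add hp, show (1 - α + (α - 1) : ℝ) = 0 by ring, Real.rpow_zero]
    have h10 : (1 - ε / 4) * B * nrm (γ m) ^ (1 - α) ≤ W m := by
      calc (1 - ε / 4) * B * nrm (γ m) ^ (1 - α)
          ≤ (nrm (γ m) ^ (α - 1) * W m) * nrm (γ m) ^ (1 - α) :=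
            mul_le_mul_of_nonneg_right h7 h8.le
        _ = (nrm (γ m) ^ (1 - α) * nrm (γ m) ^ (α - 1)) * W m := by ring
        _ = W m := by rw [h9, one_mul]
    have h11 : 0 < ε * B * nrm (γ m) ^ (1 - α) := mul_pos (mul_pos hε hB) h8
    have h12 : (1 - ε / 4) * B * nrm (γ m) ^ (1 - α) =
        (1 - ε / 2) * B * nrm (γ m) ^ (1 - α) + ε * B * nrm (γ m) ^ (1 - α) / 4 := by ring
    linarith
  have h13 := ray_reach hτ hG h0 h1 w1 hWS hlt
  rwa [hl] at h13
-- END aae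

-- BEGIN arr
/-- everything is within reach: `j` with `π (d (α - 1)) ≤ 1 - 1 / (j + 2)`; `AllRad` gives a ray site
`z` with `nrm v ≤ nrm z ≤ nrm v + 3`; `Real.arccos_le_pi` -/
theorem arc_all {s : ℕ → Edge d} {α : ℝ} (hα : 1 < α) {δ : ℕ → ℝ} (hδ : ∀ j, 0 < δ j)
    (hf : ∀ j, ArcFat α j (δ j) s) (hr : AllRad s) (h : Real.pi * (d * (α - 1)) < 1) :
    ∃ R : ℝ, ∀ v : V d, R ≤ nrm v → v ∈ Reached s := by
  have hx : 0 < 1 - Real.pi * (d * (α - 1)) := by linarith
  set j : ℕ := ⌈1 / (1 - Real.pi * (d * (α - 1)))⌉₊ with hj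
  have h1 : 1 / ((j : ℝ) + 2) ≤ 1 - Real.pi * (d * (α - 1)) := by
    have h5 : 1 / (1 - Real.pi * (d * (α - 1))) ≤ (j : ℝ) := Nat.le_ceil _
    rw [div_le_iff₀ (by positivity)]
    rw [div_le_iff₀ hx] at h5
    nlinarith
  obtain ⟨R, hR⟩ := hf j
  refine ⟨max (R : ℝ) (3 / δ j), fun v hv => ?_⟩
  obtain ⟨z, hz, hn1, hn2⟩ := hr ⌈nrm v⌉₊
  have h2 : nrm v ≤ nrm z := (Nat.le_ceil _).trans hn1
  have h3 : (⌈nrm v⌉₊ : ℝ) < nrm v + 1 := Nat.ceil_lt_add_one (nrm_nonneg v)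
  have h4 : 3 / δ j ≤ nrm z := ((le_max_right _ _).trans hv).trans h2
  have h6 : 3 ≤ δ j * nrm z := by
    rw [div_le_iff₀ (hδ j)] at h4
    linarith
  refine hR z v hz (((le_max_left _ _).trans hv).trans h2) ?_ ?_
  · rw [abs_sub_comm, abs_of_nonneg (by linarith)]
    linarith
  · have h7 : Real.arccos (ip z v / (nrm z * nrm v)) * (d * (α - 1)) ≤
        Real.pi * (d * (α - 1)) :=
      mul_le_mul_of_nonneg_right (Real.arccos_le_pi _)
        (mul_nonneg (Nat.cast_nonneg d) (by linarith))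
    linarith
-- END arr

-- BEGIN arn
private theorem arn_ip (z v : V d) : ip z v = inner ℝ (toE v) (toE z) := by
  unfold ip toE
  rw [PiLp.inner_apply]
  refine Finset.sum_congr rfl fun j _ => ?_
  simp

private theorem arn_close {z v : V d} {u : EuclideanSpace ℝ (Fin d)} (hz : 0 < nrm z)
    (hv : 0 < nrm v) {ε : ℝ} (h : ‖toE z - nrm z • u‖ ≤ ε * nrm z) :
    |ip z v / (nrm z * nrm v) - inner ℝ (toE v) u / nrm v| ≤ ε := by
  have e : ip z v / (nrm z * nrm v) - inner ℝ (toE v) u / nrm v =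
      inner ℝ (toE v) (toE z - nrm z • u) / (nrm z * nrm v) := by
    rw [inner_sub_right, inner_smul_right, ← arn_ip]
    field_simp
  rw [e, abs_div, abs_of_pos (mul_pos hz hv), div_le_iff₀ (mul_pos hz hv)]
  refine (abs_real_inner_le_norm _ _).trans ?_
  rw [← nrm_eq]
  have h2 := mul_le_mul_of_nonneg_left h hv.le
  linarith [mul_comm (nrm v) (ε * nrm z), mul_assoc ε (nrm z) (nrm v)]

/-- as `fat_cone` (OneR/Fat); `arccos` is uniformly continuous, and
`|ip z v / (nrm z nrm v) - inner (toE v) u / nrm v| ≤ ‖toE z - nrm z • u‖ / nrm z` -/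
theorem arc_cone {s : ℕ → Edge d} {α : ℝ} (hα : 1 < α) {δ : ℕ → ℝ} (hδ : ∀ j, 0 < δ j)
    (hf : ∀ j, ArcFat α j (δ j) s) (hr : AllRad s) {u : EuclideanSpace ℝ (Fin d)} (hu : ‖u‖ = 1)
    (hc : ∀ ε : ℝ, 0 < ε → ∃ R : ℝ, ∀ z : V d, (Desc s z).Infinite → R ≤ nrm z →
      ‖toE z - nrm z • u‖ ≤ ε * nrm z) {ε : ℝ} (hε : 0 < ε) :
    ∃ R : ℝ, ∀ v : V d, R ≤ nrm v →
      Real.arccos (inner ℝ (toE v) u / nrm v) * (d * (α - 1)) ≤ 1 - ε → v ∈ Reached s := by
  have huc : UniformContinuousOn Real.arccos (Set.Icc (-1) 1) :=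
    isCompact_Icc.uniformContinuousOn_of_continuous Real.continuous_arccos.continuousOn
  rw [Metric.uniformContinuousOn_iff] at huc
  have hP : 0 ≤ (d : ℝ) * (α - 1) := mul_nonneg (Nat.cast_nonneg d) (by linarith)
  obtain ⟨ε₂, hε₂, huc⟩ := huc (ε / (2 * ((d : ℝ) * (α - 1) + 1))) (by positivity)
  obtain ⟨Rc, hRc⟩ := hc (ε₂ / 2) (half_pos hε₂)
  obtain ⟨j, hj⟩ := exists_nat_gt (2 / ε)
  obtain ⟨RF, hRF⟩ := hf j
  have hj2 : 1 / ((j : ℝ) + 2) ≤ ε / 2 := by
    rw [div_lt_iff₀ hε] at hj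
    rw [div_le_iff₀ (by positivity)]
    nlinarith
  refine ⟨max 1 (max (RF : ℝ) (max Rc (3 / δ j))), fun v hv hin => ?_⟩
  have h0 : 1 ≤ nrm v := le_trans (le_max_left _ _) hv
  have h1 : (RF : ℝ) ≤ nrm v := le_trans (le_trans (le_max_left _ _) (le_max_right _ _)) hv
  have h2 : Rc ≤ nrm v := le_trans (le_trans (le_trans (le_max_left _ _) (le_max_right _ _))
    (le_max_right _ _)) hv
  have h3 : 3 / δ j ≤ nrm v := le_trans (le_trans (le_trans (le_max_right _ _) (le_max_right _ _))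
    (le_max_right _ _)) hv
  obtain ⟨z, hz, hz1, hz2⟩ := hr ⌈nrm v⌉₊
  have hr0 := nrm_nonneg v
  have hs1 : nrm v ≤ nrm z := le_trans (Nat.le_ceil _) hz1
  have hs2 : nrm z ≤ nrm v + 3 := by
    have := Nat.ceil_lt_add_one hr0
    linarith
  have hz3 := hRc z hz (h2.trans hs1)
  have hvp : 0 < nrm v := lt_of_lt_of_le one_pos h0
  have hzp : 0 < nrm z := lt_of_lt_of_le hvp hs1
  refine hRF z v hz (h1.trans hs1) ?_ ?_
  · have h4 : 3 ≤ δ j * nrm z := by
      have := (div_le_iff₀ (hδ j)).1 (h3.trans hs1)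
      linarith
    rw [abs_le]
    constructor <;> linarith
  · have hx : ip z v / (nrm z * nrm v) ∈ Set.Icc (-1 : ℝ) 1 := by
      have h5 := abs_ip_le z v
      rw [Set.mem_Icc, ← abs_le, abs_div, abs_of_pos (mul_pos hzp hvp)]
      exact div_le_one_of_le₀ h5 (mul_pos hzp hvp).le
    have hy : inner ℝ (toE v) u / nrm v ∈ Set.Icc (-1 : ℝ) 1 := by
      have h5 := abs_real_inner_le_norm (toE v) u
      rw [hu, mul_one, ← nrm_eq] at h5
      rw [Set.mem_Icc, ← abs_le, abs_div, abs_of_pos hvp]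
      exact div_le_one_of_le₀ h5 hvp.le
    have h6 := huc _ hx _ hy (by
      rw [Real.dist_eq]
      exact lt_of_le_of_lt (arn_close hzp hvp hz3) (half_lt_self hε₂))
    rw [Real.dist_eq, abs_lt] at h6
    have h7 : Real.arccos (ip z v / (nrm z * nrm v)) ≤
        Real.arccos (inner ℝ (toE v) u / nrm v) + ε / (2 * ((d : ℝ) * (α - 1) + 1)) := by
      linarith [h6.2]
    have h8 := mul_le_mul_of_nonneg_right h7 hP
    have h9 : ε / (2 * ((d : ℝ) * (α - 1) + 1)) * ((d : ℝ) * (α - 1)) ≤ ε / 2 := by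
      rw [div_mul_eq_mul_div, div_le_div_iff₀ (by positivity) (by norm_num)]
      nlinarith
    rw [add_mul] at h8
    linarith
-- END arn

end OneR
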