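import Pool.Agent.ConeD.Defs

/-!
Problem MP_b9fb85_pr: the time constant of first passage percolation on the lattice with independent
exponential passage times of mean one.
-/

set_option autoImplicit false

namespace OneR

open ConeD

variable {d : ℕ}

/-- the homogenisation of a subadditive function: `inf h (n w) / n` over `n ≥ 1` -/
noncomputable def muh (h : V d → ℝ) (w : V d) : ℝ := ⨅ n : ℕ, h ((n + 1) • w) / (n + 1)

/-- the time constant of first passage percolation with independent exponential passage times:
`hm z` is the expected passage time from the origin to `z` -/
noncomputable def mu (w : V d) : ℝ := muh hm w

end OneR
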