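import Pool.Agent.OneR.Tree
import Pool.Agent.OneR.MuDef

/-!
Problem MP_b9fb85_pr: the limit directions of the ray are critical directions of the limit shape of
first passage percolation, all with the same time constant.
-/

set_option autoImplicit false

namespace OneR

open Finset ConeD ConeD.TRANSAux OneE Filter MeasureTheory

variable {d : ℕ}

-- BEGIN muf
theorem muh_nonneg {h : V d → ℝ} {a b C : ℝ} (hh : HF h a b C) (w : V d) : 0 ≤ muh h w :=
  Real.iInf_nonneg fun n => div_nonneg (hh.nonneg _) (by positivity)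

private theorem muf_bdd {h : V d → ℝ} {a b C : ℝ} (hh : HF h a b C) (w : V d) :
    BddBelow (Set.range fun n : ℕ => h ((n + 1) • w) / (n + 1)) :=
  ⟨0, by
    rintro x ⟨n, rfl⟩
    exact div_nonneg (hh.nonneg _) (by positivity)⟩

theorem muh_le {h : V d → ℝ} {a b C : ℝ} (hh : HF h a b C) (w : V d) {n : ℕ} (hn : 0 < n) :
    muh h w ≤ h (n • w) / n := by
  obtain ⟨m, rfl⟩ : ∃ m, n = m + 1 := ⟨n - 1, by omega⟩
  have h1 := ciInf_le (muf_bdd hh w) m
  unfold muh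
  push_cast
  exact h1

/-- Fekete (`Subadditive.tendsto_lim`, or directly) -/
theorem muh_tendsto {h : V d → ℝ} {a b C : ℝ} (hh : HF h a b C) (w : V d) :
    Tendsto (fun n : ℕ => h (n • w) / n) atTop (nhds (muh h w)) := by
  have hsub : Subadditive fun n : ℕ => h (n • w) := by
    intro m n
    show h ((m + n) • w) ≤ h (m • w) + h (n • w)
    rw [add_smul]
    exact hh.sub _ _
  have hbdd : BddBelow (Set.range fun n : ℕ => h (n • w) / n) :=
    ⟨0, by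
      rintro x ⟨n, rfl⟩
      exact div_nonneg (hh.nonneg _) (Nat.cast_nonneg n)⟩
  have h1 := hsub.tendsto_lim hbdd
  have h2 : hsub.lim = muh h w := by
    unfold Subadditive.lim muh
    rw [← sInf_range]
    congr 1
    ext x
    constructor
    · rintro ⟨n, hn, rfl⟩
      have hn1 : 1 ≤ n := hn
      refine ⟨n - 1, ?_⟩
      obtain ⟨m, rfl⟩ : ∃ m, n = m + 1 := ⟨n - 1, by omega⟩
      simp
    · rintro ⟨n, rfl⟩
      refine ⟨n + 1, ?_, ?_⟩
      · exact Set.mem_Ici.2 (by omega)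
      · simp
  rw [← h2]
  exact h1

/-- pass to the limit in `h (n (v + w)) / n ≤ h (n v) / n + h (n w) / n` -/
theorem muh_add {h : V d → ℝ} {a b C : ℝ} (hh : HF h a b C) (v w : V d) :
    muh h (v + w) ≤ muh h v + muh h w := by
  refine le_of_tendsto_of_tendsto (muh_tendsto hh (v + w)) ((muh_tendsto hh v).add (muh_tendsto hh w))
    (Filter.Eventually.of_forall fun n => ?_)
  show h (n • (v + w)) / n ≤ h (n • v) / n + h (n • w) / n
  rw [← add_div, smul_add]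
  exact div_le_div_of_nonneg_right (hh.sub _ _) (Nat.cast_nonneg n)
-- END muf

section ds

variable {y : ℕ → EuclideanSpace ℝ (Fin d)} {W H : ℕ → ℝ} {a b K K1 M α θ : ℝ}

-- BEGIN enl
/-- the energy converges: `|En i - En (i+1)| ≤ (1 + K1) Bb i` (`DS.osc` with `q = i + 1`), partial sums
bounded by `DS.bsum`; the limit is positive by `DS.glow` -/
theorem DS.lim_en (h : DS y W H a b K K1 M α θ) :
    ∃ c : ℝ, 0 < c ∧ Tendsto (En y W α) atTop (nhds c) := by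
  obtain ⟨B, hB⟩ := h.bsum
  have hs : Summable (fun i => Bb y W K1 α θ i) :=
    summable_of_sum_range_le (fun i => (h.bnn i).2.2.1) hB
  have hs2 : Summable (fun i => (1 + K1) * Bb y W K1 α θ i) := hs.mul_left (1 + K1)
  have hc : CauchySeq (En y W α) := by
    refine cauchySeq_of_dist_le_of_summable _ (fun i => ?_) hs2
    have h1 := h.osc (Nat.le_succ i)
    have h2 : ∑ j ∈ Ico i i.succ, Bb y W K1 α θ j = Bb y W K1 α θ i := by
      rw [Nat.succ_eq_add_one, sum_Ico_succ_top (le_refl i)]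
      simp
    rw [h2] at h1
    rw [Real.dist_eq]
    exact h1
  obtain ⟨c, hlim⟩ := cauchySeq_tendsto_of_complete hc
  have ha := h.ha
  have h0 : 0 < a / 3 * (2 : ℝ) ^ (-α) :=
    mul_pos (by linarith) (Real.rpow_pos_of_pos (by norm_num) _)
  exact ⟨c, lt_of_lt_of_le h0 (ge_of_tendsto' hlim fun i => h.glow i), hlim⟩
-- END enl

-- BEGIN eqm
/-- quasi-monotonicity of the radii: `g0 ‖y q‖ ^ (1-α) ≤ W q ≤ W i ≤ M ‖y i‖ ^ (1-α)` -/
theorem DS.quasi (h : DS y W H a b K K1 M α θ) :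
    ∃ C : ℝ, 0 < C ∧ ∀ i q : ℕ, i ≤ q → ‖y i‖ ≤ C * ‖y q‖ := by
  have hα := h.hα
  have ha := h.ha
  have hM := h.hM
  have hpos : ∀ j, 0 < ‖y j‖ := fun j => lt_of_lt_of_le one_pos (h.one j)
  have hg : 0 < a / 3 * (2 : ℝ) ^ (-α) := by positivity
  have hanti : Antitone W := antitone_nat_of_succ_le fun i => by
    have h1 := h.decW i
    have h2 : 0 ≤ a / 2 * ‖y i‖ ^ (-θ) * ‖y i‖ ^ (1 - α) := by positivity
    linarith
  set g := a / 3 * (2 : ℝ) ^ (-α) with hgd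
  refine ⟨(M / g) ^ (1 / (α - 1)), Real.rpow_pos_of_pos (div_pos hM hg) _, fun i q hiq => ?_⟩
  have h1 : g ≤ ‖y q‖ ^ (α - 1) * W q := h.glow q
  have h2 : ‖y i‖ ^ (α - 1) * W i ≤ M := h.upW i
  have h3 : W q ≤ W i := hanti hiq
  have hi : 0 < ‖y i‖ ^ (α - 1) := Real.rpow_pos_of_pos (hpos i) _
  have hq : 0 < ‖y q‖ ^ (α - 1) := Real.rpow_pos_of_pos (hpos q) _
  have h4 : ‖y i‖ ^ (α - 1) ≤ M / g * ‖y q‖ ^ (α - 1) := by
    have h5 : ‖y i‖ ^ (α - 1) * g ≤ M * ‖y q‖ ^ (α - 1) := by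
      calc ‖y i‖ ^ (α - 1) * g ≤ ‖y i‖ ^ (α - 1) * (‖y q‖ ^ (α - 1) * W q) :=
            mul_le_mul_of_nonneg_left h1 hi.le
        _ ≤ ‖y i‖ ^ (α - 1) * (‖y q‖ ^ (α - 1) * W i) :=
            mul_le_mul_of_nonneg_left (mul_le_mul_of_nonneg_left h3 hq.le) hi.le
        _ = (‖y i‖ ^ (α - 1) * W i) * ‖y q‖ ^ (α - 1) := by ring
        _ ≤ M * ‖y q‖ ^ (α - 1) := mul_le_mul_of_nonneg_right h2 hq.le
    rw [div_mul_eq_mul_div, le_div_iff₀ hg]
    exact h5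
  have hα0 : 0 < α - 1 := by linarith
  have h6 : (‖y i‖ ^ (α - 1)) ^ (1 / (α - 1)) ≤ (M / g * ‖y q‖ ^ (α - 1)) ^ (1 / (α - 1)) :=
    Real.rpow_le_rpow hi.le h4 (by positivity)
  rw [Real.mul_rpow (div_pos hM hg).le hq.le, ← Real.rpow_mul (hpos i).le,
    ← Real.rpow_mul (hpos q).le, mul_one_div_cancel hα0.ne', Real.rpow_one, Real.rpow_one] at h6
  exact h6
-- END eqm

-- BEGIN eln
private theorem eln_tan {g x z : ℝ} (hg : 0 < g) (hz : 0 < z) (hzx : z ≤ x) :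
    (x - z) * x ^ (-(1 + g)) ≤ g⁻¹ * (z ^ (-g) - x ^ (-g)) := by
  have hx : 0 < x := lt_of_lt_of_le hz hzx
  have hu : 0 < z / x := div_pos hz hx
  have h1 : z ^ (-g) = (z / x) ^ (-g) * x ^ (-g) := by
    rw [← Real.mul_rpow hu.le hx.le, div_mul_cancel₀ z hx.ne']
  have h2 : x ^ (-(1 + g)) = x⁻¹ * x ^ (-g) := by
    rw [neg_add, Real.rpow_add hx, Real.rpow_neg_one]
  have h3 : 1 + g * (1 - z / x) ≤ (z / x) ^ (-g) := by
    rw [Real.rpow_def_of_pos hu]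
    have e1 := Real.add_one_le_exp (Real.log (z / x) * -g)
    have e2 := Real.log_le_sub_one_of_pos hu
    nlinarith
  have hxg : 0 < x ^ (-g) := Real.rpow_pos_of_pos hx _
  have h4 : (x - z) * x ^ (-(1 + g)) = (1 - z / x) * x ^ (-g) := by
    rw [h2]
    field_simp
  rw [h4, h1]
  have h5 : (1 - z / x) ≤ g⁻¹ * ((z / x) ^ (-g) - 1) := by
    rw [inv_mul_eq_div, le_div_iff₀ hg]
    linarith
  calc (1 - z / x) * x ^ (-g) ≤ (g⁻¹ * ((z / x) ^ (-g) - 1)) * x ^ (-g) :=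
        mul_le_mul_of_nonneg_right h5 hxg.le
    _ = _ := by ring

/-- total length: `‖y (i+1) - y i‖ ≤ 3/2 De i ‖y i‖ ≤ 3/a ‖y i‖ ^ α (W i - W (i+1))`,
`‖y i‖ ^ α ≤ (M / W i) ^ (α / (α-1))`, and
`(x - z) x ^ (-α/(α-1)) ≤ (α-1) (z ^ (-1/(α-1)) - x ^ (-1/(α-1)))` for `0 < z ≤ x` (tangent line /
convexity of `x ^ (-1/(α-1))`), telescoping; `W q ^ (-1/(α-1)) ≤ C ‖y q‖` by `DS.glow` -/
theorem DS.length (h : DS y W H a b K K1 M α θ) :
    ∃ C : ℝ, 0 < C ∧ ∀ p q : ℕ, p ≤ q →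
      ∑ i ∈ Ico p q, ‖y (i + 1) - y i‖ ≤ C * ‖y q‖ := by
  have hα := h.hα
  have ha := h.ha
  have hM := h.hM
  obtain ⟨g, hg⟩ : ∃ g : ℝ, g = (α - 1)⁻¹ := ⟨_, rfl⟩
  have hα1 : 0 < α - 1 := by linarith
  have hg0 : 0 < g := by rw [hg]; exact inv_pos.2 hα1
  have hgα : (α - 1) * g = 1 := by rw [hg]; exact mul_inv_cancel₀ hα1.ne'
  have hαg : α * 1 = (α - 1) * (1 + g) := by linarith
  have hy : ∀ i, 0 < ‖y i‖ := fun i => lt_of_lt_of_le one_pos (h.one i)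
  obtain ⟨g0, hg0d⟩ : ∃ g0 : ℝ, g0 = a / 3 * (2 : ℝ) ^ (-α) := ⟨_, rfl⟩
  have hg00 : 0 < g0 := by
    rw [hg0d]
    exact mul_pos (by linarith) (Real.rpow_pos_of_pos (by norm_num) _)
  have hmono : ∀ i, W (i + 1) ≤ W i := by
    intro i
    have h1 := h.decW i
    have h2 : 0 ≤ a / 2 * ‖y i‖ ^ (-θ) * ‖y i‖ ^ (1 - α) := by
      have := Real.rpow_nonneg (norm_nonneg (y i)) (-θ)
      have := Real.rpow_nonneg (norm_nonneg (y i)) (1 - α)
      positivity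
    linarith
  -- one step
  have hstep : ∀ i, ‖y (i + 1) - y i‖ ≤
      3 / a * M ^ (1 + g) * ((W i - W (i + 1)) * W i ^ (-(1 + g))) := by
    intro i
    have hyi := hy i
    have hWi := h.Wpos i
    have s1 := h.stp i
    have s2 := h.decW i
    have hD0 : 0 ≤ ‖y i‖ ^ (-θ) := Real.rpow_nonneg (norm_nonneg _) _
    have e1 : ‖y i‖ ^ (1 - α) * ‖y i‖ ^ α = ‖y i‖ := by
      rw [← Real.rpow_add hyi]
      have : 1 - α + α = 1 := by ring
      rw [this, Real.rpow_one]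
    have hyα : 0 ≤ ‖y i‖ ^ α := Real.rpow_nonneg (norm_nonneg _) _
    have s3 : a / 2 * (‖y i‖ ^ (-θ) * ‖y i‖) ≤ (W i - W (i + 1)) * ‖y i‖ ^ α := by
      calc a / 2 * (‖y i‖ ^ (-θ) * ‖y i‖) =
          a / 2 * ‖y i‖ ^ (-θ) * ‖y i‖ ^ (1 - α) * ‖y i‖ ^ α := by
            rw [mul_assoc (a / 2 * ‖y i‖ ^ (-θ)), e1]
            ring
        _ ≤ _ := mul_le_mul_of_nonneg_right s2 hyα
    have s4 : ‖y (i + 1) - y i‖ ≤ 3 / a * ((W i - W (i + 1)) * ‖y i‖ ^ α) := by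
      have s5 : 3 / 2 * ‖y i‖ ^ (-θ) * ‖y i‖ = 3 / a * (a / 2 * (‖y i‖ ^ (-θ) * ‖y i‖)) := by
        field_simp
      rw [s5] at s1
      exact s1.trans (mul_le_mul_of_nonneg_left s3 (by positivity))
    have s6 : ‖y i‖ ^ α ≤ M ^ (1 + g) * W i ^ (-(1 + g)) := by
      have s7 : ‖y i‖ ^ (α - 1) ≤ M * (W i)⁻¹ := by
        rw [← div_eq_mul_inv, le_div_iff₀ hWi]
        exact h.upW i
      have s8 : ‖y i‖ ^ α = (‖y i‖ ^ (α - 1)) ^ (1 + g) := by
        rw [← Real.rpow_mul (norm_nonneg _), ← hαg, mul_one]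
      rw [s8]
      calc (‖y i‖ ^ (α - 1)) ^ (1 + g) ≤ (M * (W i)⁻¹) ^ (1 + g) :=
            Real.rpow_le_rpow (Real.rpow_nonneg (norm_nonneg _) _) s7 (by linarith)
        _ = M ^ (1 + g) * W i ^ (-(1 + g)) := by
            rw [Real.mul_rpow hM.le (inv_nonneg.2 hWi.le), Real.inv_rpow hWi.le,
              Real.rpow_neg hWi.le]
    have hWd : 0 ≤ W i - W (i + 1) := by
      have := hmono i
      linarith
    calc ‖y (i + 1) - y i‖ ≤ 3 / a * ((W i - W (i + 1)) * ‖y i‖ ^ α) := s4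
      _ ≤ 3 / a * ((W i - W (i + 1)) * (M ^ (1 + g) * W i ^ (-(1 + g)))) :=
          mul_le_mul_of_nonneg_left (mul_le_mul_of_nonneg_left s6 hWd) (by positivity)
      _ = _ := by ring
  have hMg : 0 < M ^ (1 + g) := Real.rpow_pos_of_pos hM _
  have htel : ∀ i, ‖y (i + 1) - y i‖ ≤
      3 / a * M ^ (1 + g) * g⁻¹ * (W (i + 1) ^ (-g) - W i ^ (-g)) := by
    intro i
    have h1 := eln_tan hg0 (h.Wpos (i + 1)) (hmono i)
    calc ‖y (i + 1) - y i‖ ≤ 3 / a * M ^ (1 + g) * ((W i - W (i + 1)) * W i ^ (-(1 + g))) :=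
          hstep i
      _ ≤ 3 / a * M ^ (1 + g) * (g⁻¹ * (W (i + 1) ^ (-g) - W i ^ (-g))) :=
          mul_le_mul_of_nonneg_left h1 (by positivity)
      _ = _ := by ring
  refine ⟨3 / a * M ^ (1 + g) * g⁻¹ * g0 ^ (-g), by positivity, fun p q hpq => ?_⟩
  have hsum : ∑ i ∈ Ico p q, ‖y (i + 1) - y i‖ ≤
      3 / a * M ^ (1 + g) * g⁻¹ * (W q ^ (-g) - W p ^ (-g)) := by
    calc ∑ i ∈ Ico p q, ‖y (i + 1) - y i‖ ≤
        ∑ i ∈ Ico p q, 3 / a * M ^ (1 + g) * g⁻¹ * (W (i + 1) ^ (-g) - W i ^ (-g)) :=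
          Finset.sum_le_sum fun i _ => htel i
      _ = _ := by
          rw [← Finset.mul_sum, Finset.sum_Ico_sub (fun i => W i ^ (-g)) hpq]
  have hWp : 0 ≤ W p ^ (-g) := Real.rpow_nonneg (h.Wpos p).le _
  have hWq : W q ^ (-g) ≤ g0 ^ (-g) * ‖y q‖ := by
    have hyq := hy q
    have h1 := h.glow q
    rw [← hg0d] at h1
    have h2 : g0 * ‖y q‖ ^ (1 - α) ≤ W q := by
      have e1 : ‖y q‖ ^ (α - 1) * ‖y q‖ ^ (1 - α) = 1 := by
        rw [← Real.rpow_add hyq]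
        have : α - 1 + (1 - α) = 0 := by ring
        rw [this, Real.rpow_zero]
      have h3 : g0 * ‖y q‖ ^ (1 - α) ≤ (‖y q‖ ^ (α - 1) * W q) * ‖y q‖ ^ (1 - α) :=
        mul_le_mul_of_nonneg_right h1 (Real.rpow_nonneg (norm_nonneg _) _)
      calc g0 * ‖y q‖ ^ (1 - α) ≤ (‖y q‖ ^ (α - 1) * W q) * ‖y q‖ ^ (1 - α) := h3
        _ = (‖y q‖ ^ (α - 1) * ‖y q‖ ^ (1 - α)) * W q := by ring
        _ = W q := by rw [e1, one_mul]
    have hpos : 0 < g0 * ‖y q‖ ^ (1 - α) := mul_pos hg00 (Real.rpow_pos_of_pos hyq _)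
    calc W q ^ (-g) ≤ (g0 * ‖y q‖ ^ (1 - α)) ^ (-g) :=
          Real.rpow_le_rpow_of_nonpos hpos h2 (by linarith)
      _ = g0 ^ (-g) * ‖y q‖ := by
          rw [Real.mul_rpow hg00.le (Real.rpow_nonneg (norm_nonneg _) _),
            ← Real.rpow_mul (norm_nonneg _)]
          have : (1 - α) * -g = 1 := by linarith
          rw [this, Real.rpow_one]
  have hc0 : 0 ≤ 3 / a * M ^ (1 + g) * g⁻¹ := by positivity
  calc ∑ i ∈ Ico p q, ‖y (i + 1) - y i‖ ≤
      3 / a * M ^ (1 + g) * g⁻¹ * (W q ^ (-g) - W p ^ (-g)) := hsum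
    _ ≤ 3 / a * M ^ (1 + g) * g⁻¹ * (g0 ^ (-g) * ‖y q‖) :=
        mul_le_mul_of_nonneg_left (by linarith) hc0
    _ = _ := by ring
-- END eln

-- BEGIN ecs
private theorem ecs_tail {f : ℕ → ℝ} (h0 : ∀ i, 0 ≤ f i) {B : ℝ}
    (hB : ∀ n, ∑ i ∈ range n, f i ≤ B) {δ : ℝ} (hδ : 0 < δ) :
    ∃ p0 : ℕ, ∀ p q : ℕ, p0 ≤ p → p ≤ q → ∑ i ∈ Ico p q, f i ≤ δ := by
  have hs : Summable f := summable_of_sum_range_le h0 hB
  have ht := hs.hasSum.tendsto_sum_nat
  obtain ⟨p0, hp0⟩ := Metric.tendsto_atTop.1 ht (δ / 2) (by linarith)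
  refine ⟨p0, fun p q hp hq => ?_⟩
  have h1 := hp0 p hp
  have h2 := hp0 q (hp.trans hq)
  rw [Real.dist_eq, abs_lt] at h1 h2
  rw [Finset.sum_Ico_eq_sub _ hq]
  linarith [h1.1, h2.2]

private theorem ecs_step (h : DS y W H a b K K1 M α θ) {c δ : ℝ} (hc : 0 ≤ c) (i : ℕ)
    (hi : |En y W α i - c| ≤ δ) :
    H i ≤ (α - 1) * c * (‖y (i + 1)‖ - ‖y i‖) + (α - 1) * δ * ‖y (i + 1) - y i‖ +
      ‖y i‖ * Bb y W K1 α θ i := by
  have hα1 : 0 < α - 1 := by linarith [h.hα]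
  have hy : 0 < ‖y i‖ := zero_lt_one.trans_le (h.one i)
  have hb := h.hB i
  obtain ⟨p, hp⟩ : ∃ p : ℝ, p = inner ℝ (y (i + 1) - y i) (y i) / ‖y i‖ := ⟨_, rfl⟩
  have hp1 : |p| ≤ ‖y (i + 1) - y i‖ := by
    rw [hp, abs_div, abs_of_pos hy, div_le_iff₀ hy]
    exact abs_real_inner_le_norm _ _
  have hp2 : p ≤ ‖y (i + 1)‖ - ‖y i‖ := by
    rw [hp, div_le_iff₀ hy, inner_sub_left, real_inner_self_eq_norm_sq]
    have := real_inner_le_norm (y (i + 1)) (y i)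
    nlinarith
  rw [← hp] at hb
  have hD : En y W α i - En y W α (i + 1) + K1 * De y θ i ^ 2 ≤ Bb y W K1 α θ i := by
    have := sq_nonneg (De y θ i)
    unfold Bb
    linarith
  have h1 : H i / ‖y i‖ ≤ (α - 1) * (p / ‖y i‖) * En y W α i + Bb y W K1 α θ i := by
    have e1 : ‖y i‖ ^ (α - 1) * W i = En y W α i := rfl
    have e2 : ‖y (i + 1)‖ ^ (α - 1) * W (i + 1) = En y W α (i + 1) := rfl
    have e3 : ‖y i‖ ^ (-θ) = De y θ i := rfl
    rw [e1, e2, e3] at hb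
    linarith
  have h2 : H i ≤ (α - 1) * p * En y W α i + ‖y i‖ * Bb y W K1 α θ i := by
    rw [div_le_iff₀ hy] at h1
    have e4 : ((α - 1) * (p / ‖y i‖) * En y W α i + Bb y W K1 α θ i) * ‖y i‖ =
        (α - 1) * p * En y W α i + ‖y i‖ * Bb y W K1 α θ i := by
      field_simp
    rw [e4] at h1
    exact h1
  have h3 : p * (En y W α i - c) ≤ δ * ‖y (i + 1) - y i‖ := by
    calc p * (En y W α i - c) ≤ |p * (En y W α i - c)| := le_abs_self _
      _ = |p| * |En y W α i - c| := abs_mul _ _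
      _ ≤ ‖y (i + 1) - y i‖ * δ := mul_le_mul hp1 hi (abs_nonneg _) (norm_nonneg _)
      _ = δ * ‖y (i + 1) - y i‖ := mul_comm _ _
  have h4 := mul_le_mul_of_nonneg_left h3 hα1.le
  have h5 := mul_le_mul_of_nonneg_left hp2 (mul_nonneg hα1.le hc)
  nlinarith

/-- the cost of the way from `y p` to `y q`: by `hB`, `H i ≤ (α-1) p_i En i + ‖y i‖ D i` with
`p_i = inner (y (i+1) - y i) (y i) / ‖y i‖` and
`D i = En i - En (i+1) + K1 De i ^ 2 ≤ Bb i`; `Σ p_i ≤ ‖y q‖ - ‖y p‖` since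
`‖y (i+1)‖ ≥ inner (y (i+1)) (y i) / ‖y i‖`; `Σ |p_i| |En i - c| ≤ sup |En i - c| C ‖y q‖` by
`DS.length`; `Σ ‖y i‖ Bb i ≤ C ‖y q‖ Σ_{i ≥ p} Bb i` by `DS.quasi`, small for large `p` by
`DS.bsum` -/
theorem DS.cost (h : DS y W H a b K K1 M α θ) {c : ℝ} (hc : Tendsto (En y W α) atTop (nhds c))
    {ε : ℝ} (hε : 0 < ε) :
    ∃ p0 : ℕ, ∀ p q : ℕ, p0 ≤ p → p ≤ q →
      ∑ i ∈ Ico p q, H i ≤ (α - 1) * c * (‖y q‖ - ‖y p‖) + ε * ‖y q‖ := by
  have hα1 : 0 < α - 1 := by linarith [h.hα]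
  have ha := h.ha
  obtain ⟨C1, hC1, hlen⟩ := h.length
  obtain ⟨C2, hC2, hqua⟩ := h.quasi
  obtain ⟨B, hBs⟩ := h.bsum
  have hc0 : 0 ≤ c := by
    refine ge_of_tendsto' hc fun i => ?_
    have h1 := h.glow i
    have h2 : 0 ≤ a / 3 * (2 : ℝ) ^ (-α) := by positivity
    linarith
  have hBn : ∀ i, 0 ≤ Bb y W K1 α θ i := fun i => (h.bnn i).2.2.1
  obtain ⟨p1, hp1⟩ := ecs_tail hBn hBs (δ := ε / (2 * C2)) (by positivity)
  obtain ⟨δ, hδd⟩ : ∃ δ : ℝ, δ = ε / (2 * ((α - 1) * C1)) := ⟨_, rfl⟩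
  have hδ : 0 < δ := by rw [hδd]; positivity
  obtain ⟨p2, hp2⟩ := Metric.tendsto_atTop.1 hc δ hδ
  refine ⟨max p1 p2, fun p q hp hq => ?_⟩
  have hs : ∑ i ∈ Ico p q, H i ≤ ∑ i ∈ Ico p q, ((α - 1) * c * (‖y (i + 1)‖ - ‖y i‖) +
      (α - 1) * δ * ‖y (i + 1) - y i‖ + C2 * ‖y q‖ * Bb y W K1 α θ i) := by
    refine Finset.sum_le_sum fun i hi => ?_
    rw [Finset.mem_Ico] at hi
    have h1 : |En y W α i - c| ≤ δ := by
      have := hp2 i (((le_max_right _ _).trans hp).trans hi.1)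
      rw [Real.dist_eq] at this
      exact this.le
    have h2 := ecs_step h hc0 i h1
    have h3 := mul_le_mul_of_nonneg_right (hqua i q hi.2.le) (hBn i)
    linarith
  have htel : ∑ i ∈ Ico p q, (‖y (i + 1)‖ - ‖y i‖) = ‖y q‖ - ‖y p‖ := by
    rw [Finset.sum_Ico_eq_sub _ hq, Finset.sum_range_sub (fun i => ‖y i‖),
      Finset.sum_range_sub (fun i => ‖y i‖)]
    ring
  rw [Finset.sum_add_distrib, Finset.sum_add_distrib, ← Finset.mul_sum, ← Finset.mul_sum,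
    ← Finset.mul_sum, htel] at hs
  have h1 : (α - 1) * δ * ∑ i ∈ Ico p q, ‖y (i + 1) - y i‖ ≤ ε / 2 * ‖y q‖ := by
    have e1 : (α - 1) * δ * (C1 * ‖y q‖) = ε / 2 * ‖y q‖ := by
      rw [hδd]
      field_simp
    rw [← e1]
    exact mul_le_mul_of_nonneg_left (hlen p q hq) (by positivity)
  have h2 : C2 * ‖y q‖ * ∑ i ∈ Ico p q, Bb y W K1 α θ i ≤ ε / 2 * ‖y q‖ := by
    have e1 : C2 * ‖y q‖ * (ε / (2 * C2)) = ε / 2 * ‖y q‖ := by
      field_simp
    rw [← e1]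
    exact mul_le_mul_of_nonneg_left (hp1 p q ((le_max_left _ _).trans hp) hq) (by positivity)
  linarith
-- END ecs

end ds

-- BEGIN enr
/-- convergence of the energy along the whole ray: for `n i ≤ m < n (i+1)`,
`W (n (i+1)) ≤ W m ≤ W (n i)`, `|nrm (γ m) - r| ≤ r ^ (1-θ)` and
`|nrm (γ (n (i+1))) - r| ≤ 3/2 r ^ (1-θ)` with `r = nrm (γ (n i))`, `i → ∞` as `m → ∞` -/
theorem ray_en {γ : ℕ → V d} {W : ℕ → ℝ} {n : ℕ → ℕ} {H : ℕ → ℝ} {a b K K1 M α θ : ℝ}
    (h : DS (fun i => toE (γ (n i))) (fun i => W (n i)) H a b K K1 M α θ) (hn : StrictMono n)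
    (hin : ∀ i k, n i ≤ k → k < n (i + 1) →
      nrm (γ k - γ (n i)) ≤ nrm (γ (n i)) ^ (-θ) * nrm (γ (n i)))
    (hW : ∀ k, W (k + 1) ≤ W k) {c : ℝ}
    (hc : Tendsto (En (fun i => toE (γ (n i))) (fun i => W (n i)) α) atTop (nhds c)) :
    Tendsto (fun m => nrm (γ m) ^ (α - 1) * W m) atTop (nhds c) := by
  classical
  have hWa : Antitone W := antitone_nat_of_succ_le hW
  have hα := h.hα
  have hr1 : ∀ i, 1 ≤ nrm (γ (n i)) := fun i => by rw [nrm_eq]; exact h.one i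
  have hlim : Tendsto (fun i => nrm (γ (n i))) atTop atTop := by
    refine h.lim.congr fun i => ?_
    exact (nrm_eq _).symm
  have he : Tendsto (fun i => nrm (γ (n i)) ^ (-θ)) atTop (nhds 0) :=
    (tendsto_rpow_neg_atTop h.hθ).comp hlim
  have hEn : ∀ i, En (fun i => toE (γ (n i))) (fun i => W (n i)) α i =
      nrm (γ (n i)) ^ (α - 1) * W (n i) := by
    intro i; unfold En; rw [nrm_eq]
  have hc0 : Tendsto (fun i => nrm (γ (n i)) ^ (α - 1) * W (n i)) atTop (nhds c) :=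
    hc.congr hEn
  have hc1 : Tendsto (fun i => nrm (γ (n (i + 1))) ^ (α - 1) * W (n (i + 1))) atTop (nhds c) :=
    (tendsto_add_atTop_iff_nat (f := fun i => nrm (γ (n i)) ^ (α - 1) * W (n i)) 1).2 hc0
  have hup : Tendsto (fun i => (1 + nrm (γ (n i)) ^ (-θ)) ^ (α - 1) *
      (nrm (γ (n i)) ^ (α - 1) * W (n i))) atTop (nhds c) := by
    have h1 : Tendsto (fun i => (1 + nrm (γ (n i)) ^ (-θ)) ^ (α - 1)) atTop
        (nhds ((1 + 0 : ℝ) ^ (α - 1))) :=
      (tendsto_const_nhds.add he).rpow_const (Or.inl (by norm_num))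
    have h2 := h1.mul hc0
    simpa using h2
  have hlo : Tendsto (fun i => ((1 - nrm (γ (n i)) ^ (-θ)) /
      (1 + 3 / 2 * nrm (γ (n i)) ^ (-θ))) ^ (α - 1) *
      (nrm (γ (n (i + 1))) ^ (α - 1) * W (n (i + 1)))) atTop (nhds c) := by
    have h0 : Tendsto (fun i => (1 - nrm (γ (n i)) ^ (-θ)) /
        (1 + 3 / 2 * nrm (γ (n i)) ^ (-θ))) atTop (nhds ((1 - 0) / (1 + 3 / 2 * 0))) := by
      refine (tendsto_const_nhds.sub he).div (tendsto_const_nhds.add (he.const_mul _)) ?_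
      norm_num
    have h1 : Tendsto (fun i => ((1 - nrm (γ (n i)) ^ (-θ)) /
        (1 + 3 / 2 * nrm (γ (n i)) ^ (-θ))) ^ (α - 1)) atTop
        (nhds (((1 - 0) / (1 + 3 / 2 * 0) : ℝ) ^ (α - 1))) :=
      h0.rpow_const (Or.inl (by norm_num))
    have h2 := h1.mul hc1
    simpa using h2
  -- bounds on a block
  have key : ∀ i m, n i ≤ m → m < n (i + 1) →
      ((1 - nrm (γ (n i)) ^ (-θ)) / (1 + 3 / 2 * nrm (γ (n i)) ^ (-θ))) ^ (α - 1) *
        (nrm (γ (n (i + 1))) ^ (α - 1) * W (n (i + 1))) ≤ nrm (γ m) ^ (α - 1) * W m ∧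
      nrm (γ m) ^ (α - 1) * W m ≤ (1 + nrm (γ (n i)) ^ (-θ)) ^ (α - 1) *
        (nrm (γ (n i)) ^ (α - 1) * W (n i)) := by
    intro i m h1 h2
    have hr := hr1 i
    have hs : nrm (γ (n i)) ^ (-θ) ≤ 1 / 32 := by
      have := h.small i; rw [nrm_eq]; exact this
    have hs0 : 0 ≤ nrm (γ (n i)) ^ (-θ) := Real.rpow_nonneg (nrm_nonneg _) _
    have hst : nrm (γ (n (i + 1))) ≤ nrm (γ (n i)) +
        3 / 2 * nrm (γ (n i)) ^ (-θ) * nrm (γ (n i)) := by
      have e1 := h.stp i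
      have e2 := nrm_le_add (γ (n (i + 1))) (γ (n i))
      have e3 : nrm (γ (n (i + 1)) - γ (n i)) ≤ 3 / 2 * nrm (γ (n i)) ^ (-θ) * nrm (γ (n i)) := by
        rw [nrm_eq (γ (n (i + 1)) - γ (n i)), toE_sub, nrm_eq (γ (n i))]
        exact e1
      linarith
    have hin' := hin i m h1 h2
    have hle1 : nrm (γ m) ≤ nrm (γ (n i)) + nrm (γ (n i)) ^ (-θ) * nrm (γ (n i)) := by
      have e2 := nrm_le_add (γ m) (γ (n i))
      linarith
    have hge1 : nrm (γ (n i)) - nrm (γ (n i)) ^ (-θ) * nrm (γ (n i)) ≤ nrm (γ m) := by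
      have e2 := nrm_le_add (γ (n i)) (γ m)
      rw [nrm_sub_comm] at e2
      linarith
    have hWm0 : W m ≤ W (n i) := hWa h1
    have hWm1 : W (n (i + 1)) ≤ W m := hWa h2.le
    have hWp : 0 < W (n (i + 1)) := h.Wpos (i + 1)
    have hWmp : 0 < W m := lt_of_lt_of_le hWp hWm1
    generalize nrm (γ (n i)) ^ (-θ) = e at *
    generalize nrm (γ (n i)) = r at *
    have hα1 : 0 ≤ α - 1 := by linarith
    have hm0 : 0 ≤ nrm (γ m) := nrm_nonneg _
    constructor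
    · have q1 : 0 ≤ nrm (γ (n (i + 1))) := nrm_nonneg _
      have q0 : 0 < 1 + 3 / 2 * e := by linarith
      have q2 : 0 ≤ (1 - e) / (1 + 3 / 2 * e) := div_nonneg (by linarith) q0.le
      have q3 : (1 - e) / (1 + 3 / 2 * e) * nrm (γ (n (i + 1))) ≤ nrm (γ m) := by
        have : (1 - e) / (1 + 3 / 2 * e) * nrm (γ (n (i + 1))) ≤
            (1 - e) / (1 + 3 / 2 * e) * (r + 3 / 2 * e * r) :=
          mul_le_mul_of_nonneg_left hst q2
        have e4 : (1 - e) / (1 + 3 / 2 * e) * (r + 3 / 2 * e * r) = r - e * r := by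
          field_simp
        linarith
      calc ((1 - e) / (1 + 3 / 2 * e)) ^ (α - 1) *
            (nrm (γ (n (i + 1))) ^ (α - 1) * W (n (i + 1)))
          = ((1 - e) / (1 + 3 / 2 * e) * nrm (γ (n (i + 1)))) ^ (α - 1) * W (n (i + 1)) := by
            rw [Real.mul_rpow q2 q1]; ring
        _ ≤ nrm (γ m) ^ (α - 1) * W m :=
            mul_le_mul (Real.rpow_le_rpow (mul_nonneg q2 q1) q3 hα1) hWm1 hWp.le
              (Real.rpow_nonneg hm0 _)
    · have q3 : nrm (γ m) ≤ (1 + e) * r := by linarith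
      calc nrm (γ m) ^ (α - 1) * W m ≤ ((1 + e) * r) ^ (α - 1) * W (n i) :=
            mul_le_mul (Real.rpow_le_rpow hm0 q3 hα1) hWm0 hWmp.le
              (Real.rpow_nonneg (mul_nonneg (by linarith) (by linarith)) _)
        _ = (1 + e) ^ (α - 1) * (r ^ (α - 1) * W (n i)) := by
            rw [Real.mul_rpow (by linarith) (by linarith)]; ring
  have hfind : ∀ I m, n I ≤ m → ∃ i, I ≤ i ∧ n i ≤ m ∧ m < n (i + 1) := by
    intro I m hIm
    have hex : ∃ j, m < n j := ⟨m + 1, lt_of_lt_of_le (Nat.lt_succ_self m) (hn.id_le (m + 1))⟩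
    have hs := Nat.find_spec hex
    have hmin : ∀ k, k < Nat.find hex → ¬ m < n k := fun k hk => Nat.find_min hex hk
    generalize Nat.find hex = j at hs hmin
    have hj : I < j := by
      by_contra hcon
      have := hn.monotone (not_lt.1 hcon)
      omega
    obtain ⟨i, rfl⟩ : ∃ i, j = i + 1 := ⟨j - 1, by omega⟩
    exact ⟨i, by omega, not_lt.1 (hmin i (Nat.lt_succ_self i)), hs⟩
  rw [Metric.tendsto_atTop]
  intro ε hε
  obtain ⟨I1, hI1⟩ := (Metric.tendsto_atTop.1 hup) ε hε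
  obtain ⟨I2, hI2⟩ := (Metric.tendsto_atTop.1 hlo) ε hε
  refine ⟨n (max I1 I2), fun m hm => ?_⟩
  obtain ⟨i, hi, h1, h2⟩ := hfind _ m hm
  have a1 := hI1 i (le_trans (le_max_left _ _) hi)
  have a2 := hI2 i (le_trans (le_max_right _ _) hi)
  obtain ⟨k1, k2⟩ := key i m h1 h2
  rw [Real.dist_eq, abs_lt] at a1 a2 ⊢
  constructor
  · linarith [a2.1]
  · linarith [a1.2]
-- END enr

-- BEGIN crb
/-- the bound `UB` at one vertex for the multiple `N • w` -/
private theorem crb_one {h : V d → ℝ} {η α K s : ℝ} (hα : 1 < α) {w z : V d} {N : ℕ} (hN : 0 < N)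
    (hz : 0 < nrm z) (hx : 0 < pr w z) (h1 : nrm (N • w) ≤ 2 * nrm z ^ (1 - η / 8))
    (h2 : nrm z ^ (1 - η / 4) / 2 ≤ pr (N • w) z) (hu : UB h η α K s z) :
    (α - 1) * (nrm z ^ (α - 1) * s) * pr w z ≤
      (1 + K * nrm z ^ (-(η / 8))) * (h (N • w) / N) := by
  have h3 := hu (N • w) h1 h2
  rw [pr_nsmul] at h3
  have hr : 0 < nrm z ^ (α - 1) := Real.rpow_pos_of_pos hz _
  have hrr : nrm z ^ (1 - α) * nrm z ^ (α - 1) = 1 := by
    rw [← Real.rpow_add hz, show 1 - α + (α - 1) = 0 by ring, Real.rpow_zero]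
  have hN' : (0 : ℝ) < N := by exact_mod_cast hN
  have hα0 : 0 < α - 1 := by linarith
  have hα1 : α - 1 ≠ 0 := hα0.ne'
  have h4 := mul_le_mul_of_nonneg_left h3
    (mul_nonneg (mul_nonneg hα0.le hr.le) hx.le)
  have h5 : (α - 1) * nrm z ^ (α - 1) * pr w z *
      ((1 + K * nrm z ^ (-(η / 8))) * (h (N • w) / ((α - 1) * (N * pr w z))) * nrm z ^ (1 - α)) =
      (1 + K * nrm z ^ (-(η / 8))) * (h (N • w) / N) * (nrm z ^ (1 - α) * nrm z ^ (α - 1)) := by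
    generalize nrm z ^ (α - 1) = u
    generalize nrm z ^ (1 - α) = v
    generalize nrm z ^ (-(η / 8)) = t
    field_simp
  rw [h5, hrr, mul_one] at h4
  calc (α - 1) * (nrm z ^ (α - 1) * s) * pr w z =
      (α - 1) * nrm z ^ (α - 1) * pr w z * s := by ring
    _ ≤ _ := h4

/-- the multiple of `w` is long enough in the direction of the vertex -/
private theorem crb_far {η e1 r u x N : ℝ} (hη : η ≤ 1) (he : 0 < e1) (hu : 0 < u) (hr : 1 ≤ r)
    (h4 : u * (1 / 2 + e1) / e1 ≤ r ^ (η / 8)) (hN : r ^ (1 - η / 8) / u < N + 1) (hN0 : 0 ≤ N)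
    (hx : e1 ≤ x) : r ^ (1 - η / 4) / 2 ≤ N * x := by
  have hr0 : 0 < r := by linarith
  have k1 : r ^ (1 - η / 8) = r ^ (1 - η / 4) * r ^ (η / 8) := by
    rw [← Real.rpow_add hr0]
    congr 1
    ring
  have k2 : 1 ≤ r ^ (1 - η / 4) := Real.one_le_rpow hr (by linarith)
  have k4 : r ^ (1 - η / 4) * (1 / 2 + e1) ≤ e1 * (r ^ (1 - η / 8) / u) := by
    rw [k1]
    generalize r ^ (1 - η / 4) = p at *
    generalize r ^ (η / 8) = q at *
    have k3 : u * (1 / 2 + e1) ≤ q * e1 := (div_le_iff₀ he).1 h4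
    have k5 : 0 ≤ p / u := by positivity
    have k6 := mul_le_mul_of_nonneg_left k3 k5
    have k7 : p / u * (u * (1 / 2 + e1)) = p * (1 / 2 + e1) := by field_simp
    have k8 : p / u * (q * e1) = e1 * (p * q / u) := by ring
    rw [k7, k8] at k6
    exact k6
  have k5 : e1 * (r ^ (1 - η / 8) / u - 1) ≤ N * x := by
    have k6 : r ^ (1 - η / 8) / u - 1 ≤ N := by linarith
    calc e1 * (r ^ (1 - η / 8) / u - 1) ≤ e1 * N := mul_le_mul_of_nonneg_left k6 he.le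
      _ = N * e1 := mul_comm _ _
      _ ≤ N * x := mul_le_mul_of_nonneg_left hx hN0
  have k6 := mul_nonneg he.le (sub_nonneg.2 k2)
  linarith

/-- the lower bound for the time constant: let `ε1` be small; if `pr w (γ m) < ε1` the inequality is
trivial (`muh ≥ 0`). Otherwise use `UB` at `z = γ m` for `N • w`,
`N = ⌊nrm z ^ (1-η/8) / nrm w⌋₊`, it gives
`(α-1) (nrm z ^ (α-1) W m) pr w z ≤ (1 + K nrm z ^ (-(η/8))) h (N • w) / N`, and `muh_tendsto` -/
theorem ray_lower {h : V d → ℝ} {a b C : ℝ} (hh : HF h a b C) {η : ℝ} (hη : 0 < η) (hη1 : η ≤ 1)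
    {α : ℝ} (hα : 1 < α) {K : ℝ} (hK : 0 < K) {γ : ℕ → V d} {W : ℕ → ℝ}
    (hlim : Tendsto (fun n => nrm (γ n)) atTop atTop)
    (hub : ∀ᶠ n in atTop, UB h η α K (W n) (γ n)) {c : ℝ} (hc0 : 0 < c)
    (hc : Tendsto (fun m => nrm (γ m) ^ (α - 1) * W m) atTop (nhds c)) (w : V d) {ε : ℝ}
    (hε : 0 < ε) :
    ∀ᶠ m in atTop, (α - 1) * c * ip w (γ m) ≤ (muh h w + ε) * nrm (γ m) := by
  have hmu := muh_nonneg hh w
  by_cases hw : w = 0
  · refine Filter.Eventually.of_forall fun m => ?_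
    have h1 : ip w (γ m) = 0 := by rw [hw, ip_zero]
    rw [h1, mul_zero]
    exact mul_nonneg (add_nonneg hmu hε.le) (nrm_nonneg _)
  have hw1 : 1 ≤ nrm w := one_le_nrm hw
  have hw0 : 0 < nrm w := by linarith
  have hα0 : 0 < α - 1 := by linarith
  obtain ⟨e1, he1⟩ : ∃ e1 : ℝ, e1 = ε / ((α - 1) * c) := ⟨_, rfl⟩
  have he0 : 0 < e1 := by
    rw [he1]
    positivity
  obtain ⟨N, hN⟩ : ∃ N : ℕ → ℕ, N = fun m => ⌊nrm (γ m) ^ (1 - η / 8) / nrm w⌋₊ := ⟨_, rfl⟩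
  have hNlim : Tendsto N atTop atTop := by
    rw [hN]
    exact tendsto_nat_floor_atTop.comp
      (((tendsto_rpow_atTop (show 0 < 1 - η / 8 by linarith)).comp hlim).atTop_div_const hw0)
  have hK1 : Tendsto (fun m => 1 + K * nrm (γ m) ^ (-(η / 8))) atTop (nhds 1) := by
    have h1 : Tendsto (fun m => nrm (γ m) ^ (-(η / 8))) atTop (nhds 0) :=
      (tendsto_rpow_neg_atTop (show 0 < η / 8 by linarith)).comp hlim
    have h2 := (h1.const_mul K).const_add 1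
    simpa using h2
  have hf : Tendsto (fun m => (1 + K * nrm (γ m) ^ (-(η / 8))) * (h (N m • w) / N m)) atTop
      (nhds (muh h w)) := by
    have h1 := hK1.mul ((muh_tendsto hh w).comp hNlim)
    rw [one_mul] at h1
    exact h1
  have hf1 := hf.eventually_lt_const (show muh h w < muh h w + ε / 2 by linarith)
  have hcc := hc.eventually_const_lt (show c - ε / (2 * (α - 1) * nrm w) < c by
    have h1 : 0 < ε / (2 * (α - 1) * nrm w) := by positivity
    linarith)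
  have hr1 := hlim.eventually_ge_atTop 1
  have hr2 := ((tendsto_rpow_atTop (show 0 < η / 8 by linarith)).comp hlim).eventually_ge_atTop
    (nrm w * (1 / 2 + e1) / e1)
  have hN1 := hNlim.eventually_ge_atTop 1
  filter_upwards [hub, hf1, hcc, hr1, hr2, hN1] with m hu h1 h2 h3 h4 h5
  have hr0 : 0 < nrm (γ m) := by linarith
  have hip : ip w (γ m) = pr w (γ m) * nrm (γ m) := by
    unfold pr
    field_simp
  rw [hip, ← mul_assoc]
  refine mul_le_mul_of_nonneg_right ?_ hr0.le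
  by_cases hx : pr w (γ m) < e1
  · have h6 : (α - 1) * c * pr w (γ m) ≤ (α - 1) * c * e1 :=
      mul_le_mul_of_nonneg_left hx.le (by positivity)
    have h7 : (α - 1) * c * e1 = ε := by
      rw [he1]
      field_simp
    linarith
  · rw [not_lt] at hx
    have hx0 : 0 < pr w (γ m) := lt_of_lt_of_le he0 hx
    have hNm : N m = ⌊nrm (γ m) ^ (1 - η / 8) / nrm w⌋₊ := by rw [hN]
    have hpos : 0 ≤ nrm (γ m) ^ (1 - η / 8) := Real.rpow_nonneg hr0.le _
    have hfl : (N m : ℝ) ≤ nrm (γ m) ^ (1 - η / 8) / nrm w := by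
      rw [hNm]
      exact Nat.floor_le (div_nonneg hpos hw0.le)
    have hfl2 : nrm (γ m) ^ (1 - η / 8) / nrm w < N m + 1 := by
      rw [hNm]
      exact Nat.lt_floor_add_one _
    have g1 : nrm (N m • w) ≤ 2 * nrm (γ m) ^ (1 - η / 8) := by
      rw [nrm_nsmul]
      have h6 := (le_div_iff₀ hw0).1 hfl
      linarith
    have g2 : nrm (γ m) ^ (1 - η / 4) / 2 ≤ pr (N m • w) (γ m) := by
      rw [pr_nsmul]
      exact crb_far hη1 he0 hw0 h3 h4 hfl2 (Nat.cast_nonneg _) hx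
    have h8 := crb_one hα (show 0 < N m by omega) hr0 hx0 g1 g2 hu
    have h9 : (α - 1) * c * pr w (γ m) ≤
        (α - 1) * (nrm (γ m) ^ (α - 1) * W m) * pr w (γ m) + ε / 2 := by
      have hxw : pr w (γ m) ≤ nrm w := pr_le w _
      have h10 : c - nrm (γ m) ^ (α - 1) * W m ≤ ε / (2 * (α - 1) * nrm w) := by linarith
      have h11 : (α - 1) * pr w (γ m) * (c - nrm (γ m) ^ (α - 1) * W m) ≤
          (α - 1) * pr w (γ m) * (ε / (2 * (α - 1) * nrm w)) :=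
        mul_le_mul_of_nonneg_left h10 (mul_nonneg hα0.le hx0.le)
      have h12 : (α - 1) * pr w (γ m) * (ε / (2 * (α - 1) * nrm w)) ≤
          (α - 1) * nrm w * (ε / (2 * (α - 1) * nrm w)) :=
        mul_le_mul_of_nonneg_right (mul_le_mul_of_nonneg_left hxw hα0.le) (by positivity)
      have h13 : (α - 1) * nrm w * (ε / (2 * (α - 1) * nrm w)) = ε / 2 := by
        field_simp
      linarith
    linarith
-- END crb

-- BEGIN crc
theorem crc_sum {h : V d → ℝ} {a b C : ℝ} (hh : HF h a b C) (γ : ℕ → V d) {p q : ℕ} (hpq : p ≤ q) :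
    h (γ q - γ p) ≤ ∑ i ∈ Ico p q, h (γ (i + 1) - γ i) := by
  induction q, hpq using Nat.le_induction with
  | base =>
    rw [sub_self, Finset.Ico_self, Finset.sum_empty]
    have h1 := hh.up 0
    rwa [nrm_zero, mul_zero] at h1
  | succ q hq ih =>
    rw [Finset.sum_Ico_succ_top hq]
    have h1 := hh.sub (γ q - γ p) (γ (q + 1) - γ q)
    rw [show γ q - γ p + (γ (q + 1) - γ q) = γ (q + 1) - γ p by abel] at h1
    linarith

theorem crc_le {h : V d → ℝ} {a b C : ℝ} (hh : HF h a b C) (w : V d) : muh h w ≤ h w := by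
  have h1 := muh_le hh w Nat.one_pos
  rw [one_smul, Nat.cast_one, div_one] at h1
  exact h1

theorem crc_block {n : ℕ → ℕ} (hn : StrictMono n) (Q m : ℕ) (hm : n (Q + 1) ≤ m) :
    ∃ q, Q ≤ q ∧ n q ≤ m ∧ m < n (q + 1) := by
  classical
  have hex : ∃ i, m < n i := ⟨m + 1, lt_of_lt_of_le (Nat.lt_succ_self m) hn.le_apply⟩
  have h1 : m < n (Nat.find hex) := Nat.find_spec hex
  have h2 : Q + 1 < Nat.find hex := by
    by_contra hc
    have h3 := hn.monotone (not_lt.1 hc)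
    omega
  refine ⟨Nat.find hex - 1, by omega, ?_, ?_⟩
  · exact not_lt.1 (Nat.find_min hex (by omega))
  · rw [Nat.sub_add_cancel (by omega)]
    exact h1

/-- the upper bound for the time constant: fix `p` with `DS.cost`; subadditivity of `h` and `muh_le`
give `muh (γ (n q) - γ (n p)) ≤ Σ H i`; `muh_add` with `γ (n p)` (fixed) and, for `m` in the block of
`q`, with `γ m - γ (n q)` (`muh ≤ h ≤ b nrm`, `hin`) -/
theorem ray_upper {h : V d → ℝ} {a b C : ℝ} (hh : HF h a b C) {γ : ℕ → V d} {W : ℕ → ℝ}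
    {n : ℕ → ℕ} {b' K K1 M α θ : ℝ}
    (hd : DS (fun i => toE (γ (n i))) (fun i => W (n i)) (fun i => h (γ (n (i + 1)) - γ (n i)))
      a b' K K1 M α θ) (hn : StrictMono n)
    (hin : ∀ i k, n i ≤ k → k < n (i + 1) →
      nrm (γ k - γ (n i)) ≤ nrm (γ (n i)) ^ (-θ) * nrm (γ (n i))) {c : ℝ} (hc0 : 0 < c)
    (hc : Tendsto (En (fun i => toE (γ (n i))) (fun i => W (n i)) α) atTop (nhds c)) {ε : ℝ}
    (hε : 0 < ε) :
    ∀ᶠ m in atTop, muh h (γ m) ≤ ((α - 1) * c + ε) * nrm (γ m) := by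
  obtain ⟨p, hp⟩ := hd.cost hc (ε := ε / 4) (by positivity)
  have hα : 1 < α := hd.hα
  have hac : 0 ≤ (α - 1) * c := mul_nonneg (by linarith) hc0.le
  have hr : Tendsto (fun i => nrm (γ (n i))) atTop atTop := by
    have h1 := hd.lim
    simp only [← nrm_eq] at h1
    exact h1
  have hup : ∀ z, h z ≤ |b| * nrm z := fun z =>
    (hh.up z).trans (mul_le_mul_of_nonneg_right (le_abs_self b) (nrm_nonneg z))
  set D : ℝ := (α - 1) * c + ε + |b| with hD
  have hD0 : 0 < D := by positivity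
  -- the small parameter tends to zero
  have hdel : Tendsto (fun i => nrm (γ (n i)) ^ (-θ)) atTop (nhds 0) :=
    (tendsto_rpow_neg_atTop hd.hθ).comp hr
  have e1 : ∀ᶠ i in atTop, nrm (γ (n i)) ^ (-θ) < ε / 4 / D :=
    hdel.eventually (gt_mem_nhds (by positivity))
  have e2 : ∀ᶠ i in atTop, |b| * nrm (γ (n p)) / (ε / 4) ≤ nrm (γ (n i)) :=
    hr.eventually (eventually_ge_atTop _)
  have e3 : ∀ᶠ i in atTop, 1 ≤ nrm (γ (n i)) := hr.eventually (eventually_ge_atTop _)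
  obtain ⟨Q, hQ⟩ := eventually_atTop.1 (e1.and (e2.and (e3.and (eventually_ge_atTop p))))
  filter_upwards [eventually_ge_atTop (n (Q + 1))] with m hm
  obtain ⟨q, hq, hq1, hq2⟩ := crc_block hn Q m hm
  obtain ⟨f1, f2, f3, f4⟩ := hQ q hq
  set r := nrm (γ (n q)) with hrdef
  set δ := r ^ (-θ) with hδ
  have hr0 : 0 < r := by linarith
  have hδ0 : 0 ≤ δ := Real.rpow_nonneg hr0.le _
  have g1 : muh h (γ m) ≤ muh h (γ m - γ (n q)) + (muh h (γ (n q) - γ (n p)) + muh h (γ (n p))) := by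
    have h1 := muh_add hh (γ m - γ (n q)) (γ (n q) - γ (n p) + γ (n p))
    rw [show γ m - γ (n q) + (γ (n q) - γ (n p) + γ (n p)) = γ m by abel] at h1
    have h2 := muh_add hh (γ (n q) - γ (n p)) (γ (n p))
    linarith
  have g2 : muh h (γ m - γ (n q)) ≤ |b| * (δ * r) :=
    (crc_le hh _).trans ((hup _).trans (mul_le_mul_of_nonneg_left (hin q m hq1 hq2) (abs_nonneg b)))
  have g3 : muh h (γ (n p)) ≤ |b| * nrm (γ (n p)) := (crc_le hh _).trans (hup _)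
  have g4 : muh h (γ (n q) - γ (n p)) ≤ ((α - 1) * c + ε / 4) * r := by
    have h1 := crc_sum hh (fun i => γ (n i)) f4
    have h2 := hp p q le_rfl f4
    simp only [← nrm_eq] at h2
    have h3 : 0 ≤ (α - 1) * c * nrm (γ (n p)) := mul_nonneg hac (nrm_nonneg _)
    refine (crc_le hh _).trans (h1.trans (h2.trans ?_))
    rw [← hrdef]
    linarith
  have g5 : |b| * nrm (γ (n p)) ≤ ε / 4 * r := by
    rw [div_le_iff₀ (by positivity)] at f2
    linarith
  have g6 : r * (1 - δ) ≤ nrm (γ m) := by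
    have h1 := nrm_le_add (γ (n q)) (γ m)
    rw [nrm_sub_comm] at h1
    have h2 := hin q m hq1 hq2
    linarith
  have g7 : D * δ ≤ ε / 4 := by
    rw [lt_div_iff₀ hD0] at f1
    linarith
  have g8 : ((α - 1) * c + ε) * (r * (1 - δ)) ≤ ((α - 1) * c + ε) * nrm (γ m) :=
    mul_le_mul_of_nonneg_left g6 (by linarith)
  have g9 : D * δ * r ≤ ε / 4 * r := mul_le_mul_of_nonneg_right g7 hr0.le
  have g10 : D * δ * r = ((α - 1) * c + ε) * (δ * r) + |b| * (δ * r) := by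
    rw [hD]
    ring
  have g11 : 0 < ε * r := mul_pos hε hr0
  nlinarith
-- END crc

-- BEGIN crt
/-- the ray points in critical directions: `N0`, `disc`, `mkDS` as in the proof of `ray_all`, then
`DS.lim_en`, `ray_en`, `ray_lower`, `ray_upper` (with a small `ε'`); if `ip w (γ m) ≤ 0` the left side
is `≤ 0`; a vertex of norm larger than those of the first `m0` vertices has index at least `m0` -/
theorem ray_crit {h : V d → ℝ} {a b C : ℝ} (hh : HF h a b C) {η : ℝ} (hη : 0 < η) (hη1 : η ≤ 1)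
    {α : ℝ} (hα : 1 < α) {K : ℝ} (hK : 0 < K) {E : Edge d → ℝ} {R0 : ℝ} (hE : ∀ e, 0 ≤ E e)
    (hCC : CC h η E R0) {γ : ℕ → V d} {st : ℕ → Step d} {W : ℕ → ℝ}
    (hr : InfRay h η α K E γ st W) (w : V d) {ε : ℝ} (hε : 0 < ε) :
    ∃ R : ℝ, ∀ m m' : ℕ, R ≤ nrm (γ m) → R ≤ nrm (γ m') →
      muh h (γ m') * ip w (γ m) ≤ (muh h w + ε) * (nrm (γ m) * nrm (γ m')) := by
  obtain ⟨K1, R1, hmk⟩ := mkDS hh hη hη1 hα hK
  have hlarge : ∀ᶠ n in atTop, max 1 (max R1 R0) ≤ nrm (γ n) :=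
    hr.lim.eventually_ge_atTop (max 1 (max R1 R0))
  obtain ⟨N0, hN0⟩ := eventually_atTop.1 (hlarge.and hr.ub)
  have hone : ∀ k, N0 ≤ k → 1 ≤ nrm (γ k) := fun k hk => (le_max_left _ _).trans (hN0 k hk).1
  have hR1 : ∀ k, N0 ≤ k → R1 ≤ nrm (γ k) := fun k hk =>
    ((le_max_left _ _).trans (le_max_right _ _)).trans (hN0 k hk).1
  have hR0 : ∀ k, N0 ≤ k → R0 ≤ nrm (γ k) := fun k hk =>
    ((le_max_right _ _).trans (le_max_right _ _)).trans (hN0 k hk).1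
  obtain ⟨n, hn0, hnm, hnlt, hnge⟩ := disc hr.lim (fun v => nrm v ^ (1 - η / 8))
    (fun v hv => Real.rpow_pos_of_pos hv _) N0 (fun k hk => lt_of_lt_of_le one_pos (hone k hk))
  have hDS := hmk E R0 hE hCC γ st W hr N0
    (fun k hk => ⟨hR1 k hk, hR0 k hk, (hN0 k hk).2⟩) n hn0 hnm hnlt hnge
  have hin : ∀ i k, n i ≤ k → k < n (i + 1) →
      nrm (γ k - γ (n i)) ≤ nrm (γ (n i)) ^ (-(η / 8)) * nrm (γ (n i)) := by
    intro i k h1 h2
    have h3 : N0 ≤ n i := by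
      rw [← hn0]
      exact hnm.monotone (Nat.zero_le i)
    have h4 : 0 < nrm (γ (n i)) := lt_of_lt_of_le one_pos (hone _ h3)
    have h5 : nrm (γ (n i)) ^ (-(η / 8)) * nrm (γ (n i)) = nrm (γ (n i)) ^ (1 - η / 8) := by
      have h6 : (1 - η / 8 : ℝ) = -(η / 8) + 1 := by ring
      rw [h6, Real.rpow_add h4, Real.rpow_one]
    rw [h5]
    exact (hnlt i k h1 h2).le
  have hW : ∀ k, W (k + 1) ≤ W k := by
    intro k
    have h1 : 0 ≤ tau α E (edg (γ k) (st k)) :=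
      div_nonneg (hE _) (Real.rpow_nonneg (Real.sqrt_nonneg _) _)
    have h2 := hr.Weq k
    linarith
  obtain ⟨c, hc0, hc⟩ := hDS.lim_en
  have hce := ray_en hDS hnm hin hW hc
  have hw0 : 0 ≤ nrm w := nrm_nonneg w
  have hd : 0 < ε / (2 * (nrm w + 1)) := by positivity
  have hlow := ray_lower hh hη hη1 hα hK hr.lim hr.ub hc0 hce w (half_pos hε)
  have hup := ray_upper hh hDS hnm hin hc0 hc hd
  obtain ⟨m0, hm0⟩ := eventually_atTop.1 (hlow.and hup)
  have hsum : ∀ m, m < m0 → nrm (γ m) ≤ ∑ i ∈ range m0, nrm (γ i) := fun m hm =>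
    Finset.single_le_sum (f := fun i => nrm (γ i)) (fun j _ => nrm_nonneg _) (Finset.mem_range.2 hm)
  have hidx : ∀ m, 1 + ∑ i ∈ range m0, nrm (γ i) ≤ nrm (γ m) → m0 ≤ m := by
    intro m hm
    by_contra h1
    have h2 := hsum m (not_le.1 h1)
    linarith
  refine ⟨1 + ∑ i ∈ range m0, nrm (γ i), fun m m' hm hm' => ?_⟩
  have h1 := (hm0 m (hidx m hm)).1
  have h2 := (hm0 m' (hidx m' hm')).2
  have hn1 : 0 ≤ nrm (γ m) := nrm_nonneg _
  have hn2 : 0 ≤ nrm (γ m') := nrm_nonneg _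
  have hmu1 : 0 ≤ muh h (γ m') := muh_nonneg hh _
  have hmu2 : 0 ≤ muh h w := muh_nonneg hh _
  rcases le_or_gt (ip w (γ m)) 0 with h3 | h3
  · have h4 : muh h (γ m') * ip w (γ m) ≤ 0 := mul_nonpos_of_nonneg_of_nonpos hmu1 h3
    have h5 : 0 ≤ (muh h w + ε) * (nrm (γ m) * nrm (γ m')) := by positivity
    linarith
  · have h4 : ip w (γ m) ≤ nrm w * nrm (γ m) := (le_abs_self _).trans (abs_ip_le _ _)
    have h5 : ε / (2 * (nrm w + 1)) * nrm w ≤ ε / 2 := by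
      rw [div_mul_eq_mul_div, div_le_div_iff₀ (by positivity) (by norm_num)]
      nlinarith
    have h6 : muh h (γ m') * ip w (γ m) ≤
        ((α - 1) * c + ε / (2 * (nrm w + 1))) * nrm (γ m') * ip w (γ m) :=
      mul_le_mul_of_nonneg_right h2 h3.le
    have h7 : (α - 1) * c * ip w (γ m) * nrm (γ m') ≤ (muh h w + ε / 2) * nrm (γ m) * nrm (γ m') :=
      mul_le_mul_of_nonneg_right h1 hn2
    have h8 : ε / (2 * (nrm w + 1)) * ip w (γ m) * nrm (γ m') ≤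
        ε / (2 * (nrm w + 1)) * (nrm w * nrm (γ m)) * nrm (γ m') :=
      mul_le_mul_of_nonneg_right (mul_le_mul_of_nonneg_left h4 hd.le) hn2
    have h9 : ε / (2 * (nrm w + 1)) * nrm w * (nrm (γ m) * nrm (γ m')) ≤
        ε / 2 * (nrm (γ m) * nrm (γ m')) :=
      mul_le_mul_of_nonneg_right h5 (mul_nonneg hn1 hn2)
    nlinarith
-- END crt

/-- the limit directions of the ray are critical, with the same time constant -/
def Critical (s : ℕ → Edge d) : Prop :=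
  ∀ (w : V d) (k : ℕ), ∃ R : ℕ, ∀ z z' : V d, (Desc s z).Infinite → (Desc s z').Infinite →
    (R : ℝ) ≤ nrm z → (R : ℝ) ≤ nrm z' →
    mu z' * ip w z ≤ (mu w + 1 / ((k : ℝ) + 1)) * (nrm z * nrm z')

-- BEGIN mcr
private theorem mcr_desc (z : V d) :
    MeasurableSet {s : ℕ → Edge d | (Desc s z).Infinite} := by
  refine UNIQAux.meas_inf (fun s : ℕ → Edge d => Desc s z) fun v => ?_
  exact measurableSet_rtg (fun (s : ℕ → Edge d) x y => Infects s x y)
    (fun x y => measurableSet_infects x y) z v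

/-- as `measurableSet_straight` -/
theorem measurableSet_critical : MeasurableSet {s : ℕ → Edge d | Critical s} := by
  have hset : {s : ℕ → Edge d | Critical s} = ⋂ w : V d, ⋂ k : ℕ, ⋃ R : ℕ, ⋂ z : V d,
      ⋂ z' : V d, ({s : ℕ → Edge d | (Desc s z).Infinite}ᶜ ∪
        ({s : ℕ → Edge d | (Desc s z').Infinite}ᶜ ∪
        {_s : ℕ → Edge d | (R : ℝ) ≤ nrm z → (R : ℝ) ≤ nrm z' →
          mu z' * ip w z ≤ (mu w + 1 / ((k : ℝ) + 1)) * (nrm z * nrm z')})) := by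
    ext s
    simp only [Critical, Set.mem_ofPred_eq, Set.mem_iUnion, Set.mem_iInter, Set.mem_union,
      Set.mem_compl_iff]
    refine forall_congr' fun w => forall_congr' fun k => exists_congr fun R =>
      forall_congr' fun z => forall_congr' fun z' => ?_
    rw [← imp_iff_not_or, ← imp_iff_not_or]
  rw [hset]
  exact MeasurableSet.iInter fun w => MeasurableSet.iInter fun k => MeasurableSet.iUnion fun R =>
    MeasurableSet.iInter fun z => MeasurableSet.iInter fun z' =>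
      (mcr_desc z).compl.union ((mcr_desc z').compl.union (MeasurableSet.const _))
-- END mcr

-- BEGIN acr
/-- as `straight_ae`, with `ray_crit` in place of `ray_all` -/
theorem critical_ae (i0 : Fin d) {α : ℝ} (hα : 1 < α) : ∀ᵐ E ∂(PE d), ∀ s : ℕ → Edge d,
    (∀ n, G (tau α E) (lst s n)) → Critical s := by
  obtain ⟨a, C, hh⟩ := hf_hm d
  have he0 : 0 < eta d := by
    unfold eta
    positivity
  have he1 : eta d ≤ 1 := by
    unfold eta
    rw [div_le_one (by positivity)]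
    have h : (0 : ℝ) ≤ (d : ℝ) := Nat.cast_nonneg d
    linarith
  obtain ⟨K, R1, hK, hub⟩ := ub_S hh he0 he1 hα
  filter_upwards [conc d, ae_pos, explodes_ae i0 hα, via_or_avoid (d := d) α]
    with E hconc hpos hex hva s hG
  obtain ⟨R0, hCC⟩ := hconc
  have hτ : ∀ f, 0 < tau α E f := fun f =>
    div_pos (hpos f) (Real.rpow_pos_of_pos (mid_pos f) α)
  have hE : ∀ e, 0 ≤ E e := fun e => (hpos e).le
  have hd : ∀ (m : ℕ) (z : V d), z ∈ ends (s m) → z ∉ vs (lst s m) →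
      (Desc s z).Finite ∨ (Reached s \ Desc s z).Finite :=
    fun m z h1 h2 => desc_or i0 hτ hex hG (hva hex) h1 h2
  obtain ⟨γ, st, h0, h1, h2, h3⟩ := exists_ray hG hd
  obtain ⟨W, w1, w2, w3, w4, w5⟩ := ray_times i0 hτ hex hG h0 h1 h2
  have hray : InfRay (hm (d := d)) (eta d) α K E γ st W := by
    refine ⟨h1, w1, w2, w3, w5, ?_⟩
    filter_upwards [w5.eventually_ge_atTop (max R1 R0)] with n hn
    exact hub E R0 hE hCC (γ n) (W n) ((le_max_left _ _).trans hn) ((le_max_right _ _).trans hn)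
      (w4 n)
  intro w k
  have hk : (0 : ℝ) < 1 / ((k : ℝ) + 1) := Nat.one_div_pos_of_nat
  obtain ⟨R, hR⟩ := ray_crit hh he0 he1 hα hK hE hCC hray w hk
  refine ⟨⌈R⌉₊, fun z z' hz hz' hRz hRz' => ?_⟩
  obtain ⟨m, rfl⟩ := h3 z hz
  obtain ⟨m', rfl⟩ := h3 z' hz'
  exact hR m m' ((Nat.le_ceil R).trans hRz) ((Nat.le_ceil R).trans hRz')
-- END acr

end OneR
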