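import Pool.Agent.OneR.Val
import Pool.Agent.ConeD.Rate

/-!
Problem MP_b9fb85_pr: the limit directions of the ray, part one: if all directions near a given one are
limit directions, then the ray converges.
-/

set_option autoImplicit false

namespace OneR

open Finset ConeD ConeD.TRANSAux OneE Filter MeasureTheory

variable {d : ℕ}

section ds

variable {y : ℕ → EuclideanSpace ℝ (Fin d)} {W H : ℕ → ℝ} {a b K K1 M α θ : ℝ}

-- BEGIN tsq
private theorem tsq_one {P W W' De g κ M a : ℝ} (ha : 0 < a) (hg : 0 < g) (hP : 0 < P)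
    (hW : 0 < W) (hM : 0 < M) (hκ : 0 < κ) (hDe : 0 < De) (h1 : a / 2 * De * P⁻¹ ≤ W - W')
    (h2 : P * W ≤ M) (h3 : g ≤ P * W) (h4 : De = P⁻¹ ^ κ) :
    De ^ 2 ≤ 2 * M / a * (g ^ κ)⁻¹ * ((W - W') * W ^ (κ - 1)) := by
  have hPi : 0 < P⁻¹ := inv_pos.2 hP
  have hd : 0 ≤ W - W' := le_trans (by positivity) h1
  have h5 : De ≤ 2 / a * (P * (W - W')) := by
    have : a / 2 * De ≤ P * (W - W') := by
      have := mul_le_mul_of_nonneg_left h1 hP.le
      have e : P * (a / 2 * De * P⁻¹) = a / 2 * De := by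
        field_simp
      linarith
    have e : De = 2 / a * (a / 2 * De) := by
      field_simp
    rw [e]
    exact mul_le_mul_of_nonneg_left this (by positivity)
  have h6 : De * W ≤ 2 * M / a * (W - W') := by
    calc De * W ≤ 2 / a * (P * (W - W')) * W := mul_le_mul_of_nonneg_right h5 hW.le
      _ = 2 / a * (W - W') * (P * W) := by ring
      _ ≤ 2 / a * (W - W') * M := mul_le_mul_of_nonneg_left h2 (by positivity)
      _ = 2 * M / a * (W - W') := by ring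
  have h7 : P⁻¹ ≤ W / g := by
    rw [le_div_iff₀ hg, inv_mul_le_iff₀ hP]
    exact h3
  have h8 : De ≤ W ^ κ * (g ^ κ)⁻¹ := by
    rw [h4]
    calc P⁻¹ ^ κ ≤ (W / g) ^ κ := Real.rpow_le_rpow hPi.le h7 hκ.le
      _ = W ^ κ * (g ^ κ)⁻¹ := by rw [Real.div_rpow hW.le hg.le, div_eq_mul_inv]
  have hgk : 0 < (g ^ κ)⁻¹ := inv_pos.2 (Real.rpow_pos_of_pos hg κ)
  have hWk : 0 < W ^ κ := Real.rpow_pos_of_pos hW κ
  have eW : W ^ κ = W ^ (κ - 1) * W := by
    rw [← Real.rpow_add_one hW.ne']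
    congr 1
    ring
  have h9 : De ^ 2 * W ≤ (2 * M / a * (g ^ κ)⁻¹ * ((W - W') * W ^ (κ - 1))) * W := by
    calc De ^ 2 * W = (De * W) * De := by ring
      _ ≤ (2 * M / a * (W - W')) * (W ^ κ * (g ^ κ)⁻¹) :=
        mul_le_mul h6 h8 hDe.le (by positivity)
      _ = (2 * M / a * (g ^ κ)⁻¹ * ((W - W') * W ^ (κ - 1))) * W := by rw [eW]; ring
  exact le_of_mul_le_mul_right h9 hW

private theorem tsq_tel (f : ℕ → ℝ) {p q : ℕ} (hpq : p ≤ q) :
    ∑ i ∈ Ico p q, (f i - f (i + 1)) = f p - f q := by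
  induction q, hpq using Nat.le_induction with
  | base => simp
  | succ n hn ih =>
    rw [sum_Ico_succ_top hn, ih]
    ring

/-- the tail of the squares of the step sizes: proof of `DS.sumsq` (OneR/Ana) with `Ico p q` in place
of `range n` (`sqs_one` is private there, copy it) -/
theorem DS.tailsq (h : DS y W H a b K K1 M α θ) :
    ∃ B : ℝ, 0 < B ∧ ∀ p q : ℕ, p ≤ q → ∑ i ∈ Ico p q, De y θ i ^ 2 ≤ B * W p ^ (θ / (α - 1)) := by
  have ha := h.ha
  have hM := h.hM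
  have hα1 : 0 < α - 1 := by linarith [h.hα]
  have hκ : 0 < θ / (α - 1) := div_pos h.hθ hα1
  have hg : 0 < a / 3 * (2 : ℝ) ^ (-α) := by positivity
  have hm : 0 < min (θ / (α - 1)) 1 := lt_min hκ one_pos
  have hstep : ∀ i, De y θ i ^ 2 ≤ 2 * M / a * ((a / 3 * (2 : ℝ) ^ (-α)) ^ (θ / (α - 1)))⁻¹ *
      (1 / min (θ / (α - 1)) 1) * (W i ^ (θ / (α - 1)) - W (i + 1) ^ (θ / (α - 1))) := by
    intro i
    have hr : 0 < ‖y i‖ := lt_of_lt_of_le one_pos (h.one i)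
    have hP : 0 < ‖y i‖ ^ (α - 1) := Real.rpow_pos_of_pos hr _
    have hDe : 0 < De y θ i := Real.rpow_pos_of_pos hr _
    have e1 : ‖y i‖ ^ (1 - α) = (‖y i‖ ^ (α - 1))⁻¹ := by
      rw [← Real.rpow_neg hr.le]
      congr 1
      ring
    have hdec := h.decW i
    rw [e1] at hdec
    have hgl : a / 3 * (2 : ℝ) ^ (-α) ≤ ‖y i‖ ^ (α - 1) * W i := h.glow i
    have e2 : De y θ i = (‖y i‖ ^ (α - 1))⁻¹ ^ (θ / (α - 1)) := by
      rw [← Real.rpow_neg hr.le, ← Real.rpow_mul hr.le]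
      unfold De
      congr 1
      field_simp
    have hone := tsq_one (W' := W (i + 1)) ha hg hP (h.Wpos i) hM hκ hDe hdec (h.upW i) hgl e2
    have hle : W (i + 1) ≤ W i := by
      have : 0 ≤ a / 2 * ‖y i‖ ^ (-θ) * (‖y i‖ ^ (α - 1))⁻¹ := by positivity
      linarith
    have htel := pow_tel hκ (h.Wpos (i + 1)) hle
    have hc : 0 ≤ 2 * M / a * ((a / 3 * (2 : ℝ) ^ (-α)) ^ (θ / (α - 1)))⁻¹ := by positivity
    calc De y θ i ^ 2 ≤ _ := hone
      _ ≤ 2 * M / a * ((a / 3 * (2 : ℝ) ^ (-α)) ^ (θ / (α - 1)))⁻¹ *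
          (1 / min (θ / (α - 1)) 1 * (W i ^ (θ / (α - 1)) - W (i + 1) ^ (θ / (α - 1)))) :=
        mul_le_mul_of_nonneg_left htel hc
      _ = _ := by ring
  have hc : 0 < 2 * M / a * ((a / 3 * (2 : ℝ) ^ (-α)) ^ (θ / (α - 1)))⁻¹ *
      (1 / min (θ / (α - 1)) 1) := by
    have := Real.rpow_pos_of_pos hg (θ / (α - 1))
    positivity
  refine ⟨_, hc, fun p q hpq => ?_⟩
  calc ∑ i ∈ Ico p q, De y θ i ^ 2 ≤ ∑ i ∈ Ico p q,
        (2 * M / a * ((a / 3 * (2 : ℝ) ^ (-α)) ^ (θ / (α - 1)))⁻¹ *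
        (1 / min (θ / (α - 1)) 1) * (W i ^ (θ / (α - 1)) - W (i + 1) ^ (θ / (α - 1)))) :=
        sum_le_sum fun i _ => hstep i
    _ = 2 * M / a * ((a / 3 * (2 : ℝ) ^ (-α)) ^ (θ / (α - 1)))⁻¹ *
        (1 / min (θ / (α - 1)) 1) * (W p ^ (θ / (α - 1)) - W q ^ (θ / (α - 1))) := by
        rw [← mul_sum, tsq_tel (fun i => W i ^ (θ / (α - 1))) hpq]
    _ ≤ _ := by
        refine mul_le_mul_of_nonneg_left ?_ hc.le
        have := (Real.rpow_pos_of_pos (h.Wpos q) (θ / (α - 1))).le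
        linarith
-- END tsq

-- BEGIN wge
private lemma wge_up (h : DS y W H a b K K1 M α θ) (i : ℕ) : W i ≤ M * ‖y i‖ ^ (1 - α) := by
  have hpos : 0 < ‖y i‖ := lt_of_lt_of_le one_pos (h.one i)
  have h1 := h.upW i
  have h2 : ‖y i‖ ^ (1 - α) * (‖y i‖ ^ (α - 1) * W i) = W i := by
    rw [← mul_assoc, ← Real.rpow_add hpos]
    have : (1 - α) + (α - 1) = 0 := by ring
    rw [this, Real.rpow_zero, one_mul]
  have h3 : 0 ≤ ‖y i‖ ^ (1 - α) := (Real.rpow_pos_of_pos hpos _).le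
  calc W i = ‖y i‖ ^ (1 - α) * (‖y i‖ ^ (α - 1) * W i) := h2.symm
    _ ≤ ‖y i‖ ^ (1 - α) * M := mul_le_mul_of_nonneg_left h1 h3
    _ = M * ‖y i‖ ^ (1 - α) := mul_comm _ _

/-- from `decW` -/
theorem DS.wdec (h : DS y W H a b K K1 M α θ) {p q : ℕ} (hpq : p ≤ q) : W q ≤ W p := by
  refine antitone_nat_of_succ_le (fun i => ?_) hpq
  have hpos : 0 < ‖y i‖ := lt_of_lt_of_le one_pos (h.one i)
  have h1 := h.decW i
  have h2 : 0 ≤ a / 2 * ‖y i‖ ^ (-θ) * ‖y i‖ ^ (1 - α) := by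
    have := h.ha
    positivity
  linarith

/-- geometric decrease: `W i - W (i+1) ≥ a/2 De i ‖y i‖ ^ (1-α) ≥ a/(2M) De i W i` by `decW`, `upW`;
`1 - x ≤ exp (-x)` -/
theorem DS.wgeo (h : DS y W H a b K K1 M α θ) {p q : ℕ} (hpq : p ≤ q) :
    W q ≤ W p * Real.exp (-(a / (2 * M)) * ∑ i ∈ Ico p q, De y θ i) := by
  induction q, hpq using Nat.le_induction with
  | base => simp
  | succ q hq ih =>
    rw [Finset.sum_Ico_succ_top hq, mul_add, Real.exp_add, ← mul_assoc]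
    have hpos : 0 < ‖y q‖ := lt_of_lt_of_le one_pos (h.one q)
    have hM := h.hM
    have ha := h.ha
    have hD : 0 < De y θ q := Real.rpow_pos_of_pos hpos _
    have h1 := h.decW q
    have h2 := wge_up h q
    have h3 : a / (2 * M) * De y θ q * W q ≤ a / 2 * De y θ q * ‖y q‖ ^ (1 - α) := by
      have e : a / 2 * De y θ q * ‖y q‖ ^ (1 - α) =
          a / (2 * M) * De y θ q * (M * ‖y q‖ ^ (1 - α)) := by
        field_simp
      rw [e]
      exact mul_le_mul_of_nonneg_left h2 (by positivity)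
    have h4 : W (q + 1) ≤ W q * (1 - a / (2 * M) * De y θ q) := by
      have h5 : a / 2 * De y θ q * ‖y q‖ ^ (1 - α) ≤ W q - W (q + 1) := h1
      nlinarith [h3, h5]
    have h6 : 1 - a / (2 * M) * De y θ q ≤ Real.exp (-(a / (2 * M)) * De y θ q) := by
      have := Real.add_one_le_exp (-(a / (2 * M)) * De y θ q)
      linarith
    calc W (q + 1) ≤ W q * (1 - a / (2 * M) * De y θ q) := h4
      _ ≤ W q * Real.exp (-(a / (2 * M)) * De y θ q) :=
        mul_le_mul_of_nonneg_left h6 (h.Wpos q).le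
      _ ≤ _ := mul_le_mul_of_nonneg_right ih (Real.exp_pos _).le

/-- `W i ≤ M ‖y i‖ ^ (1-α)` -/
theorem DS.wlim (h : DS y W H a b K K1 M α θ) : Tendsto W atTop (nhds 0) := by
  have h1 : Tendsto (fun i => M * ‖y i‖ ^ (1 - α)) atTop (nhds 0) := by
    have h2 : Tendsto (fun x : ℝ => x ^ (-(α - 1))) atTop (nhds 0) :=
      tendsto_rpow_neg_atTop (by linarith [h.hα])
    have h3 := (h2.comp h.lim).const_mul M
    rw [mul_zero] at h3
    refine h3.congr (fun i => ?_)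
    simp only [Function.comp_apply, neg_sub]
  exact squeeze_zero (fun i => (h.Wpos i).le) (fun i => wge_up h i) h1
-- END wge

-- BEGIN eno
/-- the energy is nearly above its limit: `En (i+1) ≤ En i + K1 De i ^ 2` by `hF`, sum over
`Ico q n`, `DS.tailsq`, `n → ∞` -/
theorem DS.enlow (h : DS y W H a b K K1 M α θ) {c : ℝ} (hc : Tendsto (En y W α) atTop (nhds c)) :
    ∃ B : ℝ, 0 < B ∧ ∀ q, c ≤ En y W α q + B * W q ^ (θ / (α - 1)) := by
  obtain ⟨B, hB, hB2⟩ := h.tailsq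
  refine ⟨K1 * B, mul_pos h.hK1 hB, fun q => ?_⟩
  have key : ∀ n, q ≤ n → En y W α n ≤ En y W α q + K1 * ∑ i ∈ Ico q n, De y θ i ^ 2 := by
    intro n hn
    induction n, hn using Nat.le_induction with
    | base => simp
    | succ n hn ih =>
      rw [Finset.sum_Ico_succ_top hn]
      have h1 := h.hF n
      have h2 : En y W α (n + 1) ≤ En y W α n + K1 * De y θ n ^ 2 := by
        unfold En De
        linarith
      linarith
  refine le_of_tendsto hc ?_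
  filter_upwards [eventually_ge_atTop q] with n hn
  have h1 := key n hn
  have h2 := mul_le_mul_of_nonneg_left (hB2 q n hn) h.hK1.le
  linarith
-- END eno

-- BEGIN mve
/-- a short piece which starts with nearly minimal energy: `DS.piece`;
`Σ Bb = En p - En q + (K1 + 1) Σ De ^ 2`; `DS.enlow`, `DS.tailsq`, `DS.wdec`;
`‖y p‖ ^ (-β) ≤ (W p / g) ^ (β / (α-1))` by `DS.glow`; as `W p ≤ 1` all powers of `W p` are at most
`W p ^ (2 κ)` with `2 κ` the smaller exponent -/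
theorem DS.move (h : DS y W H a b K K1 M α θ) {c : ℝ} (hc : Tendsto (En y W α) atTop (nhds c))
    {C0 β : ℝ} (hC0 : 0 < C0) (hβ : 0 < β) :
    ∃ C κ : ℝ, 0 < C ∧ 0 < κ ∧ ∀ p q : ℕ, p ≤ q → ∑ i ∈ Ico p q, De y θ i ≤ 1 / 16 →
      En y W α p ≤ c + C0 * ‖y p‖ ^ (-β) → W p ≤ 1 →
      ‖(‖y p‖⁻¹ • y p) - (‖y q‖⁻¹ • y q)‖ ≤ C * W p ^ κ := by
  have hα : 0 < α - 1 := by linarith [h.hα]
  have ha := h.ha
  have hb := h.hb
  have hK := h.hK
  have hK1 := h.hK1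
  have hM := h.hM
  have hθ := h.hθ
  obtain ⟨B1, hB1, ht⟩ := h.tailsq
  obtain ⟨B2, hB2, he⟩ := h.enlow hc
  have h2 : (0 : ℝ) < 2 ^ (-α) := Real.rpow_pos_of_pos (by norm_num) _
  have hP : 0 < 4 * ((1 + (3 * K * b + 4 * (α - 1) * M) + (α - 1) * (1 + K1)) /
        ((α - 1) * (a / 3 * (2 : ℝ) ^ (-α))) + 18) := by positivity
  obtain ⟨P, hPe⟩ : ∃ P, 4 * ((1 + (3 * K * b + 4 * (α - 1) * M) + (α - 1) * (1 + K1)) /
        ((α - 1) * (a / 3 * (2 : ℝ) ^ (-α))) + 18) = P := ⟨_, rfl⟩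
  rw [hPe] at hP
  obtain ⟨g, hge⟩ : ∃ g, a / 3 * (2 : ℝ) ^ (-α) = g := ⟨_, rfl⟩
  have hg : 0 < g := by rw [← hge]; positivity
  obtain ⟨β', hβe⟩ : ∃ β', β / (α - 1) = β' := ⟨_, rfl⟩
  have hβ' : 0 < β' := by rw [← hβe]; positivity
  obtain ⟨t, hte⟩ : ∃ t, θ / (α - 1) = t := ⟨_, rfl⟩
  have htp : 0 < t := by rw [← hte]; positivity
  rw [hte] at ht he
  have hgb : 0 < g ^ β' := Real.rpow_pos_of_pos hg _
  obtain ⟨Q, hQ⟩ : ∃ Q, P * (C0 / g ^ β' + B2 + (K1 + 1) * B1) = Q := ⟨_, rfl⟩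
  have hQ0 : 0 < Q := by rw [← hQ]; positivity
  obtain ⟨κ, hκ⟩ : ∃ κ, min t β' / 2 = κ := ⟨_, rfl⟩
  have hκ0 : 0 < κ := by
    rw [← hκ]
    have := lt_min htp hβ'
    linarith
  refine ⟨Q + 1, κ, by linarith, hκ0, ?_⟩
  intro p q hpq hs hE hW1
  have hy : 0 < ‖y p‖ := lt_of_lt_of_le one_pos (h.one p)
  have hWp := h.Wpos p
  have hWq := h.Wpos q
  have hpc := h.piece hpq hs
  rw [hPe] at hpc
  have hsum : ∀ n, p ≤ n → ∑ i ∈ Ico p n, Bb y W K1 α θ i =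
      En y W α p - En y W α n + (K1 + 1) * ∑ i ∈ Ico p n, De y θ i ^ 2 := by
    intro n hn
    induction n, hn using Nat.le_induction with
    | base => simp
    | succ n hn ih =>
      rw [sum_Ico_succ_top hn, sum_Ico_succ_top hn, ih]
      unfold Bb
      ring
  rw [hsum q hpq] at hpc
  have hwq : W q ^ t ≤ W p ^ t := Real.rpow_le_rpow hWq.le (h.wdec hpq) htp.le
  have h3 := ht p q hpq
  have h4 := he q
  have h5 : ‖y p‖ ^ (-β) ≤ W p ^ β' / g ^ β' := by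
    have e1 : ‖y p‖ ^ (-β) = (‖y p‖ ^ (-(α - 1))) ^ β' := by
      rw [← Real.rpow_mul hy.le]
      congr 1
      rw [← hβe]
      field_simp
    have e2 : ‖y p‖ ^ (-(α - 1)) ≤ W p / g := by
      have e3 := h.glow p
      rw [hge] at e3
      unfold En at e3
      rw [Real.rpow_neg hy.le, le_div_iff₀ hg, inv_mul_le_iff₀ (Real.rpow_pos_of_pos hy _)]
      exact e3
    rw [e1, ← Real.div_rpow hWp.le hg.le]
    exact Real.rpow_le_rpow (Real.rpow_nonneg hy.le _) e2 hβ'.le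
  have h6 : W p ^ t ≤ W p ^ (2 * κ) := by
    apply Real.rpow_le_rpow_of_exponent_ge hWp hW1
    rw [← hκ]
    have := min_le_left t β'
    linarith
  have h7 : W p ^ β' ≤ W p ^ (2 * κ) := by
    apply Real.rpow_le_rpow_of_exponent_ge hWp hW1
    rw [← hκ]
    have := min_le_right t β'
    linarith
  have h8 : W p ^ (2 * κ) = (W p ^ κ) ^ 2 := by
    rw [two_mul, Real.rpow_add hWp, pow_two]
  have h9 : 0 < W p ^ κ := Real.rpow_pos_of_pos hWp _
  have h10 : En y W α p - En y W α q + (K1 + 1) * ∑ i ∈ Ico p q, De y θ i ^ 2 ≤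
      (C0 / g ^ β' + B2 + (K1 + 1) * B1) * (W p ^ κ) ^ 2 := by
    rw [← h8]
    have s1 : C0 * ‖y p‖ ^ (-β) ≤ C0 / g ^ β' * W p ^ (2 * κ) := by
      calc C0 * ‖y p‖ ^ (-β) ≤ C0 * (W p ^ β' / g ^ β') := mul_le_mul_of_nonneg_left h5 hC0.le
        _ = C0 / g ^ β' * W p ^ β' := by ring
        _ ≤ C0 / g ^ β' * W p ^ (2 * κ) := mul_le_mul_of_nonneg_left h7 (by positivity)
    have s2 : B2 * W q ^ t ≤ B2 * W p ^ (2 * κ) :=
      mul_le_mul_of_nonneg_left (hwq.trans h6) hB2.le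
    have s3 : (K1 + 1) * ∑ i ∈ Ico p q, De y θ i ^ 2 ≤ (K1 + 1) * (B1 * W p ^ (2 * κ)) :=
      mul_le_mul_of_nonneg_left (h3.trans (mul_le_mul_of_nonneg_left h6 hB1.le)) (by linarith)
    have s4 : (C0 / g ^ β' + B2 + (K1 + 1) * B1) * W p ^ (2 * κ) =
        C0 / g ^ β' * W p ^ (2 * κ) + B2 * W p ^ (2 * κ) +
          (K1 + 1) * (B1 * W p ^ (2 * κ)) := by ring
    rw [s4]
    linarith
  have h11 : ‖(‖y p‖⁻¹ • y p) - (‖y q‖⁻¹ • y q)‖ ^ 2 ≤ ((Q + 1) * W p ^ κ) ^ 2 := by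
    calc ‖(‖y p‖⁻¹ • y p) - (‖y q‖⁻¹ • y q)‖ ^ 2 ≤ _ := hpc
      _ ≤ P * ((C0 / g ^ β' + B2 + (K1 + 1) * B1) * (W p ^ κ) ^ 2) :=
        mul_le_mul_of_nonneg_left h10 hP.le
      _ = Q * (W p ^ κ) ^ 2 := by rw [← hQ]; ring
      _ ≤ (Q + 1) ^ 2 * (W p ^ κ) ^ 2 := by
        apply mul_le_mul_of_nonneg_right _ (by positivity)
        nlinarith
      _ = ((Q + 1) * W p ^ κ) ^ 2 := by ring
  exact (sq_le_sq₀ (norm_nonneg _) (by positivity)).1 h11
-- END mve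

-- BEGIN lng
/-- long pieces, strong induction on `q - p` with `C' = C / (1 - r)`,
`r = exp (-(a / (2 M)) / 32) ^ κ < 1`: if `Σ_[p, q) De ≤ 1/16` use `hmove`, otherwise take the first
`m` with `Σ_[p, m) De > 1/32` (so `p < m < q`, and the sum is at most `1/16` as `De ≤ 1/32`,
`DS.bnn`), `W m ^ κ ≤ r W p ^ κ` by `DS.wgeo` -/
theorem DS.long (h : DS y W H a b K K1 M α θ) (S : Set ℕ) {C κ : ℝ} (hC : 0 < C) (hκ : 0 < κ)
    (hmove : ∀ p q : ℕ, p ∈ S → p ≤ q → ∑ i ∈ Ico p q, De y θ i ≤ 1 / 16 →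
      ‖(‖y p‖⁻¹ • y p) - (‖y q‖⁻¹ • y q)‖ ≤ C * W p ^ κ) :
    ∃ C' : ℝ, 0 < C' ∧ ∀ p q : ℕ, p ≤ q → (∀ i, p ≤ i → i < q → i ∈ S) →
      ‖(‖y p‖⁻¹ • y p) - (‖y q‖⁻¹ • y q)‖ ≤ C' * W p ^ κ := by
  have hD1 : ∀ i, De y θ i ≤ 1 / 32 := fun i => h.small i
  have haM : 0 < a / (2 * M) := div_pos h.ha (mul_pos two_pos h.hM)
  set r : ℝ := Real.exp (-(a / (2 * M)) * (1 / 32)) ^ κ with hr
  have hr0 : 0 < r := Real.rpow_pos_of_pos (Real.exp_pos _) _
  have hr1 : r < 1 := by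
    refine Real.rpow_lt_one (Real.exp_pos _).le ?_ hκ
    rw [Real.exp_lt_one_iff]
    nlinarith
  have h1r : 0 < 1 - r := by linarith
  have hW : ∀ i, 0 < W i ^ κ := fun i => Real.rpow_pos_of_pos (h.Wpos i) _
  have hCC : C ≤ C / (1 - r) := by
    rw [le_div_iff₀ h1r]
    nlinarith
  refine ⟨C / (1 - r), div_pos hC h1r, ?_⟩
  have key : ∀ n p q : ℕ, q - p = n → p ≤ q → (∀ i, p ≤ i → i < q → i ∈ S) →
      ‖(‖y p‖⁻¹ • y p) - (‖y q‖⁻¹ • y q)‖ ≤ C / (1 - r) * W p ^ κ := by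
    intro n
    induction n using Nat.strong_induction_on with
    | _ n ih =>
      intro p q hn hpq hS
      rcases Nat.eq_or_lt_of_le hpq with rfl | hlt
      · rw [sub_self, norm_zero]
        exact (mul_pos (div_pos hC h1r) (hW _)).le
      have hpS : p ∈ S := hS p le_rfl hlt
      by_cases hs : ∑ i ∈ Ico p q, De y θ i ≤ 1 / 16
      · exact (hmove p q hpS hpq hs).trans (mul_le_mul_of_nonneg_right hCC (hW p).le)
      · rw [not_le] at hs
        have hex : ∃ m, 1 / 32 < ∑ i ∈ Ico p m, De y θ i := ⟨q, by linarith⟩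
        classical
        have hm := Nat.find_spec hex
        have hmin : ∀ k, k < Nat.find hex → ∑ i ∈ Ico p k, De y θ i ≤ 1 / 32 := fun k hk =>
          not_lt.1 (Nat.find_min hex hk)
        generalize Nat.find hex = m at hm hmin
        have hpm : p < m := by
          by_contra hc
          rw [not_lt] at hc
          rw [Ico_eq_empty_of_le hc, sum_empty] at hm
          norm_num at hm
        have hsm : ∑ i ∈ Ico p m, De y θ i ≤ 1 / 16 := by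
          obtain ⟨k, rfl⟩ : ∃ k, m = k + 1 := ⟨m - 1, by omega⟩
          rw [sum_Ico_succ_top (by omega : p ≤ k)]
          have h1 := hmin k (Nat.lt_succ_self k)
          have h2 := hD1 k
          linarith
        have hmq : m < q := by
          by_contra hc
          rw [not_lt] at hc
          rcases Nat.eq_or_lt_of_le hc with he | hl
          · rw [he] at hs
            linarith
          · have := hmin q hl
            linarith
        have h1 := hmove p m hpS hpm.le hsm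
        have h2 := ih (q - m) (by omega) m q rfl hmq.le (fun i hi hi' => hS i (by omega) hi')
        have h3 : W m ^ κ ≤ W p ^ κ * r := by
          have h4 : W m ≤ W p * Real.exp (-(a / (2 * M)) * (1 / 32)) := by
            refine (h.wgeo hpm.le).trans (mul_le_mul_of_nonneg_left ?_ (h.Wpos p).le)
            refine Real.exp_le_exp.2 ?_
            nlinarith
          have h5 := Real.rpow_le_rpow (h.Wpos m).le h4 hκ.le
          rwa [Real.mul_rpow (h.Wpos p).le (Real.exp_pos _).le, ← hr] at h5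
        have h6 : C + C / (1 - r) * r = C / (1 - r) := by
          field_simp
          ring
        calc ‖(‖y p‖⁻¹ • y p) - (‖y q‖⁻¹ • y q)‖
            ≤ ‖(‖y p‖⁻¹ • y p) - (‖y m‖⁻¹ • y m)‖ + ‖(‖y m‖⁻¹ • y m) - (‖y q‖⁻¹ • y q)‖ :=
              norm_sub_le_norm_sub_add_norm_sub _ _ _
          _ ≤ C * W p ^ κ + C / (1 - r) * W m ^ κ := add_le_add h1 h2
          _ ≤ C * W p ^ κ + C / (1 - r) * (W p ^ κ * r) :=
              add_le_add_right (mul_le_mul_of_nonneg_left h3 (div_pos hC h1r).le) _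
          _ = (C + C / (1 - r) * r) * W p ^ κ := by ring
          _ = C / (1 - r) * W p ^ κ := by rw [h6]
  exact fun p q hpq hS => key (q - p) p q rfl hpq hS
-- END lng

-- BEGIN cvd
/-- convergence: `DS.move`, `DS.long` with `S = {i | ‖‖y i‖⁻¹ • y i - t‖ < ρ ∧ W i ≤ 1}`; by `hvis`
and `DS.wlim` some `p` has `‖‖y p‖⁻¹ • y p - t‖ < ρ / 2`, `W p ≤ 1`, `C' W p ^ κ < ρ / 4`; strong
induction: all `q ≥ p` are in `S`; Cauchy sequence, complete space -/
theorem DS.converge (h : DS y W H a b K K1 M α θ) {c : ℝ}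
    (hc : Tendsto (En y W α) atTop (nhds c)) {t : EuclideanSpace ℝ (Fin d)} {ρ C0 β : ℝ}
    (hρ : 0 < ρ) (hC0 : 0 < C0) (hβ : 0 < β)
    (hreg : ∀ i, ‖(‖y i‖⁻¹ • y i) - t‖ < ρ → En y W α i ≤ c + C0 * ‖y i‖ ^ (-β))
    (hvis : ∀ n, ∃ i, n ≤ i ∧ ‖(‖y i‖⁻¹ • y i) - t‖ < ρ / 2) :
    ∃ u : EuclideanSpace ℝ (Fin d), Tendsto (fun i => ‖y i‖⁻¹ • y i) atTop (nhds u) := by
  obtain ⟨C, κ, hC, hκ, hmv⟩ := h.move hc hC0 hβ
  obtain ⟨C', hC', hlong⟩ := h.long {i | ‖(‖y i‖⁻¹ • y i) - t‖ < ρ ∧ W i ≤ 1} hC hκ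
    (fun p q hp hpq hs => hmv p q hpq hs (hreg p hp.1) hp.2)
  have hW0 : Tendsto (fun i => C' * W i ^ κ) atTop (nhds 0) := by
    have h1 := (h.wlim.rpow_const (p := κ) (Or.inr hκ.le)).const_mul C'
    rw [Real.zero_rpow hκ.ne', mul_zero] at h1
    exact h1
  have hev : ∀ᶠ i in atTop, W i < 1 ∧ C' * W i ^ κ < ρ / 4 :=
    (h.wlim.eventually_lt_const one_pos).and (hW0.eventually_lt_const (by linarith))
  obtain ⟨N, hN⟩ := eventually_atTop.1 hev
  obtain ⟨p, hNp, hpt⟩ := hvis N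
  have hS : ∀ q, p ≤ q → ‖(‖y q‖⁻¹ • y q) - t‖ < ρ ∧ W q ≤ 1 := by
    intro q
    induction q using Nat.strong_induction_on with
    | _ q ih =>
      intro hpq
      have h1 := hlong p q hpq (fun i hi hiq => ih i hiq hi)
      have h2 := (hN p hNp).2
      have h3 : ‖(‖y q‖⁻¹ • y q) - t‖ ≤
          ‖(‖y p‖⁻¹ • y p) - (‖y q‖⁻¹ • y q)‖ + ‖(‖y p‖⁻¹ • y p) - t‖ := by
        have h4 : (‖y q‖⁻¹ • y q) - t =
            -((‖y p‖⁻¹ • y p) - (‖y q‖⁻¹ • y q)) + ((‖y p‖⁻¹ • y p) - t) := by abel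
        rw [h4]
        refine (norm_add_le _ _).trans ?_
        rw [norm_neg]
      exact ⟨by linarith, (hN q (hNp.trans hpq)).1.le⟩
  have hcau : CauchySeq fun i => ‖y i‖⁻¹ • y i := by
    rw [Metric.cauchySeq_iff']
    intro ε hε
    obtain ⟨N2, hN2⟩ := eventually_atTop.1 (hW0.eventually_lt_const hε)
    refine ⟨max p N2, fun n hn => ?_⟩
    have h1 := hlong (max p N2) n hn (fun i hi _ => hS i ((le_max_left _ _).trans hi))
    have h2 := hN2 (max p N2) (le_max_right _ _)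
    rw [dist_comm, dist_eq_norm]
    exact lt_of_le_of_lt h1 h2
  exact cauchySeq_tendsto_of_complete hcau
-- END cvd

end ds

-- BEGIN rat
private theorem rat_bdd {h : V d → ℝ} {a b C : ℝ} (hh : HF h a b C) (y : V d) (N : ℝ) :
    BddBelow {t : ℝ | ∃ w, N ≤ pr w y ∧ h w = t} :=
  ⟨0, by rintro _ ⟨w, _, rfl⟩; exact hh.nonneg w⟩

private theorem rat_le {h : V d → ℝ} {a b C : ℝ} (hh : HF h a b C) {y w : V d} {N : ℝ}
    (hw : N ≤ pr w y) : mn h y N ≤ h w := csInf_le (rat_bdd hh y N) ⟨w, hw, rfl⟩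

/-- the proof of `ConeD.rate` (ConeD/Rate.lean) for one direction `y` and one value `c`: `K`, `N1` are
those of `mn_super` and do not depend on `y` and `c` -/
theorem rate_at {h : V d → ℝ} {a b C : ℝ} (hh : HF h a b C) {η : ℝ} (hη : 0 < η) (hη1 : η < 1)
    {E : Edge d → ℝ} {R0 : ℝ} (hE : ∀ e, 0 ≤ E e) (hCC : CC h η E R0) :
    ∃ K N1 : ℝ, 0 < K ∧ 1 ≤ N1 ∧ ∀ y : V d, y ≠ 0 → ∀ c : ℝ, 0 < c →
      (∀ ε : ℝ, 0 < ε → ∃ N0 : ℝ, ∀ N : ℝ, N0 ≤ N → ∃ w : V d, N ≤ pr w y ∧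
        h w ≤ (1 + ε) * c * N) →
      ∀ N : ℝ, N1 ≤ N → ∃ w : V d, N ≤ pr w y ∧ h w ≤ c * N + K * N ^ (1 - η) := by
  obtain ⟨K, N1, hK, hN1, hsup⟩ := mn_super hh hη hη1 hE hCC
  obtain ⟨q, hq⟩ : ∃ q, q = (2 : ℝ) ^ (-η) := ⟨_, rfl⟩
  have hq0 : 0 < q := by rw [hq]; positivity
  have hq1 : q < 1 := by
    rw [hq]
    exact Real.rpow_lt_one_of_one_lt_of_neg (by norm_num) (by linarith)
  have h1q : 0 < 1 - q := by linarith
  refine ⟨K / (1 - q) + 1, N1, by positivity, hN1, fun y hy c hc hu N hN => ?_⟩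
  have hN0 : 0 < N := by linarith
  have hit : ∀ k : ℕ, mn h y N ≤
      mn h y (2 ^ k * N) / 2 ^ k + K * N ^ (1 - η) * ((1 - q ^ k) / (1 - q)) := by
    intro k
    induction k with
    | zero => simp
    | succ k ih =>
      have h1 : N1 ≤ 2 ^ k * N := by
        have : (1 : ℝ) ≤ 2 ^ k := one_le_pow₀ (by norm_num)
        nlinarith
      have h2 := hsup y hy (2 ^ k * N) h1
      have e1 : (2 : ℝ) * (2 ^ k * N) = 2 ^ (k + 1) * N := by ring
      rw [e1, Real.mul_rpow (by positivity) hN0.le] at h2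
      have e2 : ((2 : ℝ) ^ k) ^ (1 - η) = 2 ^ k * q ^ k := by
        rw [← Real.rpow_natCast, ← Real.rpow_mul (by norm_num), hq,
          ← Real.rpow_natCast ((2 : ℝ) ^ (-η)),
          ← Real.rpow_mul (by norm_num), ← Real.rpow_add (by norm_num)]
        congr 1
        ring
      rw [e2] at h2
      have hp : (0 : ℝ) < 2 ^ k := by positivity
      have h3 : mn h y (2 ^ k * N) / 2 ^ k ≤
          mn h y (2 ^ (k + 1) * N) / 2 ^ (k + 1) + K * N ^ (1 - η) * q ^ k := by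
        have h4 : 2 * mn h y (2 ^ k * N) ≤
            mn h y (2 ^ (k + 1) * N) + K * (2 ^ k * q ^ k * N ^ (1 - η)) := by linarith
        rw [div_le_iff₀ hp]
        have e3 : (mn h y (2 ^ (k + 1) * N) / 2 ^ (k + 1) + K * N ^ (1 - η) * q ^ k) * 2 ^ k
            = mn h y (2 ^ (k + 1) * N) / 2 + K * (2 ^ k * q ^ k * N ^ (1 - η)) := by
          rw [pow_succ]
          field_simp
        rw [e3]
        have h5 : 0 ≤ K * (2 ^ k * q ^ k * N ^ (1 - η)) := by positivity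
        linarith
      have e4 : (1 - q ^ (k + 1)) / (1 - q) = (1 - q ^ k) / (1 - q) + q ^ k := by
        rw [pow_succ]
        field_simp
        ring
      rw [e4]
      calc mn h y N ≤ mn h y (2 ^ k * N) / 2 ^ k + K * N ^ (1 - η) * ((1 - q ^ k) / (1 - q)) := ih
        _ ≤ (mn h y (2 ^ (k + 1) * N) / 2 ^ (k + 1) + K * N ^ (1 - η) * q ^ k)
            + K * N ^ (1 - η) * ((1 - q ^ k) / (1 - q)) := by linarith
        _ = _ := by ring
  have hle : mn h y N ≤ c * N + K / (1 - q) * N ^ (1 - η) := by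
    refine le_of_forall_pos_le_add fun ε hε => ?_
    obtain ⟨N0, hN0'⟩ := hu (ε / (c * N)) (by positivity)
    obtain ⟨k, hk⟩ := pow_unbounded_of_one_lt N0 (show (1 : ℝ) < 2 by norm_num)
    have h1 : N0 ≤ 2 ^ k * N := by
      have : (0 : ℝ) < 2 ^ k := by positivity
      nlinarith
    obtain ⟨w, hw1, hw2⟩ := hN0' _ h1
    have h2 := (rat_le hh hw1).trans hw2
    have hp : (0 : ℝ) < 2 ^ k := by positivity
    have h3 : mn h y (2 ^ k * N) / 2 ^ k ≤ c * N + ε := by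
      rw [div_le_iff₀ hp]
      refine h2.trans (le_of_eq ?_)
      field_simp
    have h4 : (1 - q ^ k) / (1 - q) ≤ 1 / (1 - q) :=
      div_le_div_of_nonneg_right (by have := pow_pos hq0 k; linarith) h1q.le
    have h5 : K * N ^ (1 - η) * ((1 - q ^ k) / (1 - q)) ≤ K * N ^ (1 - η) * (1 / (1 - q)) :=
      mul_le_mul_of_nonneg_left h4 (by positivity)
    have e : K * N ^ (1 - η) * (1 / (1 - q)) = K / (1 - q) * N ^ (1 - η) := by ring
    have := hit k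
    linarith
  obtain ⟨M0, hM0⟩ := hu 1 one_pos
  obtain ⟨w0, hw0, _⟩ := hM0 (max M0 N) (le_max_left _ _)
  have hne : {t : ℝ | ∃ w, N ≤ pr w y ∧ h w = t}.Nonempty :=
    ⟨h w0, w0, (le_max_right _ _).trans hw0, rfl⟩
  obtain ⟨t, ⟨w, hw, rfl⟩, ht⟩ :=
    exists_lt_of_csInf_lt hne (show mn h y N < mn h y N + 1 by linarith)
  refine ⟨w, hw, ?_⟩
  have hN1η : 1 ≤ N ^ (1 - η) := Real.one_le_rpow (hN1.trans hN) (by linarith)
  have : (K / (1 - q) + 1) * N ^ (1 - η) = K / (1 - q) * N ^ (1 - η) + N ^ (1 - η) := by ring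
  linarith
-- END rat

-- BEGIN hyp
/-- the hypothesis of `rate_at`: `w = k • z` with `k = ⌈N / nrm z⌉₊`, `muh_tendsto`, `pr_nsmul`,
`pr_self` -/
theorem rate_hyp {h : V d → ℝ} {a b C : ℝ} (hh : HF h a b C) {z : V d} (hz : 0 < nrm z) {m : ℝ}
    (hm : 0 < m) (hmu : muh h z ≤ m * nrm z) {ε : ℝ} (hε : 0 < ε) :
    ∃ N0 : ℝ, ∀ N : ℝ, N0 ≤ N → ∃ w : V d, N ≤ pr w z ∧ h w ≤ (1 + ε) * m * N := by
  have hmz : 0 < m * nrm z := mul_pos hm hz
  have h1 : muh h z < m * nrm z * (1 + ε / 2) := by nlinarith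
  obtain ⟨k0, hk0⟩ := eventually_atTop.1 ((muh_tendsto hh z).eventually (gt_mem_nhds h1))
  refine ⟨nrm z * (k0 + 1) + nrm z * (1 + ε / 2) / (ε / 2), fun N hN => ?_⟩
  have hN1 : nrm z * (k0 + 1) ≤ N := by
    have : 0 ≤ nrm z * (1 + ε / 2) / (ε / 2) := by positivity
    linarith
  have hN2 : nrm z * (1 + ε / 2) ≤ N * (ε / 2) := by
    rw [← div_le_iff₀ (by positivity)]
    have : 0 ≤ nrm z * (k0 + 1) := by positivity
    linarith
  have hN0 : 0 ≤ N := le_trans (by positivity) hN1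
  have hq : (k0 : ℝ) + 1 ≤ N / nrm z := by
    rw [le_div_iff₀ hz]
    linarith
  have hk1 : N / nrm z ≤ ⌈N / nrm z⌉₊ := Nat.le_ceil _
  have hk2 : (⌈N / nrm z⌉₊ : ℝ) < N / nrm z + 1 := Nat.ceil_lt_add_one (by positivity)
  set k := ⌈N / nrm z⌉₊ with hk
  have hkk : k0 ≤ k := by
    have : (k0 : ℝ) ≤ k := by linarith
    exact_mod_cast this
  have hkp : (0 : ℝ) < k := by
    have : (0 : ℝ) ≤ k0 := Nat.cast_nonneg _
    linarith
  refine ⟨k • z, ?_, ?_⟩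
  · rw [pr_nsmul, pr_self hz]
    rwa [div_le_iff₀ hz] at hk1
  · have h2 := (hk0 k hkk).le
    rw [div_le_iff₀ hkp] at h2
    have h3 : (k : ℝ) * nrm z ≤ N + nrm z := by
      have := mul_le_mul_of_nonneg_right hk2.le hz.le
      rw [add_mul, div_mul_cancel₀ _ hz.ne', one_mul] at this
      exact this
    have h4 : m * nrm z * (1 + ε / 2) * k = m * (1 + ε / 2) * (k * nrm z) := by ring
    have h5 : m * (1 + ε / 2) * (k * nrm z) ≤ m * (1 + ε / 2) * (N + nrm z) :=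
      mul_le_mul_of_nonneg_left h3 (by positivity)
    have h6 : m * (nrm z * (1 + ε / 2)) ≤ m * (N * (ε / 2)) :=
      mul_le_mul_of_nonneg_left hN2 hm.le
    rw [h4] at h2
    linarith
-- END hyp

-- BEGIN eub
/-- the energy is nearly at most `m / (α - 1)` in a direction where `muh` is at most `m`: with
`r = nrm z`, `N = κ0 r ^ (1 - η/8)`, `κ0` small and fixed, `w` from `rate_at` (and `rate_hyp`):
`nrm w ≤ (h w + C) / a ≤ 2 r ^ (1 - η/8)`, `pr w z ≥ N ≥ r ^ (1 - η/4) / 2` for large `r`,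
`h w / pr w z ≤ m + K' N ^ (-η)`, and `UB`; `β = η / 8` works, `N ^ (-η) ≤ C r ^ (-(η/8))` -/
theorem energy_ub {h : V d → ℝ} {a b C : ℝ} (hh : HF h a b C) {η : ℝ} (hη : 0 < η) (hη1 : η < 1)
    {α : ℝ} (hα : 1 < α) {K : ℝ} (hK : 0 < K) {E : Edge d → ℝ} {R0 : ℝ} (hE : ∀ e, 0 ≤ E e)
    (hCC : CC h η E R0) {m : ℝ} (hm : 0 < m) :
    ∃ C0 β R : ℝ, 0 < C0 ∧ 0 < β ∧ ∀ (z : V d) (s : ℝ), R ≤ nrm z → UB h η α K s z →
      muh h z ≤ m * nrm z → nrm z ^ (α - 1) * s ≤ m / (α - 1) + C0 * nrm z ^ (-β) := by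
  obtain ⟨Kr, N1, hKr, hN1, hrate⟩ := rate_at hh hη hη1 hE hCC
  have ha := hh.pos
  have hC := hh.Cnn
  have hα0 : 0 < α - 1 := by linarith
  have hden : 0 < a + m + Kr + C := by linarith
  obtain ⟨κ, hκ⟩ : ∃ κ : ℝ, κ = a / (a + m + Kr + C) := ⟨_, rfl⟩
  have hκ0 : 0 < κ := by rw [hκ]; exact div_pos ha hden
  have hκa : (m + Kr + C) * κ ≤ a := by
    rw [hκ, mul_div_assoc', div_le_iff₀ hden]
    nlinarith
  obtain ⟨R, hR⟩ : ∃ R : ℝ, ∀ r : ℝ, R ≤ r →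
      1 ≤ r ∧ 1 / (2 * κ) ≤ r ^ (η / 8) ∧ N1 / κ ≤ r ^ (1 - η / 8) := by
    have h1 := (tendsto_rpow_atTop (show 0 < η / 8 by linarith)).eventually_ge_atTop (1 / (2 * κ))
    have h2 := (tendsto_rpow_atTop (show 0 < 1 - η / 8 by linarith)).eventually_ge_atTop (N1 / κ)
    have h3 := Filter.eventually_ge_atTop (1 : ℝ)
    exact Filter.eventually_atTop.1 (h3.and (h1.and h2))
  have hD : 0 < Kr * κ ^ (-η) := mul_pos hKr (Real.rpow_pos_of_pos hκ0 _)
  refine ⟨(K * m + Kr * κ ^ (-η) * (1 + K)) / (α - 1), η / 8, R,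
    div_pos (by nlinarith [mul_pos hK hm, mul_pos hD hK]) hα0, by linarith, ?_⟩
  intro z s hz hUB hmu
  obtain ⟨r, hr⟩ : ∃ r : ℝ, nrm z = r := ⟨_, rfl⟩
  unfold UB at hUB
  rw [hr] at hz hmu
  rw [hr]
  simp only [hr] at hUB
  obtain ⟨h1r, h2r, h3r⟩ := hR r hz
  have hr0 : 0 < r := by linarith
  have hz0 : z ≠ 0 := by
    rintro rfl
    rw [nrm_zero] at hr
    linarith
  obtain ⟨P, hP⟩ : ∃ P : ℝ, P = r ^ (1 - η / 8) := ⟨_, rfl⟩
  obtain ⟨N, hNdef⟩ : ∃ N : ℝ, N = κ * r ^ (1 - η / 8) := ⟨_, rfl⟩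
  have hP0 : 0 < P := by rw [hP]; exact Real.rpow_pos_of_pos hr0 _
  have hNP : N = κ * P := by rw [hNdef, hP]
  have hN : N1 ≤ N := by
    rw [div_le_iff₀ hκ0] at h3r
    rw [hNdef, mul_comm]
    exact h3r
  have hN1' : 1 ≤ N := hN1.trans hN
  have hN0 : 0 < N := by linarith
  obtain ⟨w, hw1, hw2⟩ := hrate z hz0 m hm
    (fun ε hε => rate_hyp hh (by rw [hr]; exact hr0) hm (by rw [hr]; exact hmu) hε) N hN
  have hNN : N ^ (1 - η) ≤ N := by
    calc N ^ (1 - η) ≤ N ^ (1 : ℝ) := Real.rpow_le_rpow_of_exponent_le hN1' (by linarith)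
      _ = N := Real.rpow_one N
  have hwn : nrm w ≤ 2 * r ^ (1 - η / 8) := by
    rw [← hP]
    have h5 := hh.low w
    have h6 : a * nrm w ≤ (m + Kr + C) * N := by
      have h61 : Kr * N ^ (1 - η) ≤ Kr * N := mul_le_mul_of_nonneg_left hNN hKr.le
      have h62 : C ≤ C * N := by nlinarith
      nlinarith
    have h7 : (m + Kr + C) * N ≤ a * P := by
      rw [hNP]
      calc (m + Kr + C) * (κ * P) = ((m + Kr + C) * κ) * P := by ring
        _ ≤ a * P := mul_le_mul_of_nonneg_right hκa hP0.le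
    have h8 : nrm w ≤ P := le_of_mul_le_mul_left (h6.trans h7) ha
    linarith
  have hpr : r ^ (1 - η / 4) / 2 ≤ pr w z := by
    have h8 : r ^ (1 - η / 4) * r ^ (η / 8) = P := by
      rw [hP, ← Real.rpow_add hr0]
      congr 1
      ring
    have h9 : 1 ≤ 2 * κ * r ^ (η / 8) := by
      rw [div_le_iff₀ (by positivity)] at h2r
      linarith
    have h10 : 0 ≤ r ^ (1 - η / 4) := Real.rpow_nonneg hr0.le _
    have h11 : r ^ (1 - η / 4) * 1 ≤ r ^ (1 - η / 4) * (2 * κ * r ^ (η / 8)) :=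
      mul_le_mul_of_nonneg_left h9 h10
    have h12 : r ^ (1 - η / 4) * (2 * κ * r ^ (η / 8)) = 2 * N := by
      rw [hNP, ← h8]
      ring
    linarith
  have hU := hUB w hwn hpr
  have hprp : 0 < pr w z := by linarith
  obtain ⟨ρ, hρ⟩ : ∃ ρ : ℝ, ρ = r ^ (-(η / 8)) := ⟨_, rfl⟩
  have hρ0 : 0 < ρ := by rw [hρ]; exact Real.rpow_pos_of_pos hr0 _
  have hρ1 : ρ ≤ 1 := by
    rw [hρ]
    exact Real.rpow_le_one_of_one_le_of_nonpos h1r (by linarith)
  rw [← hρ] at hU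
  rw [← hρ]
  have hP1 : r ^ (α - 1) * r ^ (1 - α) = 1 := by
    rw [← Real.rpow_add hr0, show (α - 1) + (1 - α) = 0 by ring, Real.rpow_zero]
  have h13 : r ^ (α - 1) * s ≤ (1 + K * ρ) * (h w / ((α - 1) * pr w z)) := by
    calc r ^ (α - 1) * s
        ≤ r ^ (α - 1) * ((1 + K * ρ) * (h w / ((α - 1) * pr w z)) * r ^ (1 - α)) :=
          mul_le_mul_of_nonneg_left hU (Real.rpow_nonneg hr0.le _)
      _ = (1 + K * ρ) * (h w / ((α - 1) * pr w z)) * (r ^ (α - 1) * r ^ (1 - α)) := by ring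
      _ = (1 + K * ρ) * (h w / ((α - 1) * pr w z)) := by rw [hP1, mul_one]
  have h14 : N ^ (-η) ≤ κ ^ (-η) * ρ := by
    rw [hNP, Real.mul_rpow hκ0.le hP0.le]
    refine mul_le_mul_of_nonneg_left ?_ (Real.rpow_nonneg hκ0.le _)
    rw [hP, ← Real.rpow_mul hr0.le, hρ]
    refine Real.rpow_le_rpow_of_exponent_le h1r ?_
    nlinarith
  have h15 : N ^ (1 - η) = N * N ^ (-η) := by
    rw [sub_eq_add_neg, Real.rpow_add hN0, Real.rpow_one]
  have h16 : h w ≤ (m + Kr * κ ^ (-η) * ρ) * pr w z := by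
    have h17 : Kr * N ^ (1 - η) ≤ Kr * (N * (κ ^ (-η) * ρ)) := by
      rw [h15]
      exact mul_le_mul_of_nonneg_left (mul_le_mul_of_nonneg_left h14 hN0.le) hKr.le
    have h18 : h w ≤ (m + Kr * κ ^ (-η) * ρ) * N := by
      calc h w ≤ m * N + Kr * N ^ (1 - η) := hw2
        _ ≤ m * N + Kr * (N * (κ ^ (-η) * ρ)) := by linarith
        _ = _ := by ring
    have h19 : 0 ≤ m + Kr * κ ^ (-η) * ρ := by
      have := mul_pos hD hρ0
      linarith
    exact h18.trans (mul_le_mul_of_nonneg_left hw1 h19)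
  have h20 : h w / ((α - 1) * pr w z) ≤ (m + Kr * κ ^ (-η) * ρ) / (α - 1) := by
    rw [div_le_div_iff₀ (mul_pos hα0 hprp) hα0]
    calc h w * (α - 1) ≤ (m + Kr * κ ^ (-η) * ρ) * pr w z * (α - 1) :=
          mul_le_mul_of_nonneg_right h16 hα0.le
      _ = _ := by ring
  obtain ⟨D, hDd⟩ : ∃ D : ℝ, D = Kr * κ ^ (-η) := ⟨_, rfl⟩
  rw [← hDd] at h20 hD ⊢
  have h21 : (1 + K * ρ) * (m + D * ρ) ≤ m + (K * m + D * (1 + K)) * ρ := by
    have h22 : K * D * ρ * ρ ≤ K * D * ρ * 1 :=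
      mul_le_mul_of_nonneg_left hρ1 (by positivity)
    calc (1 + K * ρ) * (m + D * ρ) = m + (K * m + D) * ρ + K * D * ρ * ρ := by ring
      _ ≤ m + (K * m + D) * ρ + K * D * ρ * 1 := by linarith
      _ = _ := by ring
  calc r ^ (α - 1) * s ≤ (1 + K * ρ) * (h w / ((α - 1) * pr w z)) := h13
    _ ≤ (1 + K * ρ) * ((m + D * ρ) / (α - 1)) :=
        mul_le_mul_of_nonneg_left h20 (by positivity)
    _ = ((1 + K * ρ) * (m + D * ρ)) / (α - 1) := by ring
    _ ≤ (m + (K * m + D * (1 + K)) * ρ) / (α - 1) := div_le_div_of_nonneg_right h21 hα0.le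
    _ = m / (α - 1) + (K * m + D * (1 + K)) / (α - 1) * ρ := by ring
-- END eub

/-- the direction of a vertex -/
noncomputable def dir (z : V d) : EuclideanSpace ℝ (Fin d) := (nrm z)⁻¹ • toE z

/-- the direction of `w` is a limit direction of `γ` -/
def LimDir (γ : ℕ → V d) (w : V d) : Prop :=
  ∀ δ : ℝ, 0 < δ → ∀ R : ℝ, ∃ m : ℕ, R ≤ nrm (γ m) ∧ ‖dir (γ m) - dir w‖ < δ

-- BEGIN ldm
private theorem ldm_pos {w : V d} (hw : w ≠ 0) : 0 < nrm w := by
  rw [nrm_eq, norm_pos_iff]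
  intro h0
  apply hw
  ext j
  have h1 : toE w j = (0 : EuclideanSpace ℝ (Fin d)) j := by rw [h0]
  rw [toE_apply] at h1
  simpa using h1

private theorem ldm_nsmul (k : ℕ) (w : V d) : toE (k • w) = (k : ℝ) • toE w := by
  ext j
  simp [toE_apply]

private theorem ldm_dir {z : V d} (hz : 0 < nrm z) : toE z = nrm z • dir z := by
  unfold dir
  rw [smul_smul, mul_inv_cancel₀ hz.ne', one_smul]

private theorem ldm_unit {z : V d} (hz : 0 < nrm z) : ‖dir z‖ = 1 := by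
  unfold dir
  rw [norm_smul, norm_inv, Real.norm_of_nonneg hz.le, ← nrm_eq, inv_mul_cancel₀ hz.ne']

private theorem ldm_near {w z : V d} (hw : 0 < nrm w) (hz : 0 < nrm z) {δ : ℝ}
    (hδ : ‖dir z - dir w‖ < δ) :
    nrm (⌊nrm z / nrm w⌋₊ • w - z) ≤ nrm w + δ * nrm z := by
  set k := ⌊nrm z / nrm w⌋₊ with hk
  have h1 : (k : ℝ) ≤ nrm z / nrm w := Nat.floor_le (by positivity)
  have h2 : nrm z / nrm w < k + 1 := Nat.lt_floor_add_one _
  rw [le_div_iff₀ hw] at h1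
  rw [div_lt_iff₀ hw] at h2
  have h3 : toE (k • w - z) = (k * nrm w - nrm z) • dir w - nrm z • (dir z - dir w) := by
    rw [toE_sub, ldm_nsmul, ldm_dir hw, ldm_dir hz]
    rw [sub_smul, smul_sub, smul_smul]
    abel
  rw [nrm_eq (k • w - z), h3]
  refine (norm_sub_le _ _).trans ?_
  rw [norm_smul, norm_smul, ldm_unit hw, mul_one, Real.norm_of_nonneg hz.le]
  have h4 : ‖(k : ℝ) * nrm w - nrm z‖ ≤ nrm w := by
    rw [Real.norm_eq_abs, abs_le]
    constructor <;> linarith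
  have h5 : nrm z * ‖dir z - dir w‖ ≤ δ * nrm z := by
    rw [mul_comm]
    exact mul_le_mul_of_nonneg_right hδ.le hz.le
  linarith

/-- continuity: for `z = γ m` with `nrm z` large and `‖dir z - dir w‖ < δ` let
`k = ⌊nrm z / nrm w⌋₊`: `k muh w ≤ muh (k • w) ≤ muh z + |b| (δ nrm z + nrm w)` (`le_muh_nsmul`,
`muh_add`, `muh_le_nrm`), `nrm z ≤ (k + 1) nrm w` -/
theorem limdir_muh {h : V d → ℝ} {a b C : ℝ} (hh : HF h a b C) {γ : ℕ → V d}
    (hlim : Tendsto (fun n => nrm (γ n)) atTop atTop) {m0 : ℝ}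
    (hm0 : 0 ≤ m0) (hup : ∀ ε : ℝ, 0 < ε → ∀ᶠ m in atTop, muh h (γ m) ≤ (m0 + ε) * nrm (γ m))
    {w : V d} (hw : w ≠ 0) (hl : LimDir γ w) : muh h w ≤ m0 * nrm w := by
  have hr : 0 < nrm w := ldm_pos hw
  have hμ : 0 ≤ muh h w := muh_nonneg hh w
  have hB : 0 ≤ |b| := abs_nonneg b
  have key : ∀ ε : ℝ, 0 < ε →
      muh h w ≤ m0 * nrm w + ε * (nrm w * (1 + |b| * nrm w + |b| + muh h w)) := by
    intro ε hε
    obtain ⟨M0, hM0⟩ := eventually_atTop.1 (hup ε hε)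
    obtain ⟨R0, hR0⟩ : ∃ R0 : ℝ, ∀ i, i < M0 → nrm (γ i) ≤ R0 := by
      refine ⟨∑ i ∈ range M0, nrm (γ i), fun i hi => ?_⟩
      exact Finset.single_le_sum (f := fun i => nrm (γ i)) (fun j _ => nrm_nonneg _)
        (Finset.mem_range.2 hi)
    obtain ⟨m, hm, hdir⟩ := hl ε hε (max (R0 + 1) (max (nrm w) (1 / ε)))
    set z := γ m with hz
    have hm1 : R0 + 1 ≤ nrm z := (le_max_left _ _).trans hm
    have hm2 : nrm w ≤ nrm z := ((le_max_left _ _).trans (le_max_right _ _)).trans hm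
    have hm3 : 1 / ε ≤ nrm z := ((le_max_right _ _).trans (le_max_right _ _)).trans hm
    have hzpos : 0 < nrm z := hr.trans_le hm2
    have hmM : M0 ≤ m := by
      by_contra hcon
      have := hR0 m (by omega)
      linarith
    have h1 := hM0 m hmM
    have h2 := ldm_near hr hzpos hdir
    set k := ⌊nrm z / nrm w⌋₊ with hk
    have hk1 : 0 < k := Nat.floor_pos.2 (by rw [le_div_iff₀ hr]; linarith)
    have hk2 : nrm z / nrm w < k + 1 := Nat.lt_floor_add_one _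
    have h3 := le_muh_nsmul hh hk1 w
    have h4 : muh h (k • w) ≤ muh h z + muh h (k • w - z) := by
      have := muh_add hh z (k • w - z)
      rwa [add_sub_cancel] at this
    have h5 : muh h (k • w - z) ≤ |b| * (nrm w + ε * nrm z) := by
      refine (muh_le_nrm hh _).trans ?_
      exact mul_le_mul (le_abs_self b) h2 (nrm_nonneg _) hB
    have h6 : 1 ≤ ε * nrm z := by
      rw [div_le_iff₀ hε] at hm3
      linarith
    have h7 : (nrm z / nrm w) * muh h w ≤ (k + 1) * muh h w :=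
      mul_le_mul_of_nonneg_right hk2.le hμ
    have h8 : (nrm z / nrm w) * muh h w ≤
        (m0 + ε) * nrm z + |b| * (nrm w + ε * nrm z) + muh h w := by linarith
    have h9 : |b| * nrm w * 1 ≤ |b| * nrm w * (ε * nrm z) :=
      mul_le_mul_of_nonneg_left h6 (mul_nonneg hB hr.le)
    have h10 : muh h w * 1 ≤ muh h w * (ε * nrm z) := mul_le_mul_of_nonneg_left h6 hμ
    have h11 : (nrm z / nrm w) * muh h w ≤
        nrm z * (m0 + ε * (1 + |b| * nrm w + |b| + muh h w)) := by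
      have : nrm z * (m0 + ε * (1 + |b| * nrm w + |b| + muh h w)) =
          (m0 + ε) * nrm z + |b| * nrm w * (ε * nrm z) + |b| * (ε * nrm z) +
            muh h w * (ε * nrm z) := by ring
      rw [this]
      linarith
    have h12 : nrm z * (muh h w / nrm w) ≤
        nrm z * (m0 + ε * (1 + |b| * nrm w + |b| + muh h w)) := by
      have : nrm z * (muh h w / nrm w) = (nrm z / nrm w) * muh h w := by ring
      rw [this]
      exact h11
    have h13 := le_of_mul_le_mul_left h12 hzpos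
    rw [div_le_iff₀ hr] at h13
    have : (m0 + ε * (1 + |b| * nrm w + |b| + muh h w)) * nrm w =
        m0 * nrm w + ε * (nrm w * (1 + |b| * nrm w + |b| + muh h w)) := by ring
    linarith
  have hK : 0 < nrm w * (1 + |b| * nrm w + |b| + muh h w) := by positivity
  refine le_of_forall_pos_le_add fun ε hε => ?_
  have h1 := key (ε / (nrm w * (1 + |b| * nrm w + |b| + muh h w))) (div_pos hε hK)
  rwa [div_mul_cancel₀ _ hK.ne'] at h1
-- END ldm

-- BEGIN rcv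
private theorem rcv_setup {h : V d → ℝ} {a b C : ℝ} (hh : HF h a b C) {η : ℝ} (hη : 0 < η)
    (hη1 : η < 1) {α : ℝ} (hα : 1 < α) {K : ℝ} (hK : 0 < K) {E : Edge d → ℝ} {R0 : ℝ}
    (hE : ∀ e, 0 ≤ E e) (hCC : CC h η E R0) {γ : ℕ → V d} {st : ℕ → Step d} {W : ℕ → ℝ}
    (hr : InfRay h η α K E γ st W) :
    ∃ K1 : ℝ, ∀ R : ℝ, ∃ n : ℕ → ℕ, StrictMono n ∧
      (∀ k, n 0 ≤ k → 1 ≤ nrm (γ k) ∧ R ≤ nrm (γ k) ∧ UB h η α K (W k) (γ k)) ∧
      (∀ i k, n i ≤ k → k < n (i + 1) →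
        nrm (γ k - γ (n i)) ≤ nrm (γ (n i)) ^ (-(η / 8)) * nrm (γ (n i))) ∧
      DS (fun i => toE (γ (n i))) (fun i => W (n i)) (fun i => h (γ (n (i + 1)) - γ (n i)))
        a (|b| + 1) K K1 (2 * (|b| + 1) / (α - 1)) α (η / 8) := by
  obtain ⟨K1, R1, hmk⟩ := mkDS hh hη hη1.le hα hK
  refine ⟨K1, fun R => ?_⟩
  have hlarge : ∀ᶠ n in atTop, max 1 (max R (max R1 R0)) ≤ nrm (γ n) :=
    hr.lim.eventually_ge_atTop (max 1 (max R (max R1 R0)))
  obtain ⟨N0, hN0⟩ := eventually_atTop.1 (hlarge.and hr.ub)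
  have hone : ∀ k, N0 ≤ k → 1 ≤ nrm (γ k) := fun k hk => (le_max_left _ _).trans (hN0 k hk).1
  have hR : ∀ k, N0 ≤ k → R ≤ nrm (γ k) := fun k hk =>
    ((le_max_left _ _).trans (le_max_right _ _)).trans (hN0 k hk).1
  have hR1 : ∀ k, N0 ≤ k → R1 ≤ nrm (γ k) := fun k hk =>
    (((le_max_left _ _).trans (le_max_right _ _)).trans (le_max_right _ _)).trans (hN0 k hk).1
  have hR0 : ∀ k, N0 ≤ k → R0 ≤ nrm (γ k) := fun k hk =>
    (((le_max_right _ _).trans (le_max_right _ _)).trans (le_max_right _ _)).trans (hN0 k hk).1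
  obtain ⟨n, hn0, hnm, hnlt, hnge⟩ := disc hr.lim (fun v => nrm v ^ (1 - η / 8))
    (fun v hv => Real.rpow_pos_of_pos hv _) N0 (fun k hk => lt_of_lt_of_le one_pos (hone k hk))
  have hDS := hmk E R0 hE hCC γ st W hr N0
    (fun k hk => ⟨hR1 k hk, hR0 k hk, (hN0 k hk).2⟩) n hn0 hnm hnlt hnge
  refine ⟨n, hnm, fun k hk => ?_, ?_, hDS⟩
  · rw [hn0] at hk
    exact ⟨hone k hk, hR k hk, (hN0 k hk).2⟩
  · intro i k h1 h2
    have h3 : N0 ≤ n i := by
      rw [← hn0]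
      exact hnm.monotone (Nat.zero_le i)
    have h4 : 0 < nrm (γ (n i)) := lt_of_lt_of_le one_pos (hone _ h3)
    have h5 : nrm (γ (n i)) ^ (-(η / 8)) * nrm (γ (n i)) = nrm (γ (n i)) ^ (1 - η / 8) := by
      have h6 : (1 - η / 8 : ℝ) = -(η / 8) + 1 := by ring
      rw [h6, Real.rpow_add h4, Real.rpow_one]
    rw [h5]
    exact (hnlt i k h1 h2).le

/-- if all directions near `z0` are limit directions then the ray converges: set up as in the proof of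
`ray_crit` (OneR/Crit): `N0`, `disc`, `mkDS`, `DS.lim_en`, `ray_upper`, `limdir_muh` with
`m0 = (α-1) c`; `energy_ub` (choose `N0` so large that `R ≤ nrm (γ k)` for `k ≥ N0`) gives `hreg` of
`DS.converge` for `t = dir z0`; `hvis` from `LimDir γ z0` and `hin`; finally `hin` again: the unit
vectors of `γ m` and `γ (n i)`, `n i ≤ m < n (i+1)`, differ by at most `2 nrm (γ (n i)) ^ (-(η/8))`
(`unit_close`) -/
theorem ray_conv {h : V d → ℝ} {a b C : ℝ} (hh : HF h a b C) {η : ℝ} (hη : 0 < η) (hη1 : η < 1)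
    {α : ℝ} (hα : 1 < α) {K : ℝ} (hK : 0 < K) {E : Edge d → ℝ} {R0 : ℝ} (hE : ∀ e, 0 ≤ E e)
    (hCC : CC h η E R0) {γ : ℕ → V d} {st : ℕ → Step d} {W : ℕ → ℝ}
    (hr : InfRay h η α K E γ st W) {z0 : V d} (hz0 : z0 ≠ 0) {ρ : ℝ} (hρ : 0 < ρ)
    (hall : ∀ w : V d, w ≠ 0 → ‖dir w - dir z0‖ < ρ → LimDir γ w) :
    ∃ u : EuclideanSpace ℝ (Fin d), Tendsto (fun m => dir (γ m)) atTop (nhds u) := by
  obtain ⟨K1, hset⟩ := rcv_setup hh hη hη1 hα hK hE hCC hr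
  have hW : ∀ k, W (k + 1) ≤ W k := by
    intro k
    have h1 : 0 ≤ tau α E (edg (γ k) (st k)) :=
      div_nonneg (hE _) (Real.rpow_nonneg (Real.sqrt_nonneg _) _)
    have h2 := hr.Weq k
    linarith
  have hα0 : 0 < α - 1 := by linarith
  -- the energy limit and the upper bound of the time constant
  obtain ⟨c, hc0, hce, hup⟩ : ∃ c : ℝ, 0 < c ∧
      Tendsto (fun m => nrm (γ m) ^ (α - 1) * W m) atTop (nhds c) ∧
      ∀ ε : ℝ, 0 < ε → ∀ᶠ m in atTop, muh h (γ m) ≤ ((α - 1) * c + ε) * nrm (γ m) := by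
    obtain ⟨n, hnm, hk, hin, hDS⟩ := hset 0
    obtain ⟨c, hc0, hc⟩ := hDS.lim_en
    exact ⟨c, hc0, ray_en hDS hnm hin hW hc, fun ε hε => ray_upper hh hDS hnm hin hc0 hc hε⟩
  have hm0 : 0 < (α - 1) * c := mul_pos hα0 hc0
  obtain ⟨C0, β, R, hC0, hβ, hen⟩ := energy_ub hh hη hη1 hα hK hE hCC hm0
  obtain ⟨n, hnm, hk, hin, hDS⟩ := hset R
  obtain ⟨c', hc0', hc'⟩ := hDS.lim_en
  have hcc : c' = c := tendsto_nhds_unique (ray_en hDS hnm hin hW hc') hce
  rw [hcc] at hc'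
  have hn0 : ∀ i, n 0 ≤ n i := fun i => hnm.monotone (Nat.zero_le i)
  have hdir : ∀ z : V d, ‖toE z‖⁻¹ • toE z = dir z := fun z => by
    rw [dir, nrm_eq]
  have hpos : ∀ i, 0 < nrm (γ (n i)) := fun i => lt_of_lt_of_le one_pos (hk _ (hn0 i)).1
  have hblk : ∀ q m, n q ≤ m → m < n (q + 1) →
      ‖dir (γ m) - dir (γ (n q))‖ ≤ 2 * nrm (γ (n q)) ^ (-(η / 8)) := by
    intro q m h1 h2
    have hm1 : 0 < nrm (γ m) := lt_of_lt_of_le one_pos (hk _ ((hn0 q).trans h1)).1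
    have hq1 := hpos q
    have h3 := unit_close (x := toE (γ m)) (y := toE (γ (n q))) (by rw [← nrm_eq]; exact hm1)
      (by rw [← nrm_eq]; exact hq1)
    rw [hdir, hdir, ← toE_sub, ← nrm_eq, ← nrm_eq] at h3
    refine h3.trans ?_
    rw [div_le_iff₀ hq1]
    have h4 := hin q m h1 h2
    linarith
  have hr' : Tendsto (fun i => nrm (γ (n i))) atTop atTop := hr.lim.comp hnm.tendsto_atTop
  have hdel : Tendsto (fun i => 2 * nrm (γ (n i)) ^ (-(η / 8))) atTop (nhds 0) := by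
    have h1 : Tendsto (fun i => nrm (γ (n i)) ^ (-(η / 8))) atTop (nhds 0) :=
      (tendsto_rpow_neg_atTop (by positivity)).comp hr'
    have h2 := h1.const_mul 2
    rwa [mul_zero] at h2
  have hreg : ∀ i, ‖(‖toE (γ (n i))‖⁻¹ • toE (γ (n i))) - dir z0‖ < ρ →
      En (fun i => toE (γ (n i))) (fun i => W (n i)) α i ≤ c + C0 * ‖toE (γ (n i))‖ ^ (-β) := by
    intro i hi
    rw [hdir] at hi
    have hne : γ (n i) ≠ 0 := by
      intro h0
      have h1 := hpos i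
      rw [h0, nrm_zero] at h1
      exact lt_irrefl _ h1
    have h1 := limdir_muh hh hr.lim hm0.le hup hne (hall _ hne hi)
    have h2 := hen (γ (n i)) (W (n i)) (hk _ (hn0 i)).2.1 (hk _ (hn0 i)).2.2 h1
    have h3 : (α - 1) * c / (α - 1) = c := by field_simp
    rw [h3, nrm_eq] at h2
    exact h2
  have hvis : ∀ N, ∃ i, N ≤ i ∧ ‖(‖toE (γ (n i))‖⁻¹ • toE (γ (n i))) - dir z0‖ < ρ / 2 := by
    intro N
    have h1 : ∀ᶠ i in atTop, 2 * nrm (γ (n i)) ^ (-(η / 8)) < ρ / 4 :=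
      hdel.eventually (gt_mem_nhds (by positivity))
    obtain ⟨Q, hQ⟩ := eventually_atTop.1 (h1.and (eventually_ge_atTop N))
    have hl : LimDir γ z0 := hall z0 hz0 (by rw [sub_self, norm_zero]; exact hρ)
    obtain ⟨m, hm1, hm2⟩ := hl (ρ / 4) (by positivity)
      (1 + ∑ i ∈ range (n (Q + 1)), nrm (γ i))
    have hidx : n (Q + 1) ≤ m := by
      by_contra hcon
      have h2 : nrm (γ m) ≤ ∑ i ∈ range (n (Q + 1)), nrm (γ i) :=
        Finset.single_le_sum (f := fun i => nrm (γ i)) (fun j _ => nrm_nonneg _)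
          (Finset.mem_range.2 (not_le.1 hcon))
      linarith
    obtain ⟨q, hq, hq1, hq2⟩ := crc_block hnm Q m hidx
    refine ⟨q, (hQ q hq).2, ?_⟩
    rw [hdir]
    have h3 := hblk q m hq1 hq2
    have h4 := (hQ q hq).1
    have h5 : ‖dir (γ (n q)) - dir z0‖ ≤ ‖dir (γ m) - dir (γ (n q))‖ + ‖dir (γ m) - dir z0‖ := by
      have h6 : dir (γ (n q)) - dir z0 =
          -(dir (γ m) - dir (γ (n q))) + (dir (γ m) - dir z0) := by abel
      rw [h6]
      refine (norm_add_le _ _).trans ?_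
      rw [norm_neg]
    linarith
  obtain ⟨v, hv⟩ := hDS.converge hc' hρ hC0 hβ hreg hvis
  refine ⟨v, Metric.tendsto_atTop.2 fun ε hε => ?_⟩
  have h1 : ∀ᶠ i in atTop, 2 * nrm (γ (n i)) ^ (-(η / 8)) < ε / 2 :=
    hdel.eventually (gt_mem_nhds (by positivity))
  obtain ⟨Q1, hQ1⟩ := Metric.tendsto_atTop.1 hv (ε / 2) (by positivity)
  obtain ⟨Q, hQ⟩ := eventually_atTop.1 (h1.and (eventually_ge_atTop Q1))
  refine ⟨n (Q + 1), fun m hm => ?_⟩
  obtain ⟨q, hq, hq1, hq2⟩ := crc_block hnm Q m hm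
  have h3 := hblk q m hq1 hq2
  have h4 := (hQ q hq).1
  have h5 := hQ1 q (hQ q hq).2
  rw [hdir, dist_eq_norm] at h5
  rw [dist_eq_norm]
  have h6 : dir (γ m) - v = (dir (γ m) - dir (γ (n q))) + (dir (γ (n q)) - v) := by abel
  rw [h6]
  refine lt_of_le_of_lt (norm_add_le _ _) ?_
  linarith
-- END rcv

-- BEGIN den
private theorem den_round {v : EuclideanSpace ℝ (Fin d)} (N : ℝ) :
    ‖toE (fun j => round (N * v j)) - N • v‖ ≤ Real.sqrt d := by
  rw [EuclideanSpace.norm_eq]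
  apply Real.sqrt_le_sqrt
  calc ∑ j : Fin d, ‖(toE (fun j => round (N * v j)) - N • v) j‖ ^ 2
      ≤ ∑ _j : Fin d, (1 : ℝ) := by
        apply Finset.sum_le_sum
        intro j _
        have h1 : (toE (fun j => round (N * v j)) - N • v) j = (round (N * v j) : ℝ) - N * v j := by
          rfl
        rw [h1, Real.norm_eq_abs, sq_abs]
        have h2 := abs_sub_round (N * v j)
        rw [abs_le] at h2
        nlinarith [h2.1, h2.2]
    _ = (d : ℝ) := by simp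

/-- the directions of vertices are dense in the sphere: `z j = round (N v j)` for large `N`,
`‖toE z - N • v‖ ≤ √d` -/
theorem dir_dense {v : EuclideanSpace ℝ (Fin d)} (hv : ‖v‖ = 1) {ε : ℝ} (hε : 0 < ε) :
    ∃ z : V d, z ≠ 0 ∧ ‖dir z - v‖ < ε := by
  have hs : 0 ≤ Real.sqrt d := Real.sqrt_nonneg _
  obtain ⟨N, hN⟩ := exists_gt (Real.sqrt d + 2 * Real.sqrt d / ε + 1)
  have hq : 0 ≤ 2 * Real.sqrt d / ε := by positivity
  have hN0 : 0 < N := by linarith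
  have hr := den_round (v := v) N
  have hNv : ‖N • v‖ = N := by rw [norm_smul, hv, mul_one, Real.norm_eq_abs, abs_of_pos hN0]
  have hpos : 0 < ‖toE (fun j => round (N * v j))‖ := by
    have h1 : ‖N • v‖ ≤ ‖toE (fun j => round (N * v j))‖ +
        ‖toE (fun j => round (N * v j)) - N • v‖ := by
      have h2 := norm_sub_norm_le (N • v) (toE (fun j => round (N * v j)))
      rw [norm_sub_rev] at h2
      linarith
    rw [hNv] at h1
    linarith
  refine ⟨fun j => round (N * v j), ?_, ?_⟩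
  · intro h0
    rw [h0] at hpos
    have h1 : toE (0 : V d) = 0 := by
      ext j
      simp [toE]
    rw [h1, norm_zero] at hpos
    exact lt_irrefl _ hpos
  · have h1 := unit_close hpos (show 0 < ‖N • v‖ by rw [hNv]; exact hN0)
    have h2 : ‖N • v‖⁻¹ • (N • v) = v := by
      rw [hNv, smul_smul, inv_mul_cancel₀ hN0.ne', one_smul]
    rw [h2, hNv] at h1
    have h3 : dir (fun j => round (N * v j)) =
        ‖toE (fun j => round (N * v j))‖⁻¹ • toE (fun j => round (N * v j)) := by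
      unfold dir
      rw [nrm_eq]
    rw [h3]
    refine h1.trans_lt ?_
    rw [div_lt_iff₀ hN0]
    have h4 : 2 * ‖toE (fun j => round (N * v j)) - N • v‖ ≤ 2 * Real.sqrt d := by linarith
    refine h4.trans_lt ?_
    have h5 : 2 * Real.sqrt d / ε < N := by linarith
    rw [div_lt_iff₀ hε] at h5
    linarith
-- END den

-- BEGIN twd
private theorem twd_close {X : Type*} [NormedAddCommGroup X] [NormedSpace ℝ X] (x y : X)
    (hx : 0 < ‖x‖) (hy : 0 < ‖y‖) : ‖‖x‖⁻¹ • x - ‖y‖⁻¹ • y‖ ≤ 2 * ‖x - y‖ / ‖y‖ := by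
  have e : ‖x‖⁻¹ • x - ‖y‖⁻¹ • y = (‖x‖⁻¹ - ‖y‖⁻¹) • x + ‖y‖⁻¹ • (x - y) := by
    rw [sub_smul, smul_sub]
    abel
  rw [e]
  have h1 : ‖(‖x‖⁻¹ - ‖y‖⁻¹) • x‖ ≤ ‖x - y‖ / ‖y‖ := by
    rw [norm_smul, Real.norm_eq_abs, inv_sub_inv hx.ne' hy.ne', abs_div, abs_mul,
      abs_of_pos hx, abs_of_pos hy, div_mul_eq_mul_div, mul_comm ‖x‖ ‖y‖,
      mul_div_mul_right _ _ hx.ne']
    refine div_le_div_of_nonneg_right ?_ hy.le
    rw [abs_sub_comm]
    exact abs_norm_sub_norm_le x y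
  have h2 : ‖‖y‖⁻¹ • (x - y)‖ = ‖x - y‖ / ‖y‖ := by
    rw [norm_smul, norm_inv, norm_norm, inv_mul_eq_div]
  calc ‖(‖x‖⁻¹ - ‖y‖⁻¹) • x + ‖y‖⁻¹ • (x - y)‖
      ≤ ‖(‖x‖⁻¹ - ‖y‖⁻¹) • x‖ + ‖‖y‖⁻¹ • (x - y)‖ := norm_add_le _ _
    _ ≤ ‖x - y‖ / ‖y‖ + ‖x - y‖ / ‖y‖ := by rw [h2]; linarith
    _ = 2 * ‖x - y‖ / ‖y‖ := by ring

private theorem twd_pos {z : V d} {i : Fin d} (hi : z i ≠ 0) : 0 < ‖toE z‖ := by
  rw [norm_pos_iff]
  intro h
  have h1 : toE z i = (0 : EuclideanSpace ℝ (Fin d)) i := by rw [h]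
  rw [toE_apply] at h1
  apply hi
  have h2 : ((z i : ℤ) : ℝ) = 0 := h1
  exact_mod_cast h2

/-- a second direction near a given one (`d ≥ 2`): `w = k • z0 + ev j`, `k` large, where `j` is such
that `z0` has a nonzero coordinate different from `j` -/
theorem dir_two (hd : 2 ≤ d) {z0 : V d} (hz0 : z0 ≠ 0) {ρ : ℝ} (hρ : 0 < ρ) :
    ∃ w : V d, w ≠ 0 ∧ ‖dir w - dir z0‖ < ρ ∧ dir w ≠ dir z0 := by
  obtain ⟨i, hi⟩ : ∃ i, z0 i ≠ 0 := by
    by_contra hcon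
    push Not at hcon
    exact hz0 (funext hcon)
  obtain ⟨j, hj⟩ : ∃ j : Fin d, j ≠ i := by
    have : Nontrivial (Fin d) := Fin.nontrivial_iff_two_le.2 hd
    exact exists_ne i
  have hn : 0 < ‖toE z0‖ := twd_pos hi
  obtain ⟨k, hk⟩ := exists_nat_gt (2 / (ρ * ‖toE z0‖))
  have hk0 : (0 : ℝ) < k := lt_of_le_of_lt (by positivity) hk
  have hkZ : (k : ℤ) ≠ 0 := by
    intro h
    rw [show (k : ℝ) = ((k : ℤ) : ℝ) from rfl, h] at hk0
    simp at hk0
  have hwi : (k • z0 + ev j) i = (k : ℤ) * z0 i := by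
    rw [Pi.add_apply, Pi.smul_apply, ev, Pi.single_eq_of_ne hj.symm, add_zero, nsmul_eq_mul]
  have hwj : (k • z0 + ev j) j = (k : ℤ) * z0 j + 1 := by
    rw [Pi.add_apply, Pi.smul_apply, ev, Pi.single_eq_same, nsmul_eq_mul]
  have hwi0 : (k • z0 + ev j) i ≠ 0 := by
    rw [hwi]
    exact mul_ne_zero hkZ hi
  have hw : 0 < ‖toE (k • z0 + ev j)‖ := twd_pos hwi0
  have hE : toE (k • z0) = (k : ℝ) • toE z0 := by
    ext l
    rw [toE_apply, Pi.smul_apply, nsmul_eq_mul]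
    push_cast
    rfl
  have hy : ‖toE (k • z0)‖ = k * ‖toE z0‖ := by
    rw [hE, norm_smul, Real.norm_eq_abs, abs_of_pos hk0]
  have hyp : 0 < ‖toE (k • z0)‖ := by
    rw [hy]
    positivity
  have hdz : dir z0 = ‖toE (k • z0)‖⁻¹ • toE (k • z0) := by
    rw [hy, hE, smul_smul, dir, nrm_eq]
    congr 1
    field_simp
  have hdw : dir (k • z0 + ev j) = ‖toE (k • z0 + ev j)‖⁻¹ • toE (k • z0 + ev j) := by
    rw [dir, nrm_eq]
  refine ⟨k • z0 + ev j, ?_, ?_, ?_⟩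
  · intro h
    apply hwi0
    rw [h]
    rfl
  · rw [hdw, hdz]
    refine lt_of_le_of_lt (twd_close _ _ hw hyp) ?_
    rw [toE_add, add_sub_cancel_left, ← nrm_eq, nrm_ev, mul_one, hy, div_lt_iff₀ (by positivity)]
    rw [div_lt_iff₀ (by positivity)] at hk
    linarith
  · intro h
    have h1 : toE (k • z0 + ev j) = (‖toE (k • z0 + ev j)‖ / ‖toE z0‖) • toE z0 := by
      have h2 : ‖toE (k • z0 + ev j)‖ • dir (k • z0 + ev j) = toE (k • z0 + ev j) := by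
        rw [hdw, smul_smul, mul_inv_cancel₀ hw.ne', one_smul]
      calc toE (k • z0 + ev j) = ‖toE (k • z0 + ev j)‖ • dir (k • z0 + ev j) := h2.symm
        _ = ‖toE (k • z0 + ev j)‖ • dir z0 := by rw [h]
        _ = (‖toE (k • z0 + ev j)‖ / ‖toE z0‖) • toE z0 := by
          rw [dir, nrm_eq, smul_smul, div_eq_mul_inv]
    obtain ⟨c, hc⟩ : ∃ c : ℝ, c = ‖toE (k • z0 + ev j)‖ / ‖toE z0‖ := ⟨_, rfl⟩
    rw [← hc] at h1
    have hci : (((k : ℤ) * z0 i : ℤ) : ℝ) = c * (z0 i : ℝ) := by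
      have := congrArg (fun v : EuclideanSpace ℝ (Fin d) => v i) h1
      rw [← hwi]
      exact this
    have hcj : (((k : ℤ) * z0 j + 1 : ℤ) : ℝ) = c * (z0 j : ℝ) := by
      have := congrArg (fun v : EuclideanSpace ℝ (Fin d) => v j) h1
      rw [← hwj]
      exact this
    push_cast at hci hcj
    have hiR : ((z0 i : ℤ) : ℝ) ≠ 0 := by exact_mod_cast hi
    have hck : (k : ℝ) = c := mul_right_cancel₀ hiR hci
    rw [← hck] at hcj
    linarith
-- END twd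

-- BEGIN rnd
private theorem rnd_eq {γ : ℕ → V d} {u : EuclideanSpace ℝ (Fin d)}
    (hu : Tendsto (fun m => dir (γ m)) atTop (nhds u)) {w : V d} (hl : LimDir γ w) :
    dir w = u := by
  rw [← sub_eq_zero, ← norm_eq_zero]
  refine le_antisymm (le_of_forall_pos_le_add fun ε hε => ?_) (norm_nonneg _)
  obtain ⟨M, hM⟩ := Metric.tendsto_atTop.1 hu (ε / 2) (by linarith)
  obtain ⟨m, hm1, hm2⟩ := hl (ε / 2) (by linarith) (1 + ∑ i ∈ range M, |nrm (γ i)|)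
  have hmM : M ≤ m := by
    by_contra hlt
    have h1 : |nrm (γ m)| ≤ ∑ i ∈ range M, |nrm (γ i)| :=
      Finset.single_le_sum (f := fun i => |nrm (γ i)|) (fun i _ => abs_nonneg _)
        (mem_range.2 (not_le.1 hlt))
    have h2 := le_abs_self (nrm (γ m))
    linarith
  have h3 := hM m hmM
  rw [dist_eq_norm] at h3
  have h4 : ‖dir w - u‖ ≤ ‖dir w - dir (γ m)‖ + ‖dir (γ m) - u‖ := norm_sub_le_norm_sub_add_norm_sub _ _ _
  rw [norm_sub_rev] at hm2
  linarith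

/-- the limit directions are nowhere dense: otherwise all `w ≠ 0` with `‖dir w - dir z0‖ < ρ` are
limit directions, by `ray_conv` the directions converge to some `u`, so `dir w = u` for each of them
(`hr.lim`; a vertex of large norm has a large index), against `dir_two` -/
theorem ray_nd (hd : 2 ≤ d) {h : V d → ℝ} {a b C : ℝ} (hh : HF h a b C) {η : ℝ} (hη : 0 < η)
    (hη1 : η < 1) {α : ℝ} (hα : 1 < α) {K : ℝ} (hK : 0 < K) {E : Edge d → ℝ} {R0 : ℝ}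
    (hE : ∀ e, 0 ≤ E e) (hCC : CC h η E R0) {γ : ℕ → V d} {st : ℕ → Step d} {W : ℕ → ℝ}
    (hr : InfRay h η α K E γ st W) {z0 : V d} (hz0 : z0 ≠ 0) {ρ : ℝ} (hρ : 0 < ρ) :
    ∃ (w : V d) (δ R : ℝ), w ≠ 0 ∧ 0 < δ ∧ ‖dir w - dir z0‖ < ρ ∧
      ∀ m, R ≤ nrm (γ m) → δ ≤ ‖dir (γ m) - dir w‖ := by
  by_contra hcon
  have hall : ∀ w : V d, w ≠ 0 → ‖dir w - dir z0‖ < ρ → LimDir γ w := by
    intro w hw hwρ δ hδ R
    by_contra hno
    refine hcon ⟨w, δ, R, hw, hδ, hwρ, fun m hm => ?_⟩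
    by_contra hlt
    exact hno ⟨m, hm, not_le.1 hlt⟩
  obtain ⟨u, hu⟩ := ray_conv hh hη hη1 hα hK hE hCC hr hz0 hρ hall
  obtain ⟨w, hw, hwρ, hne⟩ := dir_two hd hz0 hρ
  apply hne
  rw [rnd_eq hu (hall w hw hwρ), rnd_eq hu (hall z0 hz0 (by rw [sub_self, norm_zero]; exact hρ))]
-- END rnd

end OneR
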