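import Pool.Agent.OneR.Dir

/-!
Problem MP_b9fb85_pr: the limit directions of the ray, part two: in the plane the ray has an asymptotic
direction.
-/

set_option autoImplicit false

namespace OneR

open Finset ConeD ConeD.TRANSAux OneE Filter MeasureTheory

/-- the cross product -/
def cr (x y : EuclideanSpace ℝ (Fin 2)) : ℝ := x 0 * y 1 - x 1 * y 0

-- BEGIN sec
theorem sec_nsq (x : EuclideanSpace ℝ (Fin 2)) : ‖x‖ ^ 2 = x 0 ^ 2 + x 1 ^ 2 := by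
  rw [EuclideanSpace.real_norm_sq_eq, Fin.sum_univ_two]

theorem sec_inner (x y : EuclideanSpace ℝ (Fin 2)) : inner ℝ x y = x 0 * y 0 + x 1 * y 1 := by
  rw [PiLp.inner_apply, Fin.sum_univ_two]
  simp only [RCLike.inner_apply, conj_trivial]
  ring

/-- the cross product is bounded by the product of the norms -/
theorem abs_cr_le (x y : EuclideanSpace ℝ (Fin 2)) : |cr x y| ≤ ‖x‖ * ‖y‖ := by
  refine abs_le_of_sq_le_sq ?_ (by positivity)
  rw [mul_pow, sec_nsq x, sec_nsq y]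
  unfold cr
  nlinarith [sq_nonneg (x 0 * y 0 + x 1 * y 1)]

theorem sec_cr_smul (v x : EuclideanSpace ℝ (Fin 2)) (c : ℝ) : cr v (c • x) = c * cr v x := by
  unfold cr
  simp only [PiLp.smul_apply, smul_eq_mul]
  ring

theorem sec_lag (v x : EuclideanSpace ℝ (Fin 2)) : cr v x ^ 2 + (inner ℝ v x : ℝ) ^ 2 = ‖v‖ ^ 2 * ‖x‖ ^ 2 := by
  rw [sec_nsq v, sec_nsq x, sec_inner]
  unfold cr
  ring

/-- a vector with small cross product with the unit vector `v` and positive inner product is near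
`v`: `‖x‖ ^ 2 = cr v x ^ 2 + inner v x ^ 2` -/
theorem cr_close {v x : EuclideanSpace ℝ (Fin 2)} (hv : ‖v‖ = 1) (hx : 0 < ‖x‖) {δ : ℝ}
    (h1 : |cr v x| ≤ δ * ‖x‖) (h2 : 0 ≤ inner ℝ v x) : ‖(‖x‖⁻¹ • x) - v‖ ≤ 2 * δ := by
  have hδ : 0 ≤ δ := by
    by_contra hneg
    have h3 : δ * ‖x‖ < 0 := mul_neg_of_neg_of_pos (not_le.1 hneg) hx
    exact absurd ((abs_nonneg _).trans h1) (not_le.2 h3)
  set e : EuclideanSpace ℝ (Fin 2) := ‖x‖⁻¹ • x with he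
  have hen : ‖e‖ = 1 := by
    rw [he, norm_smul, norm_inv, norm_norm, inv_mul_cancel₀ hx.ne']
  have hc : (inner ℝ v e : ℝ) = ‖x‖⁻¹ * inner ℝ v x := by
    rw [he, inner_smul_right]
  have hc0 : 0 ≤ (inner ℝ v e : ℝ) := by
    rw [hc]
    exact mul_nonneg (inv_nonneg.2 hx.le) h2
  have hs : |cr v e| ≤ δ := by
    rw [he, sec_cr_smul, abs_mul, abs_of_pos (inv_pos.2 hx)]
    calc ‖x‖⁻¹ * |cr v x| ≤ ‖x‖⁻¹ * (δ * ‖x‖) := mul_le_mul_of_nonneg_left h1 (inv_nonneg.2 hx.le)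
      _ = δ := by field_simp
  have hs2 : cr v e ^ 2 ≤ δ ^ 2 := by
    rw [← sq_abs (cr v e)]
    exact pow_le_pow_left₀ (abs_nonneg _) hs 2
  have hl := sec_lag v e
  rw [hv, hen] at hl
  have hd : ‖e - v‖ ^ 2 = 2 - 2 * (inner ℝ v e : ℝ) := by
    rw [norm_sub_sq_real, hen, hv, real_inner_comm]
    ring
  have hc1 : (inner ℝ v e : ℝ) ≤ 1 := by
    nlinarith [sq_nonneg (cr v e)]
  refine abs_le_of_sq_le_sq' (a := ‖e - v‖) (b := 2 * δ) ?_ (by positivity) |>.2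
  rw [hd]
  nlinarith [sq_nonneg (cr v e)]

/-- the sector between the unit vectors `v2` and `v1`, which are both near the unit vector `u`: `x` is
a nonnegative combination `(cr x v1 • v2 + cr v2 x • v1) / cr v2 v1` -/
theorem sector_near {u v1 v2 x : EuclideanSpace ℝ (Fin 2)} (hu : ‖u‖ = 1) (hv1 : ‖v1‖ = 1)
    (hv2 : ‖v2‖ = 1) {ε : ℝ} (hε1 : ε ≤ 1 / 4) (h1 : ‖v1 - u‖ ≤ ε)
    (h2 : ‖v2 - u‖ ≤ ε) (h3 : 0 < cr u v1) (h4 : 0 < cr v2 u) (hx : 0 < ‖x‖)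
    (hx1 : 0 < cr x v1) (hx2 : 0 < cr v2 x) : ‖(‖x‖⁻¹ • x) - u‖ ≤ 4 * ε := by
  have hε : 0 ≤ ε := (norm_nonneg _).trans h1
  have ha : ∀ w : EuclideanSpace ℝ (Fin 2), ‖w‖ = 1 → ‖w - u‖ ≤ ε → 0 < (inner ℝ w u : ℝ) := by
    intro w hw hwu
    have h5 : ‖w - u‖ ^ 2 = 2 - 2 * (inner ℝ w u : ℝ) := by
      rw [norm_sub_sq_real, hw, hu]
      ring
    have h6 : ‖w - u‖ ^ 2 ≤ ε ^ 2 := pow_le_pow_left₀ (norm_nonneg _) hwu 2
    nlinarith
  have hD : 0 < cr v2 v1 := by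
    have h5 : cr v2 v1 * ‖u‖ ^ 2 = inner ℝ v2 u * cr u v1 + cr v2 u * inner ℝ v1 u := by
      rw [sec_nsq, sec_inner, sec_inner]
      unfold cr
      ring
    rw [hu, one_pow, mul_one] at h5
    rw [h5]
    have h6 := ha v2 hv2 h2
    have h7 := ha v1 hv1 h1
    positivity
  have hcomb : cr v2 v1 • x = cr x v1 • v2 + cr v2 x • v1 := by
    ext i
    fin_cases i
    · simp only [cr, PiLp.add_apply, PiLp.smul_apply, smul_eq_mul, Fin.zero_eta, Fin.isValue]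
      ring
    · simp only [cr, PiLp.add_apply, PiLp.smul_apply, smul_eq_mul, Fin.mk_one, Fin.isValue]
      ring
  obtain ⟨S, hS⟩ : ∃ S : ℝ, S = cr x v1 := ⟨_, rfl⟩
  obtain ⟨T, hT⟩ : ∃ T : ℝ, T = cr v2 x := ⟨_, rfl⟩
  obtain ⟨D, hDD⟩ : ∃ D : ℝ, D = cr v2 v1 := ⟨_, rfl⟩
  rw [← hS, ← hT, ← hDD] at hcomb
  rw [← hS] at hx1
  rw [← hT] at hx2
  rw [← hDD] at hD
  have h5 : ‖D • x - (S + T) • u‖ ≤ (S + T) * ε := by
    have h6 : D • x - (S + T) • u = S • (v2 - u) + T • (v1 - u) := by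
      rw [hcomb]
      module
    rw [h6]
    calc ‖S • (v2 - u) + T • (v1 - u)‖ ≤ ‖S • (v2 - u)‖ + ‖T • (v1 - u)‖ := norm_add_le _ _
      _ = S * ‖v2 - u‖ + T * ‖v1 - u‖ := by
        rw [norm_smul, norm_smul, Real.norm_of_nonneg hx1.le, Real.norm_of_nonneg hx2.le]
      _ ≤ S * ε + T * ε := add_le_add (mul_le_mul_of_nonneg_left h2 hx1.le) (mul_le_mul_of_nonneg_left h1 hx2.le)
      _ = (S + T) * ε := by ring
  have hM : 0 < S + T := by positivity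
  have h7 : |D * ‖x‖ - (S + T)| ≤ (S + T) * ε := by
    have h8 := abs_norm_sub_norm_le (D • x) ((S + T) • u)
    rw [norm_smul, norm_smul, Real.norm_of_nonneg hD.le, Real.norm_of_nonneg hM.le, hu, mul_one] at h8
    exact h8.trans h5
  have hN : 0 < D * ‖x‖ := by positivity
  have h9 : ‖D • x - (D * ‖x‖) • u‖ ≤ 2 * ((S + T) * ε) := by
    have h10 : D • x - (D * ‖x‖) • u = (D • x - (S + T) • u) + ((S + T) - D * ‖x‖) • u := by
      module
    rw [h10]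
    refine (norm_add_le _ _).trans ?_
    rw [norm_smul ((S + T) - D * ‖x‖) u, hu, mul_one, Real.norm_eq_abs, abs_sub_comm]
    linarith
  have h11 : ‖x‖⁻¹ • x - u = (D * ‖x‖)⁻¹ • (D • x - (D * ‖x‖) • u) := by
    rw [smul_sub, smul_smul, smul_smul, inv_mul_cancel₀ hN.ne', one_smul]
    congr 2
    field_simp
  rw [h11, norm_smul, norm_inv, Real.norm_of_nonneg hN.le, inv_mul_le_iff₀ hN]
  have h12 := (abs_le.1 h7).1
  nlinarith [mul_nonneg hM.le hε, mul_nonneg (mul_nonneg hM.le hε) hε]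
-- END sec

-- BEGIN pts
private theorem pts_norm (x : EuclideanSpace ℝ (Fin 2)) : ‖x‖ ^ 2 = x 0 ^ 2 + x 1 ^ 2 := by
  rw [EuclideanSpace.norm_sq_eq, Fin.sum_univ_two, Real.norm_eq_abs, Real.norm_eq_abs, sq_abs,
    sq_abs]

private theorem pts_one {γ : ℕ → V 2}
    (hnd : ∀ z0 : V 2, z0 ≠ 0 → ∀ ρ : ℝ, 0 < ρ → ∃ (w : V 2) (δ R : ℝ), w ≠ 0 ∧ 0 < δ ∧
      ‖dir w - dir z0‖ < ρ ∧ ∀ m, R ≤ nrm (γ m) → δ ≤ ‖dir (γ m) - dir w‖)
    {u : EuclideanSpace ℝ (Fin 2)} (hu : ‖u‖ = 1) {ε c s : ℝ} (hε : 0 < ε)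
    (hcs : c ^ 2 + s ^ 2 = 1) (hs : s ≠ 0) (h1 : (c - 1) ^ 2 + s ^ 2 ≤ (ε / 2) ^ 2) :
    ∃ (w : V 2) (δ R : ℝ), w ≠ 0 ∧ 0 < δ ∧ ‖dir w - u‖ ≤ ε ∧ 0 < s * cr u (dir w) ∧
      ∀ m, R ≤ nrm (γ m) → δ ≤ ‖dir (γ m) - dir w‖ := by
  have hu2 : u 0 ^ 2 + u 1 ^ 2 = 1 := by
    rw [← pts_norm, hu]
    norm_num
  have hs0 : 0 < |s| := abs_pos.2 hs
  obtain ⟨v, hv0, hv1⟩ : ∃ v : EuclideanSpace ℝ (Fin 2), v 0 = c * u 0 - s * u 1 ∧
      v 1 = c * u 1 + s * u 0 := ⟨!₂[c * u 0 - s * u 1, c * u 1 + s * u 0], rfl, rfl⟩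
  have hv : ‖v‖ = 1 := by
    have h2 : ‖v‖ ^ 2 = 1 := by
      rw [pts_norm, hv0, hv1]
      have e : (c * u 0 - s * u 1) ^ 2 + (c * u 1 + s * u 0) ^ 2 =
          (c ^ 2 + s ^ 2) * (u 0 ^ 2 + u 1 ^ 2) := by ring
      rw [e, hcs, hu2, one_mul]
    have h3 := norm_nonneg v
    have h4 : (‖v‖ - 1) * (‖v‖ + 1) = 0 := by linear_combination h2
    rcases mul_eq_zero.1 h4 with h | h
    · linarith
    · linarith
  have hvu : ‖v - u‖ ≤ ε / 2 := by
    have h2 : ‖v - u‖ ^ 2 ≤ (ε / 2) ^ 2 := by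
      rw [pts_norm, PiLp.sub_apply, PiLp.sub_apply, hv0, hv1]
      have e : (c * u 0 - s * u 1 - u 0) ^ 2 + (c * u 1 + s * u 0 - u 1) ^ 2 =
          ((c - 1) ^ 2 + s ^ 2) * (u 0 ^ 2 + u 1 ^ 2) := by ring
      rw [e, hu2, mul_one]
      exact h1
    exact (pow_le_pow_iff_left₀ (norm_nonneg _) (by positivity) two_ne_zero).1 h2
  obtain ⟨η, hη⟩ : ∃ η, η = min (|s| / 4) (ε / 8) := ⟨_, rfl⟩
  have hη0 : 0 < η := by
    rw [hη]
    exact lt_min (by positivity) (by positivity)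
  obtain ⟨z0, hz0, hz1⟩ := dir_dense hv hη0
  obtain ⟨w, δ, R, hw, hδ, hw1, hw2⟩ := hnd z0 hz0 η hη0
  have hwv : ‖dir w - v‖ ≤ 2 * η := by
    have e : dir w - v = (dir w - dir z0) + (dir z0 - v) := by abel
    rw [e]
    exact (norm_add_le _ _).trans (by linarith)
  refine ⟨w, δ, R, hw, hδ, ?_, ?_, hw2⟩
  · have e : dir w - u = (dir w - v) + (v - u) := by abel
    have h2 : η ≤ ε / 8 := by
      rw [hη]
      exact min_le_right _ _
    rw [e]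
    exact (norm_add_le _ _).trans (by linarith)
  · have h2 : η ≤ |s| / 4 := by
      rw [hη]
      exact min_le_left _ _
    have h3 := abs_cr_le u (dir w - v)
    rw [hu, one_mul] at h3
    have h4 : cr u (dir w - v) = cr u (dir w) - s := by
      unfold cr
      rw [PiLp.sub_apply, PiLp.sub_apply, hv0, hv1]
      linear_combination (-s) * hu2
    rw [h4] at h3
    have h5 : |cr u (dir w) - s| ≤ |s| / 2 := h3.trans (by linarith)
    have h7 : |s * (cr u (dir w) - s)| ≤ |s| * (|s| / 2) := by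
      rw [abs_mul]
      exact mul_le_mul_of_nonneg_left h5 (abs_nonneg s)
    have h8 := (abs_le.1 h7).1
    have h9 : |s| * |s| = s * s := abs_mul_abs_self s
    have h10 : 0 < s * s := by
      rw [← h9]
      exact mul_pos hs0 hs0
    nlinarith

/-- unvisited directions on both sides of `u`, arbitrarily near: `v = (u ± (ε/2) u^⊥)` normalised,
`dir_dense`, then `hnd` -/
theorem two_caps {γ : ℕ → V 2}
    (hnd : ∀ z0 : V 2, z0 ≠ 0 → ∀ ρ : ℝ, 0 < ρ → ∃ (w : V 2) (δ R : ℝ), w ≠ 0 ∧ 0 < δ ∧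
      ‖dir w - dir z0‖ < ρ ∧ ∀ m, R ≤ nrm (γ m) → δ ≤ ‖dir (γ m) - dir w‖)
    {u : EuclideanSpace ℝ (Fin 2)} (hu : ‖u‖ = 1) {ε : ℝ} (hε : 0 < ε) (hε1 : ε ≤ 1 / 4) :
    ∃ (w1 w2 : V 2) (δ R : ℝ), w1 ≠ 0 ∧ w2 ≠ 0 ∧ 0 < δ ∧ ‖dir w1 - u‖ ≤ ε ∧ ‖dir w2 - u‖ ≤ ε ∧
      0 < cr u (dir w1) ∧ 0 < cr (dir w2) u ∧
      ∀ m, R ≤ nrm (γ m) → δ ≤ ‖dir (γ m) - dir w1‖ ∧ δ ≤ ‖dir (γ m) - dir w2‖ := by
  obtain ⟨a, ha⟩ : ∃ a : ℝ, a = ε / 16 := ⟨_, rfl⟩
  have ha0 : 0 < a := by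
    rw [ha]
    positivity
  obtain ⟨c, hc⟩ : ∃ c : ℝ, c = (1 - a ^ 2) / (1 + a ^ 2) := ⟨_, rfl⟩
  obtain ⟨s, hs⟩ : ∃ s : ℝ, s = 2 * a / (1 + a ^ 2) := ⟨_, rfl⟩
  have hs0 : 0 < s := by
    rw [hs]
    positivity
  have hcs : c ^ 2 + s ^ 2 = 1 := by
    rw [hc, hs]
    field_simp
    ring
  have hc1 : 1 - c ≤ 2 * a ^ 2 := by
    have e : 1 - c = 2 * a ^ 2 / (1 + a ^ 2) := by
      rw [hc]
      field_simp
      ring
    rw [e]
    exact div_le_self (by positivity) (by nlinarith)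
  have h1 : (c - 1) ^ 2 + s ^ 2 ≤ (ε / 2) ^ 2 := by
    have e : (c - 1) ^ 2 + s ^ 2 = 2 * (1 - c) := by linear_combination hcs
    rw [e]
    have h2 : ε = 16 * a := by
      rw [ha]
      ring
    rw [h2]
    nlinarith
  obtain ⟨w1, δ1, R1, a1, a2, a3, a4, a5⟩ := pts_one hnd hu hε hcs hs0.ne' h1
  obtain ⟨w2, δ2, R2, b1, b2, b3, b4, b5⟩ := pts_one hnd hu (c := c) (s := -s) hε
    (by rw [neg_sq]; exact hcs) (neg_ne_zero.2 hs0.ne') (by rw [neg_sq]; exact h1)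
  have c1 : 0 < cr u (dir w1) := (mul_pos_iff_of_pos_left hs0).1 a4
  have c2 : 0 < cr (dir w2) u := by
    have e : cr (dir w2) u = -cr u (dir w2) := by
      unfold cr
      ring
    rw [e]
    refine (mul_pos_iff_of_pos_left hs0).1 ?_
    linarith
  refine ⟨w1, w2, min δ1 δ2, max R1 R2, a1, b1, lt_min a2 b2, a3, b3, c1, c2, fun m hm => ?_⟩
  exact ⟨(min_le_left _ _).trans (a5 m ((le_max_left _ _).trans hm)),
    (min_le_right _ _).trans (b5 m ((le_max_right _ _).trans hm))⟩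
-- END pts

-- BEGIN stp
private theorem stp_sub (a x y : EuclideanSpace ℝ (Fin 2)) : cr a (x - y) = cr a x - cr a y := by
  simp only [cr, PiLp.sub_apply]
  ring

private theorem stp_swap (x y : EuclideanSpace ℝ (Fin 2)) : cr x y = -cr y x := by
  simp only [cr]
  ring

private theorem stp_inner {v x : EuclideanSpace ℝ (Fin 2)} (hv : ‖v‖ = 1) (hx : 0 < ‖x‖)
    (h : ‖(‖x‖⁻¹ • x) - v‖ ≤ 1) : 0 ≤ inner ℝ v x := by
  have h1 : ‖‖x‖⁻¹ • x‖ = 1 := by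
    rw [norm_smul, norm_inv, norm_norm, inv_mul_cancel₀ hx.ne']
  have h2 := norm_sub_sq_real (‖x‖⁻¹ • x) v
  rw [h1, hv, real_inner_smul_left, real_inner_comm] at h2
  have h3 : ‖(‖x‖⁻¹ • x) - v‖ ^ 2 ≤ 1 := by
    have := norm_nonneg ((‖x‖⁻¹ • x) - v)
    nlinarith
  have h4 : 0 ≤ ‖x‖⁻¹ * inner ℝ v x := by linarith
  exact nonneg_of_mul_nonneg_right h4 (by positivity)

private theorem stp_one {v x x' : EuclideanSpace ℝ (Fin 2)} (hv : ‖v‖ = 1) {δ : ℝ} (hδ : 0 < δ)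
    (hx : 2 / δ < ‖x‖) (hxx : ‖x' - x‖ ≤ 1) (hn : ‖(‖x‖⁻¹ • x) - v‖ ≤ 1)
    (hd : δ ≤ ‖(‖x‖⁻¹ • x) - v‖) (h1 : 0 < cr v x) : 0 < cr v x' := by
  by_contra hc
  push Not at hc
  have hx0 : 0 < ‖x‖ := lt_trans (by positivity) hx
  have h2 : |cr v (x - x')| ≤ 1 := by
    refine (abs_cr_le _ _).trans ?_
    rw [hv, one_mul, norm_sub_rev]
    exact hxx
  rw [stp_sub] at h2
  have h3 : cr v x ≤ 1 := by
    have := le_abs_self (cr v x - cr v x')
    linarith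
  have h4 : |cr v x| ≤ ‖x‖⁻¹ * ‖x‖ := by
    rw [inv_mul_cancel₀ hx0.ne', abs_of_pos h1]
    exact h3
  have h5 := cr_close hv hx0 h4 (stp_inner hv hx0 hn)
  have h6 : 2 * ‖x‖⁻¹ < δ := by
    rw [← div_eq_mul_inv, div_lt_iff₀ hx0]
    rw [div_lt_iff₀ hδ] at hx
    linarith
  linarith

/-- the ray cannot leave the sector: if `cr v2 x > 0` and `cr v2 x' ≤ 0`, `‖x' - x‖ ≤ 1`, then
`0 < cr v2 x ≤ 1` (`abs_cr_le`), so by `cr_close` and `sector_near` (`inner v2 x > 0`) the direction of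
`x` is within `2 / ‖x‖ < δ` of `v2` -/
theorem sector_step {u v1 v2 x x' : EuclideanSpace ℝ (Fin 2)} (hu : ‖u‖ = 1) (hv1 : ‖v1‖ = 1)
    (hv2 : ‖v2‖ = 1) {ε : ℝ} (hε1 : ε ≤ 1 / 16) (h1 : ‖v1 - u‖ ≤ ε)
    (h2 : ‖v2 - u‖ ≤ ε) (h3 : 0 < cr u v1) (h4 : 0 < cr v2 u) {δ : ℝ} (hδ : 0 < δ)
    (hx : 2 / δ < ‖x‖) (hxx : ‖x' - x‖ ≤ 1) (hx1 : 0 < cr x v1) (hx2 : 0 < cr v2 x)
    (hd1 : δ ≤ ‖(‖x‖⁻¹ • x) - v1‖) (hd2 : δ ≤ ‖(‖x‖⁻¹ • x) - v2‖) :
    0 < cr x' v1 ∧ 0 < cr v2 x' := by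
  have hx0 : 0 < ‖x‖ := lt_trans (by positivity) hx
  have h5 := sector_near hu hv1 hv2 (by linarith) h1 h2 h3 h4 hx0 hx1 hx2
  have key : ∀ v : EuclideanSpace ℝ (Fin 2), ‖v - u‖ ≤ ε → ‖(‖x‖⁻¹ • x) - v‖ ≤ 1 := by
    intro v h
    have e : (‖x‖⁻¹ • x) - v = ((‖x‖⁻¹ • x) - u) - (v - u) := by abel
    rw [e]
    refine (norm_sub_le _ _).trans ?_
    linarith
  refine ⟨?_, stp_one hv2 hδ hx hxx (key v2 h2) hd2 hx2⟩
  -- the reflection of the first case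
  by_contra hc
  push Not at hc
  rw [stp_swap] at hx1 hc
  have h2 : |cr v1 (x' - x)| ≤ 1 := by
    refine (abs_cr_le _ _).trans ?_
    rw [hv1, one_mul]
    exact hxx
  rw [stp_sub] at h2
  have h3 : -1 ≤ cr v1 x := by
    have := le_abs_self (cr v1 x' - cr v1 x)
    linarith
  have h4 : |cr v1 x| ≤ ‖x‖⁻¹ * ‖x‖ := by
    rw [inv_mul_cancel₀ hx0.ne', abs_le]
    constructor <;> linarith
  have h7 := cr_close hv1 hx0 h4 (stp_inner hv1 hx0 (key v1 h1))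
  have h6 : 2 * ‖x‖⁻¹ < δ := by
    rw [← div_eq_mul_inv, div_lt_iff₀ hx0]
    rw [div_lt_iff₀ hδ] at hx
    linarith
  linarith
-- END stp

-- BEGIN dr2
private theorem dr2_smul (c : ℝ) (x y : EuclideanSpace ℝ (Fin 2)) : cr (c • x) y = c * cr x y := by
  unfold cr
  simp only [PiLp.smul_apply, smul_eq_mul]
  ring

private theorem dr2_smul' (c : ℝ) (x y : EuclideanSpace ℝ (Fin 2)) : cr x (c • y) = c * cr x y := by
  unfold cr
  simp only [PiLp.smul_apply, smul_eq_mul]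
  ring

private theorem dr2_pos {x u v : EuclideanSpace ℝ (Fin 2)} (hv : ‖v‖ = 1)
    (h : ‖x - u‖ < cr u v) : 0 < cr x v := by
  have h1 := abs_cr_le (x - u) v
  rw [hv, mul_one] at h1
  have h2 : cr x v = cr u v + cr (x - u) v := by
    unfold cr
    simp only [PiLp.sub_apply]
    ring
  have h3 := neg_abs_le (cr (x - u) v)
  linarith

private theorem dr2_pos' {x u v : EuclideanSpace ℝ (Fin 2)} (hv : ‖v‖ = 1)
    (h : ‖x - u‖ < cr v u) : 0 < cr v x := by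
  have h1 := abs_cr_le v (x - u)
  rw [hv, one_mul] at h1
  have h2 : cr v x = cr v u + cr v (x - u) := by
    unfold cr
    simp only [PiLp.sub_apply]
    ring
  have h3 := neg_abs_le (cr v (x - u))
  linarith

private theorem dr2_norm {z : V 2} (hz : 0 < nrm z) : ‖dir z‖ = 1 := by
  unfold dir
  rw [norm_smul, norm_inv, Real.norm_of_nonneg hz.le, ← nrm_eq, inv_mul_cancel₀ hz.ne']

private theorem dr2_toE {z : V 2} (hz : 0 < nrm z) : toE z = nrm z • dir z := by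
  unfold dir
  rw [smul_smul, mul_inv_cancel₀ hz.ne', one_smul]

private theorem dr2_dir (z : V 2) : ‖toE z‖⁻¹ • toE z = dir z := by
  unfold dir
  rw [nrm_eq]

private theorem dr2_ne {w : V 2} (hw : w ≠ 0) : 0 < nrm w := by
  rw [nrm_eq, norm_pos_iff]
  intro h
  refine hw (funext fun j => ?_)
  have h1 : toE w j = (0 : EuclideanSpace ℝ (Fin 2)) j := by rw [h]
  rw [toE_apply] at h1
  have h2 : (w j : ℝ) = 0 := h1
  exact_mod_cast h2

/-- convergence in the plane: a limit point `u` of the directions (compactness of the sphere), then for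
each `ε`: `two_caps`, the ray enters the sector at a large radius (`cr` is continuous) and never
leaves it (`sector_step`, induction), `sector_near` -/
theorem ray_dir2 {γ : ℕ → V 2} (hlim : Tendsto (fun n => nrm (γ n)) atTop atTop)
    (hst : ∀ n, nrm (γ (n + 1) - γ n) ≤ 1)
    (hnd : ∀ z0 : V 2, z0 ≠ 0 → ∀ ρ : ℝ, 0 < ρ → ∃ (w : V 2) (δ R : ℝ), w ≠ 0 ∧ 0 < δ ∧
      ‖dir w - dir z0‖ < ρ ∧ ∀ m, R ≤ nrm (γ m) → δ ≤ ‖dir (γ m) - dir w‖) :
    ∃ u : EuclideanSpace ℝ (Fin 2), Tendsto (fun m => dir (γ m)) atTop (nhds u) := by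
  have hev : ∀ C : ℝ, ∃ M : ℕ, ∀ m ≥ M, C < nrm (γ m) := fun C =>
    Filter.eventually_atTop.1 (hlim.eventually_gt_atTop C)
  obtain ⟨M1, hM1⟩ := hev 0
  have hin : ∀ n, dir (γ (n + M1)) ∈ Metric.closedBall (0 : EuclideanSpace ℝ (Fin 2)) 1 := by
    intro n
    rw [mem_closedBall_zero_iff, dr2_norm (hM1 _ (by omega))]
  obtain ⟨u, -, φ, hφ, hu⟩ := (isCompact_closedBall (0 : EuclideanSpace ℝ (Fin 2)) 1).tendsto_subseq hin
  have hu1 : ‖u‖ = 1 := by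
    refine tendsto_nhds_unique hu.norm (tendsto_const_nhds.congr fun n => ?_)
    exact (dr2_norm (hM1 _ (by omega))).symm
  refine ⟨u, Metric.tendsto_atTop.2 fun e he => ?_⟩
  obtain ⟨ε, hε, hε1, hε2⟩ : ∃ ε : ℝ, 0 < ε ∧ ε ≤ 1 / 16 ∧ 4 * ε < e := by
    refine ⟨min (1 / 16) (e / 8), lt_min (by norm_num) (by linarith), min_le_left _ _, ?_⟩
    have := min_le_right (1 / 16 : ℝ) (e / 8)
    linarith
  obtain ⟨w1, w2, δ, R, hw1, hw2, hδ, g1, g2, g3, g4, hR⟩ := two_caps hnd hu1 hε (by linarith)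
  have hv1 : ‖dir w1‖ = 1 := dr2_norm (dr2_ne hw1)
  have hv2 : ‖dir w2‖ = 1 := dr2_norm (dr2_ne hw2)
  obtain ⟨M2, hM2⟩ := hev (max 0 (max R (2 / δ)))
  obtain ⟨η, hη, hη1, hη2⟩ : ∃ η : ℝ, 0 < η ∧ η ≤ cr u (dir w1) ∧ η ≤ cr (dir w2) u :=
    ⟨min (cr u (dir w1)) (cr (dir w2) u), lt_min g3 g4, min_le_left _ _, min_le_right _ _⟩
  obtain ⟨N, hN⟩ := Metric.tendsto_atTop.1 hu η hη
  obtain ⟨m0, hm0, hd0⟩ : ∃ m0 ≥ M2, ‖dir (γ m0) - u‖ < η := by
    refine ⟨φ (max N M2) + M1, ?_, ?_⟩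
    · have h1 := hφ.id_le (max N M2)
      have h2 := le_max_right N M2
      have h3 : max N M2 ≤ φ (max N M2) := h1
      omega
    · have h1 := hN (max N M2) (le_max_left _ _)
      rw [dist_eq_norm] at h1
      exact h1
  have hbig : ∀ m ≥ M2, 0 < nrm (γ m) ∧ R ≤ nrm (γ m) ∧ 2 / δ < nrm (γ m) := fun m hm => by
    have h1 := hM2 m hm
    exact ⟨(le_max_left _ _).trans_lt h1,
      ((le_max_left _ _).trans ((le_max_right _ _).trans h1.le)),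
      ((le_max_right _ _).trans (le_max_right _ _)).trans_lt h1⟩
  have hsec : ∀ k, 0 < cr (toE (γ (m0 + k))) (dir w1) ∧ 0 < cr (dir w2) (toE (γ (m0 + k))) := by
    intro k
    induction k with
    | zero =>
      have h0 := (hbig m0 hm0).1
      rw [Nat.add_zero, dr2_toE h0, dr2_smul, dr2_smul']
      exact ⟨mul_pos h0 (dr2_pos hv1 (hd0.trans_le hη1)),
        mul_pos h0 (dr2_pos' hv2 (hd0.trans_le hη2))⟩
    | succ k ih =>
      obtain ⟨b1, b2, b3⟩ := hbig (m0 + k) (by omega)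
      have h2 := hR (m0 + k) b2
      refine sector_step hu1 hv1 hv2 hε1 g1 g2 g3 g4 hδ (x := toE (γ (m0 + k))) ?_ ?_ ih.1 ih.2 ?_ ?_
      · rw [← nrm_eq]
        exact b3
      · rw [← toE_sub, ← nrm_eq]
        exact hst (m0 + k)
      · rw [dr2_dir]
        exact h2.1
      · rw [dr2_dir]
        exact h2.2
  refine ⟨m0, fun m hm => ?_⟩
  obtain ⟨k, rfl⟩ := Nat.exists_eq_add_of_le hm
  have h1 := sector_near hu1 hv1 hv2 (by linarith) g1 g2 g3 g4 (x := toE (γ (m0 + k)))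
    (by rw [← nrm_eq]; exact (hbig (m0 + k) (by omega)).1) (hsec k).1 (hsec k).2
  rw [dr2_dir] at h1
  rw [dist_eq_norm]
  linarith
-- END dr2

variable {d : ℕ}

/-- the limit directions of the ray are nowhere dense -/
def NowDense (s : ℕ → Edge d) : Prop :=
  ∀ (z0 : V d) (k : ℕ), z0 ≠ 0 → ∃ (w : V d) (l R : ℕ), w ≠ 0 ∧
    ‖dir w - dir z0‖ < 1 / ((k : ℝ) + 1) ∧
    ∀ z : V d, (Desc s z).Infinite → (R : ℝ) ≤ nrm z → 1 / ((l : ℝ) + 1) ≤ ‖dir z - dir w‖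

/-- the directions of the ray converge (Cauchy) -/
def Conv (s : ℕ → Edge d) : Prop :=
  ∀ k : ℕ, ∃ R : ℕ, ∀ z z' : V d, (Desc s z).Infinite → (Desc s z').Infinite →
    (R : ℝ) ≤ nrm z → (R : ℝ) ≤ nrm z' → ‖dir z - dir z'‖ ≤ 1 / ((k : ℝ) + 1)

-- BEGIN mnd
private theorem mnd_desc (z : V d) :
    MeasurableSet {s : ℕ → Edge d | (Desc s z).Infinite} := by
  refine UNIQAux.meas_inf (fun s : ℕ → Edge d => Desc s z) fun v => ?_
  exact measurableSet_rtg (fun (s : ℕ → Edge d) x y => Infects s x y)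
    (fun x y => measurableSet_infects x y) z v

/-- as `measurableSet_critical` (OneR/Crit) -/
theorem measurableSet_nowDense : MeasurableSet {s : ℕ → Edge d | NowDense s} := by
  have hset : {s : ℕ → Edge d | NowDense s} = ⋂ z0 : V d, ⋂ k : ℕ,
      ({_s : ℕ → Edge d | z0 ≠ 0}ᶜ ∪ ⋃ w : V d, ⋃ l : ℕ, ⋃ R : ℕ,
        ({_s : ℕ → Edge d | w ≠ 0 ∧ ‖dir w - dir z0‖ < 1 / ((k : ℝ) + 1)} ∩
          ⋂ z : V d, ({s : ℕ → Edge d | (Desc s z).Infinite}ᶜ ∪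
            {_s : ℕ → Edge d | (R : ℝ) ≤ nrm z →
              1 / ((l : ℝ) + 1) ≤ ‖dir z - dir w‖}))) := by
    ext s
    simp only [NowDense, Set.mem_ofPred_eq, Set.mem_iUnion, Set.mem_iInter, Set.mem_union,
      Set.mem_compl_iff, Set.mem_inter_iff]
    refine forall_congr' fun z0 => forall_congr' fun k => ?_
    rw [← imp_iff_not_or]
    refine imp_congr_right fun _ => exists_congr fun w => exists_congr fun l =>
      exists_congr fun R => ?_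
    rw [and_assoc]
    refine and_congr_right fun _ => and_congr_right fun _ => forall_congr' fun z => ?_
    rw [← imp_iff_not_or]
  rw [hset]
  exact MeasurableSet.iInter fun z0 => MeasurableSet.iInter fun k =>
    (MeasurableSet.const _).compl.union (MeasurableSet.iUnion fun w => MeasurableSet.iUnion fun l =>
      MeasurableSet.iUnion fun R => (MeasurableSet.const _).inter (MeasurableSet.iInter fun z =>
        (mnd_desc z).compl.union (MeasurableSet.const _)))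

/-- as `measurableSet_critical` (OneR/Crit) -/
theorem measurableSet_conv : MeasurableSet {s : ℕ → Edge d | Conv s} := by
  have hset : {s : ℕ → Edge d | Conv s} = ⋂ k : ℕ, ⋃ R : ℕ, ⋂ z : V d,
      ⋂ z' : V d, ({s : ℕ → Edge d | (Desc s z).Infinite}ᶜ ∪
        ({s : ℕ → Edge d | (Desc s z').Infinite}ᶜ ∪
        {_s : ℕ → Edge d | (R : ℝ) ≤ nrm z → (R : ℝ) ≤ nrm z' →
          ‖dir z - dir z'‖ ≤ 1 / ((k : ℝ) + 1)})) := by
    ext s
    simp only [Conv, Set.mem_ofPred_eq, Set.mem_iUnion, Set.mem_iInter, Set.mem_union,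
      Set.mem_compl_iff]
    refine forall_congr' fun k => exists_congr fun R =>
      forall_congr' fun z => forall_congr' fun z' => ?_
    rw [← imp_iff_not_or, ← imp_iff_not_or]
  rw [hset]
  exact MeasurableSet.iInter fun k => MeasurableSet.iUnion fun R =>
    MeasurableSet.iInter fun z => MeasurableSet.iInter fun z' =>
      (mnd_desc z).compl.union ((mnd_desc z').compl.union (MeasurableSet.const _))
-- END mnd

-- BEGIN and
/-- as `critical_ae` (OneR/Crit), with `ray_nd` in place of `ray_crit`; `eta d < 1` -/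
theorem nowDense_ae (hd : 2 ≤ d) {α : ℝ} (hα : 1 < α) : ∀ᵐ E ∂(PE d), ∀ s : ℕ → Edge d,
    (∀ n, G (tau α E) (lst s n)) → NowDense s := by
  have i0 : Fin d := ⟨0, by omega⟩
  obtain ⟨a, C, hh⟩ := hf_hm d
  have he0 : 0 < eta d := by
    unfold eta
    positivity
  have he1 : eta d < 1 := by
    unfold eta
    rw [div_lt_one (by positivity)]
    have h : (0 : ℝ) ≤ (d : ℝ) := Nat.cast_nonneg d
    linarith
  obtain ⟨K, R1, hK, hub⟩ := ub_S hh he0 he1.le hα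
  filter_upwards [conc d, ae_pos, explodes_ae i0 hα, via_or_avoid (d := d) α]
    with E hconc hpos hex hva s hG
  obtain ⟨R0, hCC⟩ := hconc
  have hτ : ∀ f, 0 < tau α E f := fun f =>
    div_pos (hpos f) (Real.rpow_pos_of_pos (mid_pos f) α)
  have hE : ∀ e, 0 ≤ E e := fun e => (hpos e).le
  have hd' : ∀ (m : ℕ) (z : V d), z ∈ ends (s m) → z ∉ vs (lst s m) →
      (Desc s z).Finite ∨ (Reached s \ Desc s z).Finite :=
    fun m z h1 h2 => desc_or i0 hτ hex hG (hva hex) h1 h2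
  obtain ⟨γ, st, h0, h1, h2, h3⟩ := exists_ray hG hd'
  obtain ⟨W, w1, w2, w3, w4, w5⟩ := ray_times i0 hτ hex hG h0 h1 h2
  have hray : InfRay (hm (d := d)) (eta d) α K E γ st W := by
    refine ⟨h1, w1, w2, w3, w5, ?_⟩
    filter_upwards [w5.eventually_ge_atTop (max R1 R0)] with n hn
    exact hub E R0 hE hCC (γ n) (W n) ((le_max_left _ _).trans hn) ((le_max_right _ _).trans hn)
      (w4 n)
  intro z0 k hz0
  have hk : (0 : ℝ) < 1 / ((k : ℝ) + 1) := Nat.one_div_pos_of_nat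
  obtain ⟨w, δ, R, hw, hδ, h4, h5⟩ := ray_nd hd hh he0 he1 hα hK hE hCC hray hz0 hk
  obtain ⟨l, hl⟩ := exists_nat_one_div_lt hδ
  refine ⟨w, l, ⌈R⌉₊, hw, h4, fun z hz hRz => ?_⟩
  obtain ⟨m, rfl⟩ := h3 z hz
  exact hl.le.trans (h5 m ((Nat.le_ceil R).trans hRz))
-- END and

-- BEGIN acv
/-- as `critical_ae` (OneR/Crit), with `ray_nd`, `ray_dir2` (`γ (n+1) = γ n + vec (st n)`, `nrm_vec`) -/
theorem conv_ae {α : ℝ} (hα : 1 < α) : ∀ᵐ E ∂(PE 2), ∀ s : ℕ → Edge 2,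
    (∀ n, G (tau α E) (lst s n)) → Conv s := by
  have i0 : Fin 2 := 0
  obtain ⟨a, C, hh⟩ := hf_hm 2
  have he0 : 0 < eta 2 := by
    unfold eta
    positivity
  have he1 : eta 2 < 1 := by
    unfold eta
    norm_num
  obtain ⟨K, R1, hK, hub⟩ := ub_S hh he0 he1.le hα
  filter_upwards [conc 2, ae_pos, explodes_ae i0 hα, via_or_avoid (d := 2) α]
    with E hconc hpos hex hva s hG
  obtain ⟨R0, hCC⟩ := hconc
  have hτ : ∀ f, 0 < tau α E f := fun f =>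
    div_pos (hpos f) (Real.rpow_pos_of_pos (mid_pos f) α)
  have hE : ∀ e, 0 ≤ E e := fun e => (hpos e).le
  have hd' : ∀ (m : ℕ) (z : V 2), z ∈ ends (s m) → z ∉ vs (lst s m) →
      (Desc s z).Finite ∨ (Reached s \ Desc s z).Finite :=
    fun m z h1 h2 => desc_or i0 hτ hex hG (hva hex) h1 h2
  obtain ⟨γ, st, h0, h1, h2, h3⟩ := exists_ray hG hd'
  obtain ⟨W, w1, w2, w3, w4, w5⟩ := ray_times i0 hτ hex hG h0 h1 h2
  have hray : InfRay (hm (d := 2)) (eta 2) α K E γ st W := by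
    refine ⟨h1, w1, w2, w3, w5, ?_⟩
    filter_upwards [w5.eventually_ge_atTop (max R1 R0)] with n hn
    exact hub E R0 hE hCC (γ n) (W n) ((le_max_left _ _).trans hn) ((le_max_right _ _).trans hn)
      (w4 n)
  have hst : ∀ n, nrm (γ (n + 1) - γ n) ≤ 1 := fun n => by
    rw [h1 n, add_sub_cancel_left, nrm_vec]
  obtain ⟨u, hu⟩ := ray_dir2 w5 hst
    (fun z0 hz0 ρ hρ => ray_nd le_rfl hh he0 he1 hα hK hE hCC hray hz0 hρ)
  intro k
  have hk : (0 : ℝ) < 1 / ((k : ℝ) + 1) := Nat.one_div_pos_of_nat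
  have hev : ∀ᶠ m in atTop, ‖dir (γ m) - u‖ < 1 / ((k : ℝ) + 1) / 2 := by
    have h5 := (tendsto_iff_norm_sub_tendsto_zero.1 hu).eventually_lt_const (half_pos hk)
    exact h5
  obtain ⟨m0, hm0⟩ := eventually_atTop.1 hev
  have hsum : ∀ m, m < m0 → nrm (γ m) ≤ ∑ i ∈ range m0, nrm (γ i) := fun m hm =>
    Finset.single_le_sum (f := fun i => nrm (γ i)) (fun j _ => nrm_nonneg _) (Finset.mem_range.2 hm)
  have hidx : ∀ m, 1 + ∑ i ∈ range m0, nrm (γ i) ≤ nrm (γ m) → m0 ≤ m := by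
    intro m hm
    by_contra h4
    have h5 := hsum m (not_le.1 h4)
    linarith
  refine ⟨⌈1 + ∑ i ∈ range m0, nrm (γ i)⌉₊, fun z z' hz hz' hRz hRz' => ?_⟩
  obtain ⟨m, rfl⟩ := h3 z hz
  obtain ⟨m', rfl⟩ := h3 z' hz'
  have g1 := hm0 m (hidx m ((Nat.le_ceil _).trans hRz))
  have g2 := hm0 m' (hidx m' ((Nat.le_ceil _).trans hRz'))
  have g3 : dir (γ m) - dir (γ m') = (dir (γ m) - u) - (dir (γ m') - u) := by abel
  rw [g3]
  refine (norm_sub_le _ _).trans ?_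
  linarith
-- END acv

-- BEGIN uni
private theorem uni_nrm {z : V d} (hz : 0 < nrm z) (u : EuclideanSpace ℝ (Fin d)) :
    ‖toE z - nrm z • u‖ = ‖dir z - u‖ * nrm z := by
  have h1 : toE z = nrm z • dir z := by
    unfold dir
    rw [smul_smul, mul_inv_cancel₀ hz.ne', one_smul]
  rw [h1, ← smul_sub, norm_smul, Real.norm_of_nonneg hz.le, mul_comm]

private theorem uni_dir {z : V d} (hz : 0 < nrm z) : ‖dir z‖ = 1 := by
  unfold dir
  rw [norm_smul, norm_inv, Real.norm_of_nonneg hz.le, ← nrm_eq, inv_mul_cancel₀ hz.ne']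

/-- the limit: as `crit_value` (OneR/Val); if there are no ray sites of large norm take any unit
vector `u` -/
theorem conv_dir (i0 : Fin d) {s : ℕ → Edge d} (hs : Conv s) :
    ∃ u : EuclideanSpace ℝ (Fin d), ‖u‖ = 1 ∧ ∀ ε : ℝ, 0 < ε → ∃ R : ℝ, ∀ z : V d,
      (Desc s z).Infinite → R ≤ nrm z → ‖toE z - nrm z • u‖ ≤ ε * nrm z := by
  by_cases hcase : ∀ n : ℕ, ∃ z : V d, (Desc s z).Infinite ∧ (n : ℝ) ≤ nrm z
  · choose zz hz1 hz2 using hcase
    have hcau : CauchySeq fun n => dir (zz n) := by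
      rw [Metric.cauchySeq_iff']
      intro ε hε
      obtain ⟨k, hk⟩ := exists_nat_one_div_lt hε
      obtain ⟨R, hR⟩ := hs k
      refine ⟨R, fun n hn => ?_⟩
      rw [dist_eq_norm]
      exact lt_of_le_of_lt (hR _ _ (hz1 n) (hz1 R) ((Nat.cast_le.2 hn).trans (hz2 n)) (hz2 R)) hk
    obtain ⟨u, hu⟩ := cauchySeq_tendsto_of_complete hcau
    refine ⟨u, ?_, fun ε hε => ?_⟩
    · refine tendsto_nhds_unique hu.norm (tendsto_const_nhds.congr' ?_)
      filter_upwards [eventually_ge_atTop 1] with n hn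
      have h2 : (1 : ℝ) ≤ n := by exact_mod_cast hn
      exact (uni_dir (by linarith [hz2 n])).symm
    · obtain ⟨k, hk⟩ := exists_nat_one_div_lt hε
      obtain ⟨R, hR⟩ := hs k
      refine ⟨max 1 R, fun z hz hRz => ?_⟩
      have hz0 : 0 < nrm z := lt_of_lt_of_le one_pos ((le_max_left _ _).trans hRz)
      rw [uni_nrm hz0]
      refine mul_le_mul_of_nonneg_right ?_ hz0.le
      have h1 : Tendsto (fun n => ‖dir z - dir (zz n)‖) atTop (nhds ‖dir z - u‖) :=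
        (tendsto_const_nhds.sub hu).norm
      refine (le_of_tendsto h1 ?_).trans hk.le
      filter_upwards [eventually_ge_atTop R] with n hn
      exact hR _ _ hz (hz1 n) ((le_max_right _ _).trans hRz) ((Nat.cast_le.2 hn).trans (hz2 n))
  · push Not at hcase
    obtain ⟨n, hn⟩ := hcase
    exact ⟨EuclideanSpace.single i0 1, by simp, fun ε _ =>
      ⟨n, fun z hz hRz => absurd hRz (not_le.2 (hn z hz))⟩⟩
-- END uni

end OneR
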