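import Pool.Agent.OneR.Ana

/-!
Problem MP_b9fb85_pr: all the infection paths are uniformly straight. Analysis of the finite sequence
of points `y i`, `i ≤ L`, of a path at distances about `|y i| ^ (1 - θ)`. The proofs are those of
`Ana.lean` with `De ^ 2` replaced by `Ep = De ^ 2 + De * Om`.
-/

set_option autoImplicit false

namespace OneR

open Finset

/-- the part of the energy which comes from the constant `ω` -/
noncomputable def Om {d : ℕ} (y : ℕ → EuclideanSpace ℝ (Fin d)) (α ω : ℝ) (i : ℕ) : ℝ :=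
  ω * ‖y i‖ ^ (α - 1)

/-- the error of one step -/
noncomputable def Ep {d : ℕ} (y : ℕ → EuclideanSpace ℝ (Fin d)) (α θ ω : ℝ) (i : ℕ) : ℝ :=
  De y θ i ^ 2 + De y θ i * Om y α ω i

/-- the dissipation of one step -/
noncomputable def FB {d : ℕ} (y : ℕ → EuclideanSpace ℝ (Fin d)) (W : ℕ → ℝ) (K1 α θ ω : ℝ) (i : ℕ) :
    ℝ :=
  (En y W α i - En y W α (i + 1) + K1 * Ep y α θ ω i) + Ep y α θ ω i

/-- the data of a finite path: points `y i`, remaining times `W i` (plus `ω`), costs `H i` -/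
structure FS {d : ℕ} (y : ℕ → EuclideanSpace ℝ (Fin d)) (W H : ℕ → ℝ) (L : ℕ)
    (a b K K1 M α θ ω g : ℝ) : Prop where
  hα : 1 < α
  hθ : 0 < θ
  hθ1 : θ ≤ 1 / 8
  ha : 0 < a
  hb : 0 < b
  hK : 0 < K
  hK1 : 0 < K1
  hM : 0 < M
  hω : 0 < ω
  hg : 0 < g
  one : ∀ i, i ≤ L → 1 ≤ ‖y i‖
  small : ∀ i, i ≤ L → ‖y i‖ ^ (-θ) ≤ 1 / 32
  stp : ∀ i, i < L → ‖y (i + 1) - y i‖ ≤ 3 / 2 * ‖y i‖ ^ (-θ) * ‖y i‖
  leW : ∀ i, i ≤ L → ω ≤ W i
  upW : ∀ i, i ≤ L → ‖y i‖ ^ (α - 1) * W i ≤ M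
  low : ∀ i, i ≤ L → g ≤ ‖y i‖ ^ (α - 1) * W i
  decW : ∀ i, i < L → a / 2 * ‖y i‖ ^ (-θ) * ‖y i‖ ^ (1 - α) ≤ W i - W (i + 1)
  H0 : ∀ i, i < L → 0 ≤ H i
  Hb : ∀ i, i < L → H i ≤ b * ‖y (i + 1) - y i‖
  hB : ∀ i, i < L → H i / ‖y i‖ - (α - 1) * (inner ℝ (y (i + 1) - y i) (y i) / ‖y i‖ / ‖y i‖) *
      (‖y i‖ ^ (α - 1) * W i) - K1 * Ep y α θ ω i ≤
      ‖y i‖ ^ (α - 1) * W i - ‖y (i + 1)‖ ^ (α - 1) * W (i + 1)
  hF : ∀ i, i < L → -K1 * Ep y α θ ω i ≤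
      ‖y i‖ ^ (α - 1) * W i - ‖y (i + 1)‖ ^ (α - 1) * W (i + 1)
  hD : ∀ i q, i < L → q ≤ L → ‖y (i + 1) - y i‖ ≤ 2 * (‖y q‖ ^ (-θ) * ‖y q‖) →
      (‖y q‖ ^ (-θ)) ^ 2 * ‖y q‖ / 2 ≤ inner ℝ (y (i + 1) - y i) (y q) / ‖y q‖ →
      W q - ω ≤ (1 + K * ‖y q‖ ^ (-θ)) *
        (H i / ((α - 1) * (inner ℝ (y (i + 1) - y i) (y q) / ‖y q‖))) * ‖y q‖ ^ (1 - α)

section fs

variable {d : ℕ} {y : ℕ → EuclideanSpace ℝ (Fin d)} {W H : ℕ → ℝ} {L : ℕ}
  {a b K K1 M α θ ω g : ℝ}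

-- BEGIN frad
/-- comparison of the radii in a short piece: proof of `DS.rad` -/
theorem FS.rad (h : FS y W H L a b K K1 M α θ ω g) {p q : ℕ} (hpq : p ≤ q) (hq : q ≤ L)
    (hs : ∑ i ∈ Ico p q, De y θ i ≤ 1 / 16) :
    ‖y p‖ ≤ 5 / 4 * ‖y q‖ ∧ ‖y q‖ ≤ 5 / 4 * ‖y p‖ ∧ De y θ q ≤ 2 * De y θ p := by
  have hD0 : ∀ i, 0 ≤ De y θ i := fun i => Real.rpow_nonneg (norm_nonneg _) _
  have hD1 : ∀ i, i ≤ L → De y θ i ≤ 1 / 32 := fun i hi => h.small i hi
  have key : ∀ q, p ≤ q → q ≤ L →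
      ‖y q‖ ≤ Real.exp (3 * ∑ i ∈ Ico p q, De y θ i) * ‖y p‖ ∧
      ‖y p‖ ≤ Real.exp (3 * ∑ i ∈ Ico p q, De y θ i) * ‖y q‖ := by
    intro q hpq1
    induction q, hpq1 using Nat.le_induction with
    | base => intro _; simp
    | succ q hpq1 ih =>
      intro hqL
      obtain ⟨i1, i2⟩ := ih (by omega)
      have d0 := hD0 q
      have d1 := hD1 q (by omega)
      have hst : ‖y (q + 1) - y q‖ ≤ 3 / 2 * De y θ q * ‖y q‖ := h.stp q (by omega)
      have hn : 0 ≤ ‖y q‖ := norm_nonneg _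
      have hx : 1 + 3 * De y θ q ≤ Real.exp (3 * De y θ q) := by
        have := Real.add_one_le_exp (3 * De y θ q)
        linarith
      have t1 : ‖y (q + 1)‖ ≤ ‖y q‖ + ‖y (q + 1) - y q‖ := by
        have := norm_add_le (y q) (y (q + 1) - y q)
        rwa [add_sub_cancel] at this
      have t2 : ‖y q‖ ≤ ‖y (q + 1)‖ + ‖y (q + 1) - y q‖ := by
        have := norm_sub_le (y (q + 1)) (y (q + 1) - y q)
        rwa [sub_sub_cancel] at this
      have s1 : ‖y (q + 1)‖ ≤ Real.exp (3 * De y θ q) * ‖y q‖ := by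
        have b1 : (1 + 3 * De y θ q) * ‖y q‖ ≤ Real.exp (3 * De y θ q) * ‖y q‖ :=
          mul_le_mul_of_nonneg_right hx hn
        have b2 : 0 ≤ De y θ q * ‖y q‖ := mul_nonneg d0 hn
        nlinarith
      have s2 : ‖y q‖ ≤ Real.exp (3 * De y θ q) * ‖y (q + 1)‖ := by
        have c1 : (1 - 3 / 2 * De y θ q) * ‖y q‖ ≤ ‖y (q + 1)‖ := by linarith
        have c2 : Real.exp (3 * De y θ q) * ((1 - 3 / 2 * De y θ q) * ‖y q‖) ≤
            Real.exp (3 * De y θ q) * ‖y (q + 1)‖ :=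
          mul_le_mul_of_nonneg_left c1 (Real.exp_pos _).le
        have c3 : (1 + 3 * De y θ q) * (1 - 3 / 2 * De y θ q) ≤
            Real.exp (3 * De y θ q) * (1 - 3 / 2 * De y θ q) :=
          mul_le_mul_of_nonneg_right hx (by linarith)
        have c4 : (1 : ℝ) ≤ (1 + 3 * De y θ q) * (1 - 3 / 2 * De y θ q) := by nlinarith
        have c5 : ‖y q‖ ≤ (Real.exp (3 * De y θ q) * (1 - 3 / 2 * De y θ q)) * ‖y q‖ := by
          have := mul_le_mul_of_nonneg_right (c4.trans c3) hn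
          linarith
        calc ‖y q‖ ≤ (Real.exp (3 * De y θ q) * (1 - 3 / 2 * De y θ q)) * ‖y q‖ := c5
          _ = Real.exp (3 * De y θ q) * ((1 - 3 / 2 * De y θ q) * ‖y q‖) := by ring
          _ ≤ _ := c2
      rw [Finset.sum_Ico_succ_top hpq1, mul_add, Real.exp_add]
      constructor
      · calc ‖y (q + 1)‖ ≤ Real.exp (3 * De y θ q) * ‖y q‖ := s1
          _ ≤ Real.exp (3 * De y θ q) *
              (Real.exp (3 * ∑ i ∈ Ico p q, De y θ i) * ‖y p‖) :=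
              mul_le_mul_of_nonneg_left i1 (Real.exp_pos _).le
          _ = _ := by ring
      · calc ‖y p‖ ≤ Real.exp (3 * ∑ i ∈ Ico p q, De y θ i) * ‖y q‖ := i2
          _ ≤ Real.exp (3 * ∑ i ∈ Ico p q, De y θ i) *
              (Real.exp (3 * De y θ q) * ‖y (q + 1)‖) :=
              mul_le_mul_of_nonneg_left s2 (Real.exp_pos _).le
          _ = _ := by ring
  obtain ⟨k1, k2⟩ := key q hpq hq
  have hE : Real.exp (3 * ∑ i ∈ Ico p q, De y θ i) ≤ 5 / 4 := by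
    have e1 : Real.exp (3 * ∑ i ∈ Ico p q, De y θ i) ≤ Real.exp (3 / 16) :=
      Real.exp_le_exp.2 (by linarith)
    have e2 := Real.exp_bound_div_one_sub_of_interval (x := 3 / 16) (by norm_num) (by norm_num)
    have e3 : (1 : ℝ) / (1 - 3 / 16) ≤ 5 / 4 := by norm_num
    linarith
  have r1 : ‖y p‖ ≤ 5 / 4 * ‖y q‖ :=
    k2.trans (mul_le_mul_of_nonneg_right hE (norm_nonneg _))
  have r2 : ‖y q‖ ≤ 5 / 4 * ‖y p‖ :=
    k1.trans (mul_le_mul_of_nonneg_right hE (norm_nonneg _))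
  refine ⟨r1, r2, ?_⟩
  have hp0 : 0 < ‖y p‖ := lt_of_lt_of_le one_pos (h.one p (by omega))
  have hθ := h.hθ
  have hθ1 := h.hθ1
  have u1 : ‖y q‖ ^ (-θ) ≤ (4 / 5 * ‖y p‖) ^ (-θ) :=
    Real.rpow_le_rpow_of_nonpos (by positivity) (by linarith) (by linarith)
  have u2 : (4 / 5 * ‖y p‖) ^ (-θ) = (4 / 5 : ℝ) ^ (-θ) * ‖y p‖ ^ (-θ) :=
    Real.mul_rpow (by norm_num) hp0.le
  have u3 : (4 / 5 : ℝ) ^ (-θ) ≤ (4 / 5 : ℝ) ^ (-1 : ℝ) :=
    Real.rpow_le_rpow_of_exponent_ge (by norm_num) (by norm_num) (by linarith)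
  have u4 : (4 / 5 : ℝ) ^ (-1 : ℝ) ≤ 2 := by
    rw [Real.rpow_neg_one]
    norm_num
  have u5 : 0 ≤ ‖y p‖ ^ (-θ) := Real.rpow_nonneg (norm_nonneg _) _
  have : (4 / 5 : ℝ) ^ (-θ) * ‖y p‖ ^ (-θ) ≤ 2 * ‖y p‖ ^ (-θ) :=
    mul_le_mul_of_nonneg_right (u3.trans u4) u5
  show ‖y q‖ ^ (-θ) ≤ 2 * ‖y p‖ ^ (-θ)
  linarith
-- END frad

-- BEGIN fubq
/-- the upper bound at a later point of a short piece, for the step `i`: proof of `DS.ubq`; in the
first case `(α-1) pr ‖y q‖ ^ (α-1) W q ≤ (1 + K De q) H i + (α-1) pr Om q` and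
`pr ≤ ‖y (i+1) - y i‖ ≤ 3/2 De i ‖y i‖` -/
theorem FS.ubq (h : FS y W H L a b K K1 M α θ ω g) {i q : ℕ} (hiq : i < q) (hq : q ≤ L)
    (hs : ∑ j ∈ Ico i q, De y θ j ≤ 1 / 16) :
    (α - 1) * En y W α q * (inner ℝ (y (i + 1) - y i) (y q) / ‖y q‖) ≤
      (1 + K * De y θ q) * H i + (α - 1) * M * (De y θ q ^ 2 * ‖y q‖ / 2) +
        (α - 1) * Om y α ω q * (3 / 2 * De y θ i * ‖y i‖) := by
  obtain ⟨h1, -, -⟩ := h.rad hiq.le hq hs
  have hiL : i < L := lt_of_lt_of_le hiq hq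
  have hr1 : 1 ≤ ‖y q‖ := h.one q hq
  have hr : 0 < ‖y q‖ := lt_of_lt_of_le one_pos hr1
  have hi : 0 < ‖y i‖ := lt_of_lt_of_le one_pos (h.one i hiL.le)
  have hα : 0 < α - 1 := sub_pos.mpr h.hα
  have hK := h.hK
  have hθ := h.hθ
  have hθ1 := h.hθ1
  have hD0 : 0 < De y θ q := Real.rpow_pos_of_pos hr _
  have hE0 : 0 < En y W α q := lt_of_lt_of_le h.hg (h.low q hq)
  have hEM : En y W α q ≤ M := h.upW q hq
  have hH : 0 ≤ H i := h.H0 i hiL
  have hO0 : 0 ≤ Om y α ω q := mul_nonneg h.hω.le (Real.rpow_nonneg hr.le _)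
  have hDi0 : 0 ≤ De y θ i := Real.rpow_nonneg hi.le _
  set p := inner ℝ (y (i + 1) - y i) (y q) / ‖y q‖ with hp
  -- the step is short compared with the radius at `q`
  have hpow : ‖y i‖ ^ (-θ) * ‖y i‖ ≤ 5 / 4 * (‖y q‖ ^ (-θ) * ‖y q‖) := by
    have e1 : ‖y i‖ ^ (-θ) * ‖y i‖ = ‖y i‖ ^ (1 - θ) := by
      rw [← Real.rpow_add_one hi.ne']
      congr 1
      ring
    have e2 : ‖y q‖ ^ (-θ) * ‖y q‖ = ‖y q‖ ^ (1 - θ) := by
      rw [← Real.rpow_add_one hr.ne']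
      congr 1
      ring
    rw [e1, e2]
    calc ‖y i‖ ^ (1 - θ) ≤ (5 / 4 * ‖y q‖) ^ (1 - θ) :=
          Real.rpow_le_rpow hi.le h1 (by linarith)
      _ = (5 / 4 : ℝ) ^ (1 - θ) * ‖y q‖ ^ (1 - θ) := Real.mul_rpow (by norm_num) hr.le
      _ ≤ 5 / 4 * ‖y q‖ ^ (1 - θ) := by
          apply mul_le_mul_of_nonneg_right _ (Real.rpow_nonneg hr.le _)
          calc (5 / 4 : ℝ) ^ (1 - θ) ≤ (5 / 4 : ℝ) ^ (1 : ℝ) :=
                Real.rpow_le_rpow_of_exponent_le (by norm_num) (by linarith)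
            _ = 5 / 4 := Real.rpow_one _
  have hstep : ‖y (i + 1) - y i‖ ≤ 2 * (‖y q‖ ^ (-θ) * ‖y q‖) := by
    have h2 := h.stp i hiL
    have h3 : 0 ≤ ‖y q‖ ^ (-θ) * ‖y q‖ := by positivity
    nlinarith [h2, hpow, h3]
  rcases le_or_gt ((‖y q‖ ^ (-θ)) ^ 2 * ‖y q‖ / 2) p with hc | hc
  · have hp0 : 0 < p := lt_of_lt_of_le (by positivity) hc
    have h4 := h.hD i q hiL hq hstep hc
    have e3 : ‖y q‖ ^ (α - 1) * ‖y q‖ ^ (1 - α) = 1 := by
      rw [← Real.rpow_add hr]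
      have : α - 1 + (1 - α) = 0 := by ring
      rw [this, Real.rpow_zero]
    have h6 : En y W α q - Om y α ω q ≤ (1 + K * De y θ q) * (H i / ((α - 1) * p)) := by
      unfold En Om
      calc ‖y q‖ ^ (α - 1) * W q - ω * ‖y q‖ ^ (α - 1) = ‖y q‖ ^ (α - 1) * (W q - ω) := by ring
        _ ≤ ‖y q‖ ^ (α - 1) *
            ((1 + K * ‖y q‖ ^ (-θ)) * (H i / ((α - 1) * p)) * ‖y q‖ ^ (1 - α)) :=
            mul_le_mul_of_nonneg_left h4 (Real.rpow_nonneg hr.le _)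
        _ = (1 + K * ‖y q‖ ^ (-θ)) * (H i / ((α - 1) * p)) *
            (‖y q‖ ^ (α - 1) * ‖y q‖ ^ (1 - α)) := by ring
        _ = (1 + K * De y θ q) * (H i / ((α - 1) * p)) := by rw [e3, mul_one]; rfl
    have h7 : 0 < (α - 1) * p := mul_pos hα hp0
    have h5 : (α - 1) * En y W α q * p ≤ (1 + K * De y θ q) * H i + (α - 1) * Om y α ω q * p := by
      have h9 := mul_le_mul_of_nonneg_right h6 h7.le
      have h10 : (1 + K * De y θ q) * (H i / ((α - 1) * p)) * ((α - 1) * p) =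
          (1 + K * De y θ q) * H i := by
        rw [mul_assoc, div_mul_cancel₀ _ h7.ne']
      rw [h10] at h9
      have h11 : (En y W α q - Om y α ω q) * ((α - 1) * p) =
          (α - 1) * En y W α q * p - (α - 1) * Om y α ω q * p := by ring
      rw [h11] at h9
      linarith
    have h8 : 0 ≤ (α - 1) * M * (De y θ q ^ 2 * ‖y q‖ / 2) := by
      have hM := h.hM
      positivity
    have hpw : p ≤ 3 / 2 * De y θ i * ‖y i‖ := by
      have h12 : p ≤ ‖y (i + 1) - y i‖ := by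
        rw [hp, div_le_iff₀ hr]
        exact real_inner_le_norm _ _
      exact h12.trans (h.stp i hiL)
    have h13 : (α - 1) * Om y α ω q * p ≤ (α - 1) * Om y α ω q * (3 / 2 * De y θ i * ‖y i‖) :=
      mul_le_mul_of_nonneg_left hpw (mul_nonneg hα.le hO0)
    linarith
  · have hc' : p ≤ De y θ q ^ 2 * ‖y q‖ / 2 := hc.le
    have h5 : (α - 1) * En y W α q * p ≤ (α - 1) * M * (De y θ q ^ 2 * ‖y q‖ / 2) := by
      calc (α - 1) * En y W α q * p ≤ (α - 1) * En y W α q * (De y θ q ^ 2 * ‖y q‖ / 2) :=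
            mul_le_mul_of_nonneg_left hc' (by positivity)
        _ ≤ (α - 1) * M * (De y θ q ^ 2 * ‖y q‖ / 2) := by
            apply mul_le_mul_of_nonneg_right _ (by positivity)
            exact mul_le_mul_of_nonneg_left hEM hα.le
    have h8 : 0 ≤ (1 + K * De y θ q) * H i := by positivity
    have h9 : 0 ≤ (α - 1) * Om y α ω q * (3 / 2 * De y θ i * ‖y i‖) := by positivity
    linarith
-- END fubq

-- BEGIN fstq
/-- the main inequality for one step: proof of `DS.stepq`; the new term is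
`(α-1) Om q (3/2) De i ≤ 2 (α-1) 2 ^ (α-1) De i Om i` since `‖y q‖ ≤ 5/4 ‖y i‖` -/
theorem FS.stepq (h : FS y W H L a b K K1 M α θ ω g) {i q : ℕ} (hiq : i < q) (hq : q ≤ L)
    (hs : ∑ j ∈ Ico i q, De y θ j ≤ 1 / 16) :
    (α - 1) * En y W α q * ((inner ℝ (y (i + 1) - y i) (‖y q‖⁻¹ • y q) -
      inner ℝ (y (i + 1) - y i) (y i) / ‖y i‖) / ‖y i‖) ≤
      (En y W α i - En y W α (i + 1) + K1 * Ep y α θ ω i) +
        (3 * K * b + 4 * (α - 1) * M + 2 * (α - 1) * (2 : ℝ) ^ (α - 1)) * Ep y α θ ω i +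
        (α - 1) * (3 / 2) * De y θ i * |En y W α i - En y W α q| := by
  have hu := h.ubq hiq hq hs
  obtain ⟨-, hR, hDq⟩ := h.rad hiq.le hq hs
  have hiL : i < L := lt_of_lt_of_le hiq hq
  have hr : 0 < ‖y i‖ := lt_of_lt_of_le one_pos (h.one i hiL.le)
  have hRp : 0 < ‖y q‖ := lt_of_lt_of_le one_pos (h.one q hq)
  have hw := h.stp i hiL
  have hHb := h.Hb i hiL
  have hB := h.hB i hiL
  have hH0 := h.H0 i hiL
  have hα := h.hα
  have hD0 : 0 < De y θ i := Real.rpow_pos_of_pos hr _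
  have hDq0 : 0 < De y θ q := Real.rpow_pos_of_pos hRp _
  have hOi0 : 0 ≤ Om y α ω i := mul_nonneg h.hω.le (Real.rpow_nonneg hr.le _)
  have hOq0 : 0 ≤ Om y α ω q := mul_nonneg h.hω.le (Real.rpow_nonneg hRp.le _)
  have hOq : Om y α ω q ≤ (2 : ℝ) ^ (α - 1) * Om y α ω i := by
    have h1 : ‖y q‖ ^ (α - 1) ≤ (2 : ℝ) ^ (α - 1) * ‖y i‖ ^ (α - 1) := by
      rw [← Real.mul_rpow (by norm_num) hr.le]
      exact Real.rpow_le_rpow hRp.le (by linarith) (by linarith)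
    unfold Om
    calc ω * ‖y q‖ ^ (α - 1) ≤ ω * ((2 : ℝ) ^ (α - 1) * ‖y i‖ ^ (α - 1)) :=
          mul_le_mul_of_nonneg_left h1 h.hω.le
      _ = (2 : ℝ) ^ (α - 1) * (ω * ‖y i‖ ^ (α - 1)) := by ring
  have hP0 : 0 < (2 : ℝ) ^ (α - 1) := Real.rpow_pos_of_pos (by norm_num) _
  have eEp : Ep y α θ ω i = De y θ i ^ 2 + De y θ i * Om y α ω i := rfl
  rw [eEp] at hB ⊢
  have eDi : ‖y i‖ ^ (-θ) = De y θ i := rfl
  have eE : ‖y i‖ ^ (α - 1) * W i = En y W α i := rfl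
  have eE' : ‖y (i + 1)‖ ^ (α - 1) * W (i + 1) = En y W α (i + 1) := rfl
  rw [eDi] at hw
  rw [eE, eE'] at hB
  have e1 : inner ℝ (y (i + 1) - y i) (‖y q‖⁻¹ • y q) =
      inner ℝ (y (i + 1) - y i) (y q) / ‖y q‖ := by
    rw [real_inner_smul_right]
    ring
  rw [e1]
  have hip : |inner ℝ (y (i + 1) - y i) (y i)| ≤ ‖y (i + 1) - y i‖ * ‖y i‖ :=
    abs_real_inner_le_norm _ _
  generalize inner ℝ (y (i + 1) - y i) (y q) / ‖y q‖ = pr at hu ⊢
  generalize inner ℝ (y (i + 1) - y i) (y i) = t at hB hip ⊢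
  generalize ‖y (i + 1) - y i‖ = w at hw hHb hip
  generalize En y W α i = Ei at hB ⊢
  generalize En y W α q = Eq at hu ⊢
  generalize En y W α (i + 1) = E' at hB ⊢
  generalize De y θ i = D at hw hB hD0 hDq hu ⊢
  generalize De y θ q = Q at hu hDq hDq0
  generalize Om y α ω i = Oi at hB hOi0 hOq ⊢
  generalize Om y α ω q = Oq at hu hOq0 hOq
  generalize (2 : ℝ) ^ (α - 1) = P at hOq hP0 ⊢
  generalize ‖y i‖ = r at hw hB hip hr hR hu ⊢
  generalize ‖y q‖ = R at hu hRp hR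
  generalize H i = hh at hu hHb hB hH0
  have hb := h.hb
  have hK := h.hK
  have hM := h.hM
  -- bounds
  have hHr : hh / r ≤ 3 / 2 * b * D := by
    rw [div_le_iff₀ hr]
    calc hh ≤ b * w := hHb
      _ ≤ b * (3 / 2 * D * r) := mul_le_mul_of_nonneg_left hw hb.le
      _ = 3 / 2 * b * D * r := by ring
  have hHr0 : 0 ≤ hh / r := div_nonneg hH0 hr.le
  have hx : |t / r / r| ≤ 3 / 2 * D := by
    rw [abs_div, abs_div, abs_of_pos hr, div_le_iff₀ hr, div_le_iff₀ hr]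
    calc |t| ≤ w * r := hip
      _ ≤ (3 / 2 * D * r) * r := mul_le_mul_of_nonneg_right hw hr.le
  have h1 : (α - 1) * Eq * (pr / r) ≤
      (1 + K * Q) * (hh / r) + (α - 1) * M * (Q ^ 2 * (R / r) / 2) +
        (α - 1) * Oq * (3 / 2 * D) := by
    have h2 := div_le_div_of_nonneg_right hu hr.le
    have h2' : (α - 1) * Oq * (3 / 2 * D * r) / r = (α - 1) * Oq * (3 / 2 * D) := by
      rw [show (α - 1) * Oq * (3 / 2 * D * r) = (α - 1) * Oq * (3 / 2 * D) * r by ring,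
        mul_div_cancel_right₀ _ hr.ne']
    calc (α - 1) * Eq * (pr / r) = (α - 1) * Eq * pr / r := by ring
      _ ≤ ((1 + K * Q) * hh + (α - 1) * M * (Q ^ 2 * R / 2) +
            (α - 1) * Oq * (3 / 2 * D * r)) / r := h2
      _ = _ := by
        rw [add_div _ ((α - 1) * Oq * (3 / 2 * D * r)), h2']
        ring
  have hRr : R / r ≤ 5 / 4 := by
    rw [div_le_iff₀ hr]
    exact hR
  have hRr0 : 0 ≤ R / r := (div_pos hRp hr).le
  have hQ2 : Q ^ 2 ≤ 4 * D ^ 2 := by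
    have h2 := pow_le_pow_left₀ hDq0.le hDq 2
    have h2' : (2 * D) ^ 2 = 4 * D ^ 2 := by ring
    rwa [h2'] at h2
  have h3 : K * Q * (hh / r) ≤ 3 * K * b * D ^ 2 := by
    calc K * Q * (hh / r) ≤ K * (2 * D) * (3 / 2 * b * D) :=
          mul_le_mul (mul_le_mul_of_nonneg_left hDq hK.le) hHr hHr0 (by positivity)
      _ = 3 * K * b * D ^ 2 := by ring
  have hα0 : 0 ≤ α - 1 := by linarith only [hα]
  have h4 : (α - 1) * M * (Q ^ 2 * (R / r) / 2) ≤ 4 * (α - 1) * M * D ^ 2 := by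
    have h5 : Q ^ 2 * (R / r) ≤ 4 * D ^ 2 * (5 / 4) :=
      mul_le_mul hQ2 hRr hRr0 (by positivity)
    have h6 : 0 ≤ (α - 1) * M := mul_nonneg hα0 hM.le
    have h7 : Q ^ 2 * (R / r) / 2 ≤ 4 * D ^ 2 := by
      linarith only [h5, sq_nonneg D]
    calc (α - 1) * M * (Q ^ 2 * (R / r) / 2) ≤ (α - 1) * M * (4 * D ^ 2) :=
          mul_le_mul_of_nonneg_left h7 h6
      _ = 4 * (α - 1) * M * D ^ 2 := by ring
  have h8 : (α - 1) * (t / r / r) * (Ei - Eq) ≤ (α - 1) * (3 / 2) * D * |Ei - Eq| := by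
    have h9 : (t / r / r) * (Ei - Eq) ≤ 3 / 2 * D * |Ei - Eq| := by
      calc (t / r / r) * (Ei - Eq) ≤ |(t / r / r) * (Ei - Eq)| := le_abs_self _
        _ = |t / r / r| * |Ei - Eq| := abs_mul _ _
        _ ≤ 3 / 2 * D * |Ei - Eq| := mul_le_mul_of_nonneg_right hx (abs_nonneg _)
    calc (α - 1) * (t / r / r) * (Ei - Eq) = (α - 1) * ((t / r / r) * (Ei - Eq)) := by ring
      _ ≤ (α - 1) * (3 / 2 * D * |Ei - Eq|) := mul_le_mul_of_nonneg_left h9 hα0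
      _ = _ := by ring
  have e2 : (α - 1) * Eq * ((pr - t / r) / r) =
      (α - 1) * Eq * (pr / r) - (α - 1) * (t / r / r) * Eq := by ring
  rw [e2]
  have e3 : (1 + K * Q) * (hh / r) = hh / r + K * Q * (hh / r) := by ring
  rw [e3] at h1
  have e4 : (α - 1) * (t / r / r) * (Ei - Eq) =
      (α - 1) * (t / r / r) * Ei - (α - 1) * (t / r / r) * Eq := by ring
  rw [e4] at h8
  have h10 : (α - 1) * Oq * (3 / 2 * D) ≤ 2 * (α - 1) * P * (D * Oi) := by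
    have h11 : (α - 1) * Oq ≤ (α - 1) * (P * Oi) := mul_le_mul_of_nonneg_left hOq hα0
    have h12 : (α - 1) * Oq * (3 / 2 * D) ≤ (α - 1) * (P * Oi) * (3 / 2 * D) :=
      mul_le_mul_of_nonneg_right h11 (by positivity)
    have h13 : 0 ≤ (α - 1) * (P * Oi) * (1 / 2 * D) := by positivity
    have h14 : (α - 1) * (P * Oi) * (3 / 2 * D) + (α - 1) * (P * Oi) * (1 / 2 * D) =
        2 * (α - 1) * P * (D * Oi) := by ring
    linarith only [h12, h13, h14]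
  have h15 : 0 ≤ (3 * K * b + 4 * (α - 1) * M) * (D * Oi) := by positivity
  have h16 : 0 ≤ 2 * (α - 1) * P * D ^ 2 := by positivity
  have e5 : (3 * K * b + 4 * (α - 1) * M + 2 * (α - 1) * P) * (D ^ 2 + D * Oi) =
      3 * K * b * D ^ 2 + 4 * (α - 1) * M * D ^ 2 + 2 * (α - 1) * P * D ^ 2 +
        (3 * K * b + 4 * (α - 1) * M) * (D * Oi) + 2 * (α - 1) * P * (D * Oi) := by ring
  rw [e5]
  linarith only [h1, hB, h3, h4, h8, h10, h15, h16]
-- END fstq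

-- BEGIN fbnn
theorem FS.de (h : FS y W H L a b K K1 M α θ ω g) {i : ℕ} (hi : i ≤ L) :
    0 < De y θ i ∧ De y θ i ≤ 1 / 32 ∧ 0 < Om y α ω i ∧ De y θ i ^ 2 ≤ Ep y α θ ω i := by
  have h0 : 0 < ‖y i‖ := lt_of_lt_of_le one_pos (h.one i hi)
  have h1 : 0 < De y θ i := Real.rpow_pos_of_pos h0 _
  have h2 : 0 < Om y α ω i := mul_pos h.hω (Real.rpow_pos_of_pos h0 _)
  refine ⟨h1, h.small i hi, h2, ?_⟩
  have h3 : 0 ≤ De y θ i * Om y α ω i := (mul_pos h1 h2).le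
  unfold Ep
  linarith

theorem FS.bnn (h : FS y W H L a b K K1 M α θ ω g) {i : ℕ} (hi : i < L) :
    0 ≤ En y W α i - En y W α (i + 1) + K1 * Ep y α θ ω i ∧ Ep y α θ ω i ≤ FB y W K1 α θ ω i ∧
      0 ≤ FB y W K1 α θ ω i := by
  have h1 : 0 ≤ En y W α i - En y W α (i + 1) + K1 * Ep y α θ ω i := by
    have := h.hF i hi
    unfold En
    linarith
  have h2 : 0 ≤ Ep y α θ ω i := le_trans (sq_nonneg _) (h.de hi.le).2.2.2
  refine ⟨h1, ?_, ?_⟩
  · unfold FB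
    linarith
  · unfold FB
    linarith

/-- variation of the energy: proof of `DS.osc` -/
theorem FS.osc (h : FS y W H L a b K K1 M α θ ω g) {i q : ℕ} (hiq : i ≤ q) (hq : q ≤ L) :
    |En y W α i - En y W α q| ≤ (1 + K1) * ∑ j ∈ Ico i q, FB y W K1 α θ ω j := by
  induction q, hiq using Nat.le_induction with
  | base => simp
  | succ q hiq ih =>
    have hqL : q < L := hq
    rw [sum_Ico_succ_top hiq, mul_add]
    have h1 := h.bnn hqL
    have hK := h.hK1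
    have h2 : |En y W α q - En y W α (q + 1)| ≤ (1 + K1) * FB y W K1 α θ ω q := by
      have e : FB y W K1 α θ ω q = (En y W α q - En y W α (q + 1) + K1 * Ep y α θ ω q) +
        Ep y α θ ω q := rfl
      have h3 : K1 * Ep y α θ ω q ≤ K1 * FB y W K1 α θ ω q :=
        mul_le_mul_of_nonneg_left h1.2.1 hK.le
      have h4 : 0 ≤ Ep y α θ ω q := le_trans (sq_nonneg _) (h.de hqL.le).2.2.2
      have h5 : 0 ≤ K1 * Ep y α θ ω q := mul_nonneg hK.le h4
      rw [abs_le]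
      constructor <;> linarith [h1.1, h1.2.2]
    calc |En y W α i - En y W α (q + 1)|
        ≤ |En y W α i - En y W α q| + |En y W α q - En y W α (q + 1)| := abs_sub_le _ _ _
      _ ≤ _ := add_le_add (ih hqL.le) h2
-- END fbnn

-- BEGIN fpie
/-- the turning in a short piece: proof of `DS.piece` with `FS.stepq`, `FS.low` (`gron` is stated for
all indices: use it for `q i = 1 - cos`, and `δ`, `e` set to `0` outside `Ico p q`) -/
theorem FS.piece (h : FS y W H L a b K K1 M α θ ω g) {p q : ℕ} (hpq : p ≤ q) (hq : q ≤ L)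
    (hs : ∑ i ∈ Ico p q, De y θ i ≤ 1 / 16) :
    ‖(‖y p‖⁻¹ • y p) - (‖y q‖⁻¹ • y q)‖ ^ 2 ≤
      4 * ((1 + (3 * K * b + 4 * (α - 1) * M + 2 * (α - 1) * (2 : ℝ) ^ (α - 1)) +
        (α - 1) * (1 + K1)) / ((α - 1) * g) + 18) * ∑ i ∈ Ico p q, FB y W K1 α θ ω i := by
  have hα : 0 < α - 1 := by linarith [h.hα]
  have ha := h.ha
  have hb := h.hb
  have hK := h.hK
  have hK1 := h.hK1
  have hM := h.hM
  have hg := h.hg
  have hy : ∀ i, i ≤ L → 0 < ‖y i‖ := fun i hi => lt_of_lt_of_le one_pos (h.one i hi)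
  have hyq := hy q hq
  have hyp := hy p (hpq.trans hq)
  obtain ⟨g0, hg0e⟩ : ∃ g0, (α - 1) * g = g0 := ⟨_, rfl⟩
  have hg0 : 0 < g0 := by
    rw [← hg0e]
    positivity
  obtain ⟨c1, hc1⟩ : ∃ c1, 3 * K * b + 4 * (α - 1) * M + 2 * (α - 1) * (2 : ℝ) ^ (α - 1) = c1 :=
    ⟨_, rfl⟩
  have hc10 : 0 ≤ c1 := by
    rw [← hc1]
    have : (0 : ℝ) < 2 ^ (α - 1) := Real.rpow_pos_of_pos (by norm_num) _
    positivity
  have hmem : ∀ i ∈ Ico p q, i < L := fun i hi => (Finset.mem_Ico.1 hi).2.trans_le hq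
  obtain ⟨S, hS⟩ : ∃ S, ∑ i ∈ Ico p q, FB y W K1 α θ ω i = S := ⟨_, rfl⟩
  have hS0 : 0 ≤ S := by
    rw [← hS]
    exact Finset.sum_nonneg fun i hi => (h.bnn (hmem i hi)).2.2
  rw [hg0e, hc1, hS]
  obtain ⟨u, hu⟩ : ∃ u, ‖y q‖⁻¹ • y q = u := ⟨_, rfl⟩
  have hu1 : ‖u‖ = 1 := by
    rw [← hu, norm_smul, norm_inv, norm_norm, inv_mul_cancel₀ hyq.ne']
  obtain ⟨c, hc⟩ : ∃ c : ℕ → ℝ, ∀ i, c i = inner ℝ (y i) u / ‖y i‖ := ⟨_, fun _ => rfl⟩
  have hcle : ∀ i, c i ≤ 1 := by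
    intro i
    rw [hc]
    have h1 := real_inner_le_norm (y i) u
    rw [hu1, mul_one] at h1
    exact div_le_one_of_le₀ h1 (norm_nonneg _)
  have hcq : c q = 1 := by
    rw [hc, ← hu, real_inner_smul_right, real_inner_self_eq_norm_sq]
    have := hyq.ne'
    field_simp
  obtain ⟨Y, hY⟩ : ∃ Y : ℕ → ℝ, ∀ i, Y i = (En y W α i - En y W α (i + 1) + K1 * Ep y α θ ω i) +
      c1 * Ep y α θ ω i + (α - 1) * (3 / 2) * De y θ i * |En y W α i - En y W α q| :=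
    ⟨_, fun _ => rfl⟩
  have hDe : ∀ i, i ≤ L → 0 < De y θ i := fun i hi => (h.de hi).1
  have hEp : ∀ i, i ≤ L → 0 ≤ Ep y α θ ω i := fun i hi =>
    (sq_nonneg _).trans (h.de hi).2.2.2
  have hY0 : ∀ i, i < L → 0 ≤ Y i := by
    intro i hi
    rw [hY]
    have h1 := (h.bnn hi).1
    have h2 : 0 ≤ c1 * Ep y α θ ω i := mul_nonneg hc10 (hEp i hi.le)
    have h3 : 0 ≤ (α - 1) * (3 / 2) * De y θ i * |En y W α i - En y W α q| := by
      have := (hDe i hi.le).le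
      positivity
    linarith
  have hsub : ∀ i, p ≤ i → ∑ j ∈ Ico i q, De y θ j ≤ 1 / 16 := by
    intro i hi
    refine le_trans ?_ hs
    exact Finset.sum_le_sum_of_subset_of_nonneg (Finset.Ico_subset_Ico_left hi)
      fun j hj _ => (hDe j (hmem j hj).le).le
  have hX : ∀ i, p ≤ i → i < q → (inner ℝ (y (i + 1) - y i) u -
      inner ℝ (y (i + 1) - y i) (y i) / ‖y i‖) / ‖y i‖ ≤ Y i / g0 := by
    intro i hi hiq
    have h1 := h.stepq hiq hq (hsub i hi)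
    rw [hu, hc1, ← hY i] at h1
    obtain ⟨X, hXd⟩ : ∃ X, (inner ℝ (y (i + 1) - y i) u -
      inner ℝ (y (i + 1) - y i) (y i) / ‖y i‖) / ‖y i‖ = X := ⟨_, rfl⟩
    rw [hXd] at h1 ⊢
    rcases le_or_gt X 0 with hX0 | hX0
    · exact hX0.trans (div_nonneg (hY0 i (hiq.trans_le hq)) hg0.le)
    · rw [le_div_iff₀ hg0]
      have h2 : g0 ≤ (α - 1) * En y W α q := by
        rw [← hg0e]
        exact mul_le_mul_of_nonneg_left (h.low q hq) hα.le
      have h3 := mul_le_mul_of_nonneg_right h2 hX0.le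
      linarith
  obtain ⟨dd, hdd⟩ : ∃ dd : ℕ → ℝ, ∀ i, dd i = if i ∈ Ico p q then De y θ i else 0 :=
    ⟨_, fun _ => rfl⟩
  obtain ⟨ee, hee⟩ : ∃ ee : ℕ → ℝ, ∀ i, ee i = if i ∈ Ico p q then
      Y i / g0 + 18 * De y θ i ^ 2 else 0 := ⟨_, fun _ => rfl⟩
  have hgr := gron (q := fun i => 1 - c i) (δ := dd) (e := ee) hpq (fun i => by linarith [hcle i])
    (fun i => by
      rw [hee]
      split_ifs with hi
      · have h1 := div_nonneg (hY0 i (hmem i hi)) hg0.le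
        have h2 : 0 ≤ 18 * De y θ i ^ 2 := by positivity
        linarith
      · exact le_rfl)
    (fun i => by
      rw [hdd]
      split_ifs with hi
      · exact ⟨(hDe i (hmem i hi).le).le, by linarith [(h.de (hmem i hi).le).2.1]⟩
      · norm_num)
    (fun i hi hiq => by
      have hmi : i ∈ Ico p q := Finset.mem_Ico.2 ⟨hi, hiq⟩
      have hiL := hmem i hmi
      have h1 := cos_step (y := y i) (w := y (i + 1) - y i) (u := u) (δ := De y θ i) (hy i hiL.le)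
        hu1 (hDe i hiL.le).le (by linarith [(h.de hiL.le).2.1]) (h.stp i hiL)
      rw [add_sub_cancel, ← hc, ← hc] at h1
      have h2 := hX i hi hiq
      show 1 - c i ≤ 1 - c (i + 1) + 2 * dd i * (1 - c i) + ee i
      rw [hdd, hee, if_pos hmi, if_pos hmi]
      linarith)
  have hsd : ∑ i ∈ Ico p q, dd i = ∑ i ∈ Ico p q, De y θ i :=
    Finset.sum_congr rfl fun i hi => by rw [hdd, if_pos hi]
  have hse : ∑ i ∈ Ico p q, ee i = ∑ i ∈ Ico p q, (Y i / g0 + 18 * De y θ i ^ 2) :=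
    Finset.sum_congr rfl fun i hi => by rw [hee, if_pos hi]
  simp only [hcq, sub_self, zero_add] at hgr
  rw [hsd, hse] at hgr
  have hexp : Real.exp (4 * ∑ i ∈ Ico p q, De y θ i) ≤ 2 := by
    have h1 : Real.exp (4 * ∑ i ∈ Ico p q, De y θ i) ≤ Real.exp (1 / 4) :=
      Real.exp_le_exp.2 (by linarith)
    have h2 : Real.exp (1 / 4 : ℝ) ≤ 2 := by
      have h3 := Real.exp_bound_div_one_sub_of_interval (x := (1 / 4 : ℝ)) (by norm_num)
        (by norm_num)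
      refine h3.trans ?_
      norm_num
    exact h1.trans h2
  have hsum : ∑ i ∈ Ico p q, (Y i / g0 + 18 * De y θ i ^ 2) ≤
      ((1 + c1 + (α - 1) * (1 + K1)) / g0 + 18) * S := by
    have h1 : ∀ i ∈ Ico p q, Y i / g0 + 18 * De y θ i ^ 2 ≤
        ((1 + c1) / g0 + 18) * FB y W K1 α θ ω i + (α - 1) * (3 / 2) * ((1 + K1) * S) / g0 *
          De y θ i := by
      intro i hi
      have hiL := hmem i hi
      rw [Finset.mem_Ico] at hi
      obtain ⟨b1, b2, b3⟩ := h.bnn hiL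
      obtain ⟨b4, b5, b6, b7⟩ := h.de hiL.le
      have h2 : |En y W α i - En y W α q| ≤ (1 + K1) * S := by
        refine (h.osc hi.2.le hq).trans (mul_le_mul_of_nonneg_left ?_ (by linarith))
        rw [← hS]
        exact Finset.sum_le_sum_of_subset_of_nonneg (Finset.Ico_subset_Ico_left hi.1)
          fun j hj _ => (h.bnn (hmem j hj)).2.2
      have h3 : Y i ≤ (1 + c1) * FB y W K1 α θ ω i + (α - 1) * (3 / 2) * ((1 + K1) * S) *
          De y θ i := by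
        rw [hY]
        have h4 : (En y W α i - En y W α (i + 1) + K1 * Ep y α θ ω i) ≤ FB y W K1 α θ ω i := by
          have h4' := hEp i hiL.le
          unfold FB
          linarith
        have h5 : c1 * Ep y α θ ω i ≤ c1 * FB y W K1 α θ ω i := mul_le_mul_of_nonneg_left b2 hc10
        have h6 : (α - 1) * (3 / 2) * De y θ i * |En y W α i - En y W α q| ≤
            (α - 1) * (3 / 2) * De y θ i * ((1 + K1) * S) :=
          mul_le_mul_of_nonneg_left h2 (by positivity)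
        linarith
      have h7 : Y i / g0 ≤ ((1 + c1) * FB y W K1 α θ ω i + (α - 1) * (3 / 2) * ((1 + K1) * S) *
          De y θ i) / g0 := div_le_div_of_nonneg_right h3 hg0.le
      have h8 : ((1 + c1) * FB y W K1 α θ ω i + (α - 1) * (3 / 2) * ((1 + K1) * S) *
          De y θ i) / g0 = (1 + c1) / g0 * FB y W K1 α θ ω i + (α - 1) * (3 / 2) *
            ((1 + K1) * S) / g0 * De y θ i := by
        field_simp
      have h9 : 18 * De y θ i ^ 2 ≤ 18 * FB y W K1 α θ ω i := by linarith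
      rw [h8] at h7
      linarith
    refine (Finset.sum_le_sum h1).trans ?_
    rw [Finset.sum_add_distrib, ← Finset.mul_sum, ← Finset.mul_sum, hS]
    have h10 : (α - 1) * (3 / 2) * ((1 + K1) * S) / g0 * ∑ i ∈ Ico p q, De y θ i ≤
        (α - 1) * (3 / 2) * ((1 + K1) * S) / g0 * (1 / 16) :=
      mul_le_mul_of_nonneg_left hs (by positivity)
    have h11 : (α - 1) * (3 / 2) * ((1 + K1) * S) / g0 * (1 / 16) ≤
        (α - 1) * (1 + K1) / g0 * S := by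
      have h12 : 0 ≤ (α - 1) * (1 + K1) / g0 * S := by positivity
      have h13 : (α - 1) * (3 / 2) * ((1 + K1) * S) / g0 * (1 / 16) =
          (α - 1) * (1 + K1) / g0 * S * (3 / 32) := by ring
      rw [h13]
      linarith
    have h14 : ((1 + c1 + (α - 1) * (1 + K1)) / g0 + 18) * S =
        ((1 + c1) / g0 + 18) * S + (α - 1) * (1 + K1) / g0 * S := by
      field_simp
      ring
    rw [h14]
    linarith
  have hEs : 0 ≤ ∑ i ∈ Ico p q, (Y i / g0 + 18 * De y θ i ^ 2) :=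
    Finset.sum_nonneg fun i hi => by
      have h1 := div_nonneg (hY0 i (hmem i hi)) hg0.le
      have h2 : 0 ≤ 18 * De y θ i ^ 2 := by positivity
      linarith
  have hfin : 1 - c p ≤ 2 * (((1 + c1 + (α - 1) * (1 + K1)) / g0 + 18) * S) := by
    refine hgr.trans ?_
    refine (mul_le_mul_of_nonneg_right hexp hEs).trans ?_
    exact mul_le_mul_of_nonneg_left hsum (by norm_num)
  rw [unit_sq hyp hyq]
  have hcp : c p = inner ℝ (y p) (y q) / (‖y p‖ * ‖y q‖) := by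
    rw [hc, ← hu, real_inner_smul_right]
    have h1 := hyp.ne'
    have h2 := hyq.ne'
    field_simp
  rw [← hcp]
  linarith
-- END fpie

-- BEGIN fsde
/-- proof of `DS.sumde` -/
theorem FS.sumde (h : FS y W H L a b K K1 M α θ ω g) {p q : ℕ} (hpq : p ≤ q) (hq : q ≤ L) :
    ∑ i ∈ Ico p q, De y θ i ≤ 2 * M / a * (W p / W q) := by
  have ha := h.ha
  have hM := h.hM
  have hy : ∀ i, i ≤ L → 0 < ‖y i‖ := fun i hi => zero_lt_one.trans_le (h.one i hi)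
  have hdec : ∀ i, i < L → W (i + 1) ≤ W i := by
    intro i hi
    have h1 := h.decW i hi
    have h2 : 0 ≤ a / 2 * ‖y i‖ ^ (-θ) * ‖y i‖ ^ (1 - α) := by
      have := hy i hi.le
      positivity
    linarith
  have hanti : ∀ i j, i ≤ j → j ≤ L → W j ≤ W i := by
    intro i j hij
    induction j, hij using Nat.le_induction with
    | base => intro _; exact le_rfl
    | succ j hij ih => intro hj; exact (hdec j (by omega)).trans (ih (by omega))
  have hWq : 0 < W q := h.hω.trans_le (h.leW q hq)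
  have key : ∀ i ∈ Ico p q, De y θ i ≤ 2 * M / a * ((W i - W (i + 1)) / W q) := by
    intro i hi
    rw [Finset.mem_Ico] at hi
    have hiL : i < L := lt_of_lt_of_le hi.2 hq
    have h1 := h.decW i hiL
    have h0 := hy i hiL.le
    have h2 : ‖y i‖ ^ (1 - α) * ‖y i‖ ^ (α - 1) = 1 := by
      rw [← Real.rpow_add h0]
      simp
    have h3 : 0 < ‖y i‖ ^ (α - 1) := Real.rpow_pos_of_pos h0 _
    have h4 : De y θ i ≤ 2 / a * (‖y i‖ ^ (α - 1) * (W i - W (i + 1))) := by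
      have h5 := mul_le_mul_of_nonneg_left h1 h3.le
      have h6 : ‖y i‖ ^ (α - 1) * (a / 2 * ‖y i‖ ^ (-θ) * ‖y i‖ ^ (1 - α)) = a / 2 * De y θ i := by
        unfold De
        calc ‖y i‖ ^ (α - 1) * (a / 2 * ‖y i‖ ^ (-θ) * ‖y i‖ ^ (1 - α)) =
            a / 2 * ‖y i‖ ^ (-θ) * (‖y i‖ ^ (1 - α) * ‖y i‖ ^ (α - 1)) := by ring
          _ = a / 2 * ‖y i‖ ^ (-θ) := by rw [h2, mul_one]
      rw [h6] at h5
      have h7 : De y θ i = 2 / a * (a / 2 * De y θ i) := by field_simp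
      rw [h7]
      exact mul_le_mul_of_nonneg_left h5 (by positivity)
    have h8 : ‖y i‖ ^ (α - 1) ≤ M / W q := by
      rw [le_div_iff₀ hWq]
      have h9 := h.upW i hiL.le
      have h10 : W q ≤ W i := hanti i q hi.2.le hq
      nlinarith
    have h11 : 0 ≤ W i - W (i + 1) := sub_nonneg.2 (hdec i hiL)
    have h12 := mul_le_mul_of_nonneg_right h8 h11
    have h13 := mul_le_mul_of_nonneg_left h12 (show 0 ≤ 2 / a by positivity)
    refine h4.trans (h13.trans (le_of_eq ?_))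
    ring
  refine (Finset.sum_le_sum key).trans ?_
  rw [← Finset.mul_sum, ← Finset.sum_div]
  have h1 : ∑ i ∈ Ico p q, (W i - W (i + 1)) = W p - W q := by
    have h2 := Finset.sum_Ico_sub W hpq
    have h3 : ∑ i ∈ Ico p q, (W i - W (i + 1)) = -∑ i ∈ Ico p q, (W (i + 1) - W i) := by
      rw [← Finset.sum_neg_distrib]
      refine Finset.sum_congr rfl fun i _ => by ring
    rw [h3, h2]
    ring
  rw [h1]
  refine mul_le_mul_of_nonneg_left ?_ (by positivity)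
  exact div_le_div_of_nonneg_right (by linarith) hWq.le
-- END fsde

-- BEGIN fsqs
private theorem fsqs_one {P W W' De g κ M a : ℝ} (ha : 0 < a) (hg : 0 < g) (hP : 0 < P)
    (hW : 0 < W) (hM : 0 < M) (hκ : 0 < κ) (hDe : 0 < De) (h1 : a / 2 * De * P⁻¹ ≤ W - W')
    (h2 : P * W ≤ M) (h3 : g ≤ P * W) (h4 : De = P⁻¹ ^ κ) :
    De ^ 2 ≤ 2 * M / a * (g ^ κ)⁻¹ * ((W - W') * W ^ (κ - 1)) := by
  have hPi : 0 < P⁻¹ := inv_pos.2 hP
  have hd : 0 ≤ W - W' := le_trans (by positivity) h1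
  have h5 : De ≤ 2 / a * (P * (W - W')) := by
    have : a / 2 * De ≤ P * (W - W') := by
      have := mul_le_mul_of_nonneg_left h1 hP.le
      have e : P * (a / 2 * De * P⁻¹) = a / 2 * De := by
        field_simp
      linarith
    have e : De = 2 / a * (a / 2 * De) := by
      field_simp
    rw [e]
    exact mul_le_mul_of_nonneg_left this (by positivity)
  have h6 : De * W ≤ 2 * M / a * (W - W') := by
    calc De * W ≤ 2 / a * (P * (W - W')) * W := mul_le_mul_of_nonneg_right h5 hW.le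
      _ = 2 / a * (W - W') * (P * W) := by ring
      _ ≤ 2 / a * (W - W') * M := mul_le_mul_of_nonneg_left h2 (by positivity)
      _ = 2 * M / a * (W - W') := by ring
  have h7 : P⁻¹ ≤ W / g := by
    rw [le_div_iff₀ hg, inv_mul_le_iff₀ hP]
    exact h3
  have h8 : De ≤ W ^ κ * (g ^ κ)⁻¹ := by
    rw [h4]
    calc P⁻¹ ^ κ ≤ (W / g) ^ κ := Real.rpow_le_rpow hPi.le h7 hκ.le
      _ = W ^ κ * (g ^ κ)⁻¹ := by rw [Real.div_rpow hW.le hg.le, div_eq_mul_inv]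
  have hgk : 0 < (g ^ κ)⁻¹ := inv_pos.2 (Real.rpow_pos_of_pos hg κ)
  have hWk : 0 < W ^ κ := Real.rpow_pos_of_pos hW κ
  have eW : W ^ κ = W ^ (κ - 1) * W := by
    rw [← Real.rpow_add_one hW.ne']
    congr 1
    ring
  have h9 : De ^ 2 * W ≤ (2 * M / a * (g ^ κ)⁻¹ * ((W - W') * W ^ (κ - 1))) * W := by
    calc De ^ 2 * W = (De * W) * De := by ring
      _ ≤ (2 * M / a * (W - W')) * (W ^ κ * (g ^ κ)⁻¹) :=
        mul_le_mul h6 h8 hDe.le (by positivity)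
      _ = (2 * M / a * (g ^ κ)⁻¹ * ((W - W') * W ^ (κ - 1))) * W := by rw [eW]; ring
  exact le_of_mul_le_mul_right h9 hW

/-- uniform square summability of the step sizes: proof of `DS.sumsq` with `low` in place of
`DS.glow`, `W 0 ≤ M` (from `upW` and `one`) -/
theorem FS.sumsq (h : FS y W H L a b K K1 M α θ ω g) :
    ∑ i ∈ range L, De y θ i ^ 2 ≤
      2 * M / a * g ^ (-(θ / (α - 1))) * (1 / min (θ / (α - 1)) 1) * M ^ (θ / (α - 1)) := by
  have ha := h.ha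
  have hM := h.hM
  have hg := h.hg
  have hα1 : 0 < α - 1 := by linarith [h.hα]
  have hκ : 0 < θ / (α - 1) := div_pos h.hθ hα1
  have hm : 0 < min (θ / (α - 1)) 1 := lt_min hκ one_pos
  have hWp : ∀ i, i ≤ L → 0 < W i := fun i hi => lt_of_lt_of_le h.hω (h.leW i hi)
  have eg : g ^ (-(θ / (α - 1))) = (g ^ (θ / (α - 1)))⁻¹ := Real.rpow_neg hg.le _
  rw [eg]
  have hstep : ∀ i, i < L → De y θ i ^ 2 ≤ 2 * M / a * (g ^ (θ / (α - 1)))⁻¹ *
      (1 / min (θ / (α - 1)) 1) * (W i ^ (θ / (α - 1)) - W (i + 1) ^ (θ / (α - 1))) := by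
    intro i hi
    have hr : 0 < ‖y i‖ := lt_of_lt_of_le one_pos (h.one i hi.le)
    have hP : 0 < ‖y i‖ ^ (α - 1) := Real.rpow_pos_of_pos hr _
    have hDe : 0 < De y θ i := Real.rpow_pos_of_pos hr _
    have e1 : ‖y i‖ ^ (1 - α) = (‖y i‖ ^ (α - 1))⁻¹ := by
      rw [← Real.rpow_neg hr.le]
      congr 1
      ring
    have hdec := h.decW i hi
    rw [e1] at hdec
    have e2 : De y θ i = (‖y i‖ ^ (α - 1))⁻¹ ^ (θ / (α - 1)) := by
      rw [← Real.rpow_neg hr.le, ← Real.rpow_mul hr.le]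
      unfold De
      congr 1
      field_simp
    have hone := fsqs_one (W' := W (i + 1)) ha hg hP (hWp i hi.le) hM hκ hDe hdec (h.upW i hi.le)
      (h.low i hi.le) e2
    have hle : W (i + 1) ≤ W i := by
      have : 0 ≤ a / 2 * ‖y i‖ ^ (-θ) * (‖y i‖ ^ (α - 1))⁻¹ := by positivity
      linarith
    have htel := pow_tel hκ (hWp (i + 1) hi) hle
    have hc : 0 ≤ 2 * M / a * (g ^ (θ / (α - 1)))⁻¹ := by positivity
    calc De y θ i ^ 2 ≤ _ := hone
      _ ≤ 2 * M / a * (g ^ (θ / (α - 1)))⁻¹ *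
          (1 / min (θ / (α - 1)) 1 * (W i ^ (θ / (α - 1)) - W (i + 1) ^ (θ / (α - 1)))) :=
        mul_le_mul_of_nonneg_left htel hc
      _ = _ := by ring
  have hc : 0 ≤ 2 * M / a * (g ^ (θ / (α - 1)))⁻¹ * (1 / min (θ / (α - 1)) 1) := by positivity
  have hW0 : W 0 ≤ M := by
    have h0 := h.upW 0 (Nat.zero_le _)
    have h1 := h.one 0 (Nat.zero_le _)
    have h2 : 1 ≤ ‖y 0‖ ^ (α - 1) := Real.one_le_rpow h1 hα1.le
    have h3 := (hWp 0 (Nat.zero_le _)).le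
    nlinarith
  calc ∑ i ∈ range L, De y θ i ^ 2 ≤ ∑ i ∈ range L,
        (2 * M / a * (g ^ (θ / (α - 1)))⁻¹ *
        (1 / min (θ / (α - 1)) 1) * (W i ^ (θ / (α - 1)) - W (i + 1) ^ (θ / (α - 1)))) :=
        sum_le_sum fun i hi => hstep i (mem_range.1 hi)
    _ = 2 * M / a * (g ^ (θ / (α - 1)))⁻¹ *
        (1 / min (θ / (α - 1)) 1) * (W 0 ^ (θ / (α - 1)) - W L ^ (θ / (α - 1))) := by
        rw [← mul_sum, sum_range_sub']
    _ ≤ _ := by
        refine mul_le_mul_of_nonneg_left ?_ hc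
        have h4 := (Real.rpow_pos_of_pos (hWp L le_rfl) (θ / (α - 1))).le
        have h5 := Real.rpow_le_rpow (hWp 0 (Nat.zero_le _)).le hW0 hκ.le
        linarith
-- END fsqs

-- BEGIN fsom
/-- the errors from `ω`: `De i ≤ 2 M / a (W i - W (i+1)) / W i` (as in `DS.sumde`),
`‖y i‖ ^ (α-1) ≤ M / W i`, so `De i Om i ≤ 2 M ^ 2 / a ω (1 / W (i+1) - 1 / W i)`, telescoping,
`ω ≤ W L` -/
theorem FS.sumom (h : FS y W H L a b K K1 M α θ ω g) :
    ∑ i ∈ range L, De y θ i * Om y α ω i ≤ 2 * M ^ 2 / a := by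
  have ha := h.ha
  have hM := h.hM
  have hω := h.hω
  have hW : ∀ i, i ≤ L → 0 < W i := fun i hi => hω.trans_le (h.leW i hi)
  have hy : ∀ i, i ≤ L → 0 < ‖y i‖ := fun i hi => zero_lt_one.trans_le (h.one i hi)
  have key : ∀ i ∈ range L, De y θ i * Om y α ω i ≤
      2 * M ^ 2 / a * (ω * ((W (i + 1))⁻¹ - (W i)⁻¹)) := by
    intro i hi
    rw [Finset.mem_range] at hi
    have hyi := hy i hi.le
    have hWi := hW i hi.le
    have hWi1 := hW (i + 1) hi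
    have h1 := h.decW i hi
    have h2 : ‖y i‖ ^ (1 - α) * ‖y i‖ ^ (α - 1) = 1 := by
      rw [← Real.rpow_add hyi]
      simp
    have h3 : 0 < ‖y i‖ ^ (α - 1) := Real.rpow_pos_of_pos hyi _
    have h0 : 0 < De y θ i := by unfold De; exact Real.rpow_pos_of_pos hyi _
    have h4 : De y θ i ≤ 2 / a * (‖y i‖ ^ (α - 1) * (W i - W (i + 1))) := by
      have h5 := mul_le_mul_of_nonneg_left h1 h3.le
      have h6 : ‖y i‖ ^ (α - 1) * (a / 2 * ‖y i‖ ^ (-θ) * ‖y i‖ ^ (1 - α)) = a / 2 * De y θ i := by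
        unfold De
        calc ‖y i‖ ^ (α - 1) * (a / 2 * ‖y i‖ ^ (-θ) * ‖y i‖ ^ (1 - α)) =
            a / 2 * ‖y i‖ ^ (-θ) * (‖y i‖ ^ (1 - α) * ‖y i‖ ^ (α - 1)) := by ring
          _ = a / 2 * ‖y i‖ ^ (-θ) := by rw [h2, mul_one]
      rw [h6] at h5
      have h7 : De y θ i = 2 / a * (a / 2 * De y θ i) := by field_simp
      rw [h7]
      exact mul_le_mul_of_nonneg_left h5 (by positivity)
    have h8 : ‖y i‖ ^ (α - 1) ≤ M / W i := by
      rw [le_div_iff₀ hWi]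
      exact h.upW i hi.le
    have hdec : 0 ≤ W i - W (i + 1) := by
      have : 0 ≤ a / 2 * ‖y i‖ ^ (-θ) * ‖y i‖ ^ (1 - α) := by positivity
      linarith
    have h9 : De y θ i ≤ 2 / a * (M / W i * (W i - W (i + 1))) :=
      h4.trans (mul_le_mul_of_nonneg_left (mul_le_mul_of_nonneg_right h8 hdec) (by positivity))
    have h10 : Om y α ω i ≤ ω * (M / W i) := by
      unfold Om
      exact mul_le_mul_of_nonneg_left h8 hω.le
    have h11 : 0 ≤ Om y α ω i := by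
      unfold Om
      exact mul_nonneg hω.le h3.le
    have h12 : De y θ i * Om y α ω i ≤
        2 / a * (M / W i * (W i - W (i + 1))) * (ω * (M / W i)) :=
      mul_le_mul h9 h10 h11 (h0.le.trans h9)
    refine h12.trans ?_
    have h13 : 2 / a * (M / W i * (W i - W (i + 1))) * (ω * (M / W i)) =
        2 * M ^ 2 / a * (ω * ((W i - W (i + 1)) * ((W i)⁻¹ * (W i)⁻¹))) := by
      field_simp
    have h14 : (W (i + 1))⁻¹ - (W i)⁻¹ = (W i - W (i + 1)) * ((W (i + 1))⁻¹ * (W i)⁻¹) := by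
      field_simp
    rw [h13, h14]
    have h15 : (W i)⁻¹ ≤ (W (i + 1))⁻¹ := inv_anti₀ hWi1 (by linarith)
    have h16 : (W i)⁻¹ * (W i)⁻¹ ≤ (W (i + 1))⁻¹ * (W i)⁻¹ :=
      mul_le_mul_of_nonneg_right h15 (inv_nonneg.2 hWi.le)
    exact mul_le_mul_of_nonneg_left (mul_le_mul_of_nonneg_left
      (mul_le_mul_of_nonneg_left h16 hdec) hω.le) (by positivity)
  refine (Finset.sum_le_sum key).trans ?_
  rw [← Finset.mul_sum, ← Finset.mul_sum, Finset.sum_range_sub (fun i => (W i)⁻¹) L]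
  have h1 : ω * ((W L)⁻¹ - (W 0)⁻¹) ≤ 1 := by
    have h2 : ω * (W L)⁻¹ ≤ 1 := by
      rw [← div_eq_mul_inv, div_le_one (hW L le_rfl)]
      exact h.leW L le_rfl
    have h3 : 0 ≤ ω * (W 0)⁻¹ := mul_nonneg hω.le (inv_nonneg.2 (hW 0 (Nat.zero_le _)).le)
    nlinarith
  calc 2 * M ^ 2 / a * (ω * ((W L)⁻¹ - (W 0)⁻¹)) ≤ 2 * M ^ 2 / a * 1 :=
        mul_le_mul_of_nonneg_left h1 (by positivity)
    _ = 2 * M ^ 2 / a := mul_one _
-- END fsom

-- BEGIN fbsm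
/-- telescoping with `0 ≤ En ≤ M`, `FS.sumsq`, `FS.sumom` -/
theorem FS.bsum (h : FS y W H L a b K K1 M α θ ω g) :
    ∑ i ∈ range L, FB y W K1 α θ ω i ≤ M + (K1 + 1) * (2 * M / a * g ^ (-(θ / (α - 1))) *
      (1 / min (θ / (α - 1)) 1) * M ^ (θ / (α - 1)) + 2 * M ^ 2 / a) := by
  have h1 : ∑ i ∈ range L, FB y W K1 α θ ω i =
      (En y W α 0 - En y W α L) + (K1 + 1) * (∑ i ∈ range L, De y θ i ^ 2 +
        ∑ i ∈ range L, De y θ i * Om y α ω i) := by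
    rw [← Finset.sum_add_distrib, Finset.mul_sum, ← Finset.sum_range_sub' (En y W α) L,
      ← Finset.sum_add_distrib]
    refine Finset.sum_congr rfl fun i _ => ?_
    unfold FB Ep
    ring
  have h2 : En y W α 0 ≤ M := h.upW 0 (Nat.zero_le L)
  have h3 : 0 ≤ En y W α L :=
    mul_nonneg (Real.rpow_nonneg (norm_nonneg _) _) (h.hω.le.trans (h.leW L le_rfl))
  have h5 : (0 : ℝ) ≤ K1 + 1 := by linarith [h.hK1]
  have h4 := mul_le_mul_of_nonneg_left (add_le_add h.sumsq h.sumom) h5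
  rw [h1]
  linarith
-- END fbsm

-- BEGIN ffar
/-- long pieces: proof of `DS.far` -/
theorem FS.far (h : FS y W H L a b K K1 M α θ ω g) {C : ℝ} (hC : 0 ≤ C)
    (hp : ∀ p q : ℕ, p ≤ q → q ≤ L → ∑ i ∈ Ico p q, De y θ i ≤ 1 / 16 →
      ‖(‖y p‖⁻¹ • y p) - (‖y q‖⁻¹ • y q)‖ ^ 2 ≤ C * ∑ i ∈ Ico p q, FB y W K1 α θ ω i)
    (N : ℕ) {p q : ℕ} (hpq : p ≤ q) (hq : q ≤ L) (hs : ∑ i ∈ Ico p q, De y θ i ≤ N / 32) :
    ‖(‖y p‖⁻¹ • y p) - (‖y q‖⁻¹ • y q)‖ ^ 2 ≤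
      (N + 1) ^ 2 * C * ∑ i ∈ Ico p q, FB y W K1 α θ ω i := by
  classical
  induction N generalizing p q with
  | zero =>
    have h1 := hp p q hpq hq (hs.trans (by norm_num))
    simpa using h1
  | succ N ih =>
    have hB : ∀ r t : ℕ, t ≤ L → 0 ≤ ∑ i ∈ Ico r t, FB y W K1 α θ ω i := fun r t ht =>
      Finset.sum_nonneg fun i hi => (h.bnn (lt_of_lt_of_le (Finset.mem_Ico.1 hi).2 ht)).2.2
    have hN0 : (0 : ℝ) ≤ N := Nat.cast_nonneg N
    push_cast at hs ⊢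
    by_cases hc : ∑ i ∈ Ico p q, De y θ i ≤ 1 / 16
    · refine (hp p q hpq hq hc).trans ?_
      have h1 : 0 ≤ C * ∑ i ∈ Ico p q, FB y W K1 α θ ω i := mul_nonneg hC (hB p q hq)
      have h2 : (1 : ℝ) ≤ ((N : ℝ) + 1 + 1) ^ 2 := by nlinarith
      nlinarith
    · have hex : ∃ m, p ≤ m ∧ ∑ i ∈ Ico m q, De y θ i ≤ 1 / 16 :=
        ⟨q, hpq, by simp⟩
      obtain ⟨hm1, hm2⟩ := Nat.find_spec hex
      have hmin := fun k (hk : k < Nat.find hex) => Nat.find_min hex hk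
      set m := Nat.find hex with hm
      have hmq : m ≤ q := Nat.find_min' hex ⟨hpq, by simp⟩
      have hpm : p < m := by
        rcases Nat.lt_or_ge p m with h1 | h1
        · exact h1
        · have h2 : m = p := le_antisymm h1 hm1
          rw [h2] at hm2
          exact absurd hm2 hc
      have hmL : m ≤ L := hmq.trans hq
      obtain ⟨m', hm'⟩ : ∃ m', m = m' + 1 := ⟨m - 1, by omega⟩
      have h3 : ¬ ∑ i ∈ Ico m' q, De y θ i ≤ 1 / 16 := fun h4 =>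
        hmin m' (by omega) ⟨by omega, h4⟩
      have h4 : ∑ i ∈ Ico m' q, De y θ i = De y θ m' + ∑ i ∈ Ico m q, De y θ i := by
        rw [hm', Finset.sum_eq_sum_Ico_succ_bot (by omega)]
      have h5 := (h.de (i := m') (by omega)).2.1
      have h6 : ∑ i ∈ Ico p m, De y θ i + ∑ i ∈ Ico m q, De y θ i = ∑ i ∈ Ico p q, De y θ i :=
        Finset.sum_Ico_consecutive _ hpm.le hmq
      have h7 : ∑ i ∈ Ico p m, FB y W K1 α θ ω i + ∑ i ∈ Ico m q, FB y W K1 α θ ω i =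
          ∑ i ∈ Ico p q, FB y W K1 α θ ω i := Finset.sum_Ico_consecutive _ hpm.le hmq
      push Not at h3
      have h8 : ∑ i ∈ Ico p m, De y θ i ≤ N / 32 := by linarith
      have h9 := ih hpm.le hmL h8
      have h10 := hp m q hmq hq hm2
      set S := ∑ i ∈ Ico p q, FB y W K1 α θ ω i with hS
      have hS1 : ∑ i ∈ Ico p m, FB y W K1 α θ ω i ≤ S := by linarith [hB m q hq]
      have hS2 : ∑ i ∈ Ico m q, FB y W K1 α θ ω i ≤ S := by linarith [hB p m hmL]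
      have hCS : 0 ≤ C * S := mul_nonneg hC (hB p q hq)
      set s := Real.sqrt (C * S) with hsdef
      have hs0 : 0 ≤ s := Real.sqrt_nonneg _
      have hss : s ^ 2 = C * S := Real.sq_sqrt hCS
      have g1 : ‖(‖y p‖⁻¹ • y p) - (‖y m‖⁻¹ • y m)‖ ≤ (N + 1) * s := by
        apply le_of_sq_le_sq _ (by positivity)
        calc ‖(‖y p‖⁻¹ • y p) - (‖y m‖⁻¹ • y m)‖ ^ 2
            ≤ (N + 1) ^ 2 * C * ∑ i ∈ Ico p m, FB y W K1 α θ ω i := h9
          _ ≤ (N + 1) ^ 2 * C * S :=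
              mul_le_mul_of_nonneg_left hS1 (mul_nonneg (sq_nonneg _) hC)
          _ = ((N + 1) * s) ^ 2 := by rw [mul_pow, hss]; ring
      have g2 : ‖(‖y m‖⁻¹ • y m) - (‖y q‖⁻¹ • y q)‖ ≤ s := by
        apply le_of_sq_le_sq _ hs0
        calc ‖(‖y m‖⁻¹ • y m) - (‖y q‖⁻¹ • y q)‖ ^ 2
            ≤ C * ∑ i ∈ Ico m q, FB y W K1 α θ ω i := h10
          _ ≤ C * S := mul_le_mul_of_nonneg_left hS2 hC
          _ = s ^ 2 := hss.symm
      have g3 : ‖(‖y p‖⁻¹ • y p) - (‖y q‖⁻¹ • y q)‖ ≤ (N + 1 + 1) * s := by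
        have := norm_sub_le_norm_sub_add_norm_sub (‖y p‖⁻¹ • y p) (‖y m‖⁻¹ • y m) (‖y q‖⁻¹ • y q)
        linarith
      calc ‖(‖y p‖⁻¹ • y p) - (‖y q‖⁻¹ • y q)‖ ^ 2 ≤ ((N + 1 + 1) * s) ^ 2 :=
            pow_le_pow_left₀ (norm_nonneg _) g3 2
        _ = (N + 1 + 1) ^ 2 * C * S := by rw [mul_pow, hss]; ring
-- END ffar

end fs

end OneR
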