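import Pool.Agent.OneR.FTree

/-!
Problem MP_b9fb85_pr: the infection paths of the exploration are uniformly straight, far from the
origin with a constant which depends only on the dimension and on the exponent.
-/

set_option autoImplicit false

namespace OneR

open Finset ConeD ConeD.TRANSAux OneE Filter MeasureTheory

variable {d : ℕ}

/-- the turning of finite paths far from the origin: `path_all` with a constant which does not
depend on the passage times -/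
theorem path_det {h : V d → ℝ} {a b C : ℝ} (hh : HF h a b C) {η : ℝ} (hη : 0 < η) (hη1 : η ≤ 1)
    {α : ℝ} (hα : 1 < α) {K : ℝ} (hK : 0 < K) :
    ∃ C : ℝ, ∀ (E : Edge d → ℝ) (R0 : ℝ), (∀ e, 0 ≤ E e) → CC h η E R0 → ∃ R : ℝ, ∀ (γ : ℕ → V d) (st : ℕ → Step d) (W : ℕ → ℝ) (n : ℕ),
      FinPath (tau α E) γ st W n (nrm (γ n) ^ (1 - α)) →
      ∀ N0 : ℕ, N0 ≤ n → (∀ k, N0 ≤ k → k ≤ n → R ≤ nrm (γ k) ∧
        UB h η α K (W k - nrm (γ n) ^ (1 - α)) (γ k)) →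
      ∀ (I : Finset ℕ) (m m' : ℕ → ℕ),
      (∀ k ∈ I, N0 ≤ m k ∧ m k ≤ n ∧ N0 ≤ m' k ∧ m' k ≤ n ∧
        2 ^ k ≤ nrm (γ (m k)) ∧ nrm (γ (m k)) ≤ 2 ^ (k + 1) ∧
        2 ^ k ≤ nrm (γ (m' k)) ∧ nrm (γ (m' k)) ≤ 2 ^ (k + 1)) →
      ∑ k ∈ I, (1 - ip (γ (m k)) (γ (m' k)) / (nrm (γ (m k)) * nrm (γ (m' k)))) ≤ C := by
  obtain ⟨K1, R1, M, g, hM, hg, hmk⟩ := mkFS hh hη hη1 hα hK
  obtain ⟨C0, hC0⟩ := fin_ds (d := d) (a := a) (b := |b| + 1) (K := K) (K1 := K1) (θ := η / 8)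
    hα hM hg hh.pos
  refine ⟨C0, fun E R0 hE hCC => ⟨max 1 (max R1 R0), ?_⟩⟩
  intro γ st W n hF N0 hN0 hk I m m' hI
  have hone : ∀ k, N0 ≤ k → k ≤ n → 1 ≤ nrm (γ k) := fun k h1 h2 =>
    (le_max_left _ _).trans (hk k h1 h2).1
  have hR1 : ∀ k, N0 ≤ k → k ≤ n → R1 ≤ nrm (γ k) := fun k h1 h2 =>
    ((le_max_left _ _).trans (le_max_right _ _)).trans (hk k h1 h2).1
  have hR0 : ∀ k, N0 ≤ k → k ≤ n → R0 ≤ nrm (γ k) := fun k h1 h2 =>
    ((le_max_right _ _).trans (le_max_right _ _)).trans (hk k h1 h2).1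
  obtain ⟨L, x, hx0, hxL, hxm, hxlt, hxge, hlast⟩ := fin_disc (γ := γ)
    (fun v => nrm v ^ (1 - η / 8)) N0 n hN0
    (fun k h1 h2 => Real.rpow_pos_of_pos (lt_of_lt_of_le one_pos (hone k h1 h2)) _)
  have hmono : ∀ j i, i + j = L → N0 ≤ x i ∧ x i ≤ x L := by
    have hup : ∀ i, i ≤ L → N0 ≤ x i := by
      intro i
      induction i with
      | zero => intro _; exact hx0.ge
      | succ i ih => intro hi; exact (ih (by omega)).trans (hxm i (by omega)).le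
    have hdn : ∀ j i, i + j = L → x i ≤ x L := by
      intro j
      induction j with
      | zero => intro i hi; exact le_of_eq (by rw [← hi, Nat.add_zero])
      | succ j ih =>
        intro i hi
        exact (hxm i (by omega)).le.trans (ih (i + 1) (by omega))
    exact fun j i hij => ⟨hup i (by omega), hdn j i hij⟩
  have hxN : ∀ i, i ≤ L → N0 ≤ x i ∧ x i ≤ n := fun i hi => by
    obtain ⟨h1, h2⟩ := hmono (L - i) i (by omega)
    exact ⟨h1, h2.trans hxL⟩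
  have hpw : ∀ i, i ≤ L → nrm (γ (x i)) ^ (1 - η / 8) =
      nrm (γ (x i)) ^ (-(η / 8)) * nrm (γ (x i)) := by
    intro i hi
    have h4 : 0 < nrm (γ (x i)) := lt_of_lt_of_le one_pos (hone _ (hxN i hi).1 (hxN i hi).2)
    have h6 : (1 - η / 8 : ℝ) = -(η / 8) + 1 := by ring
    rw [h6, Real.rpow_add h4, Real.rpow_one]
  have hFS := hmk E R0 hE hCC γ st W n hF N0 hN0
    (fun k h1 h2 => ⟨hR1 k h1 h2, hR0 k h1 h2, (hk k h1 h2).2⟩) L x hx0 hxL hxm hxlt hxge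
  refine hC0 γ W x _ L n _ hFS hxm hxL (fun i hi k h1 h2 => ?_) (fun k h1 h2 => ?_) I m m' ?_
  · rw [← hpw i hi.le]
    exact (hxlt i hi k h1 h2).le
  · rw [← hpw L le_rfl]
    exact (hlast k h1 h2).le
  · intro k hkI
    rw [hx0]
    exact hI k hkI

/-- all the infection paths are straight outside of some ball, with the constant `C` -/
def StraightFar (C : ℝ) (s : ℕ → Edge d) : Prop :=
  ∃ k0 : ℕ, ∀ v ∈ Reached s, ∀ (I : Finset ℕ) (x y : I → V d),
    (∀ k : I, k0 ≤ (k : ℕ) ∧ (Relation.ReflTransGen (Infects s) (x k) v ∧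
        2 ^ (k : ℕ) ≤ nrm (x k) ∧ nrm (x k) ≤ 2 ^ ((k : ℕ) + 1)) ∧
      Relation.ReflTransGen (Infects s) (y k) v ∧ 2 ^ (k : ℕ) ≤ nrm (y k) ∧
        nrm (y k) ≤ 2 ^ ((k : ℕ) + 1)) →
    ∑ k : I, (1 - ip (x k) (y k) / (nrm (x k) * nrm (y k))) ≤ C

/-- the smallest index from which on all the norms are large -/
private theorem fdet_idx {γ : ℕ → V d} {s : ℕ → Edge d} {n : ℕ} {Q R' : ℝ} {v : V d} (gn : γ n = v)
    (hQ : Q ≤ nrm v)
    (ga : ∀ k, k ≤ n → γ k ∈ Reached s ∧ Relation.ReflTransGen (Infects s) (γ k) v ∧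
        ∀ j, j ≤ k → Relation.ReflTransGen (Infects s) (γ j) (γ k))
    (hR' : ∀ u ∈ Reached s, nrm u < Q →
      ∀ z, Relation.ReflTransGen (Infects s) z u → nrm z ≤ R') :
    ∃ N0, N0 ≤ n ∧ (∀ k, N0 ≤ k → k ≤ n → Q ≤ nrm (γ k)) ∧
      ∀ k, k ≤ n → R' < nrm (γ k) → N0 ≤ k := by
  classical
  have hex : ∃ N, N ≤ n ∧ ∀ k, N ≤ k → k ≤ n → Q ≤ nrm (γ k) := by
    refine ⟨n, le_rfl, fun k h1 h2 => ?_⟩
    have h3 : k = n := le_antisymm h2 h1
    rw [h3, gn]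
    exact hQ
  refine ⟨Nat.find hex, (Nat.find_spec hex).1, (Nat.find_spec hex).2, ?_⟩
  intro k hk hkR
  by_contra hcon
  push Not at hcon
  obtain ⟨N, hN⟩ : ∃ N, Nat.find hex = N + 1 := ⟨Nat.find hex - 1, by omega⟩
  have hN1 : N + 1 ≤ n := by
    rw [← hN]
    exact (Nat.find_spec hex).1
  have hmin := Nat.find_min hex (m := N) (by omega)
  have hlt : nrm (γ N) < Q := by
    by_contra h1
    push Not at h1
    refine hmin ⟨by omega, fun j hj1 hj2 => ?_⟩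
    rcases Nat.eq_or_lt_of_le hj1 with h2 | h2
    · rw [← h2]
      exact h1
    · exact (Nat.find_spec hex).2 j (by omega) hj2
  have h3 := hR' (γ N) (ga N (by omega)).1 hlt (γ k) ((ga N (by omega)).2.2 k (by omega))
  exact absurd hkR (not_lt.2 h3)

/-- almost surely all explorations have straight infection paths, constant `C` far from the origin -/
theorem straightFar_ae (i0 : Fin d) {α : ℝ} (hα : 1 < α) : ∃ C : ℝ, ∀ᵐ E ∂(PE d),
    ∀ s : ℕ → Edge d, (∀ n, G (tau α E) (lst s n)) → StraightFar C s := by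
  classical
  obtain ⟨a, C, hh⟩ := hf_hm d
  have he0 : 0 < eta d := by
    unfold eta
    positivity
  have he1 : eta d ≤ 1 := by
    unfold eta
    rw [div_le_one (by positivity)]
    have h : (0 : ℝ) ≤ (d : ℝ) := Nat.cast_nonneg d
    linarith
  obtain ⟨K, R1, hK, hub⟩ := ub_S hh he0 he1 hα
  obtain ⟨C1, hC⟩ := path_det hh he0 he1 hα hK
  refine ⟨|C1|, ?_⟩
  filter_upwards [conc d, ae_pos, explodes_ae i0 hα] with E hconc hpos hex s hG
  obtain ⟨R0, hCC⟩ := hconc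
  have hτ : ∀ f, 0 < tau α E f := fun f =>
    div_pos (hpos f) (Real.rpow_pos_of_pos (mid_pos f) α)
  have hE : ∀ e, 0 ≤ E e := fun e => (hpos e).le
  obtain ⟨θ, t1, _, t3, t4⟩ := exists_art hτ hG
  obtain ⟨R, hC1⟩ := hC E R0 hE hCC
  obtain ⟨R', hR'⟩ := anc_bounded (s := s) (max R (max R1 R0))
  obtain ⟨M, hM⟩ : ∃ M : ℕ, R' < 2 ^ M := pow_unbounded_of_one_lt R' one_lt_two
  refine ⟨M, fun v hv I x y hI => ?_⟩
  obtain ⟨n, γ, st, g0, gn, gs, ga, gz⟩ := path_of hG t4 hv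
  choose mm hmn hmm using fun k : I => gz (x k) (hI k).2.1.1
  choose mm' hmn' hmm' using fun k : I => gz (y k) (hI k).2.2.1
  set m : ℕ → ℕ := fun j => if h : j ∈ I then mm ⟨j, h⟩ else 0 with hmd
  set m' : ℕ → ℕ := fun j => if h : j ∈ I then mm' ⟨j, h⟩ else 0 with hmd2
  have e1 : ∀ k : I, m (k : ℕ) = mm k := fun k => by
    rw [hmd]
    exact dif_pos k.2
  have e2 : ∀ k : I, m' (k : ℕ) = mm' k := fun k => by
    rw [hmd2]
    exact dif_pos k.2
  have key : ∑ k ∈ I, (1 - ip (γ (m k)) (γ (m' k)) / (nrm (γ (m k)) * nrm (γ (m' k)))) ≤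
      |C1| := by
    have hk0 : ∀ k ∈ I,
        (m k ≤ n ∧ m' k ≤ n) ∧ (2 ^ k ≤ nrm (γ (m k)) ∧ nrm (γ (m k)) ≤ 2 ^ (k + 1)) ∧
        (2 ^ k ≤ nrm (γ (m' k)) ∧ nrm (γ (m' k)) ≤ 2 ^ (k + 1)) ∧
        R' < nrm (γ (m k)) ∧ R' < nrm (γ (m' k)) := by
      intro k hk
      obtain ⟨hMk, ⟨_, g1, g2⟩, _, g3, g4⟩ := hI ⟨k, hk⟩
      have hk2 : R' < 2 ^ k := hM.trans_le (pow_le_pow_right₀ one_le_two hMk)
      have f1 : m k = mm ⟨k, hk⟩ := e1 ⟨k, hk⟩
      have f2 : m' k = mm' ⟨k, hk⟩ := e2 ⟨k, hk⟩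
      have f3 : γ (m k) = x ⟨k, hk⟩ := by
        rw [f1]
        exact hmm ⟨k, hk⟩
      have f4 : γ (m' k) = y ⟨k, hk⟩ := by
        rw [f2]
        exact hmm' ⟨k, hk⟩
      rw [f3, f4]
      refine ⟨⟨?_, ?_⟩, ⟨g1, g2⟩, ⟨g3, g4⟩, lt_of_lt_of_le hk2 g1, lt_of_lt_of_le hk2 g3⟩
      · rw [f1]
        exact hmn _
      · rw [f2]
        exact hmn' _
    rcases le_or_gt (max R (max R1 R0)) (nrm v) with hQ | hQ
    · obtain ⟨N0, hN0, hN1, hN2⟩ := fdet_idx gn hQ ga hR'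
      have hP : FinPath (tau α E) γ st (fun k => θ v - θ (γ k) + nrm (γ n) ^ (1 - α)) n
          (nrm (γ n) ^ (1 - α)) := by
        refine ⟨fun k hk => (gs k hk).1, fun k hk => ?_, ?_⟩
        · show θ v - θ (γ k) + nrm (γ n) ^ (1 - α) = tau α E (edg (γ k) (st k)) +
            (θ v - θ (γ (k + 1)) + nrm (γ n) ^ (1 - α))
          rw [(gs k hk).2]
          ring
        · show θ v - θ (γ n) + nrm (γ n) ^ (1 - α) = nrm (γ n) ^ (1 - α)
          rw [gn]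
          ring
      refine (hC1 γ st _ n hP N0 hN0 ?_ _ m m' ?_).trans (le_abs_self C1)
      · intro k hk1 hk2
        have h1 := hN1 k hk1 hk2
        refine ⟨(le_max_left _ _).trans h1, ?_⟩
        refine hub E R0 hE hCC (γ k) _ (((le_max_left _ _).trans (le_max_right _ _)).trans h1)
          (((le_max_right _ _).trans (le_max_right _ _)).trans h1) ?_
        have h2 := rest_lt i0 hτ hex hG t1 t3 (ga k hk2).1 hv
        show θ v - θ (γ k) + nrm (γ n) ^ (1 - α) - nrm (γ n) ^ (1 - α) ≤ S (tau α E) (γ k)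
        linarith
      · intro k hk
        obtain ⟨⟨h1, h2⟩, h3, h4, h5, h6⟩ := hk0 k hk
        exact ⟨hN2 _ h1 h5, h1, hN2 _ h2 h6, h2, h3.1, h3.2, h4.1, h4.2⟩
    · have h1 : I = ∅ := by
        rw [Finset.eq_empty_iff_forall_notMem]
        intro k hk
        obtain ⟨⟨h1, _⟩, _, _, h5, _⟩ := hk0 k hk
        exact absurd (hR' v hv hQ (γ (m k)) (ga _ h1).2.1) (not_le.2 h5)
      rw [h1, Finset.sum_empty]
      exact abs_nonneg C1
  rw [← Finset.sum_coe_sort I] at key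
  refine le_trans (le_of_eq (Finset.sum_congr rfl fun k _ => ?_)) key
  rw [e1 k, e2 k, hmm k, hmm' k]

private theorem fdms_rtg (z v : V d) :
    MeasurableSet {s : ℕ → Edge d | Relation.ReflTransGen (Infects s) z v} :=
  measurableSet_rtg (fun (s : ℕ → Edge d) x y => Infects s x y)
    (fun x y => measurableSet_infects x y) z v

private theorem fdms_reached (v : V d) : MeasurableSet {s : ℕ → Edge d | v ∈ Reached s} := by
  have h : {s : ℕ → Edge d | v ∈ Reached s} = ⋃ n, {s | v ∈ vs (lst s n)} := by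
    ext s
    simp only [Reached, Set.mem_ofPred_eq, Set.mem_iUnion]
  rw [h]
  exact MeasurableSet.iUnion fun n => measurableSet_vs v n

/-- as `measurableSet_straight` -/
theorem measurableSet_straightFar (C : ℝ) :
    MeasurableSet {s : ℕ → Edge d | StraightFar C s} := by
  have hset : {s : ℕ → Edge d | StraightFar C s} = ⋃ k0 : ℕ, ⋂ v : V d, ⋂ I : Finset ℕ,
      ⋂ x : I → V d, ⋂ y : I → V d, ({s | v ∈ Reached s}ᶜ ∪
        ({s | ∀ k : I, k0 ≤ (k : ℕ) ∧ (Relation.ReflTransGen (Infects s) (x k) v ∧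
          2 ^ (k : ℕ) ≤ nrm (x k) ∧
          nrm (x k) ≤ 2 ^ ((k : ℕ) + 1)) ∧ Relation.ReflTransGen (Infects s) (y k) v ∧
            2 ^ (k : ℕ) ≤ nrm (y k) ∧ nrm (y k) ≤ 2 ^ ((k : ℕ) + 1)}ᶜ ∪
        {_s : ℕ → Edge d | ∑ k : I, (1 - ip (x k) (y k) / (nrm (x k) * nrm (y k))) ≤ C})) := by
    ext s
    simp only [StraightFar, Set.mem_ofPred_eq, Set.mem_iUnion, Set.mem_iInter, Set.mem_union,
      Set.mem_compl_iff]
    constructor
    · rintro ⟨k0, hC⟩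
      refine ⟨k0, fun v I x y => ?_⟩
      by_cases hv : v ∈ Reached s
      · right
        by_cases h : ∀ k : I, k0 ≤ (k : ℕ) ∧ (Relation.ReflTransGen (Infects s) (x k) v ∧
          2 ^ (k : ℕ) ≤ nrm (x k) ∧ nrm (x k) ≤ 2 ^ ((k : ℕ) + 1)) ∧
            Relation.ReflTransGen (Infects s) (y k) v ∧ 2 ^ (k : ℕ) ≤ nrm (y k) ∧
              nrm (y k) ≤ 2 ^ ((k : ℕ) + 1)
        · exact Or.inr (hC v hv I x y h)
        · exact Or.inl h
      · exact Or.inl hv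
    · rintro ⟨k0, hC⟩
      refine ⟨k0, fun v hv I x y h => ?_⟩
      rcases hC v I x y with h1 | h1 | h1
      · exact absurd hv h1
      · exact absurd h h1
      · exact h1
  rw [hset]
  refine MeasurableSet.iUnion fun k0 => MeasurableSet.iInter fun v => MeasurableSet.iInter fun I =>
    MeasurableSet.iInter fun x => MeasurableSet.iInter fun y => ?_
  refine MeasurableSet.union (MeasurableSet.compl (fdms_reached v))
    (MeasurableSet.union (MeasurableSet.compl ?_) (MeasurableSet.const _))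
  have h2 : {s : ℕ → Edge d | ∀ k : I, k0 ≤ (k : ℕ) ∧
        (Relation.ReflTransGen (Infects s) (x k) v ∧
        2 ^ (k : ℕ) ≤ nrm (x k) ∧ nrm (x k) ≤ 2 ^ ((k : ℕ) + 1)) ∧
          Relation.ReflTransGen (Infects s) (y k) v ∧ 2 ^ (k : ℕ) ≤ nrm (y k) ∧
            nrm (y k) ≤ 2 ^ ((k : ℕ) + 1)} =
      ⋂ k : I, ({_s | k0 ≤ (k : ℕ)} ∩ (({s | Relation.ReflTransGen (Infects s) (x k) v} ∩
        {_s | 2 ^ (k : ℕ) ≤ nrm (x k) ∧ nrm (x k) ≤ 2 ^ ((k : ℕ) + 1)}) ∩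
          ({s | Relation.ReflTransGen (Infects s) (y k) v} ∩
            {_s | 2 ^ (k : ℕ) ≤ nrm (y k) ∧ nrm (y k) ≤ 2 ^ ((k : ℕ) + 1)}))) := by
    ext s
    simp only [Set.mem_ofPred_eq, Set.mem_iInter, Set.mem_inter_iff]
  rw [h2]
  exact MeasurableSet.iInter fun k => (MeasurableSet.const _).inter
    (((fdms_rtg (x k) v).inter (MeasurableSet.const _)).inter
      ((fdms_rtg (y k) v).inter (MeasurableSet.const _)))

end OneR
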