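import Pool.Agent.OneR.Ana

/-!
Problem MP_b9fb85_pr: infinite rays, the discretisation, and the turning in dyadic annuli.
-/

set_option autoImplicit false

namespace OneR

open Finset ConeD Filter

variable {d : ℕ}

/-- an infinite ray: vertices `γ n`, steps `st n`, remaining times `W n` -/
structure InfRay (h : V d → ℝ) (η α K : ℝ) (E : Edge d → ℝ) (γ : ℕ → V d) (st : ℕ → Step d)
    (W : ℕ → ℝ) : Prop where
  nxt : ∀ n, γ (n + 1) = γ n + vec (st n)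
  Weq : ∀ n, W n = tau α E (edg (γ n) (st n)) + W (n + 1)
  Wpos : ∀ n, 0 < W n
  Wlim : Tendsto W atTop (nhds 0)
  lim : Tendsto (fun n => nrm (γ n)) atTop atTop
  ub : ∀ᶠ n in atTop, UB h η α K (W n) (γ n)

/-- the `k` steps from time `m` -/
def seg (st : ℕ → Step d) (m k : ℕ) : List (Step d) := (List.range k).map fun i => st (m + i)

-- BEGIN seg
private theorem seg_succ_aux (st : ℕ → Step d) (m k : ℕ) :
    seg st m (k + 1) = seg st m k ++ [st (m + k)] := by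
  simp [seg, List.range_succ]

theorem seg_endp {γ : ℕ → V d} {st : ℕ → Step d} (h : ∀ n, γ (n + 1) = γ n + vec (st n)) (m k : ℕ) :
    endp (γ m) (seg st m k) = γ (m + k) := by
  induction k with
  | zero => rfl
  | succ k ih =>
    rw [seg_succ_aux, endp_append, ih, endp_cons, endp_nil, ← h (m + k)]
    rfl

theorem seg_wt {τ : Edge d → ℝ} {γ : ℕ → V d} {st : ℕ → Step d} {W : ℕ → ℝ}
    (h : ∀ n, γ (n + 1) = γ n + vec (st n)) (hW : ∀ n, W n = τ (edg (γ n) (st n)) + W (n + 1))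
    (m k : ℕ) : wt τ (γ m) (seg st m k) = W m - W (m + k) := by
  induction k with
  | zero =>
    have h0 : seg st m 0 = [] := rfl
    rw [h0, wt_nil, Nat.add_zero, sub_self]
  | succ k ih =>
    rw [seg_succ_aux, wt_append, ih, seg_endp h, wt_cons, wt_nil]
    have h1 := hW (m + k)
    have h2 : m + (k + 1) = m + k + 1 := rfl
    rw [h2]
    linarith

theorem seg_prefix {st : ℕ → Step d} {m k : ℕ} {m1 m2 : List (Step d)} {s : Step d}
    (h : seg st m k = m1 ++ s :: m2) : m1.length < k ∧ m1 = seg st m m1.length := by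
  have hl : m1.length < k := by
    have h1 := congrArg List.length h
    simp only [seg, List.length_map, List.length_range, List.length_append, List.length_cons] at h1
    omega
  refine ⟨hl, ?_⟩
  calc m1 = (seg st m k).take m1.length := by rw [h, List.take_left]
    _ = seg st m m1.length := by
      rw [seg, ← List.map_take, List.take_range, min_eq_left hl.le, seg]

theorem seg_append (st : ℕ → Step d) (m k l : ℕ) : seg st m k ++ seg st (m + k) l = seg st m (k + l) := by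
  induction l with
  | zero => simp [seg]
  | succ l ih =>
    have h2 : k + (l + 1) = k + l + 1 := rfl
    rw [seg_succ_aux, h2, seg_succ_aux, ← ih, List.append_assoc, Nat.add_assoc]
-- END seg

-- BEGIN rst
/-- `ConeD.step` for an infinite ray: `l1 = seg st m (n-m)`, `l2 = seg st n (N-n)`,
`wt (l1 ++ l2) = W m - W N ≤ W m` (so `UB` holds for it), `Phi` of `l2` is
`nrm (γ n) ^ (α-1) (W n - W N)`; then `N → ∞` (`ge_of_tendsto` / `le_of_tendsto'`) -/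
theorem ray_step {h : V d → ℝ} {a b C : ℝ} (hh : HF h a b C) {η : ℝ} (hη : 0 < η) (hη1 : η ≤ 1)
    {α : ℝ} (hα : 1 < α) {K : ℝ} (hK : 0 < K) :
    ∃ K1 R1 : ℝ, 0 < K1 ∧ ∀ (E : Edge d → ℝ) (R0 : ℝ), (∀ e, 0 ≤ E e) → CC h η E R0 →
      ∀ (γ : ℕ → V d) (st : ℕ → Step d) (W : ℕ → ℝ), InfRay h η α K E γ st W →
      ∀ m n : ℕ, m < n → UB h η α K (W m) (γ m) → R1 ≤ nrm (γ m) → R0 ≤ nrm (γ m) →
        (∀ k, m ≤ k → k < n → nrm (γ k - γ m) ≤ nrm (γ m) ^ (1 - η / 8)) →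
        nrm (γ m) ^ (1 - η / 8) ≤ nrm (γ n - γ m) →
        h (γ n - γ m) / nrm (γ m)
            - (α - 1) * (pr (γ n - γ m) (γ m) / nrm (γ m)) * (nrm (γ m) ^ (α - 1) * W m)
            - K1 * nrm (γ m) ^ (-(η / 4)) ≤
          nrm (γ m) ^ (α - 1) * W m - nrm (γ n) ^ (α - 1) * W n ∧
        - K1 * nrm (γ m) ^ (-(η / 4)) ≤
          nrm (γ m) ^ (α - 1) * W m - nrm (γ n) ^ (α - 1) * W n ∧
        a / 2 * nrm (γ m) ^ (-(η / 8)) * nrm (γ m) ^ (1 - α) ≤ W m - W n := by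
  obtain ⟨K1, R1, hK1, hst⟩ := ConeD.step hh hη hη1 hα hK
  refine ⟨K1, R1, hK1, ?_⟩
  intro E R0 hE hCC γ st W hr m n hmn hUB hR1 hR0 hk hn
  have key : ∀ N : ℕ, n ≤ N →
      h (γ n - γ m) / nrm (γ m)
            - (α - 1) * (pr (γ n - γ m) (γ m) / nrm (γ m)) *
              (nrm (γ m) ^ (α - 1) * (W m - W N))
            - K1 * nrm (γ m) ^ (-(η / 4)) ≤
          nrm (γ m) ^ (α - 1) * (W m - W N) - nrm (γ n) ^ (α - 1) * (W n - W N) ∧
        - K1 * nrm (γ m) ^ (-(η / 4)) ≤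
          nrm (γ m) ^ (α - 1) * (W m - W N) - nrm (γ n) ^ (α - 1) * (W n - W N) ∧
        a / 2 * nrm (γ m) ^ (-(η / 8)) * nrm (γ m) ^ (1 - α) ≤ (W m - W N) - (W n - W N) := by
    intro N hN
    have e1 : endp (γ m) (seg st m (n - m)) = γ n := by
      rw [seg_endp hr.nxt, show m + (n - m) = n by omega]
    have e2 : seg st m (n - m) ++ seg st n (N - n) = seg st m (N - m) := by
      have e := seg_append st m (n - m) (N - n)
      rw [show m + (n - m) = n by omega, show n - m + (N - n) = N - m by omega] at e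
      exact e
    have e3 : wt (tau α E) (γ m) (seg st m (n - m) ++ seg st n (N - n)) = W m - W N := by
      rw [e2, seg_wt hr.nxt hr.Weq, show m + (N - m) = N by omega]
    have e4 : wt (tau α E) (γ n) (seg st n (N - n)) = W n - W N := by
      rw [seg_wt hr.nxt hr.Weq, show n + (N - n) = N by omega]
    have hUB' : UB h η α K (wt (tau α E) (γ m) (seg st m (n - m) ++ seg st n (N - n))) (γ m) := by
      rw [e3]
      intro w hw1 hw2
      have e5 := hUB w hw1 hw2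
      have e6 := hr.Wpos N
      linarith
    have hpre : ∀ m1 s m2, seg st m (n - m) = m1 ++ s :: m2 →
        nrm (endp (γ m) m1 - γ m) ≤ nrm (γ m) ^ (1 - η / 8) := by
      intro m1 s m2 he
      obtain ⟨f1, f2⟩ := seg_prefix he
      rw [f2, seg_endp hr.nxt]
      exact hk _ (by omega) (by omega)
    have fin := hst E R0 hE hCC (γ m) (seg st m (n - m)) (seg st n (N - n)) hR1 hR0 hpre
      (by rw [e1]; exact hn) hUB'
    unfold Phi at fin
    rw [e1, e3, e4] at fin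
    exact fin
  have hW : ∀ c x : ℝ, Tendsto (fun N => c * (x - W N)) atTop (nhds (c * x)) := by
    intro c x
    have e := (hr.Wlim.const_sub x).const_mul c
    rw [sub_zero] at e
    exact e
  have hev : ∀ᶠ N : ℕ in atTop, n ≤ N := eventually_ge_atTop n
  have hR : Tendsto (fun N => nrm (γ m) ^ (α - 1) * (W m - W N) -
      nrm (γ n) ^ (α - 1) * (W n - W N)) atTop
      (nhds (nrm (γ m) ^ (α - 1) * W m - nrm (γ n) ^ (α - 1) * W n)) :=
    (hW _ _).sub (hW _ _)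
  refine ⟨?_, ?_, ?_⟩
  · refine le_of_tendsto_of_tendsto ?_ hR (hev.mono fun N hN => (key N hN).1)
    exact (((hW _ _).const_mul _).const_sub _).sub_const _
  · exact ge_of_tendsto hR (hev.mono fun N hN => (key N hN).2.1)
  · have e := (key n le_rfl).2.2
    linarith
-- END rst

-- BEGIN dsc
/-- the discretisation: `n (i+1)` is the smallest `k ≥ n i` with `f (γ (n i)) ≤ nrm (γ k - γ (n i))`
(exists by `hlim`; it is larger than `n i` since `f > 0`) -/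
theorem disc {γ : ℕ → V d} (hlim : Tendsto (fun n => nrm (γ n)) atTop atTop) (f : V d → ℝ)
    (hf : ∀ v, 0 < nrm v → 0 < f v) (N0 : ℕ) (hN0 : ∀ k, N0 ≤ k → 0 < nrm (γ k)) :
    ∃ n : ℕ → ℕ, n 0 = N0 ∧ StrictMono n ∧
      (∀ i k, n i ≤ k → k < n (i + 1) → nrm (γ k - γ (n i)) < f (γ (n i))) ∧
      ∀ i, f (γ (n i)) ≤ nrm (γ (n (i + 1)) - γ (n i)) := by
  classical
  have hex : ∀ m : ℕ, ∃ k, m ≤ k ∧ f (γ m) ≤ nrm (γ k - γ m) := by
    intro m
    obtain ⟨k, hk1, hk2⟩ := ((hlim.eventually_ge_atTop (f (γ m) + nrm (γ m))).and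
      (eventually_ge_atTop m)).exists
    refine ⟨k, hk2, ?_⟩
    have h1 := nrm_le_add (γ k) (γ m)
    linarith
  let g : ℕ → ℕ := fun m => Nat.find (hex m)
  have hg1 : ∀ m, m ≤ g m := fun m => (Nat.find_spec (hex m)).1
  have hg2 : ∀ m, f (γ m) ≤ nrm (γ (g m) - γ m) := fun m => (Nat.find_spec (hex m)).2
  have hg3 : ∀ m k, m ≤ k → k < g m → nrm (γ k - γ m) < f (γ m) := by
    intro m k h1 h2
    have h3 := Nat.find_min (hex m) h2
    by_contra h4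
    exact h3 ⟨h1, not_lt.1 h4⟩
  let n : ℕ → ℕ := fun i => g^[i] N0
  have hn0 : n 0 = N0 := rfl
  have hns : ∀ i, n (i + 1) = g (n i) := fun i => Function.iterate_succ_apply' g i N0
  have hge : ∀ i, N0 ≤ n i := by
    intro i
    induction i with
    | zero => exact hn0.ge
    | succ i ih => rw [hns]; exact ih.trans (hg1 _)
  have hlt : ∀ i, n i < n (i + 1) := by
    intro i
    rw [hns]
    refine lt_of_le_of_ne (hg1 _) ?_
    intro heq
    have h1 := hg2 (n i)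
    rw [← heq, sub_self, nrm_zero] at h1
    exact absurd (hf _ (hN0 _ (hge i))) (not_lt.2 h1)
  refine ⟨n, hn0, strictMono_nat_of_lt_succ hlt, ?_, ?_⟩
  · intro i k h1 h2
    rw [hns] at h2
    exact hg3 _ _ h1 h2
  · intro i
    rw [hns]
    exact hg2 _
-- END dsc

-- BEGIN mds
private theorem mds_ip (x y : V d) : ip x y = inner ℝ (toE x) (toE y) := by
  rw [PiLp.inner_apply, ip]
  refine Finset.sum_congr rfl fun j _ => ?_
  rw [toE_apply, toE_apply]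
  simp [mul_comm]

private theorem mds_pow {η r : ℝ} (hη : 0 < η) (hη1 : η ≤ 1) (hr : max 4 ((32 : ℝ) ^ (8 / η)) ≤ r) :
    r ^ (-(η / 8)) ≤ 1 / 32 ∧ 2 ≤ r ^ (1 - η / 8) ∧ r ^ (1 - η / 8) = r ^ (-(η / 8)) * r ∧
      r ^ (-(η / 4)) = (r ^ (-(η / 8))) ^ 2 ∧ r ^ (1 - η / 4) = (r ^ (-(η / 8))) ^ 2 * r := by
  have h4 : (4 : ℝ) ≤ r := le_trans (le_max_left _ _) hr
  have h32 : (32 : ℝ) ^ (8 / η) ≤ r := le_trans (le_max_right _ _) hr
  have hr0 : 0 < r := by linarith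
  have e2 : r ^ (-(η / 4)) = (r ^ (-(η / 8))) ^ 2 := by
    rw [← Real.rpow_natCast (r ^ (-(η / 8))) 2, ← Real.rpow_mul hr0.le]
    congr 1
    push_cast
    ring
  refine ⟨?_, ?_, ?_, e2, ?_⟩
  · have h1 : (32 : ℝ) ≤ r ^ (η / 8) := by
      calc (32 : ℝ) = ((32 : ℝ) ^ (8 / η)) ^ (η / 8) := by
            rw [← Real.rpow_mul (by norm_num)]
            have : 8 / η * (η / 8) = 1 := by field_simp
            rw [this, Real.rpow_one]
        _ ≤ r ^ (η / 8) := Real.rpow_le_rpow (by positivity) h32 (by positivity)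
    rw [Real.rpow_neg hr0.le, one_div]
    exact inv_anti₀ (by norm_num) h1
  · calc (2 : ℝ) = (4 : ℝ) ^ (1 / 2 : ℝ) := by
          have : (4 : ℝ) = 2 ^ (2 : ℝ) := by norm_num
          rw [this, ← Real.rpow_mul (by norm_num)]
          norm_num
      _ ≤ r ^ (1 / 2 : ℝ) := Real.rpow_le_rpow (by norm_num) h4 (by norm_num)
      _ ≤ r ^ (1 - η / 8) := Real.rpow_le_rpow_of_exponent_le (by linarith) (by linarith)
  · rw [show (1 : ℝ) - η / 8 = -(η / 8) + 1 by ring, Real.rpow_add hr0, Real.rpow_one]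
  · rw [← e2, show (1 : ℝ) - η / 4 = -(η / 4) + 1 by ring, Real.rpow_add hr0, Real.rpow_one]

/-- the discretised ray satisfies `DS`: `ray_step` for `m = n i`, `n = n (i+1)`; `ub_crude` for `upW`;
`nrm_eq`, `UP_ip`-like `ip x y = inner ℝ (toE x) (toE y)`, `pr`; a step has length 1, so
`nrm (γ (n (i+1)) - γ (n i)) ≤ r ^ (1-η/8) + 1 ≤ 3/2 r ^ (1-η/8)` for large `r`;
`nrm y ^ (-(η/4)) = (nrm y ^ (-(η/8))) ^ 2`; `R1` large makes `r ^ (-η/8) ≤ 1/32` -/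
theorem mkDS {h : V d → ℝ} {a b C : ℝ} (hh : HF h a b C) {η : ℝ} (hη : 0 < η) (hη1 : η ≤ 1)
    {α : ℝ} (hα : 1 < α) {K : ℝ} (hK : 0 < K) :
    ∃ K1 R1 : ℝ, ∀ (E : Edge d → ℝ) (R0 : ℝ), (∀ e, 0 ≤ E e) → CC h η E R0 →
      ∀ (γ : ℕ → V d) (st : ℕ → Step d) (W : ℕ → ℝ), InfRay h η α K E γ st W →
      ∀ N0 : ℕ, (∀ k, N0 ≤ k → R1 ≤ nrm (γ k) ∧ R0 ≤ nrm (γ k) ∧ UB h η α K (W k) (γ k)) →
      ∀ n : ℕ → ℕ, n 0 = N0 → StrictMono n →
      (∀ i k, n i ≤ k → k < n (i + 1) → nrm (γ k - γ (n i)) < nrm (γ (n i)) ^ (1 - η / 8)) →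
      (∀ i, nrm (γ (n i)) ^ (1 - η / 8) ≤ nrm (γ (n (i + 1)) - γ (n i))) →
      DS (fun i => toE (γ (n i))) (fun i => W (n i)) (fun i => h (γ (n (i + 1)) - γ (n i)))
        a (|b| + 1) K K1 (2 * (|b| + 1) / (α - 1)) α (η / 8) := by
  obtain ⟨K1, R1, hK1, hstep⟩ := ray_step hh hη hη1 hα hK
  obtain ⟨R2, hcr⟩ := ub_crude hh hη hη1 hα hK
  refine ⟨K1, max (max R1 R2) (max 4 ((32 : ℝ) ^ (8 / η))), ?_⟩
  intro E R0 hE hCC γ st W hr N0 hN0 n hn0 hn hin hout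
  have hge : ∀ i, N0 ≤ n i := fun i => by
    rw [← hn0]
    exact hn.monotone (Nat.zero_le i)
  have hbig : ∀ i, max 4 ((32 : ℝ) ^ (8 / η)) ≤ nrm (γ (n i)) := fun i =>
    le_trans (le_max_right _ _) (hN0 (n i) (hge i)).1
  have hR1 : ∀ i, R1 ≤ nrm (γ (n i)) := fun i =>
    le_trans (le_trans (le_max_left _ _) (le_max_left _ _)) (hN0 (n i) (hge i)).1
  have hR2 : ∀ i, R2 ≤ nrm (γ (n i)) := fun i =>
    le_trans (le_trans (le_max_right _ _) (le_max_left _ _)) (hN0 (n i) (hge i)).1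
  have h4 : ∀ i, (4 : ℝ) ≤ nrm (γ (n i)) := fun i => le_trans (le_max_left _ _) (hbig i)
  have hR0 : ∀ i, R0 ≤ nrm (γ (n i)) := fun i => (hN0 (n i) (hge i)).2.1
  have hUB : ∀ i, UB h η α K (W (n i)) (γ (n i)) := fun i => (hN0 (n i) (hge i)).2.2
  have hlt : ∀ i, n i < n (i + 1) := fun i => hn (Nat.lt_succ_self i)
  have hS := fun i => hstep E R0 hE hCC γ st W hr (n i) (n (i + 1)) (hlt i) (hUB i) (hR1 i)
    (hR0 i) (fun k h1 h2 => (hin i k h1 h2).le) (hout i)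
  have hnE : ∀ i, ‖toE (γ (n i))‖ = nrm (γ (n i)) := fun i => (nrm_eq _).symm
  have hnD : ∀ i, ‖toE (γ (n (i + 1))) - toE (γ (n i))‖ = nrm (γ (n (i + 1)) - γ (n i)) := fun i => by
    rw [nrm_eq, toE_sub]
  have hIn : ∀ i q, inner ℝ (toE (γ (n (i + 1))) - toE (γ (n i))) (toE (γ (n q))) =
      ip (γ (n (i + 1)) - γ (n i)) (γ (n q)) := fun i q => by
    rw [mds_ip, toE_sub]
  have hbb : b ≤ |b| + 1 := by linarith [le_abs_self b]
  have hα1 : 0 < α - 1 := by linarith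
  exact
    { hα := hα
      hθ := by positivity
      hθ1 := by linarith
      ha := hh.pos
      hb := by positivity
      hK := hK
      hK1 := hK1
      hM := by positivity
      one := fun i => by
        show 1 ≤ ‖toE (γ (n i))‖
        rw [hnE]
        linarith [h4 i]
      small := fun i => by
        show ‖toE (γ (n i))‖ ^ (-(η / 8)) ≤ 1 / 32
        rw [hnE]
        exact (mds_pow hη hη1 (hbig i)).1
      lim := by
        have := hr.lim.comp hn.tendsto_atTop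
        refine this.congr fun i => ?_
        show nrm (γ (n i)) = ‖toE (γ (n i))‖
        rw [hnE]
      stp := fun i => by
        show ‖toE (γ (n (i + 1))) - toE (γ (n i))‖ ≤
          3 / 2 * ‖toE (γ (n i))‖ ^ (-(η / 8)) * ‖toE (γ (n i))‖
        rw [hnD, hnE]
        obtain ⟨-, p2, p3, -, -⟩ := mds_pow hη hη1 (hbig i)
        have hk1 : n i ≤ n (i + 1) - 1 := by have := hlt i; omega
        have hk2 : n (i + 1) - 1 < n (i + 1) := by have := hlt i; omega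
        have h1 := hin i (n (i + 1) - 1) hk1 hk2
        have h2 := hr.nxt (n (i + 1) - 1)
        have h3 : n (i + 1) - 1 + 1 = n (i + 1) := by have := hlt i; omega
        rw [h3] at h2
        have h5 : γ (n (i + 1)) - γ (n i) =
            (γ (n (i + 1) - 1) - γ (n i)) + vec (st (n (i + 1) - 1)) := by
          rw [h2]
          abel
        have h6 := nrm_add_le (γ (n (i + 1) - 1) - γ (n i)) (vec (st (n (i + 1) - 1)))
        rw [nrm_vec] at h6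
        rw [h5]
        rw [mul_assoc, ← p3]
        linarith
      Wpos := fun i => hr.Wpos _
      upW := fun i => by
        show ‖toE (γ (n i))‖ ^ (α - 1) * W (n i) ≤ 2 * (|b| + 1) / (α - 1)
        rw [hnE]
        have h1 := hcr (W (n i)) (γ (n i)) (hR2 i) (hUB i)
        have hr0 : 0 < nrm (γ (n i)) := by linarith [h4 i]
        have e1 : nrm (γ (n i)) ^ (α - 1) * nrm (γ (n i)) ^ (1 - α) = 1 := by
          rw [← Real.rpow_add hr0]
          simp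
        calc nrm (γ (n i)) ^ (α - 1) * W (n i)
            ≤ nrm (γ (n i)) ^ (α - 1) * (2 * b / (α - 1) * nrm (γ (n i)) ^ (1 - α)) := by
              gcongr
          _ = 2 * b / (α - 1) * (nrm (γ (n i)) ^ (α - 1) * nrm (γ (n i)) ^ (1 - α)) := by ring
          _ = 2 * b / (α - 1) := by rw [e1, mul_one]
          _ ≤ 2 * (|b| + 1) / (α - 1) := by gcongr
      decW := fun i => by
        show a / 2 * ‖toE (γ (n i))‖ ^ (-(η / 8)) * ‖toE (γ (n i))‖ ^ (1 - α) ≤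
          W (n i) - W (n (i + 1))
        rw [hnE]
        exact (hS i).2.2
      H0 := fun i => hh.nonneg _
      Hb := fun i => by
        show h (γ (n (i + 1)) - γ (n i)) ≤ (|b| + 1) * ‖toE (γ (n (i + 1))) - toE (γ (n i))‖
        rw [hnD]
        exact (hh.up _).trans (mul_le_mul_of_nonneg_right hbb (nrm_nonneg _))
      hB := fun i => by
        show h (γ (n (i + 1)) - γ (n i)) / ‖toE (γ (n i))‖ -
            (α - 1) * (inner ℝ (toE (γ (n (i + 1))) - toE (γ (n i))) (toE (γ (n i))) /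
              ‖toE (γ (n i))‖ / ‖toE (γ (n i))‖) * (‖toE (γ (n i))‖ ^ (α - 1) * W (n i)) -
            K1 * (‖toE (γ (n i))‖ ^ (-(η / 8))) ^ 2 ≤
          ‖toE (γ (n i))‖ ^ (α - 1) * W (n i) - ‖toE (γ (n (i + 1)))‖ ^ (α - 1) * W (n (i + 1))
        rw [hIn, hnE, hnE]
        have h1 := (hS i).1
        obtain ⟨-, -, -, p4, -⟩ := mds_pow hη hη1 (hbig i)
        rw [p4] at h1
        exact h1
      hF := fun i => by
        show -K1 * (‖toE (γ (n i))‖ ^ (-(η / 8))) ^ 2 ≤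
          ‖toE (γ (n i))‖ ^ (α - 1) * W (n i) - ‖toE (γ (n (i + 1)))‖ ^ (α - 1) * W (n (i + 1))
        rw [hnE, hnE]
        have h1 := (hS i).2.1
        obtain ⟨-, -, -, p4, -⟩ := mds_pow hη hη1 (hbig i)
        rw [p4] at h1
        exact h1
      hD := fun i q => by
        show ‖toE (γ (n (i + 1))) - toE (γ (n i))‖ ≤
            2 * (‖toE (γ (n q))‖ ^ (-(η / 8)) * ‖toE (γ (n q))‖) →
          (‖toE (γ (n q))‖ ^ (-(η / 8))) ^ 2 * ‖toE (γ (n q))‖ / 2 ≤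
            inner ℝ (toE (γ (n (i + 1))) - toE (γ (n i))) (toE (γ (n q))) / ‖toE (γ (n q))‖ →
          W (n q) ≤ (1 + K * ‖toE (γ (n q))‖ ^ (-(η / 8))) *
            (h (γ (n (i + 1)) - γ (n i)) / ((α - 1) *
              (inner ℝ (toE (γ (n (i + 1))) - toE (γ (n i))) (toE (γ (n q))) /
                ‖toE (γ (n q))‖))) * ‖toE (γ (n q))‖ ^ (1 - α)
        rw [hnD, hIn, hnE]
        intro h1 h2
        obtain ⟨-, -, p3, -, p5⟩ := mds_pow hη hη1 (hbig q)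
        rw [← p3] at h1
        rw [← p5] at h2
        exact hUB q _ h1 h2 }
-- END mds

-- BEGIN cnt
/-- each index belongs to a bounded number of the blocks: if `i` is in the blocks of `k < k'` then
`c l ^ k ≤ W i ≤ c' l ^ k'`, so `l ^ (k'-k) ≥ c / c'`, `k' - k < N`; exchange the sums
(`c' ≤ 0` makes all blocks empty or is impossible; take `N ≥ 1`; `B ≥ 0` by `n = 0`) -/
theorem block_sum {b W : ℕ → ℝ} {B c c' l : ℝ} (hb : ∀ i, 0 ≤ b i)
    (hB : ∀ n, ∑ i ∈ range n, b i ≤ B) (hc : 0 < c) (hl : 0 < l) (hl1 : l < 1) :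
    ∃ N : ℕ, ∀ (I : Finset ℕ) (p q : ℕ → ℕ),
      (∀ k ∈ I, ∀ i ∈ Icc (p k) (q k), c * l ^ k ≤ W i ∧ W i ≤ c' * l ^ k) →
      ∑ k ∈ I, ∑ i ∈ Icc (p k) (q k), b i ≤ N * B := by
  have hc'' : 0 < |c'| + 1 := by positivity
  obtain ⟨N, hN⟩ := exists_pow_lt_of_lt_one (div_pos hc hc'') hl1
  rw [lt_div_iff₀ hc''] at hN
  refine ⟨N, fun I p q hI => ?_⟩
  have hcard : ∀ i : ℕ, ((I.filter fun k => i ∈ Icc (p k) (q k)).card : ℝ) ≤ N := by
    intro i
    rcases (I.filter fun k => i ∈ Icc (p k) (q k)).eq_empty_or_nonempty with h0 | h0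
    · rw [h0, Finset.card_empty]
      exact Nat.cast_le.2 (Nat.zero_le N)
    · have hsub : (I.filter fun k => i ∈ Icc (p k) (q k)) ⊆
          Ico ((I.filter fun k => i ∈ Icc (p k) (q k)).min' h0)
            ((I.filter fun k => i ∈ Icc (p k) (q k)).min' h0 + N) := by
        intro k hk
        rw [Finset.mem_Ico]
        have h1 := Finset.min'_le _ k hk
        refine ⟨h1, ?_⟩
        by_contra h2
        rw [not_lt] at h2
        obtain ⟨t, ht⟩ := Nat.exists_eq_add_of_le h2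
        have h3 := Finset.min'_mem _ h0
        obtain ⟨h4, h5⟩ := Finset.mem_filter.1 h3
        obtain ⟨h6, h7⟩ := Finset.mem_filter.1 hk
        have h8 := (hI _ h4 i h5).1
        have h9 := (hI _ h6 i h7).2
        set m := (I.filter fun k => i ∈ Icc (p k) (q k)).min' h0 with hm
        rw [ht, pow_add, pow_add] at h9
        have h10 : 0 < l ^ m := pow_pos hl m
        have h11 : l ^ N * l ^ t ≤ l ^ N := by
          have := mul_le_mul_of_nonneg_left (pow_le_one₀ hl.le hl1.le : l ^ t ≤ 1)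
            (pow_pos hl N).le
          linarith
        have h12 : c' ≤ |c'| + 1 := (le_abs_self c').trans (by linarith)
        have h13 : c' * (l ^ N * l ^ t) ≤ (|c'| + 1) * l ^ N := by
          calc c' * (l ^ N * l ^ t) ≤ (|c'| + 1) * (l ^ N * l ^ t) :=
                mul_le_mul_of_nonneg_right h12 (by positivity)
            _ ≤ (|c'| + 1) * l ^ N := mul_le_mul_of_nonneg_left h11 hc''.le
        have h14 : c' * (l ^ m * l ^ N * l ^ t) ≤ l ^ m * ((|c'| + 1) * l ^ N) := by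
          calc c' * (l ^ m * l ^ N * l ^ t) = l ^ m * (c' * (l ^ N * l ^ t)) := by ring
            _ ≤ l ^ m * ((|c'| + 1) * l ^ N) := mul_le_mul_of_nonneg_left h13 h10.le
        have h15 : l ^ m * ((|c'| + 1) * l ^ N) < l ^ m * c := by
          apply mul_lt_mul_of_pos_left _ h10
          linarith
        linarith
      have h1 := Finset.card_le_card hsub
      rw [Nat.card_Ico] at h1
      have h2 : (I.filter fun k => i ∈ Icc (p k) (q k)).card ≤ N := by omega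
      exact_mod_cast h2
  have hM : ∀ k ∈ I, Icc (p k) (q k) ⊆ range (I.sup q + 1) := by
    intro k hk i hi
    rw [Finset.mem_Icc] at hi
    rw [Finset.mem_range]
    have := Finset.le_sup (f := q) hk
    omega
  have e1 : ∑ k ∈ I, ∑ i ∈ Icc (p k) (q k), b i =
      ∑ k ∈ I, ∑ i ∈ range (I.sup q + 1), if i ∈ Icc (p k) (q k) then b i else 0 := by
    refine Finset.sum_congr rfl fun k hk => ?_
    rw [← Finset.sum_filter]
    refine Finset.sum_congr ?_ fun _ _ => rfl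
    ext i
    rw [Finset.mem_filter]
    exact ⟨fun h => ⟨hM k hk h, h⟩, fun h => h.2⟩
  rw [e1, Finset.sum_comm]
  calc ∑ i ∈ range (I.sup q + 1), ∑ k ∈ I, (if i ∈ Icc (p k) (q k) then b i else 0)
      ≤ ∑ i ∈ range (I.sup q + 1), (N : ℝ) * b i := by
        refine Finset.sum_le_sum fun i _ => ?_
        rw [← Finset.sum_filter, Finset.sum_const, nsmul_eq_mul]
        exact mul_le_mul_of_nonneg_right (hcard i) (hb i)
    _ = N * ∑ i ∈ range (I.sup q + 1), b i := by rw [Finset.mul_sum]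
    _ ≤ N * B := mul_le_mul_of_nonneg_left (hB _) (Nat.cast_nonneg N)
-- END cnt

-- BEGIN man
private theorem man_ip (x y : V d) : ip x y = inner ℝ (toE x) (toE y) := by
  rw [PiLp.inner_apply, ip]
  refine Finset.sum_congr rfl fun j _ => ?_
  rw [toE_apply, toE_apply]
  simp [mul_comm]

private theorem man_blk {n : ℕ → ℕ} (hn : StrictMono n) {m : ℕ} (hm : n 0 ≤ m) :
    ∃ i, n i ≤ m ∧ m < n (i + 1) := by
  classical
  have hex : ∃ i, m < n i := ⟨m + 1, by have := hn.le_apply (x := m + 1); omega⟩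
  have h1 := Nat.find_spec hex
  have h0 : Nat.find hex ≠ 0 := by
    intro h
    rw [h] at h1
    omega
  obtain ⟨i, hi⟩ := Nat.exists_eq_succ_of_ne_zero h0
  refine ⟨i, ?_, by rw [hi] at h1; exact h1⟩
  have := Nat.find_min hex (m := i) (by omega)
  omega

private theorem man_pow (k : ℕ) (z : ℝ) : ((2 : ℝ) ^ k) ^ z = ((2 : ℝ) ^ z) ^ k := by
  have h2 : (0 : ℝ) ≤ 2 := by norm_num
  calc ((2 : ℝ) ^ k) ^ z = ((2 : ℝ) ^ (k : ℝ)) ^ z := by rw [Real.rpow_natCast]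
    _ = (2 : ℝ) ^ ((k : ℝ) * z) := (Real.rpow_mul h2 _ _).symm
    _ = (2 : ℝ) ^ (z * (k : ℝ)) := by rw [mul_comm]
    _ = ((2 : ℝ) ^ z) ^ (k : ℝ) := Real.rpow_mul h2 _ _
    _ = ((2 : ℝ) ^ z) ^ k := by rw [Real.rpow_natCast]

private theorem man_W {r w g M α : ℝ} {k : ℕ} (hα : 1 < α) (hg : 0 < g) (hM : 0 < M)
    (h1 : 2 ^ k / 2 ≤ r) (h2 : r ≤ 4 * 2 ^ k) (hl : g ≤ r ^ (α - 1) * w)
    (hu : r ^ (α - 1) * w ≤ M) :
    g * (4 : ℝ) ^ (1 - α) * ((2 : ℝ) ^ (1 - α)) ^ k ≤ w ∧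
      w ≤ M * (1 / 2 : ℝ) ^ (1 - α) * ((2 : ℝ) ^ (1 - α)) ^ k := by
  have h2k : (0 : ℝ) < 2 ^ k := by positivity
  have hr : 0 < r := by linarith
  have e1 : r ^ (α - 1) * r ^ (1 - α) = 1 := by
    rw [← Real.rpow_add hr]
    simp
  have hw : w = (r ^ (α - 1) * w) * r ^ (1 - α) := by
    calc w = (r ^ (α - 1) * r ^ (1 - α)) * w := by rw [e1, one_mul]
      _ = _ := by ring
  have hz : 1 - α ≤ 0 := by linarith
  have l1 : (4 : ℝ) ^ (1 - α) * ((2 : ℝ) ^ (1 - α)) ^ k ≤ r ^ (1 - α) := by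
    have := Real.rpow_le_rpow_of_nonpos hr h2 hz
    rwa [Real.mul_rpow (by norm_num) h2k.le, man_pow] at this
  have l2 : r ^ (1 - α) ≤ (1 / 2 : ℝ) ^ (1 - α) * ((2 : ℝ) ^ (1 - α)) ^ k := by
    have := Real.rpow_le_rpow_of_nonpos (by positivity : (0 : ℝ) < 1 / 2 * 2 ^ k)
      (by linarith : 1 / 2 * 2 ^ k ≤ r) hz
    rwa [Real.mul_rpow (by norm_num) h2k.le, man_pow] at this
  have hr1 : 0 < r ^ (1 - α) := Real.rpow_pos_of_pos hr _
  constructor
  · calc g * (4 : ℝ) ^ (1 - α) * ((2 : ℝ) ^ (1 - α)) ^ k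
        = g * ((4 : ℝ) ^ (1 - α) * ((2 : ℝ) ^ (1 - α)) ^ k) := by ring
      _ ≤ (r ^ (α - 1) * w) * r ^ (1 - α) := mul_le_mul hl l1 (by positivity) (by linarith)
      _ = w := hw.symm
  · calc w = (r ^ (α - 1) * w) * r ^ (1 - α) := hw
      _ ≤ M * ((1 / 2 : ℝ) ^ (1 - α) * ((2 : ℝ) ^ (1 - α)) ^ k) :=
        mul_le_mul hu l2 hr1.le hM.le
      _ = M * (1 / 2 : ℝ) ^ (1 - α) * ((2 : ℝ) ^ (1 - α)) ^ k := by ring

private theorem man_geo {F : Type*} [NormedAddCommGroup F] [InnerProductSpace ℝ F] {x y : F}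
    {δ t : ℝ} (ht : 0 < t) (hδ : δ ≤ 1 / 32) (hxy : ‖x - y‖ ≤ δ * ‖y‖) (h1 : t ≤ ‖x‖)
    (h2 : ‖x‖ ≤ 2 * t) : t / 2 ≤ ‖y‖ ∧ ‖y‖ ≤ 4 * t := by
  have hy := norm_nonneg y
  have h3 : ‖x - y‖ ≤ 1 / 32 * ‖y‖ := hxy.trans (mul_le_mul_of_nonneg_right hδ hy)
  have h4 : ‖x‖ ≤ ‖y‖ + ‖x - y‖ := by
    calc ‖x‖ = ‖y + (x - y)‖ := by congr 1; abel
      _ ≤ _ := norm_add_le _ _
  have h5 : ‖y‖ ≤ ‖x‖ + ‖x - y‖ := by
    calc ‖y‖ = ‖x - (x - y)‖ := by congr 1; abel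
      _ ≤ _ := norm_sub_le _ _
  constructor <;> linarith

private theorem man_tri {F : Type*} [NormedAddCommGroup F] [InnerProductSpace ℝ F]
    {a b c e : F} {s t : ℝ} (h1 : ‖a - b‖ ≤ 2 * s) (h2 : ‖e - c‖ ≤ 2 * t) :
    ‖a - e‖ ^ 2 ≤ 12 * s ^ 2 + 12 * t ^ 2 + 3 * ‖b - c‖ ^ 2 := by
  have h : ‖a - e‖ ≤ ‖a - b‖ + ‖b - c‖ + ‖e - c‖ := by
    calc ‖a - e‖ = ‖(a - b) + (b - c) - (e - c)‖ := by congr 1; abel
      _ ≤ ‖(a - b) + (b - c)‖ + ‖e - c‖ := norm_sub_le _ _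
      _ ≤ _ := by gcongr; exact norm_add_le _ _
  have h0 := norm_nonneg (a - e)
  have h01 := norm_nonneg (a - b)
  have h02 := norm_nonneg (b - c)
  have h03 := norm_nonneg (e - c)
  have h4 : ‖a - e‖ ^ 2 ≤ (2 * s + ‖b - c‖ + 2 * t) ^ 2 := by
    apply pow_le_pow_left₀ h0
    linarith
  nlinarith [sq_nonneg (2 * s - ‖b - c‖), sq_nonneg (2 * s - 2 * t), sq_nonneg (‖b - c‖ - 2 * t)]

/-- the turning of a ray in the dyadic annuli, large radii: for `k ∈ I` let `i`, `j` be the blocks of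
`m k`, `m' k` (`n i ≤ m k < n (i+1)`), say `i ≤ j` (symmetric). `‖x^ - y_i^‖ ≤ 2 De i` (`unit_close`,
`hin`), `Σ_[i, j) De ≤ 2 M / a W i / W j ≤ const` (`DS.sumde`, `upW`, `DS.glow`, radii between
`2 ^ (k-1)` and `2 ^ (k+2)`), `DS.far` with `DS.piece`, `unit_sq`, `De ^ 2 ≤ Bb`; so
`1 - cos ≤ C Σ_{l ∈ Icc i j} Bb l`, and for these `l`: `c l0 ^ k ≤ W (n l) ≤ c' l0 ^ k`,
`l0 = 2 ^ (1-α)`; `block_sum`, `DS.bsum` -/
theorem ray_ds {γ : ℕ → V d} {W : ℕ → ℝ} {n : ℕ → ℕ} {H : ℕ → ℝ} {a b K K1 M α θ : ℝ}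
    (h : DS (fun i => toE (γ (n i))) (fun i => W (n i)) H a b K K1 M α θ) (hn : StrictMono n)
    (hin : ∀ i k, n i ≤ k → k < n (i + 1) →
      nrm (γ k - γ (n i)) ≤ nrm (γ (n i)) ^ (-θ) * nrm (γ (n i))) :
    ∃ C : ℝ, ∀ (I : Finset ℕ) (m m' : ℕ → ℕ),
      (∀ k ∈ I, n 0 ≤ m k ∧ n 0 ≤ m' k ∧ 2 ^ k ≤ nrm (γ (m k)) ∧ nrm (γ (m k)) ≤ 2 ^ (k + 1) ∧
        2 ^ k ≤ nrm (γ (m' k)) ∧ nrm (γ (m' k)) ≤ 2 ^ (k + 1)) →
      ∑ k ∈ I, (1 - ip (γ (m k)) (γ (m' k)) / (nrm (γ (m k)) * nrm (γ (m' k)))) ≤ C := by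
  obtain ⟨B, hB⟩ := h.bsum
  have hα := h.hα
  have ha := h.ha
  have hM := h.hM
  set y : ℕ → EuclideanSpace ℝ (Fin d) := fun i => toE (γ (n i)) with hy
  set w : ℕ → ℝ := fun i => W (n i) with hw
  set g : ℝ := a / 3 * (2 : ℝ) ^ (-α) with hg
  have hg0 : 0 < g := by positivity
  set l0 : ℝ := (2 : ℝ) ^ (1 - α) with hl
  have hl0 : 0 < l0 := by positivity
  have hl1 : l0 < 1 := Real.rpow_lt_one_of_one_lt_of_neg (by norm_num) (by linarith)
  set c : ℝ := g * (4 : ℝ) ^ (1 - α) with hc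
  have hc0 : 0 < c := by positivity
  set c' : ℝ := M * (1 / 2 : ℝ) ^ (1 - α) with hc'
  have hc0' : 0 < c' := by positivity
  obtain ⟨N, hN⟩ := block_sum (b := Bb y w K1 α θ) (W := w) (c' := c')
    (fun i => (h.bnn i).2.2.1) hB hc0 hl0 hl1
  obtain ⟨N0, hN0⟩ := exists_nat_ge (32 * (2 * M / a * (c' / c)))
  set C0 : ℝ := 4 * ((1 + (3 * K * b + 4 * (α - 1) * M) + (α - 1) * (1 + K1)) /
        ((α - 1) * (a / 3 * (2 : ℝ) ^ (-α))) + 18) with hC0
  have hC00 : 0 ≤ C0 := by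
    have h1 := h.hK
    have h2 := h.hb
    have h3 := h.hK1
    have h4 : 0 < α - 1 := by linarith
    positivity
  have hdec : Antitone w := by
    refine antitone_nat_of_succ_le fun i => ?_
    have h1 := h.decW i
    have h2 := h.one i
    have h3 : 0 < ‖y i‖ := by linarith
    have h4 : 0 ≤ a / 2 * ‖y i‖ ^ (-θ) * ‖y i‖ ^ (1 - α) := by positivity
    linarith
  have pair : ∀ (k i j m1 m2 : ℕ), i ≤ j → n i ≤ m1 → m1 < n (i + 1) → n j ≤ m2 →
      m2 < n (j + 1) → 2 ^ k ≤ nrm (γ m1) → nrm (γ m1) ≤ 2 ^ (k + 1) → 2 ^ k ≤ nrm (γ m2) →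
      nrm (γ m2) ≤ 2 ^ (k + 1) →
      (∀ l ∈ Icc i j, c * l0 ^ k ≤ w l ∧ w l ≤ c' * l0 ^ k) ∧
      1 - ip (γ m1) (γ m2) / (nrm (γ m1) * nrm (γ m2)) ≤
        (12 + 3 / 2 * ((N0 + 1) ^ 2 * C0)) * ∑ l ∈ Icc i j, Bb y w K1 α θ l := by
    intro k i j m1 m2 hij a1 a2 b1 b2 r1 r2 r3 r4
    have h2k : (0 : ℝ) < 2 ^ k := by positivity
    have hpw : (2 : ℝ) ^ (k + 1) = 2 * 2 ^ k := by ring
    have q1 : ‖toE (γ m1) - y i‖ ≤ ‖y i‖ ^ (-θ) * ‖y i‖ := by
      have := hin i m1 a1 a2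
      rw [nrm_eq, nrm_eq, toE_sub] at this
      exact this
    have q2 : ‖toE (γ m2) - y j‖ ≤ ‖y j‖ ^ (-θ) * ‖y j‖ := by
      have := hin j m2 b1 b2
      rw [nrm_eq, nrm_eq, toE_sub] at this
      exact this
    rw [nrm_eq] at r1 r2 r3 r4
    rw [hpw] at r2 r4
    obtain ⟨s1, s2⟩ := man_geo h2k (h.small i) q1 r1 r2
    obtain ⟨s3, s4⟩ := man_geo h2k (h.small j) q2 r3 r4
    have W1 := man_W hα hg0 hM s1 s2 (h.glow i) (h.upW i)
    have W2 := man_W hα hg0 hM s3 s4 (h.glow j) (h.upW j)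
    have hwl : ∀ l ∈ Icc i j, c * l0 ^ k ≤ w l ∧ w l ≤ c' * l0 ^ k := by
      intro l hl'
      rw [Finset.mem_Icc] at hl'
      exact ⟨W2.1.trans (hdec hl'.2), (hdec hl'.1).trans W1.2⟩
    refine ⟨hwl, ?_⟩
    have hwi := (hwl i (Finset.mem_Icc.mpr ⟨le_refl _, hij⟩)).2
    have hwj := (hwl j (Finset.mem_Icc.mpr ⟨hij, le_refl _⟩)).1
    have hlk : 0 < l0 ^ k := by positivity
    have hwj0 : 0 < w j := lt_of_lt_of_le (by positivity) hwj
    have hrat : w i / w j ≤ c' / c := by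
      rw [div_le_div_iff₀ hwj0 hc0]
      calc w i * c ≤ (c' * l0 ^ k) * c := by gcongr
        _ = c' * (c * l0 ^ k) := by ring
        _ ≤ c' * w j := by gcongr
    have hsum : ∑ l ∈ Ico i j, De y θ l ≤ N0 / 32 := by
      calc ∑ l ∈ Ico i j, De y θ l ≤ 2 * M / a * (w i / w j) := h.sumde hij
        _ ≤ 2 * M / a * (c' / c) := by gcongr
        _ ≤ N0 / 32 := by linarith
    have hfar := h.far hC00 (fun p q hpq hs => h.piece hpq hs) N0 hij hsum
    have hsub : ∑ l ∈ Ico i j, Bb y w K1 α θ l ≤ ∑ l ∈ Icc i j, Bb y w K1 α θ l :=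
      Finset.sum_le_sum_of_subset_of_nonneg Finset.Ico_subset_Icc_self
        (fun l _ _ => (h.bnn l).2.2.1)
    have hbi : De y θ i ^ 2 ≤ ∑ l ∈ Icc i j, Bb y w K1 α θ l :=
      (h.bnn i).2.1.trans (Finset.single_le_sum (f := Bb y w K1 α θ)
        (fun l _ => (h.bnn l).2.2.1) (Finset.mem_Icc.mpr ⟨le_refl _, hij⟩))
    have hbj : De y θ j ^ 2 ≤ ∑ l ∈ Icc i j, Bb y w K1 α θ l :=
      (h.bnn j).2.1.trans (Finset.single_le_sum (f := Bb y w K1 α θ)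
        (fun l _ => (h.bnn l).2.2.1) (Finset.mem_Icc.mpr ⟨hij, le_refl _⟩))
    have x1 : 0 < ‖toE (γ m1)‖ := lt_of_lt_of_le h2k r1
    have x2 : 0 < ‖toE (γ m2)‖ := lt_of_lt_of_le h2k r3
    have y1 : 0 < ‖y i‖ := by linarith
    have y2 : 0 < ‖y j‖ := by linarith
    have c1 : ‖(‖toE (γ m1)‖⁻¹ • toE (γ m1)) - (‖y i‖⁻¹ • y i)‖ ≤ 2 * De y θ i := by
      refine (unit_close x1 y1).trans ?_
      rw [div_le_iff₀ y1]
      unfold De
      linarith
    have c2 : ‖(‖toE (γ m2)‖⁻¹ • toE (γ m2)) - (‖y j‖⁻¹ • y j)‖ ≤ 2 * De y θ j := by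
      refine (unit_close x2 y2).trans ?_
      rw [div_le_iff₀ y2]
      unfold De
      linarith
    have ht := man_tri c1 c2
    rw [unit_sq x1 x2] at ht
    rw [nrm_eq, nrm_eq, man_ip]
    have hS : (N0 + 1 : ℝ) ^ 2 * C0 * ∑ l ∈ Ico i j, Bb y w K1 α θ l ≤
        (N0 + 1) ^ 2 * C0 * ∑ l ∈ Icc i j, Bb y w K1 α θ l := by gcongr
    set S := ∑ l ∈ Icc i j, Bb y w K1 α θ l with hSdef
    have e2 : (12 + 3 / 2 * (((N0 : ℝ) + 1) ^ 2 * C0)) * S =
        12 * S + 3 / 2 * ((N0 + 1) ^ 2 * C0 * S) := by ring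
    rw [e2]
    linarith
  refine ⟨(12 + 3 / 2 * ((N0 + 1) ^ 2 * C0)) * (N * B), fun I m m' hI => ?_⟩
  have key : ∀ k ∈ I, ∃ p q : ℕ, (∀ l ∈ Icc p q, c * l0 ^ k ≤ w l ∧ w l ≤ c' * l0 ^ k) ∧
      1 - ip (γ (m k)) (γ (m' k)) / (nrm (γ (m k)) * nrm (γ (m' k))) ≤
        (12 + 3 / 2 * ((N0 + 1) ^ 2 * C0)) * ∑ l ∈ Icc p q, Bb y w K1 α θ l := by
    intro k hk
    obtain ⟨g1, g2, g3, g4, g5, g6⟩ := hI k hk
    obtain ⟨i, i1, i2⟩ := man_blk hn g1
    obtain ⟨j, j1, j2⟩ := man_blk hn g2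
    rcases le_total i j with hij | hij
    · exact ⟨i, j, pair k i j (m k) (m' k) hij i1 i2 j1 j2 g3 g4 g5 g6⟩
    · refine ⟨j, i, ?_⟩
      have := pair k j i (m' k) (m k) hij j1 j2 i1 i2 g5 g6 g3 g4
      rwa [man_ip (γ (m' k)), real_inner_comm, ← man_ip, mul_comm (nrm (γ (m' k)))] at this
  choose! p q hpq using key
  calc ∑ k ∈ I, (1 - ip (γ (m k)) (γ (m' k)) / (nrm (γ (m k)) * nrm (γ (m' k))))
      ≤ ∑ k ∈ I, (12 + 3 / 2 * ((N0 + 1) ^ 2 * C0)) * ∑ l ∈ Icc (p k) (q k), Bb y w K1 α θ l :=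
        Finset.sum_le_sum fun k hk => (hpq k hk).2
    _ = (12 + 3 / 2 * ((N0 + 1) ^ 2 * C0)) * ∑ k ∈ I, ∑ l ∈ Icc (p k) (q k),
          Bb y w K1 α θ l := by rw [Finset.mul_sum]
    _ ≤ (12 + 3 / 2 * ((N0 + 1) ^ 2 * C0)) * (N * B) :=
        mul_le_mul_of_nonneg_left (hN I p q fun k hk => (hpq k hk).1) (by positivity)
-- END man

-- BEGIN all
theorem all_term_le (x y : V d) : 1 - ip x y / (nrm x * nrm y) ≤ 2 := by
  have h := abs_ip_le x y
  have h1 := neg_abs_le (ip x y)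
  have h0 : 0 ≤ nrm x * nrm y := mul_nonneg (nrm_nonneg x) (nrm_nonneg y)
  rcases h0.eq_or_lt with h2 | h2
  · rw [← h2, div_zero]
    norm_num
  · have h3 : -1 ≤ ip x y / (nrm x * nrm y) := by
      rw [le_div_iff₀ h2]
      linarith
    linarith

/-- the turning of a ray in the dyadic annuli: `N0` such that for `k ≥ N0` all the conditions of `mkDS`
hold, `disc` with `f v = nrm v ^ (1 - η/8)`, `mkDS`, `ray_ds`; the `k` for which `m k` or `m' k` is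
smaller than `N0` have `2 ^ k ≤ max_{i < N0} nrm (γ i)`, finitely many, each term is at most `2` -/
theorem ray_all {h : V d → ℝ} {a b C : ℝ} (hh : HF h a b C) {η : ℝ} (hη : 0 < η) (hη1 : η ≤ 1)
    {α : ℝ} (hα : 1 < α) {K : ℝ} (hK : 0 < K) {E : Edge d → ℝ} {R0 : ℝ} (hE : ∀ e, 0 ≤ E e)
    (hCC : CC h η E R0) {γ : ℕ → V d} {st : ℕ → Step d} {W : ℕ → ℝ}
    (hr : InfRay h η α K E γ st W) :
    ∃ C : ℝ, ∀ (I : Finset ℕ) (m m' : ℕ → ℕ),
      (∀ k ∈ I, 2 ^ k ≤ nrm (γ (m k)) ∧ nrm (γ (m k)) ≤ 2 ^ (k + 1) ∧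
        2 ^ k ≤ nrm (γ (m' k)) ∧ nrm (γ (m' k)) ≤ 2 ^ (k + 1)) →
      ∑ k ∈ I, (1 - ip (γ (m k)) (γ (m' k)) / (nrm (γ (m k)) * nrm (γ (m' k)))) ≤ C := by
  obtain ⟨K1, R1, hmk⟩ := mkDS hh hη hη1 hα hK
  have hlarge : ∀ᶠ n in atTop, max 1 (max R1 R0) ≤ nrm (γ n) :=
    hr.lim.eventually_ge_atTop (max 1 (max R1 R0))
  obtain ⟨N0, hN0⟩ := eventually_atTop.1 (hlarge.and hr.ub)
  have hone : ∀ k, N0 ≤ k → 1 ≤ nrm (γ k) := fun k hk => (le_max_left _ _).trans (hN0 k hk).1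
  have hR1 : ∀ k, N0 ≤ k → R1 ≤ nrm (γ k) := fun k hk =>
    ((le_max_left _ _).trans (le_max_right _ _)).trans (hN0 k hk).1
  have hR0 : ∀ k, N0 ≤ k → R0 ≤ nrm (γ k) := fun k hk =>
    ((le_max_right _ _).trans (le_max_right _ _)).trans (hN0 k hk).1
  obtain ⟨n, hn0, hnm, hnlt, hnge⟩ := disc hr.lim (fun v => nrm v ^ (1 - η / 8))
    (fun v hv => Real.rpow_pos_of_pos hv _) N0 (fun k hk => lt_of_lt_of_le one_pos (hone k hk))
  have hDS := hmk E R0 hE hCC γ st W hr N0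
    (fun k hk => ⟨hR1 k hk, hR0 k hk, (hN0 k hk).2⟩) n hn0 hnm hnlt hnge
  have hin : ∀ i k, n i ≤ k → k < n (i + 1) →
      nrm (γ k - γ (n i)) ≤ nrm (γ (n i)) ^ (-(η / 8)) * nrm (γ (n i)) := by
    intro i k h1 h2
    have h3 : N0 ≤ n i := by
      rw [← hn0]
      exact hnm.monotone (Nat.zero_le i)
    have h4 : 0 < nrm (γ (n i)) := lt_of_lt_of_le one_pos (hone _ h3)
    have h5 : nrm (γ (n i)) ^ (-(η / 8)) * nrm (γ (n i)) = nrm (γ (n i)) ^ (1 - η / 8) := by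
      have h6 : (1 - η / 8 : ℝ) = -(η / 8) + 1 := by ring
      rw [h6, Real.rpow_add h4, Real.rpow_one]
    rw [h5]
    exact (hnlt i k h1 h2).le
  obtain ⟨C0, hC0⟩ := ray_ds hDS hnm hin
  set Mx : ℝ := ∑ i ∈ range N0, nrm (γ i) with hMx
  have hMxle : ∀ i, i < N0 → nrm (γ i) ≤ Mx := fun i hi =>
    Finset.single_le_sum (f := fun i => nrm (γ i)) (fun j _ => nrm_nonneg _) (Finset.mem_range.2 hi)
  refine ⟨C0 + 2 * ((⌈Mx⌉₊ + 1 : ℕ) : ℝ), ?_⟩
  intro I m m' hI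
  classical
  have hsplit := Finset.sum_filter_add_sum_filter_not I (fun k => N0 ≤ m k ∧ N0 ≤ m' k)
    (fun k => 1 - ip (γ (m k)) (γ (m' k)) / (nrm (γ (m k)) * nrm (γ (m' k))))
  rw [← hsplit]
  refine add_le_add ?_ ?_
  · refine hC0 (I.filter fun k => N0 ≤ m k ∧ N0 ≤ m' k) m m' ?_
    intro k hk
    rw [Finset.mem_filter] at hk
    rw [hn0]
    exact ⟨hk.2.1, hk.2.2, hI k hk.1⟩
  · have hsub : (I.filter fun k => ¬ (N0 ≤ m k ∧ N0 ≤ m' k)) ⊆ range (⌈Mx⌉₊ + 1) := by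
      intro k hk
      rw [Finset.mem_filter] at hk
      obtain ⟨hkI, hk2⟩ := hk
      obtain ⟨g1, _, g3, _⟩ := hI k hkI
      have hpow : (2 : ℝ) ^ k ≤ Mx := by
        by_cases h1 : N0 ≤ m k
        · have h2 : m' k < N0 := by
            by_contra h3
            exact hk2 ⟨h1, not_lt.1 h3⟩
          exact g3.trans (hMxle _ h2)
        · exact g1.trans (hMxle _ (not_le.1 h1))
      have hk3 : (k : ℝ) < Mx := by
        have h4 : (k : ℝ) < (2 : ℝ) ^ k := by exact_mod_cast Nat.lt_two_pow_self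
        exact h4.trans_le hpow
      have hk4 : (k : ℝ) < (⌈Mx⌉₊ : ℝ) := hk3.trans_le (Nat.le_ceil _)
      have hk5 : k < ⌈Mx⌉₊ := by exact_mod_cast hk4
      exact Finset.mem_range.2 (by omega)
    calc ∑ k ∈ I.filter (fun k => ¬ (N0 ≤ m k ∧ N0 ≤ m' k)),
          (1 - ip (γ (m k)) (γ (m' k)) / (nrm (γ (m k)) * nrm (γ (m' k))))
        ≤ ∑ _k ∈ I.filter (fun k => ¬ (N0 ≤ m k ∧ N0 ≤ m' k)), (2 : ℝ) :=
          Finset.sum_le_sum fun k _ => all_term_le _ _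
      _ = 2 * ((I.filter fun k => ¬ (N0 ≤ m k ∧ N0 ≤ m' k)).card : ℝ) := by
          rw [Finset.sum_const, nsmul_eq_mul, mul_comm]
      _ ≤ 2 * ((⌈Mx⌉₊ + 1 : ℕ) : ℝ) := by
          have h6 := Finset.card_le_card hsub
          rw [Finset.card_range] at h6
          have h7 : ((I.filter fun k => ¬ (N0 ≤ m k ∧ N0 ≤ m' k)).card : ℝ) ≤
            ((⌈Mx⌉₊ + 1 : ℕ) : ℝ) := by exact_mod_cast h6
          linarith
-- END all

end OneR
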