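import Pool.Agent.OneR.FAna
import Pool.Agent.OneR.Path

/-!
Problem MP_b9fb85_pr: finite infection paths, their discretisation, and the turning in dyadic annuli.
-/

set_option autoImplicit false

namespace OneR

open Finset ConeD Filter

variable {d : ℕ}

/-- a finite path of length `n`: vertices `γ k`, steps `st k`, remaining times `W k` plus `ω` -/
structure FinPath (τ : Edge d → ℝ) (γ : ℕ → V d) (st : ℕ → Step d) (W : ℕ → ℝ) (n : ℕ) (ω : ℝ) :
    Prop where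
  nxt : ∀ k, k < n → γ (k + 1) = γ k + vec (st k)
  Weq : ∀ k, k < n → W k = τ (edg (γ k) (st k)) + W (k + 1)
  last : W n = ω

-- BEGIN fseg
private theorem fseg_succ_aux (st : ℕ → Step d) (m k : ℕ) :
    seg st m (k + 1) = seg st m k ++ [st (m + k)] := by
  simp [seg, List.range_succ]

/-- as `seg_endp`, `seg_wt` -/
theorem fseg_endp {τ : Edge d → ℝ} {γ : ℕ → V d} {st : ℕ → Step d} {W : ℕ → ℝ} {n : ℕ} {ω : ℝ}
    (h : FinPath τ γ st W n ω) {m k : ℕ} (hk : m + k ≤ n) : endp (γ m) (seg st m k) = γ (m + k) := by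
  induction k with
  | zero => rfl
  | succ k ih =>
    rw [fseg_succ_aux, endp_append, ih (by omega), endp_cons, endp_nil, ← h.nxt (m + k) (by omega)]
    rfl

theorem fseg_wt {τ : Edge d → ℝ} {γ : ℕ → V d} {st : ℕ → Step d} {W : ℕ → ℝ} {n : ℕ} {ω : ℝ}
    (h : FinPath τ γ st W n ω) {m k : ℕ} (hk : m + k ≤ n) :
    wt τ (γ m) (seg st m k) = W m - W (m + k) := by
  induction k with
  | zero =>
    have h0 : seg st m 0 = [] := rfl
    rw [h0, wt_nil, Nat.add_zero, sub_self]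
  | succ k ih =>
    rw [fseg_succ_aux, wt_append, ih (by omega), fseg_endp h (by omega), wt_cons, wt_nil]
    have h1 := h.Weq (m + k) (by omega)
    have h2 : m + (k + 1) = m + k + 1 := rfl
    rw [h2]
    linarith
-- END fseg

-- BEGIN fpow
private theorem fpow_norm {y w : V d} {D : ℝ} (hr : 0 < nrm y)
    (hw : nrm w ≤ 2 * (D * nrm y)) (hu : 0 ≤ 1 + (pr w y / nrm y + 2 * D ^ 2)) :
    nrm (y + w) ≤ nrm y * (1 + (pr w y / nrm y + 2 * D ^ 2)) := by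
  have h2 : nrm (y + w) ^ 2 = nrm y ^ 2 + 2 * (pr w y * nrm y) + nrm w ^ 2 := by
    rw [nrm_add_sq, ip_comm y w]
    have h3 : ip w y = pr w y * nrm y := by
      rw [pr, div_mul_cancel₀ _ hr.ne']
    rw [h3]
  have h4 : nrm w ^ 2 ≤ (2 * (D * nrm y)) ^ 2 := pow_le_pow_left₀ (nrm_nonneg _) hw 2
  have h7 : nrm y * (pr w y / nrm y + 2 * D ^ 2) = pr w y + 2 * D ^ 2 * nrm y := by
    rw [mul_add, mul_div_cancel₀ _ hr.ne']
    ring
  have h5 : nrm (y + w) ^ 2 ≤ (nrm y * (1 + (pr w y / nrm y + 2 * D ^ 2))) ^ 2 := by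
    rw [h2, mul_add, mul_one, h7]
    have h8 := sq_nonneg (pr w y + 2 * D ^ 2 * nrm y)
    linarith
  exact (pow_le_pow_iff_left₀ (nrm_nonneg _) (mul_nonneg hr.le hu) (by norm_num)).1 h5

private theorem fpow_exp {be x D : ℝ} (hbe : 0 < be) (hu0 : 0 ≤ 1 + (x + 2 * D ^ 2))
    (hu4 : |x + 2 * D ^ 2| ≤ 4 * D) (hb : 4 * be * D ≤ 1) :
    (1 + (x + 2 * D ^ 2)) ^ be ≤ 1 + (be * x + (2 * be + 16 * be ^ 2) * D ^ 2) := by
  have h2 : (1 + (x + 2 * D ^ 2)) ^ be ≤ Real.exp ((x + 2 * D ^ 2) * be) := by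
    rw [Real.exp_mul]
    refine Real.rpow_le_rpow hu0 ?_ hbe.le
    have := Real.add_one_le_exp (x + 2 * D ^ 2)
    linarith
  have h3 : |(x + 2 * D ^ 2) * be| ≤ 1 := by
    rw [abs_mul, abs_of_pos hbe]
    calc |x + 2 * D ^ 2| * be ≤ 4 * D * be := mul_le_mul_of_nonneg_right hu4 hbe.le
      _ ≤ 1 := by linarith
  have h4 := Real.abs_exp_sub_one_sub_id_le h3
  have h5 := (abs_le.1 h4).2
  have h6 : ((x + 2 * D ^ 2) * be) ^ 2 ≤ 16 * be ^ 2 * D ^ 2 := by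
    have h7 : (x + 2 * D ^ 2) ^ 2 ≤ (4 * D) ^ 2 := by
      rw [← sq_abs (x + 2 * D ^ 2)]
      exact pow_le_pow_left₀ (abs_nonneg _) hu4 2
    calc ((x + 2 * D ^ 2) * be) ^ 2 = be ^ 2 * (x + 2 * D ^ 2) ^ 2 := by ring
      _ ≤ be ^ 2 * (4 * D) ^ 2 := mul_le_mul_of_nonneg_left h7 (sq_nonneg _)
      _ = _ := by ring
  linarith

/-- growth of `nrm ^ (α - 1)` in a step: `ST_norm`, `ST_exp` of `ConeD.Mono` (private there, copy
them); `D = nrm y ^ (-(η / 8))` -/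
theorem pow_step {be D : ℝ} (hbe : 0 < be) (hD : 0 < D) (hD1 : D ≤ 1 / 8) (hD2 : 4 * be * D ≤ 1)
    {y w : V d} (hy : 0 < nrm y) (hw : nrm w ≤ 2 * (D * nrm y)) :
    nrm (y + w) ^ be ≤
      nrm y ^ be * (1 + (be * (pr w y / nrm y) + (2 * be + 16 * be ^ 2) * D ^ 2)) := by
  have hpabs : |pr w y| ≤ 2 * (D * nrm y) := (abs_pr_le w y).trans hw
  have hpr : |pr w y / nrm y| ≤ 2 * D := by
    rw [abs_div, abs_of_pos hy, div_le_iff₀ hy]
    linarith
  have hprl := (abs_le.1 hpr).1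
  have hpru := (abs_le.1 hpr).2
  have hD20 : 0 < D ^ 2 := by positivity
  have hD3 : 2 * D ^ 2 ≤ 2 * D := by
    have h0 : D ^ 2 ≤ D * 1 := by
      rw [pow_two]
      exact mul_le_mul_of_nonneg_left (by linarith) hD.le
    linarith
  have hu4 : |pr w y / nrm y + 2 * D ^ 2| ≤ 4 * D := by
    rw [abs_le]
    constructor <;> linarith
  have hu4l := (abs_le.1 hu4).1
  have hu0 : 0 ≤ 1 + (pr w y / nrm y + 2 * D ^ 2) := by linarith
  have hN := fpow_norm hy hw hu0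
  have hE1 := fpow_exp hbe hu0 hu4 hD2
  have h1 : nrm (y + w) ^ be ≤ (nrm y * (1 + (pr w y / nrm y + 2 * D ^ 2))) ^ be :=
    Real.rpow_le_rpow (nrm_nonneg _) hN hbe.le
  rw [Real.mul_rpow hy.le hu0] at h1
  exact h1.trans (mul_le_mul_of_nonneg_left hE1 (Real.rpow_pos_of_pos hy _).le)
-- END fpow

-- BEGIN fstp
private theorem fstp_pow {r η : ℝ} (hη : 0 < η) (hη1 : η ≤ 1) (hr : 1 ≤ r) :
    0 < r ^ (-(η / 8)) ∧ r ^ (-(η / 4)) = (r ^ (-(η / 8))) ^ 2 ∧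
      r ^ (1 - η / 8) = r ^ (-(η / 8)) * r ∧ 1 ≤ r ^ (1 - η / 8) := by
  have hr0 : 0 < r := lt_of_lt_of_le one_pos hr
  refine ⟨Real.rpow_pos_of_pos hr0 _, ?_, ?_, ?_⟩
  · rw [← Real.rpow_natCast, ← Real.rpow_mul hr0.le]
    congr 1
    push_cast
    ring
  · rw [show 1 - η / 8 = -(η / 8) + 1 by ring, Real.rpow_add_one hr0.ne']
  · exact Real.one_le_rpow hr (by linarith)

/-- the algebra: `p = (α-1) pr / r`, `r ^ (α-1) = A`, `r' ^ (α-1) = A'` -/
private theorem fstp_alg {H p A A' Wm Wm' ω D be c K1 : ℝ} (hA : 0 < A) (hω : 0 < ω) (hD : 0 < D)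
    (hD1 : D ≤ 1) (hbe : 0 < be) (hc : 0 < c) (hp : p ≤ be * (2 * D))
    (hA' : A' ≤ A * (1 + (p + c * D ^ 2)))
    (h1 : H - p * (A * (Wm - ω)) - K1 * D ^ 2 ≤ A * (Wm - ω) - A' * (Wm' - ω))
    (h2 : - K1 * D ^ 2 ≤ A * (Wm - ω) - A' * (Wm' - ω)) :
    H - p * (A * Wm) - (K1 + (2 * be + c)) * (D ^ 2 + D * (ω * A)) ≤ A * Wm - A' * Wm' ∧
      - (K1 + (2 * be + c)) * (D ^ 2 + D * (ω * A)) ≤ A * Wm - A' * Wm' ∨ K1 < 0 := by
  by_cases hK1 : K1 < 0
  · exact Or.inr hK1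
  left
  rw [not_lt] at hK1
  have hωA : 0 < ω * A := mul_pos hω hA
  have hDD : D ^ 2 ≤ D := by nlinarith
  have e1 : ω * A' ≤ ω * (A * (1 + (p + c * D ^ 2))) := mul_le_mul_of_nonneg_left hA' hω.le
  have e2 : ω * A * (c * D ^ 2) ≤ ω * A * (c * D) :=
    mul_le_mul_of_nonneg_left (mul_le_mul_of_nonneg_left hDD hc.le) hωA.le
  have e3 : ω * A * p ≤ ω * A * (be * (2 * D)) := mul_le_mul_of_nonneg_left hp hωA.le
  have e4 : 0 ≤ K1 * (D * (ω * A)) := by positivity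
  have e5 : 0 ≤ (2 * be + c) * D ^ 2 := by positivity
  have e6 : 0 ≤ 2 * be * (D * (ω * A)) := by positivity
  constructor
  · linarith
  · linarith

/-- `ConeD.step` for a finite path: `l1 = seg st m (m' - m)`, `l2 = seg st m' (n - m')`,
`wt (l1 ++ l2) = W m - ω`. The terms with `ω`: `r = nrm (γ m)`, `r' = nrm (γ m')`,
`ω (r' ^ (α-1) - r ^ (α-1) - (α-1) (pr / r) r ^ (α-1)) ≤ c D ^ 2 ω r ^ (α-1)` and
`ω (r' ^ (α-1) - r ^ (α-1)) ≤ c D ω r ^ (α-1)` by `pow_step`, `D = r ^ (-(η/8))`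
(`nrm (γ m' - γ m) ≤ r ^ (1-η/8) + 1 ≤ 2 D r` by the exit condition at `k = m' - 1`; `R1` large makes
`D ≤ 1/8`, `4 (α-1) D ≤ 1`, `1 ≤ D r`) -/
theorem fin_step {h : V d → ℝ} {a b C : ℝ} (hh : HF h a b C) {η : ℝ} (hη : 0 < η) (hη1 : η ≤ 1)
    {α : ℝ} (hα : 1 < α) {K : ℝ} (hK : 0 < K) :
    ∃ K1 R1 : ℝ, 0 < K1 ∧ ∀ (E : Edge d → ℝ) (R0 : ℝ), (∀ e, 0 ≤ E e) → CC h η E R0 →
      ∀ (γ : ℕ → V d) (st : ℕ → Step d) (W : ℕ → ℝ) (n : ℕ) (ω : ℝ), 0 < ω →
      FinPath (tau α E) γ st W n ω →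
      ∀ m m' : ℕ, m < m' → m' ≤ n → UB h η α K (W m - ω) (γ m) → R1 ≤ nrm (γ m) →
        R0 ≤ nrm (γ m) →
        (∀ k, m ≤ k → k < m' → nrm (γ k - γ m) ≤ nrm (γ m) ^ (1 - η / 8)) →
        nrm (γ m) ^ (1 - η / 8) ≤ nrm (γ m' - γ m) →
        h (γ m' - γ m) / nrm (γ m)
            - (α - 1) * (pr (γ m' - γ m) (γ m) / nrm (γ m)) * (nrm (γ m) ^ (α - 1) * W m)
            - K1 * ((nrm (γ m) ^ (-(η / 8))) ^ 2 +
              nrm (γ m) ^ (-(η / 8)) * (ω * nrm (γ m) ^ (α - 1))) ≤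
          nrm (γ m) ^ (α - 1) * W m - nrm (γ m') ^ (α - 1) * W m' ∧
        - K1 * ((nrm (γ m) ^ (-(η / 8))) ^ 2 +
              nrm (γ m) ^ (-(η / 8)) * (ω * nrm (γ m) ^ (α - 1))) ≤
          nrm (γ m) ^ (α - 1) * W m - nrm (γ m') ^ (α - 1) * W m' ∧
        a / 2 * nrm (γ m) ^ (-(η / 8)) * nrm (γ m) ^ (1 - α) ≤ W m - W m' := by
  obtain ⟨K1, R2, hK1, hstep⟩ := step hh hη hη1 hα hK
  have hbe0 : 0 < α - 1 := by linarith
  have hc0 : 0 < 2 * (α - 1) + 16 * (α - 1) ^ 2 := by positivity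
  have hd0p : 0 < min (1 / 8) (1 / (4 * (α - 1))) := by positivity
  have hlim := (tendsto_rpow_neg_atTop (y := η / 8) (by positivity)).eventually (gt_mem_nhds hd0p)
  obtain ⟨R3, hR3⟩ := Filter.eventually_atTop.1 hlim
  refine ⟨K1 + (2 * (α - 1) + (2 * (α - 1) + 16 * (α - 1) ^ 2)), max 1 (max R2 R3),
    by positivity, ?_⟩
  intro E R0 hE hCC γ st W n ω hω hF m m' hmm hm'n hUB hR1 hR0 hin hout
  have hr1 : 1 ≤ nrm (γ m) := (le_max_left _ _).trans hR1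
  have hrR2 : R2 ≤ nrm (γ m) := (le_max_left _ _).trans ((le_max_right _ _).trans hR1)
  have hrR3 : R3 ≤ nrm (γ m) := (le_max_right _ _).trans ((le_max_right _ _).trans hR1)
  have hr0 : 0 < nrm (γ m) := by linarith
  obtain ⟨hD, e4, e8, eone⟩ := fstp_pow hη hη1 hr1
  have hDd : nrm (γ m) ^ (-(η / 8)) < min (1 / 8) (1 / (4 * (α - 1))) := hR3 _ hrR3
  have hD8 : nrm (γ m) ^ (-(η / 8)) ≤ 1 / 8 := hDd.le.trans (min_le_left _ _)
  have hDb : 4 * (α - 1) * nrm (γ m) ^ (-(η / 8)) ≤ 1 := by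
    have h1 : nrm (γ m) ^ (-(η / 8)) ≤ 1 / (4 * (α - 1)) := hDd.le.trans (min_le_right _ _)
    rw [le_div_iff₀ (by positivity)] at h1
    linarith
  -- the segments
  have k1 : m + (m' - m) = m' := by omega
  have k2 : m' + (n - m') = n := by omega
  have k3 : m + (n - m) = n := by omega
  have k4 : (m' - m) + (n - m') = n - m := by omega
  have hz : endp (γ m) (seg st m (m' - m)) = γ m' := by
    have := fseg_endp hF (m := m) (k := m' - m) (by omega)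
    rwa [k1] at this
  have happ : seg st m (m' - m) ++ seg st m' (n - m') = seg st m (n - m) := by
    have := seg_append st m (m' - m) (n - m')
    rwa [k1, k4] at this
  have hw1 : wt (tau α E) (γ m) (seg st m (m' - m) ++ seg st m' (n - m')) = W m - ω := by
    rw [happ]
    have := fseg_wt hF (m := m) (k := n - m) (by omega)
    rwa [k3, hF.last] at this
  have hw2 : wt (tau α E) (γ m') (seg st m' (n - m')) = W m' - ω := by
    have := fseg_wt hF (m := m') (k := n - m') (by omega)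
    rwa [k2, hF.last] at this
  have hpre : ∀ m1 s m2, seg st m (m' - m) = m1 ++ s :: m2 →
      nrm (endp (γ m) m1 - γ m) ≤ nrm (γ m) ^ (1 - η / 8) := by
    intro m1 s m2 hms
    obtain ⟨g1, g2⟩ := seg_prefix hms
    rw [g2, fseg_endp hF (by omega)]
    exact hin _ (by omega) (by omega)
  have hS := hstep E R0 hE hCC (γ m) (seg st m (m' - m)) (seg st m' (n - m')) hrR2 hR0 hpre
    (by rw [hz]; exact hout) (by rw [hw1]; exact hUB)
  rw [Phi, Phi, hz, hw1, hw2, e4] at hS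
  obtain ⟨s1, s2, s3⟩ := hS
  -- the size of the step
  have hwn : nrm (γ m' - γ m) ≤ 2 * (nrm (γ m) ^ (-(η / 8)) * nrm (γ m)) := by
    have h1 := hin (m' - 1) (by omega) (by omega)
    have h2 := hF.nxt (m' - 1) (by omega)
    have h3 : m' - 1 + 1 = m' := by omega
    rw [h3] at h2
    have h5 : γ m' - γ m = (γ (m' - 1) - γ m) + vec (st (m' - 1)) := by
      rw [h2]
      abel
    have h6 := nrm_add_le (γ (m' - 1) - γ m) (vec (st (m' - 1)))
    rw [nrm_vec] at h6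
    rw [h5, ← e8]
    linarith
  have hpow := pow_step (be := α - 1) hbe0 hD hD8 hDb hr0 hwn
  have hadd : γ m + (γ m' - γ m) = γ m' := by abel
  rw [hadd] at hpow
  have hpr : (α - 1) * (pr (γ m' - γ m) (γ m) / nrm (γ m)) ≤
      (α - 1) * (2 * nrm (γ m) ^ (-(η / 8))) := by
    refine mul_le_mul_of_nonneg_left ?_ hbe0.le
    rw [div_le_iff₀ hr0]
    refine (pr_le _ _).trans (hwn.trans (le_of_eq ?_))
    ring
  rcases fstp_alg (Real.rpow_pos_of_pos hr0 _) hω hD (by linarith) hbe0 hc0 hpr hpow s1 s2 with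
    hgo | hgo
  · exact ⟨hgo.1, hgo.2, by linarith⟩
  · exact absurd hK1 (not_lt.2 hgo.le)
-- END fstp

-- BEGIN fdsc
/-- the discretisation of a finite path: induction on `n - N0`, `f > 0` -/
theorem fin_disc {γ : ℕ → V d} (f : V d → ℝ) (N0 n : ℕ) (hN0 : N0 ≤ n)
    (hf : ∀ k, N0 ≤ k → k ≤ n → 0 < f (γ k)) :
    ∃ (L : ℕ) (x : ℕ → ℕ), x 0 = N0 ∧ x L ≤ n ∧ (∀ i, i < L → x i < x (i + 1)) ∧
      (∀ i, i < L → ∀ k, x i ≤ k → k < x (i + 1) → nrm (γ k - γ (x i)) < f (γ (x i))) ∧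
      (∀ i, i < L → f (γ (x i)) ≤ nrm (γ (x (i + 1)) - γ (x i))) ∧
      ∀ k, x L ≤ k → k ≤ n → nrm (γ k - γ (x L)) < f (γ (x L)) := by
  classical
  obtain ⟨m, hm⟩ : ∃ m, m = n - N0 := ⟨_, rfl⟩
  induction m using Nat.strong_induction_on generalizing N0 with
  | _ m ih =>
    by_cases hex : ∃ k, N0 ≤ k ∧ k ≤ n ∧ f (γ N0) ≤ nrm (γ k - γ N0)
    · obtain ⟨k, hk⟩ : ∃ k, k = Nat.find hex := ⟨_, rfl⟩
      have hsp := Nat.find_spec hex
      rw [← hk] at hsp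
      obtain ⟨h1, h2, h3⟩ := hsp
      have hmin : ∀ j, N0 ≤ j → j < k → nrm (γ j - γ N0) < f (γ N0) := by
        intro j hj1 hj2
        have h4 := Nat.find_min hex (by rw [← hk]; exact hj2)
        by_contra h5
        exact h4 ⟨hj1, by omega, not_lt.1 h5⟩
      have hlt : N0 < k := by
        refine lt_of_le_of_ne h1 ?_
        intro heq
        rw [← heq, sub_self, nrm_zero] at h3
        exact absurd (hf N0 le_rfl hN0) (not_lt.2 h3)
      obtain ⟨L, x, hx0, hxL, hx1, hx2, hx3, hx4⟩ := ih (n - k) (by omega) k h2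
        (fun j hj hj' => hf j (h1.trans hj) hj') rfl
      refine ⟨L + 1, fun i => Nat.casesOn i N0 x, rfl, hxL, ?_, ?_, ?_, hx4⟩
      · intro i hi
        cases i with
        | zero =>
          show N0 < x 0
          rw [hx0]
          exact hlt
        | succ i => exact hx1 i (by omega)
      · intro i hi
        cases i with
        | zero =>
          intro j hj1 hj2
          have hj3 : j < x 0 := hj2
          rw [hx0] at hj3
          exact hmin j hj1 hj3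
        | succ i => exact hx2 i (by omega)
      · intro i hi
        cases i with
        | zero =>
          show f (γ N0) ≤ nrm (γ (x 0) - γ N0)
          rw [hx0]
          exact h3
        | succ i => exact hx3 i (by omega)
    · refine ⟨0, fun _ => N0, rfl, hN0, fun i hi => absurd hi (Nat.not_lt_zero i),
        fun i hi => absurd hi (Nat.not_lt_zero i), fun i hi => absurd hi (Nat.not_lt_zero i), ?_⟩
      intro k hk1 hk2
      by_contra h5
      exact hex ⟨k, hk1, hk2, not_lt.1 h5⟩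
-- END fdsc

-- BEGIN flow
private theorem flow_exit (v : V d) (r : ℝ) (l : List (Step d)) (c : V d)
    (h : r ≤ nrm (endp c l - v)) : ∃ l1 l2, l = l1 ++ l2 ∧ r ≤ nrm (endp c l1 - v) ∧
      ∀ l3 s l4, l1 = l3 ++ s :: l4 → nrm (endp c l3 - v) < r := by
  induction l generalizing c with
  | nil => exact ⟨[], [], rfl, h, fun l3 s l4 e => by simp at e⟩
  | cons s t ih =>
    by_cases hc : r ≤ nrm (c - v)
    · exact ⟨[], s :: t, rfl, hc, fun l3 s l4 e => by simp at e⟩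
    · obtain ⟨l1, l2, e, h1, h2⟩ := ih (c + vec s) h
      refine ⟨s :: l1, l2, by rw [e]; rfl, h1, ?_⟩
      intro l3 s' l4 e'
      cases l3 with
      | nil => exact not_le.1 hc
      | cons a l3 =>
        rw [List.cons_append, List.cons.injEq] at e'
        obtain ⟨rfl, e'⟩ := e'
        exact h2 l3 s' l4 e'

/-- a walk from `v` to distance at least `nrm v` needs a time `c nrm v ^ (1-α)`: stop at the first
vertex `z` with `nrm (z - v) ≥ nrm v`; all midpoints before have norm at most `2 nrm v + 2`,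
`ConeD.le_wt_tau`, `T E v z ≥ a nrm (z - v) - C - (2 nrm v + 1) ^ (1-η) ≥ a/2 nrm v` -/
theorem low_far {h : V d → ℝ} {a b C : ℝ} (hh : HF h a b C) {η : ℝ} (hη : 0 < η) (hη1 : η ≤ 1)
    {α : ℝ} (hα : 1 < α) :
    ∃ c R1 : ℝ, 0 < c ∧ ∀ (E : Edge d → ℝ) (R0 : ℝ), (∀ e, 0 ≤ E e) → CC h η E R0 →
      ∀ (v : V d) (l : List (Step d)), R1 ≤ nrm v → R0 ≤ nrm v → nrm v ≤ nrm (endp v l - v) →
        c * nrm v ^ (1 - α) ≤ wt (tau α E) v l := by
  have ha := hh.pos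
  have e1 : ∀ᶠ r : ℝ in atTop, r ^ (-η) < a / 12 :=
    (tendsto_rpow_neg_atTop hη).eventually (gt_mem_nhds (by positivity))
  obtain ⟨R1, hR1⟩ := ((e1.and (eventually_ge_atTop (4 * C / a))).and
    (eventually_ge_atTop (1 : ℝ))).exists_forall_of_atTop
  refine ⟨3 ^ (-α) * (a / 2), R1, by positivity, ?_⟩
  intro E R0 hE hCC v l hv1 hv0 hl
  obtain ⟨⟨h1, h2⟩, h3⟩ := hR1 (nrm v) hv1
  set r := nrm v with hr
  have hr0 : 0 < r := by linarith
  obtain ⟨l1, l2, rfl, hz, hex⟩ := flow_exit v r l v hl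
  -- the norm of the end point
  have hz2 : nrm (endp v l1) ≤ 2 * r + 1 := by
    rcases List.eq_nil_or_concat l1 with rfl | ⟨l3, s, rfl⟩
    · rw [endp_nil]
      linarith
    · have h4 := hex l3 s [] (by simp)
      rw [List.concat_eq_append, endp_append, endp_cons, endp_nil]
      have h5 := nrm_add_le (endp v l3) (vec s)
      rw [nrm_vec] at h5
      have h6 := nrm_le_add (endp v l3) v
      linarith
  have hmid : ∀ l3 s l4, l1 = l3 ++ s :: l4 → mid (edg (endp v l3) s) ≤ 3 * r := by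
    intro l3 s l4 e
    have h4 := hex l3 s l4 e
    have h5 := mid_edg_le (endp v l3) s
    have h6 := nrm_le_add (endp v l3) v
    linarith
  have hw := le_wt_tau (by linarith : (0 : ℝ) ≤ α) (by positivity : 0 < 3 * r) hE v l1 hmid
  have hT : T E v (endp v l1) ≤ wt E v l1 := T_le_wt hE rfl
  have hC := hCC (2 * r + 1) (by linarith) v (endp v l1) (by linarith) hz2
  have hlow := hh.low (endp v l1 - v)
  have hpow : (2 * r + 1) ^ (1 - η) ≤ a / 4 * r := by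
    have p1 : (2 * r + 1) ^ (1 - η) ≤ (3 * r) ^ (1 - η) :=
      Real.rpow_le_rpow (by positivity) (by linarith) (by linarith)
    rw [Real.mul_rpow (by norm_num) hr0.le] at p1
    have p2 : (3 : ℝ) ^ (1 - η) ≤ 3 := by
      nth_rewrite 2 [← Real.rpow_one 3]
      exact Real.rpow_le_rpow_of_exponent_le (by norm_num) (by linarith)
    have p3 : r ^ (1 - η) = r * r ^ (-η) := by
      rw [sub_eq_add_neg, Real.rpow_add hr0, Real.rpow_one]
    rw [p3] at p1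
    have p4 : 0 ≤ r ^ (-η) := Real.rpow_nonneg hr0.le _
    calc (2 * r + 1) ^ (1 - η) ≤ 3 ^ (1 - η) * (r * r ^ (-η)) := p1
      _ ≤ 3 * (r * (a / 12)) := by
        refine mul_le_mul p2 ?_ (by positivity) (by norm_num)
        exact mul_le_mul_of_nonneg_left h1.le hr0.le
      _ = a / 4 * r := by ring
  have hCr : C ≤ a / 4 * r := by
    rw [div_le_iff₀ ha] at h2
    linarith
  have hbig : a / 2 * r ≤ wt E v l1 := by
    have h7 := (abs_le.1 hC).1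
    have h8 : a * r ≤ a * nrm (endp v l1 - v) := mul_le_mul_of_nonneg_left hz ha.le
    linarith
  have hfin : 3 ^ (-α) * (a / 2) * r ^ (1 - α) ≤ (3 * r) ^ (-α) * wt E v l1 := by
    rw [Real.mul_rpow (by norm_num) hr0.le]
    have p3 : r ^ (1 - α) = r * r ^ (-α) := by
      rw [sub_eq_add_neg, Real.rpow_add hr0, Real.rpow_one]
    rw [p3]
    have p4 : 0 ≤ (3 : ℝ) ^ (-α) * r ^ (-α) := by positivity
    calc (3 : ℝ) ^ (-α) * (a / 2) * (r * r ^ (-α)) = 3 ^ (-α) * r ^ (-α) * (a / 2 * r) := by ring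
      _ ≤ 3 ^ (-α) * r ^ (-α) * wt E v l1 := mul_le_mul_of_nonneg_left hbig p4
  rw [wt_append]
  have := wt_nonneg (tau_nonneg (α := α) hE) (endp v l1) l2
  linarith
-- END flow

-- BEGIN fmm
/-- the two bounds for `nrm ^ (α-1) W` along a finite path, `ω = nrm (γ n) ^ (1-α)`.
Upper: `ub_crude` for `W k - ω`; if `nrm (γ k) > 2 nrm (γ n)` then `low_far` for the reversed walk
from `γ n` to `γ k` (`wt_rev`) gives `c nrm (γ n) ^ (1-α) ≤ W k - ω ≤ 2 b / (α-1) nrm (γ k) ^ (1-α)`.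
Lower: if `nrm (γ n - γ k) ≥ nrm (γ k)` use `low_far`, otherwise `nrm (γ n) ≤ 2 nrm (γ k)` -/
theorem fin_bounds {h : V d → ℝ} {a b C : ℝ} (hh : HF h a b C) {η : ℝ} (hη : 0 < η) (hη1 : η ≤ 1)
    {α : ℝ} (hα : 1 < α) {K : ℝ} (hK : 0 < K) :
    ∃ M g R1 : ℝ, 0 < M ∧ 0 < g ∧ ∀ (E : Edge d → ℝ) (R0 : ℝ), (∀ e, 0 ≤ E e) → CC h η E R0 →
      ∀ (γ : ℕ → V d) (st : ℕ → Step d) (W : ℕ → ℝ) (n : ℕ),
      FinPath (tau α E) γ st W n (nrm (γ n) ^ (1 - α)) → R1 ≤ nrm (γ n) → R0 ≤ nrm (γ n) →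
      ∀ k, k ≤ n → R1 ≤ nrm (γ k) → R0 ≤ nrm (γ k) →
        UB h η α K (W k - nrm (γ n) ^ (1 - α)) (γ k) →
        nrm (γ k) ^ (α - 1) * W k ≤ M ∧ g ≤ nrm (γ k) ^ (α - 1) * W k := by
  obtain ⟨c, R1, hc, hlow⟩ := low_far hh hη hη1 hα
  obtain ⟨R2, hcr⟩ := ub_crude hh hη hη1 hα hK
  have hα1 : 0 < α - 1 := by linarith
  have hM1 : 0 < 2 * |b| / (α - 1) + 1 := by positivity
  refine ⟨(2 * |b| / (α - 1) + 1) + ((2 : ℝ) ^ (α - 1) + (2 * |b| / (α - 1) + 1) / c),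
    min c ((2 : ℝ) ^ (1 - α)), max (max R1 R2) 1, by positivity, lt_min hc (by positivity), ?_⟩
  intro E R0 hE hCC γ st W n hp hn1 hn0 k hk hk1 hk0 hUB
  have hrn : 1 ≤ nrm (γ n) := (le_max_right _ _).trans hn1
  have hrk : 1 ≤ nrm (γ k) := (le_max_right _ _).trans hk1
  have hR1n : R1 ≤ nrm (γ n) := ((le_max_left _ _).trans (le_max_left _ _)).trans hn1
  have hR1k : R1 ≤ nrm (γ k) := ((le_max_left _ _).trans (le_max_left _ _)).trans hk1
  have hR2k : R2 ≤ nrm (γ k) := ((le_max_right _ _).trans (le_max_left _ _)).trans hk1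
  have he : endp (γ k) (seg st k (n - k)) = γ n := by
    have := fseg_endp hp (m := k) (k := n - k) (by omega)
    rwa [Nat.add_sub_cancel' hk] at this
  have hw : wt (tau α E) (γ k) (seg st k (n - k)) = W k - nrm (γ n) ^ (1 - α) := by
    have := fseg_wt hp (m := k) (k := n - k) (by omega)
    rw [Nat.add_sub_cancel' hk, hp.last] at this
    exact this
  have hw0 : 0 ≤ wt (tau α E) (γ k) (seg st k (n - k)) := wt_nonneg (tau_nonneg hE) _ _
  have hX1 := hcr _ _ hR2k hUB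
  obtain ⟨X, hX⟩ : ∃ X : ℝ, X = W k - nrm (γ n) ^ (1 - α) := ⟨_, rfl⟩
  rw [← hX] at hw hX1
  rw [hw] at hw0
  have hrk0 : 0 < nrm (γ k) := by linarith
  have hrn0 : 0 < nrm (γ n) := by linarith
  have e1 : nrm (γ k) ^ (α - 1) * nrm (γ k) ^ (1 - α) = 1 := by
    rw [← Real.rpow_add hrk0]
    simp
  have e2 : nrm (γ n) ^ (α - 1) * nrm (γ n) ^ (1 - α) = 1 := by
    rw [← Real.rpow_add hrn0]
    simp
  have hpk : 0 < nrm (γ k) ^ (α - 1) := Real.rpow_pos_of_pos hrk0 _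
  have hpn : 0 < nrm (γ n) ^ (α - 1) := Real.rpow_pos_of_pos hrn0 _
  have hω : 0 < nrm (γ n) ^ (1 - α) := Real.rpow_pos_of_pos hrn0 _
  have hWk : W k = X + nrm (γ n) ^ (1 - α) := by linarith
  have hXM : nrm (γ k) ^ (α - 1) * X ≤ 2 * |b| / (α - 1) + 1 := by
    calc nrm (γ k) ^ (α - 1) * X
        ≤ nrm (γ k) ^ (α - 1) * (2 * b / (α - 1) * nrm (γ k) ^ (1 - α)) := by gcongr
      _ = 2 * b / (α - 1) * (nrm (γ k) ^ (α - 1) * nrm (γ k) ^ (1 - α)) := by ring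
      _ = 2 * b / (α - 1) := by rw [e1, mul_one]
      _ ≤ 2 * |b| / (α - 1) := by gcongr; exact le_abs_self b
      _ ≤ 2 * |b| / (α - 1) + 1 := by linarith
  constructor
  · have hωM : nrm (γ k) ^ (α - 1) * nrm (γ n) ^ (1 - α) ≤
        (2 : ℝ) ^ (α - 1) + (2 * |b| / (α - 1) + 1) / c := by
      rcases le_or_gt (nrm (γ k)) (2 * nrm (γ n)) with h1 | h1
      · have h2 : nrm (γ k) ^ (α - 1) ≤ (2 : ℝ) ^ (α - 1) * nrm (γ n) ^ (α - 1) := by
          rw [← Real.mul_rpow (by norm_num) hrn0.le]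
          exact Real.rpow_le_rpow hrk0.le h1 hα1.le
        have h3 : 0 < (2 * |b| / (α - 1) + 1) / c := by positivity
        calc nrm (γ k) ^ (α - 1) * nrm (γ n) ^ (1 - α)
            ≤ ((2 : ℝ) ^ (α - 1) * nrm (γ n) ^ (α - 1)) * nrm (γ n) ^ (1 - α) := by gcongr
          _ = (2 : ℝ) ^ (α - 1) * (nrm (γ n) ^ (α - 1) * nrm (γ n) ^ (1 - α)) := by ring
          _ = (2 : ℝ) ^ (α - 1) := by rw [e2, mul_one]
          _ ≤ _ := by linarith
      · have hend : endp (γ n) (rev (seg st k (n - k))) = γ k := by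
          have := endp_rev (γ k) (seg st k (n - k))
          rwa [he] at this
        have hrev : wt (tau α E) (γ n) (rev (seg st k (n - k))) = X := by
          have := wt_rev (tau α E) (γ k) (seg st k (n - k))
          rwa [he, hw] at this
        have h2 := hlow E R0 hE hCC (γ n) (rev (seg st k (n - k))) hR1n hn0 (by
          rw [hend]
          have := nrm_le_add (γ k) (γ n)
          linarith)
        rw [hrev] at h2
        have h3 : nrm (γ k) ^ (α - 1) * nrm (γ n) ^ (1 - α) ≤ (2 * |b| / (α - 1) + 1) / c := by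
          rw [le_div_iff₀ hc]
          calc nrm (γ k) ^ (α - 1) * nrm (γ n) ^ (1 - α) * c
              = nrm (γ k) ^ (α - 1) * (c * nrm (γ n) ^ (1 - α)) := by ring
            _ ≤ nrm (γ k) ^ (α - 1) * X := by gcongr
            _ ≤ _ := hXM
        have h4 : 0 < (2 : ℝ) ^ (α - 1) := by positivity
        linarith
    rw [hWk, mul_add]
    linarith
  · rcases le_or_gt (nrm (γ k)) (nrm (γ n - γ k)) with h1 | h1
    · have h2 := hlow E R0 hE hCC (γ k) (seg st k (n - k)) hR1k hk0 (by rw [he]; exact h1)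
      rw [hw] at h2
      calc min c ((2 : ℝ) ^ (1 - α)) ≤ c := min_le_left _ _
        _ = c * (nrm (γ k) ^ (α - 1) * nrm (γ k) ^ (1 - α)) := by rw [e1, mul_one]
        _ = nrm (γ k) ^ (α - 1) * (c * nrm (γ k) ^ (1 - α)) := by ring
        _ ≤ nrm (γ k) ^ (α - 1) * W k := by
          apply mul_le_mul_of_nonneg_left _ hpk.le
          linarith
    · have h2 : nrm (γ n) ≤ 2 * nrm (γ k) := by
        have := nrm_le_add (γ n) (γ k)
        linarith
      have h3 : (2 : ℝ) ^ (1 - α) * nrm (γ k) ^ (1 - α) ≤ nrm (γ n) ^ (1 - α) := by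
        rw [← Real.mul_rpow (by norm_num) hrk0.le]
        exact Real.rpow_le_rpow_of_nonpos hrn0 h2 (by linarith)
      calc min c ((2 : ℝ) ^ (1 - α)) ≤ (2 : ℝ) ^ (1 - α) := min_le_right _ _
        _ = (2 : ℝ) ^ (1 - α) * (nrm (γ k) ^ (α - 1) * nrm (γ k) ^ (1 - α)) := by
          rw [e1, mul_one]
        _ = nrm (γ k) ^ (α - 1) * ((2 : ℝ) ^ (1 - α) * nrm (γ k) ^ (1 - α)) := by ring
        _ ≤ nrm (γ k) ^ (α - 1) * W k := by
          apply mul_le_mul_of_nonneg_left _ hpk.le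
          linarith
-- END fmm

-- BEGIN fmds
private theorem fmds_ip (x y : V d) : ip x y = inner ℝ (toE x) (toE y) := by
  rw [PiLp.inner_apply, ip]
  refine Finset.sum_congr rfl fun j _ => ?_
  rw [toE_apply, toE_apply]
  simp [mul_comm]

private theorem fmds_pow {η r : ℝ} (hη : 0 < η) (hη1 : η ≤ 1) (hr : max 4 ((32 : ℝ) ^ (8 / η)) ≤ r) :
    r ^ (-(η / 8)) ≤ 1 / 32 ∧ 2 ≤ r ^ (1 - η / 8) ∧ r ^ (1 - η / 8) = r ^ (-(η / 8)) * r ∧
      r ^ (-(η / 4)) = (r ^ (-(η / 8))) ^ 2 ∧ r ^ (1 - η / 4) = (r ^ (-(η / 8))) ^ 2 * r := by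
  have h4 : (4 : ℝ) ≤ r := le_trans (le_max_left _ _) hr
  have h32 : (32 : ℝ) ^ (8 / η) ≤ r := le_trans (le_max_right _ _) hr
  have hr0 : 0 < r := by linarith
  have e2 : r ^ (-(η / 4)) = (r ^ (-(η / 8))) ^ 2 := by
    rw [← Real.rpow_natCast (r ^ (-(η / 8))) 2, ← Real.rpow_mul hr0.le]
    congr 1
    push_cast
    ring
  refine ⟨?_, ?_, ?_, e2, ?_⟩
  · have h1 : (32 : ℝ) ≤ r ^ (η / 8) := by
      calc (32 : ℝ) = ((32 : ℝ) ^ (8 / η)) ^ (η / 8) := by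
            rw [← Real.rpow_mul (by norm_num)]
            have : 8 / η * (η / 8) = 1 := by field_simp
            rw [this, Real.rpow_one]
        _ ≤ r ^ (η / 8) := Real.rpow_le_rpow (by positivity) h32 (by positivity)
    rw [Real.rpow_neg hr0.le, one_div]
    exact inv_anti₀ (by norm_num) h1
  · calc (2 : ℝ) = (4 : ℝ) ^ (1 / 2 : ℝ) := by
          have : (4 : ℝ) = 2 ^ (2 : ℝ) := by norm_num
          rw [this, ← Real.rpow_mul (by norm_num)]
          norm_num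
      _ ≤ r ^ (1 / 2 : ℝ) := Real.rpow_le_rpow (by norm_num) h4 (by norm_num)
      _ ≤ r ^ (1 - η / 8) := Real.rpow_le_rpow_of_exponent_le (by linarith) (by linarith)
  · rw [show (1 : ℝ) - η / 8 = -(η / 8) + 1 by ring, Real.rpow_add hr0, Real.rpow_one]
  · rw [← e2, show (1 : ℝ) - η / 4 = -(η / 4) + 1 by ring, Real.rpow_add hr0, Real.rpow_one]

/-- the discretised finite path satisfies `FS` (see the proof of `mkDS`) -/
theorem mkFS {h : V d → ℝ} {a b C : ℝ} (hh : HF h a b C) {η : ℝ} (hη : 0 < η) (hη1 : η ≤ 1)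
    {α : ℝ} (hα : 1 < α) {K : ℝ} (hK : 0 < K) :
    ∃ K1 R1 M g : ℝ, 0 < M ∧ 0 < g ∧ ∀ (E : Edge d → ℝ) (R0 : ℝ), (∀ e, 0 ≤ E e) → CC h η E R0 →
      ∀ (γ : ℕ → V d) (st : ℕ → Step d) (W : ℕ → ℝ) (n : ℕ),
      FinPath (tau α E) γ st W n (nrm (γ n) ^ (1 - α)) →
      ∀ N0 : ℕ, N0 ≤ n → (∀ k, N0 ≤ k → k ≤ n → R1 ≤ nrm (γ k) ∧ R0 ≤ nrm (γ k) ∧
        UB h η α K (W k - nrm (γ n) ^ (1 - α)) (γ k)) →
      ∀ (L : ℕ) (x : ℕ → ℕ), x 0 = N0 → x L ≤ n → (∀ i, i < L → x i < x (i + 1)) →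
      (∀ i, i < L → ∀ k, x i ≤ k → k < x (i + 1) →
        nrm (γ k - γ (x i)) < nrm (γ (x i)) ^ (1 - η / 8)) →
      (∀ i, i < L → nrm (γ (x i)) ^ (1 - η / 8) ≤ nrm (γ (x (i + 1)) - γ (x i))) →
      FS (fun i => toE (γ (x i))) (fun i => W (x i)) (fun i => h (γ (x (i + 1)) - γ (x i))) L
        a (|b| + 1) K K1 M α (η / 8) (nrm (γ n) ^ (1 - α)) g := by
  obtain ⟨K1, R1, hK1, hstep⟩ := fin_step hh hη hη1 hα hK
  obtain ⟨M, g, R2, hM, hg, hbd⟩ := fin_bounds hh hη hη1 hα hK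
  refine ⟨K1, max (max R1 R2) (max 4 ((32 : ℝ) ^ (8 / η))), M, g, hM, hg, ?_⟩
  intro E R0 hE hCC γ st W n hr N0 hN0n hN0 L x hx0 hxL hx hin hout
  have hmon : ∀ i, i ≤ L → N0 ≤ x i := by
    intro i
    induction i with
    | zero => intro _; exact hx0.ge
    | succ i ih =>
      intro hi
      have h1 := hx i (by omega)
      have h2 := ih (by omega)
      omega
  have hxn' : ∀ j i, i + j = L → x i ≤ x L := by
    intro j
    induction j with
    | zero =>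
      intro i hi
      rw [show i = L by omega]
    | succ j ih =>
      intro i hi
      exact (hx i (by omega)).le.trans (ih (i + 1) (by omega))
  have hxn : ∀ i, i ≤ L → x i ≤ n := fun i hi => (hxn' (L - i) i (by omega)).trans hxL
  have hN : ∀ i, i ≤ L → _ := fun i hi => hN0 (x i) (hmon i hi) (hxn i hi)
  have hNn := hN0 n hN0n le_rfl
  have hbig : ∀ i, i ≤ L → max 4 ((32 : ℝ) ^ (8 / η)) ≤ nrm (γ (x i)) := fun i hi =>
    le_trans (le_max_right _ _) (hN i hi).1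
  have hR1 : ∀ i, i ≤ L → R1 ≤ nrm (γ (x i)) := fun i hi =>
    le_trans (le_trans (le_max_left _ _) (le_max_left _ _)) (hN i hi).1
  have hR2 : ∀ i, i ≤ L → R2 ≤ nrm (γ (x i)) := fun i hi =>
    le_trans (le_trans (le_max_right _ _) (le_max_left _ _)) (hN i hi).1
  have hR2n : R2 ≤ nrm (γ n) :=
    le_trans (le_trans (le_max_right _ _) (le_max_left _ _)) hNn.1
  have h4 : ∀ i, i ≤ L → (4 : ℝ) ≤ nrm (γ (x i)) := fun i hi =>
    le_trans (le_max_left _ _) (hbig i hi)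
  have h4n : (4 : ℝ) ≤ nrm (γ n) :=
    le_trans (le_max_left _ _) (le_trans (le_max_right _ _) hNn.1)
  have hω : 0 < nrm (γ n) ^ (1 - α) := Real.rpow_pos_of_pos (by linarith) _
  have hR0 : ∀ i, i ≤ L → R0 ≤ nrm (γ (x i)) := fun i hi => (hN i hi).2.1
  have hUB : ∀ i, i ≤ L → UB h η α K (W (x i) - nrm (γ n) ^ (1 - α)) (γ (x i)) :=
    fun i hi => (hN i hi).2.2
  have hB := fun i (hi : i ≤ L) => hbd E R0 hE hCC γ st W n hr hR2n hNn.2.1 (x i) (hxn i hi)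
    (hR2 i hi) (hR0 i hi) (hUB i hi)
  have hS := fun i (hi : i < L) => hstep E R0 hE hCC γ st W n (nrm (γ n) ^ (1 - α)) hω hr (x i)
    (x (i + 1)) (hx i hi) (hxn (i + 1) hi) (hUB i hi.le) (hR1 i hi.le)
    (hR0 i hi.le) (fun k h1 h2 => (hin i hi k h1 h2).le) (hout i hi)
  have hnE : ∀ i, ‖toE (γ (x i))‖ = nrm (γ (x i)) := fun i => (nrm_eq _).symm
  have hnD : ∀ i, ‖toE (γ (x (i + 1))) - toE (γ (x i))‖ = nrm (γ (x (i + 1)) - γ (x i)) := fun i => by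
    rw [nrm_eq, toE_sub]
  have hIn : ∀ i q, inner ℝ (toE (γ (x (i + 1))) - toE (γ (x i))) (toE (γ (x q))) =
      ip (γ (x (i + 1)) - γ (x i)) (γ (x q)) := fun i q => by
    rw [fmds_ip, toE_sub]
  have hbb : b ≤ |b| + 1 := by linarith [le_abs_self b]
  exact
    { hα := hα
      hθ := by positivity
      hθ1 := by linarith
      ha := hh.pos
      hb := by positivity
      hK := hK
      hK1 := hK1
      hM := hM
      hω := hω
      hg := hg
      one := fun i hi => by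
        show 1 ≤ ‖toE (γ (x i))‖
        rw [hnE]
        linarith [h4 i hi]
      small := fun i hi => by
        show ‖toE (γ (x i))‖ ^ (-(η / 8)) ≤ 1 / 32
        rw [hnE]
        exact (fmds_pow hη hη1 (hbig i hi)).1
      stp := fun i hi => by
        show ‖toE (γ (x (i + 1))) - toE (γ (x i))‖ ≤
          3 / 2 * ‖toE (γ (x i))‖ ^ (-(η / 8)) * ‖toE (γ (x i))‖
        rw [hnD, hnE]
        obtain ⟨-, p2, p3, -, -⟩ := fmds_pow hη hη1 (hbig i hi.le)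
        have hk1 : x i ≤ x (i + 1) - 1 := by have := hx i hi; omega
        have hk2 : x (i + 1) - 1 < x (i + 1) := by have := hx i hi; omega
        have hk3 : x (i + 1) - 1 < n := by have := hxn (i + 1) hi; omega
        have h1 := hin i hi (x (i + 1) - 1) hk1 hk2
        have h2 := hr.nxt (x (i + 1) - 1) hk3
        have h3 : x (i + 1) - 1 + 1 = x (i + 1) := by have := hx i hi; omega
        rw [h3] at h2
        have h5 : γ (x (i + 1)) - γ (x i) =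
            (γ (x (i + 1) - 1) - γ (x i)) + vec (st (x (i + 1) - 1)) := by
          rw [h2]
          abel
        have h6 := nrm_add_le (γ (x (i + 1) - 1) - γ (x i)) (vec (st (x (i + 1) - 1)))
        rw [nrm_vec] at h6
        rw [h5]
        rw [mul_assoc, ← p3]
        linarith
      leW := fun i hi => by
        show nrm (γ n) ^ (1 - α) ≤ W (x i)
        have e1 : x i + (n - x i) = n := by have := hxn i hi; omega
        have e2 := fseg_wt hr (m := x i) (k := n - x i) e1.le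
        rw [e1, hr.last] at e2
        have e3 : 0 ≤ wt (tau α E) (γ (x i)) (seg st (x i) (n - x i)) :=
          wt_nonneg (tau_nonneg hE) _ _
        linarith
      upW := fun i hi => by
        show ‖toE (γ (x i))‖ ^ (α - 1) * W (x i) ≤ M
        rw [hnE]
        exact (hB i hi).1
      low := fun i hi => by
        show g ≤ ‖toE (γ (x i))‖ ^ (α - 1) * W (x i)
        rw [hnE]
        exact (hB i hi).2
      decW := fun i hi => by
        show a / 2 * ‖toE (γ (x i))‖ ^ (-(η / 8)) * ‖toE (γ (x i))‖ ^ (1 - α) ≤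
          W (x i) - W (x (i + 1))
        rw [hnE]
        exact (hS i hi).2.2
      H0 := fun i _ => hh.nonneg _
      Hb := fun i _ => by
        show h (γ (x (i + 1)) - γ (x i)) ≤ (|b| + 1) * ‖toE (γ (x (i + 1))) - toE (γ (x i))‖
        rw [hnD]
        exact (hh.up _).trans (mul_le_mul_of_nonneg_right hbb (nrm_nonneg _))
      hB := fun i hi => by
        show h (γ (x (i + 1)) - γ (x i)) / ‖toE (γ (x i))‖ -
            (α - 1) * (inner ℝ (toE (γ (x (i + 1))) - toE (γ (x i))) (toE (γ (x i))) /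
              ‖toE (γ (x i))‖ / ‖toE (γ (x i))‖) * (‖toE (γ (x i))‖ ^ (α - 1) * W (x i)) -
            K1 * ((‖toE (γ (x i))‖ ^ (-(η / 8))) ^ 2 + ‖toE (γ (x i))‖ ^ (-(η / 8)) *
              (nrm (γ n) ^ (1 - α) * ‖toE (γ (x i))‖ ^ (α - 1))) ≤
          ‖toE (γ (x i))‖ ^ (α - 1) * W (x i) - ‖toE (γ (x (i + 1)))‖ ^ (α - 1) * W (x (i + 1))
        rw [hIn, hnE, hnE]
        exact (hS i hi).1
      hF := fun i hi => by
        show -K1 * ((‖toE (γ (x i))‖ ^ (-(η / 8))) ^ 2 + ‖toE (γ (x i))‖ ^ (-(η / 8)) *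
              (nrm (γ n) ^ (1 - α) * ‖toE (γ (x i))‖ ^ (α - 1))) ≤
          ‖toE (γ (x i))‖ ^ (α - 1) * W (x i) - ‖toE (γ (x (i + 1)))‖ ^ (α - 1) * W (x (i + 1))
        rw [hnE, hnE]
        exact (hS i hi).2.1
      hD := fun i q hi hq => by
        show ‖toE (γ (x (i + 1))) - toE (γ (x i))‖ ≤
            2 * (‖toE (γ (x q))‖ ^ (-(η / 8)) * ‖toE (γ (x q))‖) →
          (‖toE (γ (x q))‖ ^ (-(η / 8))) ^ 2 * ‖toE (γ (x q))‖ / 2 ≤
            inner ℝ (toE (γ (x (i + 1))) - toE (γ (x i))) (toE (γ (x q))) / ‖toE (γ (x q))‖ →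
          W (x q) - nrm (γ n) ^ (1 - α) ≤ (1 + K * ‖toE (γ (x q))‖ ^ (-(η / 8))) *
            (h (γ (x (i + 1)) - γ (x i)) / ((α - 1) *
              (inner ℝ (toE (γ (x (i + 1))) - toE (γ (x i))) (toE (γ (x q))) /
                ‖toE (γ (x q))‖))) * ‖toE (γ (x q))‖ ^ (1 - α)
        rw [hnD, hIn, hnE]
        intro h1 h2
        obtain ⟨-, -, p3, -, p5⟩ := fmds_pow hη hη1 (hbig q hq)
        rw [← p3] at h1
        rw [← p5] at h2
        exact hUB q hq _ h1 h2 }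
-- END fmds

-- BEGIN fcnt
/-- each index belongs to a bounded number of the blocks, uniform version: proof of `block_sum` -/
theorem block_sum' {c c' l : ℝ} (hc : 0 < c) (hl : 0 < l) (hl1 : l < 1) :
    ∃ N : ℕ, ∀ (b W : ℕ → ℝ) (B : ℝ), (∀ i, 0 ≤ b i) → (∀ n, ∑ i ∈ range n, b i ≤ B) →
      ∀ (I : Finset ℕ) (p q : ℕ → ℕ),
      (∀ k ∈ I, ∀ i ∈ Icc (p k) (q k), c * l ^ k ≤ W i ∧ W i ≤ c' * l ^ k) →
      ∑ k ∈ I, ∑ i ∈ Icc (p k) (q k), b i ≤ N * B := by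
  have hc'' : 0 < |c'| + 1 := by positivity
  obtain ⟨N, hN⟩ := exists_pow_lt_of_lt_one (div_pos hc hc'') hl1
  rw [lt_div_iff₀ hc''] at hN
  refine ⟨N, fun b W B hb hB I p q hI => ?_⟩
  have hcard : ∀ i : ℕ, ((I.filter fun k => i ∈ Icc (p k) (q k)).card : ℝ) ≤ N := by
    intro i
    rcases (I.filter fun k => i ∈ Icc (p k) (q k)).eq_empty_or_nonempty with h0 | h0
    · rw [h0, Finset.card_empty]
      exact Nat.cast_le.2 (Nat.zero_le N)
    · have hsub : (I.filter fun k => i ∈ Icc (p k) (q k)) ⊆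
          Ico ((I.filter fun k => i ∈ Icc (p k) (q k)).min' h0)
            ((I.filter fun k => i ∈ Icc (p k) (q k)).min' h0 + N) := by
        intro k hk
        rw [Finset.mem_Ico]
        have h1 := Finset.min'_le _ k hk
        refine ⟨h1, ?_⟩
        by_contra h2
        rw [not_lt] at h2
        obtain ⟨t, ht⟩ := Nat.exists_eq_add_of_le h2
        have h3 := Finset.min'_mem _ h0
        obtain ⟨h4, h5⟩ := Finset.mem_filter.1 h3
        obtain ⟨h6, h7⟩ := Finset.mem_filter.1 hk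
        have h8 := (hI _ h4 i h5).1
        have h9 := (hI _ h6 i h7).2
        set m := (I.filter fun k => i ∈ Icc (p k) (q k)).min' h0 with hm
        rw [ht, pow_add, pow_add] at h9
        have h10 : 0 < l ^ m := pow_pos hl m
        have h11 : l ^ N * l ^ t ≤ l ^ N := by
          have := mul_le_mul_of_nonneg_left (pow_le_one₀ hl.le hl1.le : l ^ t ≤ 1)
            (pow_pos hl N).le
          linarith
        have h12 : c' ≤ |c'| + 1 := (le_abs_self c').trans (by linarith)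
        have h13 : c' * (l ^ N * l ^ t) ≤ (|c'| + 1) * l ^ N := by
          calc c' * (l ^ N * l ^ t) ≤ (|c'| + 1) * (l ^ N * l ^ t) :=
                mul_le_mul_of_nonneg_right h12 (by positivity)
            _ ≤ (|c'| + 1) * l ^ N := mul_le_mul_of_nonneg_left h11 hc''.le
        have h14 : c' * (l ^ m * l ^ N * l ^ t) ≤ l ^ m * ((|c'| + 1) * l ^ N) := by
          calc c' * (l ^ m * l ^ N * l ^ t) = l ^ m * (c' * (l ^ N * l ^ t)) := by ring
            _ ≤ l ^ m * ((|c'| + 1) * l ^ N) := mul_le_mul_of_nonneg_left h13 h10.le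
        have h15 : l ^ m * ((|c'| + 1) * l ^ N) < l ^ m * c := by
          apply mul_lt_mul_of_pos_left _ h10
          linarith
        linarith
      have h1 := Finset.card_le_card hsub
      rw [Nat.card_Ico] at h1
      have h2 : (I.filter fun k => i ∈ Icc (p k) (q k)).card ≤ N := by omega
      exact_mod_cast h2
  have hM : ∀ k ∈ I, Icc (p k) (q k) ⊆ range (I.sup q + 1) := by
    intro k hk i hi
    rw [Finset.mem_Icc] at hi
    rw [Finset.mem_range]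
    have := Finset.le_sup (f := q) hk
    omega
  have e1 : ∑ k ∈ I, ∑ i ∈ Icc (p k) (q k), b i =
      ∑ k ∈ I, ∑ i ∈ range (I.sup q + 1), if i ∈ Icc (p k) (q k) then b i else 0 := by
    refine Finset.sum_congr rfl fun k hk => ?_
    rw [← Finset.sum_filter]
    refine Finset.sum_congr ?_ fun _ _ => rfl
    ext i
    rw [Finset.mem_filter]
    exact ⟨fun h => ⟨hM k hk h, h⟩, fun h => h.2⟩
  rw [e1, Finset.sum_comm]
  calc ∑ i ∈ range (I.sup q + 1), ∑ k ∈ I, (if i ∈ Icc (p k) (q k) then b i else 0)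
      ≤ ∑ i ∈ range (I.sup q + 1), (N : ℝ) * b i := by
        refine Finset.sum_le_sum fun i _ => ?_
        rw [← Finset.sum_filter, Finset.sum_const, nsmul_eq_mul]
        exact mul_le_mul_of_nonneg_right (hcard i) (hb i)
    _ = N * ∑ i ∈ range (I.sup q + 1), b i := by rw [Finset.mul_sum]
    _ ≤ N * B := mul_le_mul_of_nonneg_left (hB _) (Nat.cast_nonneg N)
-- END fcnt

-- BEGIN fman
private theorem fman_ip (x y : V d) : ip x y = inner ℝ (toE x) (toE y) := by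
  rw [PiLp.inner_apply, ip]
  refine Finset.sum_congr rfl fun j _ => ?_
  rw [toE_apply, toE_apply]
  simp [mul_comm]

private theorem fman_blk {x : ℕ → ℕ} {L m : ℕ} (hm : x 0 ≤ m) (hL : m < x L) :
    ∃ i, i < L ∧ x i ≤ m ∧ m < x (i + 1) := by
  classical
  have hex : ∃ i, m < x i := ⟨L, hL⟩
  have h1 := Nat.find_spec hex
  have h2 : Nat.find hex ≤ L := Nat.find_min' hex hL
  have h0 : Nat.find hex ≠ 0 := by
    intro h
    rw [h] at h1
    omega
  obtain ⟨i, hi⟩ := Nat.exists_eq_succ_of_ne_zero h0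
  have h3 := Nat.find_min hex (m := i) (by omega)
  rw [hi] at h1 h2
  exact ⟨i, by omega, by omega, h1⟩

private theorem fman_pow (k : ℕ) (z : ℝ) : ((2 : ℝ) ^ k) ^ z = ((2 : ℝ) ^ z) ^ k := by
  have h2 : (0 : ℝ) ≤ 2 := by norm_num
  calc ((2 : ℝ) ^ k) ^ z = ((2 : ℝ) ^ (k : ℝ)) ^ z := by rw [Real.rpow_natCast]
    _ = (2 : ℝ) ^ ((k : ℝ) * z) := (Real.rpow_mul h2 _ _).symm
    _ = (2 : ℝ) ^ (z * (k : ℝ)) := by rw [mul_comm]
    _ = ((2 : ℝ) ^ z) ^ (k : ℝ) := Real.rpow_mul h2 _ _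
    _ = ((2 : ℝ) ^ z) ^ k := by rw [Real.rpow_natCast]

private theorem fman_W {r w g M α : ℝ} {k : ℕ} (hα : 1 < α) (hg : 0 < g) (hM : 0 < M)
    (h1 : 2 ^ k / 2 ≤ r) (h2 : r ≤ 4 * 2 ^ k) (hl : g ≤ r ^ (α - 1) * w)
    (hu : r ^ (α - 1) * w ≤ M) :
    g * (4 : ℝ) ^ (1 - α) * ((2 : ℝ) ^ (1 - α)) ^ k ≤ w ∧
      w ≤ M * (1 / 2 : ℝ) ^ (1 - α) * ((2 : ℝ) ^ (1 - α)) ^ k := by
  have h2k : (0 : ℝ) < 2 ^ k := by positivity
  have hr : 0 < r := by linarith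
  have e1 : r ^ (α - 1) * r ^ (1 - α) = 1 := by
    rw [← Real.rpow_add hr]
    simp
  have hw : w = (r ^ (α - 1) * w) * r ^ (1 - α) := by
    calc w = (r ^ (α - 1) * r ^ (1 - α)) * w := by rw [e1, one_mul]
      _ = _ := by ring
  have hz : 1 - α ≤ 0 := by linarith
  have l1 : (4 : ℝ) ^ (1 - α) * ((2 : ℝ) ^ (1 - α)) ^ k ≤ r ^ (1 - α) := by
    have := Real.rpow_le_rpow_of_nonpos hr h2 hz
    rwa [Real.mul_rpow (by norm_num) h2k.le, fman_pow] at this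
  have l2 : r ^ (1 - α) ≤ (1 / 2 : ℝ) ^ (1 - α) * ((2 : ℝ) ^ (1 - α)) ^ k := by
    have := Real.rpow_le_rpow_of_nonpos (by positivity : (0 : ℝ) < 1 / 2 * 2 ^ k)
      (by linarith : 1 / 2 * 2 ^ k ≤ r) hz
    rwa [Real.mul_rpow (by norm_num) h2k.le, fman_pow] at this
  have hr1 : 0 < r ^ (1 - α) := Real.rpow_pos_of_pos hr _
  constructor
  · calc g * (4 : ℝ) ^ (1 - α) * ((2 : ℝ) ^ (1 - α)) ^ k
        = g * ((4 : ℝ) ^ (1 - α) * ((2 : ℝ) ^ (1 - α)) ^ k) := by ring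
      _ ≤ (r ^ (α - 1) * w) * r ^ (1 - α) := mul_le_mul hl l1 (by positivity) (by linarith)
      _ = w := hw.symm
  · calc w = (r ^ (α - 1) * w) * r ^ (1 - α) := hw
      _ ≤ M * ((1 / 2 : ℝ) ^ (1 - α) * ((2 : ℝ) ^ (1 - α)) ^ k) :=
        mul_le_mul hu l2 hr1.le hM.le
      _ = M * (1 / 2 : ℝ) ^ (1 - α) * ((2 : ℝ) ^ (1 - α)) ^ k := by ring

private theorem fman_geo {F : Type*} [NormedAddCommGroup F] [InnerProductSpace ℝ F] {x y : F}
    {δ t : ℝ} (ht : 0 < t) (hδ : δ ≤ 1 / 32) (hxy : ‖x - y‖ ≤ δ * ‖y‖) (h1 : t ≤ ‖x‖)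
    (h2 : ‖x‖ ≤ 2 * t) : t / 2 ≤ ‖y‖ ∧ ‖y‖ ≤ 4 * t := by
  have hy := norm_nonneg y
  have h3 : ‖x - y‖ ≤ 1 / 32 * ‖y‖ := hxy.trans (mul_le_mul_of_nonneg_right hδ hy)
  have h4 : ‖x‖ ≤ ‖y‖ + ‖x - y‖ := by
    calc ‖x‖ = ‖y + (x - y)‖ := by congr 1; abel
      _ ≤ _ := norm_add_le _ _
  have h5 : ‖y‖ ≤ ‖x‖ + ‖x - y‖ := by
    calc ‖y‖ = ‖x - (x - y)‖ := by congr 1; abel
      _ ≤ _ := norm_sub_le _ _
  constructor <;> linarith

private theorem fman_tri {F : Type*} [NormedAddCommGroup F] [InnerProductSpace ℝ F]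
    {a b c e : F} {s t : ℝ} (h1 : ‖a - b‖ ≤ 2 * s) (h2 : ‖e - c‖ ≤ 2 * t) :
    ‖a - e‖ ^ 2 ≤ 12 * s ^ 2 + 12 * t ^ 2 + 3 * ‖b - c‖ ^ 2 := by
  have h : ‖a - e‖ ≤ ‖a - b‖ + ‖b - c‖ + ‖e - c‖ := by
    calc ‖a - e‖ = ‖(a - b) + (b - c) - (e - c)‖ := by congr 1; abel
      _ ≤ ‖(a - b) + (b - c)‖ + ‖e - c‖ := norm_sub_le _ _
      _ ≤ _ := by gcongr; exact norm_add_le _ _
  have h0 := norm_nonneg (a - e)
  have h01 := norm_nonneg (a - b)
  have h02 := norm_nonneg (b - c)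
  have h03 := norm_nonneg (e - c)
  have h4 : ‖a - e‖ ^ 2 ≤ (2 * s + ‖b - c‖ + 2 * t) ^ 2 := by
    apply pow_le_pow_left₀ h0
    linarith
  nlinarith [sq_nonneg (2 * s - ‖b - c‖), sq_nonneg (2 * s - 2 * t), sq_nonneg (‖b - c‖ - 2 * t)]

/-- the turning of a finite path in the dyadic annuli: proof of `ray_ds` (private helpers `man_..`
there) with `FS`; for `block_sum'` take `b i = FB i` for `i < L`, `b L = De L ^ 2 ≤ 1`, `b i = 0` for
`i > L`, partial sums bounded by `FS.bsum` plus `1` -/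
theorem fin_ds {a b K K1 M α θ g : ℝ} (hα : 1 < α) (hM : 0 < M) (hg : 0 < g) (ha : 0 < a) :
    ∃ C : ℝ, ∀ (γ : ℕ → V d) (W : ℕ → ℝ) (x : ℕ → ℕ) (H : ℕ → ℝ) (L n : ℕ) (ω : ℝ),
      FS (fun i => toE (γ (x i))) (fun i => W (x i)) H L a b K K1 M α θ ω g →
      (∀ i, i < L → x i < x (i + 1)) → x L ≤ n →
      (∀ i, i < L → ∀ k, x i ≤ k → k < x (i + 1) →
        nrm (γ k - γ (x i)) ≤ nrm (γ (x i)) ^ (-θ) * nrm (γ (x i))) →
      (∀ k, x L ≤ k → k ≤ n → nrm (γ k - γ (x L)) ≤ nrm (γ (x L)) ^ (-θ) * nrm (γ (x L))) →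
      ∀ (I : Finset ℕ) (m m' : ℕ → ℕ),
      (∀ k ∈ I, x 0 ≤ m k ∧ m k ≤ n ∧ x 0 ≤ m' k ∧ m' k ≤ n ∧
        2 ^ k ≤ nrm (γ (m k)) ∧ nrm (γ (m k)) ≤ 2 ^ (k + 1) ∧
        2 ^ k ≤ nrm (γ (m' k)) ∧ nrm (γ (m' k)) ≤ 2 ^ (k + 1)) →
      ∑ k ∈ I, (1 - ip (γ (m k)) (γ (m' k)) / (nrm (γ (m k)) * nrm (γ (m' k)))) ≤ C := by
  set l0 : ℝ := (2 : ℝ) ^ (1 - α) with hl
  have hl0 : 0 < l0 := by positivity
  have hl1 : l0 < 1 := Real.rpow_lt_one_of_one_lt_of_neg (by norm_num) (by linarith)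
  set c : ℝ := g * (4 : ℝ) ^ (1 - α) with hc
  have hc0 : 0 < c := by positivity
  set c' : ℝ := M * (1 / 2 : ℝ) ^ (1 - α) with hc'
  have hc0' : 0 < c' := by positivity
  obtain ⟨N, hN⟩ := block_sum' (c' := c') hc0 hl0 hl1
  obtain ⟨N0, hN0⟩ := exists_nat_ge (32 * (2 * M / a * (c' / c)))
  set C0 : ℝ := 4 * ((1 + (3 * K * b + 4 * (α - 1) * M + 2 * (α - 1) * (2 : ℝ) ^ (α - 1)) +
        (α - 1) * (1 + K1)) / ((α - 1) * g) + 18) with hC0
  set B : ℝ := M + (K1 + 1) * (2 * M / a * g ^ (-(θ / (α - 1))) *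
      (1 / min (θ / (α - 1)) 1) * M ^ (θ / (α - 1)) + 2 * M ^ 2 / a) with hBdef
  refine ⟨(12 + 3 / 2 * ((N0 + 1) ^ 2 * C0)) * (N * (B + 1)), ?_⟩
  intro γ W x H L n ω h hx hxL hin hlast I m m' hI
  set y : ℕ → EuclideanSpace ℝ (Fin d) := fun i => toE (γ (x i)) with hy
  set w : ℕ → ℝ := fun i => W (x i) with hw
  have hC00 : 0 ≤ C0 := by
    have h1 := h.hK
    have h2 := h.hb
    have h3 := h.hK1
    have h4 : 0 < α - 1 := by linarith
    positivity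
  have hdec : ∀ i j, i ≤ j → j ≤ L → w j ≤ w i := by
    intro i j hij
    induction j, hij using Nat.le_induction with
    | base => exact fun _ => le_refl _
    | succ j hj ih =>
      intro hjL
      have h1 := h.decW j (by omega)
      have h2 := h.one j (by omega)
      have h3 : 0 < ‖y j‖ := by linarith
      have h4 : 0 ≤ a / 2 * ‖y j‖ ^ (-θ) * ‖y j‖ ^ (1 - α) := by positivity
      have h5 := ih (by omega)
      linarith
  obtain ⟨β, hβ⟩ : ∃ β : ℕ → ℝ, β = fun i => if i < L then FB y w K1 α θ ω i else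
      if i = L then De y θ L ^ 2 else 0 := ⟨_, rfl⟩
  have hβlt : ∀ i, i < L → β i = FB y w K1 α θ ω i := fun i hi => by
    rw [hβ]
    exact if_pos hi
  have hβL : β L = De y θ L ^ 2 := by
    rw [hβ]
    simp
  have hβgt : ∀ i, L < i → β i = 0 := fun i hi => by
    rw [hβ]
    have h1 : ¬ i < L := by omega
    have h2 : ¬ i = L := by omega
    simp [h1, h2]
  have hβ0 : ∀ i, 0 ≤ β i := by
    intro i
    rcases lt_trichotomy i L with hi | hi | hi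
    · rw [hβlt i hi]
      exact (h.bnn hi).2.2
    · rw [hi, hβL]
      exact sq_nonneg _
    · rw [hβgt i hi]
  have hβD : ∀ i, i ≤ L → De y θ i ^ 2 ≤ β i := by
    intro i hi
    rcases lt_or_eq_of_le hi with h1 | h1
    · rw [hβlt i h1]
      exact (h.de hi).2.2.2.trans (h.bnn h1).2.1
    · rw [h1, hβL]
  have hβB : ∀ s, ∑ i ∈ range s, β i ≤ B + 1 := by
    intro s
    have h1 : ∑ i ∈ range s, β i ≤ ∑ i ∈ range (L + 1 + s), β i :=
      Finset.sum_le_sum_of_subset_of_nonneg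
        (fun i hi => Finset.mem_range.2 (by have := Finset.mem_range.1 hi; omega))
        (fun i _ _ => hβ0 i)
    have h2 : ∑ i ∈ range (L + 1 + s), β i = ∑ i ∈ range L, FB y w K1 α θ ω i +
        De y θ L ^ 2 := by
      rw [Finset.sum_range_add, Finset.sum_range_succ, hβL,
        Finset.sum_congr rfl (fun i hi => hβlt i (Finset.mem_range.1 hi)),
        Finset.sum_eq_zero (fun i _ => hβgt (L + 1 + i) (by omega)), add_zero]
    have h3 := h.bsum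
    obtain ⟨h4, h5, -, -⟩ := h.de (le_refl L)
    have h6 : De y θ L ^ 2 ≤ 1 := by nlinarith
    rw [h2] at h1
    linarith
  have hblk : ∀ m1, x 0 ≤ m1 → m1 ≤ n → ∃ i, i ≤ L ∧
      ‖toE (γ m1) - y i‖ ≤ ‖y i‖ ^ (-θ) * ‖y i‖ := by
    intro m1 h1 h2
    by_cases h3 : x L ≤ m1
    · refine ⟨L, le_refl _, ?_⟩
      have := hlast m1 h3 h2
      rw [nrm_eq, nrm_eq, toE_sub] at this
      exact this
    · obtain ⟨i, hi, h4, h5⟩ := fman_blk h1 (not_le.1 h3)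
      refine ⟨i, hi.le, ?_⟩
      have := hin i hi m1 h4 h5
      rw [nrm_eq, nrm_eq, toE_sub] at this
      exact this
  have pair : ∀ (k i j m1 m2 : ℕ), i ≤ j → j ≤ L →
      ‖toE (γ m1) - y i‖ ≤ ‖y i‖ ^ (-θ) * ‖y i‖ → ‖toE (γ m2) - y j‖ ≤ ‖y j‖ ^ (-θ) * ‖y j‖ →
      2 ^ k ≤ nrm (γ m1) → nrm (γ m1) ≤ 2 ^ (k + 1) → 2 ^ k ≤ nrm (γ m2) →
      nrm (γ m2) ≤ 2 ^ (k + 1) →
      (∀ l ∈ Icc i j, c * l0 ^ k ≤ w l ∧ w l ≤ c' * l0 ^ k) ∧
      1 - ip (γ m1) (γ m2) / (nrm (γ m1) * nrm (γ m2)) ≤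
        (12 + 3 / 2 * ((N0 + 1) ^ 2 * C0)) * ∑ l ∈ Icc i j, β l := by
    intro k i j m1 m2 hij hjL q1 q2 r1 r2 r3 r4
    have hiL : i ≤ L := hij.trans hjL
    have h2k : (0 : ℝ) < 2 ^ k := by positivity
    have hpw : (2 : ℝ) ^ (k + 1) = 2 * 2 ^ k := by ring
    rw [nrm_eq] at r1 r2 r3 r4
    rw [hpw] at r2 r4
    obtain ⟨s1, s2⟩ := fman_geo h2k (h.small i hiL) q1 r1 r2
    obtain ⟨s3, s4⟩ := fman_geo h2k (h.small j hjL) q2 r3 r4
    have W1 := fman_W hα hg hM s1 s2 (h.low i hiL) (h.upW i hiL)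
    have W2 := fman_W hα hg hM s3 s4 (h.low j hjL) (h.upW j hjL)
    have hwl : ∀ l ∈ Icc i j, c * l0 ^ k ≤ w l ∧ w l ≤ c' * l0 ^ k := by
      intro l hl'
      rw [Finset.mem_Icc] at hl'
      exact ⟨W2.1.trans (hdec l j hl'.2 hjL), (hdec i l hl'.1 (hl'.2.trans hjL)).trans W1.2⟩
    refine ⟨hwl, ?_⟩
    have hwi := (hwl i (Finset.mem_Icc.mpr ⟨le_refl _, hij⟩)).2
    have hwj := (hwl j (Finset.mem_Icc.mpr ⟨hij, le_refl _⟩)).1
    have hlk : 0 < l0 ^ k := by positivity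
    have hwj0 : 0 < w j := lt_of_lt_of_le (by positivity) hwj
    have hrat : w i / w j ≤ c' / c := by
      rw [div_le_div_iff₀ hwj0 hc0]
      calc w i * c ≤ (c' * l0 ^ k) * c := by gcongr
        _ = c' * (c * l0 ^ k) := by ring
        _ ≤ c' * w j := by gcongr
    have hsum : ∑ l ∈ Ico i j, De y θ l ≤ N0 / 32 := by
      calc ∑ l ∈ Ico i j, De y θ l ≤ 2 * M / a * (w i / w j) := h.sumde hij hjL
        _ ≤ 2 * M / a * (c' / c) := by gcongr
        _ ≤ N0 / 32 := by linarith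
    have hfar := h.far hC00 (fun p q hpq hq hs => h.piece hpq hq hs) N0 hij hjL hsum
    have heq : ∑ l ∈ Ico i j, FB y w K1 α θ ω l = ∑ l ∈ Ico i j, β l :=
      Finset.sum_congr rfl fun l hl' => by
        rw [Finset.mem_Ico] at hl'
        rw [hβlt l (by omega)]
    rw [heq] at hfar
    have hsub : ∑ l ∈ Ico i j, β l ≤ ∑ l ∈ Icc i j, β l :=
      Finset.sum_le_sum_of_subset_of_nonneg Finset.Ico_subset_Icc_self (fun l _ _ => hβ0 l)
    have hbi : De y θ i ^ 2 ≤ ∑ l ∈ Icc i j, β l :=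
      (hβD i hiL).trans (Finset.single_le_sum (f := β)
        (fun l _ => hβ0 l) (Finset.mem_Icc.mpr ⟨le_refl _, hij⟩))
    have hbj : De y θ j ^ 2 ≤ ∑ l ∈ Icc i j, β l :=
      (hβD j hjL).trans (Finset.single_le_sum (f := β)
        (fun l _ => hβ0 l) (Finset.mem_Icc.mpr ⟨hij, le_refl _⟩))
    have x1 : 0 < ‖toE (γ m1)‖ := lt_of_lt_of_le h2k r1
    have x2 : 0 < ‖toE (γ m2)‖ := lt_of_lt_of_le h2k r3
    have y1 : 0 < ‖y i‖ := by linarith
    have y2 : 0 < ‖y j‖ := by linarith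
    have c1 : ‖(‖toE (γ m1)‖⁻¹ • toE (γ m1)) - (‖y i‖⁻¹ • y i)‖ ≤ 2 * De y θ i := by
      refine (unit_close x1 y1).trans ?_
      rw [div_le_iff₀ y1]
      unfold De
      linarith
    have c2 : ‖(‖toE (γ m2)‖⁻¹ • toE (γ m2)) - (‖y j‖⁻¹ • y j)‖ ≤ 2 * De y θ j := by
      refine (unit_close x2 y2).trans ?_
      rw [div_le_iff₀ y2]
      unfold De
      linarith
    have ht := fman_tri c1 c2
    rw [unit_sq x1 x2] at ht
    rw [nrm_eq, nrm_eq, fman_ip]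
    have hS : (N0 + 1 : ℝ) ^ 2 * C0 * ∑ l ∈ Ico i j, β l ≤
        (N0 + 1) ^ 2 * C0 * ∑ l ∈ Icc i j, β l := by gcongr
    set S := ∑ l ∈ Icc i j, β l with hSdef
    have e2 : (12 + 3 / 2 * (((N0 : ℝ) + 1) ^ 2 * C0)) * S =
        12 * S + 3 / 2 * ((N0 + 1) ^ 2 * C0 * S) := by ring
    rw [e2]
    linarith
  have key : ∀ k ∈ I, ∃ p q : ℕ, (∀ l ∈ Icc p q, c * l0 ^ k ≤ w l ∧ w l ≤ c' * l0 ^ k) ∧
      1 - ip (γ (m k)) (γ (m' k)) / (nrm (γ (m k)) * nrm (γ (m' k))) ≤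
        (12 + 3 / 2 * ((N0 + 1) ^ 2 * C0)) * ∑ l ∈ Icc p q, β l := by
    intro k hk
    obtain ⟨g1, g2, g3, g4, g5, g6, g7, g8⟩ := hI k hk
    obtain ⟨i, i1, i2⟩ := hblk (m k) g1 g2
    obtain ⟨j, j1, j2⟩ := hblk (m' k) g3 g4
    rcases le_total i j with hij | hij
    · exact ⟨i, j, pair k i j (m k) (m' k) hij j1 i2 j2 g5 g6 g7 g8⟩
    · refine ⟨j, i, ?_⟩
      have := pair k j i (m' k) (m k) hij i1 j2 i2 g7 g8 g5 g6
      rwa [fman_ip (γ (m' k)), real_inner_comm, ← fman_ip, mul_comm (nrm (γ (m' k)))] at this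
  choose! p q hpq using key
  calc ∑ k ∈ I, (1 - ip (γ (m k)) (γ (m' k)) / (nrm (γ (m k)) * nrm (γ (m' k))))
      ≤ ∑ k ∈ I, (12 + 3 / 2 * ((N0 + 1) ^ 2 * C0)) * ∑ l ∈ Icc (p k) (q k), β l :=
        Finset.sum_le_sum fun k hk => (hpq k hk).2
    _ = (12 + 3 / 2 * ((N0 + 1) ^ 2 * C0)) * ∑ k ∈ I, ∑ l ∈ Icc (p k) (q k), β l := by
        rw [Finset.mul_sum]
    _ ≤ (12 + 3 / 2 * ((N0 + 1) ^ 2 * C0)) * (N * (B + 1)) :=
        mul_le_mul_of_nonneg_left (hN β w (B + 1) hβ0 hβB I p q fun k hk => (hpq k hk).1)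
          (by positivity)
-- END fman

-- BEGIN fall
/-- the turning of finite paths far from the origin: `mkFS`, `fin_disc` with
`f v = nrm v ^ (1 - η/8)`, `fin_ds` -/
theorem path_all {h : V d → ℝ} {a b C : ℝ} (hh : HF h a b C) {η : ℝ} (hη : 0 < η) (hη1 : η ≤ 1)
    {α : ℝ} (hα : 1 < α) {K : ℝ} (hK : 0 < K) {E : Edge d → ℝ} {R0 : ℝ} (hE : ∀ e, 0 ≤ E e)
    (hCC : CC h η E R0) :
    ∃ R C : ℝ, ∀ (γ : ℕ → V d) (st : ℕ → Step d) (W : ℕ → ℝ) (n : ℕ),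
      FinPath (tau α E) γ st W n (nrm (γ n) ^ (1 - α)) →
      ∀ N0 : ℕ, N0 ≤ n → (∀ k, N0 ≤ k → k ≤ n → R ≤ nrm (γ k) ∧
        UB h η α K (W k - nrm (γ n) ^ (1 - α)) (γ k)) →
      ∀ (I : Finset ℕ) (m m' : ℕ → ℕ),
      (∀ k ∈ I, N0 ≤ m k ∧ m k ≤ n ∧ N0 ≤ m' k ∧ m' k ≤ n ∧
        2 ^ k ≤ nrm (γ (m k)) ∧ nrm (γ (m k)) ≤ 2 ^ (k + 1) ∧
        2 ^ k ≤ nrm (γ (m' k)) ∧ nrm (γ (m' k)) ≤ 2 ^ (k + 1)) →
      ∑ k ∈ I, (1 - ip (γ (m k)) (γ (m' k)) / (nrm (γ (m k)) * nrm (γ (m' k)))) ≤ C := by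
  obtain ⟨K1, R1, M, g, hM, hg, hmk⟩ := mkFS hh hη hη1 hα hK
  obtain ⟨C0, hC0⟩ := fin_ds (d := d) (a := a) (b := |b| + 1) (K := K) (K1 := K1) (θ := η / 8)
    hα hM hg hh.pos
  refine ⟨max 1 (max R1 R0), C0, ?_⟩
  intro γ st W n hF N0 hN0 hk I m m' hI
  have hone : ∀ k, N0 ≤ k → k ≤ n → 1 ≤ nrm (γ k) := fun k h1 h2 =>
    (le_max_left _ _).trans (hk k h1 h2).1
  have hR1 : ∀ k, N0 ≤ k → k ≤ n → R1 ≤ nrm (γ k) := fun k h1 h2 =>
    ((le_max_left _ _).trans (le_max_right _ _)).trans (hk k h1 h2).1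
  have hR0 : ∀ k, N0 ≤ k → k ≤ n → R0 ≤ nrm (γ k) := fun k h1 h2 =>
    ((le_max_right _ _).trans (le_max_right _ _)).trans (hk k h1 h2).1
  obtain ⟨L, x, hx0, hxL, hxm, hxlt, hxge, hlast⟩ := fin_disc (γ := γ)
    (fun v => nrm v ^ (1 - η / 8)) N0 n hN0
    (fun k h1 h2 => Real.rpow_pos_of_pos (lt_of_lt_of_le one_pos (hone k h1 h2)) _)
  have hmono : ∀ j i, i + j = L → N0 ≤ x i ∧ x i ≤ x L := by
    have hup : ∀ i, i ≤ L → N0 ≤ x i := by
      intro i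
      induction i with
      | zero => intro _; exact hx0.ge
      | succ i ih => intro hi; exact (ih (by omega)).trans (hxm i (by omega)).le
    have hdn : ∀ j i, i + j = L → x i ≤ x L := by
      intro j
      induction j with
      | zero => intro i hi; exact le_of_eq (by rw [← hi, Nat.add_zero])
      | succ j ih =>
        intro i hi
        exact (hxm i (by omega)).le.trans (ih (i + 1) (by omega))
    exact fun j i hij => ⟨hup i (by omega), hdn j i hij⟩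
  have hxN : ∀ i, i ≤ L → N0 ≤ x i ∧ x i ≤ n := fun i hi => by
    obtain ⟨h1, h2⟩ := hmono (L - i) i (by omega)
    exact ⟨h1, h2.trans hxL⟩
  have hpw : ∀ i, i ≤ L → nrm (γ (x i)) ^ (1 - η / 8) =
      nrm (γ (x i)) ^ (-(η / 8)) * nrm (γ (x i)) := by
    intro i hi
    have h4 : 0 < nrm (γ (x i)) := lt_of_lt_of_le one_pos (hone _ (hxN i hi).1 (hxN i hi).2)
    have h6 : (1 - η / 8 : ℝ) = -(η / 8) + 1 := by ring
    rw [h6, Real.rpow_add h4, Real.rpow_one]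
  have hFS := hmk E R0 hE hCC γ st W n hF N0 hN0
    (fun k h1 h2 => ⟨hR1 k h1 h2, hR0 k h1 h2, (hk k h1 h2).2⟩) L x hx0 hxL hxm hxlt hxge
  refine hC0 γ W x _ L n _ hFS hxm hxL (fun i hi k h1 h2 => ?_) (fun k h1 h2 => ?_) I m m' ?_
  · rw [← hpw i hi.le]
    exact (hxlt i hi k h1 h2).le
  · rw [← hpw L le_rfl]
    exact (hlast k h1 h2).le
  · intro k hkI
    rw [hx0]
    exact hI k hkI
-- END fall

end OneR
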