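import Pool.Agent.OneR.Tree
import Pool.Agent.OneR.FPath

/-!
Problem MP_b9fb85_pr: the infection paths of the exploration are uniformly straight.
-/

set_option autoImplicit false

namespace OneR

open Finset ConeD ConeD.TRANSAux OneE Filter MeasureTheory

variable {d : ℕ}

section

variable {τ : Edge d → ℝ} {s : ℕ → Edge d}

-- BEGIN fpof
/-- the ancestral path of `v` with its times: induction along `OneE.desc_zero`; the ancestors of `v`
are `v` and the ancestors of its parent (`OneE.infects_unique`, `Relation.ReflTransGen.cases_tail`);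
steps by `infects_step` -/
theorem path_of (hG : ∀ n, G τ (lst s n)) {θ : V d → ℝ}
    (hθ : ∀ (x : V d) (t : Step d) (m : ℕ), s m = edg x t → x ∈ vs (lst s m) →
        x + vec t ∉ vs (lst s m) → θ (x + vec t) = θ x + τ (s m)) {v : V d} (hv : v ∈ Reached s) :
    ∃ (n : ℕ) (γ : ℕ → V d) (st : ℕ → Step d), γ 0 = 0 ∧ γ n = v ∧
      (∀ k, k < n → γ (k + 1) = γ k + vec (st k) ∧
        θ (γ (k + 1)) = θ (γ k) + τ (edg (γ k) (st k))) ∧
      (∀ k, k ≤ n → γ k ∈ Reached s ∧ Relation.ReflTransGen (Infects s) (γ k) v ∧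
        ∀ j, j ≤ k → Relation.ReflTransGen (Infects s) (γ j) (γ k)) ∧
      ∀ z, Relation.ReflTransGen (Infects s) z v → ∃ k, k ≤ n ∧ γ k = z := by
  have key : ∀ w : V d, Relation.ReflTransGen (Infects s) 0 w →
      ∃ (n : ℕ) (γ : ℕ → V d) (st : ℕ → Step d), γ 0 = 0 ∧ γ n = w ∧
      (∀ k, k < n → γ (k + 1) = γ k + vec (st k) ∧
        θ (γ (k + 1)) = θ (γ k) + τ (edg (γ k) (st k))) ∧
      (∀ k, k ≤ n → γ k ∈ Reached s ∧ Relation.ReflTransGen (Infects s) (γ k) w ∧
        ∀ j, j ≤ k → Relation.ReflTransGen (Infects s) (γ j) (γ k)) ∧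
      ∀ z, Relation.ReflTransGen (Infects s) z w → ∃ k, k ≤ n ∧ γ k = z := by
    intro w hw
    induction hw with
    | refl =>
      refine ⟨0, fun _ => 0, fun _ => ((s 0).2, true), rfl, rfl, ?_, ?_, ?_⟩
      · intro k hk
        exact absurd hk (Nat.not_lt_zero k)
      · intro k _
        exact ⟨⟨0, zero_mem_vs s 0⟩, Relation.ReflTransGen.refl,
          fun j _ => Relation.ReflTransGen.refl⟩
      · intro z hz
        refine ⟨0, le_rfl, ?_⟩
        rcases Relation.ReflTransGen.cases_tail hz with h | ⟨u, _, m, _, _, _, h⟩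
        · exact h
        · exact absurd (zero_mem_vs s m) h
    | @tail u w _ huw ih =>
      obtain ⟨n, γ, st, g0, gn, g1, g2, g3⟩ := ih
      obtain ⟨t, m, e1, e2, e3, e4⟩ := infects_step huw
      have hg : ∀ k, k ≤ n → (if k ≤ n then γ k else w) = γ k := fun k hk => if_pos hk
      have hg' : (if n + 1 ≤ n then γ (n + 1) else w) = w := if_neg (by omega)
      have hs : ∀ k, k < n → (if k < n then st k else t) = st k := fun k hk => if_pos hk
      have hs' : (if n < n then st n else t) = t := if_neg (lt_irrefl n)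
      refine ⟨n + 1, fun k => if k ≤ n then γ k else w, fun k => if k < n then st k else t,
        ?_, hg', ?_, ?_, ?_⟩
      · exact (hg 0 (Nat.zero_le n)).trans g0
      · intro k hk
        dsimp only
        rcases Nat.lt_succ_iff_lt_or_eq.1 hk with h | h
        · rw [hg k h.le, hg (k + 1) h, hs k h]
          exact g1 k h
        · subst h
          rw [hg', hg k le_rfl, hs', gn]
          refine ⟨e1, ?_⟩
          rw [e1] at e4
          have h5 := hθ u t m e2 e3 e4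
          rw [← e1, e2] at h5
          exact h5
      · intro k hk
        dsimp only
        rcases Nat.lt_succ_iff_lt_or_eq.1 (Nat.lt_succ_of_le hk) with h | h
        · have h' : k ≤ n := Nat.lt_succ_iff.1 h
          rw [hg k h']
          obtain ⟨a1, a2, a3⟩ := g2 k h'
          refine ⟨a1, a2.tail huw, fun j hj => ?_⟩
          rw [hg j (hj.trans h')]
          exact a3 j hj
        · subst h
          rw [hg']
          refine ⟨infects_reached huw, Relation.ReflTransGen.refl, fun j hj => ?_⟩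
          rcases Nat.lt_succ_iff_lt_or_eq.1 (Nat.lt_succ_of_le hj) with h | h
          · have h' : j ≤ n := Nat.lt_succ_iff.1 h
            rw [hg j h']
            exact (g2 j h').2.1.tail huw
          · subst h
            rw [hg']
      · intro z hz
        rcases Relation.ReflTransGen.cases_tail hz with h | ⟨u', h1, h2⟩
        · exact ⟨n + 1, le_rfl, hg'.trans h⟩
        · rw [infects_unique h2 huw] at h1
          obtain ⟨k, hk, hk'⟩ := g3 z h1
          exact ⟨k, hk.trans (Nat.le_succ n), (hg k hk).trans hk'⟩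
  obtain ⟨N, hN⟩ := hv
  exact key v (desc_zero hG N v hN)
-- END fpof

-- BEGIN fanc
/-- the ancestors of the sites of norm less than `R` are bounded (`finite_ball`; the ancestors of a
reached site `u ∈ vs (lst s n)` are in `vs (lst s n)` by `OneE.desc_mem`) -/
theorem anc_bounded (R : ℝ) : ∃ R' : ℝ, ∀ u ∈ Reached s, nrm u < R →
    ∀ z, Relation.ReflTransGen (Infects s) z u → nrm z ≤ R' := by
  classical
  have h1 : ∀ u : V d, ∃ B : ℝ, u ∈ Reached s →
      ∀ z, Relation.ReflTransGen (Infects s) z u → nrm z ≤ B := by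
    intro u
    by_cases hu : u ∈ Reached s
    · obtain ⟨n, hn⟩ := hu
      obtain ⟨B, hB⟩ := (((vs (lst s n) : Finset (V d)) : Set (V d)).toFinite.image nrm).bddAbove
      refine ⟨B, fun _ z hz => hB ⟨z, ?_, rfl⟩⟩
      exact desc_mem hz hn
    · exact ⟨0, fun h => absurd h hu⟩
  choose B hB using h1
  obtain ⟨R', hR'⟩ := ((finite_ball (d := d) R).image B).bddAbove
  exact ⟨R', fun u hu hlt z hz => (hB u hu z hz).trans (hR' ⟨u, hlt.le, rfl⟩)⟩
-- END fanc

-- BEGIN fubd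
/-- the remaining time on the way to a reached site is smaller than the explosion time:
`θ v < S τ 0 ≤ θ x + S τ x` (`OneE.th_lt`, `exists_art`, `S_le_wt_add_S`) -/
theorem rest_lt (i0 : Fin d) (hτ : ∀ e, 0 < τ e) (hS : Explodes τ) (hG : ∀ n, G τ (lst s n))
    {θ : V d → ℝ} (h1 : ∀ n, ∀ v ∈ vs (lst s n), θ v = th τ (lst s n) v)
    (h2 : ∀ v ∈ Reached s, ∃ l : List (Step d), endp 0 l = v ∧ wt τ 0 l = θ v) {x v : V d}
    (hx : x ∈ Reached s) (hv : v ∈ Reached s) : θ v - θ x ≤ S τ x := by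
  obtain ⟨n, hn⟩ := hv
  have h3 := th_lt i0 hτ hS (hG n) v hn
  rw [← h1 n v hn] at h3
  obtain ⟨l, hl1, hl2⟩ := h2 x hx
  have h4 := S_le_wt_add_S (fun e => (hτ e).le) hS 0 l
  rw [hl1, hl2] at h4
  linarith
-- END fubd

end

/-- all the infection paths are straight, with one constant -/
def StraightAll (s : ℕ → Edge d) : Prop :=
  ∃ C : ℕ, ∀ v ∈ Reached s, ∀ (I : Finset ℕ) (x y : I → V d),
    (∀ k : I, (Relation.ReflTransGen (Infects s) (x k) v ∧ 2 ^ (k : ℕ) ≤ nrm (x k) ∧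
        nrm (x k) ≤ 2 ^ ((k : ℕ) + 1)) ∧
      Relation.ReflTransGen (Infects s) (y k) v ∧ 2 ^ (k : ℕ) ≤ nrm (y k) ∧
        nrm (y k) ≤ 2 ^ ((k : ℕ) + 1)) →
    ∑ k : I, (1 - ip (x k) (y k) / (nrm (x k) * nrm (y k))) ≤ C

-- BEGIN fmst
private theorem fmst_rtg (z v : V d) :
    MeasurableSet {s : ℕ → Edge d | Relation.ReflTransGen (Infects s) z v} :=
  measurableSet_rtg (fun (s : ℕ → Edge d) x y => Infects s x y)
    (fun x y => measurableSet_infects x y) z v

private theorem fmst_reached (v : V d) : MeasurableSet {s : ℕ → Edge d | v ∈ Reached s} := by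
  have h : {s : ℕ → Edge d | v ∈ Reached s} = ⋃ n, {s | v ∈ vs (lst s n)} := by
    ext s
    simp only [Reached, Set.mem_ofPred_eq, Set.mem_iUnion]
  rw [h]
  exact MeasurableSet.iUnion fun n => measurableSet_vs v n

/-- as `measurableSet_straight` -/
theorem measurableSet_straightAll : MeasurableSet {s : ℕ → Edge d | StraightAll s} := by
  have hset : {s : ℕ → Edge d | StraightAll s} = ⋃ C : ℕ, ⋂ v : V d, ⋂ I : Finset ℕ,
      ⋂ x : I → V d, ⋂ y : I → V d, ({s | v ∈ Reached s}ᶜ ∪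
        ({s | ∀ k : I, (Relation.ReflTransGen (Infects s) (x k) v ∧ 2 ^ (k : ℕ) ≤ nrm (x k) ∧
          nrm (x k) ≤ 2 ^ ((k : ℕ) + 1)) ∧ Relation.ReflTransGen (Infects s) (y k) v ∧
            2 ^ (k : ℕ) ≤ nrm (y k) ∧ nrm (y k) ≤ 2 ^ ((k : ℕ) + 1)}ᶜ ∪
        {_s : ℕ → Edge d | ∑ k : I, (1 - ip (x k) (y k) / (nrm (x k) * nrm (y k))) ≤ C})) := by
    ext s
    simp only [StraightAll, Set.mem_ofPred_eq, Set.mem_iUnion, Set.mem_iInter, Set.mem_union,
      Set.mem_compl_iff]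
    constructor
    · rintro ⟨C, hC⟩
      refine ⟨C, fun v I x y => ?_⟩
      by_cases hv : v ∈ Reached s
      · right
        by_cases h : ∀ k : I, (Relation.ReflTransGen (Infects s) (x k) v ∧
          2 ^ (k : ℕ) ≤ nrm (x k) ∧ nrm (x k) ≤ 2 ^ ((k : ℕ) + 1)) ∧
            Relation.ReflTransGen (Infects s) (y k) v ∧ 2 ^ (k : ℕ) ≤ nrm (y k) ∧
              nrm (y k) ≤ 2 ^ ((k : ℕ) + 1)
        · exact Or.inr (hC v hv I x y h)
        · exact Or.inl h
      · exact Or.inl hv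
    · rintro ⟨C, hC⟩
      refine ⟨C, fun v hv I x y h => ?_⟩
      rcases hC v I x y with h1 | h1 | h1
      · exact absurd hv h1
      · exact absurd h h1
      · exact h1
  rw [hset]
  refine MeasurableSet.iUnion fun C => MeasurableSet.iInter fun v => MeasurableSet.iInter fun I =>
    MeasurableSet.iInter fun x => MeasurableSet.iInter fun y => ?_
  refine MeasurableSet.union (MeasurableSet.compl (fmst_reached v))
    (MeasurableSet.union (MeasurableSet.compl ?_) (MeasurableSet.const _))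
  have h2 : {s : ℕ → Edge d | ∀ k : I, (Relation.ReflTransGen (Infects s) (x k) v ∧
        2 ^ (k : ℕ) ≤ nrm (x k) ∧ nrm (x k) ≤ 2 ^ ((k : ℕ) + 1)) ∧
          Relation.ReflTransGen (Infects s) (y k) v ∧ 2 ^ (k : ℕ) ≤ nrm (y k) ∧
            nrm (y k) ≤ 2 ^ ((k : ℕ) + 1)} =
      ⋂ k : I, (({s | Relation.ReflTransGen (Infects s) (x k) v} ∩
        {_s | 2 ^ (k : ℕ) ≤ nrm (x k) ∧ nrm (x k) ≤ 2 ^ ((k : ℕ) + 1)}) ∩
          ({s | Relation.ReflTransGen (Infects s) (y k) v} ∩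
            {_s | 2 ^ (k : ℕ) ≤ nrm (y k) ∧ nrm (y k) ≤ 2 ^ ((k : ℕ) + 1)})) := by
    ext s
    simp only [Set.mem_ofPred_eq, Set.mem_iInter, Set.mem_inter_iff]
  rw [h2]
  exact MeasurableSet.iInter fun k =>
    ((fmst_rtg (x k) v).inter (MeasurableSet.const _)).inter
      ((fmst_rtg (y k) v).inter (MeasurableSet.const _))
-- END fmst

-- BEGIN faes
private theorem faes_sum {I : Finset ℕ} {M : ℕ} {R' C : ℝ} (hM : R' < 2 ^ M) (t : ℕ → ℝ)
    (h2 : ∀ k, t k ≤ 2) (h : ∑ k ∈ I with ¬ ((2 : ℝ) ^ k ≤ R'), t k ≤ C) :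
    ∑ k ∈ I, t k ≤ 2 * M + C := by
  rw [← Finset.sum_filter_add_sum_filter_not I (fun k => (2 : ℝ) ^ k ≤ R')]
  refine add_le_add ?_ h
  have h3 : I.filter (fun k => (2 : ℝ) ^ k ≤ R') ⊆ range M := by
    intro k hk
    rw [Finset.mem_filter] at hk
    rw [Finset.mem_range]
    exact (pow_lt_pow_iff_right₀ (one_lt_two (α := ℝ))).1 (hk.2.trans_lt hM)
  have h4 : ((I.filter (fun k => (2 : ℝ) ^ k ≤ R')).card : ℝ) ≤ M := by
    have h5 := Finset.card_le_card h3
    rw [Finset.card_range] at h5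
    exact_mod_cast h5
  calc ∑ k ∈ I with (2 : ℝ) ^ k ≤ R', t k ≤ ∑ k ∈ I with (2 : ℝ) ^ k ≤ R', (2 : ℝ) :=
        Finset.sum_le_sum fun k _ => h2 k
    _ = ((I.filter (fun k => (2 : ℝ) ^ k ≤ R')).card : ℝ) * 2 := by
        rw [Finset.sum_const, nsmul_eq_mul]
    _ ≤ 2 * M := by linarith

/-- the smallest index from which on all the norms are large -/
private theorem faes_idx {γ : ℕ → V d} {s : ℕ → Edge d} {n : ℕ} {Q R' : ℝ} {v : V d} (gn : γ n = v)
    (hQ : Q ≤ nrm v)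
    (ga : ∀ k, k ≤ n → γ k ∈ Reached s ∧ Relation.ReflTransGen (Infects s) (γ k) v ∧
        ∀ j, j ≤ k → Relation.ReflTransGen (Infects s) (γ j) (γ k))
    (hR' : ∀ u ∈ Reached s, nrm u < Q →
      ∀ z, Relation.ReflTransGen (Infects s) z u → nrm z ≤ R') :
    ∃ N0, N0 ≤ n ∧ (∀ k, N0 ≤ k → k ≤ n → Q ≤ nrm (γ k)) ∧
      ∀ k, k ≤ n → R' < nrm (γ k) → N0 ≤ k := by
  classical
  have hex : ∃ N, N ≤ n ∧ ∀ k, N ≤ k → k ≤ n → Q ≤ nrm (γ k) := by
    refine ⟨n, le_rfl, fun k h1 h2 => ?_⟩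
    have h3 : k = n := le_antisymm h2 h1
    rw [h3, gn]
    exact hQ
  refine ⟨Nat.find hex, (Nat.find_spec hex).1, (Nat.find_spec hex).2, ?_⟩
  intro k hk hkR
  by_contra hcon
  push Not at hcon
  obtain ⟨N, hN⟩ : ∃ N, Nat.find hex = N + 1 := ⟨Nat.find hex - 1, by omega⟩
  have hN1 : N + 1 ≤ n := by
    rw [← hN]
    exact (Nat.find_spec hex).1
  have hmin := Nat.find_min hex (m := N) (by omega)
  have hlt : nrm (γ N) < Q := by
    by_contra h1
    push Not at h1
    refine hmin ⟨by omega, fun j hj1 hj2 => ?_⟩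
    rcases Nat.eq_or_lt_of_le hj1 with h2 | h2
    · rw [← h2]
      exact h1
    · exact (Nat.find_spec hex).2 j (by omega) hj2
  have h3 := hR' (γ N) (ga N (by omega)).1 hlt (γ k) ((ga N (by omega)).2.2 k (by omega))
  exact absurd hkR (not_lt.2 h3)

/-- almost surely all explorations have uniformly straight infection paths. For an exploration `s`:
`θ` from `exists_art`, `R`, `C` from `path_all` (for `K` of `ub_S`, `R` also at least the `R1` of `ub_S`
and `R0`, `1`), `R'` from `anc_bounded` (for `R`). For `v` with the path `γ`, `n` of `path_of` put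
`W k = θ v - θ (γ k) + nrm v ^ (1-α)` and let `N0` be the smallest index such that `nrm (γ k) ≥ R` for
all `N0 ≤ k ≤ n` (if there is none then all ancestors have norm at most `R'`). Sites `x k` of norm
larger than `R'` have index at least `N0`; the `k` with `2 ^ k ≤ R'` contribute at most `2` each -/
theorem straightAll_ae (i0 : Fin d) {α : ℝ} (hα : 1 < α) : ∀ᵐ E ∂(PE d), ∀ s : ℕ → Edge d,
    (∀ n, G (tau α E) (lst s n)) → StraightAll s := by
  classical
  obtain ⟨a, C, hh⟩ := hf_hm d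
  have he0 : 0 < eta d := by
    unfold eta
    positivity
  have he1 : eta d ≤ 1 := by
    unfold eta
    rw [div_le_one (by positivity)]
    have h : (0 : ℝ) ≤ (d : ℝ) := Nat.cast_nonneg d
    linarith
  obtain ⟨K, R1, hK, hub⟩ := ub_S hh he0 he1 hα
  filter_upwards [conc d, ae_pos, explodes_ae i0 hα] with E hconc hpos hex s hG
  obtain ⟨R0, hCC⟩ := hconc
  have hτ : ∀ f, 0 < tau α E f := fun f =>
    div_pos (hpos f) (Real.rpow_pos_of_pos (mid_pos f) α)
  have hE : ∀ e, 0 ≤ E e := fun e => (hpos e).le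
  obtain ⟨θ, t1, _, t3, t4⟩ := exists_art hτ hG
  obtain ⟨R, C1, hC1⟩ := path_all hh he0 he1 hα hK hE hCC
  obtain ⟨R', hR'⟩ := anc_bounded (s := s) (max R (max R1 R0))
  obtain ⟨M, hM⟩ : ∃ M : ℕ, R' < 2 ^ M := pow_unbounded_of_one_lt R' one_lt_two
  refine ⟨⌈2 * (M : ℝ) + |C1|⌉₊, fun v hv I x y hI => ?_⟩
  obtain ⟨n, γ, st, g0, gn, gs, ga, gz⟩ := path_of hG t4 hv
  choose mm hmn hmm using fun k : I => gz (x k) (hI k).1.1
  choose mm' hmn' hmm' using fun k : I => gz (y k) (hI k).2.1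
  set m : ℕ → ℕ := fun j => if h : j ∈ I then mm ⟨j, h⟩ else 0 with hmd
  set m' : ℕ → ℕ := fun j => if h : j ∈ I then mm' ⟨j, h⟩ else 0 with hmd2
  have e1 : ∀ k : I, m (k : ℕ) = mm k := fun k => by
    rw [hmd]
    exact dif_pos k.2
  have e2 : ∀ k : I, m' (k : ℕ) = mm' k := fun k => by
    rw [hmd2]
    exact dif_pos k.2
  have key : ∑ k ∈ I, (1 - ip (γ (m k)) (γ (m' k)) / (nrm (γ (m k)) * nrm (γ (m' k)))) ≤
      2 * (M : ℝ) + |C1| := by
    refine faes_sum hM _ (fun k => all_term_le _ _) ?_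
    have hk0 : ∀ k ∈ I.filter (fun k => ¬ ((2 : ℝ) ^ k ≤ R')),
        (m k ≤ n ∧ m' k ≤ n) ∧ (2 ^ k ≤ nrm (γ (m k)) ∧ nrm (γ (m k)) ≤ 2 ^ (k + 1)) ∧
        (2 ^ k ≤ nrm (γ (m' k)) ∧ nrm (γ (m' k)) ≤ 2 ^ (k + 1)) ∧
        R' < nrm (γ (m k)) ∧ R' < nrm (γ (m' k)) := by
      intro k hk
      rw [Finset.mem_filter, not_le] at hk
      obtain ⟨⟨_, g1, g2⟩, _, g3, g4⟩ := hI ⟨k, hk.1⟩
      have f1 : m k = mm ⟨k, hk.1⟩ := e1 ⟨k, hk.1⟩
      have f2 : m' k = mm' ⟨k, hk.1⟩ := e2 ⟨k, hk.1⟩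
      have f3 : γ (m k) = x ⟨k, hk.1⟩ := by
        rw [f1]
        exact hmm ⟨k, hk.1⟩
      have f4 : γ (m' k) = y ⟨k, hk.1⟩ := by
        rw [f2]
        exact hmm' ⟨k, hk.1⟩
      rw [f3, f4]
      refine ⟨⟨?_, ?_⟩, ⟨g1, g2⟩, ⟨g3, g4⟩, lt_of_lt_of_le hk.2 g1, lt_of_lt_of_le hk.2 g3⟩
      · rw [f1]
        exact hmn _
      · rw [f2]
        exact hmn' _
    rcases le_or_gt (max R (max R1 R0)) (nrm v) with hQ | hQ
    · obtain ⟨N0, hN0, hN1, hN2⟩ := faes_idx gn hQ ga hR'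
      have hP : FinPath (tau α E) γ st (fun k => θ v - θ (γ k) + nrm (γ n) ^ (1 - α)) n
          (nrm (γ n) ^ (1 - α)) := by
        refine ⟨fun k hk => (gs k hk).1, fun k hk => ?_, ?_⟩
        · show θ v - θ (γ k) + nrm (γ n) ^ (1 - α) = tau α E (edg (γ k) (st k)) +
            (θ v - θ (γ (k + 1)) + nrm (γ n) ^ (1 - α))
          rw [(gs k hk).2]
          ring
        · show θ v - θ (γ n) + nrm (γ n) ^ (1 - α) = nrm (γ n) ^ (1 - α)
          rw [gn]
          ring
      refine (hC1 γ st _ n hP N0 hN0 ?_ _ m m' ?_).trans (le_abs_self C1)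
      · intro k hk1 hk2
        have h1 := hN1 k hk1 hk2
        refine ⟨(le_max_left _ _).trans h1, ?_⟩
        refine hub E R0 hE hCC (γ k) _ (((le_max_left _ _).trans (le_max_right _ _)).trans h1)
          (((le_max_right _ _).trans (le_max_right _ _)).trans h1) ?_
        have h2 := rest_lt i0 hτ hex hG t1 t3 (ga k hk2).1 hv
        show θ v - θ (γ k) + nrm (γ n) ^ (1 - α) - nrm (γ n) ^ (1 - α) ≤ S (tau α E) (γ k)
        linarith
      · intro k hk
        obtain ⟨⟨h1, h2⟩, h3, h4, h5, h6⟩ := hk0 k hk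
        exact ⟨hN2 _ h1 h5, h1, hN2 _ h2 h6, h2, h3.1, h3.2, h4.1, h4.2⟩
    · have h1 : I.filter (fun k => ¬ ((2 : ℝ) ^ k ≤ R')) = ∅ := by
        rw [Finset.eq_empty_iff_forall_notMem]
        intro k hk
        obtain ⟨⟨h1, _⟩, _, _, h5, _⟩ := hk0 k hk
        exact absurd (hR' v hv hQ (γ (m k)) (ga _ h1).2.1) (not_le.2 h5)
      rw [h1, Finset.sum_empty]
      exact abs_nonneg C1
  rw [← Finset.sum_coe_sort I] at key
  refine le_trans (le_of_eq (Finset.sum_congr rfl fun k _ => ?_)) (key.trans (Nat.le_ceil _))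
  rw [e1 k, e2 k, hmm k, hmm' k]
-- END faes

end OneR
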