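import Pool.Agent.OneR.Dir2

/-!
Problem MP_b9fb85_pr: the cluster contains large balls around the far sites of the ray, and a cone if
the ray has a direction.
-/

set_option autoImplicit false

namespace OneR

open Finset ConeD ConeD.TRANSAux OneE Filter MeasureTheory

variable {d : ℕ}

-- BEGIN rch
/-- a walk from the origin of weight less than the explosion time ends in the explored set: otherwise
for every `n` the end is not in `vs (lst s n)` (`Reached`), so by `expl_walk_out` (ConeD/ExplDet; `t1`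
the minimum over `bd`, which is `tm τ (lst s (n+1))` by `G`) and `expl_th_bounds`, `G_iff` all the
arrival times `th τ (lst s n) v` are at most `wt τ 0 l`; with `expl_exists_walk`, `T_le_wt` the
infinite set `Reached s` (`reached_infinite`) lies in `{y | T τ 0 y ≤ wt τ 0 l}`, against
`finite_of_lt_S`. See `th_lt` in OneE/Det for the same tools -/
theorem reached_of_lt {τ : Edge d → ℝ} {s : ℕ → Edge d} (hτ : ∀ e, 0 < τ e)
    (hG : ∀ n, G τ (lst s n)) {l : List (Step d)} (hl : wt τ 0 l < S τ 0) :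
    endp 0 l ∈ Reached s := by
  by_contra hno
  have hnn : ∀ e, 0 ≤ τ e := fun e => (hτ e).le
  have hkey : Reached s ⊆ {y : V d | T τ 0 y ≤ wt τ 0 l} := by
    rintro v ⟨n, hv⟩
    have hG1 : G τ (s n :: lst s n) := hG (n + 1)
    obtain ⟨hG0, hs, hmin⟩ := hG1
    have ht1 : ∀ f ∈ bd (lst s n),
        ac τ (lst s n) (s n) + τ (s n) ≤ ac τ (lst s n) f + τ f := by
      intro f hf
      by_cases hfs : f = s n
      · rw [hfs]
      · exact (hmin f hf hfs).le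
    have hout : endp 0 l ∉ vs (lst s n) := fun h => hno ⟨n, h⟩
    have h1 := expl_walk_out hτ hG0 ht1 l 0 (expl_zero_mem _) hout
    rw [expl_th_zero, zero_add] at h1
    obtain ⟨hD, hall⟩ := (G_iff hτ (lst s n)).mp hG0
    have h2 := hall (s n) hs
    have h3 := ((expl_th_bounds hD).2 v hv).2
    obtain ⟨l', hl1, hl2⟩ := expl_exists_walk hτ hG0 v hv
    have h4 := T_le_wt hnn hl1
    show T τ 0 v ≤ wt τ 0 l
    linarith
  exact reached_infinite hG ((finite_of_lt_S hnn hl).subset hkey)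
-- END rch

-- BEGIN rwl
/-- from the ray: the walk `γ 0, ..., γ n` has weight `W 0 - W n`; append `l`; `wt_append`,
`endp_append`, `reached_of_lt` -/
theorem ray_reach {τ : Edge d → ℝ} {s : ℕ → Edge d} (hτ : ∀ e, 0 < τ e)
    (hG : ∀ n, G τ (lst s n)) {γ : ℕ → V d} {st : ℕ → Step d} {W : ℕ → ℝ} (h0 : γ 0 = 0)
    (h1 : ∀ n, γ (n + 1) = γ n + vec (st n))
    (hW : ∀ n, W n = τ (edg (γ n) (st n)) + W (n + 1)) (hWS : W 0 ≤ S τ 0) {n : ℕ}
    {l : List (Step d)} (hl : wt τ (γ n) l < W n) : endp (γ n) l ∈ Reached s := by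
  have e1 : endp (0 : V d) (seg st 0 n) = γ n := by
    have h2 := seg_endp h1 0 n
    rwa [h0, zero_add] at h2
  have e2 : wt τ (0 : V d) (seg st 0 n) = W 0 - W n := by
    have h2 := seg_wt h1 hW 0 n
    rwa [h0, zero_add] at h2
  have h4 := reached_of_lt hτ hG (l := seg st 0 n ++ l) (by rw [wt_append, e1, e2]; linarith)
  rwa [endp_append, e1] at h4
-- END rwl

-- BEGIN bwk
/-- short walks in a ball: `r = nrm z`; `CC` at the radius `2 r`: `T E z v ≤ |b| ρ r + (2 r) ^ (1-η)`;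
a walk `l` with `wt E z l` less than this plus `1` (`exists_wt_lt`); for a vertex `x` of `l` with
`r / 4 ≤ nrm (x - z)`, the first one, `nrm (x - z) ≤ r / 4 + 1`, `nrm x ≤ 2 r` and
`a r / 4 - C - (2 r) ^ (1-η) ≤ T E z x ≤ wt E z l`: impossible if `ρ ≤ a / (8 (|b| + 1))` and `r` is
large; so all midpoints of `l` have norm at least `r / 2`, `wt_tau_le` (ConeD/Sup) with `m = r / 2`,
`τ' = tau α E`, `ρ = 0`: weight at most `2 ^ α r ^ (-α) (|b| ρ r + (2 r) ^ (1-η) + 1)`; `sup_leg`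
(ConeD/Sup) has the same argument -/
theorem ball_walk {h : V d → ℝ} {a b C : ℝ} (hh : HF h a b C) {η : ℝ} (hη : 0 < η) (hη1 : η ≤ 1)
    {α : ℝ} (hα : 1 < α) {ε : ℝ} (hε : 0 < ε) :
    ∃ ρ R1 : ℝ, 0 < ρ ∧ ρ ≤ 1 ∧ ∀ (E : Edge d → ℝ) (R0 : ℝ), (∀ e, 0 ≤ E e) → CC h η E R0 →
      ∀ z v : V d, R1 ≤ nrm z → R0 ≤ nrm z → nrm (v - z) ≤ ρ * nrm z →
        ∃ l : List (Step d), endp z l = v ∧ wt (tau α E) z l ≤ ε * nrm z ^ (1 - α) := by
  obtain ⟨k0, hk0, hka, hkε⟩ : ∃ k : ℝ, 0 < k ∧ k ≤ a / 8 ∧ k ≤ ε / (2 * 2 ^ α) := by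
    have h1 : 0 < a / 8 := by have := hh.pos; positivity
    have h2 : 0 < ε / (2 * 2 ^ α) := by positivity
    exact ⟨min (a / 8) (ε / (2 * 2 ^ α)), lt_min h1 h2, min_le_left _ _, min_le_right _ _⟩
  have hB : 0 < |b| + 1 := by positivity
  have hY : 0 < (8 / k0) ^ (1 / η) := Real.rpow_pos_of_pos (by positivity) _
  refine ⟨min 1 (k0 / (|b| + 1)), max 2 (max ((8 / k0) ^ (1 / η)) (2 * (C + 1) / k0)),
    lt_min one_pos (by positivity), min_le_left _ _, ?_⟩
  intro E R0 hE hCC z v hr hR0 hv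
  obtain ⟨r, hrdef⟩ : ∃ r : ℝ, r = nrm z := ⟨_, rfl⟩
  obtain ⟨ρ, hρdef⟩ : ∃ ρ : ℝ, ρ = min 1 (k0 / (|b| + 1)) := ⟨_, rfl⟩
  rw [← hρdef, ← hrdef] at hv
  rw [← hrdef] at hr hR0
  rw [← hrdef]
  have hρ1 : ρ ≤ 1 := by rw [hρdef]; exact min_le_left _ _
  have hρk : |b| * ρ ≤ k0 := by
    have h1 : ρ ≤ k0 / (|b| + 1) := by rw [hρdef]; exact min_le_right _ _
    have h2 : |b| * ρ ≤ |b| * (k0 / (|b| + 1)) := mul_le_mul_of_nonneg_left h1 (abs_nonneg b)
    have h3 : |b| * (k0 / (|b| + 1)) ≤ k0 := by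
      rw [mul_div_assoc', div_le_iff₀ hB]
      nlinarith [abs_nonneg b]
    linarith
  have hr2 : 2 ≤ r := (le_max_left _ _).trans hr
  have hr0 : 0 < r := by linarith
  have hrY : (8 / k0) ^ (1 / η) ≤ r := ((le_max_left _ _).trans (le_max_right _ _)).trans hr
  have hrC : 2 * (C + 1) / k0 ≤ r := ((le_max_right _ _).trans (le_max_right _ _)).trans hr
  have hX : (2 * r) ^ (1 - η) ≤ k0 / 4 * r := by
    have h1 : 8 / k0 ≤ (2 * r) ^ η := by
      have h2 : ((8 / k0) ^ (1 / η)) ^ η = 8 / k0 := by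
        rw [← Real.rpow_mul (by positivity), one_div, inv_mul_cancel₀ hη.ne', Real.rpow_one]
      rw [← h2]
      exact Real.rpow_le_rpow hY.le (by linarith) hη.le
    have h3 : 0 < (2 * r) ^ η := Real.rpow_pos_of_pos (by linarith) _
    rw [Real.rpow_sub (by linarith), Real.rpow_one, div_le_iff₀ h3]
    have h4 : k0 / 4 * r * (8 / k0) ≤ k0 / 4 * r * (2 * r) ^ η :=
      mul_le_mul_of_nonneg_left h1 (by positivity)
    have h5 : k0 / 4 * r * (8 / k0) = 2 * r := by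
      field_simp
      norm_num
    linarith
  have hX0 : 0 ≤ (2 * r) ^ (1 - η) := Real.rpow_nonneg (by linarith) _
  have hC1 : C + 1 ≤ k0 / 2 * r := by
    rw [div_le_iff₀ hk0] at hrC
    linarith
  have hC0 := hh.Cnn
  have hvz : nrm v ≤ 2 * r := by
    have h1 := nrm_le_add v z
    have h2 : ρ * r ≤ 1 * r := mul_le_mul_of_nonneg_right hρ1 hr0.le
    rw [← hrdef] at h1
    linarith
  have hzz : nrm z ≤ 2 * r := by rw [← hrdef]; linarith
  have hT := hCC (2 * r) (by linarith) z v hzz hvz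
  have hT2 := (abs_le.mp hT).2
  have hhv : h (v - z) ≤ |b| * ρ * r := by
    have h1 : h (v - z) ≤ |b| * nrm (v - z) := (hh.up _).trans
      (mul_le_mul_of_nonneg_right (le_abs_self b) (nrm_nonneg _))
    have h2 : |b| * nrm (v - z) ≤ |b| * (ρ * r) := mul_le_mul_of_nonneg_left hv (abs_nonneg b)
    linarith
  have hbr : |b| * ρ * r ≤ k0 * r := mul_le_mul_of_nonneg_right hρk hr0.le
  obtain ⟨l, hl, hwl⟩ := exists_wt_lt (τ := E) (x := z) (y := v)
    (t := |b| * ρ * r + (2 * r) ^ (1 - η) + 1) (by linarith)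
  have hconf : ∀ l1 : List (Step d), (∃ l2, l = l1 ++ l2) → nrm (endp z l1 - z) ≤ r / 4 := by
    intro l1
    induction l1 using List.reverseRecOn with
    | nil =>
      intro _
      rw [endp_nil, sub_self, nrm_zero]
      positivity
    | append_singleton l1 s ih =>
      rintro ⟨l2, hl2⟩
      have h1 := ih ⟨s :: l2, by rw [hl2]; simp⟩
      have h2 : nrm (endp z (l1 ++ [s]) - z) ≤ r / 4 + 1 := by
        rw [endp_append, endp_cons, endp_nil]
        have h3 : endp z l1 + vec s - z = (endp z l1 - z) + vec s := by abel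
        rw [h3]
        refine (nrm_add_le _ _).trans ?_
        rw [nrm_vec]
        linarith
      obtain ⟨x, hx⟩ : ∃ x : V d, x = endp z (l1 ++ [s]) := ⟨_, rfl⟩
      rw [← hx] at h2 ⊢
      have hxn : nrm x ≤ 2 * r := by
        have h4 := nrm_le_add x z
        rw [← hrdef] at h4
        linarith
      have h5 := hCC (2 * r) (by linarith) z x hzz hxn
      have h6 : T E z x ≤ wt E z (l1 ++ [s]) := T_le_wt hE hx.symm
      have h7 : wt E z (l1 ++ [s]) ≤ wt E z l := by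
        rw [hl2, wt_append E z (l1 ++ [s]) l2]
        linarith [wt_nonneg hE (endp z (l1 ++ [s])) l2]
      have h8 := hh.low (x - z)
      have h9 := (abs_le.mp h5).1
      have h10 : a * nrm (x - z) ≤ 2 * k0 * r := by linarith
      have h11 : 2 * k0 * r ≤ a * (r / 4) := by
        have := mul_le_mul_of_nonneg_right hka hr0.le
        linarith
      exact le_of_mul_le_mul_left (h10.trans h11) hh.pos
  have hmid : ∀ l1 s l2, l = l1 ++ s :: l2 → r / 2 ≤ mid (edg (endp z l1) s) := by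
    intro l1 s l2 hl2
    have h1 := hconf l1 ⟨s :: l2, hl2⟩
    have h2 := le_mid_edg (endp z l1) s
    have h3 := nrm_le_add z (endp z l1)
    rw [nrm_sub_comm, ← hrdef] at h3
    linarith
  refine ⟨l, hl, ?_⟩
  have hfin := wt_tau_le (ρ := 0) (τ' := tau α E) (by linarith : (0 : ℝ) ≤ α)
    (by positivity : 0 < r / 2) hE (fun e _ => le_rfl) (by linarith) z l hmid
  refine hfin.trans ?_
  have h2α : 0 < (2 : ℝ) ^ α := by positivity
  have hm : (r / 2) ^ (-α) = 2 ^ α * r ^ (-α) := by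
    rw [Real.div_rpow hr0.le (by norm_num), Real.rpow_neg (by norm_num : (0 : ℝ) ≤ 2), div_inv_eq_mul,
      mul_comm]
  have hr1 : r ^ (1 - α) = r * r ^ (-α) := by
    rw [show 1 - α = 1 + -α by ring, Real.rpow_add hr0, Real.rpow_one]
  rw [hm, hr1]
  have hrα : 0 < r ^ (-α) := Real.rpow_pos_of_pos hr0 _
  have hw : wt E z l ≤ 2 * k0 * r := by linarith
  have h12 : 2 ^ α * r ^ (-α) * wt E z l ≤ 2 ^ α * r ^ (-α) * (2 * k0 * r) :=
    mul_le_mul_of_nonneg_left hw (by positivity)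
  have h13 : 2 * k0 * 2 ^ α ≤ ε := by
    rw [le_div_iff₀ (by positivity)] at hkε
    linarith
  have h14 : 2 ^ α * r ^ (-α) * (2 * k0 * r) = 2 * k0 * 2 ^ α * (r * r ^ (-α)) := by ring
  rw [h14] at h12
  exact h12.trans (mul_le_mul_of_nonneg_right h13 (by positivity))
-- END bwk

-- BEGIN glw
/-- the energy along the ray is at least half of the bound of `DS.glow`: set up as in the proof of
`ray_crit` (OneR/Crit), `DS.glow` and `DS.lim_en` give `a / 3 * 2 ^ (-α) ≤ c`, then `ray_en` -/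
theorem ray_low {h : V d → ℝ} {a b C : ℝ} (hh : HF h a b C) {η : ℝ} (hη : 0 < η) (hη1 : η ≤ 1)
    {α : ℝ} (hα : 1 < α) {K : ℝ} (hK : 0 < K) {E : Edge d → ℝ} {R0 : ℝ} (hE : ∀ e, 0 ≤ E e)
    (hCC : CC h η E R0) {γ : ℕ → V d} {st : ℕ → Step d} {W : ℕ → ℝ}
    (hr : InfRay h η α K E γ st W) :
    ∀ᶠ m in atTop, a / 6 * (2 : ℝ) ^ (-α) ≤ nrm (γ m) ^ (α - 1) * W m := by
  obtain ⟨K1, R1, hmk⟩ := mkDS hh hη hη1 hα hK
  have hlarge : ∀ᶠ n in atTop, max 1 (max R1 R0) ≤ nrm (γ n) :=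
    hr.lim.eventually_ge_atTop (max 1 (max R1 R0))
  obtain ⟨N0, hN0⟩ := eventually_atTop.1 (hlarge.and hr.ub)
  have hone : ∀ k, N0 ≤ k → 1 ≤ nrm (γ k) := fun k hk => (le_max_left _ _).trans (hN0 k hk).1
  have hR1 : ∀ k, N0 ≤ k → R1 ≤ nrm (γ k) := fun k hk =>
    ((le_max_left _ _).trans (le_max_right _ _)).trans (hN0 k hk).1
  have hR0 : ∀ k, N0 ≤ k → R0 ≤ nrm (γ k) := fun k hk =>
    ((le_max_right _ _).trans (le_max_right _ _)).trans (hN0 k hk).1
  obtain ⟨n, hn0, hnm, hnlt, hnge⟩ := disc hr.lim (fun v => nrm v ^ (1 - η / 8))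
    (fun v hv => Real.rpow_pos_of_pos hv _) N0 (fun k hk => lt_of_lt_of_le one_pos (hone k hk))
  have hDS := hmk E R0 hE hCC γ st W hr N0
    (fun k hk => ⟨hR1 k hk, hR0 k hk, (hN0 k hk).2⟩) n hn0 hnm hnlt hnge
  have hin : ∀ i k, n i ≤ k → k < n (i + 1) →
      nrm (γ k - γ (n i)) ≤ nrm (γ (n i)) ^ (-(η / 8)) * nrm (γ (n i)) := by
    intro i k h1 h2
    have h3 : N0 ≤ n i := by
      rw [← hn0]
      exact hnm.monotone (Nat.zero_le i)
    have h4 : 0 < nrm (γ (n i)) := lt_of_lt_of_le one_pos (hone _ h3)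
    have h5 : nrm (γ (n i)) ^ (-(η / 8)) * nrm (γ (n i)) = nrm (γ (n i)) ^ (1 - η / 8) := by
      have h6 : (1 - η / 8 : ℝ) = -(η / 8) + 1 := by ring
      rw [h6, Real.rpow_add h4, Real.rpow_one]
    rw [h5]
    exact (hnlt i k h1 h2).le
  have hW : ∀ k, W (k + 1) ≤ W k := by
    intro k
    have h1 : 0 ≤ tau α E (edg (γ k) (st k)) :=
      div_nonneg (hE _) (Real.rpow_nonneg (Real.sqrt_nonneg _) _)
    have h2 := hr.Weq k
    linarith
  obtain ⟨c, _, hc⟩ := hDS.lim_en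
  have hce := ray_en hDS hnm hin hW hc
  have hcl : a / 3 * (2 : ℝ) ^ (-α) ≤ c := ge_of_tendsto' hc fun i => hDS.glow i
  have ha : 0 < a := hh.pos
  have h2α : 0 < (2 : ℝ) ^ (-α) := Real.rpow_pos_of_pos (by norm_num) _
  have hlt : a / 6 * (2 : ℝ) ^ (-α) < c := by nlinarith [mul_pos ha h2α]
  exact (hce.eventually_const_lt hlt).mono fun m hm => hm.le
-- END glw

/-- the cluster contains large balls around the far sites of the ray -/
def Fat (ρ : ℝ) (s : ℕ → Edge d) : Prop :=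
  ∃ R : ℕ, ∀ z v : V d, (Desc s z).Infinite → (R : ℝ) ≤ nrm z → nrm (v - z) ≤ ρ * nrm z →
    v ∈ Reached s

/-- the ray has sites of all norms, up to `2` -/
def AllRad (s : ℕ → Edge d) : Prop :=
  ∀ n : ℕ, ∃ z : V d, (Desc s z).Infinite ∧ (n : ℝ) ≤ nrm z ∧ nrm z ≤ n + 2

-- BEGIN mft
private theorem mft_desc (z : V d) :
    MeasurableSet {s : ℕ → Edge d | (Desc s z).Infinite} := by
  refine UNIQAux.meas_inf (fun s : ℕ → Edge d => Desc s z) fun v => ?_
  exact measurableSet_rtg (fun (s : ℕ → Edge d) x y => Infects s x y)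
    (fun x y => measurableSet_infects x y) z v

private theorem mft_reached (v : V d) :
    MeasurableSet {s : ℕ → Edge d | v ∈ Reached s} := by
  have h : {s : ℕ → Edge d | v ∈ Reached s} = ⋃ n, {s | v ∈ vs (lst s n)} := by
    ext s
    simp only [Reached, Set.mem_ofPred_eq, Set.mem_iUnion]
  rw [h]
  exact MeasurableSet.iUnion fun n => measurableSet_vs v n

/-- as `measurableSet_critical` (OneR/Crit) and `fdms_reached` (OneR/FDet, private) -/
theorem measurableSet_fat (ρ : ℝ) : MeasurableSet {s : ℕ → Edge d | Fat ρ s} := by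
  have hset : {s : ℕ → Edge d | Fat ρ s} = ⋃ R : ℕ, ⋂ z : V d, ⋂ v : V d,
      ({s : ℕ → Edge d | (Desc s z).Infinite}ᶜ ∪
        ({_s : ℕ → Edge d | ¬ (R : ℝ) ≤ nrm z} ∪
          ({_s : ℕ → Edge d | ¬ nrm (v - z) ≤ ρ * nrm z} ∪
            {s : ℕ → Edge d | v ∈ Reached s}))) := by
    ext s
    simp only [Fat, Set.mem_ofPred_eq, Set.mem_iUnion, Set.mem_iInter, Set.mem_union,
      Set.mem_compl_iff]
    refine exists_congr fun R => forall_congr' fun z => forall_congr' fun v => ?_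
    rw [← imp_iff_not_or, ← imp_iff_not_or, ← imp_iff_not_or]
  rw [hset]
  exact MeasurableSet.iUnion fun R => MeasurableSet.iInter fun z => MeasurableSet.iInter fun v =>
    (mft_desc z).compl.union ((MeasurableSet.const _).union
      ((MeasurableSet.const _).union (mft_reached v)))

/-- as `measurableSet_critical` -/
theorem measurableSet_allRad : MeasurableSet {s : ℕ → Edge d | AllRad s} := by
  have hset : {s : ℕ → Edge d | AllRad s} = ⋂ n : ℕ, ⋃ z : V d,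
      ({s : ℕ → Edge d | (Desc s z).Infinite} ∩
        ({_s : ℕ → Edge d | (n : ℝ) ≤ nrm z} ∩ {_s : ℕ → Edge d | nrm z ≤ n + 2})) := by
    ext s
    simp only [AllRad, Set.mem_ofPred_eq, Set.mem_iUnion, Set.mem_iInter, Set.mem_inter_iff]
  rw [hset]
  exact MeasurableSet.iInter fun n => MeasurableSet.iUnion fun z =>
    (mft_desc z).inter ((MeasurableSet.const _).inter (MeasurableSet.const _))
-- END mft

-- BEGIN fae
/-- as `critical_ae` (OneR/Crit): `ρ` from `ball_walk` with `ε = a / 12 * 2 ^ (-α)`; for a ray site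
`z = γ m` of large norm (so `m` is large, see the end of the proof of `ray_crit`) `ray_low` gives
`ε nrm z ^ (1-α) < W m`, then `ray_reach` -/
theorem fat_ae (i0 : Fin d) {α : ℝ} (hα : 1 < α) : ∃ ρ : ℝ, 0 < ρ ∧ ρ ≤ 1 ∧
    ∀ᵐ E ∂(PE d), ∀ s : ℕ → Edge d, (∀ n, G (tau α E) (lst s n)) → Fat ρ s := by
  obtain ⟨a, C, hh⟩ := hf_hm d
  have he0 : 0 < eta d := by
    unfold eta
    positivity
  have he1 : eta d ≤ 1 := by
    unfold eta
    rw [div_le_one (by positivity)]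
    have h : (0 : ℝ) ≤ (d : ℝ) := Nat.cast_nonneg d
    linarith
  obtain ⟨K, R1, hK, hub⟩ := ub_S hh he0 he1 hα
  have ha : 0 < a := hh.pos
  have hε : 0 < a / 12 * (2 : ℝ) ^ (-α) :=
    mul_pos (by linarith) (Real.rpow_pos_of_pos (by norm_num) _)
  obtain ⟨ρ, R2, hρ0, hρ1, hbw⟩ := ball_walk hh he0 he1 hα hε
  refine ⟨ρ, hρ0, hρ1, ?_⟩
  filter_upwards [conc d, ae_pos, explodes_ae i0 hα, via_or_avoid (d := d) α]
    with E hconc hpos hex hva s hG
  obtain ⟨R0, hCC⟩ := hconc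
  have hτ : ∀ f, 0 < tau α E f := fun f =>
    div_pos (hpos f) (Real.rpow_pos_of_pos (mid_pos f) α)
  have hE : ∀ e, 0 ≤ E e := fun e => (hpos e).le
  have hd : ∀ (m : ℕ) (z : V d), z ∈ ends (s m) → z ∉ vs (lst s m) →
      (Desc s z).Finite ∨ (Reached s \ Desc s z).Finite :=
    fun m z h1 h2 => desc_or i0 hτ hex hG (hva hex) h1 h2
  obtain ⟨γ, st, h0, h1, h2, h3⟩ := exists_ray hG hd
  obtain ⟨W, w1, w2, w3, w4, w5⟩ := ray_times i0 hτ hex hG h0 h1 h2
  have hray : InfRay (hm (d := d)) (eta d) α K E γ st W := by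
    refine ⟨h1, w1, w2, w3, w5, ?_⟩
    filter_upwards [w5.eventually_ge_atTop (max R1 R0)] with n hn
    exact hub E R0 hE hCC (γ n) (W n) ((le_max_left _ _).trans hn) ((le_max_right _ _).trans hn)
      (w4 n)
  have hWS : W 0 ≤ S (tau α E) 0 := by
    have h4 := w4 0
    rwa [h0] at h4
  obtain ⟨m0, hm0⟩ := eventually_atTop.1 (ray_low hh he0 he1 hα hK hE hCC hray)
  have hsum : ∀ m, m < m0 → nrm (γ m) ≤ ∑ i ∈ range m0, nrm (γ i) := fun m hm =>
    Finset.single_le_sum (f := fun i => nrm (γ i)) (fun j _ => nrm_nonneg _) (Finset.mem_range.2 hm)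
  have hidx : ∀ m, 1 + ∑ i ∈ range m0, nrm (γ i) ≤ nrm (γ m) → m0 ≤ m := by
    intro m hm
    by_contra h4
    have h5 := hsum m (not_le.1 h4)
    linarith
  refine ⟨⌈max (1 + ∑ i ∈ range m0, nrm (γ i)) (max R0 (max R2 1))⌉₊, fun z v hz hRz hv => ?_⟩
  obtain ⟨m, rfl⟩ := h3 z hz
  have hR := (Nat.le_ceil _).trans hRz
  have g1 := (le_max_left _ _).trans hR
  have g2 := (le_max_right _ _).trans hR
  have g3 : R0 ≤ nrm (γ m) := (le_max_left _ _).trans g2
  have g4 := (le_max_right _ _).trans g2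
  have g5 : R2 ≤ nrm (γ m) := (le_max_left _ _).trans g4
  have g6 : (1 : ℝ) ≤ nrm (γ m) := (le_max_right _ _).trans g4
  obtain ⟨l, hl, hwt⟩ := hbw E R0 hE hCC (γ m) v g5 g3 hv
  have hlt : wt (tau α E) (γ m) l < W m := by
    have h7 := hm0 m (hidx m g1)
    have hp : 0 < nrm (γ m) := by linarith
    have h8 : 0 < nrm (γ m) ^ (1 - α) := Real.rpow_pos_of_pos hp _
    have h9 : nrm (γ m) ^ (1 - α) * nrm (γ m) ^ (α - 1) = 1 := by
      rw [← Real.rpow_add hp, show (1 - α + (α - 1) : ℝ) = 0 by ring, Real.rpow_zero]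
    have h10 : a / 6 * (2 : ℝ) ^ (-α) * nrm (γ m) ^ (1 - α) ≤ W m := by
      calc a / 6 * (2 : ℝ) ^ (-α) * nrm (γ m) ^ (1 - α)
          ≤ (nrm (γ m) ^ (α - 1) * W m) * nrm (γ m) ^ (1 - α) :=
            mul_le_mul_of_nonneg_right h7 h8.le
        _ = (nrm (γ m) ^ (1 - α) * nrm (γ m) ^ (α - 1)) * W m := by ring
        _ = W m := by rw [h9, one_mul]
    have h11 : 0 < a / 12 * (2 : ℝ) ^ (-α) * nrm (γ m) ^ (1 - α) := mul_pos hε h8
    have h12 : a / 6 * (2 : ℝ) ^ (-α) * nrm (γ m) ^ (1 - α) =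
        2 * (a / 12 * (2 : ℝ) ^ (-α) * nrm (γ m) ^ (1 - α)) := by ring
    linarith
  have h13 := ray_reach hτ hG h0 h1 w1 hWS hlt
  rwa [hl] at h13
-- END fae

-- BEGIN rad
private theorem rad_inf {s : ℕ → Edge d} {γ : ℕ → V d} {st : ℕ → Step d}
    (h1 : ∀ n, γ (n + 1) = γ n + vec (st n))
    (h2 : ∀ n, ∃ m, s m = edg (γ n) (st n) ∧ γ n ∈ vs (lst s m) ∧ γ (n + 1) ∉ vs (lst s m))
    (n : ℕ) : Infects s (γ n) (γ (n + 1)) := by
  obtain ⟨m, e, hx, hy⟩ := h2 n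
  refine ⟨m, ?_, ?_, hx, hy⟩
  · rw [mem_ends, e]
    rcases edg_cases (γ n) (st n) with ⟨h, _⟩ | ⟨_, h⟩
    · exact Or.inl h.symm
    · exact Or.inr h.symm
  · rw [mem_ends, e, h1 n]
    rcases edg_cases (γ n) (st n) with ⟨_, h⟩ | ⟨h, _⟩
    · exact Or.inr h.symm
    · exact Or.inl h.symm

private theorem rad_desc {s : ℕ → Edge d} {γ : ℕ → V d}
    (h : ∀ n, Infects s (γ n) (γ (n + 1))) (m k : ℕ) : γ (m + k) ∈ Desc s (γ m) := by
  induction k with
  | zero => exact Relation.ReflTransGen.refl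
  | succ k ih => exact Relation.ReflTransGen.tail ih (h (m + k))

private theorem rad_infinite {s : ℕ → Edge d} {γ : ℕ → V d}
    (h : ∀ n, Infects s (γ n) (γ (n + 1))) (h5 : Tendsto (fun n => nrm (γ n)) atTop atTop)
    (m : ℕ) : (Desc s (γ m)).Infinite := by
  intro hfin
  obtain ⟨B, hB⟩ := (hfin.image nrm).bddAbove
  obtain ⟨k, hk, hk2⟩ := ((h5.eventually_ge_atTop (B + 1)).and (eventually_ge_atTop m)).exists
  obtain ⟨j, rfl⟩ := Nat.exists_eq_add_of_le hk2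
  have h6 : nrm (γ (m + j)) ≤ B := hB ⟨_, rad_desc h m j, rfl⟩
  linarith

private theorem rad_all {s : ℕ → Edge d} {γ : ℕ → V d} {st : ℕ → Step d} (h0 : γ 0 = 0)
    (h1 : ∀ n, γ (n + 1) = γ n + vec (st n))
    (h2 : ∀ n, ∃ m, s m = edg (γ n) (st n) ∧ γ n ∈ vs (lst s m) ∧ γ (n + 1) ∉ vs (lst s m))
    (h5 : Tendsto (fun n => nrm (γ n)) atTop atTop) : AllRad s := by
  intro n
  have hex : ∃ m, (n : ℝ) ≤ nrm (γ m) := (h5.eventually_ge_atTop (n : ℝ)).exists
  classical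
  refine ⟨γ (Nat.find hex), rad_infinite (rad_inf h1 h2) h5 _, Nat.find_spec hex, ?_⟩
  have hn : (0 : ℝ) ≤ n := Nat.cast_nonneg n
  rcases hm : Nat.find hex with _ | k
  · rw [h0, nrm_zero]
    linarith
  · have hk : ¬ (n : ℝ) ≤ nrm (γ k) := Nat.find_min hex (by omega)
    have h6 := nrm_add_le (γ k) (vec (st k))
    rw [nrm_vec] at h6
    rw [h1 k]
    linarith

/-- as `critical_ae` (OneR/Crit): the first `m` with `n ≤ nrm (γ m)` has `nrm (γ m) ≤ n + 1`
(`nrm_vec`); `Desc s (γ m)` contains all the `γ k`, `k ≥ m` (each step is an infection by the third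
property of `exists_ray`, see `infects_step` and the definition `Infects` in OneE/Defs), whose norms
are unbounded -/
theorem allRad_ae (i0 : Fin d) {α : ℝ} (hα : 1 < α) : ∀ᵐ E ∂(PE d), ∀ s : ℕ → Edge d,
    (∀ n, G (tau α E) (lst s n)) → AllRad s := by
  filter_upwards [ae_pos, explodes_ae i0 hα, via_or_avoid (d := d) α] with E hpos hex hva s hG
  have hτ : ∀ f, 0 < tau α E f := fun f =>
    div_pos (hpos f) (Real.rpow_pos_of_pos (mid_pos f) α)
  have hd : ∀ (m : ℕ) (z : V d), z ∈ ends (s m) → z ∉ vs (lst s m) →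
      (Desc s z).Finite ∨ (Reached s \ Desc s z).Finite :=
    fun m z h1 h2 => desc_or i0 hτ hex hG (hva hex) h1 h2
  obtain ⟨γ, st, h0, h1, h2, -⟩ := exists_ray hG hd
  obtain ⟨-, -, -, -, -, w5⟩ := ray_times i0 hτ hex hG h0 h1 h2
  exact rad_all h0 h1 h2 w5
-- END rad

-- BEGIN con
/-- a cone in the cluster: `‖toE v - nrm v • u‖ ^ 2 = 2 nrm v (nrm v - inner (toE v) u) ≤
ρ ^ 2 / 8 nrm v ^ 2`; a ray site `z` with `nrm v ≤ nrm z ≤ nrm v + 3` (`AllRad` for
`n = ⌈nrm v⌉₊`), `hc` for `ε = ρ / 8`: `nrm (v - z) ≤ ρ nrm z` for large `nrm v` -/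
theorem fat_cone {s : ℕ → Edge d} {ρ : ℝ} (hρ : 0 < ρ) (hρ1 : ρ ≤ 1) (hf : Fat ρ s)
    (hr : AllRad s) {u : EuclideanSpace ℝ (Fin d)} (hu : ‖u‖ = 1)
    (hc : ∀ ε : ℝ, 0 < ε → ∃ R : ℝ, ∀ z : V d, (Desc s z).Infinite → R ≤ nrm z →
      ‖toE z - nrm z • u‖ ≤ ε * nrm z) :
    ∃ R : ℝ, ∀ v : V d, R ≤ nrm v → (1 - ρ ^ 2 / 16) * nrm v ≤ inner ℝ (toE v) u →
      v ∈ Reached s := by
  obtain ⟨RF, hRF⟩ := hf
  obtain ⟨Rc, hRc⟩ := hc (ρ / 8) (by positivity)
  refine ⟨max (RF : ℝ) (max Rc (6 / ρ)), fun v hv hin => ?_⟩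
  have h1 : (RF : ℝ) ≤ nrm v := le_trans (le_max_left _ _) hv
  have h2 : Rc ≤ nrm v := le_trans (le_trans (le_max_left _ _) (le_max_right _ _)) hv
  have h3 : 6 / ρ ≤ nrm v := le_trans (le_trans (le_max_right _ _) (le_max_right _ _)) hv
  obtain ⟨z, hz, hz1, hz2⟩ := hr ⌈nrm v⌉₊
  have hr0 := nrm_nonneg v
  have hs1 : nrm v ≤ nrm z := le_trans (Nat.le_ceil _) hz1
  have hs2 : nrm z ≤ nrm v + 3 := by
    have := Nat.ceil_lt_add_one hr0
    linarith
  have hz3 := hRc z hz (h2.trans hs1)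
  refine hRF z v hz (h1.trans hs1) ?_
  have e : ‖toE v - nrm v • u‖ ^ 2 = 2 * nrm v * (nrm v - inner ℝ (toE v) u) := by
    rw [norm_sub_sq_real, inner_smul_right, norm_smul, hu, ← nrm_eq, Real.norm_eq_abs,
      abs_of_nonneg hr0]
    ring
  have key : ‖toE v - nrm v • u‖ ≤ 3 * ρ / 8 * nrm v := by
    refine (sq_le_sq₀ (norm_nonneg _) (by positivity)).1 ?_
    rw [e]
    have h4 : nrm v - inner ℝ (toE v) u ≤ ρ ^ 2 / 16 * nrm v := by linarith
    have h5 : 2 * nrm v * (nrm v - inner ℝ (toE v) u) ≤ 2 * nrm v * (ρ ^ 2 / 16 * nrm v) :=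
      mul_le_mul_of_nonneg_left h4 (by linarith)
    nlinarith [mul_nonneg (sq_nonneg ρ) (sq_nonneg (nrm v))]
  have h6 : ‖(nrm v - nrm z) • u‖ ≤ 3 := by
    rw [norm_smul, hu, mul_one, Real.norm_eq_abs, abs_le]
    constructor <;> linarith
  have t : toE v - toE z = (toE v - nrm v • u) + (nrm v - nrm z) • u - (toE z - nrm z • u) := by
    rw [sub_smul]
    abel
  have h7 : ‖toE v - toE z‖ ≤ ‖toE v - nrm v • u‖ + ‖(nrm v - nrm z) • u‖ +
      ‖toE z - nrm z • u‖ := by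
    rw [t]
    exact (norm_sub_le _ _).trans (by gcongr; exact norm_add_le _ _)
  have h8 : 6 ≤ ρ * nrm z := by
    have := (div_le_iff₀ hρ).1 (h3.trans hs1)
    linarith
  have h9 : 3 * ρ / 8 * nrm v ≤ 3 * ρ / 8 * nrm z := mul_le_mul_of_nonneg_left hs1 (by positivity)
  rw [nrm_eq, toE_sub]
  linarith
-- END con

end OneR
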