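import Pool.Agent.OneR.Dir2

/-!
Problem MP_b9fb85_pr: the limit directions of the ray, part three: the form of the final statement.
-/

set_option autoImplicit false

namespace OneR

open Finset ConeD ConeD.TRANSAux OneE Filter MeasureTheory

variable {d : ℕ}

private theorem fin_ip (x y : V d) : ip x y = inner ℝ (toE x) (toE y) := by
  unfold ip
  rw [PiLp.inner_apply]
  refine Finset.sum_congr rfl fun j _ => ?_
  rw [toE_apply, toE_apply]
  simp [mul_comm]

private theorem fin_pos {x : V d} (hx : x ≠ 0) : 0 < nrm x := by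
  rw [nrm_eq]
  refine norm_pos_iff.2 fun h => hx ?_
  funext j
  have h1 : toE x j = 0 := by
    rw [h]
    rfl
  have h2 : ((x j : ℤ) : ℝ) = 0 := h1
  exact Int.cast_eq_zero.1 h2

/-- the distance of two directions and the cosine of the angle -/
theorem dir_sq {x y : V d} (hx : 0 < nrm x) (hy : 0 < nrm y) :
    ‖dir x - dir y‖ ^ 2 = 2 - 2 * (ip x y / (nrm x * nrm y)) := by
  have h1 : ‖dir x‖ = 1 := by
    unfold dir
    rw [norm_smul, norm_inv, Real.norm_of_nonneg hx.le, ← nrm_eq, inv_mul_cancel₀ hx.ne']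
  have h2 : ‖dir y‖ = 1 := by
    unfold dir
    rw [norm_smul, norm_inv, Real.norm_of_nonneg hy.le, ← nrm_eq, inv_mul_cancel₀ hy.ne']
  have h3 : inner ℝ (dir x) (dir y) = ip x y / (nrm x * nrm y) := by
    unfold dir
    rw [real_inner_smul_left, real_inner_smul_right, ← fin_ip]
    field_simp
  rw [norm_sub_sq_real, h1, h2, h3]
  ring

/-- the form of `NowDense` in the final statement -/
theorem nowDense_ip {s : ℕ → Edge d} (hs : NowDense s) {z0 : V d} (hz0 : z0 ≠ 0) {ε : ℝ}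
    (hε : 0 < ε) : ∃ (w : V d) (δ R : ℝ), w ≠ 0 ∧ 0 < δ ∧ (1 - ε) * (nrm w * nrm z0) < ip w z0 ∧
      ∀ z : V d, (Desc s z).Infinite → R ≤ nrm z → ip w z ≤ (1 - δ) * (nrm w * nrm z) := by
  obtain ⟨k, hk⟩ := exists_nat_one_div_lt (lt_min hε one_pos)
  obtain ⟨w, l, R, hw, h1, h2⟩ := hs z0 k hz0
  have hw0 := fin_pos hw
  have hz1 := fin_pos hz0
  have hl : (0 : ℝ) < 1 / ((l : ℝ) + 1) := Nat.one_div_pos_of_nat
  refine ⟨w, (1 / ((l : ℝ) + 1)) ^ 2 / 2, max 1 R, hw, by positivity, ?_, fun z hz hRz => ?_⟩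
  · have h3 := dir_sq hw0 hz1
    have h4 : ‖dir w - dir z0‖ < min ε 1 := h1.trans hk
    have h5 : ‖dir w - dir z0‖ < ε := h4.trans_le (min_le_left _ _)
    have h6 : ‖dir w - dir z0‖ < 1 := h4.trans_le (min_le_right _ _)
    have h7 := norm_nonneg (dir w - dir z0)
    have h8 : 1 - ε < ip w z0 / (nrm w * nrm z0) := by nlinarith
    exact (lt_div_iff₀ (mul_pos hw0 hz1)).1 h8
  · have hz2 : 0 < nrm z := lt_of_lt_of_le one_pos ((le_max_left _ _).trans hRz)
    have h3 := dir_sq hz2 hw0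
    have h4 := h2 z hz ((le_max_right _ _).trans hRz)
    have h5 : (1 / ((l : ℝ) + 1)) ^ 2 ≤ ‖dir z - dir w‖ ^ 2 := pow_le_pow_left₀ hl.le h4 2
    have h6 : ip z w / (nrm z * nrm w) ≤ 1 - (1 / ((l : ℝ) + 1)) ^ 2 / 2 := by linarith
    have h7 := (div_le_iff₀ (mul_pos hz2 hw0)).1 h6
    rw [ip_comm z w, mul_comm (nrm z) (nrm w)] at h7
    exact h7

/-- the form of `conv_dir` in the final statement -/
theorem conv_coord (i0 : Fin d) {s : ℕ → Edge d} (hs : Conv s) :
    ∃ u : Fin d → ℝ, ∑ j, u j ^ 2 = 1 ∧ ∀ ε : ℝ, 0 < ε → ∃ R : ℝ, ∀ z : V d,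
      (Desc s z).Infinite → R ≤ nrm z → ∀ j, |(z j : ℝ) - nrm z * u j| ≤ ε * nrm z := by
  obtain ⟨u, hu, h⟩ := conv_dir i0 hs
  refine ⟨fun j => u j, ?_, fun ε hε => ?_⟩
  · have h1 : ‖u‖ ^ 2 = ∑ j, u j ^ 2 := by
      rw [EuclideanSpace.norm_sq_eq]
      refine Finset.sum_congr rfl fun j _ => ?_
      rw [Real.norm_eq_abs, sq_abs]
    rw [hu, one_pow] at h1
    exact h1.symm
  · obtain ⟨R, hR⟩ := h ε hε
    refine ⟨R, fun z hz hRz j => ?_⟩
    have h1 := hR z hz hRz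
    have h2 : ‖(toE z - nrm z • u) j‖ ≤ ‖toE z - nrm z • u‖ := PiLp.norm_apply_le _ j
    have h3 : (toE z - nrm z • u) j = (z j : ℝ) - nrm z * u j := rfl
    rw [h3, Real.norm_eq_abs] at h2
    exact h2.trans h1

/-- the planar clause, for any dimension -/
def Conv2 (s : ℕ → Edge d) : Prop := d = 2 → Conv s

theorem measurableSet_conv2 : MeasurableSet {s : ℕ → Edge d | Conv2 s} := by
  by_cases h : d = 2
  · have h1 : {s : ℕ → Edge d | Conv2 s} = {s | Conv s} := by
      ext s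
      simp only [Conv2, Set.mem_ofPred_eq, h, forall_true_left]
    rw [h1]
    exact measurableSet_conv
  · have h1 : {s : ℕ → Edge d | Conv2 s} = Set.univ := by
      ext s
      simp only [Conv2, Set.mem_ofPred_eq, h, false_implies, Set.mem_univ]
    rw [h1]
    exact MeasurableSet.univ

theorem conv2_ae {α : ℝ} (hα : 1 < α) : ∀ᵐ E ∂(PE d), ∀ s : ℕ → Edge d,
    (∀ n, G (tau α E) (lst s n)) → Conv2 s := by
  by_cases h : d = 2
  · subst h
    filter_upwards [conv_ae hα] with E hE s hG _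
    exact hE s hG
  · exact Filter.Eventually.of_forall fun E s _ h2 => absurd h2 h

end OneR
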