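import Mathlib

/-! The infection relation of a sequence of edges of `ℤ ^ d`. -/

set_option autoImplicit false

/-- The edge `f` of `ℤ ^ d` has the ends `f.1` and `f.1 +` the unit vector number `f.2`. `OneR.Infn s x y`: the site `y`
is infected from the site `x` in the sequence of edges `s`, that is, some edge `s n` has the ends `x`, `y`, and before it
`x` was the origin or an end of an edge `s i`, `i < n`, but `y` was not. -/
def OneR.Infn {d : ℕ} (s : ℕ → (Fin d → ℤ) × Fin d) (x y : Fin d → ℤ) : Prop :=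
  ∃ n, (x = (s n).1 ∨ x = (s n).1 + Pi.single (s n).2 1) ∧ (y = (s n).1 ∨ y = (s n).1 + Pi.single (s n).2 1) ∧
    (x = 0 ∨ ∃ i < n, x = (s i).1 ∨ x = (s i).1 + Pi.single (s i).2 1) ∧
    ¬ (y = 0 ∨ ∃ i < n, y = (s i).1 ∨ y = (s i).1 + Pi.single (s i).2 1)
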