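import Pool.Agent.ConeD.Defs

/-!
Problem MP_b9fb85_pr: the flat metric `|dx| / |x| ^ α`.
-/

set_option autoImplicit false

namespace OneR

open ConeD

variable {d : ℕ}

/-- `v` is within distance `κ` of `z` in the flat metric `|dx| / |x| ^ α`, normed so that infinity has
distance one from `z` (polar coordinates `q = (|v| / |z|) ^ (1 - α)` and `(α - 1)` times the angle) -/
def Near (α κ : ℝ) (z v : V d) : Prop :=
  0 < nrm v ∧ Real.arccos (ip z v / (nrm z * nrm v)) * (α - 1) < Real.pi ∧
  1 + (nrm v / nrm z) ^ (2 * (1 - α)) - 2 * (nrm v / nrm z) ^ (1 - α) *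
    Real.cos (Real.arccos (ip z v / (nrm z * nrm v)) * (α - 1)) ≤ κ ^ 2

end OneR
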