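import Pool.Agent.OneR.Arc

/-!
Problem MP_b9fb85_pr: the cluster lies in no cone of opening less than `π` if the exponent is close to
one, with an explicit range.
-/

set_option autoImplicit false

namespace OneR

open Finset ConeD ConeD.TRANSAux OneE Filter MeasureTheory

variable {d : ℕ}

-- BEGIN noc
private theorem noc_frame {E : Type*} [NormedAddCommGroup E] [InnerProductSpace ℝ E] [FiniteDimensional ℝ E]
    (hd : 2 ≤ Module.finrank ℝ E) {z v : E} (hz : 0 < ‖z‖) (hv : 0 < ‖v‖) :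
    ∃ f : E, ‖f‖ = 1 ∧ inner ℝ z f = 0 ∧
      v = ‖v‖ • (Real.cos (Real.arccos (inner ℝ z v / (‖z‖ * ‖v‖))) • (‖z‖⁻¹ • z) +
        Real.sin (Real.arccos (inner ℝ z v / (‖z‖ * ‖v‖))) • f) := by
  obtain ⟨e, he⟩ : ∃ e : E, e = ‖z‖⁻¹ • z := ⟨_, rfl⟩
  have he1 : ‖e‖ = 1 := by
    rw [he, norm_smul, norm_inv, norm_norm]
    exact inv_mul_cancel₀ hz.ne'
  have hze : z = ‖z‖ • e := by
    rw [he, smul_smul, mul_inv_cancel₀ hz.ne', one_smul]
  have hrat : inner ℝ z v / (‖z‖ * ‖v‖) = inner ℝ e v / ‖v‖ := by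
    conv_lhs => rw [hze, real_inner_smul_left]
    rw [norm_smul, he1, mul_one, norm_norm, mul_div_mul_left _ _ hz.ne']
  obtain ⟨c, hc⟩ : ∃ c : ℝ, c = inner ℝ e v / ‖v‖ := ⟨_, rfl⟩
  have hcv : inner ℝ e v = c * ‖v‖ := by
    rw [hc, div_mul_cancel₀ _ hv.ne']
  have habs : |inner ℝ e v| ≤ ‖v‖ := by
    have := abs_real_inner_le_norm e v
    rwa [he1, one_mul] at this
  have hc1 : |c| ≤ 1 := by
    rw [hc, abs_div, abs_of_pos hv, div_le_one hv]
    exact habs
  obtain ⟨hcl, hcu⟩ := abs_le.1 hc1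
  rw [hrat, ← hc, ← he, Real.cos_arccos hcl hcu, Real.sin_arccos]
  -- the orthogonal part
  obtain ⟨w, hw⟩ : ∃ w : E, w = v - (c * ‖v‖) • e := ⟨_, rfl⟩
  have hew : inner ℝ e w = 0 := by
    rw [hw, inner_sub_right, real_inner_smul_right, real_inner_self_eq_norm_sq, he1, hcv]
    ring
  have hww : ‖w‖ ^ 2 = ‖v‖ ^ 2 * (1 - c ^ 2) := by
    rw [← real_inner_self_eq_norm_sq]
    have h1 : inner ℝ w w = inner ℝ v w := by
      have h2 : inner ℝ (v - (c * ‖v‖) • e) w = inner ℝ v w := by
        rw [inner_sub_left, real_inner_smul_left, hew, mul_zero, sub_zero]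
      rwa [← hw] at h2
    rw [h1, hw, inner_sub_right, real_inner_smul_right, real_inner_self_eq_norm_sq,
      real_inner_comm, hcv]
    ring
  have hwn : ‖w‖ = ‖v‖ * Real.sqrt (1 - c ^ 2) := by
    rw [← Real.sqrt_sq (norm_nonneg w), hww, Real.sqrt_mul (sq_nonneg _), Real.sqrt_sq hv.le]
  by_cases h0 : w = 0
  · -- any unit vector orthogonal to e
    have hs0 : Real.sqrt (1 - c ^ 2) = 0 := by
      rw [h0, norm_zero] at hwn
      exact (mul_eq_zero.1 hwn.symm).resolve_left hv.ne'
    have hne : (ℝ ∙ e)ᗮ ≠ ⊥ := by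
      intro hbot
      have h2 := Submodule.finrank_add_finrank_orthogonal (ℝ ∙ e)
      rw [hbot, finrank_bot, add_zero] at h2
      have h3 := finrank_span_le_card (R := ℝ) ({e} : Set E)
      rw [Set.toFinset_singleton, Finset.card_singleton] at h3
      omega
    obtain ⟨g, hg, hg0⟩ := (Submodule.ne_bot_iff _).1 hne
    have hg0' : 0 < ‖g‖ := norm_pos_iff.2 hg0
    refine ⟨‖g‖⁻¹ • g, ?_, ?_, ?_⟩
    · rw [norm_smul, norm_inv, norm_norm]
      exact inv_mul_cancel₀ hg0'.ne'
    · rw [real_inner_smul_right, hze, real_inner_smul_left,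
        (Submodule.mem_orthogonal_singleton_iff_inner_right.1 hg), mul_zero, mul_zero]
    · rw [hs0, zero_smul, add_zero, smul_smul, mul_comm]
      have := hw
      rw [h0] at this
      exact (sub_eq_zero.1 this.symm)
  · have hw0 : 0 < ‖w‖ := norm_pos_iff.2 h0
    refine ⟨‖w‖⁻¹ • w, ?_, ?_, ?_⟩
    · rw [norm_smul, norm_inv, norm_norm]
      exact inv_mul_cancel₀ hw0.ne'
    · rw [real_inner_smul_right, hze, real_inner_smul_left, hew, mul_zero, mul_zero]
    · have h4 : (‖v‖ * Real.sqrt (1 - c ^ 2)) • (‖w‖⁻¹ • w) = w := by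
        rw [← hwn, smul_smul, mul_inv_cancel₀ hw0.ne', one_smul]
      rw [smul_add, smul_smul, smul_smul, h4, hw, mul_comm ‖v‖ c]
      abel

private theorem noc_rnd (p : EuclideanSpace ℝ (Fin d)) : ∃ v : V d, ‖toE v - p‖ ≤ Real.sqrt d := by
  refine ⟨fun k => round (p k), ?_⟩
  rw [EuclideanSpace.norm_eq]
  refine Real.sqrt_le_sqrt ?_
  have h2 : ∀ k ∈ (Finset.univ : Finset (Fin d)),
      ‖(toE (fun k => round (p k)) - p) k‖ ^ 2 ≤ (1 : ℝ) := by
    intro k _
    have h3 : (toE (fun k => round (p k)) - p) k = ((round (p k) : ℤ) : ℝ) - p k := rfl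
    rw [h3, Real.norm_eq_abs, abs_sub_comm]
    have h4 := abs_sub_round (p k)
    nlinarith [abs_nonneg (p k - (round (p k) : ℝ))]
  refine (Finset.sum_le_card_nsmul _ _ _ h2).trans ?_
  rw [Finset.card_univ, Fintype.card_fin, nsmul_eq_mul, mul_one]

/-- suppose all `v` with `R ≤ nrm v` in `Reached s` are in the cone; `θ / 2 < φ < π / 2` with
`φ (d (α - 1)) < 1 - 2 / (j + 2)`; a ray site `z` of large norm is in `Reached s`, so in the cone and
its angle `ψ` with `u` is at most `φ`; `w = cos φ u + sin φ n`, `n` a unit vector orthogonal to `u` with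
`z = nrm z (cos ψ u + sin ψ n)`; the angle of `w` and `z` is `φ - ψ`, so `v`, `nrm z • w` rounded, is in
`Reached s` by `hf j`, but it is not in the cone since its angle with `u` is near `φ` -/
theorem arc_no_cone (hd : 2 ≤ d) {s : ℕ → Edge d} {α : ℝ} (hα : 1 < α) {δ : ℕ → ℝ}
    (hδ : ∀ j, 0 < δ j) (hf : ∀ j, ArcFat α j (δ j) s) (hr : AllRad s)
    (a u : Fin d → ℝ) (hu : ∑ j : Fin d, u j ^ 2 = 1) {θ : ℝ} (h0 : 0 < θ) (h1 : θ < Real.pi)
    (h : θ * (d * (α - 1)) < 2) (R : ℝ) :
    ∃ v : V d, R ≤ nrm v ∧ v ∈ Reached s ∧ ∑ j : Fin d, ((v j : ℝ) - a j) * u j <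
      Real.sqrt (∑ j : Fin d, ((v j : ℝ) - a j) ^ 2) * Real.cos (θ / 2) := by
  have hπ := Real.pi_pos
  have hd' : (2 : ℝ) ≤ d := by exact_mod_cast hd
  obtain ⟨q, hq⟩ : ∃ q : ℝ, q = d * (α - 1) := ⟨_, rfl⟩
  have hq0 : 0 < q := by
    rw [hq]
    exact mul_pos (by linarith) (by linarith)
  rw [← hq] at h
  obtain ⟨φ, hφ1, hφ2, hφ3⟩ : ∃ φ : ℝ, θ / 2 < φ ∧ φ < Real.pi / 2 ∧ φ * q < 1 := by
    have e1 : θ / 2 < min (Real.pi / 2) (1 / q) := by
      refine lt_min (by linarith) ?_
      rw [lt_div_iff₀ hq0]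
      linarith
    obtain ⟨φ, e2, e3⟩ := exists_between e1
    have e4 := lt_of_lt_of_le e3 (min_le_right _ _)
    rw [lt_div_iff₀ hq0] at e4
    exact ⟨φ, e2, lt_of_lt_of_le e3 (min_le_left _ _), e4⟩
  have hφ0 : 0 < φ := by linarith
  obtain ⟨g, hg⟩ : ∃ g : ℝ, g = 1 - φ * q := ⟨_, rfl⟩
  have hg0 : 0 < g := by rw [hg]; linarith
  obtain ⟨j, hj⟩ := exists_nat_ge ((q + 1) / g)
  have hj2 : (0 : ℝ) < (j : ℝ) + 2 := by positivity
  obtain ⟨ε, hε⟩ : ∃ ε : ℝ, ε = 1 / ((j : ℝ) + 2) := ⟨_, rfl⟩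
  have hε0 : 0 < ε := by rw [hε]; positivity
  have hε1 : ε ≤ 1 := by
    rw [hε, div_le_one hj2]
    have : (0 : ℝ) ≤ j := Nat.cast_nonneg j
    linarith
  have hεg : (φ + ε) * q ≤ 1 - ε := by
    have e1 : (q + 1) ≤ j * g := (div_le_iff₀ hg0).1 hj
    have e2 : (q + 1) * ε ≤ g := by
      rw [hε, mul_one_div, div_le_iff₀ hj2]
      nlinarith
    rw [hg] at e2
    linarith
  have hφε : φ + ε ≤ Real.pi := by linarith [Real.pi_gt_three]
  have hgap : 0 < Real.cos φ - Real.cos (φ + ε) :=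
    sub_pos.2 (Real.cos_lt_cos_of_nonneg_of_le_pi hφ0.le hφε (by linarith))
  have hc : 0 < Real.cos (θ / 2) - Real.cos φ :=
    sub_pos.2 (Real.cos_lt_cos_of_nonneg_of_le_pi (by linarith) (by linarith) hφ1)
  have hc1 : Real.cos (θ / 2) ≤ 1 := Real.cos_le_one _
  have hc0 : 0 < Real.cos (θ / 2) := Real.cos_pos_of_mem_Ioo ⟨by linarith, by linarith⟩
  obtain ⟨R0, hR0⟩ := hf j
  have hδj := hδ j
  let U : EuclideanSpace ℝ (Fin d) := WithLp.toLp 2 u
  let A : EuclideanSpace ℝ (Fin d) := WithLp.toLp 2 a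
  have hU : ‖U‖ = 1 := by
    rw [EuclideanSpace.norm_eq]
    have : ∑ i : Fin d, ‖U i‖ ^ 2 = 1 := by
      rw [← hu]
      exact Finset.sum_congr rfl fun k _ => by rw [Real.norm_eq_abs, sq_abs]
    rw [this, Real.sqrt_one]
  have hsd : 0 ≤ Real.sqrt (d : ℝ) := Real.sqrt_nonneg _
  have hA : 0 ≤ ‖A‖ := norm_nonneg A
  have t1 : 0 ≤ |R| := abs_nonneg R
  have t2 : 0 ≤ Real.sqrt d / δ j := by positivity
  have t3 : 0 ≤ 2 * Real.sqrt d / (Real.cos φ - Real.cos (φ + ε)) := by positivity
  have t4 : 0 ≤ 2 * (Real.sqrt d + ‖A‖) / (Real.cos (θ / 2) - Real.cos φ) := by positivity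
  have t5 : (0 : ℝ) ≤ (R0 : ℝ) := Nat.cast_nonneg R0
  obtain ⟨n, hn⟩ := exists_nat_ge ((R0 : ℝ) + |R| + Real.sqrt d / δ j +
    2 * Real.sqrt d / (Real.cos φ - Real.cos (φ + ε)) +
    2 * (Real.sqrt d + ‖A‖) / (Real.cos (θ / 2) - Real.cos φ) + 2 * Real.sqrt d + ‖A‖ + 1)
  obtain ⟨z, hz, hz1, hz2⟩ := hr n
  have hz0 : 0 < nrm z := by linarith
  have hnz : 0 ≤ nrm z := hz0.le
  have hip : ∀ x y : V d, ip x y = inner ℝ (toE x) (toE y) := by
    intro x y
    unfold ip
    rw [EuclideanSpace.inner_eq_star_dotProduct]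
    simp only [dotProduct, toE_apply, star_trivial]
    exact Finset.sum_congr rfl fun k _ => mul_comm _ _
  -- a site near the sphere of `z` whose direction makes an angle of about `φ` or more with `u`
  have key : ∃ v : V d, |nrm v - nrm z| ≤ Real.sqrt d ∧ v ∈ Reached s ∧
      inner ℝ (toE v) U ≤ nrm z * Real.cos φ + Real.sqrt d := by
    obtain ⟨m, hm1, hUm, hzm⟩ := noc_frame (E := EuclideanSpace ℝ (Fin d)) (z := U) (v := toE z)
      (by rw [finrank_euclideanSpace, Fintype.card_fin]; exact hd)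
      (by rw [hU]; exact one_pos) (by rw [← nrm_eq]; exact hz0)
    rw [← nrm_eq, hU, inv_one, one_smul] at hzm
    obtain ⟨ψ, hψ⟩ : ∃ ψ : ℝ, ψ = Real.arccos (inner ℝ U (toE z) / (1 * nrm z)) := ⟨_, rfl⟩
    rw [← hψ] at hzm
    have hψ0 : 0 ≤ ψ := by rw [hψ]; exact Real.arccos_nonneg _
    have hψ1 : ψ ≤ Real.pi := by rw [hψ]; exact Real.arccos_le_pi _
    rcases le_total ψ (2 * φ) with hc2 | hc2
    · obtain ⟨w, hw⟩ : ∃ w : EuclideanSpace ℝ (Fin d), w = Real.cos φ • U + Real.sin φ • m :=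
        ⟨_, rfl⟩
      have hw1 : ‖w‖ = 1 := by
        have h2 : ‖w‖ ^ 2 = 1 := by
          rw [hw, norm_add_sq_real, norm_smul, norm_smul, hU, hm1, real_inner_smul_left,
            real_inner_smul_right, hUm, mul_one, mul_one, Real.norm_eq_abs, Real.norm_eq_abs,
            sq_abs, sq_abs]
          nlinarith [Real.sin_sq_add_cos_sq φ]
        exact (pow_eq_one_iff_of_nonneg (norm_nonneg _) two_ne_zero).1 h2
      have hwU : inner ℝ w U = Real.cos φ := by
        rw [hw, inner_add_left, real_inner_smul_left, real_inner_smul_left,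
          real_inner_self_eq_norm_sq, hU, real_inner_comm, hUm]
        ring
      have hzw : nrm z * Real.cos φ ≤ inner ℝ (toE z) w := by
        have e1 : inner ℝ (toE z) w = nrm z * Real.cos (ψ - φ) := by
          rw [hzm, hw, real_inner_smul_left, inner_add_left, inner_add_right, inner_add_right,
            real_inner_smul_left, real_inner_smul_left, real_inner_smul_left, real_inner_smul_left,
            real_inner_smul_right, real_inner_smul_right, real_inner_smul_right,
            real_inner_smul_right, real_inner_self_eq_norm_sq, real_inner_self_eq_norm_sq, hU, hm1,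
            real_inner_comm U m, hUm, Real.cos_sub]
          ring
        rw [e1]
        refine mul_le_mul_of_nonneg_left ?_ hnz
        rw [← Real.cos_abs (ψ - φ)]
        refine Real.cos_le_cos_of_nonneg_of_le_pi (abs_nonneg _) (by linarith) ?_
        rw [abs_le]
        constructor <;> linarith
      obtain ⟨v, hv⟩ := noc_rnd (nrm z • w)
      have hzwn : ‖nrm z • w‖ = nrm z := by
        rw [norm_smul, hw1, mul_one, Real.norm_of_nonneg hnz]
      have hdiff : |nrm v - nrm z| ≤ Real.sqrt d := by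
        have e1 := abs_norm_sub_norm_le (toE v) (nrm z • w)
        rw [hzwn, ← nrm_eq] at e1
        exact e1.trans hv
      obtain ⟨hd1, hd2⟩ := abs_le.1 hdiff
      have hv0 : 0 < nrm v := by linarith
      have hzv : nrm z * (nrm z * Real.cos φ - Real.sqrt d) ≤ ip z v := by
        have e1 : inner ℝ (toE z) (toE v) = inner ℝ (toE z) (nrm z • w) +
            inner ℝ (toE z) (toE v - nrm z • w) := by
          rw [inner_sub_right]
          ring
        have e2 := abs_real_inner_le_norm (toE z) (toE v - nrm z • w)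
        rw [← nrm_eq] at e2
        have e3 := mul_le_mul_of_nonneg_left hv hnz
        have e4 := (abs_le.1 (e2.trans e3)).1
        have e5 : nrm z * (nrm z * Real.cos φ) ≤ inner ℝ (toE z) (nrm z • w) := by
          rw [real_inner_smul_right]
          exact mul_le_mul_of_nonneg_left hzw hnz
        rw [hip, e1]
        linarith
      refine ⟨v, hdiff, ?_, ?_⟩
      · refine hR0 z v hz (by linarith) ?_ ?_
        · refine hdiff.trans ?_
          have e1 : Real.sqrt d / δ j ≤ nrm z := by linarith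
          have e2 := (div_le_iff₀ hδj).1 e1
          linarith
        · have e1 : 2 * Real.sqrt d / (Real.cos φ - Real.cos (φ + ε)) ≤ nrm z := by linarith
          have e2 := (div_le_iff₀ hgap).1 e1
          have e3 : Real.cos (φ + ε) * nrm v ≤ nrm z * Real.cos φ - Real.sqrt d := by
            have e4 : Real.cos (φ + ε) * (nrm v - nrm z) ≤ Real.sqrt d := by
              refine (le_abs_self _).trans ?_
              rw [abs_mul]
              exact (mul_le_of_le_one_left (abs_nonneg _) (Real.abs_cos_le_one _)).trans hdiff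
            nlinarith
          have e5 : Real.cos (φ + ε) ≤ ip z v / (nrm z * nrm v) := by
            rw [le_div_iff₀ (mul_pos hz0 hv0)]
            have e6 := mul_le_mul_of_nonneg_left e3 hnz
            linarith
          have e7 : Real.arccos (ip z v / (nrm z * nrm v)) ≤ φ + ε := by
            refine (Real.arccos_le_arccos e5).trans (le_of_eq ?_)
            exact Real.arccos_cos (by linarith) hφε
          rw [← hq, ← hε]
          exact (mul_le_mul_of_nonneg_right e7 hq0.le).trans hεg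
      · have e1 : inner ℝ (toE v) U = inner ℝ (toE v - nrm z • w) U + nrm z * Real.cos φ := by
          rw [inner_sub_left, real_inner_smul_left, hwU]
          ring
        have e2 := (abs_le.1 (abs_real_inner_le_norm (toE v - nrm z • w) U)).2
        rw [hU, mul_one] at e2
        rw [e1]
        linarith
    · refine ⟨z, by rw [sub_self, abs_zero]; exact hsd, ?_, ?_⟩
      · refine hR0 z z hz (by linarith) (by rw [sub_self, abs_zero]; positivity) ?_
        rw [ip_self, ← pow_two, div_self (by positivity), Real.arccos_one, zero_mul, ← hε]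
        linarith
      · have e1 : inner ℝ (toE z) U = nrm z * Real.cos ψ := by
          have e2 : inner ℝ (nrm z • (Real.cos ψ • U + Real.sin ψ • m)) U =
              nrm z * Real.cos ψ := by
            rw [real_inner_smul_left, inner_add_left, real_inner_smul_left, real_inner_smul_left,
              real_inner_self_eq_norm_sq, hU, real_inner_comm U m, hUm]
            ring
          rwa [← hzm] at e2
        rw [e1]
        have e3 : Real.cos ψ ≤ Real.cos φ :=
          Real.cos_le_cos_of_nonneg_of_le_pi hφ0.le hψ1 (by linarith)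
        have e4 := mul_le_mul_of_nonneg_left e3 hnz
        linarith
  obtain ⟨v, hdiff, hvR, hvU⟩ := key
  obtain ⟨hd1, hd2⟩ := abs_le.1 hdiff
  refine ⟨v, ?_, hvR, ?_⟩
  · have := le_abs_self R
    linarith
  · have e1 : ∑ i : Fin d, ((v i : ℝ) - a i) * u i = inner ℝ (toE v - A) U := by
      rw [EuclideanSpace.inner_eq_star_dotProduct]
      simp only [dotProduct, star_trivial]
      exact Finset.sum_congr rfl fun k _ => mul_comm _ _
    have e2 : Real.sqrt (∑ i : Fin d, ((v i : ℝ) - a i) ^ 2) = ‖toE v - A‖ := by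
      rw [EuclideanSpace.norm_eq]
      congr 1
      exact Finset.sum_congr rfl fun k _ => by rw [Real.norm_eq_abs, sq_abs]; rfl
    rw [e1, e2, inner_sub_left]
    have e5 := (abs_le.1 (abs_real_inner_le_norm A U)).1
    rw [hU, mul_one] at e5
    have e6 : nrm z - Real.sqrt d - ‖A‖ ≤ ‖toE v - A‖ := by
      have e7 := norm_sub_norm_le (toE v) A
      rw [← nrm_eq] at e7
      linarith
    have e8 : 2 * (Real.sqrt d + ‖A‖) / (Real.cos (θ / 2) - Real.cos φ) < nrm z := by linarith
    have e9 := (div_lt_iff₀ hc).1 e8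
    have e10 := mul_le_mul_of_nonneg_right e6 hc0.le
    have e11 : (Real.sqrt d + ‖A‖) * Real.cos (θ / 2) ≤ (Real.sqrt d + ‖A‖) * 1 :=
      mul_le_mul_of_nonneg_left hc1 (by positivity)
    nlinarith
-- END noc

end OneR
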