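import Pool.Agent.OneR.Fat

set_option autoImplicit false

namespace OneR

open Finset ConeD ConeD.TRANSAux OneE Filter MeasureTheory

variable {d : ℕ}

private theorem spl_F {s κ : ℝ} (hs : 0 < s) (hκ : κ < 1) {u w : ℂ} (hw : ‖w - 1‖ ≤ κ)
    (hu : ‖u - 1‖ ≤ κ) (h : ‖u - w‖ < ‖w‖) :
    ‖u ^ ((-s : ℝ) : ℂ) - w ^ ((-s : ℝ) : ℂ)‖ ≤ s * (‖w‖ - ‖u - w‖) ^ (-s - 1) * ‖u - w‖ := by
  have hball : ∀ ζ ∈ segment ℝ w u, ‖ζ - 1‖ ≤ κ := by
    intro ζ hζ
    have h1 : w ∈ Metric.closedBall (1 : ℂ) κ := by rw [mem_closedBall_iff_norm]; exact hw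
    have h2 : u ∈ Metric.closedBall (1 : ℂ) κ := by rw [mem_closedBall_iff_norm]; exact hu
    have h3 := (convex_closedBall (1 : ℂ) κ).segment_subset h1 h2 hζ
    rwa [mem_closedBall_iff_norm] at h3
  refine Convex.norm_image_sub_le_of_norm_hasDerivWithin_le
    (f := fun ζ : ℂ => ζ ^ ((-s : ℝ) : ℂ))
    (f' := fun ζ : ℂ => ((-s : ℝ) : ℂ) * ζ ^ (((-s : ℝ) : ℂ) - 1)) (s := segment ℝ w u) ?_ ?_
    (convex_segment w u) (left_mem_segment ℝ w u) (right_mem_segment ℝ w u)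
  · intro ζ hζ
    have h1 := hball ζ hζ
    have h2 : |(ζ - 1).re| ≤ κ := (Complex.abs_re_le_norm _).trans h1
    rw [Complex.sub_re, Complex.one_re] at h2
    have h3 : 0 < ζ.re := by linarith [(abs_le.1 h2).1]
    have hsl : ζ ∈ Complex.slitPlane := Or.inl h3
    have h4 := (hasDerivAt_id ζ).cpow_const (c := ((-s : ℝ) : ℂ)) hsl
    have h5 : HasDerivAt (fun ζ : ℂ => ζ ^ ((-s : ℝ) : ℂ))
        (((-s : ℝ) : ℂ) * ζ ^ (((-s : ℝ) : ℂ) - 1)) ζ := by
      simpa using h4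
    exact h5.hasDerivWithinAt
  · intro ζ hζ
    have h1 : (((-s : ℝ) : ℂ) - 1) = ((-s - 1 : ℝ) : ℂ) := by push_cast; ring
    rw [norm_mul, h1, Complex.norm_cpow_real, Complex.norm_real, norm_neg, Real.norm_of_nonneg hs.le]
    refine mul_le_mul_of_nonneg_left ?_ hs.le
    have h2 : ‖ζ - w‖ ≤ ‖u - w‖ := norm_sub_le_of_mem_segment hζ
    have h3 : ‖w‖ ≤ ‖ζ‖ + ‖ζ - w‖ := by
      have := norm_sub_le ζ (ζ - w)
      rwa [sub_sub_cancel] at this
    exact Real.rpow_le_rpow_of_nonpos (by linarith) (by linarith) (by linarith)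

private theorem spl_end {α : ℝ} (hα : 1 < α) {q φ : ℝ} (hq : 0 < q) (hφ : 0 ≤ φ)
    (hφ1 : φ * (α - 1) < Real.pi) :
    ∃ ζ : ℂ, ζ ^ ((-(1 / (α - 1)) : ℝ) : ℂ) =
      ((q * Real.cos φ : ℝ) : ℂ) + ((q * Real.sin φ : ℝ) : ℂ) * Complex.I ∧
      ‖ζ - 1‖ ^ 2 = 1 + q ^ (2 * (1 - α)) - 2 * q ^ (1 - α) * Real.cos (φ * (α - 1)) := by
  have hα1 : 0 < α - 1 := by linarith
  have hp := Real.pi_pos
  obtain ⟨w, hw⟩ : ∃ w : ℂ, w = (((1 - α) * Real.log q : ℝ) : ℂ) +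
      (((1 - α) * φ : ℝ) : ℂ) * Complex.I := ⟨_, rfl⟩
  have hre : w.re = (1 - α) * Real.log q := by
    rw [hw]; simp only [Complex.add_re, Complex.mul_re, Complex.ofReal_re, Complex.ofReal_im,
      Complex.I_re, Complex.I_im]; ring
  have him : w.im = (1 - α) * φ := by
    rw [hw]; simp only [Complex.add_im, Complex.mul_im, Complex.ofReal_re, Complex.ofReal_im,
      Complex.I_re, Complex.I_im]; ring
  have hlog : Complex.log (Complex.exp w) = w := by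
    refine Complex.log_exp ?_ ?_
    · rw [him]; nlinarith
    · rw [him]; nlinarith [mul_nonneg hφ hα1.le]
  refine ⟨Complex.exp w, ?_, ?_⟩
  · rw [Complex.cpow_def_of_ne_zero (Complex.exp_ne_zero _), hlog]
    have e1 : w * ((-(1 / (α - 1)) : ℝ) : ℂ) = ((Real.log q : ℝ) : ℂ) + (φ : ℂ) * Complex.I := by
      rw [hw]
      have h1 : ((α : ℂ) - 1) ≠ 0 := by
        have : ((α - 1 : ℝ) : ℂ) ≠ 0 := Complex.ofReal_ne_zero.2 hα1.ne'
        push_cast at this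
        exact this
      push_cast
      field_simp
      ring
    rw [e1, Complex.exp_add_mul_I, ← Complex.ofReal_exp, Real.exp_log hq]
    push_cast
    ring
  · have hQ : Real.exp w.re = q ^ (1 - α) := by
      rw [hre, Real.rpow_def_of_pos hq, mul_comm]
    have hQ2 : q ^ (2 * (1 - α)) = (q ^ (1 - α)) ^ 2 := by
      rw [← Real.rpow_natCast, ← Real.rpow_mul hq.le]
      congr 1
      push_cast
      ring
    have hc : Real.cos w.im = Real.cos (φ * (α - 1)) := by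
      rw [him, ← Real.cos_neg]
      congr 1
      ring
    rw [Complex.sq_norm, Complex.normSq_apply, Complex.sub_re, Complex.sub_im, Complex.one_re,
      Complex.one_im, Complex.exp_re, Complex.exp_im, hQ, hc, hQ2]
    have hs := Real.sin_sq_add_cos_sq w.im
    rw [hc] at hs
    linear_combination (q ^ (1 - α)) ^ 2 * hs

private theorem spl_frame {E : Type*} [NormedAddCommGroup E] [InnerProductSpace ℝ E] [FiniteDimensional ℝ E]
    (hd : 2 ≤ Module.finrank ℝ E) {z v : E} (hz : 0 < ‖z‖) (hv : 0 < ‖v‖) :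
    ∃ f : E, ‖f‖ = 1 ∧ inner ℝ z f = 0 ∧
      v = ‖v‖ • (Real.cos (Real.arccos (inner ℝ z v / (‖z‖ * ‖v‖))) • (‖z‖⁻¹ • z) +
        Real.sin (Real.arccos (inner ℝ z v / (‖z‖ * ‖v‖))) • f) := by
  obtain ⟨e, he⟩ : ∃ e : E, e = ‖z‖⁻¹ • z := ⟨_, rfl⟩
  have he1 : ‖e‖ = 1 := by
    rw [he, norm_smul, norm_inv, norm_norm]
    exact inv_mul_cancel₀ hz.ne'
  have hze : z = ‖z‖ • e := by
    rw [he, smul_smul, mul_inv_cancel₀ hz.ne', one_smul]
  have hrat : inner ℝ z v / (‖z‖ * ‖v‖) = inner ℝ e v / ‖v‖ := by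
    conv_lhs => rw [hze, real_inner_smul_left]
    rw [norm_smul, he1, mul_one, norm_norm, mul_div_mul_left _ _ hz.ne']
  obtain ⟨c, hc⟩ : ∃ c : ℝ, c = inner ℝ e v / ‖v‖ := ⟨_, rfl⟩
  have hcv : inner ℝ e v = c * ‖v‖ := by
    rw [hc, div_mul_cancel₀ _ hv.ne']
  have habs : |inner ℝ e v| ≤ ‖v‖ := by
    have := abs_real_inner_le_norm e v
    rwa [he1, one_mul] at this
  have hc1 : |c| ≤ 1 := by
    rw [hc, abs_div, abs_of_pos hv, div_le_one hv]
    exact habs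
  obtain ⟨hcl, hcu⟩ := abs_le.1 hc1
  rw [hrat, ← hc, ← he, Real.cos_arccos hcl hcu, Real.sin_arccos]
  -- the orthogonal part
  obtain ⟨w, hw⟩ : ∃ w : E, w = v - (c * ‖v‖) • e := ⟨_, rfl⟩
  have hew : inner ℝ e w = 0 := by
    rw [hw, inner_sub_right, real_inner_smul_right, real_inner_self_eq_norm_sq, he1, hcv]
    ring
  have hww : ‖w‖ ^ 2 = ‖v‖ ^ 2 * (1 - c ^ 2) := by
    rw [← real_inner_self_eq_norm_sq]
    have h1 : inner ℝ w w = inner ℝ v w := by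
      have h2 : inner ℝ (v - (c * ‖v‖) • e) w = inner ℝ v w := by
        rw [inner_sub_left, real_inner_smul_left, hew, mul_zero, sub_zero]
      rwa [← hw] at h2
    rw [h1, hw, inner_sub_right, real_inner_smul_right, real_inner_self_eq_norm_sq,
      real_inner_comm, hcv]
    ring
  have hwn : ‖w‖ = ‖v‖ * Real.sqrt (1 - c ^ 2) := by
    rw [← Real.sqrt_sq (norm_nonneg w), hww, Real.sqrt_mul (sq_nonneg _), Real.sqrt_sq hv.le]
  by_cases h0 : w = 0
  · -- any unit vector orthogonal to e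
    have hs0 : Real.sqrt (1 - c ^ 2) = 0 := by
      rw [h0, norm_zero] at hwn
      exact (mul_eq_zero.1 hwn.symm).resolve_left hv.ne'
    have hne : (ℝ ∙ e)ᗮ ≠ ⊥ := by
      intro hbot
      have h2 := Submodule.finrank_add_finrank_orthogonal (ℝ ∙ e)
      rw [hbot, finrank_bot, add_zero] at h2
      have h3 := finrank_span_le_card (R := ℝ) ({e} : Set E)
      rw [Set.toFinset_singleton, Finset.card_singleton] at h3
      omega
    obtain ⟨g, hg, hg0⟩ := (Submodule.ne_bot_iff _).1 hne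
    have hg0' : 0 < ‖g‖ := norm_pos_iff.2 hg0
    refine ⟨‖g‖⁻¹ • g, ?_, ?_, ?_⟩
    · rw [norm_smul, norm_inv, norm_norm]
      exact inv_mul_cancel₀ hg0'.ne'
    · rw [real_inner_smul_right, hze, real_inner_smul_left,
        (Submodule.mem_orthogonal_singleton_iff_inner_right.1 hg), mul_zero, mul_zero]
    · rw [hs0, zero_smul, add_zero, smul_smul, mul_comm]
      have := hw
      rw [h0] at this
      exact (sub_eq_zero.1 this.symm)
  · have hw0 : 0 < ‖w‖ := norm_pos_iff.2 h0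
    refine ⟨‖w‖⁻¹ • w, ?_, ?_, ?_⟩
    · rw [norm_smul, norm_inv, norm_norm]
      exact inv_mul_cancel₀ hw0.ne'
    · rw [real_inner_smul_right, hze, real_inner_smul_left, hew, mul_zero, mul_zero]
    · have h4 : (‖v‖ * Real.sqrt (1 - c ^ 2)) • (‖w‖⁻¹ • w) = w := by
        rw [← hwn, smul_smul, mul_inv_cancel₀ hw0.ne', one_smul]
      rw [smul_add, smul_smul, smul_smul, h4, hw, mul_comm ‖v‖ c]
      abel

private noncomputable def spl_rnd (p : EuclideanSpace ℝ (Fin d)) : V d := fun k => round (p k)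

private theorem spl_err (p : EuclideanSpace ℝ (Fin d)) : ‖toE (spl_rnd p) - p‖ ≤ Real.sqrt d / 2 := by
  rw [EuclideanSpace.norm_eq]
  have h1 : ∑ k : Fin d, ‖(toE (spl_rnd p) - p) k‖ ^ 2 ≤ d * (1 / 4 : ℝ) := by
    have h2 : ∀ k ∈ (Finset.univ : Finset (Fin d)), ‖(toE (spl_rnd p) - p) k‖ ^ 2 ≤ (1 / 4 : ℝ) := by
      intro k _
      have h3 : (toE (spl_rnd p) - p) k = ((round (p k) : ℤ) : ℝ) - p k := rfl
      rw [h3, Real.norm_eq_abs, abs_sub_comm]
      have h4 := abs_sub_round (p k)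
      nlinarith [abs_nonneg (p k - (round (p k) : ℝ))]
    refine (Finset.sum_le_card_nsmul _ _ _ h2).trans ?_
    rw [Finset.card_univ, Fintype.card_fin, nsmul_eq_mul]
  refine (Real.sqrt_le_sqrt h1).trans ?_
  rw [Real.sqrt_mul (Nat.cast_nonneg d)]
  have h5 : Real.sqrt (1 / 4 : ℝ) = 1 / 2 := by
    rw [show (1 / 4 : ℝ) = (1 / 2) ^ 2 by norm_num]
    exact Real.sqrt_sq (by norm_num)
  rw [h5]
  linarith

private theorem spl_fix (x : V d) : spl_rnd (toE x) = x := by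
  funext k
  unfold spl_rnd
  rw [toE_apply, round_intCast]


private theorem spl_L {E : Type*} [NormedAddCommGroup E] [InnerProductSpace ℝ E] {e f : E}
    (he : ‖e‖ = 1) (hf : ‖f‖ = 1) (hef : inner ℝ e f = 0) (w : ℂ) :
    ‖w.re • e + w.im • f‖ = ‖w‖ := by
  have h2 : ‖w.re • e + w.im • f‖ ^ 2 = ‖w‖ ^ 2 := by
    rw [norm_add_sq_real, norm_smul, norm_smul, he, hf, real_inner_smul_left,
      real_inner_smul_right, hef, mul_one, mul_one, Real.norm_eq_abs, Real.norm_eq_abs, sq_abs,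
      sq_abs, Complex.sq_norm, Complex.normSq_apply]
    ring
  exact (sq_eq_sq₀ (norm_nonneg _) (norm_nonneg _)).1 h2

/-- lattice points near the straight line from `z` to `v` of the flat metric `|dx| / |x| ^ α` -/
theorem spl_pts (hd : 2 ≤ d) {α : ℝ} (hα : 1 < α) {κ : ℝ} (hκ0 : 0 ≤ κ) (hκ : κ < 1) {t : ℝ}
    (ht : 0 < t) :
    ∃ c1 c2 : ℝ, 0 < c1 ∧ 0 < c2 ∧ ∃ N0 : ℕ, 0 < N0 ∧ ∀ N : ℕ, N0 ≤ N → ∃ R1 : ℝ, ∀ z v : V d,
      R1 ≤ nrm z → 0 < nrm v →
      Real.arccos (ip z v / (nrm z * nrm v)) * (α - 1) < Real.pi →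
      1 + (nrm v / nrm z) ^ (2 * (1 - α)) - 2 * (nrm v / nrm z) ^ (1 - α) *
        Real.cos (Real.arccos (ip z v / (nrm z * nrm v)) * (α - 1)) ≤ κ ^ 2 →
      ∃ x : ℕ → V d, x 0 = z ∧ x N = v ∧ ∀ i < N,
        c1 * nrm z ≤ nrm (x i) ∧ nrm (x i) ≤ c2 * nrm z ∧
        nrm (x (i + 1) - x i) ≤ c2 / N * nrm z ∧
        nrm (x i) ^ (-α) * nrm (x (i + 1) - x i) ≤
          (κ / (α - 1) + t) / N * nrm z ^ (1 - α) := by
  have hα1 : 0 < α - 1 := by linarith
  obtain ⟨s, hs⟩ : ∃ s : ℝ, s = 1 / (α - 1) := ⟨_, rfl⟩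
  have hs0 : 0 < s := by rw [hs]; positivity
  have hsα : s * (α - 1) = 1 := by rw [hs]; field_simp
  obtain ⟨c0, hc0⟩ : ∃ c0 : ℝ, c0 = 1 - κ := ⟨_, rfl⟩
  have hc0p : 0 < c0 := by rw [hc0]; linarith
  have hc01 : c0 ≤ 1 := by rw [hc0]; linarith
  obtain ⟨p1, hp1⟩ : ∃ p1 : ℝ, p1 = (2 : ℝ) ^ (-s) := ⟨_, rfl⟩
  have hp1p : 0 < p1 := by rw [hp1]; positivity
  obtain ⟨p2, hp2⟩ : ∃ p2 : ℝ, p2 = c0 ^ (-s) := ⟨_, rfl⟩
  have hp2p : 0 < p2 := by rw [hp2]; positivity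
  obtain ⟨p3, hp3⟩ : ∃ p3 : ℝ, p3 = s * (c0 / 2) ^ (-s - 1) := ⟨_, rfl⟩
  have hp3p : 0 < p3 := by rw [hp3]; positivity
  have hκα : κ / (α - 1) = s * κ := by rw [hs]; ring
  rw [hκα]
  -- the choice of `N0`
  have hlim : Tendsto (fun N : ℕ => s * κ * (1 - 1 / ((N : ℝ) * c0)) ^ (-s - 1)) atTop
      (nhds (s * κ)) := by
    have h1 : Tendsto (fun N : ℕ => 1 / ((N : ℝ) * c0)) atTop (nhds 0) := by
      have h2 : Tendsto (fun N : ℕ => (N : ℝ) * c0) atTop atTop :=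
        tendsto_natCast_atTop_atTop.atTop_mul_const hc0p
      exact tendsto_const_nhds.div_atTop h2
    have h3 : Tendsto (fun N : ℕ => 1 - 1 / ((N : ℝ) * c0)) atTop (nhds 1) := by
      simpa using tendsto_const_nhds.sub h1
    have h4 : Tendsto (fun N : ℕ => (1 - 1 / ((N : ℝ) * c0)) ^ (-s - 1)) atTop (nhds 1) := by
      have := h3.rpow_const (p := -s - 1) (Or.inl one_ne_zero)
      rwa [Real.one_rpow] at this
    simpa using h4.const_mul (s * κ)
  have hev := hlim.eventually (gt_mem_nhds (show s * κ < s * κ + t / 2 by linarith))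
  obtain ⟨n1, hn1⟩ := Filter.eventually_atTop.1 hev
  obtain ⟨n2, hn2⟩ := exists_nat_ge (2 / c0)
  refine ⟨p1 / 2, p2 + p3 + 2, by positivity, by positivity, n1 + n2 + 1, by omega,
    fun N hN => ?_⟩
  have hNpos : 0 < N := by omega
  have hN0 : (0 : ℝ) < N := by exact_mod_cast hNpos
  have hN1 : s * κ * (1 - 1 / ((N : ℝ) * c0)) ^ (-s - 1) < s * κ + t / 2 := hn1 N (by omega)
  have hN2 : 2 / c0 ≤ N := hn2.trans (by exact_mod_cast (show n2 ≤ N by omega))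
  have hN3 : 1 / (N : ℝ) ≤ c0 / 2 := by
    rw [div_le_iff₀ hc0p] at hN2
    rw [div_le_div_iff₀ hN0 two_pos]
    linarith
  -- the choice of `R1`
  have hlimR : Tendsto (fun R : ℝ => (1 - Real.sqrt d / (R * p1)) ^ (-α) *
      ((s * κ + t / 2) / N + 2 * Real.sqrt d * p1 ^ (-α) / R)) atTop
      (nhds ((s * κ + t / 2) / N)) := by
    have h1 : Tendsto (fun R : ℝ => Real.sqrt d / (R * p1)) atTop (nhds 0) := by
      have h2 : Tendsto (fun R : ℝ => R * p1) atTop atTop := tendsto_id.atTop_mul_const hp1p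
      exact tendsto_const_nhds.div_atTop h2
    have h3 : Tendsto (fun R : ℝ => 1 - Real.sqrt d / (R * p1)) atTop (nhds 1) := by
      simpa using tendsto_const_nhds.sub h1
    have h4 : Tendsto (fun R : ℝ => (1 - Real.sqrt d / (R * p1)) ^ (-α)) atTop (nhds 1) := by
      have := h3.rpow_const (p := -α) (Or.inl one_ne_zero)
      rwa [Real.one_rpow] at this
    have h5 : Tendsto (fun R : ℝ => 2 * Real.sqrt d * p1 ^ (-α) / R) atTop (nhds 0) :=
      tendsto_const_nhds.div_atTop tendsto_id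
    have h6 : Tendsto (fun R : ℝ => (s * κ + t / 2) / N + 2 * Real.sqrt d * p1 ^ (-α) / R) atTop
        (nhds ((s * κ + t / 2) / N + 0)) := tendsto_const_nhds.add h5
    have h7 := h4.mul h6
    rwa [add_zero, one_mul] at h7
  have hlt : (s * κ + t / 2) / N < (s * κ + t) / N := by
    have : s * κ + t / 2 < s * κ + t := by linarith
    gcongr
  obtain ⟨R2, hR2⟩ := Filter.eventually_atTop.1 (hlimR.eventually (gt_mem_nhds hlt))
  have hsd : 0 ≤ Real.sqrt (d : ℝ) := Real.sqrt_nonneg _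
  refine ⟨max R2 (1 + 2 * N * Real.sqrt d + 2 * Real.sqrt d / p1), fun z v hz hv hang hdisc => ?_⟩
  have hz2 : R2 ≤ nrm z := (le_max_left _ _).trans hz
  have hz3 : 1 + 2 * N * Real.sqrt d + 2 * Real.sqrt d / p1 ≤ nrm z := (le_max_right _ _).trans hz
  have hq1 : 0 ≤ 2 * N * Real.sqrt (d : ℝ) := by positivity
  have hq2 : 0 ≤ 2 * Real.sqrt d / p1 := by positivity
  have hz0 : 0 < nrm z := by linarith
  obtain ⟨R, hR⟩ : ∃ R : ℝ, R = nrm z := ⟨_, rfl⟩
  have hRp : 0 < R := by rw [hR]; exact hz0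
  have hip : ip z v = inner ℝ (toE z) (toE v) := by
    unfold ip
    rw [EuclideanSpace.inner_eq_star_dotProduct]
    simp only [dotProduct, toE_apply, star_trivial]
    exact Finset.sum_congr rfl fun k _ => mul_comm _ _
  obtain ⟨f, hf1, hzf, hvf⟩ := spl_frame (E := EuclideanSpace ℝ (Fin d)) (z := toE z) (v := toE v)
    (by rw [finrank_euclideanSpace, Fintype.card_fin]; exact hd)
    (by rw [← nrm_eq]; exact hz0) (by rw [← nrm_eq]; exact hv)
  rw [← nrm_eq, ← nrm_eq, ← hip] at hvf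
  obtain ⟨φ, hφ⟩ : ∃ φ : ℝ, φ = Real.arccos (ip z v / (nrm z * nrm v)) := ⟨_, rfl⟩
  rw [← hφ] at hvf hang hdisc
  have hφ0 : 0 ≤ φ := by rw [hφ]; exact Real.arccos_nonneg _
  obtain ⟨e, he⟩ : ∃ e : EuclideanSpace ℝ (Fin d), e = (nrm z)⁻¹ • toE z := ⟨_, rfl⟩
  rw [← he] at hvf
  have he1 : ‖e‖ = 1 := by
    rw [he, norm_smul, norm_inv, ← nrm_eq, Real.norm_of_nonneg hz0.le]
    exact inv_mul_cancel₀ hz0.ne'
  have hef : inner ℝ e f = 0 := by
    rw [he, real_inner_smul_left, hzf, mul_zero]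
  have hze : toE z = nrm z • e := by
    rw [he, smul_smul, mul_inv_cancel₀ hz0.ne', one_smul]
  rw [← hR] at hze hdisc hz2 hz3
  have hq : 0 < nrm v / R := div_pos hv hRp
  obtain ⟨ζ1, hζ1, hζ2⟩ := spl_end hα hq hφ0 hang
  rw [← hs] at hζ1
  have hζκ : ‖ζ1 - 1‖ ≤ κ := by
    refine (sq_le_sq₀ (norm_nonneg _) hκ0).1 ?_
    rw [hζ2]
    exact hdisc
  obtain ⟨ζ, hζ⟩ : ∃ ζ : ℕ → ℂ, ζ = fun i : ℕ => 1 + (((i : ℝ) / N : ℝ) : ℂ) * (ζ1 - 1) := ⟨_, rfl⟩
  have hζa : ∀ i, i ≤ N → ‖ζ i - 1‖ ≤ κ := by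
    intro i hi
    rw [hζ]
    have h1 : (1 + ((i / N : ℝ) : ℂ) * (ζ1 - 1)) - 1 = ((i / N : ℝ) : ℂ) * (ζ1 - 1) := by ring
    show ‖(1 + ((i / N : ℝ) : ℂ) * (ζ1 - 1)) - 1‖ ≤ κ
    rw [h1, norm_mul, Complex.norm_real, Real.norm_of_nonneg (by positivity)]
    have h2 : (i : ℝ) / N ≤ 1 := by
      rw [div_le_one hN0]
      exact_mod_cast hi
    calc (i : ℝ) / N * ‖ζ1 - 1‖ ≤ 1 * κ :=
        mul_le_mul h2 hζκ (norm_nonneg _) zero_le_one
      _ = κ := one_mul κ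
  have hζlow : ∀ i, i ≤ N → c0 ≤ ‖ζ i‖ ∧ ‖ζ i‖ ≤ 2 := by
    intro i hi
    have h1 := hζa i hi
    have h2 : ‖(1 : ℂ)‖ ≤ ‖ζ i‖ + ‖ζ i - 1‖ := by
      have := norm_sub_le (ζ i) (ζ i - 1)
      rwa [sub_sub_cancel] at this
    have h3 : ‖ζ i‖ ≤ ‖ζ i - 1‖ + ‖(1 : ℂ)‖ := by
      have := norm_add_le (ζ i - 1) 1
      rwa [sub_add_cancel] at this
    rw [norm_one] at h2 h3
    rw [hc0]
    constructor <;> linarith
  have hζd : ∀ i, ‖ζ (i + 1) - ζ i‖ ≤ κ / N := by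
    intro i
    rw [hζ]
    show ‖(1 + (((i + 1 : ℕ) / N : ℝ) : ℂ) * (ζ1 - 1)) - (1 + ((i / N : ℝ) : ℂ) * (ζ1 - 1))‖ ≤ κ / N
    have h1 : (1 + (((i + 1 : ℕ) / N : ℝ) : ℂ) * (ζ1 - 1)) - (1 + ((i / N : ℝ) : ℂ) * (ζ1 - 1)) =
        ((1 / N : ℝ) : ℂ) * (ζ1 - 1) := by
      push_cast
      ring
    rw [h1, norm_mul, Complex.norm_real, Real.norm_of_nonneg (by positivity), one_div, div_eq_inv_mul]
    exact mul_le_mul_of_nonneg_left hζκ (by positivity)
  -- the points of the plane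
  obtain ⟨F, hF⟩ : ∃ F : ℕ → ℂ, F = fun i => (ζ i) ^ ((-s : ℝ) : ℂ) := ⟨_, rfl⟩
  obtain ⟨P, hP⟩ : ∃ P : ℕ → EuclideanSpace ℝ (Fin d),
      P = fun i => R • ((F i).re • e + (F i).im • f) := ⟨_, rfl⟩
  have hFn : ∀ i, ‖F i‖ = ‖ζ i‖ ^ (-s) := by
    intro i
    rw [hF]
    exact Complex.norm_cpow_real _ _
  have hPn : ∀ i, ‖P i‖ = R * ‖F i‖ := by
    intro i
    rw [hP]
    show ‖R • ((F i).re • e + (F i).im • f)‖ = R * ‖F i‖
    rw [norm_smul, Real.norm_of_nonneg hRp.le, spl_L he1 hf1 hef]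
  have hPd : ∀ i, ‖P (i + 1) - P i‖ = R * ‖F (i + 1) - F i‖ := by
    intro i
    rw [hP]
    show ‖R • ((F (i + 1)).re • e + (F (i + 1)).im • f) - R • ((F i).re • e + (F i).im • f)‖ = _
    have h1 : R • ((F (i + 1)).re • e + (F (i + 1)).im • f) - R • ((F i).re • e + (F i).im • f) =
        R • ((F (i + 1) - F i).re • e + (F (i + 1) - F i).im • f) := by
      rw [Complex.sub_re, Complex.sub_im]
      module
    rw [h1, norm_smul, Real.norm_of_nonneg hRp.le, spl_L he1 hf1 hef]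
  have hFlow : ∀ i, i ≤ N → p1 ≤ ‖F i‖ ∧ ‖F i‖ ≤ p2 := by
    intro i hi
    obtain ⟨h1, h2⟩ := hζlow i hi
    rw [hFn, hp1, hp2]
    exact ⟨Real.rpow_le_rpow_of_nonpos (by linarith) h2 (by linarith),
      Real.rpow_le_rpow_of_nonpos hc0p h1 (by linarith)⟩
  have hκN : κ / N ≤ 1 / N := by gcongr
  have hFd : ∀ i, i < N → ‖F (i + 1) - F i‖ ≤ s * (‖ζ i‖ - κ / N) ^ (-s - 1) * (κ / N) := by
    intro i hi
    have h1 := hζlow i hi.le
    have h2 := hζd i
    have h3 : ‖ζ (i + 1) - ζ i‖ < ‖ζ i‖ := by linarith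
    have h4 := spl_F hs0 hκ (hζa i hi.le) (hζa (i + 1) hi) h3
    rw [hF]
    show ‖ζ (i + 1) ^ ((-s : ℝ) : ℂ) - ζ i ^ ((-s : ℝ) : ℂ)‖ ≤ _
    refine h4.trans ?_
    have h5 : (‖ζ i‖ - ‖ζ (i + 1) - ζ i‖) ^ (-s - 1) ≤ (‖ζ i‖ - κ / N) ^ (-s - 1) :=
      Real.rpow_le_rpow_of_nonpos (by linarith) (by linarith) (by linarith)
    exact mul_le_mul (mul_le_mul_of_nonneg_left h5 hs0.le) h2 (norm_nonneg _)
      (mul_nonneg hs0.le (Real.rpow_nonneg (by linarith) _))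
  -- the lattice points
  refine ⟨fun i => spl_rnd (P i), ?_, ?_, ?_⟩
  · have h1 : P 0 = toE z := by
      rw [hP, hF, hζ]
      show R • (((1 + (((0 : ℕ) / N : ℝ) : ℂ) * (ζ1 - 1)) ^ ((-s : ℝ) : ℂ)).re • e +
        ((1 + (((0 : ℕ) / N : ℝ) : ℂ) * (ζ1 - 1)) ^ ((-s : ℝ) : ℂ)).im • f) = toE z
      have h2 : (1 + (((0 : ℕ) / N : ℝ) : ℂ) * (ζ1 - 1)) = 1 := by simp
      rw [h2, Complex.one_cpow, Complex.one_re, Complex.one_im, one_smul, zero_smul, add_zero, hze]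
    show spl_rnd (P 0) = z
    rw [h1, spl_fix]
  · have h1 : P N = toE v := by
      rw [hP, hF, hζ]
      show R • (((1 + ((N / N : ℝ) : ℂ) * (ζ1 - 1)) ^ ((-s : ℝ) : ℂ)).re • e +
        ((1 + ((N / N : ℝ) : ℂ) * (ζ1 - 1)) ^ ((-s : ℝ) : ℂ)).im • f) = toE v
      have h2 : (1 + ((N / N : ℝ) : ℂ) * (ζ1 - 1)) = ζ1 := by
        rw [div_self hN0.ne', Complex.ofReal_one]
        ring
      have h3 : (((nrm v / R * Real.cos φ : ℝ) : ℂ) +
          ((nrm v / R * Real.sin φ : ℝ) : ℂ) * Complex.I).re = nrm v / R * Real.cos φ := by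
        simp only [Complex.add_re, Complex.mul_re, Complex.ofReal_re, Complex.ofReal_im,
          Complex.I_re, Complex.I_im]
        ring
      have h4 : (((nrm v / R * Real.cos φ : ℝ) : ℂ) +
          ((nrm v / R * Real.sin φ : ℝ) : ℂ) * Complex.I).im = nrm v / R * Real.sin φ := by
        simp only [Complex.add_im, Complex.mul_im, Complex.ofReal_re, Complex.ofReal_im,
          Complex.I_re, Complex.I_im]
        ring
      rw [h2, hζ1, h3, h4, hvf, smul_add, smul_smul, smul_smul, smul_add, smul_smul, smul_smul]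
      congr 2
      · field_simp
      · field_simp
    show spl_rnd (P N) = v
    rw [h1, spl_fix]
  · intro i hi
    obtain ⟨hF1, hF2⟩ := hFlow i hi.le
    obtain ⟨hz1', hz2'⟩ := hζlow i hi.le
    have herr : ∀ j, ‖toE (spl_rnd (P j)) - P j‖ ≤ Real.sqrt d / 2 := fun j => spl_err (P j)
    have hx1 : R * ‖F i‖ - Real.sqrt d ≤ nrm (spl_rnd (P i)) := by
      have h1 := norm_sub_norm_le (P i) (toE (spl_rnd (P i)))
      rw [norm_sub_rev] at h1
      have h2 := herr i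
      rw [nrm_eq, ← hPn]
      linarith
    have hx2 : nrm (spl_rnd (P i)) ≤ R * ‖F i‖ + Real.sqrt d := by
      have h1 := norm_sub_norm_le (toE (spl_rnd (P i))) (P i)
      have h2 := herr i
      rw [nrm_eq, ← hPn]
      linarith
    have hx3 : nrm (spl_rnd (P (i + 1)) - spl_rnd (P i)) ≤ R * ‖F (i + 1) - F i‖ +
        2 * Real.sqrt d := by
      have h1 : toE (spl_rnd (P (i + 1)) - spl_rnd (P i)) =
          (toE (spl_rnd (P (i + 1))) - P (i + 1)) + (P (i + 1) - P i) -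
            (toE (spl_rnd (P i)) - P i) := by
        rw [toE_sub]
        abel
      rw [nrm_eq, h1, ← hPd]
      have h2 := norm_sub_le ((toE (spl_rnd (P (i + 1))) - P (i + 1)) + (P (i + 1) - P i))
        (toE (spl_rnd (P i)) - P i)
      have h3 := norm_add_le (toE (spl_rnd (P (i + 1))) - P (i + 1)) (P (i + 1) - P i)
      have h4 := herr i
      have h5 := herr (i + 1)
      linarith
    rw [← hR]
    have hRp1 : 2 * Real.sqrt d ≤ R * p1 := by
      have h1 : 2 * Real.sqrt d / p1 ≤ R := by linarith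
      rwa [div_le_iff₀ hp1p] at h1
    have hRF : R * p1 ≤ R * ‖F i‖ := mul_le_mul_of_nonneg_left hF1 hRp.le
    have hRF2 : R * ‖F i‖ ≤ R * p2 := mul_le_mul_of_nonneg_left hF2 hRp.le
    have hsdR : Real.sqrt d ≤ R := by
      have h1 : (1 : ℝ) ≤ N := by exact_mod_cast hNpos
      nlinarith
    have hsdN : 2 * Real.sqrt d ≤ 1 / N * R := by
      have h1 : 2 * N * Real.sqrt d ≤ R := by linarith
      rw [div_mul_eq_mul_div, one_mul, le_div_iff₀ hN0]
      linarith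
    have hFd1 := hFd i hi
    have hb1 : κ / N ≤ c0 / 2 := hκN.trans hN3
    refine ⟨?_, ?_, ?_, ?_⟩
    · show p1 / 2 * R ≤ nrm (spl_rnd (P i))
      linarith
    · show nrm (spl_rnd (P i)) ≤ (p2 + p3 + 2) * R
      nlinarith [mul_pos hp3p hRp]
    · show nrm (spl_rnd (P (i + 1)) - spl_rnd (P i)) ≤ (p2 + p3 + 2) / N * R
      have h1 : (‖ζ i‖ - κ / N) ^ (-s - 1) ≤ (c0 / 2) ^ (-s - 1) :=
        Real.rpow_le_rpow_of_nonpos (by positivity) (by linarith) (by linarith)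
      have h2 : ‖F (i + 1) - F i‖ ≤ p3 * (1 / N) := by
        rw [hp3]
        exact hFd1.trans (mul_le_mul (mul_le_mul_of_nonneg_left h1 hs0.le) hκN (by positivity)
          (by positivity))
      have h3 : R * ‖F (i + 1) - F i‖ ≤ R * (p3 * (1 / N)) := mul_le_mul_of_nonneg_left h2 hRp.le
      have h4 : (p2 + p3 + 2) / N * R = R * (p3 * (1 / N)) + 1 / N * R + (p2 + 1) / N * R := by ring
      have h5 : 0 ≤ (p2 + 1) / N * R := by positivity
      rw [h4]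
      linarith
    · show nrm (spl_rnd (P i)) ^ (-α) * nrm (spl_rnd (P (i + 1)) - spl_rnd (P i)) ≤ _
      have hbig := hR2 R hz2
      obtain ⟨A, hA⟩ : ∃ A : ℝ, A = (1 - Real.sqrt d / (R * p1)) ^ (-α) := ⟨_, rfl⟩
      have h1 : Real.sqrt d / (R * p1) ≤ 1 / 2 := by
        rw [div_le_div_iff₀ (by positivity) two_pos]
        linarith
      have h1' : 0 < 1 - Real.sqrt d / (R * p1) := by linarith
      have hA0 : 0 < A := by rw [hA]; positivity
      have hFpos : 0 < ‖F i‖ := hp1p.trans_le hF1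
      have h2 : R * ‖F i‖ * (1 - Real.sqrt d / (R * p1)) ≤ nrm (spl_rnd (P i)) := by
        refine le_trans ?_ hx1
        have h3 : Real.sqrt d ≤ R * ‖F i‖ * (Real.sqrt d / (R * p1)) := by
          have h4 : R * p1 * (Real.sqrt d / (R * p1)) = Real.sqrt d := by
            field_simp
          calc Real.sqrt d = R * p1 * (Real.sqrt d / (R * p1)) := h4.symm
            _ ≤ R * ‖F i‖ * (Real.sqrt d / (R * p1)) :=
              mul_le_mul_of_nonneg_right hRF (by positivity)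
        linarith
      have h3 : nrm (spl_rnd (P i)) ^ (-α) ≤ (R * ‖F i‖) ^ (-α) * A := by
        rw [hA, ← Real.mul_rpow (by positivity) h1'.le]
        exact Real.rpow_le_rpow_of_nonpos (by positivity) h2 (by linarith)
      have h4 : (R * ‖F i‖) ^ (-α) = R ^ (-α) * ‖F i‖ ^ (-α) :=
        Real.mul_rpow hRp.le (norm_nonneg _)
      have h5 : R ^ (-α) * R = R ^ (1 - α) := by
        rw [show (1 - α) = -α + 1 by ring, Real.rpow_add hRp, Real.rpow_one]
      have hNc : 1 / ((N : ℝ) * c0) ≤ 1 / 2 := by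
        rw [div_le_div_iff₀ (by positivity) two_pos]
        rw [div_le_iff₀ hc0p] at hN2
        linarith
      have h6 : ‖F i‖ ^ (-α) * ‖F (i + 1) - F i‖ ≤ (s * κ + t / 2) / N := by
        have g1 : ‖ζ i‖ * (1 - 1 / ((N : ℝ) * c0)) ≤ ‖ζ i‖ - κ / N := by
          have g2 : κ / N ≤ ‖ζ i‖ * (1 / ((N : ℝ) * c0)) := by
            have g3 : c0 * (1 / ((N : ℝ) * c0)) = 1 / N := by field_simp
            calc κ / N ≤ 1 / N := hκN
              _ = c0 * (1 / ((N : ℝ) * c0)) := g3.symm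
              _ ≤ ‖ζ i‖ * (1 / ((N : ℝ) * c0)) := mul_le_mul_of_nonneg_right hz1' (by positivity)
          linarith
        have hζp : 0 < ‖ζ i‖ := by linarith
        have g4 : (‖ζ i‖ - κ / N) ^ (-s - 1) ≤
            ‖ζ i‖ ^ (-s - 1) * (1 - 1 / ((N : ℝ) * c0)) ^ (-s - 1) := by
          rw [← Real.mul_rpow hζp.le (by linarith)]
          exact Real.rpow_le_rpow_of_nonpos (mul_pos hζp (by linarith)) g1 (by linarith)
        have g5 : ‖F i‖ ^ (-α) = ‖ζ i‖ ^ (s * α) := by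
          rw [hFn, ← Real.rpow_mul hζp.le]
          congr 1
          ring
        have g6 : ‖ζ i‖ ^ (s * α) * ‖ζ i‖ ^ (-s - 1) = 1 := by
          rw [← Real.rpow_add hζp]
          have : s * α + (-s - 1) = 0 := by linarith
          rw [this, Real.rpow_zero]
        have g7 : ‖F (i + 1) - F i‖ ≤ s * (‖ζ i‖ ^ (-s - 1) *
            (1 - 1 / ((N : ℝ) * c0)) ^ (-s - 1)) * (κ / N) :=
          hFd1.trans (mul_le_mul_of_nonneg_right (mul_le_mul_of_nonneg_left g4 hs0.le)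
            (by positivity))
        have g8 : ‖F i‖ ^ (-α) * ‖F (i + 1) - F i‖ ≤
            (s * κ * (1 - 1 / ((N : ℝ) * c0)) ^ (-s - 1)) / N := by
          rw [g5]
          refine (mul_le_mul_of_nonneg_left g7 (Real.rpow_nonneg hζp.le _)).trans (le_of_eq ?_)
          linear_combination (s * (1 - 1 / ((N : ℝ) * c0)) ^ (-s - 1) * (κ / N)) * g6
        refine g8.trans ?_
        gcongr
      have h7 : ‖F i‖ ^ (-α) ≤ p1 ^ (-α) :=
        Real.rpow_le_rpow_of_nonpos hp1p hF1 (by linarith)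
      have hRα : 0 < R ^ (1 - α) := by positivity
      have h8 : (R * ‖F i‖) ^ (-α) * (R * ‖F (i + 1) - F i‖ + 2 * Real.sqrt d) ≤
          R ^ (1 - α) * ((s * κ + t / 2) / N + 2 * Real.sqrt d * p1 ^ (-α) / R) := by
        have k1 : (R * ‖F i‖) ^ (-α) * (R * ‖F (i + 1) - F i‖ + 2 * Real.sqrt d) =
            R ^ (1 - α) * (‖F i‖ ^ (-α) * ‖F (i + 1) - F i‖ +
              2 * Real.sqrt d * ‖F i‖ ^ (-α) / R) := by
          rw [h4, ← h5]
          field_simp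
        rw [k1]
        refine mul_le_mul_of_nonneg_left (add_le_add h6 ?_) hRα.le
        gcongr
      have h9 : 0 ≤ nrm (spl_rnd (P (i + 1)) - spl_rnd (P i)) := nrm_nonneg _
      calc nrm (spl_rnd (P i)) ^ (-α) * nrm (spl_rnd (P (i + 1)) - spl_rnd (P i)) ≤
            ((R * ‖F i‖) ^ (-α) * A) * (R * ‖F (i + 1) - F i‖ + 2 * Real.sqrt d) :=
            mul_le_mul h3 hx3 h9 (by positivity)
        _ = A * ((R * ‖F i‖) ^ (-α) * (R * ‖F (i + 1) - F i‖ + 2 * Real.sqrt d)) := by ring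
        _ ≤ A * (R ^ (1 - α) * ((s * κ + t / 2) / N + 2 * Real.sqrt d * p1 ^ (-α) / R)) :=
            mul_le_mul_of_nonneg_left h8 hA0.le
        _ = (A * ((s * κ + t / 2) / N + 2 * Real.sqrt d * p1 ^ (-α) / R)) * R ^ (1 - α) := by ring
        _ ≤ (s * κ + t) / N * R ^ (1 - α) := by
            refine mul_le_mul_of_nonneg_right ?_ hRα.le
            rw [hA]
            exact hbig.le

end OneR
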