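import Pool.Agent.OneR.Sq
import Pool.Agent.OneR.Spl
import Pool.Agent.OneR.Nea

/-!
Problem MP_b9fb85_pr: everything within reach of the ray in the flat metric `|dx| / |x| ^ α`.
-/

set_option autoImplicit false

namespace OneR

open Finset ConeD ConeD.TRANSAux OneE Filter MeasureTheory

variable {d : ℕ}

-- BEGIN wk3
/-- `spl_pts` (OneR/Spl) with a small `t`, `hm_upS`, `leg_walkS` (its `ε` small, its `δ`), `N` large, `chain_walk`:
the sum of `(1 + ε) nrm (x i) ^ (-α) ((muS d + ε) nrm (x (i + 1) - x i) + ε' nrm (x i))` is at most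
`(1 + ε) ((muS d + ε) (κ / (α - 1) + t) + small) nrm z ^ (1 - α)`, and `κ < 1 / √d` -/
theorem near_walk (hd : 2 ≤ d) {α : ℝ} (hα : 1 < α) {κ : ℝ} (hκ0 : 0 < κ)
    (hκ : κ * Real.sqrt d < 1) :
    ∃ ε c R1 : ℝ, 0 < ε ∧ 0 < c ∧ ∀ (E : Edge d → ℝ) (R0 : ℝ), (∀ e, 0 ≤ E e) →
      CC (hm (d := d)) (eta d) E R0 → ∀ z v : V d, R1 ≤ nrm z → R0 ≤ c * nrm z →
      Near α κ z v → ∃ l : List (Step d), endp z l = v ∧ wt (tau α E) z l ≤
        (1 - ε) * (muS d / (Real.sqrt d * (α - 1))) * nrm z ^ (1 - α) := by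
  obtain ⟨a, C0, hh⟩ := hf_hm d
  have i0 : Fin d := ⟨0, by omega⟩
  have he0 : 0 < eta d := by
    unfold eta
    positivity
  have he1 : eta d ≤ 1 := by
    unfold eta
    rw [div_le_one (by positivity)]
    have h : (0 : ℝ) ≤ (d : ℝ) := Nat.cast_nonneg d
    linarith
  have hM : 0 < muS d := muS_pos i0
  have hd2 : (2 : ℝ) ≤ d := by exact_mod_cast hd
  have hsq : 1 ≤ Real.sqrt d := by
    rw [Real.one_le_sqrt]
    linarith
  have hA : 0 < α - 1 := by linarith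
  obtain ⟨M, hMd⟩ : ∃ M : ℝ, M = muS d := ⟨_, rfl⟩
  obtain ⟨sq, hsqd⟩ : ∃ sq : ℝ, sq = Real.sqrt d := ⟨_, rfl⟩
  rw [← hMd] at hM
  rw [← hsqd] at hsq hκ
  have hsq0 : 0 < sq := by linarith
  have hκ1 : κ < 1 := by nlinarith
  obtain ⟨k, hk⟩ : ∃ k : ℝ, k = κ / (α - 1) := ⟨_, rfl⟩
  have hk0 : 0 < k := hk ▸ div_pos hκ0 hA
  obtain ⟨B, hB⟩ : ∃ B : ℝ, B = M * k + 2 * M + 2 * k + 4 := ⟨_, rfl⟩
  have hB0 : 0 < B := by
    rw [hB]
    positivity
  obtain ⟨g, hg⟩ : ∃ g : ℝ, g = (1 - (1 - κ * sq) / 2) * (M / (sq * (α - 1))) - M * k :=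
    ⟨_, rfl⟩
  have hg0 : 0 < g := by
    have e1 : g = (1 - κ * sq) / 2 * (M / (sq * (α - 1))) := by
      rw [hg, hk]
      field_simp
      ring
    rw [e1]
    have e2 : 0 < 1 - κ * sq := by linarith
    positivity
  obtain ⟨t, ht⟩ : ∃ t : ℝ, t = min 1 (g / B) := ⟨_, rfl⟩
  have ht0 : 0 < t := by
    rw [ht]
    exact lt_min one_pos (div_pos hg0 hB0)
  have ht1 : t ≤ 1 := ht ▸ min_le_left _ _
  have htB : t * B ≤ g := by
    have e1 : t ≤ g / B := ht ▸ min_le_right _ _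
    exact (le_div_iff₀ hB0).1 e1
  have hF : (1 + t) * ((M + t) * (k + t) + t) ≤
      (1 - (1 - κ * sq) / 2) * (M / (sq * (α - 1))) := by
    have e1 : (1 + t) * ((M + t) * (k + t) + t) ≤ M * k + t * B := by
      have e2 : (M + t) * (k + t) + t ≤ M * k + t * (M + k + 2) := by nlinarith
      have e3 : 0 ≤ M * k := by positivity
      have e4 : (1 + t) * ((M + t) * (k + t) + t) ≤ (1 + t) * (M * k + t * (M + k + 2)) :=
        mul_le_mul_of_nonneg_left e2 (by linarith)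
      have e5 : t * (t * (M + k + 2)) ≤ t * (M + k + 2) := by
        have : 0 ≤ t * (M + k + 2) := by positivity
        nlinarith
      rw [hB]
      linarith
    linarith
  obtain ⟨C, hC0, hC⟩ := hm_upS i0 ht0
  rw [← hMd] at hC
  obtain ⟨δ', hδ0, hδ1, hleg⟩ := leg_walkS hh he0 he1 hα ht0
  obtain ⟨c1, c2, hc1, hc2, N0, hN0, hpts⟩ := spl_pts hd hα hκ0.le hκ1 ht0
  obtain ⟨N1, hN1⟩ := exists_nat_gt (c2 / (c1 * δ'))
  obtain ⟨N, hN⟩ : ∃ N : ℕ, N = max N0 N1 := ⟨_, rfl⟩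
  have hNp : 0 < N := by
    rw [hN]
    exact lt_of_lt_of_le hN0 (le_max_left _ _)
  have hNr : (0 : ℝ) < N := by exact_mod_cast hNp
  have hNδ : c2 / N ≤ δ' * c1 := by
    have e1 : (N1 : ℝ) ≤ N := by
      rw [hN]
      exact_mod_cast le_max_right _ _
    have e2 : c2 / (c1 * δ') ≤ N := hN1.le.trans e1
    rw [div_le_iff₀ (mul_pos hc1 hδ0)] at e2
    rw [div_le_iff₀ hNr]
    linarith
  obtain ⟨Rp, hRp⟩ := hpts N (hN ▸ le_max_left _ _)
  have hcp : 0 < c1 ^ (α - 1) := Real.rpow_pos_of_pos hc1 _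
  obtain ⟨Rl, hRl⟩ := hleg (M + t) C (by linarith) hC0 hC (t * c1 ^ (α - 1) / N) (by positivity)
  refine ⟨(1 - κ * sq) / 2, c1, max 1 (max Rp (Rl / c1)), by linarith, hc1, ?_⟩
  intro E R0 hE hCC z v hr hR0 hnear
  have g1 : 1 ≤ nrm z := (le_max_left _ _).trans hr
  have g2 := (le_max_right _ _).trans hr
  have g3 : Rp ≤ nrm z := (le_max_left _ _).trans g2
  have g4 : Rl / c1 ≤ nrm z := (le_max_right _ _).trans g2
  rw [div_le_iff₀ hc1] at g4
  have hz : 0 < nrm z := by linarith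
  obtain ⟨x, hx0, hxN, hx⟩ := hRp z v g3 hnear.1 hnear.2.1 hnear.2.2
  rw [← hk] at hx
  obtain ⟨r, hrd⟩ : ∃ r : ℝ, r = nrm z := ⟨_, rfl⟩
  rw [← hrd] at g1 g4 hz hx hR0
  obtain ⟨w, hw⟩ : ∃ w : ℝ, w = (1 + t) * ((M + t) * (k + t) + t) / N * r ^ (1 - α) :=
    ⟨_, rfl⟩
  have hlegs : ∀ i < N, ∃ l : List (Step d), endp (x i) l = x (i + 1) ∧
      wt (tau α E) (x i) l ≤ w := by
    intro i hi
    obtain ⟨p1, p2, p3, p4⟩ := hx i hi
    have p0 : 0 < nrm (x i) := lt_of_lt_of_le (mul_pos hc1 hz) p1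
    obtain ⟨l, hl, hl2⟩ := hRl E R0 hE hCC (x i) (x (i + 1)) (by linarith) (by linarith) (by
      refine p3.trans ?_
      have e1 : c2 / N * r ≤ δ' * c1 * r := mul_le_mul_of_nonneg_right hNδ hz.le
      have e2 : δ' * (c1 * r) ≤ δ' * nrm (x i) := mul_le_mul_of_nonneg_left p1 hδ0.le
      linarith)
    refine ⟨l, hl, hl2.trans ?_⟩
    have q1 : nrm (x i) ^ (-α) * nrm (x i) = nrm (x i) ^ (1 - α) := by
      rw [show (1 : ℝ) - α = -α + 1 by ring, Real.rpow_add p0, Real.rpow_one]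
    have q2 : nrm (x i) ^ (1 - α) ≤ c1 ^ (1 - α) * r ^ (1 - α) := by
      rw [← Real.mul_rpow hc1.le hz.le]
      exact Real.rpow_le_rpow_of_nonpos (mul_pos hc1 hz) p1 (by linarith)
    have q3 : c1 ^ (α - 1) * c1 ^ (1 - α) = 1 := by
      rw [← Real.rpow_add hc1, show (α - 1 + (1 - α) : ℝ) = 0 by ring, Real.rpow_zero]
    have q4 : t * c1 ^ (α - 1) / N * nrm (x i) ^ (1 - α) ≤ t / N * r ^ (1 - α) := by
      have e1 := mul_le_mul_of_nonneg_left q2
        (show 0 ≤ t * c1 ^ (α - 1) / N by positivity)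
      have e2 : t * c1 ^ (α - 1) / N * (c1 ^ (1 - α) * r ^ (1 - α)) =
          t / N * r ^ (1 - α) * (c1 ^ (α - 1) * c1 ^ (1 - α)) := by ring
      rw [e2, q3, mul_one] at e1
      exact e1
    have q5 : (1 + t) * nrm (x i) ^ (-α) *
        ((M + t) * nrm (x (i + 1) - x i) + t * c1 ^ (α - 1) / N * nrm (x i)) =
        (1 + t) * ((M + t) * (nrm (x i) ^ (-α) * nrm (x (i + 1) - x i)) +
          t * c1 ^ (α - 1) / N * (nrm (x i) ^ (-α) * nrm (x i))) := by ring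
    rw [q5, q1, hw]
    have q6 : (M + t) * (nrm (x i) ^ (-α) * nrm (x (i + 1) - x i)) ≤
        (M + t) * ((k + t) / N * r ^ (1 - α)) :=
      mul_le_mul_of_nonneg_left p4 (by linarith)
    have q7 : (1 + t) * ((M + t) * (k + t) + t) / N * r ^ (1 - α) =
        (1 + t) * ((M + t) * ((k + t) / N * r ^ (1 - α)) + t / N * r ^ (1 - α)) := by ring
    rw [q7]
    exact mul_le_mul_of_nonneg_left (add_le_add q6 q4) (by linarith)
  obtain ⟨l, hl, hl2⟩ := chain_walk (w := fun _ => w) hlegs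
  rw [hx0] at hl hl2
  rw [hxN] at hl
  refine ⟨l, hl, hl2.trans ?_⟩
  rw [Finset.sum_const, Finset.card_range, nsmul_eq_mul, hw, ← hsqd, ← hMd, ← hrd]
  have e1 : (N : ℝ) * ((1 + t) * ((M + t) * (k + t) + t) / N * r ^ (1 - α)) =
      (1 + t) * ((M + t) * (k + t) + t) * r ^ (1 - α) := by
    field_simp
  rw [e1]
  exact mul_le_mul_of_nonneg_right hF (Real.rpow_pos_of_pos hz _).le
-- END wk3

/-- everything within the distance `(1 - 1 / (j + 2)) / √d` of a far ray site is in the cluster -/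
def Reach (α : ℝ) (j : ℕ) (s : ℕ → Edge d) : Prop :=
  ∃ R : ℕ, ∀ z v : V d, (Desc s z).Infinite → (R : ℝ) ≤ nrm z →
    Near α ((1 - 1 / ((j : ℝ) + 2)) / Real.sqrt d) z v → v ∈ Reached s

-- BEGIN mr3
private theorem mr3_desc (z : V d) :
    MeasurableSet {s : ℕ → Edge d | (Desc s z).Infinite} := by
  refine UNIQAux.meas_inf (fun s : ℕ → Edge d => Desc s z) fun v => ?_
  exact measurableSet_rtg (fun (s : ℕ → Edge d) x y => Infects s x y)
    (fun x y => measurableSet_infects x y) z v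

private theorem mr3_reached (v : V d) :
    MeasurableSet {s : ℕ → Edge d | v ∈ Reached s} := by
  have h : {s : ℕ → Edge d | v ∈ Reached s} = ⋃ n, {s | v ∈ vs (lst s n)} := by
    ext s
    simp only [Reached, Set.mem_ofPred_eq, Set.mem_iUnion]
  rw [h]
  exact MeasurableSet.iUnion fun n => measurableSet_vs v n

/-- as `measurableSet_arcFatS` (OneR/Sq) -/
theorem measurableSet_reach (α : ℝ) (j : ℕ) :
    MeasurableSet {s : ℕ → Edge d | Reach α j s} := by
  have hset : {s : ℕ → Edge d | Reach α j s} = ⋃ R : ℕ, ⋂ z : V d, ⋂ v : V d,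
      ({s : ℕ → Edge d | (Desc s z).Infinite}ᶜ ∪
        ({_s : ℕ → Edge d | ¬ (R : ℝ) ≤ nrm z} ∪
          ({_s : ℕ → Edge d | ¬ Near α ((1 - 1 / ((j : ℝ) + 2)) / Real.sqrt d) z v} ∪
            {s : ℕ → Edge d | v ∈ Reached s}))) := by
    ext s
    simp only [Reach, Set.mem_ofPred_eq, Set.mem_iUnion, Set.mem_iInter, Set.mem_union,
      Set.mem_compl_iff]
    refine exists_congr fun R => forall_congr' fun z => forall_congr' fun v => ?_
    rw [← imp_iff_not_or, ← imp_iff_not_or, ← imp_iff_not_or]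
  rw [hset]
  exact MeasurableSet.iUnion fun R => MeasurableSet.iInter fun z => MeasurableSet.iInter fun v =>
    (mr3_desc z).compl.union ((MeasurableSet.const _).union
      ((MeasurableSet.const _).union (mr3_reached v)))
-- END mr3

-- BEGIN ae3
/-- as `arcFatS_ae` (OneR/Sq), with `near_walk` and `ray_budgetS` -/
theorem reach_ae (hd : 2 ≤ d) {α : ℝ} (hα : 1 < α) (j : ℕ) :
    ∀ᵐ E ∂(PE d), ∀ s : ℕ → Edge d, (∀ n, G (tau α E) (lst s n)) → Reach α j s := by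
  obtain ⟨a, C, hh⟩ := hf_hm d
  obtain ⟨i0⟩ : Nonempty (Fin d) := ⟨⟨0, by omega⟩⟩
  have he0 : 0 < eta d := by
    unfold eta
    positivity
  have he1 : eta d ≤ 1 := by
    unfold eta
    rw [div_le_one (by positivity)]
    have h : (0 : ℝ) ≤ (d : ℝ) := Nat.cast_nonneg d
    linarith
  obtain ⟨K, R1, hK, hub⟩ := ub_S hh he0 he1 hα
  have hj : (0 : ℝ) ≤ (j : ℝ) := Nat.cast_nonneg j
  have hj1 : 1 / ((j : ℝ) + 2) < 1 := by
    rw [div_lt_one (by positivity)]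
    linarith
  have hj0 : 0 < 1 / ((j : ℝ) + 2) := by positivity
  have hd0 : (0 : ℝ) < (d : ℝ) := by
    have : 0 < d := by omega
    exact_mod_cast this
  have hsd : 0 < Real.sqrt d := Real.sqrt_pos.2 hd0
  obtain ⟨κ, hκd⟩ : ∃ κ : ℝ, κ = (1 - 1 / ((j : ℝ) + 2)) / Real.sqrt d := ⟨_, rfl⟩
  have hκ0 : 0 < κ := by
    rw [hκd]
    exact div_pos (by linarith) hsd
  have hκ1 : κ * Real.sqrt d < 1 := by
    rw [hκd, div_mul_cancel₀ _ hsd.ne']
    linarith
  obtain ⟨B, hBdef⟩ : ∃ B : ℝ, B = muS d / (Real.sqrt d * (α - 1)) := ⟨_, rfl⟩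
  have hB : 0 < B := by
    rw [hBdef]
    exact div_pos (muS_pos i0) (mul_pos hsd (by linarith))
  obtain ⟨ε, c, R2, hε, hc, haw⟩ := near_walk hd hα hκ0 hκ1
  filter_upwards [conc d, ae_pos, explodes_ae i0 hα, via_or_avoid (d := d) α]
    with E hconc hpos hex hva s hG
  obtain ⟨R0, hCC⟩ := hconc
  have hτ : ∀ f, 0 < tau α E f := fun f =>
    div_pos (hpos f) (Real.rpow_pos_of_pos (mid_pos f) α)
  have hE : ∀ e, 0 ≤ E e := fun e => (hpos e).le
  have hdes : ∀ (m : ℕ) (z : V d), z ∈ ends (s m) → z ∉ vs (lst s m) →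
      (Desc s z).Finite ∨ (Reached s \ Desc s z).Finite :=
    fun m z h1 h2 => desc_or i0 hτ hex hG (hva hex) h1 h2
  obtain ⟨γ, st, h0, h1, h2, h3⟩ := exists_ray hG hdes
  obtain ⟨W, w1, w2, w3, w4, w5⟩ := ray_times i0 hτ hex hG h0 h1 h2
  have hray : InfRay (hm (d := d)) (eta d) α K E γ st W := by
    refine ⟨h1, w1, w2, w3, w5, ?_⟩
    filter_upwards [w5.eventually_ge_atTop (max R1 R0)] with n hn
    exact hub E R0 hE hCC (γ n) (W n) ((le_max_left _ _).trans hn) ((le_max_right _ _).trans hn)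
      (w4 n)
  have hWS : W 0 ≤ S (tau α E) 0 := by
    have h4 := w4 0
    rwa [h0] at h4
  obtain ⟨m0, hm0⟩ := eventually_atTop.1
    (ray_budgetS i0 hh hα hK hE hCC he0 he1 hray (ε := ε / 2) (by linarith))
  rw [← hBdef] at hm0 haw
  have hsum : ∀ m, m < m0 → nrm (γ m) ≤ ∑ i ∈ range m0, nrm (γ i) := fun m hm =>
    Finset.single_le_sum (f := fun i => nrm (γ i)) (fun j _ => nrm_nonneg _) (Finset.mem_range.2 hm)
  have hidx : ∀ m, 1 + ∑ i ∈ range m0, nrm (γ i) ≤ nrm (γ m) → m0 ≤ m := by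
    intro m hm
    by_contra h4
    have h5 := hsum m (not_le.1 h4)
    linarith
  refine ⟨⌈max (1 + ∑ i ∈ range m0, nrm (γ i)) (max (R0 / c) (max R2 1))⌉₊,
    fun z v hz hRz hnear => ?_⟩
  obtain ⟨m, rfl⟩ := h3 z hz
  have hR := (Nat.le_ceil _).trans hRz
  have g1 := (le_max_left _ _).trans hR
  have g2 := (le_max_right _ _).trans hR
  have g3 : R0 / c ≤ nrm (γ m) := (le_max_left _ _).trans g2
  have g4 := (le_max_right _ _).trans g2
  have g5 : R2 ≤ nrm (γ m) := (le_max_left _ _).trans g4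
  have g6 : (1 : ℝ) ≤ nrm (γ m) := (le_max_right _ _).trans g4
  have g7 : R0 ≤ c * nrm (γ m) := by
    rw [div_le_iff₀ hc] at g3
    linarith
  rw [← hκd] at hnear
  obtain ⟨l, hl, hwt⟩ := haw E R0 hE hCC (γ m) v g5 g7 hnear
  have hlt : wt (tau α E) (γ m) l < W m := by
    have h7 := hm0 m (hidx m g1)
    have hp : 0 < nrm (γ m) := by linarith
    have h8 : 0 < nrm (γ m) ^ (1 - α) := Real.rpow_pos_of_pos hp _
    have h9 : nrm (γ m) ^ (1 - α) * nrm (γ m) ^ (α - 1) = 1 := by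
      rw [← Real.rpow_add hp, show (1 - α + (α - 1) : ℝ) = 0 by ring, Real.rpow_zero]
    have h10 : (1 - ε / 2) * B * nrm (γ m) ^ (1 - α) ≤ W m := by
      calc (1 - ε / 2) * B * nrm (γ m) ^ (1 - α)
          ≤ (nrm (γ m) ^ (α - 1) * W m) * nrm (γ m) ^ (1 - α) :=
            mul_le_mul_of_nonneg_right h7 h8.le
        _ = (nrm (γ m) ^ (1 - α) * nrm (γ m) ^ (α - 1)) * W m := by ring
        _ = W m := by rw [h9, one_mul]
    have h11 : 0 < ε * B * nrm (γ m) ^ (1 - α) := mul_pos (mul_pos hε hB) h8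
    have h12 : (1 - ε / 2) * B * nrm (γ m) ^ (1 - α) =
        (1 - ε) * B * nrm (γ m) ^ (1 - α) + ε * B * nrm (γ m) ^ (1 - α) / 2 := by ring
    linarith
  have h13 := ray_reach hτ hG h0 h1 w1 hWS hlt
  rwa [hl] at h13
-- END ae3

-- BEGIN nea
/-- `q = cos ψ`, `ψ = (1 - ε) arcsin (1 / √d)`, `L = q ^ (-1 / (α - 1))`: if `nrm v = L nrm z` and the
angle times `α - 1` is at most `ψ`, the left side of `Near` is at most `sin ψ ^ 2 < 1 / d`; then
continuity in `nrm v / nrm z`; `j` with `sin ψ < (1 - 1 / (j + 2)) / √d` -/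
theorem near_of (hd : 2 ≤ d) {α : ℝ} (hα : 1 < α) {ε : ℝ} (hε : 0 < ε) (hε1 : ε < 1) :
    ∃ (L δ : ℝ) (j : ℕ), 1 ≤ L ∧ 0 < δ ∧ ∀ z v : V d, 0 < nrm z →
      |nrm v - L * nrm z| ≤ δ * nrm z →
      Real.arccos (ip z v / (nrm z * nrm v)) * (α - 1) ≤ (1 - ε) * Real.arcsin (1 / Real.sqrt d) →
      Near α ((1 - 1 / ((j : ℝ) + 2)) / Real.sqrt d) z v := by
  have hd0 : (2 : ℝ) ≤ d := by exact_mod_cast hd
  have hs : 0 < Real.sqrt d := Real.sqrt_pos.2 (by linarith)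
  have hs1 : 1 < Real.sqrt d := by
    rw [Real.lt_sqrt (by norm_num)]
    linarith
  have hi0 : 0 < 1 / Real.sqrt d := by positivity
  have hi1 : 1 / Real.sqrt d < 1 := by
    rw [div_lt_one hs]
    exact hs1
  obtain ⟨A, hA⟩ : ∃ A, A = Real.arcsin (1 / Real.sqrt d) := ⟨_, rfl⟩
  have hA0 : 0 < A := by
    rw [hA]
    exact Real.arcsin_pos.2 hi0
  have hA1 : A < Real.pi / 2 := by
    rw [hA]
    exact Real.arcsin_lt_pi_div_two.2 hi1
  have hsA : Real.sin A = 1 / Real.sqrt d := by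
    rw [hA]
    exact Real.sin_arcsin (by linarith) hi1.le
  have hpi := Real.pi_pos
  obtain ⟨ψ, hψ⟩ : ∃ ψ, ψ = (1 - ε) * A := ⟨_, rfl⟩
  have hψ0 : 0 < ψ := by
    rw [hψ]
    exact mul_pos (by linarith) hA0
  have hψ1 : ψ < A := by
    rw [hψ]
    nlinarith
  obtain ⟨q, hq⟩ : ∃ q, q = Real.cos ψ := ⟨_, rfl⟩
  have hq0 : 0 < q := by
    rw [hq]
    exact Real.cos_pos_of_mem_Ioo ⟨by linarith, by linarith⟩
  have hq1 : q ≤ 1 := by
    rw [hq]
    exact Real.cos_le_one _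
  have hsψ : Real.sin ψ < 1 / Real.sqrt d := by
    rw [← hsA]
    exact Real.sin_lt_sin_of_lt_of_le_pi_div_two (by linarith) hA1.le hψ1
  have hsψ0 : 0 ≤ Real.sin ψ := Real.sin_nonneg_of_nonneg_of_le_pi hψ0.le (by linarith)
  obtain ⟨j, hj⟩ := exists_nat_one_div_lt (show (0 : ℝ) < 1 - Real.sqrt d * Real.sin ψ by
    have h1 := mul_lt_mul_of_pos_left hsψ hs
    rw [mul_one_div, div_self hs.ne'] at h1
    linarith)
  have hκ : Real.sin ψ < (1 - 1 / ((j : ℝ) + 2)) / Real.sqrt d := by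
    rw [lt_div_iff₀ hs]
    have h1 : 1 / ((j : ℝ) + 2) ≤ 1 / ((j : ℝ) + 1) :=
      one_div_le_one_div_of_le (by positivity) (by linarith)
    nlinarith
  obtain ⟨κ, hκe⟩ : ∃ κ, κ = (1 - 1 / ((j : ℝ) + 2)) / Real.sqrt d := ⟨_, rfl⟩
  rw [← hκe] at hκ
  have hκ2 : Real.sin ψ ^ 2 < κ ^ 2 := pow_lt_pow_left₀ hκ hsψ0 two_ne_zero
  obtain ⟨L, hL⟩ : ∃ L, L = q ^ (-(1 / (α - 1))) := ⟨_, rfl⟩
  have hα1 : 0 < α - 1 := by linarith
  have hL1 : 1 ≤ L := by
    rw [hL]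
    refine Real.one_le_rpow_of_pos_of_le_one_of_nonpos hq0 hq1 ?_
    have : 0 < 1 / (α - 1) := by positivity
    linarith
  have hL0 : 0 < L := by linarith
  have hLq : L ^ (1 - α) = q := by
    rw [hL, ← Real.rpow_mul hq0.le]
    have h1 : -(1 / (α - 1)) * (1 - α) = 1 := by
      field_simp
      ring
    rw [h1, Real.rpow_one]
  have hLq2 : L ^ (2 * (1 - α)) = q ^ 2 := by
    rw [mul_comm, Real.rpow_mul hL0.le, hLq]
    norm_num
  have hcont : ContinuousAt (fun r : ℝ => 1 + r ^ (2 * (1 - α)) - 2 * r ^ (1 - α) * q) L :=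
    (continuousAt_const.add (Real.continuousAt_rpow_const L _ (Or.inl hL0.ne'))).sub
      ((continuousAt_const.mul (Real.continuousAt_rpow_const L _ (Or.inl hL0.ne'))).mul
        continuousAt_const)
  have hval : 1 + L ^ (2 * (1 - α)) - 2 * L ^ (1 - α) * q < κ ^ 2 := by
    rw [hLq2, hLq]
    have h1 := Real.sin_sq_add_cos_sq ψ
    rw [← hq] at h1
    nlinarith
  obtain ⟨η, hη, H⟩ := Metric.eventually_nhds_iff.1 (hcont.eventually (gt_mem_nhds hval))
  refine ⟨L, min (η / 2) (1 / 2), j, hL1, lt_min (by linarith) (by norm_num),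
    fun z v hz hv hang => ?_⟩
  rw [← hκe]
  have hvL : |nrm v / nrm z - L| ≤ min (η / 2) (1 / 2) := by
    have e : nrm v / nrm z - L = (nrm v - L * nrm z) / nrm z := by
      field_simp
    rw [e, abs_div, abs_of_pos hz, div_le_iff₀ hz]
    exact hv
  have hr0 : 0 < nrm v / nrm z := by
    have h1 := (abs_le.1 hvL).1
    have h2 := min_le_right (η / 2) (1 / 2 : ℝ)
    linarith
  have hv0 : 0 < nrm v := by
    have h1 := mul_pos hr0 hz
    rwa [div_mul_cancel₀ _ hz.ne'] at h1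
  have hang' : Real.arccos (ip z v / (nrm z * nrm v)) * (α - 1) ≤ ψ := by
    rw [hψ, hA]
    exact hang
  have ha0 : 0 ≤ Real.arccos (ip z v / (nrm z * nrm v)) * (α - 1) :=
    mul_nonneg (Real.arccos_nonneg _) hα1.le
  refine ⟨hv0, by linarith, ?_⟩
  have hcos : q ≤ Real.cos (Real.arccos (ip z v / (nrm z * nrm v)) * (α - 1)) := by
    rw [hq]
    exact Real.cos_le_cos_of_nonneg_of_le_pi ha0 (by linarith) hang'
  have hH := H (show dist (nrm v / nrm z) L < η by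
    rw [Real.dist_eq]
    exact lt_of_le_of_lt (hvL.trans (min_le_left _ _)) (by linarith))
  have hx : 0 ≤ (nrm v / nrm z) ^ (1 - α) := Real.rpow_nonneg hr0.le _
  have hm := mul_le_mul_of_nonneg_left hcos hx
  nlinarith
-- END nea

/-- the consequence: around the ray site `z` all sites `v` of norm about `L nrm z` in the cap -/
def Cap (α ε L δ : ℝ) (s : ℕ → Edge d) : Prop :=
  ∃ R : ℝ, ∀ z v : V d, (Desc s z).Infinite → R ≤ nrm z → |nrm v - L * nrm z| ≤ δ * nrm z →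
    Real.arccos (ip z v / (nrm z * nrm v)) * (α - 1) ≤ (1 - ε) * Real.arcsin (1 / Real.sqrt d) →
    v ∈ Reached s

-- BEGIN cap
/-- `near_of` -/
theorem cap_of (hd : 2 ≤ d) {α : ℝ} (hα : 1 < α) {s : ℕ → Edge d} (hf : ∀ j, Reach α j s) {ε : ℝ}
    (hε : 0 < ε) : ∃ L δ : ℝ, 1 ≤ L ∧ 0 < δ ∧ Cap α ε L δ s := by
  have h0 : 0 < min ε (1 / 2) := lt_min hε (by norm_num)
  have h1 : min ε (1 / 2) < 1 := lt_of_le_of_lt (min_le_right _ _) (by norm_num)
  obtain ⟨L, δ, j, hL, hδ, h⟩ := near_of hd hα h0 h1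
  obtain ⟨R, hR⟩ := hf j
  refine ⟨L, δ, hL, hδ, max (R : ℝ) 1, fun z v hz hz1 hv ha => ?_⟩
  refine hR z v hz ((le_max_left _ _).trans hz1)
    (h z v (lt_of_lt_of_le one_pos ((le_max_right _ _).trans hz1)) hv (ha.trans ?_))
  exact mul_le_mul_of_nonneg_right (by linarith [min_le_left ε (1 / 2 : ℝ)])
    (Real.arcsin_nonneg.2 (by positivity))
-- END cap

-- BEGIN al3
/-- as `arc_allS` (OneR/Sq): a ray site `z` with `nrm v / L ≤ nrm z ≤ nrm v / L + 3` (`AllRad`) -/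
theorem reach_all (hd : 2 ≤ d) {s : ℕ → Edge d} {α : ℝ} (hα : 1 < α) (hf : ∀ j, Reach α j s)
    (hr : AllRad s) (h : Real.pi * (α - 1) < Real.arcsin (1 / Real.sqrt d)) :
    ∃ R : ℝ, ∀ v : V d, R ≤ nrm v → v ∈ Reached s := by
  obtain ⟨A, hA⟩ : ∃ A : ℝ, A = Real.arcsin (1 / Real.sqrt d) := ⟨_, rfl⟩
  rw [← hA] at h
  have hα1 : 0 < α - 1 := by linarith
  have hA0 : 0 < A := lt_trans (mul_pos Real.pi_pos hα1) h
  obtain ⟨ε, hεd⟩ : ∃ ε : ℝ, ε = 1 - Real.pi * (α - 1) / A := ⟨_, rfl⟩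
  have hε : 0 < ε := by
    rw [hεd, sub_pos, div_lt_one hA0]
    exact h
  have hεA : (1 - ε) * A = Real.pi * (α - 1) := by
    rw [hεd, sub_sub_cancel, div_mul_cancel₀ _ hA0.ne']
  obtain ⟨L, δ, hL, hδ, R, hR⟩ := cap_of hd hα hf hε
  rw [← hA, hεA] at hR
  have hL0 : 0 < L := by linarith
  refine ⟨L * max R (3 * L / δ), fun v hv => ?_⟩
  have hv1 : max R (3 * L / δ) ≤ nrm v / L := by
    rw [le_div_iff₀ hL0, mul_comm]
    exact hv
  obtain ⟨z, hz, hz1, hz2⟩ := hr ⌈nrm v / L⌉₊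
  have h1 : nrm v / L ≤ nrm z := (Nat.le_ceil _).trans hz1
  have h2 : nrm z ≤ nrm v / L + 3 := by
    have := Nat.ceil_lt_add_one (div_nonneg (nrm_nonneg v) hL0.le)
    linarith
  have h3 : 3 * L ≤ δ * nrm z := by
    have h4 : 3 * L / δ ≤ nrm z := ((le_max_right _ _).trans hv1).trans h1
    rw [div_le_iff₀ hδ] at h4
    linarith
  have h5 : nrm v ≤ L * nrm z := by
    rw [div_le_iff₀ hL0] at h1
    linarith
  have h6 : L * nrm z ≤ nrm v + 3 * L := by
    have h7 := mul_le_mul_of_nonneg_left h2 hL0.le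
    rw [mul_add, mul_div_cancel₀ _ hL0.ne'] at h7
    linarith
  refine hR z v hz (((le_max_left _ _).trans hv1).trans h1) ?_ ?_
  · rw [abs_le]
    constructor <;> linarith
  · exact mul_le_mul_of_nonneg_right (Real.arccos_le_pi _) hα1.le
-- END al3

-- BEGIN cn3
private theorem cn3_ip (z v : V d) : ip z v = inner ℝ (toE v) (toE z) := by
  unfold ip toE
  rw [PiLp.inner_apply]
  refine Finset.sum_congr rfl fun j _ => ?_
  simp

private theorem cn3_close {z v : V d} {u : EuclideanSpace ℝ (Fin d)} (hz : 0 < nrm z)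
    (hv : 0 < nrm v) {ε : ℝ} (h : ‖toE z - nrm z • u‖ ≤ ε * nrm z) :
    |ip z v / (nrm z * nrm v) - inner ℝ (toE v) u / nrm v| ≤ ε := by
  have e : ip z v / (nrm z * nrm v) - inner ℝ (toE v) u / nrm v =
      inner ℝ (toE v) (toE z - nrm z • u) / (nrm z * nrm v) := by
    rw [inner_sub_right, inner_smul_right, ← cn3_ip]
    field_simp
  rw [e, abs_div, abs_of_pos (mul_pos hz hv), div_le_iff₀ (mul_pos hz hv)]
  refine (abs_real_inner_le_norm _ _).trans ?_
  rw [← nrm_eq]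
  have h2 := mul_le_mul_of_nonneg_left h hv.le
  linarith [mul_comm (nrm v) (ε * nrm z), mul_assoc ε (nrm z) (nrm v)]

/-- as `arc_coneS` (OneR/Sq), with `Cap` and ray sites of norm about `nrm v / L` -/
theorem reach_cone (hd : 2 ≤ d) {s : ℕ → Edge d} {α : ℝ} (hα : 1 < α) (hf : ∀ j, Reach α j s)
    (hr : AllRad s) {u : EuclideanSpace ℝ (Fin d)} (hu : ‖u‖ = 1)
    (hc : ∀ ε : ℝ, 0 < ε → ∃ R : ℝ, ∀ z : V d, (Desc s z).Infinite → R ≤ nrm z →
      ‖toE z - nrm z • u‖ ≤ ε * nrm z) {ε : ℝ} (hε : 0 < ε) :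
    ∃ R : ℝ, ∀ v : V d, R ≤ nrm v → Real.arccos (inner ℝ (toE v) u / nrm v) * (α - 1) ≤
      (1 - ε) * Real.arcsin (1 / Real.sqrt d) → v ∈ Reached s := by
  have hd0 : (0 : ℝ) < d := by
    have : 0 < d := by omega
    exact_mod_cast this
  obtain ⟨B, hB⟩ : ∃ B : ℝ, B = Real.arcsin (1 / Real.sqrt d) := ⟨_, rfl⟩
  have hB0 : 0 < B := by
    rw [hB]
    exact Real.arcsin_pos.mpr (div_pos one_pos (Real.sqrt_pos.mpr hd0))
  have huc : UniformContinuousOn Real.arccos (Set.Icc (-1) 1) :=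
    isCompact_Icc.uniformContinuousOn_of_continuous Real.continuous_arccos.continuousOn
  rw [Metric.uniformContinuousOn_iff] at huc
  have hP : 0 ≤ α - 1 := by linarith
  have hα0 : 0 < α := by linarith
  obtain ⟨ε₂, hε₂, huc⟩ := huc (ε * B / (2 * α)) (by positivity)
  obtain ⟨Rc, hRc⟩ := hc (ε₂ / 2) (half_pos hε₂)
  obtain ⟨L, δ, hL, hδ, RF, hRF⟩ := cap_of hd hα hf (half_pos hε)
  rw [← hB] at hRF ⊢
  have hL0 : 0 < L := by linarith
  refine ⟨L * max 1 (max RF (max Rc (3 * L / δ))), fun v hv hin => ?_⟩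
  have hv' : max 1 (max RF (max Rc (3 * L / δ))) ≤ nrm v / L := by
    rw [le_div_iff₀ hL0, mul_comm]
    exact hv
  obtain ⟨z, hz, hz1, hz2⟩ := hr ⌈nrm v / L⌉₊
  have hr0 := nrm_nonneg v
  have hs1 : nrm v / L ≤ nrm z := le_trans (Nat.le_ceil _) hz1
  have hs2 : nrm z ≤ nrm v / L + 3 := by
    have := Nat.ceil_lt_add_one (div_nonneg hr0 hL0.le)
    linarith
  have hM := hv'.trans hs1
  have h0 : 1 ≤ nrm z := le_trans (le_max_left _ _) hM
  have h1 : RF ≤ nrm z := le_trans (le_trans (le_max_left _ _) (le_max_right _ _)) hM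
  have h2 : Rc ≤ nrm z := le_trans (le_trans (le_trans (le_max_left _ _) (le_max_right _ _))
    (le_max_right _ _)) hM
  have h3 : 3 * L / δ ≤ nrm z := le_trans (le_trans (le_trans (le_max_right _ _) (le_max_right _ _))
    (le_max_right _ _)) hM
  have hz3 := hRc z hz h2
  have hzp : 0 < nrm z := lt_of_lt_of_le one_pos h0
  have hvp : 0 < nrm v := by
    have h4 : 1 ≤ nrm v / L := (le_max_left _ _).trans hv'
    rw [le_div_iff₀ hL0] at h4
    linarith
  refine hRF z v hz h1 ?_ ?_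
  · have h4 : 3 * L ≤ δ * nrm z := by
      have := (div_le_iff₀ hδ).1 h3
      linarith
    have h5 : nrm v ≤ L * nrm z := by
      rw [div_le_iff₀ hL0] at hs1
      linarith
    have h6 : L * nrm z ≤ nrm v + 3 * L := by
      have h7 := mul_le_mul_of_nonneg_left hs2 hL0.le
      rw [mul_add, mul_div_cancel₀ _ hL0.ne'] at h7
      linarith
    rw [abs_le]
    constructor <;> linarith
  · have hx : ip z v / (nrm z * nrm v) ∈ Set.Icc (-1 : ℝ) 1 := by
      have h5 := abs_ip_le z v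
      rw [Set.mem_Icc, ← abs_le, abs_div, abs_of_pos (mul_pos hzp hvp)]
      exact div_le_one_of_le₀ h5 (mul_pos hzp hvp).le
    have hy : inner ℝ (toE v) u / nrm v ∈ Set.Icc (-1 : ℝ) 1 := by
      have h5 := abs_real_inner_le_norm (toE v) u
      rw [hu, mul_one, ← nrm_eq] at h5
      rw [Set.mem_Icc, ← abs_le, abs_div, abs_of_pos hvp]
      exact div_le_one_of_le₀ h5 hvp.le
    have h6 := huc _ hx _ hy (by
      rw [Real.dist_eq]
      exact lt_of_le_of_lt (cn3_close hzp hvp hz3) (half_lt_self hε₂))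
    rw [Real.dist_eq, abs_lt] at h6
    have h7 : Real.arccos (ip z v / (nrm z * nrm v)) ≤
        Real.arccos (inner ℝ (toE v) u / nrm v) + ε * B / (2 * α) := by
      linarith [h6.2]
    have h8 := mul_le_mul_of_nonneg_right h7 hP
    have h9 : ε * B / (2 * α) * (α - 1) ≤ ε * B / 2 := by
      rw [div_mul_eq_mul_div, div_le_div_iff₀ (by positivity) (by norm_num)]
      have h10 : 0 < ε * B := mul_pos hε hB0
      nlinarith
    rw [add_mul] at h8
    linarith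
-- END cn3

-- BEGIN nc3
private theorem nc3_frame {E : Type*} [NormedAddCommGroup E] [InnerProductSpace ℝ E]
    [FiniteDimensional ℝ E] (hd : 2 ≤ Module.finrank ℝ E) {x U : E} (hx : ‖x‖ = 1)
    (hU : ‖U‖ = 1) :
    ∃ (n : E) (t : ℝ), 0 ≤ t ∧ ‖n‖ = 1 ∧ inner ℝ U n = 0 ∧ x = inner ℝ U x • U + t • n ∧
      t ^ 2 = 1 - (inner ℝ U x) ^ 2 := by
  obtain ⟨c, hc⟩ : ∃ c : ℝ, c = inner ℝ U x := ⟨_, rfl⟩
  obtain ⟨y, hy⟩ : ∃ y : E, y = x - c • U := ⟨_, rfl⟩
  rw [← hc]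
  have hUy : inner ℝ U y = 0 := by
    rw [hy, inner_sub_right, real_inner_smul_right, real_inner_self_eq_norm_sq, hU, ← hc]
    ring
  have hxy : x = c • U + y := by rw [hy]; abel
  have hyy : ‖y‖ ^ 2 = 1 - c ^ 2 := by
    have h1 : ‖x‖ ^ 2 = c ^ 2 + ‖y‖ ^ 2 := by
      rw [hxy, norm_add_sq_real, real_inner_smul_left, hUy, norm_smul, hU, Real.norm_eq_abs,
        mul_one, sq_abs]
      ring
    rw [hx] at h1
    linarith
  by_cases h0 : y = 0
  · have hne : (ℝ ∙ U)ᗮ ≠ ⊥ := by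
      intro hbot
      have h2 := Submodule.finrank_add_finrank_orthogonal (ℝ ∙ U)
      rw [hbot, finrank_bot, add_zero] at h2
      have h3 := finrank_span_le_card (R := ℝ) ({U} : Set E)
      rw [Set.toFinset_singleton, Finset.card_singleton] at h3
      omega
    obtain ⟨g, hg, hg0⟩ := (Submodule.ne_bot_iff _).1 hne
    have hg0' : 0 < ‖g‖ := norm_pos_iff.2 hg0
    refine ⟨‖g‖⁻¹ • g, 0, le_rfl, ?_, ?_, ?_, ?_⟩
    · rw [norm_smul, norm_inv, norm_norm]
      exact inv_mul_cancel₀ hg0'.ne'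
    · rw [real_inner_smul_right, Submodule.mem_orthogonal_singleton_iff_inner_right.1 hg, mul_zero]
    · rw [zero_smul, add_zero]
      rwa [h0, add_zero] at hxy
    · rw [h0, norm_zero] at hyy
      linarith
  · have hy0 : 0 < ‖y‖ := norm_pos_iff.2 h0
    refine ⟨‖y‖⁻¹ • y, ‖y‖, hy0.le, ?_, ?_, ?_, hyy⟩
    · rw [norm_smul, norm_inv, norm_norm]
      exact inv_mul_cancel₀ hy0.ne'
    · rw [real_inner_smul_right, hUy, mul_zero]
    · rw [smul_smul, mul_inv_cancel₀ hy0.ne', one_smul]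
      exact hxy

private theorem nc3_dir {E : Type*} [NormedAddCommGroup E] [InnerProductSpace ℝ E]
    [FiniteDimensional ℝ E] (hd : 2 ≤ Module.finrank ℝ E) {x U : E} (hx : ‖x‖ = 1)
    (hU : ‖U‖ = 1) {φ : ℝ} (h0 : 0 ≤ φ) (h1 : φ ≤ Real.pi / 2) :
    ∃ w : E, ‖w‖ = 1 ∧ inner ℝ w U ≤ Real.cos φ ∧ Real.cos φ ≤ inner ℝ x w := by
  obtain ⟨n, t, ht0, hn, hUn, hxn, htt⟩ := nc3_frame hd hx hU
  obtain ⟨c, hc⟩ : ∃ c : ℝ, c = inner ℝ U x := ⟨_, rfl⟩
  rw [← hc] at hxn htt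
  have hcos0 : 0 ≤ Real.cos φ := Real.cos_nonneg_of_neg_pi_div_two_le_of_le (by linarith) h1
  have hsin0 : 0 ≤ Real.sin φ := Real.sin_nonneg_of_nonneg_of_le_pi h0 (by linarith [Real.pi_pos])
  have hcos1 := Real.cos_le_one φ
  have hsc := Real.sin_sq_add_cos_sq φ
  rcases le_or_gt c (Real.cos φ) with h | h
  · refine ⟨x, hx, ?_, ?_⟩
    · rw [real_inner_comm, ← hc]
      exact h
    · rw [real_inner_self_eq_norm_sq, hx]
      linarith
  · have hc1 : c ≤ 1 := by nlinarith [sq_nonneg t]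
    refine ⟨Real.cos φ • U + Real.sin φ • n, ?_, ?_, ?_⟩
    · have h2 : ‖Real.cos φ • U + Real.sin φ • n‖ ^ 2 = 1 := by
        rw [norm_add_sq_real, norm_smul, norm_smul, hU, hn, real_inner_smul_left,
          real_inner_smul_right, hUn, mul_one, mul_one, Real.norm_eq_abs, Real.norm_eq_abs,
          sq_abs, sq_abs]
        nlinarith
      exact (pow_eq_one_iff_of_nonneg (norm_nonneg _) two_ne_zero).1 h2
    · rw [inner_add_left, real_inner_smul_left, real_inner_smul_left, real_inner_self_eq_norm_sq,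
        hU, real_inner_comm, hUn]
      linarith
    · have e1 : inner ℝ x (Real.cos φ • U + Real.sin φ • n) =
          Real.cos φ * c + Real.sin φ * t := by
        have e2 : inner ℝ x U = c := by rw [real_inner_comm, hc]
        have e3 : inner ℝ x n = t := by
          rw [hxn, inner_add_left, real_inner_smul_left, real_inner_smul_left, hUn,
            real_inner_self_eq_norm_sq, hn]
          ring
        rw [inner_add_right, real_inner_smul_right, real_inner_smul_right, e2, e3]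
      rw [e1]
      have h3 : Real.cos φ * (1 - c) ≤ Real.sin φ * t := by
        refine le_of_sq_le_sq ?_ (mul_nonneg hsin0 ht0)
        have e4 : (Real.sin φ * t) ^ 2 - (Real.cos φ * (1 - c)) ^ 2 =
            (1 - c) * (1 - 2 * Real.cos φ ^ 2 + c) := by
          rw [mul_pow, mul_pow, htt, show Real.sin φ ^ 2 = 1 - Real.cos φ ^ 2 by linarith]
          ring
        have e5 : 0 ≤ 1 - 2 * Real.cos φ ^ 2 + c := by
          nlinarith [mul_nonneg (sub_nonneg.mpr hcos1) hcos0]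
        have e6 := mul_nonneg (sub_nonneg.mpr hc1) e5
        linarith
      linarith

private theorem nc3_ip (p q : Fin d → ℝ) :
    inner ℝ (WithLp.toLp 2 p : EuclideanSpace ℝ (Fin d)) (WithLp.toLp 2 q) =
      ∑ j : Fin d, p j * q j := by
  rw [EuclideanSpace.inner_eq_star_dotProduct]
  simp only [dotProduct, star_trivial]
  exact Finset.sum_congr rfl fun k _ => mul_comm _ _

private noncomputable def nc3_rnd (p : EuclideanSpace ℝ (Fin d)) : V d := fun k => round (p k)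

private theorem nc3_err (p : EuclideanSpace ℝ (Fin d)) :
    ‖toE (nc3_rnd p) - p‖ ≤ Real.sqrt d / 2 := by
  rw [EuclideanSpace.norm_eq]
  have h1 : ∑ k : Fin d, ‖(toE (nc3_rnd p) - p) k‖ ^ 2 ≤ d * (1 / 4 : ℝ) := by
    have h2 : ∀ k ∈ (Finset.univ : Finset (Fin d)), ‖(toE (nc3_rnd p) - p) k‖ ^ 2 ≤ (1 / 4 : ℝ) := by
      intro k _
      have h3 : (toE (nc3_rnd p) - p) k = ((round (p k) : ℤ) : ℝ) - p k := rfl
      rw [h3, Real.norm_eq_abs, abs_sub_comm]
      have h4 := abs_sub_round (p k)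
      nlinarith [abs_nonneg (p k - (round (p k) : ℝ))]
    refine (Finset.sum_le_card_nsmul _ _ _ h2).trans ?_
    rw [Finset.card_univ, Fintype.card_fin, nsmul_eq_mul]
  refine (Real.sqrt_le_sqrt h1).trans ?_
  rw [Real.sqrt_mul (Nat.cast_nonneg d)]
  have h5 : Real.sqrt (1 / 4 : ℝ) = 1 / 2 := by
    rw [show (1 / 4 : ℝ) = (1 / 2) ^ 2 by norm_num]
    exact Real.sqrt_sq (by norm_num)
  rw [h5]
  linarith

/-- as `arc_no_coneS` (OneR/Sq), with `Cap`: `v` is `L nrm z • w` rounded -/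
theorem reach_no_cone (hd : 2 ≤ d) {s : ℕ → Edge d} {α : ℝ} (hα : 1 < α)
    (hf : ∀ j, Reach α j s) (hr : AllRad s)
    (a u : Fin d → ℝ) (hu : ∑ j : Fin d, u j ^ 2 = 1) {θ : ℝ} (h0 : 0 < θ) (h1 : θ < Real.pi)
    (h : θ * (α - 1) < 2 * Real.arcsin (1 / Real.sqrt d)) (R : ℝ) :
    ∃ v : V d, R ≤ nrm v ∧ v ∈ Reached s ∧ ∑ j : Fin d, ((v j : ℝ) - a j) * u j <
      Real.sqrt (∑ j : Fin d, ((v j : ℝ) - a j) ^ 2) * Real.cos (θ / 2) := by
  have hd0 : (0 : ℝ) < d := by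
    have : 0 < d := by omega
    exact_mod_cast this
  have hα1 : 0 < α - 1 := by linarith
  obtain ⟨B, hB⟩ : ∃ B : ℝ, B = Real.arcsin (1 / Real.sqrt d) := ⟨_, rfl⟩
  have hB0 : 0 < B := by
    rw [hB]
    exact Real.arcsin_pos.mpr (div_pos one_pos (Real.sqrt_pos.mpr hd0))
  rw [← hB] at h
  -- the angles
  obtain ⟨φ, hφ1, hφ2⟩ : ∃ φ : ℝ, θ / 2 < φ ∧ φ < min (Real.pi / 2) (B / (α - 1)) := by
    refine exists_between (lt_min (by linarith) ?_)
    rw [lt_div_iff₀ hα1]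
    linarith
  obtain ⟨φ', hφ3, hφ4⟩ := exists_between hφ2
  have hp1 : φ' < Real.pi / 2 := hφ4.trans_le (min_le_left _ _)
  have hp2 : φ' * (α - 1) < B := by
    have := hφ4.trans_le (min_le_right _ _)
    rwa [lt_div_iff₀ hα1] at this
  have hcc : Real.cos φ' < Real.cos φ :=
    Real.cos_lt_cos_of_nonneg_of_le_pi (by linarith) (by linarith [Real.pi_pos]) hφ3
  have hct : Real.cos φ < Real.cos (θ / 2) :=
    Real.cos_lt_cos_of_nonneg_of_le_pi (by linarith) (by linarith [Real.pi_pos]) hφ1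
  -- the cap
  have hε : 0 < 1 - φ' * (α - 1) / B := by
    rw [sub_pos, div_lt_one hB0]
    exact hp2
  obtain ⟨L, δ, hL, hδ, Rf, hRf⟩ := cap_of hd hα hf hε
  rw [← hB] at hRf
  have hεB : (1 - (1 - φ' * (α - 1) / B)) * B = φ' * (α - 1) := by
    rw [sub_sub_cancel, div_mul_cancel₀ _ hB0.ne']
  rw [hεB] at hRf
  -- the vectors
  obtain ⟨U, hUd⟩ : ∃ U : EuclideanSpace ℝ (Fin d), U = WithLp.toLp 2 u := ⟨_, rfl⟩
  obtain ⟨A, hAd⟩ : ∃ A : EuclideanSpace ℝ (Fin d), A = WithLp.toLp 2 a := ⟨_, rfl⟩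
  have hU : ‖U‖ = 1 := by
    rw [hUd, EuclideanSpace.norm_eq]
    have : ∑ i : Fin d, ‖(WithLp.toLp 2 u : EuclideanSpace ℝ (Fin d)) i‖ ^ 2 = 1 := by
      rw [← hu]
      refine Finset.sum_congr rfl fun i _ => ?_
      rw [Real.norm_eq_abs, sq_abs]
    rw [this, Real.sqrt_one]
  obtain ⟨q, hq⟩ : ∃ q : ℝ, q = Real.sqrt d := ⟨_, rfl⟩
  have hq0 : 0 ≤ q := by rw [hq]; exact Real.sqrt_nonneg _
  have hA0 : 0 ≤ ‖A‖ := norm_nonneg A
  -- the ray site
  obtain ⟨z, hz, hn1, -⟩ := hr ⌈max (max (Rf : ℝ) (R + q)) (max (max 1 (q / δ))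
    (max (q / (Real.cos φ - Real.cos φ')) ((q + 2 * ‖A‖ + 1) / (Real.cos (θ / 2) - Real.cos φ))))⌉₊
  have g0 := (Nat.le_ceil _).trans hn1
  have g1 : (Rf : ℝ) ≤ nrm z := (le_max_left _ _).trans ((le_max_left _ _).trans g0)
  have g2 : R + q ≤ nrm z := (le_max_right _ _).trans ((le_max_left _ _).trans g0)
  have g3 := (le_max_right _ _).trans g0
  have g4 : (1 : ℝ) ≤ nrm z := (le_max_left _ _).trans ((le_max_left _ _).trans g3)
  have g5 : q ≤ δ * nrm z := by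
    have := (le_max_right _ _).trans ((le_max_left _ _).trans g3)
    rw [div_le_iff₀ hδ] at this
    linarith
  have g6 : q ≤ (Real.cos φ - Real.cos φ') * nrm z := by
    have := (le_max_left _ _).trans ((le_max_right _ _).trans g3)
    rw [div_le_iff₀ (by linarith)] at this
    linarith
  have g7 : q + 2 * ‖A‖ + 1 ≤ (Real.cos (θ / 2) - Real.cos φ) * nrm z := by
    have := (le_max_right _ _).trans ((le_max_right _ _).trans g3)
    rw [div_le_iff₀ (by linarith)] at this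
    linarith
  obtain ⟨r, hrd⟩ : ∃ r : ℝ, r = nrm z := ⟨_, rfl⟩
  rw [← hrd] at g1 g2 g4 g5 g6 g7
  have hr0 : 0 < r := by linarith
  obtain ⟨ρ, hρ⟩ : ∃ ρ : ℝ, ρ = L * r := ⟨_, rfl⟩
  have hrρ : r ≤ ρ := by
    rw [hρ]
    exact le_mul_of_one_le_left hr0.le hL
  have hρ0 : 0 < ρ := by linarith
  have G2 : R + q ≤ ρ := by linarith
  have G6 : q ≤ (Real.cos φ - Real.cos φ') * ρ :=
    g6.trans (mul_le_mul_of_nonneg_left hrρ (by linarith))
  have G7 : q + 2 * ‖A‖ + 1 ≤ (Real.cos (θ / 2) - Real.cos φ) * ρ :=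
    g7.trans (mul_le_mul_of_nonneg_left hrρ (by linarith))
  obtain ⟨x, hxd⟩ : ∃ x : EuclideanSpace ℝ (Fin d), x = r⁻¹ • toE z := ⟨_, rfl⟩
  have hx1 : ‖x‖ = 1 := by
    rw [hxd, norm_smul, norm_inv, ← nrm_eq, Real.norm_of_nonneg hr0.le, ← hrd]
    exact inv_mul_cancel₀ hr0.ne'
  have hzx : toE z = r • x := by
    rw [hxd, smul_smul, mul_inv_cancel₀ hr0.ne', one_smul]
  obtain ⟨w, hw1, hw2, hw3⟩ := nc3_dir (E := EuclideanSpace ℝ (Fin d))
    (by rw [finrank_euclideanSpace, Fintype.card_fin]; exact hd) hx1 hU (φ := φ) (by linarith)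
    (by linarith)
  obtain ⟨v, hv⟩ : ∃ v : V d, v = nc3_rnd (ρ • w) := ⟨_, rfl⟩
  obtain ⟨e, he⟩ : ∃ e : EuclideanSpace ℝ (Fin d), e = toE v - ρ • w := ⟨_, rfl⟩
  have hen : ‖e‖ ≤ q / 2 := by
    rw [he, hv, hq]
    exact nc3_err _
  have hve : toE v = ρ • w + e := by rw [he]; abel
  have hrw : ‖ρ • w‖ = ρ := by rw [norm_smul, hw1, Real.norm_of_nonneg hρ0.le, mul_one]
  have hvn : nrm v = ‖toE v‖ := nrm_eq v
  have hv1 : nrm v ≤ ρ + q / 2 := by
    rw [hvn, hve]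
    have := norm_add_le (ρ • w) e
    rw [hrw] at this
    linarith
  have hv2 : ρ - q / 2 ≤ nrm v := by
    rw [hvn, hve]
    have := norm_sub_le (ρ • w + e) e
    rw [add_sub_cancel_right, hrw] at this
    linarith
  have hRv : R ≤ nrm v := by linarith
  have hv0 : 0 < nrm v := by
    have h5 : q ≤ ρ := by
      have h6 : Real.cos φ ≤ 1 := Real.cos_le_one φ
      have h7 : 0 ≤ Real.cos φ' := Real.cos_nonneg_of_neg_pi_div_two_le_of_le (by linarith) hp1.le
      have h8 : (Real.cos φ - Real.cos φ') * ρ ≤ 1 * ρ :=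
        mul_le_mul_of_nonneg_right (by linarith) hρ0.le
      linarith
    linarith
  refine ⟨v, hRv, ?_, ?_⟩
  · -- in the cluster
    refine hRf z v hz (by rw [← hrd]; exact g1) ?_ ?_
    · rw [← hrd, ← hρ, abs_le]
      constructor <;> linarith
    · have hip : ip z v = inner ℝ (toE z) (toE v) := by
        unfold ip
        exact (nc3_ip (fun k => (z k : ℝ)) (fun k => (v k : ℝ))).symm
      have hxe : -(q / 2) ≤ inner ℝ x e := by
        have := abs_real_inner_le_norm x e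
        rw [hx1, one_mul] at this
        linarith [(abs_le.1 this).1]
      have h5 : Real.cos φ' ≤ ip z v / (nrm z * nrm v) := by
        rw [le_div_iff₀ (mul_pos (by linarith) hv0), hip, hzx, hve, real_inner_smul_left,
          inner_add_right, real_inner_smul_right, ← hrd]
        have h6 : 0 ≤ Real.cos φ' :=
          Real.cos_nonneg_of_neg_pi_div_two_le_of_le (by linarith) hp1.le
        have h7 : Real.cos φ' ≤ 1 := Real.cos_le_one φ'
        have h8 : Real.cos φ' * nrm v ≤ ρ * inner ℝ x w + inner ℝ x e := by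
          have h9 : Real.cos φ' * nrm v ≤ Real.cos φ' * (ρ + q / 2) :=
            mul_le_mul_of_nonneg_left hv1 h6
          have h10 : ρ * Real.cos φ ≤ ρ * inner ℝ x w := mul_le_mul_of_nonneg_left hw3 hρ0.le
          have h11 : Real.cos φ' * (q / 2) ≤ q / 2 := mul_le_of_le_one_left (by linarith) h7
          linarith
        have h12 := mul_le_mul_of_nonneg_left h8 hr0.le
        linarith
      have h6 : Real.arccos (ip z v / (nrm z * nrm v)) ≤ φ' := by
        have h7 := Real.arccos_le_arccos h5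
        rwa [Real.arccos_cos (by linarith) (by linarith [Real.pi_pos])] at h7
      exact mul_le_mul_of_nonneg_right h6 hα1.le
  · -- not in the cone
    have e1 : ∑ j : Fin d, ((v j : ℝ) - a j) * u j = inner ℝ (toE v - A) U := by
      rw [hAd, hUd]
      exact (nc3_ip (fun j => (v j : ℝ) - a j) u).symm
    have e2 : Real.sqrt (∑ j : Fin d, ((v j : ℝ) - a j) ^ 2) = ‖toE v - A‖ := by
      rw [EuclideanSpace.norm_eq]
      congr 1
      refine Finset.sum_congr rfl fun i _ => ?_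
      rw [Real.norm_eq_abs, sq_abs, hAd]
      rfl
    rw [e1, e2]
    have hcp : 0 < Real.cos (θ / 2) :=
      Real.cos_pos_of_mem_Ioo ⟨by linarith [Real.pi_pos], by linarith⟩
    have hc1 : Real.cos (θ / 2) ≤ 1 := Real.cos_le_one _
    have f1 : inner ℝ (toE v - A) U ≤ ρ * Real.cos φ + q / 2 + ‖A‖ := by
      rw [hve, inner_sub_left, inner_add_left, real_inner_smul_left]
      have t1 : ρ * inner ℝ w U ≤ ρ * Real.cos φ := mul_le_mul_of_nonneg_left hw2 hρ0.le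
      have t2 : inner ℝ e U ≤ ‖e‖ := by
        have := real_inner_le_norm e U
        rwa [hU, mul_one] at this
      have t3 : -‖A‖ ≤ inner ℝ A U := by
        have := abs_real_inner_le_norm A U
        rw [hU, mul_one] at this
        exact (abs_le.1 this).1
      linarith
    have f2 : ρ - q / 2 - ‖A‖ ≤ ‖toE v - A‖ := by
      have := norm_sub_norm_le (toE v) A
      rw [← hvn] at this
      linarith
    have f3 := mul_le_mul_of_nonneg_right f2 hcp.le
    have f4 : Real.cos (θ / 2) * (q / 2 + ‖A‖) ≤ 1 * (q / 2 + ‖A‖) :=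
      mul_le_mul_of_nonneg_right hc1 (by linarith)
    linarith
-- END nc3

end OneR
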