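import Pool.Agent.OneR.MuDef
import Pool.Agent.OneR.Infn

/-!
Problem MP_b9fb85_pr: the definitions used in the statement of RayStructure.
-/

set_option autoImplicit false

namespace OneR

open MeasureTheory Classical

variable {d : ℕ}

/-- the sites of the cluster with the chosen edges `s 0, s 1, ...`: the ends of the chosen edges -/
def Site (s : ℕ → (Fin d → ℤ) × Fin d) (v : Fin d → ℤ) : Prop :=
  ∃ n, v = (s n).1 ∨ v = (s n).1 + Pi.single (s n).2 1

/-- `z` is an ancestor of `v`: `v` is reached from `z` by a chain of infections -/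
def Anc (s : ℕ → (Fin d → ℤ) × Fin d) (z v : Fin d → ℤ) : Prop :=
  Relation.ReflTransGen (Infn s) z v

/-- the ray: the sites with infinitely many descendants -/
def RaySite (s : ℕ → (Fin d → ℤ) × Fin d) (z : Fin d → ℤ) : Prop := {u | Anc s z u}.Infinite

/-- the law of the weighted Eden model, word for word the hypotheses of the frozen statement S19591:
`e n` is the edge chosen in step `n + 1`, the edge `(v, j)` joins `v` and `v + Pi.single j 1` -/
def EdenLaw (α : ℝ) {Ω : Type} [MeasurableSpace Ω] (P : Measure Ω)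
    (e : ℕ → Ω → (Fin d → ℤ) × Fin d) : Prop :=
  (∀ (n : ℕ) (f : (Fin d → ℤ) × Fin d), MeasurableSet {ω | e n ω = f}) ∧
  (∀ (n : ℕ) (s : ℕ → (Fin d → ℤ) × Fin d) (f : (Fin d → ℤ) × Fin d),
    P {ω | (∀ i < n, e i ω = s i) ∧ e n ω = f}
      = P {ω | ∀ i < n, e i ω = s i} *
        ENNReal.ofReal
          (if ((∀ i < n, f ≠ s i) ∧
                (n = 0 → ((0 : Fin d → ℤ) = f.1 ∨ (0 : Fin d → ℤ) = f.1 + Pi.single f.2 1)) ∧
                (0 < n → ∃ i < n, ∃ p : Fin d → ℤ,
                  (p = f.1 ∨ p = f.1 + Pi.single f.2 1) ∧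
                  (p = (s i).1 ∨ p = (s i).1 + Pi.single (s i).2 1)))
           then
            (Real.sqrt (∑ j : Fin d,
                ((f.1 j : ℝ) + (if j = f.2 then (1 / 2 : ℝ) else 0)) ^ 2)) ^ α /
            (∑' g : (Fin d → ℤ) × Fin d,
              if ((∀ i < n, g ≠ s i) ∧
                  (n = 0 → ((0 : Fin d → ℤ) = g.1 ∨ (0 : Fin d → ℤ) = g.1 + Pi.single g.2 1)) ∧
                  (0 < n → ∃ i < n, ∃ p : Fin d → ℤ,
                    (p = g.1 ∨ p = g.1 + Pi.single g.2 1) ∧
                    (p = (s i).1 ∨ p = (s i).1 + Pi.single (s i).2 1)))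
              then
                (Real.sqrt (∑ j : Fin d,
                  ((g.1 j : ℝ) + (if j = g.2 then (1 / 2 : ℝ) else 0)) ^ 2)) ^ α
              else 0)
           else 0))

end OneR
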