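import Pool.Agent.OneR.Tree

/-!
Problem MP_b9fb85_pr: the side branches of the ray are at most polynomially long.
-/

set_option autoImplicit false

namespace OneR

open Finset ConeD ConeD.TRANSAux OneE OneE.UNIQAux Filter MeasureTheory

variable {d : ℕ}

-- BEGIN sden
/-- the density of the exponential law is at most one -/
theorem mE_Icc_le (x y : ℝ) : ConeE.mE (Set.Icc x y) ≤ ENNReal.ofReal (y - x) := by
  rw [ConeE.mE_eq_withDensity, withDensity_apply _ measurableSet_Icc, ← Real.volume_Icc,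
    ← setLIntegral_one]
  refine lintegral_mono fun t => ?_
  unfold ConeE.exDens
  by_cases ht : t ∈ Set.Ici (0 : ℝ)
  · rw [Set.indicator_of_mem ht]
    have h1 : Real.exp (-t) ≤ 1 := Real.exp_le_one_iff.2 (neg_nonpos.2 ht)
    exact (ENNReal.ofReal_le_ofReal h1).trans (le_of_eq ENNReal.ofReal_one)
  · rw [Set.indicator_of_notMem ht]
    exact zero_le_one
-- END sden

/-- distance of the passage time of `e` from the value at which the explosion through `e` and the
explosion avoiding `e` have the same time -/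
noncomputable def gap (α : ℝ) (E : Edge d → ℝ) (e : Edge d) : ℝ :=
  |E e / mid e ^ α - (N0 (tau α E) e - N1 (tau α E) e).toReal|

-- BEGIN snt
private theorem snt_level (α : ℝ) (e : Edge d) :
    Measurable fun E : Edge d → ℝ => (N0 (tau α E) e - N1 (tau α E) e).toReal := by
  have hτm : ∀ f, Measurable fun E : Edge d → ℝ => tau α E f := fun f => by
    unfold tau
    exact (measurable_pi_apply f).div_const _
  have hm0 : Measurable fun E : Edge d → ℝ => N0 (tau α E) e :=
    meas_level (fun E => A0 (tau α E) e) fun q v => meas_A0 (fun E => tau α E) hτm e q v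
  have hm1 : Measurable fun E : Edge d → ℝ => N1 (tau α E) e :=
    meas_level (fun E => A1 (tau α E) e) fun q v => meas_A1 (fun E => tau α E) hτm e q v
  exact (hm0.sub hm1).ereal_toReal

theorem measurable_gap (α : ℝ) (e : Edge d) : Measurable fun E : Edge d → ℝ => gap α E e := by
  have h1 : Measurable fun E : Edge d → ℝ =>
      E e / mid e ^ α - (N0 (tau α E) e - N1 (tau α E) e).toReal :=
    ((measurable_pi_apply e).div_const _).sub (snt_level α e)
  have h2 := h1.norm
  simpa only [gap, Real.norm_eq_abs] using h2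

/-- near ties are rare: as in the proof of `OneE.via_or_avoid`, the section is contained in an
interval of length `2 ε mid e ^ α`, `mE_Icc_le` -/
theorem gap_le (α : ℝ) (e : Edge d) {ε : ℝ} (hε : 0 ≤ ε) :
    PE d {E | gap α E e ≤ ε} ≤ ENNReal.ofReal (2 * ε * mid e ^ α) := by
  have hmid : 0 < mid e ^ α := Real.rpow_pos_of_pos (mid_pos e) α
  have hindep : ∀ (E : Edge d → ℝ) (t : ℝ),
      (N0 (tau α (Function.update E e t)) e - N1 (tau α (Function.update E e t)) e).toReal =
        (N0 (tau α E) e - N1 (tau α E) e).toReal := by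
    intro E t
    have hc : ∀ f, f ≠ e → tau α (Function.update E e t) f = tau α E f := by
      intro f hf
      simp [tau, Function.update_of_ne hf]
    simp only [N0, N1, A0_congr hc, A1_congr hc]
  have hB : MeasurableSet {E : Edge d → ℝ | gap α E e ≤ ε} :=
    measurableSet_le (measurable_gap α e) measurable_const
  rw [← (measurePreserving_update e).measure_preimage hB.nullMeasurableSet,
    Measure.prod_apply ((measurePreserving_update e).measurable hB)]
  refine (lintegral_mono (g := fun _ => ENNReal.ofReal (2 * ε * mid e ^ α)) fun E => ?_).trans ?_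
  · refine (measure_mono (t := Set.Icc (((N0 (tau α E) e - N1 (tau α E) e).toReal - ε) * mid e ^ α)
      (((N0 (tau α E) e - N1 (tau α E) e).toReal + ε) * mid e ^ α)) ?_).trans ?_
    · intro t ht
      have h1 : |t / mid e ^ α - (N0 (tau α E) e - N1 (tau α E) e).toReal| ≤ ε := by
        have h2 : gap α (Function.update E e t) e ≤ ε := ht
        unfold gap at h2
        rwa [hindep, Function.update_self] at h2
      rw [abs_le] at h1
      refine ⟨?_, ?_⟩
      · rw [← le_div_iff₀ hmid]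
        linarith [h1.1]
      · rw [← div_le_iff₀ hmid]
        linarith [h1.2]
    · refine (mE_Icc_le _ _).trans (le_of_eq ?_)
      congr 1
      ring
  · rw [lintegral_const, measure_univ, mul_one]
-- END snt

-- BEGIN ssum
private theorem ssum_int {t : ℝ} (ht : 1 < t) : Summable fun n : ℤ => ((1 + |(n : ℝ)|) / 4) ^ (-t) := by
  have h0 : Summable fun n : ℕ => ((1 + (n : ℝ)) / 4) ^ (-t) := by
    have h1 := ((Real.summable_one_div_nat_add_rpow 1 t).2 ht).mul_left ((4 : ℝ) ^ t)
    refine h1.congr fun n => ?_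
    have h2 : (0 : ℝ) < 1 + n := by positivity
    have h3 : |(n : ℝ) + 1| = 1 + n := by
      rw [abs_of_pos (by positivity), add_comm]
    rw [h3, Real.rpow_neg (by positivity), Real.div_rpow h2.le (by norm_num), inv_div]
    ring
  refine Summable.of_nat_of_neg ?_ ?_
  · refine h0.congr fun n => ?_
    rw [Int.cast_natCast, abs_of_nonneg (Nat.cast_nonneg n)]
  · refine h0.congr fun n => ?_
    rw [Int.cast_neg, abs_neg, Int.cast_natCast, abs_of_nonneg (Nat.cast_nonneg n)]

private theorem ssum_prod {f : ℤ → ℝ} (hf : Summable f) (h0 : ∀ n, 0 ≤ f n) (k : ℕ) :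
    Summable fun v : Fin k → ℤ => ∏ i, f (v i) := by
  induction k with
  | zero => exact (hasSum_unique _).summable
  | succ k ih =>
    have hn : (0 : (Fin k → ℤ) → ℝ) ≤ fun v => ∏ i, f (v i) := fun v =>
      Finset.prod_nonneg fun i _ => h0 (v i)
    have hn0 : (0 : ℤ → ℝ) ≤ f := fun n => h0 n
    have h1 : Summable fun p : ℤ × (Fin k → ℤ) => f p.1 * ∏ i, f (p.2 i) :=
      Summable.mul_of_nonneg (f := f) (g := fun v : Fin k → ℤ => ∏ i, f (v i)) hf ih hn0 hn
    rw [← (Fin.consEquiv fun _ : Fin (k + 1) => ℤ).summable_iff]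
    refine h1.congr fun p => ?_
    simp only [Function.comp, Fin.consEquiv_apply, Fin.prod_univ_succ, Fin.cons_zero, Fin.cons_succ]

private theorem ssum_mid (e : Edge d) (i : Fin d) : (1 + |(e.1 i : ℝ)|) / 4 ≤ mid e := by
  have h1 := half_le_mid e
  have h2 : |(e.1 i : ℝ) + (if i = e.2 then (1 / 2 : ℝ) else 0)| ≤ mid e := by
    have h5 := Finset.single_le_sum (s := Finset.univ)
      (f := fun j : Fin d => ((e.1 j : ℝ) + (if j = e.2 then (1 / 2 : ℝ) else 0)) ^ 2)
      (fun j _ => sq_nonneg _) (Finset.mem_univ i)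
    unfold mid
    exact Real.abs_le_sqrt h5
  have h3 : |(e.1 i : ℝ)| ≤ |(e.1 i : ℝ) + (if i = e.2 then (1 / 2 : ℝ) else 0)| + 1 / 2 := by
    have h4 := abs_add_le ((e.1 i : ℝ) + (if i = e.2 then (1 / 2 : ℝ) else 0))
      (-(if i = e.2 then (1 / 2 : ℝ) else 0))
    have h5 : |(-(if i = e.2 then (1 / 2 : ℝ) else 0))| ≤ 1 / 2 := by
      split_ifs
      · rw [abs_neg, abs_of_pos (by norm_num)]
      · rw [neg_zero, abs_zero]
        norm_num
    rw [add_neg_cancel_right] at h4
    linarith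
  linarith

/-- there are at most `c (R + 1) ^ d` edges with `mid e ≤ R` (`conc_box` or coordinates at most
`R + 1`), so the sum converges; or compare with a sum over `v` -/
theorem summable_mid {s : ℝ} (hs : (d : ℝ) < s) : Summable fun e : Edge d => mid e ^ (-s) := by
  rcases Nat.eq_zero_or_pos d with hd | hd
  · subst hd
    exact summable_empty
  · have hd' : (0 : ℝ) < d := by exact_mod_cast hd
    have ht : 1 < s / d := by rwa [lt_div_iff₀ hd', one_mul]
    have hf0 : ∀ n : ℤ, 0 ≤ ((1 + |(n : ℝ)|) / 4) ^ (-(s / d)) := fun n => by positivity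
    have h1 := ssum_prod (ssum_int ht) hf0 d
    have hn : (0 : V d → ℝ) ≤ fun v => ∏ i, ((1 + |(v i : ℝ)|) / 4) ^ (-(s / d)) := fun v =>
      Finset.prod_nonneg fun i _ => hf0 (v i)
    have hn1 : (0 : Fin d → ℝ) ≤ fun _ => 1 := fun _ => zero_le_one
    have h2 : Summable fun e : V d × Fin d => (∏ i, ((1 + |(e.1 i : ℝ)|) / 4) ^ (-(s / d))) * (1 : ℝ) :=
      Summable.mul_of_nonneg (f := fun v : V d => ∏ i, ((1 + |(v i : ℝ)|) / 4) ^ (-(s / d)))
        (g := fun _ : Fin d => (1 : ℝ)) h1 (hasSum_fintype fun _ : Fin d => (1 : ℝ)).summable hn hn1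
    refine Summable.of_nonneg_of_le (fun e => Real.rpow_nonneg (mid_pos e).le _) (fun e => ?_) h2
    have h3 : mid e ^ (-s) = ∏ _i : Fin d, mid e ^ (-(s / d)) := by
      rw [Finset.prod_const, Finset.card_univ, Fintype.card_fin, ← Real.rpow_natCast,
        ← Real.rpow_mul (mid_pos e).le]
      congr 1
      field_simp
    rw [h3, mul_one]
    refine Finset.prod_le_prod (fun i _ => Real.rpow_nonneg (mid_pos e).le _) fun i _ => ?_
    exact Real.rpow_le_rpow_of_nonpos (by positivity) (ssum_mid e i) (by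
      have h4 : 0 < s / d := by linarith
      linarith)
-- END ssum

-- BEGIN sbc
/-- Borel - Cantelli (`MeasureTheory.ae_finite_setOf_mem`) for `ε = C mid e ^ (-(κ (α-1)))`, all
natural numbers `C` -/
theorem gap_finite {α κ : ℝ} (hα : 1 < α) (hκ : (d : ℝ) + α < κ * (α - 1)) :
    ∀ᵐ E ∂(PE d), ∀ C : ℕ, {e : Edge d | gap α E e ≤ C * mid e ^ (-(κ * (α - 1)))}.Finite := by
  rw [ae_all_iff]
  intro C
  refine MeasureTheory.ae_finite_setOfPred_mem
    (s := fun e : Edge d => {E : Edge d → ℝ | gap α E e ≤ C * mid e ^ (-(κ * (α - 1)))}) ?_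
  have h1 : ∀ e : Edge d, PE d {E : Edge d → ℝ | gap α E e ≤ C * mid e ^ (-(κ * (α - 1)))} ≤
      ENNReal.ofReal (2 * C * mid e ^ (-(κ * (α - 1) - α))) := by
    intro e
    have hm := mid_pos e
    refine (gap_le α e (ε := C * mid e ^ (-(κ * (α - 1))))
      (mul_nonneg (Nat.cast_nonneg C) (Real.rpow_nonneg hm.le _))).trans (le_of_eq ?_)
    have h2 : mid e ^ (-(κ * (α - 1))) * mid e ^ α = mid e ^ (-(κ * (α - 1) - α)) := by
      rw [← Real.rpow_add hm]
      exact congrArg (fun x => mid e ^ x) (by ring)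
    rw [← h2]
    exact congrArg ENNReal.ofReal (by ring)
  have h3 : Summable fun e : Edge d => 2 * C * mid e ^ (-(κ * (α - 1) - α)) :=
    (summable_mid (d := d) (s := κ * (α - 1) - α) (by linarith)).mul_left (2 * (C : ℝ))
  refine ne_top_of_le_ne_top ?_ (ENNReal.tsum_le_tsum h1)
  exact h3.tsum_ofReal_ne_top
-- END sbc

-- BEGIN sxp
private theorem sxp_mem {τ : Edge d → ℝ} (hτ : ∀ f, 0 ≤ τ f) {v : V d} {l : List (Step d)}
    {e : Edge d} (he : e ∈ edges v l) : τ e ≤ wt τ v l := by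
  rw [wt_eq_sum]
  refine List.single_le_sum (fun x hx => ?_) _ (List.mem_map_of_mem he)
  obtain ⟨f, -, rfl⟩ := List.mem_map.1 hx
  exact hτ f

/-- explosion from `v` avoiding an edge closer to the origin, in time `C nrm v ^ (1-α)`: `sup_ball`
with `ρ = 4/3 nrm v` and `τ' = Function.update (tau α E) e M0`, `M0` larger than the bound; `w` is the
integer part of `nrm v ^ (-η/8) v` as in the proof of `ConeD.ub_crude` (`UP_w`, private there); a walk
with `τ'`-weight less than `M0` does not use `e` -/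
theorem explode_avoid {h : V d → ℝ} {a b C : ℝ} (hh : HF h a b C) {η : ℝ} (hη : 0 < η)
    (hη1 : η ≤ 1) {α : ℝ} (hα : 1 < α) :
    ∃ C1 R1 : ℝ, 0 < C1 ∧ ∀ (E : Edge d → ℝ) (R0 : ℝ), (∀ e, 0 ≤ E e) → CC h η E R0 →
      ∀ (v : V d) (e : Edge d), R1 ≤ nrm v → R0 ≤ nrm v → mid e ≤ nrm v / 2 →
        {u : V d | ∃ l : List (Step d), endp v l = u ∧ e ∉ edges v l ∧
          wt (tau α E) v l ≤ C1 * nrm v ^ (1 - α)}.Infinite := by
  classical
  obtain ⟨K, R1, hK, hsup⟩ := sup_ball hh hη hη1 hα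
  obtain ⟨R2, hcr⟩ := ub_crude hh hη hη1 hα hK
  have hα1 : 0 < α - 1 := by linarith
  refine ⟨2 * |b| / (α - 1) + 1, max (max R1 R2) 1, by positivity, ?_⟩
  intro E R0 hE hCC v e hR hR0 he
  have h1 : R1 ≤ nrm v := ((le_max_left _ _).trans (le_max_left _ _)).trans hR
  have h2 : R2 ≤ nrm v := ((le_max_right _ _).trans (le_max_left _ _)).trans hR
  have hv : 1 ≤ nrm v := (le_max_right _ _).trans hR
  have hp : 0 < nrm v ^ (1 - α) := Real.rpow_pos_of_pos (by linarith) _
  obtain ⟨s, hs⟩ : ∃ s : ℝ, s = (2 * |b| / (α - 1) + 1) * nrm v ^ (1 - α) := ⟨_, rfl⟩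
  have hs0 : 0 ≤ s := by rw [hs]; positivity
  have hs1 : 2 * b / (α - 1) * nrm v ^ (1 - α) < s := by
    have e1 : 2 * b / (α - 1) ≤ 2 * |b| / (α - 1) := by
      have := le_abs_self b
      gcongr
    have e2 := mul_le_mul_of_nonneg_right e1 hp.le
    rw [hs]
    linarith
  have hn : ¬ UB h η α K s v := fun hu => absurd (hcr s v h2 hu) (not_le.2 hs1)
  unfold UB at hn
  push Not at hn
  obtain ⟨w, w1, w2, w3⟩ := hn
  have hτ' : ∀ f, 0 ≤ Function.update (tau α E) e s f := by
    intro f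
    by_cases hf : f = e
    · rw [hf, Function.update_self]
      exact hs0
    · rw [Function.update_of_ne hf]
      exact tau_nonneg hE f
  have hτ : ∀ f, 5 / 8 * (4 / 3 * nrm v) ≤ mid f →
      Function.update (tau α E) e s f ≤ tau α E f := by
    intro f hf
    have hfe : f ≠ e := by
      rintro rfl
      linarith
    rw [Function.update_of_ne hfe]
  have hinf := hsup E R0 hE hCC (4 / 3 * nrm v) _ hτ' hτ v w h1 hR0 (by linarith) w1 w2
  refine hinf.mono fun z hz => ?_
  obtain ⟨l, hl1, hl2⟩ := exists_wt_lt (lt_of_le_of_lt hz w3)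
  have hel : e ∉ edges v l := by
    intro hmem
    have h3 := sxp_mem hτ' hmem
    rw [Function.update_self] at h3
    linarith
  refine ⟨l, hl1, hel, ?_⟩
  have h4 : wt (tau α E) v l ≤ wt (Function.update (tau α E) e s) v l := by
    refine wt_mono v l fun f hf => ?_
    have hfe : f ≠ e := fun h => hel (h ▸ hf)
    rw [Function.update_of_ne hfe]
  rw [← hs]
  exact h4.trans hl2.le
-- END sxp

section

variable {s : ℕ → Edge d}

-- BEGIN slast
/-- the last ancestor of `v` with infinitely many descendants; the edge to its child `z'` with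
infinitely many descendants is not used by the walk to `v` (`OneE.exists_walk`) -/
theorem last_ray {τ : Edge d → ℝ} (hG : ∀ n, G τ (lst s n)) {θ : V d → ℝ}
    (hθ : ∀ n, ∀ v ∈ vs (lst s n), θ v = th τ (lst s n) v) {v : V d} (hv : v ∈ Reached s) :
    ∃ (z z' : V d) (m : ℕ), Relation.ReflTransGen (Infects s) z v ∧ (Desc s z).Infinite ∧
      (Desc s z').Infinite ∧ z ∈ ends (s m) ∧ z' ∈ ends (s m) ∧ z ∈ vs (lst s m) ∧
      z' ∉ vs (lst s m) ∧
      ((Desc s v).Infinite ∨ ∃ l : List (Step d), endp 0 l = v ∧ wt τ 0 l = θ v ∧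
        s m ∉ edges 0 l) := by
  by_cases hinf : (Desc s v).Infinite
  · obtain ⟨z', ⟨m, h1, h2, h3, h4⟩, h5⟩ := exists_child hinf
    exact ⟨v, z', m, Relation.ReflTransGen.refl, hinf, h5, h1, h2, h3, h4, Or.inl hinf⟩
  · obtain ⟨n, hn⟩ := hv
    have h0 : (Desc s (0 : V d)).Infinite := by
      refine (reached_infinite hG).mono ?_
      rintro w ⟨k, hk⟩
      exact desc_zero hG k w hk
    have key : ∀ w : V d, Relation.ReflTransGen (Infects s) 0 w → ¬ (Desc s w).Infinite →
        ∃ z z1 : V d, Relation.ReflTransGen (Infects s) z1 w ∧ Infects s z z1 ∧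
          (Desc s z).Infinite ∧ ¬ (Desc s z1).Infinite := by
      intro w hw
      induction hw with
      | refl => exact fun h => absurd h0 h
      | @tail u w _ h2 ih =>
        intro h3
        by_cases h4 : (Desc s u).Infinite
        · exact ⟨u, w, Relation.ReflTransGen.refl, h2, h4, h3⟩
        · obtain ⟨z, z1, k1, k2, k3, k4⟩ := ih h4
          exact ⟨z, z1, k1.tail h2, k2, k3, k4⟩
    obtain ⟨z, z1, k1, k2, k3, k4⟩ := key v (desc_zero hG n v hn) hinf
    obtain ⟨z', hz', h5⟩ := exists_child k3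
    obtain ⟨m, h1, h2, h3, h4⟩ := id hz'
    refine ⟨z, z', m, k1.head k2, k3, h5, h1, h2, h3, h4, Or.inr ?_⟩
    obtain ⟨l, l1, l2, l3⟩ := exists_walk hG n v hn
    refine ⟨l, l1, l2.trans (hθ n v hn).symm, fun hl => ?_⟩
    have h6 := (l3 m z' h2 h4).1 hl
    have h7 : z' = z1 := by
      rcases anc_total h6 k1 with h | h
      · exact unq_aux hz' k2 h
      · exact (unq_aux k2 hz' h).symm
    exact k4 (h7 ▸ h5)
-- END slast

-- BEGIN stie
private theorem stie_low {τ : Edge d → ℝ} (hτ : ∀ e, 0 ≤ τ e) (e : Edge d) :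
    ((S τ 0 : ℝ) : EReal) ≤ N0 τ e := by
  unfold N0
  refine le_iInf₂ fun q hq => ?_
  have h1 : S τ 0 ≤ (q : ℝ) := by
    apply S_le_of_infinite hτ
    refine hq.mono ?_
    rintro x ⟨m, h1, _, h3⟩
    exact (T_le_wt hτ h1).trans h3.le
  exact_mod_cast h1

private theorem stie_up {τ : Edge d → ℝ} {e : Edge d} {l : List (Step d)} (hl : e ∉ edges 0 l) {X : ℝ}
    (hX : {u : V d | ∃ m : List (Step d), endp (endp 0 l) m = u ∧ e ∉ edges (endp 0 l) m ∧
          wt τ (endp 0 l) m ≤ X}.Infinite) :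
    N0 τ e ≤ ((wt τ 0 l + X : ℝ) : EReal) := by
  refine EReal.le_of_forall_lt_iff_le.1 fun z hz => ?_
  have hz' : wt τ 0 l + X < z := by exact_mod_cast hz
  obtain ⟨q, hq1, hq2⟩ := exists_rat_btwn hz'
  unfold N0
  refine (iInf₂_le q (hX.mono ?_)).trans ?_
  · rintro u ⟨m, h1, h2, h3⟩
    refine ⟨l ++ m, ?_, ?_, ?_⟩
    · rw [endp_append, h1]
    · rw [ConeD.edges_append, List.mem_append]
      rintro (h4 | h4)
      · exact hl h4
      · exact h2 h4
    · rw [wt_append]
      linarith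
  · exact_mod_cast hq2.le

/-- a site `v` reached by a walk avoiding `e`, explosion from `v` avoiding `e` in time at most `X`,
and infinitely many sites through `e`: near tie. `N1_eq`; `S ≤ N0 ≤ wt 0 l + X < S + X` -/
theorem near_tie {α : ℝ} {E : Edge d → ℝ} (hE : ∀ e, 0 < E e) (hS : Explodes (tau α E))
    {e : Edge d} (hvia : (Via (tau α E) e).Infinite) {l : List (Step d)} (hl : e ∉ edges 0 l)
    (hlt : wt (tau α E) 0 l < S (tau α E) 0) {X : ℝ}
    (hX : {u : V d | ∃ m : List (Step d), endp (endp 0 l) m = u ∧ e ∉ edges (endp 0 l) m ∧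
          wt (tau α E) (endp 0 l) m ≤ X}.Infinite) :
    gap α E e ≤ X := by
  have hτ : ∀ e, 0 ≤ tau α E e := tau_nonneg fun e => (hE e).le
  have hlow := stie_low hτ e
  have hup := stie_up hl hX
  have hn1 := N1_eq hτ hvia
  have hb : N0 (tau α E) e ≠ ⊥ := fun h => by
    rw [h] at hlow
    exact EReal.coe_ne_bot _ (le_bot_iff.1 hlow)
  have ht : N0 (tau α E) e ≠ ⊤ := fun h => by
    rw [h] at hup
    exact EReal.coe_ne_top _ (top_le_iff.1 hup)
  obtain ⟨n0, hn0⟩ : ∃ n0 : ℝ, N0 (tau α E) e = (n0 : EReal) :=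
    ⟨(N0 (tau α E) e).toReal, (EReal.coe_toReal ht hb).symm⟩
  rw [hn0] at hlow hup
  have h1 : S (tau α E) 0 ≤ n0 := by exact_mod_cast hlow
  have h2 : n0 ≤ wt (tau α E) 0 l + X := by exact_mod_cast hup
  unfold gap
  rw [hn0, hn1, ← EReal.coe_sub, EReal.toReal_coe]
  have h3 : E e / mid e ^ α = tau α E e := rfl
  rw [h3, abs_le]
  constructor <;> linarith
-- END stie

end

/-- the side branches are at most polynomially long -/
def Short (κ : ℝ) (s : ℕ → Edge d) : Prop :=
  ∃ C : ℕ, ∀ v ∈ Reached s, ∃ z : V d, Relation.ReflTransGen (Infects s) z v ∧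
    (Desc s z).Infinite ∧ nrm v ≤ C * (1 + nrm z) ^ κ

-- BEGIN smst
private theorem smst_desc (z : V d) :
    MeasurableSet {s : ℕ → Edge d | (Desc s z).Infinite} := by
  refine UNIQAux.meas_inf (fun s : ℕ → Edge d => Desc s z) fun v => ?_
  exact measurableSet_rtg (fun (s : ℕ → Edge d) x y => Infects s x y)
    (fun x y => measurableSet_infects x y) z v

private theorem smst_reached (v : V d) : MeasurableSet {s : ℕ → Edge d | v ∈ Reached s} := by
  have h : {s : ℕ → Edge d | v ∈ Reached s} = ⋃ n : ℕ, {s : ℕ → Edge d | v ∈ vs (lst s n)} := by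
    ext s
    simp only [Reached, Set.mem_ofPred_eq, Set.mem_iUnion]
  rw [h]
  exact MeasurableSet.iUnion fun n => measurableSet_vs v n

theorem measurableSet_short (κ : ℝ) : MeasurableSet {s : ℕ → Edge d | Short κ s} := by
  have hset : {s : ℕ → Edge d | Short κ s} = ⋃ C : ℕ, ⋂ v : V d,
      ({s : ℕ → Edge d | v ∈ Reached s}ᶜ ∪ ⋃ z : V d,
        ({s : ℕ → Edge d | Relation.ReflTransGen (Infects s) z v} ∩
        ({s : ℕ → Edge d | (Desc s z).Infinite} ∩
          {_s : ℕ → Edge d | nrm v ≤ C * (1 + nrm z) ^ κ}))) := by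
    ext s
    simp only [Short, Set.mem_ofPred_eq, Set.mem_iUnion, Set.mem_iInter, Set.mem_union,
      Set.mem_compl_iff, Set.mem_inter_iff]
    constructor
    · rintro ⟨C, hC⟩
      refine ⟨C, fun v => ?_⟩
      by_cases h : v ∈ Reached s
      · exact Or.inr (hC v h)
      · exact Or.inl h
    · rintro ⟨C, hC⟩
      refine ⟨C, fun v h => ?_⟩
      rcases hC v with h1 | h1
      · exact absurd h h1
      · exact h1
  rw [hset]
  refine MeasurableSet.iUnion fun C => MeasurableSet.iInter fun v =>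
    (smst_reached v).compl.union (MeasurableSet.iUnion fun z => ?_)
  exact (measurableSet_rtg (fun (s : ℕ → Edge d) x y => Infects s x y)
    (fun x y => measurableSet_infects x y) z v).inter
      ((smst_desc z).inter (MeasurableSet.const _))
-- END smst

-- BEGIN saes
private theorem saes_mid {e : Edge d} {z : V d} (hz : z ∈ ends e) : mid e ≤ nrm z + 1 / 2 := by
  rw [mem_ends] at hz
  rcases hz with h | h
  · have h1 : edg z (e.2, true) = e := by
      rw [h]
      simp [edg]
    have h2 := mid_edg_le z (e.2, true)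
    rwa [h1] at h2
  · have h1 : edg z (e.2, false) = e := by
      rw [h]
      simp [edg]
    have h2 := mid_edg_le z (e.2, false)
    rwa [h1] at h2

private theorem saes_pow {C1 m r κ α : ℝ} (hC1 : 0 < C1) (hm : 0 < m) (hα : 1 < α)
    (h : C1 * m ^ (-(κ * (α - 1))) < C1 * r ^ (1 - α)) : r ≤ m ^ κ := by
  have h1 : m ^ (-(κ * (α - 1))) < r ^ (1 - α) := lt_of_mul_lt_mul_left h hC1.le
  have h2 : m ^ (-(κ * (α - 1))) = (m ^ κ) ^ (1 - α) := by
    rw [← Real.rpow_mul hm.le]
    congr 1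
    ring
  rw [h2] at h1
  by_contra hcon
  push Not at hcon
  have hk : 0 < m ^ κ := Real.rpow_pos_of_pos hm κ
  have h3 := Real.rpow_le_rpow_of_nonpos hk hcon.le (by linarith : 1 - α ≤ 0)
  linarith

private theorem saes_bd {F : Set (Edge d)} (hF : F.Finite)
    (A : Edge d → Set (V d)) : ∃ B : ℝ, ∀ e ∈ F, (A e).Finite → ∀ v ∈ A e, nrm v ≤ B := by
  classical
  have h1 : (⋃ e ∈ F, if (A e).Finite then A e else ∅).Finite := by
    refine hF.biUnion fun e _ => ?_
    split_ifs with h
    · exact h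
    · exact Set.finite_empty
  obtain ⟨B, hB⟩ := (h1.image nrm).bddAbove
  refine ⟨B, fun e he hA v hv => hB ⟨v, ?_, rfl⟩⟩
  refine Set.mem_biUnion he ?_
  rw [if_pos hA]
  exact hv

/-- almost surely all explorations have short side branches. For `v ∈ Reached s` take `z`, `z'`, `m` of
`last_ray`, `e = s m`. If `Desc s v` is infinite take `z = v`. Otherwise `Via` is infinite
(`OneE.exists_walk`, `th_lt`), so `Avoid` is finite (`via_or_avoid`). The finitely many `e` of
`gap_finite` (constant `⌈C1⌉₊` of `explode_avoid`) give finitely many `v` (`Avoid` finite, `v` is in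
it). For the other `e`: `nrm v < max R 0`, or `nrm v < 2 mid e ≤ 2 (1 + nrm z)`, or `near_tie` with
`X = C1 nrm v ^ (1-α)` gives `C1 mid e ^ (-(κ(α-1))) < C1 nrm v ^ (1-α)`, `nrm v < mid e ^ κ` -/
theorem short_ae (i0 : Fin d) {α κ : ℝ} (hα : 1 < α) (hκ : (d : ℝ) + α < κ * (α - 1)) :
    ∀ᵐ E ∂(PE d), ∀ s : ℕ → Edge d, (∀ n, G (tau α E) (lst s n)) → Short κ s := by
  obtain ⟨a, C, hh⟩ := hf_hm d
  have he0 : 0 < eta d := by
    unfold eta
    positivity
  have hd0 : (0 : ℝ) ≤ (d : ℝ) := Nat.cast_nonneg d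
  have he1 : eta d ≤ 1 := by
    unfold eta
    rw [div_le_one (by positivity)]
    linarith
  have hκ1 : 1 ≤ κ := by
    by_contra hcon
    push Not at hcon
    nlinarith
  obtain ⟨C1, R1, hC1, hexp⟩ := explode_avoid hh he0 he1 hα
  filter_upwards [conc d, ae_pos, explodes_ae i0 hα, via_or_avoid (d := d) α, gap_finite hα hκ]
    with E hconc hpos hex hva hgap s hG
  obtain ⟨R0, hCC⟩ := hconc
  have hτ : ∀ f, 0 < tau α E f := fun f =>
    div_pos (hpos f) (Real.rpow_pos_of_pos (mid_pos f) α)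
  have hE : ∀ e, 0 ≤ E e := fun e => (hpos e).le
  obtain ⟨θ, t1, _, _, _⟩ := exists_art hτ hG
  obtain ⟨B, hB⟩ := saes_bd (hgap ⌈C1⌉₊) (fun e => Avoid (tau α E) e)
  refine ⟨⌈max (max R1 R0) (max B 2)⌉₊, fun v hv => ?_⟩
  set D : ℝ := max (max R1 R0) (max B 2) with hD
  have hDc : D ≤ (⌈D⌉₊ : ℝ) := Nat.le_ceil D
  have hD1 : R1 ≤ D := (le_max_left _ _).trans (le_max_left _ _)
  have hD0 : R0 ≤ D := (le_max_right _ _).trans (le_max_left _ _)
  have hDB : B ≤ D := (le_max_left _ _).trans (le_max_right _ _)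
  have hD2 : 2 ≤ D := (le_max_right _ _).trans (le_max_right _ _)
  have hone : ∀ z : V d, 1 + nrm z ≤ (1 + nrm z) ^ κ := fun z => by
    have h1 : 1 ≤ 1 + nrm z := by have := nrm_nonneg z; linarith
    have h2 := Real.rpow_le_rpow_of_exponent_le h1 hκ1
    rwa [Real.rpow_one] at h2
  have hfin : ∀ (z : V d) (r : ℝ), r ≤ D → r ≤ (⌈D⌉₊ : ℝ) * (1 + nrm z) ^ κ := by
    intro z r hr
    have h1 := hone z
    have h2 := nrm_nonneg z
    nlinarith
  obtain ⟨z, z', m, hz, hzi, hz'i, hz1, hz1', hz2, hz2', hor⟩ := last_ray hG t1 hv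
  rcases hor with hvi | ⟨l, hl1, hl2, hl3⟩
  · refine ⟨v, Relation.ReflTransGen.refl, hvi, ?_⟩
    have h1 := hone v
    have h2 := nrm_nonneg v
    nlinarith
  refine ⟨z, hz, hzi, ?_⟩
  have hlt : wt (tau α E) 0 l < S (tau α E) 0 := by
    obtain ⟨n, hn⟩ := hv
    have h1 := th_lt i0 hτ hex (hG n) v hn
    rw [← t1 n v hn] at h1
    rw [hl2]
    exact h1
  have hvia : (Via (tau α E) (s m)).Infinite := by
    refine hz'i.mono fun u hu => ?_
    have hzr : z' ∈ Reached s := ⟨m + 1, ends_subset s m hz1'⟩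
    obtain ⟨n, hn⟩ := desc_reached hzr hu
    obtain ⟨l', h1, h2, h3⟩ := exists_walk hG n u hn
    exact ⟨l', h1, h2 ▸ th_lt i0 hτ hex (hG n) u hn, (h3 m z' hz1' hz2').2 hu⟩
  have hav : (Avoid (tau α E) (s m)).Finite := (hva hex (s m)).resolve_left hvia
  have hvav : v ∈ Avoid (tau α E) (s m) := ⟨l, hl1, hlt, hl3⟩
  have hmid := saes_mid hz1
  have hmid0 := mid_pos (s m)
  by_cases hbad : gap α E (s m) ≤ (⌈C1⌉₊ : ℝ) * mid (s m) ^ (-(κ * (α - 1)))
  · exact hfin z _ ((hB (s m) hbad hav v hvav).trans hDB)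
  push Not at hbad
  by_cases c1 : R1 ≤ nrm v
  swap
  · exact hfin z _ ((not_le.1 c1).le.trans hD1)
  by_cases c2 : R0 ≤ nrm v
  swap
  · exact hfin z _ ((not_le.1 c2).le.trans hD0)
  by_cases c3 : mid (s m) ≤ nrm v / 2
  swap
  · have h1 := hone z
    have h2 := nrm_nonneg z
    push Not at c3
    nlinarith
  have hX := hexp E R0 hE hCC v (s m) c1 c2 c3
  rw [← hl1] at hX
  have hg := near_tie hpos hex hvia hl3 hlt hX
  rw [hl1] at hg
  have hp : C1 * mid (s m) ^ (-(κ * (α - 1))) < C1 * nrm v ^ (1 - α) := by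
    refine lt_of_le_of_lt ?_ (hbad.trans_le hg)
    exact mul_le_mul_of_nonneg_right (Nat.le_ceil C1) (Real.rpow_nonneg hmid0.le _)
  have h1 : nrm v ≤ mid (s m) ^ κ := saes_pow hC1 hmid0 hα hp
  have h2 : mid (s m) ^ κ ≤ (1 + nrm z) ^ κ :=
    Real.rpow_le_rpow hmid0.le (by linarith) (by linarith)
  have h3 := hone z
  have h4 := nrm_nonneg z
  nlinarith
-- END saes

end OneR
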