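import Pool.Agent.OneR.Noc

/-!
Problem MP_b9fb85_pr: the arcs around the ray with the square root of the dimension.
-/

set_option autoImplicit false

namespace OneR

open Finset ConeD ConeD.TRANSAux OneE Filter MeasureTheory

variable {d : ℕ}

/-- the greatest value of the time constant on the unit sphere -/
noncomputable def muS (d : ℕ) : ℝ := ⨆ w : V d, mu w / nrm w

-- BEGIN mus
private theorem mus_eq_zero {w : V d} (h : ¬ 0 < nrm w) : w = 0 := by
  have h0 : nrm w = 0 := le_antisymm (not_lt.1 h) (nrm_nonneg w)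
  have h1 := nrm_sq w
  rw [h0] at h1
  have h2 : ∑ j : Fin d, ((w j : ℝ)) ^ 2 = 0 := by rw [← h1]; norm_num
  rw [Finset.sum_eq_zero_iff_of_nonneg fun j _ => sq_nonneg _] at h2
  funext j
  have h3 := h2 j (Finset.mem_univ j)
  have h4 : (w j : ℝ) = 0 := by simpa using h3
  exact_mod_cast h4

private theorem mus_zero : mu (0 : V d) = 0 := by
  obtain ⟨a, C, hh⟩ := hf_hm d
  have h1 := muh_le_nrm hh (0 : V d)
  have h2 := muh_low hh (0 : V d)
  rw [nrm_zero, mul_zero] at h1 h2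
  exact le_antisymm h1 h2

private theorem mus_bdd : BddAbove (Set.range fun w : V d => mu w / nrm w) := by
  obtain ⟨a, C, hh⟩ := hf_hm d
  refine ⟨(d : ℝ), ?_⟩
  rintro _ ⟨w, rfl⟩
  show mu w / nrm w ≤ d
  rcases (nrm_nonneg w).eq_or_lt with h | h
  · rw [← h, div_zero]
    exact Nat.cast_nonneg d
  · rw [div_le_iff₀ h]
    exact muh_le_nrm hh w

/-- the quotients are at most `d` (`muh_le_nrm` in OneR/Val, `hf_hm`), `mu 0 = 0` -/
theorem mu_le_muS (w : V d) : mu w ≤ muS d * nrm w := by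
  by_cases h : 0 < nrm w
  · rw [← div_le_iff₀ h]
    exact le_ciSup (f := fun w : V d => mu w / nrm w) mus_bdd w
  · rw [mus_eq_zero h, mus_zero, nrm_zero, mul_zero]

/-- `mu_ev_pos` (OneR/Arc) -/
theorem muS_pos (i : Fin d) : 0 < muS d := by
  have h1 := mu_le_muS (ev i : V d)
  rw [nrm_ev, mul_one] at h1
  exact (mu_ev_pos i).trans_le h1

/-- `exists_lt_of_lt_ciSup`; for `x = 0` the quotient is `0` (take `η < muS d`) -/
theorem exists_muS (i : Fin d) {η : ℝ} (hη : 0 < η) :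
    ∃ x : V d, x ≠ 0 ∧ (muS d - η) * nrm x ≤ mu x := by
  have hM := muS_pos i
  have hm : 0 < min η (muS d / 2) := lt_min hη (by linarith)
  have hlt : muS d - min η (muS d / 2) < ⨆ w : V d, mu w / nrm w := by
    show _ < muS d
    linarith
  obtain ⟨x, hx⟩ := exists_lt_of_lt_ciSup hlt
  have h2 : min η (muS d / 2) ≤ muS d / 2 := min_le_right _ _
  have h1 : min η (muS d / 2) ≤ η := min_le_left _ _
  by_cases h : 0 < nrm x
  · refine ⟨x, ?_, ?_⟩
    · rintro rfl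
      rw [nrm_zero] at h
      exact lt_irrefl _ h
    · rw [← le_div_iff₀ h]
      linarith
  · exfalso
    have h0 : nrm x = 0 := le_antisymm (not_lt.1 h) (nrm_nonneg x)
    rw [h0, div_zero] at hx
    linarith
-- END mus

-- BEGIN ncr
private theorem ncr_supp {M η : ℝ} (hM : ∀ w : V d, mu w ≤ M * nrm w) (hη : 0 < η) (hη1 : η ≤ 1 / 2)
    {x : V d} (hx : 0 < nrm x) (hx1 : (1 - η ^ 2) * (M * nrm x) ≤ mu x) (y : V d) :
    M * ip x y ≤ (mu y + 2 * M * η * nrm y) * nrm x := by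
  obtain ⟨a, C, hh⟩ := hf_hm d
  have hM0 : 0 ≤ M := by
    have h1 := hM x
    have h2 : 0 ≤ mu x := muh_nonneg hh x
    by_contra hlt
    push Not at hlt
    nlinarith [mul_neg_of_neg_of_pos hlt hx]
  rcases (nrm_nonneg y).eq_or_lt with hy0 | hy0
  · have hy1 : y = 0 := by
      have h1 := nrm_sq y
      rw [← hy0] at h1
      have h2 : ∀ k ∈ Finset.univ, ((y k : ℝ)) ^ 2 = 0 :=
        (Finset.sum_eq_zero_iff_of_nonneg fun k _ => sq_nonneg _).1 (by rw [← h1]; ring)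
      funext k
      have h3 := h2 k (Finset.mem_univ k)
      have h4 : (y k : ℝ) = 0 := by simpa using h3
      exact_mod_cast h4
    rw [hy1, ip_comm, ip_zero, nrm_zero, mul_zero, mul_zero, add_zero]
    exact mul_nonneg (muh_nonneg hh _) hx.le
  · -- multiples of `y`
    have key : ∀ j : ℕ, 0 < j → j * (M * ip x y) ≤
        j * ((mu y + 2 * M * η * nrm y) * nrm x) + M * η ^ 2 * nrm x ^ 2 := by
      intro j hj
      have hj0 : (0 : ℝ) < j := Nat.cast_pos.2 hj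
      obtain ⟨N, hN⟩ : ∃ N : ℕ, N = ⌈j * nrm y / (η * nrm x)⌉₊ := ⟨_, rfl⟩
      have hr0 : 0 < j * nrm y / (η * nrm x) := by positivity
      have hN1 : j * nrm y / (η * nrm x) ≤ N := by rw [hN]; exact Nat.le_ceil _
      have hN2 : (N : ℝ) < j * nrm y / (η * nrm x) + 1 := by
        rw [hN]; exact Nat.ceil_lt_add_one hr0.le
      have hN0 : (0 : ℝ) < N := hr0.trans_le hN1
      have hNn : 0 < N := by exact_mod_cast hN0
      have hN1' : j * nrm y ≤ N * (η * nrm x) := by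
        rwa [div_le_iff₀ (by positivity)] at hN1
      have hN2' : N * (η * nrm x) ≤ j * nrm y + η * nrm x := by
        have := mul_le_mul_of_nonneg_right hN2.le (by positivity : 0 ≤ η * nrm x)
        rw [add_mul, div_mul_cancel₀ _ (by positivity), one_mul] at this
        exact this
      -- the three inequalities of `mu`
      have m1 : N * mu x ≤ mu (N • x) := le_muh_nsmul hh hNn x
      have m2 : mu (N • x) ≤ mu (N • x - j • y) + mu (j • y) := by
        have h1 := muh_add hh (N • x - j • y) (j • y)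
        rwa [sub_add_cancel] at h1
      have m3 : mu (j • y) ≤ j * mu y := muh_nsmul_le hh j y
      have m4 := hM (N • x - j • y)
      -- the norm of `N x - j y`
      have n1 : nrm (N • x - j • y) ^ 2 = N ^ 2 * nrm x ^ 2 - 2 * (N * (j * ip x y)) + j ^ 2 * nrm y ^ 2 := by
        rw [sub_eq_add_neg, nrm_add_sq, nrm_neg, nrm_nsmul, nrm_nsmul, ip_nsmul, ip_comm x (-(j • y)),
          ip_neg, ip_nsmul, ip_comm y x]
        ring
      have cs : ip x y ≤ nrm x * nrm y := (le_abs_self _).trans (abs_ip_le x y)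
      generalize nrm (N • x - j • y) = L at *
      generalize mu (N • x - j • y) = mL at *
      generalize mu (N • x) = mN at *
      generalize mu (j • y) = mj at *
      generalize ip x y = P at *
      generalize nrm x = X at *
      generalize nrm y = Y at *
      generalize mu x = mX at *
      generalize mu y = mY at *
      generalize (j : ℝ) = J at *
      generalize (N : ℝ) = K at *
      have g1 : 2 * (J * Y) ≤ K * X := by
        have e1 : K * (η * X) ≤ K * X * (1 / 2) := by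
          have := mul_le_mul_of_nonneg_left hη1 (by positivity : 0 ≤ K * X)
          nlinarith
        linarith
      have g2 : J * P ≤ J * (X * Y) := mul_le_mul_of_nonneg_left cs hj0.le
      have g3 : 0 ≤ K * X ^ 2 - J * P := by
        have := mul_le_mul_of_nonneg_right g1 hx.le
        nlinarith [mul_pos (mul_pos hj0 hy0) hx]
      have n2 : L * X ≤ K * X ^ 2 - J * P + J * Y * (η * X) := by
        refine le_of_sq_le_sq ?_ (by positivity)
        have e1 : (L * X) ^ 2 = (K ^ 2 * X ^ 2 - 2 * (K * (J * P)) + J ^ 2 * Y ^ 2) * X ^ 2 := by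
          rw [mul_pow, n1]
        have e2 : (J * Y * X) * (J * Y) ≤ (J * Y * X) * (K * (η * X)) :=
          mul_le_mul_of_nonneg_left hN1' (by positivity)
        have e3 : (J * Y * (η * X)) * (J * P) ≤ (J * Y * (η * X)) * (J * (X * Y)) :=
          mul_le_mul_of_nonneg_left g2 (by positivity)
        have e4 : (J * Y * X) ^ 2 * η ≤ (J * Y * X) ^ 2 * (1 / 2) :=
          mul_le_mul_of_nonneg_left hη1 (by positivity)
        rw [e1]
        nlinarith [sq_nonneg (J * P), sq_nonneg (J * Y * (η * X))]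
      have f1 : M * (L * X) ≤ M * (K * X ^ 2 - J * P + J * Y * (η * X)) :=
        mul_le_mul_of_nonneg_left n2 hM0
      have f2 : (K * mX - J * mY) * X ≤ M * L * X :=
        mul_le_mul_of_nonneg_right (by linarith) hx.le
      have f3 : K * ((1 - η ^ 2) * (M * X)) * X ≤ K * mX * X :=
        mul_le_mul_of_nonneg_right (mul_le_mul_of_nonneg_left hx1 hN0.le) hx.le
      have f4 : (K * (η * X)) * (η * M * X) ≤ (J * Y + η * X) * (η * M * X) :=
        mul_le_mul_of_nonneg_right hN2' (by positivity)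
      nlinarith
    by_contra hlt
    push Not at hlt
    obtain ⟨j, hj⟩ := exists_nat_gt (M * η ^ 2 * nrm x ^ 2 /
      (M * ip x y - (mu y + 2 * M * η * nrm y) * nrm x))
    have hpos : 0 < M * ip x y - (mu y + 2 * M * η * nrm y) * nrm x := by linarith
    have hj0 : (0 : ℝ) < j := lt_of_le_of_lt (by positivity) hj
    rw [div_lt_iff₀ hpos] at hj
    have := key j (by exact_mod_cast hj0)
    nlinarith

/-- a nearly critical point: `x` from `exists_muS` with `η ^ 2 / (4 M)`, `M = muS d`. For `y ≠ 0` and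
positive naturals `N`, `K`: `M * nrm (N • x - K • y) ≥ mu (N • x - K • y) ≥ N * mu x - K * mu y`
(`muh_add`, `hm_neg`, homogeneity `muh_nsmul_le`, `le_muh_nsmul`) and
`nrm (N • x - K • y) ≤ N nrm x - K ip x y / nrm x + K ^ 2 nrm y ^ 2 / (2 N nrm x)` (squares); so
`M ip x y / nrm x ≤ mu y + ρ η ^ 2 / (4 M) + M nrm y ^ 2 / (2 ρ)` with `ρ = N nrm x / K`; take `N`, `K`
with `M / η * nrm y ≤ ρ ≤ 2 * (M / η) * nrm y` -/
theorem near_crit (i : Fin d) {η : ℝ} (hη : 0 < η) :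
    ∃ x : V d, x ≠ 0 ∧ ∀ y : V d, muS d * (ip x y / nrm x) ≤ mu y + η * nrm y := by
  have hM := muS_pos i
  have hη1 : 0 < min (1 / 2) (η / (2 * muS d)) := lt_min (by norm_num) (by positivity)
  generalize hηe : min (1 / 2) (η / (2 * muS d)) = e at hη1
  have he1 : e ≤ 1 / 2 := by rw [← hηe]; exact min_le_left _ _
  have he2 : 2 * muS d * e ≤ η := by
    have h1 : e ≤ η / (2 * muS d) := by rw [← hηe]; exact min_le_right _ _
    rw [le_div_iff₀ (by positivity)] at h1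
    linarith
  obtain ⟨x, hx0, hx1⟩ := exists_muS i (η := muS d * e ^ 2) (by positivity)
  have hx : 0 < nrm x := by
    rcases (nrm_nonneg x).eq_or_lt with h | h
    · refine absurd ?_ hx0
      have h1 := nrm_sq x
      rw [← h] at h1
      have h2 : ∀ k ∈ Finset.univ, ((x k : ℝ)) ^ 2 = 0 :=
        (Finset.sum_eq_zero_iff_of_nonneg fun k _ => sq_nonneg _).1 (by rw [← h1]; ring)
      funext k
      have h3 := h2 k (Finset.mem_univ k)
      have h4 : (x k : ℝ) = 0 := by simpa using h3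
      exact_mod_cast h4
    · exact h
  refine ⟨x, hx0, fun y => ?_⟩
  have h1 := ncr_supp mu_le_muS hη1 he1 hx (by nlinarith) y
  rw [mul_div_assoc', div_le_iff₀ hx]
  refine h1.trans (mul_le_mul_of_nonneg_right ?_ hx.le)
  have := mul_le_mul_of_nonneg_right he2 (nrm_nonneg y)
  linarith
-- END ncr

-- BEGIN rot
private theorem rot_avg [NeZero d] (a b : Fin d → ℝ) :
    ∃ s : Fin d, (∑ k, a k ^ 2) * (∑ k, b k ^ 2) ≤ d * (∑ k, |a k| * |b (k + s)|) ^ 2 := by
  by_contra hcon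
  push Not at hcon
  have h1 : ∑ s : Fin d, (d : ℝ) * (∑ k, |a k| * |b (k + s)|) ^ 2 <
      ∑ s : Fin d, (∑ k, a k ^ 2) * (∑ k, b k ^ 2) :=
    Finset.sum_lt_sum_of_nonempty ⟨0, Finset.mem_univ _⟩ fun s _ => hcon s
  have h2 : ∀ s : Fin d, ∑ k, a k ^ 2 * b (k + s) ^ 2 ≤ (∑ k, |a k| * |b (k + s)|) ^ 2 := by
    intro s
    rw [sq (∑ k, |a k| * |b (k + s)|), Finset.sum_mul]
    refine Finset.sum_le_sum fun k _ => ?_
    have h3 : |a k| * |b (k + s)| ≤ ∑ j, |a j| * |b (j + s)| :=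
      Finset.single_le_sum (f := fun j => |a j| * |b (j + s)|)
        (fun j _ => mul_nonneg (abs_nonneg _) (abs_nonneg _)) (Finset.mem_univ k)
    have h4 : 0 ≤ |a k| * |b (k + s)| := mul_nonneg (abs_nonneg _) (abs_nonneg _)
    calc a k ^ 2 * b (k + s) ^ 2 = (|a k| * |b (k + s)|) * (|a k| * |b (k + s)|) := by
          rw [← sq_abs (a k), ← sq_abs (b (k + s))]
          ring
      _ ≤ (|a k| * |b (k + s)|) * ∑ j, |a j| * |b (j + s)| := mul_le_mul_of_nonneg_left h3 h4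
  have h5 : ∑ s : Fin d, ∑ k, a k ^ 2 * b (k + s) ^ 2 = (∑ k, a k ^ 2) * (∑ k, b k ^ 2) := by
    rw [Finset.sum_comm, Finset.sum_mul]
    refine Finset.sum_congr rfl fun k _ => ?_
    rw [← Finset.mul_sum]
    congr 1
    exact Equiv.sum_comp (Equiv.addLeft k) fun j => b j ^ 2
  have h6 : (d : ℝ) * ((∑ k, a k ^ 2) * (∑ k, b k ^ 2)) ≤
      ∑ s : Fin d, (d : ℝ) * (∑ k, |a k| * |b (k + s)|) ^ 2 := by
    rw [← Finset.mul_sum, ← h5]
    exact mul_le_mul_of_nonneg_left (Finset.sum_le_sum fun s _ => h2 s) (Nat.cast_nonneg d)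
  rw [Finset.sum_const, Finset.card_univ, Fintype.card_fin, nsmul_eq_mul] at h1
  linarith

/-- `e k = ±1` with `e k * x k * z (σ k) = |x k| |z (σ k)|`, `σ` one of the `d` cyclic shifts; the sum over
the shifts and over `k` of `x k ^ 2 * z (σ k) ^ 2` is `nrm x ^ 2 * nrm z ^ 2`, and
`(∑ |x k| |z (σ k)|) ^ 2 ≥ ∑ x k ^ 2 z (σ k) ^ 2` -/
theorem exists_rot (i : Fin d) (x z : V d) :
    ∃ (σ : Equiv.Perm (Fin d)) (e : Fin d → ℤ), (∀ k, e k = 1 ∨ e k = -1) ∧
      nrm x * nrm z ≤ Real.sqrt d * ip x (fun k => e k * z (σ k)) := by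
  have hne : NeZero d := ⟨fun h => by subst h; exact i.elim0⟩
  obtain ⟨s, hs⟩ := rot_avg (fun k => (x k : ℝ)) (fun k => (z k : ℝ))
  refine ⟨Equiv.addRight s, fun k => if 0 ≤ x k * z (k + s) then 1 else -1, fun k => ?_, ?_⟩
  · by_cases h : 0 ≤ x k * z (k + s)
    · exact Or.inl (if_pos h)
    · exact Or.inr (if_neg h)
  · have h1 : ip x (fun k => (if 0 ≤ x k * z (k + s) then 1 else -1) * z (Equiv.addRight s k)) =
        ∑ k, |(x k : ℝ)| * |(z (k + s) : ℝ)| := by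
      unfold ip
      refine Finset.sum_congr rfl fun k _ => ?_
      show (x k : ℝ) * (((if 0 ≤ x k * z (k + s) then 1 else -1) * z (k + s) : ℤ) : ℝ) = _
      rw [← abs_mul]
      by_cases h : 0 ≤ x k * z (k + s)
      · have h' : (0 : ℝ) ≤ (x k : ℝ) * (z (k + s) : ℝ) := by exact_mod_cast h
        rw [if_pos h, abs_of_nonneg h']
        push_cast
        ring
      · have h' : (x k : ℝ) * (z (k + s) : ℝ) < 0 := by exact_mod_cast not_le.1 h
        rw [if_neg h, abs_of_neg h']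
        push_cast
        ring
    have h2 : 0 ≤ ∑ k, |(x k : ℝ)| * |(z (k + s) : ℝ)| :=
      Finset.sum_nonneg fun k _ => mul_nonneg (abs_nonneg _) (abs_nonneg _)
    rw [h1]
    have h3 : 0 ≤ ∑ k, (x k : ℝ) ^ 2 := Finset.sum_nonneg fun k _ => sq_nonneg _
    unfold nrm
    rw [← Real.sqrt_mul h3]
    calc Real.sqrt ((∑ k, (x k : ℝ) ^ 2) * ∑ k, (z k : ℝ) ^ 2)
        ≤ Real.sqrt (d * (∑ k, |(x k : ℝ)| * |(z (k + s) : ℝ)|) ^ 2) := Real.sqrt_le_sqrt hs
      _ = Real.sqrt d * ∑ k, |(x k : ℝ)| * |(z (k + s) : ℝ)| := by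
          rw [Real.sqrt_mul (Nat.cast_nonneg d), Real.sqrt_sq h2]
-- END rot

-- BEGIN sgn
private theorem sgn_flps (s : Finset (Fin d)) : ∀ z : V d,
    hm (fun k => if k ∈ s then -z k else z k : V d) = hm z := by
  classical
  induction s using Finset.induction_on with
  | empty => intro z; simp
  | insert a s ha ih =>
    intro z
    have h : (fun k => if k ∈ insert a s then -z k else z k : V d) =
        flp a (fun k => if k ∈ s then -z k else z k : V d) := by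
      funext k
      unfold flp
      by_cases hk : k = a
      · subst hk
        simp [ha]
      · simp [hk]
    rw [h, hm_flp, ih]

private theorem sgn_hm (σ : Equiv.Perm (Fin d)) {e : Fin d → ℤ} (he : ∀ k, e k = 1 ∨ e k = -1)
    (z : V d) : hm (fun k => e k * z (σ k) : V d) = hm z := by
  classical
  have h : (fun k => e k * z (σ k) : V d) =
      (fun k => if k ∈ (Finset.univ.filter fun k => e k = -1) then -(fun k => z (σ k) : V d) k
        else (fun k => z (σ k) : V d) k : V d) := by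
    funext k
    rcases he k with h1 | h1
    · simp [h1]
    · simp [h1]
  rw [h, sgn_flps, hm_prm]

/-- `hm_prm`, and `hm_flp` (OneR/Arc) for the coordinates with `e k = -1`, one after the other -/
theorem mu_sgn (σ : Equiv.Perm (Fin d)) {e : Fin d → ℤ} (he : ∀ k, e k = 1 ∨ e k = -1) (z : V d) :
    mu (fun k => e k * z (σ k)) = mu z := by
  unfold mu muh
  refine iInf_congr fun n => ?_
  have h1 : (n + 1) • (fun k => e k * z (σ k) : V d) =
      (fun k => e k * ((n + 1) • z : V d) (σ k) : V d) := by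
    funext k
    simp only [Pi.smul_apply, nsmul_eq_mul]
    ring
  rw [h1, sgn_hm σ he]

/-- as it says -/
theorem nrm_sgn (σ : Equiv.Perm (Fin d)) {e : Fin d → ℤ} (he : ∀ k, e k = 1 ∨ e k = -1) (z : V d) :
    nrm (fun k => e k * z (σ k)) = nrm z := by
  unfold nrm
  congr 1
  rw [← Equiv.sum_comp σ (fun j => ((z j : ℤ) : ℝ) ^ 2)]
  refine Finset.sum_congr rfl fun k _ => ?_
  show (((e k * z (σ k) : ℤ)) : ℝ) ^ 2 = ((z (σ k) : ℤ) : ℝ) ^ 2
  rcases he k with h1 | h1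
  · rw [h1, one_mul]
  · rw [h1]; push_cast; ring
-- END sgn

-- BEGIN cmp
/-- `near_crit`, `exists_rot`, `mu_sgn`, `nrm_sgn`, then `η → 0` -/
theorem muS_le (i : Fin d) (z : V d) : muS d * nrm z ≤ Real.sqrt d * mu z := by
  have hM := muS_pos i
  have hs : 0 ≤ Real.sqrt d := Real.sqrt_nonneg _
  have hz := nrm_nonneg z
  have hsz := mul_nonneg hs hz
  refine le_of_forall_pos_le_add fun t ht => ?_
  obtain ⟨η, hηd⟩ : ∃ η : ℝ, η = t / (Real.sqrt d * nrm z + 1) := ⟨_, rfl⟩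
  have hη : 0 < η := by
    rw [hηd]
    exact div_pos ht (by linarith)
  obtain ⟨x, hx0, hx⟩ := near_crit i hη
  obtain ⟨σ, e, he, hr⟩ := exists_rot i x z
  have h1 := hx (fun k => e k * z (σ k))
  rw [mu_sgn σ he z, nrm_sgn σ he z] at h1
  have hxp : 0 < nrm x := by
    refine lt_of_le_of_ne (nrm_nonneg x) fun h => hx0 ?_
    have h3 : ∑ j : Fin d, ((x j : ℝ)) ^ 2 = 0 := by
      rw [← nrm_sq, ← h]
      norm_num
    funext k
    have h4 := (Finset.sum_eq_zero_iff_of_nonneg fun j _ => sq_nonneg ((x j : ℝ))).1 h3 k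
      (Finset.mem_univ k)
    have h5 : (x k : ℝ) = 0 := by
      exact pow_eq_zero_iff (two_ne_zero) |>.1 h4
    exact_mod_cast h5
  obtain ⟨c, hc⟩ : ∃ c : ℝ, c = ip x (fun k => e k * z (σ k)) := ⟨_, rfl⟩
  rw [← hc] at h1 hr
  have h2 : nrm z ≤ Real.sqrt d * (c / nrm x) := by
    rw [← mul_div_assoc, le_div_iff₀ hxp]
    linarith
  have h3 := mul_le_mul_of_nonneg_left h2 hM.le
  have h4 := mul_le_mul_of_nonneg_left h1 hs
  have h5 : η * (Real.sqrt d * nrm z) ≤ t := by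
    rw [hηd, div_mul_eq_mul_div, div_le_iff₀ (by linarith)]
    linarith
  have h6 : muS d * (Real.sqrt d * (c / nrm x)) = Real.sqrt d * (muS d * (c / nrm x)) := by ring
  have h7 : Real.sqrt d * (mu z + η * nrm z) = Real.sqrt d * mu z +
      η * (Real.sqrt d * nrm z) := by ring
  linarith
-- END cmp

-- BEGIN hus
private theorem hus_one (w : V d) :
    ∃ C : ℝ, 0 ≤ C ∧ ∀ n : ℕ, hm (n • w) ≤ (mu w + 1) * n + C := by
  obtain ⟨a, C, hh⟩ := hf_hm d
  have h0 : 0 ≤ mu w := muh_nonneg hh w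
  have h1 := (muh_tendsto hh w).eventually_lt_const
    (show muh hm w < mu w + 1 by unfold mu; linarith)
  obtain ⟨N, hN⟩ := eventually_atTop.1 h1
  have hw := nrm_nonneg w
  refine ⟨(d : ℝ) * ((N + 1) * nrm w), by positivity, fun n => ?_⟩
  rcases Nat.lt_or_ge n (N + 1) with hn | hn
  · have h3 : hm (n • w) ≤ d * ((N + 1) * nrm w) := by
      refine (hm_le _).trans ?_
      rw [nrm_nsmul]
      have h4 : (n : ℝ) ≤ N + 1 := by exact_mod_cast hn.le
      exact mul_le_mul_of_nonneg_left (mul_le_mul_of_nonneg_right h4 hw) (Nat.cast_nonneg d)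
    have h4 : 0 ≤ (mu w + 1) * (n : ℝ) := by positivity
    linarith
  · have h3 := hN n (by omega)
    have hn0 : (0 : ℝ) < n := by
      have : 0 < n := by omega
      exact_mod_cast this
    rw [div_lt_iff₀ hn0] at h3
    have h4 : 0 ≤ (d : ℝ) * ((N + 1) * nrm w) := by positivity
    linarith

private theorem hus_toE_nsmul (j : ℕ) (w : V d) : toE (j • w) = (j : ℝ) • toE w := by
  ext k
  simp [toE_apply]

private theorem hus_round (z : V d) (N : ℕ) :
    ∃ w : V d, ‖toE w - ((N : ℝ) / nrm z) • toE z‖ ≤ Real.sqrt d := by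
  refine ⟨fun k => round (((N : ℝ) / nrm z) * z k), ?_⟩
  rw [EuclideanSpace.norm_eq]
  refine Real.sqrt_le_sqrt ?_
  have h2 : ∀ k ∈ (Finset.univ : Finset (Fin d)),
      ‖(toE (fun k => round (((N : ℝ) / nrm z) * z k)) - ((N : ℝ) / nrm z) • toE z) k‖ ^ 2 ≤
        (1 : ℝ) := by
    intro k _
    have h3 : (toE (fun k => round (((N : ℝ) / nrm z) * z k)) - ((N : ℝ) / nrm z) • toE z) k =
        ((round (((N : ℝ) / nrm z) * z k) : ℤ) : ℝ) - ((N : ℝ) / nrm z) * z k := rfl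
    rw [h3, Real.norm_eq_abs, abs_sub_comm]
    have h4 := abs_sub_round (((N : ℝ) / nrm z) * z k)
    nlinarith [abs_nonneg (((N : ℝ) / nrm z) * z k - (round (((N : ℝ) / nrm z) * z k) : ℝ))]
  refine (Finset.sum_le_card_nsmul _ _ _ h2).trans ?_
  rw [Finset.card_univ, Fintype.card_fin, nsmul_eq_mul, mul_one]

/-- for `N` large: `z = j • w + r` with `w` the rounding of `(N / nrm z) z` (finitely many `w`),
`j = ⌊nrm z / N⌋₊`, `nrm r ≤ √d nrm z / N + 2 N + √d`; `hm (j • w) ≤ (mu w + 1) j + C w` (`muh_tendsto` in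
OneR/Crit), `mu_le_muS`, `nrm w ≤ N + √d`, `hm r ≤ d * nrm r` (`hm_le`) -/
theorem hm_upS (i : Fin d) {ε : ℝ} (hε : 0 < ε) :
    ∃ C : ℝ, 0 ≤ C ∧ ∀ z : V d, hm z ≤ (muS d + ε) * nrm z + C := by
  classical
  obtain ⟨M, hM⟩ : ∃ M : ℝ, M = muS d := ⟨_, rfl⟩
  have hM0 : 0 < M := hM ▸ muS_pos i
  obtain ⟨sq, hsq⟩ : ∃ sq : ℝ, sq = Real.sqrt d := ⟨_, rfl⟩
  have hsq0 : 0 ≤ sq := hsq ▸ Real.sqrt_nonneg _
  have hd0 : (0 : ℝ) ≤ d := Nat.cast_nonneg d
  choose C1 hC1 hC2 using fun w : V d => hus_one w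
  obtain ⟨N, hN⟩ := exists_nat_gt ((M * sq + 1 + d * sq) / ε)
  have hN0 : (0 : ℝ) < N := lt_of_le_of_lt (by positivity) hN
  rw [div_lt_iff₀ hε] at hN
  have hfin : {x : V d | nrm x ≤ N + Real.sqrt d}.Finite := finite_ball _
  have hS : 0 ≤ ∑ w ∈ hfin.toFinset, C1 w := Finset.sum_nonneg fun w _ => hC1 w
  refine ⟨∑ w ∈ hfin.toFinset, C1 w + d * N, by positivity, fun z => ?_⟩
  rw [← hM]
  rcases (nrm_nonneg z).eq_or_lt with hz | hz
  · have h1 := hm_le z
    rw [← hz, mul_zero] at h1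
    rw [← hz, mul_zero]
    have : 0 ≤ (d : ℝ) * N := by positivity
    linarith
  obtain ⟨w, hw⟩ := hus_round z N
  rw [← hsq] at hw
  have hzn : ‖((N : ℝ) / nrm z) • toE z‖ = N := by
    rw [norm_smul, ← nrm_eq, Real.norm_of_nonneg (by positivity)]
    field_simp
  have hwn : nrm w ≤ N + sq := by
    have h1 := norm_sub_norm_le (toE w) (((N : ℝ) / nrm z) • toE z)
    rw [hzn, ← nrm_eq] at h1
    linarith
  obtain ⟨j, hj⟩ : ∃ j : ℕ, j = ⌊nrm z / N⌋₊ := ⟨_, rfl⟩
  have hj1 : (j : ℝ) * N ≤ nrm z := by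
    rw [← le_div_iff₀ hN0, hj]
    exact Nat.floor_le (by positivity)
  have hj2 : nrm z ≤ (j : ℝ) * N + N := by
    have h1 := (Nat.lt_floor_add_one (nrm z / N)).le
    rw [← hj, div_le_iff₀ hN0] at h1
    linarith
  have hr : nrm (z - j • w) ≤ N + j * sq := by
    have e1 : toE (z - j • w) = (1 - (j : ℝ) * (N / nrm z)) • toE z -
        (j : ℝ) • (toE w - ((N : ℝ) / nrm z) • toE z) := by
      rw [toE_sub, hus_toE_nsmul]
      module
    rw [nrm_eq, e1]
    refine (norm_sub_le _ _).trans (add_le_add ?_ ?_)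
    · rw [norm_smul, ← nrm_eq]
      have e2 : (1 - (j : ℝ) * (N / nrm z)) = (nrm z - j * N) / nrm z := by
        field_simp
      rw [e2, Real.norm_of_nonneg (div_nonneg (by linarith) hz.le), div_mul_cancel₀ _ hz.ne']
      linarith
    · rw [norm_smul, Real.norm_of_nonneg (Nat.cast_nonneg j)]
      exact mul_le_mul_of_nonneg_left hw (Nat.cast_nonneg j)
  have h1 : hm z ≤ hm (j • w) + hm (z - j • w) := by
    have := hm_add_le (j • w) (z - j • w)
    rwa [add_sub_cancel] at this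
  have h2 : hm (j • w) ≤ (mu w + 1) * j + C1 w := hC2 w j
  have h3 : C1 w ≤ ∑ w ∈ hfin.toFinset, C1 w :=
    Finset.single_le_sum (f := C1) (fun w _ => hC1 w)
      (hfin.mem_toFinset.2 (by rw [← hsq]; exact hwn))
  have h4 : mu w ≤ M * (N + sq) := by
    have h5 := mu_le_muS w
    rw [← hM] at h5
    exact h5.trans (mul_le_mul_of_nonneg_left hwn hM0.le)
  have h5 : hm (z - j • w) ≤ d * (N + j * sq) :=
    (hm_le _).trans (mul_le_mul_of_nonneg_left hr hd0)
  have hj0 : (0 : ℝ) ≤ j := Nat.cast_nonneg j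
  have h6 : (mu w + 1) * j ≤ (M * (N + sq) + 1) * j :=
    mul_le_mul_of_nonneg_right (by linarith) hj0
  have h7 : M * (j * N) ≤ M * nrm z := mul_le_mul_of_nonneg_left hj1 hM0.le
  have h8 : (M * sq + 1 + d * sq) * j ≤ ε * nrm z := by
    have h9 : (M * sq + 1 + d * sq) * j ≤ (N * ε) * j := mul_le_mul_of_nonneg_right hN.le hj0
    have h10 := mul_le_mul_of_nonneg_left hj1 hε.le
    nlinarith
  nlinarith
-- END hus

-- BEGIN lgs
/-- as `leg_walk` (OneR/Arc), `ball_walk` (OneR/Fat): `T E x y ≤ h (y - x) + (2 nrm x) ^ (1 - η)` (`CC` at `2 nrm x`), a walk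
with `E`-weight at most this plus one; its vertices are within `M δ nrm x` of `x`, `M` depending on
`a`, `b` only (the first vertex outside, `CC` again, `HF.low`), so the midpoints have norm at least
`(1 - M δ) nrm x - 1`; `wt_tau_le` -/
theorem leg_walkS {h : V d → ℝ} {a b C : ℝ} (hh : HF h a b C) {η : ℝ} (hη : 0 < η) (hη1 : η ≤ 1)
    {α : ℝ} (hα : 1 < α) {ε : ℝ} (hε : 0 < ε) :
    ∃ δ : ℝ, 0 < δ ∧ δ ≤ 1 / 2 ∧ ∀ κ C1 : ℝ, 0 ≤ κ → 0 ≤ C1 →
      (∀ z, h z ≤ κ * nrm z + C1) → ∀ ε' : ℝ, 0 < ε' → ∃ R1 : ℝ,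
      ∀ (E : Edge d → ℝ) (R0 : ℝ), (∀ e, 0 ≤ E e) → CC h η E R0 →
      ∀ x y : V d, R1 ≤ nrm x → R0 ≤ nrm x → nrm (y - x) ≤ δ * nrm x →
        ∃ l : List (Step d), endp x l = y ∧ wt (tau α E) x l ≤
          (1 + ε) * nrm x ^ (-α) * (κ * nrm (y - x) + ε' * nrm x) := by
  have ha : 0 < a := hh.pos
  have hα0 : 0 < α := by linarith
  obtain ⟨θ, hθ0, hθ4, hθε⟩ : ∃ θ : ℝ, 0 < θ ∧ θ ≤ 1 / 4 ∧ (1 - 2 * θ) ^ (-α) ≤ 1 + ε := by
    have hq0 : 0 < (1 + ε) ^ (-(1 / α)) := Real.rpow_pos_of_pos (by linarith) _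
    have hq1 : (1 + ε) ^ (-(1 / α)) < 1 :=
      Real.rpow_lt_one_of_one_lt_of_neg (by linarith) (by
        have : 0 < 1 / α := by positivity
        linarith)
    refine ⟨min (1 / 4) ((1 - (1 + ε) ^ (-(1 / α))) / 2), lt_min (by norm_num) (by linarith),
      min_le_left _ _, ?_⟩
    have h1 : (1 + ε) ^ (-(1 / α)) ≤
        1 - 2 * min (1 / 4) ((1 - (1 + ε) ^ (-(1 / α))) / 2) := by
      have := min_le_right (1 / 4) ((1 - (1 + ε) ^ (-(1 / α))) / 2)
      linarith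
    have h2 := Real.rpow_le_rpow_of_nonpos hq0 h1 (by linarith : -α ≤ 0)
    refine h2.trans (le_of_eq ?_)
    rw [← Real.rpow_mul (by linarith)]
    have h3 : -(1 / α) * -α = 1 := by field_simp
    rw [h3, Real.rpow_one]
  have hB : 0 < |b| + 1 := by positivity
  obtain ⟨k0, hk0, hka⟩ : ∃ k : ℝ, 0 < k ∧ 2 * k ≤ a * θ :=
    ⟨a * θ / 2, by positivity, by linarith⟩
  refine ⟨min (1 / 2) (k0 / (|b| + 1)), lt_min (by norm_num) (by positivity), min_le_left _ _, ?_⟩
  intro κ C1 hκ hC1n hup ε' hε'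
  obtain ⟨k1, hk1, hk10, hk1ε⟩ : ∃ k : ℝ, 0 < k ∧ k ≤ k0 ∧ k ≤ ε' :=
    ⟨min k0 ε', lt_min hk0 hε', min_le_left _ _, min_le_right _ _⟩
  have hY : 0 < (8 / k1) ^ (1 / η) := Real.rpow_pos_of_pos (by positivity) _
  refine ⟨max 2 (max ((8 / k1) ^ (1 / η)) (max (2 * (C + C1 + 1) / k1) (1 / (2 * θ)))), ?_⟩
  intro E R0 hE hCC x y hr hR0 hv
  obtain ⟨r, hrdef⟩ : ∃ r : ℝ, r = nrm x := ⟨_, rfl⟩
  obtain ⟨ρ, hρdef⟩ : ∃ ρ : ℝ, ρ = min (1 / 2) (k0 / (|b| + 1)) := ⟨_, rfl⟩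
  rw [← hρdef, ← hrdef] at hv
  rw [← hrdef] at hr hR0
  rw [← hrdef]
  have hρ1 : ρ ≤ 1 / 2 := by rw [hρdef]; exact min_le_left _ _
  have hρk : |b| * ρ ≤ k0 := by
    have h1 : ρ ≤ k0 / (|b| + 1) := by rw [hρdef]; exact min_le_right _ _
    have h2 : |b| * ρ ≤ |b| * (k0 / (|b| + 1)) := mul_le_mul_of_nonneg_left h1 (abs_nonneg b)
    have h3 : |b| * (k0 / (|b| + 1)) ≤ k0 := by
      rw [mul_div_assoc', div_le_iff₀ hB]
      nlinarith [abs_nonneg b]
    linarith
  have hr2 : 2 ≤ r := (le_max_left _ _).trans hr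
  have hr0 : 0 < r := by linarith
  have hr' := (le_max_right _ _).trans hr
  have hrY : (8 / k1) ^ (1 / η) ≤ r := (le_max_left _ _).trans hr'
  have hr'' := (le_max_right _ _).trans hr'
  have hrC : 2 * (C + C1 + 1) / k1 ≤ r := (le_max_left _ _).trans hr''
  have hrθ : 1 / (2 * θ) ≤ r := (le_max_right _ _).trans hr''
  have hθr : 1 / 2 ≤ θ * r := by
    rw [div_le_iff₀ (by positivity)] at hrθ
    linarith
  have hX : (2 * r) ^ (1 - η) ≤ k1 / 4 * r := by
    have h1 : 8 / k1 ≤ (2 * r) ^ η := by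
      have h2 : ((8 / k1) ^ (1 / η)) ^ η = 8 / k1 := by
        rw [← Real.rpow_mul (by positivity), one_div, inv_mul_cancel₀ hη.ne', Real.rpow_one]
      rw [← h2]
      exact Real.rpow_le_rpow hY.le (by linarith) hη.le
    have h3 : 0 < (2 * r) ^ η := Real.rpow_pos_of_pos (by linarith) _
    rw [Real.rpow_sub (by linarith), Real.rpow_one, div_le_iff₀ h3]
    have h4 : k1 / 4 * r * (8 / k1) ≤ k1 / 4 * r * (2 * r) ^ η :=
      mul_le_mul_of_nonneg_left h1 (by positivity)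
    have h5 : k1 / 4 * r * (8 / k1) = 2 * r := by
      field_simp
      norm_num
    linarith
  have hX0 : 0 ≤ (2 * r) ^ (1 - η) := Real.rpow_nonneg (by linarith) _
  have hC1 : C + C1 + 1 ≤ k1 / 2 * r := by
    rw [div_le_iff₀ hk1] at hrC
    linarith
  have hC0 := hh.Cnn
  have hyz : nrm y ≤ 2 * r := by
    have h1 := nrm_le_add y x
    have h2 : ρ * r ≤ 1 / 2 * r := mul_le_mul_of_nonneg_right hρ1 hr0.le
    rw [← hrdef] at h1
    linarith
  have hxx : nrm x ≤ 2 * r := by rw [← hrdef]; linarith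
  have hT := hCC (2 * r) (by linarith) x y hxx hyz
  have hT2 := (abs_le.mp hT).2
  have hhv : h (y - x) ≤ k0 * r := by
    have h1 : h (y - x) ≤ |b| * nrm (y - x) := (hh.up _).trans
      (mul_le_mul_of_nonneg_right (le_abs_self b) (nrm_nonneg _))
    have h2 : |b| * nrm (y - x) ≤ |b| * (ρ * r) := mul_le_mul_of_nonneg_left hv (abs_nonneg b)
    have h3 : |b| * ρ * r ≤ k0 * r := mul_le_mul_of_nonneg_right hρk hr0.le
    linarith
  have hk1r : k1 * r ≤ k0 * r := mul_le_mul_of_nonneg_right hk10 hr0.le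
  have hk1e : k1 * r ≤ ε' * r := mul_le_mul_of_nonneg_right hk1ε hr0.le
  obtain ⟨l, hl, hwl⟩ := exists_wt_lt (τ := E) (x := x) (y := y)
    (t := h (y - x) + (2 * r) ^ (1 - η) + 1) (by linarith)
  have hconf : ∀ l1 : List (Step d), (∃ l2, l = l1 ++ l2) → nrm (endp x l1 - x) ≤ θ * r := by
    intro l1
    induction l1 using List.reverseRecOn with
    | nil =>
      intro _
      rw [endp_nil, sub_self, nrm_zero]
      positivity
    | append_singleton l1 s ih =>
      rintro ⟨l2, hl2⟩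
      have h1 := ih ⟨s :: l2, by rw [hl2]; simp⟩
      have h2 : nrm (endp x (l1 ++ [s]) - x) ≤ θ * r + 1 := by
        rw [endp_append, endp_cons, endp_nil]
        have h3 : endp x l1 + vec s - x = (endp x l1 - x) + vec s := by abel
        rw [h3]
        refine (nrm_add_le _ _).trans ?_
        rw [nrm_vec]
        linarith
      obtain ⟨w, hw⟩ : ∃ w : V d, w = endp x (l1 ++ [s]) := ⟨_, rfl⟩
      rw [← hw] at h2 ⊢
      have hwn : nrm w ≤ 2 * r := by
        have h4 := nrm_le_add w x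
        have h5 : θ * r ≤ 1 / 4 * r := mul_le_mul_of_nonneg_right hθ4 hr0.le
        rw [← hrdef] at h4
        linarith
      have h5 := hCC (2 * r) (by linarith) x w hxx hwn
      have h6 : T E x w ≤ wt E x (l1 ++ [s]) := T_le_wt hE hw.symm
      have h7 : wt E x (l1 ++ [s]) ≤ wt E x l := by
        rw [hl2, wt_append E x (l1 ++ [s]) l2]
        linarith [wt_nonneg hE (endp x (l1 ++ [s])) l2]
      have h8 := hh.low (w - x)
      have h9 := (abs_le.mp h5).1
      have h10 : a * nrm (w - x) ≤ 2 * k0 * r := by linarith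
      have h11 : 2 * k0 * r ≤ a * (θ * r) := by
        have := mul_le_mul_of_nonneg_right hka hr0.le
        linarith
      exact le_of_mul_le_mul_left (h10.trans h11) ha
  have hmid : ∀ l1 s l2, l = l1 ++ s :: l2 → (1 - 2 * θ) * r ≤ mid (edg (endp x l1) s) := by
    intro l1 s l2 hl2
    have h1 := hconf l1 ⟨s :: l2, hl2⟩
    have h2 := le_mid_edg (endp x l1) s
    have h3 := nrm_le_add x (endp x l1)
    rw [nrm_sub_comm, ← hrdef] at h3
    linarith
  refine ⟨l, hl, ?_⟩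
  have hm0 : 0 < 1 - 2 * θ := by linarith
  have hfin := wt_tau_le (ρ := 0) (τ' := tau α E) hα0.le
    (mul_pos hm0 hr0) hE (fun e _ => le_rfl) (by nlinarith [mul_pos hm0 hr0]) x l hmid
  refine hfin.trans ?_
  rw [Real.mul_rpow hm0.le hr0.le]
  have hrα : 0 < r ^ (-α) := Real.rpow_pos_of_pos hr0 _
  have hup' := hup (y - x)
  have hw : wt E x l ≤ κ * nrm (y - x) + ε' * r := by linarith
  have hw0 : 0 ≤ wt E x l := wt_nonneg hE x l
  exact mul_le_mul (mul_le_mul_of_nonneg_right hθε hrα.le) hw hw0 (by positivity)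
-- END lgs

-- BEGIN pas
/-- as `par_choice` (OneR/Arc) -/
theorem par_choiceS {M sq α ε : ℝ} (hM : 0 < M) (hsq : 0 < sq) (hα : 1 < α) (hε : 0 < ε)
    (hε1 : ε < 1) :
    ∃ t : ℝ, 0 < t ∧ t ≤ 1 / 4 ∧ ∀ θ : ℝ, 0 ≤ θ → θ * (sq * (α - 1)) ≤ 1 - ε →
      (1 + t) * (1 - 2 * t) ^ (-α) * ((M + t) * ((1 + t) * θ + 2 * t) + 2 * t) ≤
        (1 - ε / 2) * (M / (sq * (α - 1))) := by
  have hA : 0 < α - 1 := by linarith
  have hqA : 0 < sq * (α - 1) := mul_pos hsq hA
  have hF : ContinuousAt (fun t : ℝ => (1 + t) * (1 - 2 * t) ^ (-α) *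
      ((M + t) * ((1 + t) * ((1 - ε) / (sq * (α - 1))) + 2 * t) + 2 * t)) 0 := by
    have h1 : ContinuousAt (fun t : ℝ => (1 - 2 * t) ^ (-α)) 0 := by
      apply ContinuousAt.rpow_const
      · fun_prop
      · left; norm_num
    have h2 : ContinuousAt (fun t : ℝ => (1 + t)) 0 := by fun_prop
    have h3 : ContinuousAt (fun t : ℝ =>
        (M + t) * ((1 + t) * ((1 - ε) / (sq * (α - 1))) + 2 * t) + 2 * t) 0 := by fun_prop
    exact (h2.mul h1).mul h3
  have hF0 : (fun t : ℝ => (1 + t) * (1 - 2 * t) ^ (-α) *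
      ((M + t) * ((1 + t) * ((1 - ε) / (sq * (α - 1))) + 2 * t) + 2 * t)) 0 <
      (1 - ε / 2) * (M / (sq * (α - 1))) := by
    have h0 : (fun t : ℝ => (1 + t) * (1 - 2 * t) ^ (-α) *
      ((M + t) * ((1 + t) * ((1 - ε) / (sq * (α - 1))) + 2 * t) + 2 * t)) 0 =
      (1 - ε) * (M / (sq * (α - 1))) := by
      simp only [mul_zero, sub_zero, add_zero, Real.one_rpow, one_mul]
      ring
    rw [h0]
    have h1 : 0 < M / (sq * (α - 1)) := by positivity
    nlinarith
  have hev := (hF.eventually_lt continuousAt_const hF0).filter_mono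
    (nhdsWithin_le_nhds (s := Set.Ioi (0 : ℝ)))
  have hev2 : ∀ᶠ t in nhdsWithin (0 : ℝ) (Set.Ioi 0), t ∈ Set.Ioo (0 : ℝ) (1 / 4) :=
    Ioo_mem_nhdsGT (by norm_num)
  obtain ⟨t, ht, ht0, ht4⟩ := (hev.and hev2).exists
  refine ⟨t, ht0, ht4.le, fun θ _ hθ => le_trans ?_ ht.le⟩
  have hθ' : θ ≤ (1 - ε) / (sq * (α - 1)) := (le_div_iff₀ hqA).2 hθ
  have hp : (0 : ℝ) ≤ (1 - 2 * t) ^ (-α) := Real.rpow_nonneg (by linarith) _
  have h1 : (0 : ℝ) ≤ (1 + t) * (1 - 2 * t) ^ (-α) := mul_nonneg (by linarith) hp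
  have h2 : (0 : ℝ) ≤ M + t := by linarith
  refine mul_le_mul_of_nonneg_left ?_ h1
  have h3 : (1 + t) * θ + 2 * t ≤ (1 + t) * ((1 - ε) / (sq * (α - 1))) + 2 * t := by
    have := mul_le_mul_of_nonneg_left hθ' (by linarith : (0 : ℝ) ≤ 1 + t)
    linarith
  have h4 := mul_le_mul_of_nonneg_left h3 h2
  linarith
-- END pas

-- BEGIN aws
/-- as `arc_walk` (OneR/Arc), with `par_choiceS` (`sq = √d`, `M = muS d`), `κ = muS d + t`, `hm_upS`,
`leg_walkS`, and `∑ nrm ≤ nrm z ((1 + t) θ + 2 t)` -/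
theorem arc_walkS (hd : 2 ≤ d) {α : ℝ} (hα : 1 < α) {ε : ℝ} (hε : 0 < ε) (hε1 : ε < 1) :
    ∃ δ R1 : ℝ, 0 < δ ∧ ∀ (E : Edge d → ℝ) (R0 : ℝ), (∀ e, 0 ≤ E e) →
      CC (hm (d := d)) (eta d) E R0 → ∀ z v : V d, R1 ≤ nrm z → 2 * R0 ≤ nrm z →
      |nrm v - nrm z| ≤ δ * nrm z →
      Real.arccos (ip z v / (nrm z * nrm v)) * (Real.sqrt d * (α - 1)) ≤ 1 - ε →
      ∃ l : List (Step d), endp z l = v ∧ wt (tau α E) z l ≤
        (1 - ε / 2) * (muS d / (Real.sqrt d * (α - 1))) * nrm z ^ (1 - α) := by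
  obtain ⟨a, C0, hh⟩ := hf_hm d
  have he0 : 0 < eta d := by
    unfold eta
    positivity
  have he1 : eta d ≤ 1 := by
    unfold eta
    rw [div_le_one (by positivity)]
    have h : (0 : ℝ) ≤ (d : ℝ) := Nat.cast_nonneg d
    linarith
  have i0 : Fin d := ⟨0, by omega⟩
  have hm1 := muS_pos i0
  have hd0 : (0 : ℝ) < (d : ℝ) := by
    have : 0 < d := by omega
    exact_mod_cast this
  have hsq : 0 < Real.sqrt d := Real.sqrt_pos.2 hd0
  obtain ⟨t, ht0, ht1, ht⟩ := par_choiceS hm1 hsq hα hε hε1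
  obtain ⟨C, hC0, hC⟩ := hm_upS i0 ht0
  obtain ⟨δ', hδ0, hδ1, hleg⟩ := leg_walkS hh he0 he1 hα ht0
  obtain ⟨N, hN⟩ := exists_nat_gt (20 / δ')
  have h20 : 0 < 20 / δ' := by positivity
  have hN0 : (0 : ℝ) < N := h20.trans hN
  have hNpos : 0 < N := by exact_mod_cast hN0
  have hNδ : 20 / N ≤ δ' := by
    rw [div_lt_iff₀ hδ0] at hN
    rw [div_le_iff₀ hN0]
    linarith
  have hκ : 0 ≤ muS d + t := by linarith
  obtain ⟨R1, hR1⟩ := hleg (muS d + t) C hκ hC0 hC (t / N) (by positivity)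
  refine ⟨t, max 1 (max (2 * R1) (max (8 * Real.sqrt d / δ') (2 * N * Real.sqrt d / t))), ht0, ?_⟩
  intro E R0 hE hCC z v hr hR0 hv hθ
  have g1 : 1 ≤ nrm z := (le_max_left _ _).trans hr
  have g2 := (le_max_right _ _).trans hr
  have g3 : 2 * R1 ≤ nrm z := (le_max_left _ _).trans g2
  have g4 := (le_max_right _ _).trans g2
  have g5 : 8 * Real.sqrt d / δ' ≤ nrm z := (le_max_left _ _).trans g4
  have g6 : 2 * N * Real.sqrt d / t ≤ nrm z := (le_max_right _ _).trans g4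
  rw [div_le_iff₀ hδ0] at g5
  rw [div_le_iff₀ ht0] at g6
  obtain ⟨r, hrd⟩ : ∃ r : ℝ, r = nrm z := ⟨_, rfl⟩
  obtain ⟨θ, hθd⟩ : ∃ θ : ℝ, θ = Real.arccos (ip z v / (nrm z * nrm v)) := ⟨_, rfl⟩
  have hθ0 : 0 ≤ θ := hθd ▸ Real.arccos_nonneg _
  have hθπ : θ ≤ Real.pi := hθd ▸ Real.arccos_le_pi _
  have hz : 0 < nrm z := by linarith
  obtain ⟨x, hx0, hxN, hxr, hxs⟩ := arc_pts hd hNpos ht0.le (by linarith : t ≤ 1 / 2) hz hv
  rw [← hθd] at hθ
  simp only [← hθd] at hxs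
  rw [← hrd] at g1 g3 g5 g6 hR0 hz
  simp only [← hrd] at hxr hxs
  rw [← hrd]
  have hN1 : (1 : ℝ) ≤ N := by exact_mod_cast hNpos
  have hsd : Real.sqrt d ≤ r * t := by nlinarith
  have hsd2 : 2 * (N * Real.sqrt d) ≤ r * t := by linarith
  have hlow : ∀ i ≤ N, (1 - 2 * t) * r ≤ nrm (x i) := by
    intro i hi
    have := (hxr i hi).1
    nlinarith
  have hhalf : ∀ i ≤ N, r / 2 ≤ nrm (x i) := by
    intro i hi
    have h1 := hlow i hi
    nlinarith
  have hup : ∀ i ≤ N, nrm (x i) ≤ 2 * r := by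
    intro i hi
    have := (hxr i hi).2
    nlinarith
  have hstep : ∀ i < N, nrm (x (i + 1) - x i) ≤ δ' * nrm (x i) := by
    intro i hi
    have h1 := hxs i hi
    have h2 := hhalf i hi.le
    have h3 : (1 + t) * r * θ + t * r ≤ 5 * r := by
      have h4 : θ ≤ 3.15 := hθπ.trans Real.pi_lt_d2.le
      have h5 : (1 + t) * r * θ ≤ (1 + 1 / 4) * r * 3.15 := by gcongr
      nlinarith
    have h6 : ((1 + t) * r * θ + t * r) / N ≤ 5 * r / N := by gcongr
    have h7 : 5 * r / N ≤ δ' * r / 4 := by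
      have h8 : 5 * r / N = (20 / N) * r / 4 := by ring
      rw [h8]
      gcongr
    have h9 : δ' * (r / 2) ≤ δ' * nrm (x i) := mul_le_mul_of_nonneg_left h2 hδ0.le
    linarith
  obtain ⟨w, hw⟩ : ∃ w : ℝ, w = (1 + t) * ((1 - 2 * t) * r) ^ (-α) *
      ((muS d + t) * (((1 + t) * r * θ + t * r) / N + 2 * Real.sqrt d) +
        t / N * (2 * r)) := ⟨_, rfl⟩
  have h12 : 0 < (1 - 2 * t) := by linarith
  have h12r : 0 < (1 - 2 * t) * r := mul_pos h12 hz
  have hlegs : ∀ i < N, ∃ l : List (Step d), endp (x i) l = x (i + 1) ∧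
      wt (tau α E) (x i) l ≤ w := by
    intro i hi
    have h1 := hhalf i hi.le
    obtain ⟨l, hl, hl2⟩ := hR1 E R0 hE hCC (x i) (x (i + 1)) (by linarith) (by linarith)
      (hstep i hi)
    refine ⟨l, hl, hl2.trans ?_⟩
    rw [hw]
    have h2 : nrm (x i) ^ (-α) ≤ ((1 - 2 * t) * r) ^ (-α) :=
      Real.rpow_le_rpow_of_nonpos h12r (hlow i hi.le) (by linarith)
    have h3 : nrm (x (i + 1) - x i) ≤
        ((1 + t) * r * θ + t * r) / N + 2 * Real.sqrt d := hxs i hi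
    have h4 : t / N * nrm (x i) ≤ t / N * (2 * r) :=
      mul_le_mul_of_nonneg_left (hup i hi.le) (by positivity)
    have h5 : 0 ≤ (muS d + t) * nrm (x (i + 1) - x i) + t / N * nrm (x i) :=
      add_nonneg (mul_nonneg hκ (nrm_nonneg _))
        (mul_nonneg (by positivity) (nrm_nonneg _))
    have h6 : (1 + t) * nrm (x i) ^ (-α) ≤ (1 + t) * ((1 - 2 * t) * r) ^ (-α) :=
      mul_le_mul_of_nonneg_left h2 (by linarith)
    have h7 : 0 ≤ (1 + t) * ((1 - 2 * t) * r) ^ (-α) := by positivity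
    exact mul_le_mul h6 (add_le_add (mul_le_mul_of_nonneg_left h3 hκ) h4) h5 h7
  obtain ⟨l, hl, hl2⟩ := chain_walk (w := fun _ => w) hlegs
  rw [hx0] at hl hl2
  rw [hxN] at hl
  refine ⟨l, hl, hl2.trans ?_⟩
  rw [Finset.sum_const, Finset.card_range, nsmul_eq_mul, hw]
  have hfin := ht θ hθ0 hθ
  have hrα : r ^ (1 - α) = r ^ (-α) * r := by
    rw [show (1 : ℝ) - α = -α + 1 by ring, Real.rpow_add hz, Real.rpow_one]
  have hmul : ((1 - 2 * t) * r) ^ (-α) = (1 - 2 * t) ^ (-α) * r ^ (-α) :=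
    Real.mul_rpow h12.le hz.le
  have hrp : 0 < r ^ (-α) := Real.rpow_pos_of_pos hz _
  have h1p : 0 < (1 - 2 * t) ^ (-α) := Real.rpow_pos_of_pos h12 _
  rw [hmul, hrα]
  have e1 : (N : ℝ) * ((1 + t) * ((1 - 2 * t) ^ (-α) * r ^ (-α)) *
      ((muS d + t) * (((1 + t) * r * θ + t * r) / N + 2 * Real.sqrt d) +
        t / N * (2 * r))) =
      (1 + t) * (1 - 2 * t) ^ (-α) * r ^ (-α) *
      ((muS d + t) * ((1 + t) * r * θ + t * r + 2 * (N * Real.sqrt d)) +
        2 * t * r) := by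
    field_simp
  rw [e1]
  have h2 : (muS d + t) * ((1 + t) * r * θ + t * r + 2 * (N * Real.sqrt d)) +
      2 * t * r ≤
      ((muS d + t) * ((1 + t) * θ + 2 * t) + 2 * t) * r := by
    have h3 : (1 + t) * r * θ + t * r + 2 * (N * Real.sqrt d) ≤ ((1 + t) * θ + 2 * t) * r := by
      linarith
    have h4 := mul_le_mul_of_nonneg_left h3 hκ
    linarith
  have h5 : 0 ≤ (1 + t) * (1 - 2 * t) ^ (-α) * r ^ (-α) := by positivity
  refine (mul_le_mul_of_nonneg_left h2 h5).trans ?_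
  have h6 : (1 + t) * (1 - 2 * t) ^ (-α) * r ^ (-α) *
      (((muS d + t) * ((1 + t) * θ + 2 * t) + 2 * t) * r) =
      ((1 + t) * (1 - 2 * t) ^ (-α) *
        ((muS d + t) * ((1 + t) * θ + 2 * t) + 2 * t)) * (r ^ (-α) * r) := by
    ring
  rw [h6]
  exact mul_le_mul_of_nonneg_right hfin (by positivity)
-- END aws

-- BEGIN bus
/-- the energy of the ray: as `ray_budget` (OneR/Arc), with `muS_le` in place of `mu_nrm`:
`(α - 1) c ≥ muS d / √d` -/
theorem ray_budgetS (i0 : Fin d) {a C : ℝ} (hh : HF (hm (d := d)) a d C) {α : ℝ} (hα : 1 < α)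
    {K : ℝ} (hK : 0 < K) {E : Edge d → ℝ} {R0 : ℝ} (hE : ∀ e, 0 ≤ E e)
    (hCC : CC (hm (d := d)) (eta d) E R0) (he0 : 0 < eta d) (he1 : eta d ≤ 1) {γ : ℕ → V d}
    {st : ℕ → Step d} {W : ℕ → ℝ} (hr : InfRay (hm (d := d)) (eta d) α K E γ st W) {ε : ℝ}
    (hε : 0 < ε) :
    ∀ᶠ m in atTop, (1 - ε) * (muS d / (Real.sqrt d * (α - 1))) ≤
      nrm (γ m) ^ (α - 1) * W m := by
  obtain ⟨K1, R1, hmk⟩ := mkDS hh he0 he1 hα hK
  have hlarge : ∀ᶠ n in atTop, max 1 (max R1 R0) ≤ nrm (γ n) :=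
    hr.lim.eventually_ge_atTop (max 1 (max R1 R0))
  obtain ⟨N0, hN0⟩ := eventually_atTop.1 (hlarge.and hr.ub)
  have hone : ∀ k, N0 ≤ k → 1 ≤ nrm (γ k) := fun k hk => (le_max_left _ _).trans (hN0 k hk).1
  have hR1 : ∀ k, N0 ≤ k → R1 ≤ nrm (γ k) := fun k hk =>
    ((le_max_left _ _).trans (le_max_right _ _)).trans (hN0 k hk).1
  have hR0 : ∀ k, N0 ≤ k → R0 ≤ nrm (γ k) := fun k hk =>
    ((le_max_right _ _).trans (le_max_right _ _)).trans (hN0 k hk).1
  obtain ⟨n, hn0, hnm, hnlt, hnge⟩ := disc hr.lim (fun v => nrm v ^ (1 - eta d / 8))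
    (fun v hv => Real.rpow_pos_of_pos hv _) N0 (fun k hk => lt_of_lt_of_le one_pos (hone k hk))
  have hDS := hmk E R0 hE hCC γ st W hr N0
    (fun k hk => ⟨hR1 k hk, hR0 k hk, (hN0 k hk).2⟩) n hn0 hnm hnlt hnge
  have hin : ∀ i k, n i ≤ k → k < n (i + 1) →
      nrm (γ k - γ (n i)) ≤ nrm (γ (n i)) ^ (-(eta d / 8)) * nrm (γ (n i)) := by
    intro i k h1 h2
    have h3 : N0 ≤ n i := by
      rw [← hn0]
      exact hnm.monotone (Nat.zero_le i)
    have h4 : 0 < nrm (γ (n i)) := lt_of_lt_of_le one_pos (hone _ h3)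
    have h5 : nrm (γ (n i)) ^ (-(eta d / 8)) * nrm (γ (n i)) =
        nrm (γ (n i)) ^ (1 - eta d / 8) := by
      have h6 : (1 - eta d / 8 : ℝ) = -(eta d / 8) + 1 := by ring
      rw [h6, Real.rpow_add h4, Real.rpow_one]
    rw [h5]
    exact (hnlt i k h1 h2).le
  have hW : ∀ k, W (k + 1) ≤ W k := by
    intro k
    have h1 : 0 ≤ tau α E (edg (γ k) (st k)) :=
      div_nonneg (hE _) (Real.rpow_nonneg (Real.sqrt_nonneg _) _)
    have h2 := hr.Weq k
    linarith
  obtain ⟨c, hc0, hc⟩ := hDS.lim_en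
  have hce := ray_en hDS hnm hin hW hc
  have hd0 : 0 < d := i0.pos
  have hs : 0 < Real.sqrt d := Real.sqrt_pos.2 (by exact_mod_cast hd0)
  have hmp : 0 < muS d := muS_pos i0
  have ha1 : 0 < α - 1 := by linarith
  have hx : muS d / (Real.sqrt d * (α - 1)) ≤ c := by
    by_contra hcon
    rw [not_le, lt_div_iff₀ (by positivity)] at hcon
    have h0 : (α - 1) * c < muS d / Real.sqrt d := by
      rw [lt_div_iff₀ hs]
      linarith
    have hup := ray_upper hh hDS hnm hin hc0 hc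
      (ε := (muS d / Real.sqrt d - (α - 1) * c) / 2) (by linarith)
    obtain ⟨m, hm1, hm2⟩ := (hup.and (hr.lim.eventually_ge_atTop 1)).exists
    have h1 := muS_le i0 (γ m)
    have h2 : mu (γ m) ≤
        ((α - 1) * c + (muS d / Real.sqrt d - (α - 1) * c) / 2) * nrm (γ m) := hm1
    have h3 := mul_le_mul_of_nonneg_left h2 hs.le
    have h4 : Real.sqrt d * (muS d / Real.sqrt d) = muS d :=
      mul_div_cancel₀ _ hs.ne'
    have h5 : Real.sqrt d *
        (((α - 1) * c + (muS d / Real.sqrt d - (α - 1) * c) / 2) * nrm (γ m)) =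
        (Real.sqrt d * ((α - 1) * c) + Real.sqrt d * (muS d / Real.sqrt d)) / 2 *
          nrm (γ m) := by ring
    rw [h5, h4] at h3
    have h6 : (Real.sqrt d * ((α - 1) * c) + muS d) / 2 < muS d := by
      linarith [mul_comm c (Real.sqrt d * (α - 1)), mul_assoc (Real.sqrt d) (α - 1) c]
    have h7 := mul_lt_mul_of_pos_right h6 (lt_of_lt_of_le one_pos hm2)
    linarith [mul_comm (nrm (γ m)) (muS d)]
  have hx0 : 0 < muS d / (Real.sqrt d * (α - 1)) := by positivity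
  have hlt : (1 - ε) * (muS d / (Real.sqrt d * (α - 1))) < c := by
    linarith [mul_pos hε hx0,
      sub_mul 1 ε (muS d / (Real.sqrt d * (α - 1)))]
  exact (hce.eventually_const_lt hlt).mono fun m hm => hm.le
-- END bus

/-- the cluster contains the arcs of angle `(1 - 1 / (j + 2)) / (√d (α - 1))` around the ray -/
def ArcFatS (α : ℝ) (j : ℕ) (δ : ℝ) (s : ℕ → Edge d) : Prop :=
  ∃ R : ℕ, ∀ z v : V d, (Desc s z).Infinite → (R : ℝ) ≤ nrm z → |nrm v - nrm z| ≤ δ * nrm z →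
    Real.arccos (ip z v / (nrm z * nrm v)) * (Real.sqrt d * (α - 1)) ≤ 1 - 1 / ((j : ℝ) + 2) →
    v ∈ Reached s

-- BEGIN mas
private theorem mas_desc (z : V d) :
    MeasurableSet {s : ℕ → Edge d | (Desc s z).Infinite} := by
  refine UNIQAux.meas_inf (fun s : ℕ → Edge d => Desc s z) fun v => ?_
  exact measurableSet_rtg (fun (s : ℕ → Edge d) x y => Infects s x y)
    (fun x y => measurableSet_infects x y) z v

private theorem mas_reached (v : V d) :
    MeasurableSet {s : ℕ → Edge d | v ∈ Reached s} := by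
  have h : {s : ℕ → Edge d | v ∈ Reached s} = ⋃ n, {s | v ∈ vs (lst s n)} := by
    ext s
    simp only [Reached, Set.mem_ofPred_eq, Set.mem_iUnion]
  rw [h]
  exact MeasurableSet.iUnion fun n => measurableSet_vs v n

/-- as `measurableSet_arcFat` (OneR/Arc) -/
theorem measurableSet_arcFatS (α : ℝ) (j : ℕ) (δ : ℝ) :
    MeasurableSet {s : ℕ → Edge d | ArcFatS α j δ s} := by
  have hset : {s : ℕ → Edge d | ArcFatS α j δ s} = ⋃ R : ℕ, ⋂ z : V d, ⋂ v : V d,
      ({s : ℕ → Edge d | (Desc s z).Infinite}ᶜ ∪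
        ({_s : ℕ → Edge d | ¬ (R : ℝ) ≤ nrm z} ∪
          ({_s : ℕ → Edge d | ¬ |nrm v - nrm z| ≤ δ * nrm z} ∪
            ({_s : ℕ → Edge d | ¬ Real.arccos (ip z v / (nrm z * nrm v)) *
                (Real.sqrt d * (α - 1)) ≤ 1 - 1 / ((j : ℝ) + 2)} ∪
              {s : ℕ → Edge d | v ∈ Reached s})))) := by
    ext s
    simp only [ArcFatS, Set.mem_ofPred_eq, Set.mem_iUnion, Set.mem_iInter, Set.mem_union,
      Set.mem_compl_iff]
    refine exists_congr fun R => forall_congr' fun z => forall_congr' fun v => ?_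
    rw [← imp_iff_not_or, ← imp_iff_not_or, ← imp_iff_not_or, ← imp_iff_not_or]
  rw [hset]
  exact MeasurableSet.iUnion fun R => MeasurableSet.iInter fun z => MeasurableSet.iInter fun v =>
    (mas_desc z).compl.union ((MeasurableSet.const _).union
      ((MeasurableSet.const _).union ((MeasurableSet.const _).union (mas_reached v))))
-- END mas

-- BEGIN aas
/-- as `arcFat_ae` (OneR/Arc), with `arc_walkS` and `ray_budgetS` -/
theorem arcFatS_ae (hd : 2 ≤ d) {α : ℝ} (hα : 1 < α) (j : ℕ) : ∃ δ : ℝ, 0 < δ ∧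
    ∀ᵐ E ∂(PE d), ∀ s : ℕ → Edge d, (∀ n, G (tau α E) (lst s n)) → ArcFatS α j δ s := by
  obtain ⟨a, C, hh⟩ := hf_hm d
  obtain ⟨i0⟩ : Nonempty (Fin d) := ⟨⟨0, by omega⟩⟩
  have he0 : 0 < eta d := by
    unfold eta
    positivity
  have he1 : eta d ≤ 1 := by
    unfold eta
    rw [div_le_one (by positivity)]
    have h : (0 : ℝ) ≤ (d : ℝ) := Nat.cast_nonneg d
    linarith
  obtain ⟨K, R1, hK, hub⟩ := ub_S hh he0 he1 hα
  obtain ⟨ε, hεdef⟩ : ∃ ε : ℝ, ε = 1 / ((j : ℝ) + 2) := ⟨_, rfl⟩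
  have hj : (0 : ℝ) ≤ (j : ℝ) := Nat.cast_nonneg j
  have hε : 0 < ε := by rw [hεdef]; positivity
  have hε1 : ε < 1 := by
    rw [hεdef, div_lt_one (by positivity)]
    linarith
  obtain ⟨B, hBdef⟩ : ∃ B : ℝ, B = muS d / (Real.sqrt d * (α - 1)) := ⟨_, rfl⟩
  have hB : 0 < B := by
    rw [hBdef]
    have hd0 : (0 : ℝ) < (d : ℝ) := by
      have : 0 < d := by omega
      exact_mod_cast this
    exact div_pos (muS_pos i0) (mul_pos (Real.sqrt_pos.2 hd0) (by linarith))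
  obtain ⟨δ, R2, hδ, haw⟩ := arc_walkS hd hα hε hε1
  refine ⟨δ, hδ, ?_⟩
  filter_upwards [conc d, ae_pos, explodes_ae i0 hα, via_or_avoid (d := d) α]
    with E hconc hpos hex hva s hG
  obtain ⟨R0, hCC⟩ := hconc
  have hτ : ∀ f, 0 < tau α E f := fun f =>
    div_pos (hpos f) (Real.rpow_pos_of_pos (mid_pos f) α)
  have hE : ∀ e, 0 ≤ E e := fun e => (hpos e).le
  have hdes : ∀ (m : ℕ) (z : V d), z ∈ ends (s m) → z ∉ vs (lst s m) →
      (Desc s z).Finite ∨ (Reached s \ Desc s z).Finite :=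
    fun m z h1 h2 => desc_or i0 hτ hex hG (hva hex) h1 h2
  obtain ⟨γ, st, h0, h1, h2, h3⟩ := exists_ray hG hdes
  obtain ⟨W, w1, w2, w3, w4, w5⟩ := ray_times i0 hτ hex hG h0 h1 h2
  have hray : InfRay (hm (d := d)) (eta d) α K E γ st W := by
    refine ⟨h1, w1, w2, w3, w5, ?_⟩
    filter_upwards [w5.eventually_ge_atTop (max R1 R0)] with n hn
    exact hub E R0 hE hCC (γ n) (W n) ((le_max_left _ _).trans hn) ((le_max_right _ _).trans hn)
      (w4 n)
  have hWS : W 0 ≤ S (tau α E) 0 := by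
    have h4 := w4 0
    rwa [h0] at h4
  obtain ⟨m0, hm0⟩ := eventually_atTop.1
    (ray_budgetS i0 hh hα hK hE hCC he0 he1 hray (ε := ε / 4) (by linarith))
  rw [← hBdef] at hm0 haw
  have hsum : ∀ m, m < m0 → nrm (γ m) ≤ ∑ i ∈ range m0, nrm (γ i) := fun m hm =>
    Finset.single_le_sum (f := fun i => nrm (γ i)) (fun j _ => nrm_nonneg _) (Finset.mem_range.2 hm)
  have hidx : ∀ m, 1 + ∑ i ∈ range m0, nrm (γ i) ≤ nrm (γ m) → m0 ≤ m := by
    intro m hm
    by_contra h4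
    have h5 := hsum m (not_le.1 h4)
    linarith
  refine ⟨⌈max (1 + ∑ i ∈ range m0, nrm (γ i)) (max (2 * R0) (max R2 1))⌉₊,
    fun z v hz hRz hv hang => ?_⟩
  obtain ⟨m, rfl⟩ := h3 z hz
  have hR := (Nat.le_ceil _).trans hRz
  have g1 := (le_max_left _ _).trans hR
  have g2 := (le_max_right _ _).trans hR
  have g3 : 2 * R0 ≤ nrm (γ m) := (le_max_left _ _).trans g2
  have g4 := (le_max_right _ _).trans g2
  have g5 : R2 ≤ nrm (γ m) := (le_max_left _ _).trans g4
  have g6 : (1 : ℝ) ≤ nrm (γ m) := (le_max_right _ _).trans g4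
  rw [← hεdef] at hang
  obtain ⟨l, hl, hwt⟩ := haw E R0 hE hCC (γ m) v g5 g3 hv hang
  have hlt : wt (tau α E) (γ m) l < W m := by
    have h7 := hm0 m (hidx m g1)
    have hp : 0 < nrm (γ m) := by linarith
    have h8 : 0 < nrm (γ m) ^ (1 - α) := Real.rpow_pos_of_pos hp _
    have h9 : nrm (γ m) ^ (1 - α) * nrm (γ m) ^ (α - 1) = 1 := by
      rw [← Real.rpow_add hp, show (1 - α + (α - 1) : ℝ) = 0 by ring, Real.rpow_zero]
    have h10 : (1 - ε / 4) * B * nrm (γ m) ^ (1 - α) ≤ W m := by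
      calc (1 - ε / 4) * B * nrm (γ m) ^ (1 - α)
          ≤ (nrm (γ m) ^ (α - 1) * W m) * nrm (γ m) ^ (1 - α) :=
            mul_le_mul_of_nonneg_right h7 h8.le
        _ = (nrm (γ m) ^ (1 - α) * nrm (γ m) ^ (α - 1)) * W m := by ring
        _ = W m := by rw [h9, one_mul]
    have h11 : 0 < ε * B * nrm (γ m) ^ (1 - α) := mul_pos (mul_pos hε hB) h8
    have h12 : (1 - ε / 4) * B * nrm (γ m) ^ (1 - α) =
        (1 - ε / 2) * B * nrm (γ m) ^ (1 - α) + ε * B * nrm (γ m) ^ (1 - α) / 4 := by ring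
    linarith
  have h13 := ray_reach hτ hG h0 h1 w1 hWS hlt
  rwa [hl] at h13
-- END aas

-- BEGIN ars
/-- everything is within reach: `j` with `π (√d (α - 1)) ≤ 1 - 1 / (j + 2)`; `AllRad` gives a ray site
`z` with `nrm v ≤ nrm z ≤ nrm v + 3`; `Real.arccos_le_pi` -/
theorem arc_allS {s : ℕ → Edge d} {α : ℝ} (hα : 1 < α) {δ : ℕ → ℝ} (hδ : ∀ j, 0 < δ j)
    (hf : ∀ j, ArcFatS α j (δ j) s) (hr : AllRad s) (h : Real.pi * (Real.sqrt d * (α - 1)) < 1) :
    ∃ R : ℝ, ∀ v : V d, R ≤ nrm v → v ∈ Reached s := by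
  have hx : 0 < 1 - Real.pi * (Real.sqrt d * (α - 1)) := by linarith
  set j : ℕ := ⌈1 / (1 - Real.pi * (Real.sqrt d * (α - 1)))⌉₊ with hj
  have h1 : 1 / ((j : ℝ) + 2) ≤ 1 - Real.pi * (Real.sqrt d * (α - 1)) := by
    have h5 : 1 / (1 - Real.pi * (Real.sqrt d * (α - 1))) ≤ (j : ℝ) := Nat.le_ceil _
    rw [div_le_iff₀ (by positivity)]
    rw [div_le_iff₀ hx] at h5
    nlinarith
  obtain ⟨R, hR⟩ := hf j
  refine ⟨max (R : ℝ) (3 / δ j), fun v hv => ?_⟩
  obtain ⟨z, hz, hn1, hn2⟩ := hr ⌈nrm v⌉₊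
  have h2 : nrm v ≤ nrm z := (Nat.le_ceil _).trans hn1
  have h3 : (⌈nrm v⌉₊ : ℝ) < nrm v + 1 := Nat.ceil_lt_add_one (nrm_nonneg v)
  have h4 : 3 / δ j ≤ nrm z := ((le_max_right _ _).trans hv).trans h2
  have h6 : 3 ≤ δ j * nrm z := by
    rw [div_le_iff₀ (hδ j)] at h4
    linarith
  refine hR z v hz (((le_max_left _ _).trans hv).trans h2) ?_ ?_
  · rw [abs_sub_comm, abs_of_nonneg (by linarith)]
    linarith
  · have h7 : Real.arccos (ip z v / (nrm z * nrm v)) * (Real.sqrt d * (α - 1)) ≤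
        Real.pi * (Real.sqrt d * (α - 1)) :=
      mul_le_mul_of_nonneg_right (Real.arccos_le_pi _)
        (mul_nonneg (Real.sqrt_nonneg _) (by linarith))
    linarith
-- END ars

-- BEGIN ans
private theorem ans_ip (z v : V d) : ip z v = inner ℝ (toE v) (toE z) := by
  unfold ip toE
  rw [PiLp.inner_apply]
  refine Finset.sum_congr rfl fun j _ => ?_
  simp

private theorem ans_close {z v : V d} {u : EuclideanSpace ℝ (Fin d)} (hz : 0 < nrm z)
    (hv : 0 < nrm v) {ε : ℝ} (h : ‖toE z - nrm z • u‖ ≤ ε * nrm z) :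
    |ip z v / (nrm z * nrm v) - inner ℝ (toE v) u / nrm v| ≤ ε := by
  have e : ip z v / (nrm z * nrm v) - inner ℝ (toE v) u / nrm v =
      inner ℝ (toE v) (toE z - nrm z • u) / (nrm z * nrm v) := by
    rw [inner_sub_right, inner_smul_right, ← ans_ip]
    field_simp
  rw [e, abs_div, abs_of_pos (mul_pos hz hv), div_le_iff₀ (mul_pos hz hv)]
  refine (abs_real_inner_le_norm _ _).trans ?_
  rw [← nrm_eq]
  have h2 := mul_le_mul_of_nonneg_left h hv.le
  linarith [mul_comm (nrm v) (ε * nrm z), mul_assoc ε (nrm z) (nrm v)]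

/-- as `arc_cone` (OneR/Arc); `arccos` is uniformly continuous, and
`|ip z v / (nrm z nrm v) - inner (toE v) u / nrm v| ≤ ‖toE z - nrm z • u‖ / nrm z` -/
theorem arc_coneS {s : ℕ → Edge d} {α : ℝ} (hα : 1 < α) {δ : ℕ → ℝ} (hδ : ∀ j, 0 < δ j)
    (hf : ∀ j, ArcFatS α j (δ j) s) (hr : AllRad s) {u : EuclideanSpace ℝ (Fin d)} (hu : ‖u‖ = 1)
    (hc : ∀ ε : ℝ, 0 < ε → ∃ R : ℝ, ∀ z : V d, (Desc s z).Infinite → R ≤ nrm z →
      ‖toE z - nrm z • u‖ ≤ ε * nrm z) {ε : ℝ} (hε : 0 < ε) :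
    ∃ R : ℝ, ∀ v : V d, R ≤ nrm v →
      Real.arccos (inner ℝ (toE v) u / nrm v) * (Real.sqrt d * (α - 1)) ≤ 1 - ε → v ∈ Reached s := by
  have huc : UniformContinuousOn Real.arccos (Set.Icc (-1) 1) :=
    isCompact_Icc.uniformContinuousOn_of_continuous Real.continuous_arccos.continuousOn
  rw [Metric.uniformContinuousOn_iff] at huc
  have hP : 0 ≤ Real.sqrt d * (α - 1) := mul_nonneg (Real.sqrt_nonneg d) (by linarith)
  obtain ⟨ε₂, hε₂, huc⟩ := huc (ε / (2 * (Real.sqrt d * (α - 1) + 1))) (by positivity)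
  obtain ⟨Rc, hRc⟩ := hc (ε₂ / 2) (half_pos hε₂)
  obtain ⟨j, hj⟩ := exists_nat_gt (2 / ε)
  obtain ⟨RF, hRF⟩ := hf j
  have hj2 : 1 / ((j : ℝ) + 2) ≤ ε / 2 := by
    rw [div_lt_iff₀ hε] at hj
    rw [div_le_iff₀ (by positivity)]
    nlinarith
  refine ⟨max 1 (max (RF : ℝ) (max Rc (3 / δ j))), fun v hv hin => ?_⟩
  have h0 : 1 ≤ nrm v := le_trans (le_max_left _ _) hv
  have h1 : (RF : ℝ) ≤ nrm v := le_trans (le_trans (le_max_left _ _) (le_max_right _ _)) hv
  have h2 : Rc ≤ nrm v := le_trans (le_trans (le_trans (le_max_left _ _) (le_max_right _ _))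
    (le_max_right _ _)) hv
  have h3 : 3 / δ j ≤ nrm v := le_trans (le_trans (le_trans (le_max_right _ _) (le_max_right _ _))
    (le_max_right _ _)) hv
  obtain ⟨z, hz, hz1, hz2⟩ := hr ⌈nrm v⌉₊
  have hr0 := nrm_nonneg v
  have hs1 : nrm v ≤ nrm z := le_trans (Nat.le_ceil _) hz1
  have hs2 : nrm z ≤ nrm v + 3 := by
    have := Nat.ceil_lt_add_one hr0
    linarith
  have hz3 := hRc z hz (h2.trans hs1)
  have hvp : 0 < nrm v := lt_of_lt_of_le one_pos h0
  have hzp : 0 < nrm z := lt_of_lt_of_le hvp hs1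
  refine hRF z v hz (h1.trans hs1) ?_ ?_
  · have h4 : 3 ≤ δ j * nrm z := by
      have := (div_le_iff₀ (hδ j)).1 (h3.trans hs1)
      linarith
    rw [abs_le]
    constructor <;> linarith
  · have hx : ip z v / (nrm z * nrm v) ∈ Set.Icc (-1 : ℝ) 1 := by
      have h5 := abs_ip_le z v
      rw [Set.mem_Icc, ← abs_le, abs_div, abs_of_pos (mul_pos hzp hvp)]
      exact div_le_one_of_le₀ h5 (mul_pos hzp hvp).le
    have hy : inner ℝ (toE v) u / nrm v ∈ Set.Icc (-1 : ℝ) 1 := by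
      have h5 := abs_real_inner_le_norm (toE v) u
      rw [hu, mul_one, ← nrm_eq] at h5
      rw [Set.mem_Icc, ← abs_le, abs_div, abs_of_pos hvp]
      exact div_le_one_of_le₀ h5 hvp.le
    have h6 := huc _ hx _ hy (by
      rw [Real.dist_eq]
      exact lt_of_le_of_lt (ans_close hzp hvp hz3) (half_lt_self hε₂))
    rw [Real.dist_eq, abs_lt] at h6
    have h7 : Real.arccos (ip z v / (nrm z * nrm v)) ≤
        Real.arccos (inner ℝ (toE v) u / nrm v) + ε / (2 * (Real.sqrt d * (α - 1) + 1)) := by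
      linarith [h6.2]
    have h8 := mul_le_mul_of_nonneg_right h7 hP
    have h9 : ε / (2 * (Real.sqrt d * (α - 1) + 1)) * (Real.sqrt d * (α - 1)) ≤ ε / 2 := by
      rw [div_mul_eq_mul_div, div_le_div_iff₀ (by positivity) (by norm_num)]
      nlinarith
    rw [add_mul] at h8
    linarith
-- END ans

-- BEGIN nos
private theorem nos_perp {E : Type*} [NormedAddCommGroup E] [InnerProductSpace ℝ E]
    [FiniteDimensional ℝ E] (hd : 2 ≤ Module.finrank ℝ E) (e z : E) :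
    ∃ w : E, ‖w‖ = 1 ∧ inner ℝ e w = 0 ∧ 0 ≤ inner ℝ z w := by
  have hne : (ℝ ∙ e)ᗮ ≠ ⊥ := by
    intro hbot
    have h2 := Submodule.finrank_add_finrank_orthogonal (ℝ ∙ e)
    rw [hbot, finrank_bot, add_zero] at h2
    have h3 := finrank_span_le_card (R := ℝ) ({e} : Set E)
    rw [Set.toFinset_singleton, Finset.card_singleton] at h3
    omega
  obtain ⟨g, hg, hg0⟩ := (Submodule.ne_bot_iff _).1 hne
  have hg0' : 0 < ‖g‖ := norm_pos_iff.2 hg0
  have h1 : ‖‖g‖⁻¹ • g‖ = 1 := by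
    rw [norm_smul, norm_inv, norm_norm]
    exact inv_mul_cancel₀ hg0'.ne'
  have h2 : inner ℝ e (‖g‖⁻¹ • g) = 0 := by
    rw [real_inner_smul_right, (Submodule.mem_orthogonal_singleton_iff_inner_right.1 hg), mul_zero]
  rcases le_total 0 (inner ℝ z (‖g‖⁻¹ • g)) with h | h
  · exact ⟨_, h1, h2, h⟩
  · refine ⟨-(‖g‖⁻¹ • g), ?_, ?_, ?_⟩
    · rw [norm_neg, h1]
    · rw [inner_neg_right, h2, neg_zero]
    · rw [inner_neg_right]
      linarith

private noncomputable def nos_rnd (p : EuclideanSpace ℝ (Fin d)) : V d := fun k => round (p k)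

private theorem nos_err (p : EuclideanSpace ℝ (Fin d)) : ‖toE (nos_rnd p) - p‖ ≤ Real.sqrt d / 2 := by
  rw [EuclideanSpace.norm_eq]
  have h1 : ∑ k : Fin d, ‖(toE (nos_rnd p) - p) k‖ ^ 2 ≤ d * (1 / 4 : ℝ) := by
    have h2 : ∀ k ∈ (Finset.univ : Finset (Fin d)), ‖(toE (nos_rnd p) - p) k‖ ^ 2 ≤ (1 / 4 : ℝ) := by
      intro k _
      have h3 : (toE (nos_rnd p) - p) k = ((round (p k) : ℤ) : ℝ) - p k := rfl
      rw [h3, Real.norm_eq_abs, abs_sub_comm]
      have h4 := abs_sub_round (p k)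
      nlinarith [abs_nonneg (p k - (round (p k) : ℝ))]
    refine (Finset.sum_le_card_nsmul _ _ _ h2).trans ?_
    rw [Finset.card_univ, Fintype.card_fin, nsmul_eq_mul]
  refine (Real.sqrt_le_sqrt h1).trans ?_
  rw [Real.sqrt_mul (Nat.cast_nonneg d)]
  have h5 : Real.sqrt (1 / 4 : ℝ) = 1 / 2 := by
    rw [show (1 / 4 : ℝ) = (1 / 2) ^ 2 by norm_num]
    exact Real.sqrt_sq (by norm_num)
  rw [h5]
  linarith

private theorem nos_ip (z v : V d) : ip z v = inner ℝ (toE z) (toE v) := by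
  unfold ip toE
  rw [PiLp.inner_apply]
  refine Finset.sum_congr rfl fun j _ => ?_
  simp [mul_comm]

private theorem nos_unit {E : Type*} [NormedAddCommGroup E] [InnerProductSpace ℝ E] {e f : E}
    (he : ‖e‖ = 1) (hf : ‖f‖ = 1) (hef : inner ℝ e f = 0) (s : ℝ) :
    ‖Real.cos s • e + Real.sin s • f‖ = 1 := by
  have h2 : ‖Real.cos s • e + Real.sin s • f‖ ^ 2 = 1 := by
    rw [norm_add_sq_real, norm_smul, norm_smul, he, hf, real_inner_smul_left, real_inner_smul_right,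
      hef, mul_one, mul_one, Real.norm_eq_abs, Real.norm_eq_abs, sq_abs, sq_abs]
    nlinarith [Real.sin_sq_add_cos_sq s]
  exact (pow_eq_one_iff_of_nonneg (norm_nonneg _) two_ne_zero).1 h2

/-- a unit vector `n` orthogonal to `U` with `z` in the half plane of `U` and `n` -/
private theorem nos_frame {E : Type*} [NormedAddCommGroup E] [InnerProductSpace ℝ E]
    [FiniteDimensional ℝ E] (hd : 2 ≤ Module.finrank ℝ E) {U : E} (hU : ‖U‖ = 1) (z : E) :
    ∃ n : E, ‖n‖ = 1 ∧ inner ℝ U n = 0 ∧ 0 ≤ inner ℝ z n ∧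
      inner ℝ z U ^ 2 + inner ℝ z n ^ 2 = ‖z‖ ^ 2 := by
  obtain ⟨y, hy⟩ : ∃ y : E, y = z - (inner ℝ z U : ℝ) • U := ⟨_, rfl⟩
  have hzy : z = (inner ℝ z U : ℝ) • U + y := by rw [hy]; abel
  have hUy : inner ℝ U y = 0 := by
    rw [hy, inner_sub_right, real_inner_smul_right, real_inner_self_eq_norm_sq, hU,
      real_inner_comm]
    ring
  have hz2 : ‖z‖ ^ 2 = inner ℝ z U ^ 2 + ‖y‖ ^ 2 := by
    have h1 : ‖z‖ ^ 2 = ‖(inner ℝ z U : ℝ) • U + y‖ ^ 2 := by rw [← hzy]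
    rw [h1, norm_add_sq_real, norm_smul, hU, mul_one, real_inner_smul_left, hUy, mul_zero, mul_zero,
      add_zero, Real.norm_eq_abs, sq_abs]
  by_cases h0 : y = 0
  · obtain ⟨w, hw1, hw2, hw3⟩ := nos_perp hd U z
    refine ⟨w, hw1, hw2, hw3, ?_⟩
    have h1 : inner ℝ z w = 0 := by
      rw [hzy, h0, add_zero, real_inner_smul_left, hw2, mul_zero]
    rw [hz2, h1, h0, norm_zero]
  · have hy0 : 0 < ‖y‖ := norm_pos_iff.2 h0
    have h1 : inner ℝ z (‖y‖⁻¹ • y) = ‖y‖ := by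
      rw [real_inner_smul_right]
      have h2 : inner ℝ z y = ‖y‖ ^ 2 := by
        have h3 : inner ℝ z y = inner ℝ ((inner ℝ z U : ℝ) • U + y) y := by rw [← hzy]
        rw [h3, inner_add_left, real_inner_smul_left, hUy, mul_zero, zero_add,
          real_inner_self_eq_norm_sq]
      rw [h2]
      field_simp
    refine ⟨‖y‖⁻¹ • y, ?_, ?_, ?_, ?_⟩
    · rw [norm_smul, norm_inv, norm_norm]
      exact inv_mul_cancel₀ hy0.ne'
    · rw [real_inner_smul_right, hUy, mul_zero]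
    · rw [h1]
      exact hy0.le
    · rw [h1, hz2]

/-- a unit vector at angle `φ` from `U` and at most `φ` from `z`, if the angle of `z` and `U` is at
most `2 φ` -/
private theorem nos_vec {E : Type*} [NormedAddCommGroup E] [InnerProductSpace ℝ E]
    [FiniteDimensional ℝ E] (hd : 2 ≤ Module.finrank ℝ E) {U : E} (hU : ‖U‖ = 1) {z : E}
    (hz : 0 < ‖z‖) {φ : ℝ} (h0 : 0 ≤ φ) (h1 : φ ≤ Real.pi / 2)
    (h : Real.cos (2 * φ) * ‖z‖ ≤ inner ℝ z U) :
    ∃ w : E, ‖w‖ = 1 ∧ inner ℝ U w = Real.cos φ ∧ Real.cos φ * ‖z‖ ≤ inner ℝ z w := by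
  obtain ⟨n, hn1, hn2, hn3, hn4⟩ := nos_frame hd hU z
  obtain ⟨x, hx⟩ : ∃ x : ℝ, x = inner ℝ z U / ‖z‖ := ⟨_, rfl⟩
  have hxz : inner ℝ z U = ‖z‖ * x := by
    rw [hx]
    field_simp
  have hx1 : |x| ≤ 1 := by
    rw [hx, abs_div, abs_of_pos hz, div_le_one hz]
    have := abs_real_inner_le_norm z U
    rwa [hU, mul_one] at this
  obtain ⟨hxl, hxu⟩ := abs_le.1 hx1
  have hc2 : Real.cos (2 * φ) ≤ x := by
    rw [hxz] at h
    nlinarith
  have hψ : Real.arccos x ≤ 2 * φ := by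
    have := Real.arccos_le_arccos hc2
    rwa [Real.arccos_cos (by linarith) (by linarith)] at this
  have hyn : inner ℝ z n = ‖z‖ * Real.sin (Real.arccos x) := by
    rw [Real.sin_arccos]
    have h2 : inner ℝ z n = Real.sqrt (inner ℝ z n ^ 2) := (Real.sqrt_sq hn3).symm
    have h3 : inner ℝ z n ^ 2 = ‖z‖ ^ 2 * (1 - x ^ 2) := by
      rw [hxz] at hn4
      linarith
    rw [h2, h3, Real.sqrt_mul (sq_nonneg _), Real.sqrt_sq hz.le]
  refine ⟨Real.cos φ • U + Real.sin φ • n, nos_unit hU hn1 hn2 φ, ?_, ?_⟩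
  · rw [inner_add_right, real_inner_smul_right, real_inner_smul_right, hn2,
      real_inner_self_eq_norm_sq, hU]
    ring
  · rw [inner_add_right, real_inner_smul_right, real_inner_smul_right, hxz, hyn]
    have h2 : Real.cos φ ≤ Real.cos (φ - Real.arccos x) := by
      rw [← Real.cos_abs (φ - Real.arccos x)]
      refine Real.cos_le_cos_of_nonneg_of_le_pi (abs_nonneg _) (by linarith [Real.pi_pos]) ?_
      rw [abs_le]
      constructor
      · linarith
      · linarith [Real.arccos_nonneg x]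
    rw [Real.cos_sub, Real.cos_arccos hxl hxu] at h2
    have h3 := mul_le_mul_of_nonneg_right h2 hz.le
    linarith

private theorem nos_arc {D φ : ℝ} (hD : 0 ≤ D) (h0 : 0 ≤ φ) (h1 : φ ≤ Real.pi) (h : φ * D < 1) :
    ∃ j : ℕ, ∃ η : ℝ, 0 < η ∧ η ≤ 1 ∧
      ∀ x : ℝ, Real.cos φ - η ≤ x → Real.arccos x * D ≤ 1 - 1 / ((j : ℝ) + 2) := by
  obtain ⟨j, hj⟩ := exists_nat_gt (1 / (1 - φ * D))
  have h2 : 0 < 1 - φ * D := by linarith
  have hj2 : 1 / ((j : ℝ) + 2) < 1 - φ * D := by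
    rw [div_lt_iff₀ h2] at hj
    rw [div_lt_iff₀ (by positivity)]
    nlinarith
  have hc : Tendsto (fun t : ℝ => Real.arccos (Real.cos φ - t) * D) (nhds 0)
      (nhds (Real.arccos (Real.cos φ - 0) * D)) :=
    ((Real.continuous_arccos.comp (continuous_const.sub continuous_id)).mul
      continuous_const).tendsto 0
  have hlt : Real.arccos (Real.cos φ - 0) * D < 1 - 1 / ((j : ℝ) + 2) := by
    rw [sub_zero, Real.arccos_cos h0 h1]
    linarith
  obtain ⟨η, hη, hη2⟩ := Metric.eventually_nhds_iff.1 (hc.eventually_lt_const hlt)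
  have hm : 0 < min η 1 := lt_min hη one_pos
  have hm2 : min η 1 / 2 < η := lt_of_lt_of_le (half_lt_self hm) (min_le_left _ _)
  have hm3 : min η 1 ≤ 1 := min_le_right _ _
  refine ⟨j, min η 1 / 2, half_pos hm, by linarith, fun x hx => ?_⟩
  have h3 := hη2 (y := min η 1 / 2) (by
    rw [Real.dist_eq, sub_zero, abs_of_pos (half_pos hm)]
    exact hm2)
  exact (mul_le_mul_of_nonneg_right (Real.arccos_le_arccos hx) hD).trans h3.le

/-- as `arc_no_cone` (OneR/Noc): suppose all `v` with `R ≤ nrm v` in `Reached s` are in the cone; `θ / 2 < φ < π / 2` with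
`φ (√d (α - 1)) < 1 - 2 / (j + 2)`; a ray site `z` of large norm is in `Reached s`, so in the cone and
its angle `ψ` with `u` is at most `φ`; `w = cos φ u + sin φ n`, `n` a unit vector orthogonal to `u` with
`z = nrm z (cos ψ u + sin ψ n)`; the angle of `w` and `z` is `φ - ψ`, so `v`, `nrm z • w` rounded, is in
`Reached s` by `hf j`, but it is not in the cone since its angle with `u` is near `φ` -/
theorem arc_no_coneS (hd : 2 ≤ d) {s : ℕ → Edge d} {α : ℝ} (hα : 1 < α) {δ : ℕ → ℝ}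
    (hδ : ∀ j, 0 < δ j) (hf : ∀ j, ArcFatS α j (δ j) s) (hr : AllRad s)
    (a u : Fin d → ℝ) (hu : ∑ j : Fin d, u j ^ 2 = 1) {θ : ℝ} (h0 : 0 < θ) (h1 : θ < Real.pi)
    (h : θ * (Real.sqrt d * (α - 1)) < 2) (R : ℝ) :
    ∃ v : V d, R ≤ nrm v ∧ v ∈ Reached s ∧ ∑ j : Fin d, ((v j : ℝ) - a j) * u j <
      Real.sqrt (∑ j : Fin d, ((v j : ℝ) - a j) ^ 2) * Real.cos (θ / 2) := by
  have hD : 0 < Real.sqrt d * (α - 1) := by
    have hd0 : (0 : ℝ) < d := by exact_mod_cast (by omega : 0 < d)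
    exact mul_pos (Real.sqrt_pos.2 hd0) (by linarith)
  -- the angle `φ`
  obtain ⟨φ, hφ1, hφ2⟩ := exists_between (show θ / 2 < min (Real.pi / 2) (1 / (Real.sqrt d * (α - 1))) by
    refine lt_min (by linarith) ?_
    rw [lt_div_iff₀ hD]
    linarith)
  obtain ⟨hφ3, hφ4⟩ := lt_min_iff.1 hφ2
  rw [lt_div_iff₀ hD] at hφ4
  have hφ0 : 0 < φ := by linarith
  obtain ⟨j, η, hη, hη1, hj⟩ := nos_arc hD.le hφ0.le (by linarith [Real.pi_pos]) hφ4
  obtain ⟨RF, hRF⟩ := hf j
  have hc : 0 < Real.cos (θ / 2) := Real.cos_pos_of_mem_Ioo ⟨by linarith, by linarith⟩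
  have hcφ0 : 0 ≤ Real.cos φ := Real.cos_nonneg_of_mem_Icc ⟨by linarith, by linarith⟩
  have hcφ1 : Real.cos φ ≤ 1 := Real.cos_le_one φ
  have hcφ : Real.cos φ < Real.cos (θ / 2) :=
    Real.cos_lt_cos_of_nonneg_of_le_pi (by linarith) (by linarith) hφ1
  have hc2φ : Real.cos (2 * φ) < Real.cos φ :=
    Real.cos_lt_cos_of_nonneg_of_le_pi hφ0.le (by linarith) (by linarith)
  have hc1 : Real.cos (θ / 2) ≤ 1 := Real.cos_le_one _
  obtain ⟨c, hcc⟩ : ∃ c : ℝ, c = Real.cos (θ / 2) := ⟨_, rfl⟩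
  obtain ⟨C, hCC⟩ : ∃ C : ℝ, C = Real.cos φ := ⟨_, rfl⟩
  rw [← hcc] at hc hcφ hc1 ⊢
  rw [← hCC] at hcφ0 hcφ1 hcφ hc2φ hj
  obtain ⟨U, hU⟩ : ∃ U : EuclideanSpace ℝ (Fin d), U = WithLp.toLp 2 u := ⟨_, rfl⟩
  obtain ⟨A, hA⟩ : ∃ A : EuclideanSpace ℝ (Fin d), A = WithLp.toLp 2 a := ⟨_, rfl⟩
  have hU1 : ‖U‖ = 1 := by
    have h2 : ‖U‖ ^ 2 = 1 := by
      rw [EuclideanSpace.norm_sq_eq, ← hu]
      refine Finset.sum_congr rfl fun k _ => ?_
      rw [Real.norm_eq_abs, sq_abs, hU]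
    exact (pow_eq_one_iff_of_nonneg (norm_nonneg _) two_ne_zero).1 h2
  obtain ⟨q, hq⟩ : ∃ q : ℝ, q = Real.sqrt d / 2 := ⟨_, rfl⟩
  have hq0 : 0 ≤ q := by rw [hq]; positivity
  have hA0 : 0 ≤ ‖A‖ := norm_nonneg A
  have hcC : 0 < c - C := by linarith
  obtain ⟨n, hn⟩ := exists_nat_gt (max (RF : ℝ) (max (q / δ j) (max (R + q)
    (max (2 * (q + ‖A‖) / (c - C)) (max (q + 1) (3 * q / η))))))
  simp only [max_lt_iff] at hn
  obtain ⟨hn1, hn2, hn3, hn4, hn5, hn6⟩ := hn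
  obtain ⟨z, hz, hz1, _⟩ := hr n
  have hzp : 0 < nrm z := by linarith
  have hbig : 2 * (q + ‖A‖) < (c - C) * nrm z := by
    rw [div_lt_iff₀ hcC] at hn4
    have h2 := mul_le_mul_of_nonneg_left hz1 hcC.le
    linarith
  -- the scalar product and the norm of a site minus the apex
  have hsum : ∀ v : V d, ∑ k : Fin d, ((v k : ℝ) - a k) * u k = inner ℝ U (toE v) - inner ℝ U A := by
    intro v
    rw [← inner_sub_right, PiLp.inner_apply]
    refine Finset.sum_congr rfl fun k _ => ?_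
    rw [hU, hA]
    rfl
  have hsqrt : ∀ v : V d, nrm v - ‖A‖ ≤ Real.sqrt (∑ k : Fin d, ((v k : ℝ) - a k) ^ 2) := by
    intro v
    have h3 : Real.sqrt (∑ k : Fin d, ((v k : ℝ) - a k) ^ 2) = ‖toE v - A‖ := by
      rw [EuclideanSpace.norm_eq]
      congr 1
      refine Finset.sum_congr rfl fun k _ => ?_
      rw [Real.norm_eq_abs, sq_abs, hA]
      rfl
    rw [h3, nrm_eq]
    exact norm_sub_norm_le (toE v) A
  have hUA : -‖A‖ ≤ inner ℝ U A := by
    have h2 := abs_real_inner_le_norm U A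
    rw [hU1, one_mul] at h2
    exact (abs_le.1 h2).1
  by_cases hcase : Real.cos (2 * φ) * ‖toE z‖ ≤ inner ℝ (toE z) U
  · -- the site at angle `φ`
    obtain ⟨w, hw1, hw2, hw3⟩ := nos_vec (E := EuclideanSpace ℝ (Fin d))
      (by rw [finrank_euclideanSpace, Fintype.card_fin]; exact hd) hU1
      (by rw [← nrm_eq]; exact hzp) hφ0.le hφ3.le hcase
    rw [← hCC] at hw2 hw3
    rw [← nrm_eq] at hw3
    obtain ⟨v, hv⟩ : ∃ v : V d, v = nos_rnd (nrm z • w) := ⟨_, rfl⟩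
    have he : ‖toE v - nrm z • w‖ ≤ q := by
      rw [hv, hq]
      exact nos_err _
    have hzw : ‖nrm z • w‖ = nrm z := by
      rw [norm_smul, hw1, mul_one, Real.norm_of_nonneg (nrm_nonneg z)]
    have habs : |nrm v - nrm z| ≤ q := by
      have h2 := (abs_norm_sub_norm_le (toE v) (nrm z • w)).trans he
      rwa [hzw, ← nrm_eq] at h2
    obtain ⟨hv1, hv2⟩ := abs_le.1 habs
    have hvp : 0 < nrm v := by linarith
    refine ⟨v, by linarith, ?_, ?_⟩
    · refine hRF z v hz (by linarith) ?_ (hj _ ?_)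
      · have h2 : q ≤ n * δ j := by
          have := (div_lt_iff₀ (hδ j)).1 hn2
          linarith
        have h3 : (n : ℝ) * δ j ≤ δ j * nrm z := by
          rw [mul_comm]
          exact mul_le_mul_of_nonneg_left hz1 (hδ j).le
        exact habs.trans (h2.trans h3)
      · have h2 : inner ℝ (toE z) (toE v) =
            inner ℝ (toE z) (toE v - nrm z • w) + nrm z * inner ℝ (toE z) w := by
          rw [inner_sub_right, real_inner_smul_right]
          ring
        have h3 : -(nrm z * q) ≤ inner ℝ (toE z) (toE v - nrm z • w) := by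
          have h4 := abs_real_inner_le_norm (toE z) (toE v - nrm z • w)
          rw [← nrm_eq] at h4
          have h5 := h4.trans (mul_le_mul_of_nonneg_left he hzp.le)
          exact (abs_le.1 h5).1
        have h4 : nrm z * (C * nrm z) ≤ nrm z * inner ℝ (toE z) w :=
          mul_le_mul_of_nonneg_left hw3 hzp.le
        have h5 : 3 * q ≤ η * nrm z := by
          rw [div_lt_iff₀ hη] at hn6
          have h6 := mul_le_mul_of_nonneg_left hz1 hη.le
          linarith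
        have h6 : (C - η) * nrm v ≤ C * nrm z - q := by
          have h7 : (C - η) * (nrm v - nrm z) ≤ 2 * q := by
            have h8 : |(C - η) * (nrm v - nrm z)| ≤ 2 * q := by
              rw [abs_mul]
              refine mul_le_mul ?_ habs (abs_nonneg _) (by norm_num)
              rw [abs_le]
              constructor <;> linarith
            exact (abs_le.1 h8).2
          have h9 : (C - η) * nrm v = (C - η) * (nrm v - nrm z) + C * nrm z - η * nrm z := by ring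
          linarith
        have h7 := mul_le_mul_of_nonneg_left h6 hzp.le
        rw [nos_ip, h2, le_div_iff₀ (mul_pos hzp hvp)]
        linarith
    · have h4 : inner ℝ U (toE v) ≤ q + C * nrm z := by
        have h5 : inner ℝ U (toE v) = inner ℝ U (toE v - nrm z • w) + nrm z * inner ℝ U w := by
          rw [inner_sub_right, real_inner_smul_right]
          ring
        have h6 : inner ℝ U (toE v - nrm z • w) ≤ q := by
          refine (real_inner_le_norm _ _).trans ?_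
          rw [hU1, one_mul]
          exact he
        rw [h5, hw2]
        linarith
      rw [hsum]
      refine lt_of_lt_of_le ?_ (mul_le_mul_of_nonneg_right (hsqrt v) hc.le)
      have h5 : (nrm z - (q + ‖A‖)) * c ≤ (nrm v - ‖A‖) * c :=
        mul_le_mul_of_nonneg_right (by linarith) hc.le
      have h6 : (q + ‖A‖) * c ≤ (q + ‖A‖) * 1 := mul_le_mul_of_nonneg_left hc1 (by linarith)
      linarith
  · -- the ray site is outside of the cone
    push Not at hcase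
    rw [← nrm_eq] at hcase
    refine ⟨z, by linarith, ?_, ?_⟩
    · refine hRF z z hz (by linarith) ?_ (hj _ ?_)
      · rw [sub_self, abs_zero]
        exact mul_nonneg (hδ j).le hzp.le
      · have h2 : ip z z / (nrm z * nrm z) = 1 := by
          rw [nos_ip, real_inner_self_eq_norm_sq, ← nrm_eq, pow_two]
          exact div_self (mul_pos hzp hzp).ne'
        rw [h2]
        linarith
    · rw [hsum, real_inner_comm]
      refine lt_of_lt_of_le ?_ (mul_le_mul_of_nonneg_right (hsqrt z) hc.le)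
      have h5 : Real.cos (2 * φ) * nrm z ≤ C * nrm z :=
        mul_le_mul_of_nonneg_right hc2φ.le hzp.le
      have h6 : ‖A‖ * c ≤ ‖A‖ * 1 := mul_le_mul_of_nonneg_left hc1 hA0
      linarith
-- END nos

end OneR
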