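import Pool.Agent.OneE.Det
import Pool.Agent.OneE.Meas
import Pool.Agent.OneE.Expl
import Pool.Agent.OneE.Law
import Pool.Agent.ConeD.Conc
import Pool.Agent.OneR.Path

/-!
Problem MP_b9fb85_pr: the ray of the infection tree, its remaining times, and the event that it is
asymptotically straight.
-/

set_option autoImplicit false

namespace OneR

open Finset ConeD ConeD.TRANSAux OneE Filter MeasureTheory

variable {d : ℕ}

section

variable {τ : Edge d → ℝ} {s : ℕ → Edge d}

-- BEGIN chd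
/-- a site with infinitely many descendants has a child with infinitely many descendants:
`Desc s z ⊆ {z} ∪ ⋃ z' child, Desc s z'` (`Relation.ReflTransGen.cases_head`), finitely many children
by `OneE.infects_adj` -/
theorem exists_child {z : V d} (hz : (Desc s z).Infinite) :
    ∃ z', Infects s z z' ∧ (Desc s z').Infinite := by
  by_contra hcon
  have hcon' : ∀ z', Infects s z z' → (Desc s z').Finite := fun z' h1 =>
    Set.not_infinite.1 fun h2 => hcon ⟨z', h1, h2⟩
  have hfin : {z' | Infects s z z'}.Finite := by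
    refine (Set.finite_range fun t : Step d => z + vec t).subset ?_
    intro z' hz'
    obtain ⟨t, ht⟩ := infects_adj hz'
    exact ⟨t, ht⟩
  refine hz ?_
  refine ((Set.finite_singleton z).union (hfin.biUnion fun z' hz' => hcon' z' hz')).subset ?_
  intro v hv
  rcases Relation.ReflTransGen.cases_head hv with h | ⟨c, hc, hcv⟩
  · left
    exact h.symm
  · right
    exact Set.mem_biUnion (show c ∈ {z' | Infects s z z'} from hc) hcv
-- END chd

-- BEGIN unq
/-- two ancestors of a site are comparable: `Relation.ReflTransGen.total_of_right_unique` for the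
swapped relation (`OneE.infects_unique`), or induction -/
theorem anc_total {x y v : V d} (hx : Relation.ReflTransGen (Infects s) x v)
    (hy : Relation.ReflTransGen (Infects s) y v) :
    Relation.ReflTransGen (Infects s) x y ∨ Relation.ReflTransGen (Infects s) y x := by
  induction hx with
  | refl => exact Or.inr hy
  | tail hxb hbc ih =>
    rcases Relation.ReflTransGen.cases_tail hy with h | ⟨u, hu, huc⟩
    · left
      rw [← h]
      exact hxb.tail hbc
    · rw [infects_unique huc hbc] at hu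
      exact ih hu

theorem unq_aux {z z1 z2 : V d} (h1 : Infects s z z1) (h2 : Infects s z z2)
    (h : Relation.ReflTransGen (Infects s) z1 z2) : z1 = z2 := by
  rcases Relation.ReflTransGen.cases_tail h with h3 | ⟨u, hu, hu2⟩
  · exact h3.symm
  · rw [infects_unique hu2 h2] at hu
    obtain ⟨m, _, _, hm3, hm4⟩ := h1
    exact absurd (desc_mem hu hm3) hm4

/-- only one child has infinitely many descendants: `Reached \ Desc z1` is finite, `Desc z2` is an
infinite subset of `Reached`, so there is a common descendant, `anc_total`; if `z1` is a strict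
ancestor of `z2` then it is an ancestor of the parent `z` of `z2`, `OneE.desc_mem` contradicts
`z ∈ vs (lst s n)`, `z1 ∉ vs (lst s n)` -/
theorem child_unique (hd : ∀ (m : ℕ) (z : V d), z ∈ ends (s m) → z ∉ vs (lst s m) →
      (Desc s z).Finite ∨ (Reached s \ Desc s z).Finite) {z z1 z2 : V d}
    (h1 : Infects s z z1) (h2 : Infects s z z2) (i1 : (Desc s z1).Infinite)
    (i2 : (Desc s z2).Infinite) : z1 = z2 := by
  have h3 : (Reached s \ Desc s z1).Finite := by
    obtain ⟨m, _, hm2, _, hm4⟩ := h1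
    exact (hd m z1 hm2 hm4).resolve_left i1
  obtain ⟨v, hv, hv'⟩ := i2.exists_notMem_finite h3
  have hv2 : Relation.ReflTransGen (Infects s) z2 v := hv
  have hv1 : Relation.ReflTransGen (Infects s) z1 v := by
    by_contra hc
    exact hv' ⟨desc_reached (infects_reached h2) hv2, hc⟩
  rcases anc_total hv1 hv2 with h | h
  · exact unq_aux h1 h2 h
  · exact (unq_aux h2 h1 h).symm
-- END unq

-- BEGIN stp
/-- an infection is a step along a new edge (see the proof of `OneE.infects_adj`) -/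
theorem infects_step {x y : V d} (h : Infects s x y) : ∃ (t : Step d) (m : ℕ), y = x + vec t ∧
    s m = edg x t ∧ x ∈ vs (lst s m) ∧ y ∉ vs (lst s m) := by
  obtain ⟨n, h1, h2, h3, h4⟩ := h
  rw [mem_ends] at h1 h2
  rcases h1 with h1 | h1 <;> rcases h2 with h2 | h2
  · exact absurd (h2.trans h1.symm ▸ h3) h4
  · refine ⟨((s n).2, true), n, by rw [h1, h2]; simp [vec], ?_, h3, h4⟩
    rw [h1]
    simp [edg]
  · refine ⟨((s n).2, false), n, by rw [h1, h2]; simp [vec], ?_, h3, h4⟩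
    rw [h1]
    simp [edg]
  · exact absurd (h2.trans h1.symm ▸ h3) h4
-- END stp

-- BEGIN ery
/-- the ray: iterate `exists_child` from `0` (`OneE.desc_zero`, `OneE.reached_infinite`), steps by
`infects_step`; a site with infinitely many descendants is reached, induction along its ancestral
line with `child_unique` -/
theorem exists_ray (hG : ∀ n, G τ (lst s n))
    (hd : ∀ (m : ℕ) (z : V d), z ∈ ends (s m) → z ∉ vs (lst s m) →
      (Desc s z).Finite ∨ (Reached s \ Desc s z).Finite) :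
    ∃ (γ : ℕ → V d) (st : ℕ → Step d), γ 0 = 0 ∧ (∀ n, γ (n + 1) = γ n + vec (st n)) ∧
      (∀ n, ∃ m, s m = edg (γ n) (st n) ∧ γ n ∈ vs (lst s m) ∧ γ (n + 1) ∉ vs (lst s m)) ∧
      ∀ z, (Desc s z).Infinite → ∃ n, γ n = z := by
  have h0 : (Desc s (0 : V d)).Infinite := by
    refine (reached_infinite hG).mono ?_
    rintro v ⟨n, hn⟩
    exact desc_zero hG n v hn
  have hc : ∀ p : {z : V d // (Desc s z).Infinite}, ∃ q : {z : V d // (Desc s z).Infinite},
      Infects s p.1 q.1 := by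
    rintro ⟨z, hz⟩
    obtain ⟨z', h1, h2⟩ := exists_child hz
    exact ⟨⟨z', h2⟩, h1⟩
  choose nx hnx using hc
  set P : ℕ → {z : V d // (Desc s z).Infinite} := fun n => nx^[n] ⟨0, h0⟩ with hP
  have hI : ∀ n, Infects s (P n).1 (P (n + 1)).1 := by
    intro n
    have : P (n + 1) = nx (P n) := by
      simp only [hP, Function.iterate_succ_apply']
    rw [this]
    exact hnx _
  choose st mm hst using fun n => infects_step (hI n)
  refine ⟨fun n => (P n).1, st, rfl, fun n => (hst n).1, fun n => ⟨mm n, (hst n).2⟩, ?_⟩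
  have key : ∀ z : V d, Relation.ReflTransGen (Infects s) 0 z → (Desc s z).Infinite →
      ∃ n, (P n).1 = z := by
    intro z hz
    induction hz with
    | refl => exact fun _ => ⟨0, rfl⟩
    | @tail u z _ huz ih =>
      intro hzi
      have hui : (Desc s u).Infinite := by
        refine hzi.mono fun v hv => ?_
        exact Relation.ReflTransGen.head huz hv
      obtain ⟨n, hn⟩ := ih hui
      refine ⟨n + 1, ?_⟩
      have h1 := hI n
      rw [hn] at h1
      exact child_unique hd h1 huz (P (n + 1)).2 hzi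
  intro z hz
  obtain ⟨v, hv, hvz⟩ := hz.nontrivial.exists_ne z
  have hvr : v ∈ Reached s := by
    rcases Relation.ReflTransGen.cases_tail hv with h | ⟨u, _, h⟩
    · exact absurd h hvz
    · exact infects_reached h
  obtain ⟨n, hn⟩ := hvr
  exact key z (desc_zero hG n z (desc_mem hv hn)) hz
-- END ery

-- BEGIN art
/-- the arrival times: `θ v = th τ (lst s n) v` for the first `n` with `v ∈ vs (lst s n)`;
`expl_th_cons_of_mem`, `expl_th_cons_of_notMem`, `expl_tm_cons`, `expl_ac_one`, `edg_cases`,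
`OneE.exists_walk` -/
theorem exists_art (hτ : ∀ e, 0 < τ e) (hG : ∀ n, G τ (lst s n)) :
    ∃ θ : V d → ℝ, (∀ n, ∀ v ∈ vs (lst s n), θ v = th τ (lst s n) v) ∧ θ 0 = 0 ∧
      (∀ v ∈ Reached s, ∃ l : List (Step d), endp 0 l = v ∧ wt τ 0 l = θ v) ∧
      ∀ (x : V d) (t : Step d) (m : ℕ), s m = edg x t → x ∈ vs (lst s m) →
        x + vec t ∉ vs (lst s m) → θ (x + vec t) = θ x + τ (s m) := by
  classical
  have hmono : ∀ (k m : ℕ) (v : V d), v ∈ vs (lst s m) →
      th τ (lst s (m + k)) v = th τ (lst s m) v := by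
    intro k
    induction k with
    | zero => intro m v _; rfl
    | succ k ih =>
      intro m v hv
      have h1 : v ∈ vs (lst s (m + k)) := vs_mono s (Nat.le_add_right m k) hv
      have h2 := expl_th_cons_of_mem τ (s (m + k)) h1
      rw [← ih m v hv, ← h2]
      rfl
  have key : ∀ (m n : ℕ) (v : V d), v ∈ vs (lst s m) → v ∈ vs (lst s n) →
      th τ (lst s n) v = th τ (lst s m) v := by
    intro m n v hm hn
    rcases le_total m n with h | h
    · obtain ⟨k, rfl⟩ := Nat.exists_eq_add_of_le h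
      exact hmono k m v hm
    · obtain ⟨k, rfl⟩ := Nat.exists_eq_add_of_le h
      exact (hmono k n v hn).symm
  let θ : V d → ℝ := fun v => if h : ∃ n, v ∈ vs (lst s n) then th τ (lst s h.choose) v else 0
  have hθ : ∀ n, ∀ v ∈ vs (lst s n), θ v = th τ (lst s n) v := by
    intro n v hv
    have h : ∃ n, v ∈ vs (lst s n) := ⟨n, hv⟩
    have h1 : θ v = th τ (lst s h.choose) v := dif_pos h
    rw [h1]
    exact key n h.choose v hv h.choose_spec
  refine ⟨θ, hθ, ?_, ?_, ?_⟩
  · rw [hθ 0 0 (zero_mem_vs s 0), expl_th_zero]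
  · rintro v ⟨n, hn⟩
    obtain ⟨l, h1, h2, _⟩ := exists_walk hG n v hn
    exact ⟨l, h1, h2.trans (hθ n v hn).symm⟩
  · intro x t m h1 h2 h3
    have h4 : x + vec t ∈ vs (lst s (m + 1)) := by
      refine ends_subset s m ?_
      rw [mem_ends, h1]
      rcases edg_cases x t with ⟨_, h⟩ | ⟨h, _⟩
      · right
        exact h.symm
      · left
        exact h.symm
    rw [hθ (m + 1) _ h4, hθ m x h2]
    have h5 := expl_th_cons_of_notMem τ (s m) h3
    have h6 := expl_tm_cons τ (s m) (lst s m)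
    have h7 : ac τ (lst s m) (s m) = th τ (lst s m) x := by
      refine expl_ac_one (b := x + vec t) ?_ h2 h3
      rw [h1]
      exact edg_cases x t
    show th τ (s m :: lst s m) (x + vec t) = _
    rw [h5, h6, h7]
-- END art

-- BEGIN wcv
/-- the remaining times along the ray: `W n = S τ 0 - θ (γ n)` with `θ` from `exists_art`;
`OneE.th_lt`; `S_le_wt_add_S`; the `γ n` are different (times `m` increase), so
`finite_of_lt_S` gives `W → 0` (`T τ 0 v ≤ θ v` by `T_le_wt`) and `finite_ball` gives `nrm → ∞` -/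
theorem ray_times (i0 : Fin d) (hτ : ∀ e, 0 < τ e) (hS : Explodes τ) (hG : ∀ n, G τ (lst s n))
    {γ : ℕ → V d} {st : ℕ → Step d} (h0 : γ 0 = 0) (h1 : ∀ n, γ (n + 1) = γ n + vec (st n))
    (h2 : ∀ n, ∃ m, s m = edg (γ n) (st n) ∧ γ n ∈ vs (lst s m) ∧ γ (n + 1) ∉ vs (lst s m)) :
    ∃ W : ℕ → ℝ, (∀ n, W n = τ (edg (γ n) (st n)) + W (n + 1)) ∧ (∀ n, 0 < W n) ∧
      Tendsto W atTop (nhds 0) ∧ (∀ n, W n ≤ S τ (γ n)) ∧
      Tendsto (fun n => nrm (γ n)) atTop atTop := by
  obtain ⟨θ, t1, _, t3, t4⟩ := exists_art hτ hG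
  have hstep : ∀ n, θ (γ (n + 1)) = θ (γ n) + τ (edg (γ n) (st n)) := by
    intro n
    obtain ⟨m, hm, hx, hy⟩ := h2 n
    rw [h1 n] at hy
    have h4 := t4 (γ n) (st n) m hm hx hy
    rw [h1 n, h4, hm]
  have hsm : StrictMono fun n => θ (γ n) := by
    refine strictMono_nat_of_lt_succ fun n => ?_
    show θ (γ n) < θ (γ (n + 1))
    rw [hstep n]
    exact lt_add_of_pos_right _ (hτ _)
  have hinj : Function.Injective γ := fun a b hab => hsm.injective (by
    show θ (γ a) = θ (γ b)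
    rw [hab])
  have hpos : ∀ n, 0 < S τ 0 - θ (γ n) := by
    intro n
    obtain ⟨m, _, hx, _⟩ := h2 n
    have h4 := th_lt i0 hτ hS (hG m) (γ n) hx
    rw [← t1 m (γ n) hx] at h4
    exact sub_pos.2 h4
  have hnn : ∀ e, 0 ≤ τ e := fun e => (hτ e).le
  have hwalk : ∀ n, ∃ l : List (Step d), endp 0 l = γ n ∧ wt τ 0 l = θ (γ n) := by
    intro n
    obtain ⟨m, _, hx, _⟩ := h2 n
    exact t3 (γ n) ⟨m, hx⟩
  refine ⟨fun n => S τ 0 - θ (γ n), ?_, hpos, ?_, ?_, ?_⟩
  · intro n
    show S τ 0 - θ (γ n) = τ (edg (γ n) (st n)) + (S τ 0 - θ (γ (n + 1)))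
    rw [hstep n]
    ring
  · rw [Metric.tendsto_atTop]
    intro ε hε
    obtain ⟨N, hN⟩ : ∃ N, S τ 0 - θ (γ N) < ε := by
      by_contra hcon
      push Not at hcon
      have hfin : {y : V d | T τ 0 y ≤ S τ 0 - ε}.Finite :=
        finite_of_lt_S hnn (by linarith)
      refine Set.infinite_of_injective_forall_mem (s := {y : V d | T τ 0 y ≤ S τ 0 - ε}) hinj
        (fun n => ?_) hfin
      obtain ⟨l, hl1, hl2⟩ := hwalk n
      have h4 : T τ 0 (γ n) ≤ wt τ 0 l := T_le_wt hnn hl1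
      have h5 := hcon n
      show T τ 0 (γ n) ≤ S τ 0 - ε
      linarith
    refine ⟨N, fun n hn => ?_⟩
    have h4 : θ (γ N) ≤ θ (γ n) := hsm.monotone hn
    rw [Real.dist_eq, sub_zero, abs_of_pos (hpos n)]
    linarith
  · intro n
    obtain ⟨l, hl1, hl2⟩ := hwalk n
    have h4 := S_le_wt_add_S hnn hS 0 l
    rw [hl1] at h4
    show S τ 0 - θ (γ n) ≤ S τ (γ n)
    linarith
  · refine tendsto_atTop.2 fun R => ?_
    have h4 := hinj.tendsto_cofinite.eventually (finite_ball (d := d) R).eventually_cofinite_notMem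
    rw [Nat.cofinite_eq_atTop] at h4
    filter_upwards [h4] with n hn
    exact (not_le.1 hn).le
-- END wcv

end

-- BEGIN ubs
/-- the upper bound (U) holds for explosion times: `sup_ball` with `ρ = 0`, `τ' = tau α E`,
`S_le_of_infinite` -/
theorem ub_S {h : V d → ℝ} {a b C : ℝ} (hh : HF h a b C) {η : ℝ} (hη : 0 < η) (hη1 : η ≤ 1)
    {α : ℝ} (hα : 1 < α) : ∃ K R1 : ℝ, 0 < K ∧ ∀ (E : Edge d → ℝ) (R0 : ℝ), (∀ e, 0 ≤ E e) →
      CC h η E R0 → ∀ (y : V d) (t : ℝ), R1 ≤ nrm y → R0 ≤ nrm y → t ≤ S (tau α E) y →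
        UB h η α K t y := by
  obtain ⟨K, R1, hK, hsup⟩ := sup_ball hh hη hη1 hα
  refine ⟨K, R1, hK, ?_⟩
  intro E R0 hE hCC y t hy1 hy0 ht w hw1 hw2
  have hτ : ∀ e, 0 ≤ tau α E e := fun e =>
    div_nonneg (hE e) (Real.rpow_nonneg (Real.sqrt_nonneg _) _)
  refine ht.trans (S_le_of_infinite hτ (hsup E R0 hE hCC 0 (tau α E) hτ (fun e _ => le_rfl) y w
    hy1 hy0 ?_ hw1 hw2))
  rw [mul_zero]
  exact Real.sqrt_nonneg _
-- END ubs

theorem rtg_mono {X : Type*} {r p : X → X → Prop} (h : ∀ x y, r x y → p x y) {a b : X}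
    (hab : Relation.ReflTransGen r a b) : Relation.ReflTransGen p a b := by
  induction hab with
  | refl => exact Relation.ReflTransGen.refl
  | tail _ h2 ih => exact ih.tail (h _ _ h2)

/-- the ray is asymptotically straight -/
def Straight (s : ℕ → Edge d) : Prop :=
  ∃ C : ℕ, ∀ (I : Finset ℕ) (x y : I → V d),
    (∀ k : I, ((Desc s (x k)).Infinite ∧ 2 ^ (k : ℕ) ≤ nrm (x k) ∧ nrm (x k) ≤ 2 ^ ((k : ℕ) + 1)) ∧
      (Desc s (y k)).Infinite ∧ 2 ^ (k : ℕ) ≤ nrm (y k) ∧ nrm (y k) ≤ 2 ^ ((k : ℕ) + 1)) →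
    ∑ k : I, (1 - ip (x k) (y k) / (nrm (x k) * nrm (y k))) ≤ C

-- BEGIN mst
private theorem mst_desc (z : V d) :
    MeasurableSet {s : ℕ → Edge d | (Desc s z).Infinite} := by
  refine UNIQAux.meas_inf (fun s : ℕ → Edge d => Desc s z) fun v => ?_
  exact measurableSet_rtg (fun (s : ℕ → Edge d) x y => Infects s x y)
    (fun x y => measurableSet_infects x y) z v

/-- countable unions and intersections (`I → V d` is countable), `OneE.measurableSet_rtg`,
`OneE.measurableSet_infects`, `UNIQAux.meas_inf` -/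
theorem measurableSet_straight : MeasurableSet {s : ℕ → Edge d | Straight s} := by
  have hset : {s : ℕ → Edge d | Straight s} = ⋃ C : ℕ, ⋂ I : Finset ℕ, ⋂ x : I → V d,
      ⋂ y : I → V d, ({s | ∀ k : I, ((Desc s (x k)).Infinite ∧ 2 ^ (k : ℕ) ≤ nrm (x k) ∧
        nrm (x k) ≤ 2 ^ ((k : ℕ) + 1)) ∧ (Desc s (y k)).Infinite ∧ 2 ^ (k : ℕ) ≤ nrm (y k) ∧
          nrm (y k) ≤ 2 ^ ((k : ℕ) + 1)}ᶜ ∪
        {_s : ℕ → Edge d | ∑ k : I, (1 - ip (x k) (y k) / (nrm (x k) * nrm (y k))) ≤ C}) := by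
    ext s
    simp only [Straight, Set.mem_ofPred_eq, Set.mem_iUnion, Set.mem_iInter, Set.mem_union,
      Set.mem_compl_iff]
    constructor
    · rintro ⟨C, hC⟩
      refine ⟨C, fun I x y => ?_⟩
      by_cases h : ∀ k : I, ((Desc s (x k)).Infinite ∧ 2 ^ (k : ℕ) ≤ nrm (x k) ∧
        nrm (x k) ≤ 2 ^ ((k : ℕ) + 1)) ∧ (Desc s (y k)).Infinite ∧ 2 ^ (k : ℕ) ≤ nrm (y k) ∧
          nrm (y k) ≤ 2 ^ ((k : ℕ) + 1)
      · exact Or.inr (hC I x y h)
      · exact Or.inl h
    · rintro ⟨C, hC⟩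
      refine ⟨C, fun I x y h => ?_⟩
      rcases hC I x y with h1 | h1
      · exact absurd h h1
      · exact h1
  rw [hset]
  refine MeasurableSet.iUnion fun C => MeasurableSet.iInter fun I => MeasurableSet.iInter fun x =>
    MeasurableSet.iInter fun y => ?_
  refine MeasurableSet.union (MeasurableSet.compl ?_) (MeasurableSet.const _)
  have h2 : {s : ℕ → Edge d | ∀ k : I, ((Desc s (x k)).Infinite ∧ 2 ^ (k : ℕ) ≤ nrm (x k) ∧
        nrm (x k) ≤ 2 ^ ((k : ℕ) + 1)) ∧ (Desc s (y k)).Infinite ∧ 2 ^ (k : ℕ) ≤ nrm (y k) ∧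
          nrm (y k) ≤ 2 ^ ((k : ℕ) + 1)} =
      ⋂ k : I, (({s | (Desc s (x k)).Infinite} ∩ {_s | 2 ^ (k : ℕ) ≤ nrm (x k) ∧
        nrm (x k) ≤ 2 ^ ((k : ℕ) + 1)}) ∩ ({s | (Desc s (y k)).Infinite} ∩
          {_s | 2 ^ (k : ℕ) ≤ nrm (y k) ∧ nrm (y k) ≤ 2 ^ ((k : ℕ) + 1)})) := by
    ext s
    simp only [Set.mem_ofPred_eq, Set.mem_iInter, Set.mem_inter_iff]
  rw [h2]
  exact MeasurableSet.iInter fun k =>
    ((mst_desc (x k)).inter (MeasurableSet.const _)).inter
      ((mst_desc (y k)).inter (MeasurableSet.const _))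
-- END mst

-- BEGIN aes
/-- almost surely all explorations have a straight ray: `conc`, `hf_hm`, `ae_pos`, `explodes_ae`,
`via_or_avoid`, `desc_or`, `exists_ray`, `ray_times`, `ub_S`, `ray_all` -/
theorem straight_ae (i0 : Fin d) {α : ℝ} (hα : 1 < α) : ∀ᵐ E ∂(PE d), ∀ s : ℕ → Edge d,
    (∀ n, G (tau α E) (lst s n)) → Straight s := by
  obtain ⟨a, C, hh⟩ := hf_hm d
  have he0 : 0 < eta d := by
    unfold eta
    positivity
  have he1 : eta d ≤ 1 := by
    unfold eta
    rw [div_le_one (by positivity)]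
    have h : (0 : ℝ) ≤ (d : ℝ) := Nat.cast_nonneg d
    linarith
  obtain ⟨K, R1, hK, hub⟩ := ub_S hh he0 he1 hα
  filter_upwards [conc d, ae_pos, explodes_ae i0 hα, via_or_avoid (d := d) α]
    with E hconc hpos hex hva s hG
  obtain ⟨R0, hCC⟩ := hconc
  have hτ : ∀ f, 0 < tau α E f := fun f =>
    div_pos (hpos f) (Real.rpow_pos_of_pos (mid_pos f) α)
  have hE : ∀ e, 0 ≤ E e := fun e => (hpos e).le
  have hd : ∀ (m : ℕ) (z : V d), z ∈ ends (s m) → z ∉ vs (lst s m) →
      (Desc s z).Finite ∨ (Reached s \ Desc s z).Finite :=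
    fun m z h1 h2 => desc_or i0 hτ hex hG (hva hex) h1 h2
  obtain ⟨γ, st, h0, h1, h2, h3⟩ := exists_ray hG hd
  obtain ⟨W, w1, w2, w3, w4, w5⟩ := ray_times i0 hτ hex hG h0 h1 h2
  have hray : InfRay (hm (d := d)) (eta d) α K E γ st W := by
    refine ⟨h1, w1, w2, w3, w5, ?_⟩
    filter_upwards [w5.eventually_ge_atTop (max R1 R0)] with n hn
    exact hub E R0 hE hCC (γ n) (W n) ((le_max_left _ _).trans hn) ((le_max_right _ _).trans hn)
      (w4 n)
  obtain ⟨C1, hC1⟩ := ray_all hh he0 he1 hα hK hE hCC hray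
  refine ⟨⌈C1⌉₊, fun I x y hI => ?_⟩
  choose mm hmm using fun k : I => h3 (x k) (hI k).1.1
  choose mm' hmm' using fun k : I => h3 (y k) (hI k).2.1
  classical
  have hm1 : ∀ k : I, γ ((fun j : ℕ => if h : j ∈ I then mm ⟨j, h⟩ else 0) (k : ℕ)) = x k := by
    intro k
    have h4 : (if h : (k : ℕ) ∈ I then mm ⟨(k : ℕ), h⟩ else 0) = mm k := dif_pos k.2
    show γ (if h : (k : ℕ) ∈ I then mm ⟨(k : ℕ), h⟩ else 0) = x k
    rw [h4]
    exact hmm k
  have hm2 : ∀ k : I, γ ((fun j : ℕ => if h : j ∈ I then mm' ⟨j, h⟩ else 0) (k : ℕ)) = y k := by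
    intro k
    have h4 : (if h : (k : ℕ) ∈ I then mm' ⟨(k : ℕ), h⟩ else 0) = mm' k := dif_pos k.2
    show γ (if h : (k : ℕ) ∈ I then mm' ⟨(k : ℕ), h⟩ else 0) = y k
    rw [h4]
    exact hmm' k
  have hfin := hC1 I (fun j : ℕ => if h : j ∈ I then mm ⟨j, h⟩ else 0)
    (fun j : ℕ => if h : j ∈ I then mm' ⟨j, h⟩ else 0) (by
      intro k hk
      have e1 := hm1 ⟨k, hk⟩
      have e2 := hm2 ⟨k, hk⟩
      obtain ⟨⟨_, g1, g2⟩, _, g3, g4⟩ := hI ⟨k, hk⟩
      rw [← e1] at g1 g2
      rw [← e2] at g3 g4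
      exact ⟨g1, g2, g3, g4⟩)
  rw [← Finset.sum_coe_sort I] at hfin
  refine le_trans (le_of_eq (Finset.sum_congr rfl fun k _ => ?_)) (hfin.trans (Nat.le_ceil C1))
  rw [hm1 k, hm2 k]
-- END aes

end OneR
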