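import Pool.Agent.OneR.Crit

/-!
Problem MP_b9fb85_pr: the time constant along the ray converges to one value, for which the limit
directions are critical.
-/

set_option autoImplicit false

namespace OneR

open Finset ConeD ConeD.TRANSAux OneE Filter MeasureTheory

variable {d : ℕ}

private theorem val_ip (x y : V d) : ip x y = inner ℝ (toE x) (toE y) := by
  unfold ip
  rw [PiLp.inner_apply]
  refine Finset.sum_congr rfl fun j _ => ?_
  rw [toE_apply, toE_apply]
  simp [mul_comm]

theorem muh_le_nrm {h : V d → ℝ} {a b C : ℝ} (hh : HF h a b C) (w : V d) :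
    muh h w ≤ b * nrm w := by
  have h1 := muh_le hh w one_pos
  rw [one_smul, Nat.cast_one, div_one] at h1
  exact h1.trans (hh.up w)

theorem muh_low {h : V d → ℝ} {a b C : ℝ} (hh : HF h a b C) (w : V d) :
    a * nrm w ≤ muh h w := by
  have h1 := muh_tendsto hh w
  have h2 : Tendsto (fun n : ℕ => a * nrm w - C / n) atTop (nhds (a * nrm w - 0)) :=
    tendsto_const_nhds.sub (tendsto_const_div_atTop_nhds_zero_nat C)
  rw [sub_zero] at h2
  refine le_of_tendsto_of_tendsto h2 h1 ?_
  filter_upwards [eventually_gt_atTop 0] with n hn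
  have hn' : (0 : ℝ) < n := Nat.cast_pos.2 hn
  rw [le_div_iff₀ hn', sub_mul, div_mul_cancel₀ _ hn'.ne']
  have h3 := hh.low (n • w)
  rw [nrm_nsmul] at h3
  linarith

theorem muh_nsmul_le {h : V d → ℝ} {a b C : ℝ} (hh : HF h a b C) (j : ℕ) (z : V d) :
    muh h (j • z) ≤ j * muh h z := by
  induction j with
  | zero =>
    have h1 := muh_le_nrm hh (0 : V d)
    rw [nrm_zero, mul_zero] at h1
    rw [zero_smul, Nat.cast_zero, zero_mul]
    exact h1
  | succ j ih =>
    rw [add_smul, one_smul, Nat.cast_add, Nat.cast_one, add_mul, one_mul]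
    exact (muh_add hh _ _).trans (add_le_add ih le_rfl)

theorem le_muh_nsmul {h : V d → ℝ} {a b C : ℝ} (hh : HF h a b C) {k : ℕ} (hk : 0 < k)
    (w : V d) : k * muh h w ≤ muh h (k • w) := by
  have hk' : (0 : ℝ) < k := Nat.cast_pos.2 hk
  show k * muh h w ≤ ⨅ n : ℕ, h ((n + 1) • (k • w)) / (n + 1)
  refine le_ciInf fun n => ?_
  have hn : (0 : ℝ) < (n : ℝ) + 1 := by positivity
  have h1 := muh_le hh w (n := (n + 1) * k) (by positivity)
  rw [mul_smul] at h1
  push_cast at h1
  rw [le_div_iff₀ (by positivity)] at h1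
  rw [le_div_iff₀ hn]
  calc (k : ℝ) * muh h w * (n + 1) = muh h w * ((n + 1) * k) := by ring
    _ ≤ h ((n + 1) • k • w) := h1

/-- rounding of a direction: a small vector in nearly the same direction -/
theorem muh_round {h : V d → ℝ} {a b C : ℝ} (hh : HF h a b C) (hb : 0 ≤ b) {z : V d}
    (hz : 0 < nrm z) (N : ℕ) :
    ∃ w : V d, nrm w ≤ N + Real.sqrt d ∧ (N - Real.sqrt d) * nrm z ≤ ip w z ∧
      muh h w ≤ N / nrm z * muh h z + b * (Real.sqrt d + 1) := by
  classical
  set w : V d := fun i => round (N / nrm z * (z i : ℝ)) with hw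
  set e : EuclideanSpace ℝ (Fin d) := toE w - (N / nrm z) • toE z with he
  have hen : ‖e‖ ≤ Real.sqrt d := by
    rw [EuclideanSpace.norm_eq]
    refine Real.sqrt_le_sqrt ?_
    have h1 : ∀ i : Fin d, ‖e i‖ ^ 2 ≤ 1 := by
      intro i
      have h2 : e i = (round (N / nrm z * (z i : ℝ)) : ℝ) - N / nrm z * (z i : ℝ) := rfl
      have h3 := abs_sub_round (N / nrm z * (z i : ℝ))
      rw [h2, Real.norm_eq_abs, abs_sub_comm]
      have h4 := abs_nonneg (N / nrm z * (z i : ℝ) - (round (N / nrm z * (z i : ℝ)) : ℝ))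
      nlinarith
    calc ∑ i : Fin d, ‖e i‖ ^ 2 ≤ ∑ _i : Fin d, (1 : ℝ) := Finset.sum_le_sum fun i _ => h1 i
      _ = d := by simp
  have hwe : toE w = e + (N / nrm z : ℝ) • toE z := by
    rw [he, sub_add_cancel]
  have hzE : ‖toE z‖ = nrm z := (nrm_eq z).symm
  have hN0 : (0 : ℝ) ≤ N / nrm z := by positivity
  refine ⟨w, ?_, ?_, ?_⟩
  · rw [nrm_eq, hwe]
    refine (norm_add_le _ _).trans ?_
    rw [norm_smul, Real.norm_of_nonneg hN0, hzE, div_mul_cancel₀ _ hz.ne']
    linarith
  · rw [val_ip, hwe, inner_add_left, real_inner_smul_left, real_inner_self_eq_norm_sq, hzE]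
    have h1 := abs_real_inner_le_norm e (toE z)
    rw [hzE] at h1
    have h2 := neg_abs_le (inner ℝ e (toE z))
    have h3 : ‖e‖ * nrm z ≤ Real.sqrt d * nrm z := mul_le_mul_of_nonneg_right hen hz.le
    have h4 : (N : ℝ) / nrm z * nrm z ^ 2 = N * nrm z := by
      field_simp
    rw [h4, sub_mul]
    linarith
  · set k : ℕ := ⌈nrm z⌉₊ with hk
    have hk0 : 0 < k := Nat.ceil_pos.2 hz
    have hkz : nrm z ≤ k := Nat.le_ceil _
    have hkr : (0 : ℝ) < k := Nat.cast_pos.2 hk0
    set j : ℕ := ⌊(k : ℝ) * N / nrm z⌋₊ with hj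
    have hj1 : (j : ℝ) ≤ k * N / nrm z := Nat.floor_le (by positivity)
    have hj2 : (k : ℝ) * N / nrm z < j + 1 := Nat.lt_floor_add_one _
    have hE : toE (k • w - j • z) = (k : ℝ) • e + ((k : ℝ) * N / nrm z - j) • toE z := by
      have hkw : toE (k • w) = (k : ℝ) • toE w := by
        ext i
        simp [toE_apply]
      have hjz : toE (j • z) = (j : ℝ) • toE z := by
        ext i
        simp [toE_apply]
      rw [toE_sub, hkw, hjz, hwe, sub_smul, smul_add, smul_smul, mul_div_assoc]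
      abel
    have hnrm : nrm (k • w - j • z) ≤ k * (Real.sqrt d + 1) := by
      rw [nrm_eq, hE]
      refine (norm_add_le _ _).trans ?_
      rw [norm_smul, norm_smul, Real.norm_of_nonneg hkr.le, hzE,
        Real.norm_of_nonneg (by linarith)]
      have h1 : (k : ℝ) * ‖e‖ ≤ k * Real.sqrt d := mul_le_mul_of_nonneg_left hen hkr.le
      have h2 : ((k : ℝ) * N / nrm z - j) * nrm z ≤ 1 * nrm z :=
        mul_le_mul_of_nonneg_right (by linarith) hz.le
      rw [mul_add, mul_one]
      linarith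
    have h1 : (k : ℝ) * muh h w ≤ k * (N / nrm z * muh h z + b * (Real.sqrt d + 1)) := by
      calc (k : ℝ) * muh h w ≤ muh h (k • w) := le_muh_nsmul hh hk0 w
        _ = muh h (j • z + (k • w - j • z)) := by rw [add_sub_cancel]
        _ ≤ muh h (j • z) + muh h (k • w - j • z) := muh_add hh _ _
        _ ≤ j * muh h z + b * (k * (Real.sqrt d + 1)) :=
            add_le_add (muh_nsmul_le hh j z)
              ((muh_le_nrm hh _).trans (mul_le_mul_of_nonneg_left hnrm hb))
        _ ≤ k * N / nrm z * muh h z + b * (k * (Real.sqrt d + 1)) :=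
            add_le_add (mul_le_mul_of_nonneg_right hj1 (muh_nonneg hh z)) le_rfl
        _ = k * (N / nrm z * muh h z + b * (Real.sqrt d + 1)) := by ring
    exact le_of_mul_le_mul_left h1 hkr

/-- the values of the time constant in the directions of far ray sites are nearly the same -/
theorem crit_close {s : ℕ → Edge d} (hs : Critical s) {ε : ℝ} (hε : 0 < ε) :
    ∃ R : ℝ, ∀ z z' : V d, (Desc s z).Infinite → (Desc s z').Infinite → R ≤ nrm z →
      R ≤ nrm z' → mu z' / nrm z' ≤ mu z / nrm z + ε := by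
  classical
  obtain ⟨a, C, hh⟩ := hf_hm d
  have hd0 : (0 : ℝ) ≤ d := Nat.cast_nonneg d
  obtain ⟨N, hN⟩ := exists_nat_gt ((Real.sqrt d * d + d * (Real.sqrt d + 1) + 1) / ε)
  have hsd : 0 ≤ Real.sqrt (d : ℝ) := Real.sqrt_nonneg _
  have hN0 : (0 : ℝ) < N := lt_of_le_of_lt (by positivity) hN
  rw [div_lt_iff₀ hε] at hN
  choose R hR using hs
  have hfin : {x : V d | nrm x ≤ N + Real.sqrt d}.Finite := finite_ball _
  refine ⟨max 1 ((hfin.toFinset.sup fun w => R w 0 : ℕ) : ℝ), fun z z' hz hz' hRz hRz' => ?_⟩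
  have hz0 : 0 < nrm z := lt_of_lt_of_le one_pos ((le_max_left _ _).trans hRz)
  have hz0' : 0 < nrm z' := lt_of_lt_of_le one_pos ((le_max_left _ _).trans hRz')
  obtain ⟨w, h1, h2, h3⟩ := muh_round hh hd0 hz0 N
  have hwR : ((R w 0 : ℕ) : ℝ) ≤ ((hfin.toFinset.sup fun w => R w 0 : ℕ) : ℝ) :=
    Nat.cast_le.2 (Finset.le_sup (f := fun w => R w 0) (hfin.mem_toFinset.2 h1))
  have h4 := hR w 0 z z' hz hz' ((hwR.trans (le_max_right _ _)).trans hRz)
    ((hwR.trans (le_max_right _ _)).trans hRz')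
  have h5 : mu z' ≤ d * nrm z' := muh_le_nrm hh z'
  have h6 : 0 ≤ mu z' := muh_nonneg hh z'
  have h7 : mu w ≤ N / nrm z * mu z + d * (Real.sqrt d + 1) := h3
  rw [Nat.cast_zero, zero_add, div_one] at h4
  have h8 : mu z' * ((N - Real.sqrt d) * nrm z) ≤
      (N / nrm z * mu z + d * (Real.sqrt d + 1) + 1) * (nrm z * nrm z') := by
    refine (mul_le_mul_of_nonneg_left h2 h6).trans (h4.trans ?_)
    exact mul_le_mul_of_nonneg_right (by linarith) (by positivity)
  have h9 : mu z' * (N - Real.sqrt d) ≤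
      (N / nrm z * mu z + d * (Real.sqrt d + 1) + 1) * nrm z' := by
    refine le_of_mul_le_mul_right ?_ hz0
    linarith
  have h10 : mu z' / nrm z' * N ≤ (mu z / nrm z + ε) * N := by
    have h11 : mu z' / nrm z' * (N - Real.sqrt d) ≤
        N / nrm z * mu z + d * (Real.sqrt d + 1) + 1 := by
      rw [div_mul_eq_mul_div, div_le_iff₀ hz0']
      exact h9
    have h12 : mu z' / nrm z' ≤ d := by
      rw [div_le_iff₀ hz0']
      exact h5
    have h13 : mu z' / nrm z' * Real.sqrt d ≤ d * Real.sqrt d :=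
      mul_le_mul_of_nonneg_right h12 hsd
    have h14 : (N : ℝ) / nrm z * mu z = mu z / nrm z * N := by ring
    rw [h14] at h11
    nlinarith
  exact le_of_mul_le_mul_right h10 hN0

/-- the time constant in the directions of the ray converges, and the ray points in critical
directions -/
theorem crit_value {s : ℕ → Edge d} (hs : Critical s) :
    ∃ m : ℝ, 0 < m ∧ ∀ (w : V d) (ε : ℝ), 0 < ε → ∃ R : ℝ, ∀ z : V d, (Desc s z).Infinite →
      R ≤ nrm z → |mu z - m * nrm z| ≤ ε * nrm z ∧ m * ip w z ≤ (mu w + ε) * nrm z := by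
  classical
  obtain ⟨a, C, hh⟩ := hf_hm d
  by_cases hcase : ∀ n : ℕ, ∃ z : V d, (Desc s z).Infinite ∧ (n : ℝ) ≤ nrm z
  · choose zz hz1 hz2 using hcase
    set u : ℕ → ℝ := fun n => mu (zz n) / nrm (zz n) with hu
    have hcau : CauchySeq u := by
      rw [Metric.cauchySeq_iff']
      intro ε hε
      obtain ⟨R, hR⟩ := crit_close hs (half_pos hε)
      refine ⟨⌈R⌉₊, fun n hn => ?_⟩
      have h1 : R ≤ nrm (zz n) :=
        ((Nat.le_ceil R).trans (Nat.cast_le.2 hn)).trans (hz2 n)
      have h2 : R ≤ nrm (zz ⌈R⌉₊) := (Nat.le_ceil R).trans (hz2 _)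
      have h3 := hR _ _ (hz1 n) (hz1 ⌈R⌉₊) h1 h2
      have h4 := hR _ _ (hz1 ⌈R⌉₊) (hz1 n) h2 h1
      rw [Real.dist_eq, abs_lt]
      constructor
      · show -ε < mu (zz n) / nrm (zz n) - mu (zz ⌈R⌉₊) / nrm (zz ⌈R⌉₊)
        linarith
      · show mu (zz n) / nrm (zz n) - mu (zz ⌈R⌉₊) / nrm (zz ⌈R⌉₊) < ε
        linarith
    obtain ⟨m, hm⟩ := cauchySeq_tendsto_of_complete hcau
    refine ⟨m, ?_, ?_⟩
    · refine lt_of_lt_of_le hh.pos (ge_of_tendsto hm ?_)
      filter_upwards [eventually_ge_atTop 1] with n hn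
      have h1 : (0 : ℝ) < nrm (zz n) := by
        have h2 : (1 : ℝ) ≤ n := by exact_mod_cast hn
        linarith [hz2 n]
      show a ≤ mu (zz n) / nrm (zz n)
      rw [le_div_iff₀ h1]
      exact muh_low hh _
    · intro w ε hε
      obtain ⟨R1, hR1⟩ := crit_close hs hε
      obtain ⟨k, hk⟩ := exists_nat_one_div_lt hε
      obtain ⟨R2, hR2⟩ := hs w k
      refine ⟨max 1 (max R1 R2), fun z hz hRz => ?_⟩
      have hz0 : 0 < nrm z := lt_of_lt_of_le one_pos ((le_max_left _ _).trans hRz)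
      have g1 : R1 ≤ nrm z := ((le_max_left _ _).trans (le_max_right _ _)).trans hRz
      have g2 : (R2 : ℝ) ≤ nrm z := ((le_max_right _ _).trans (le_max_right _ _)).trans hRz
      have hev : ∀ᶠ n : ℕ in atTop, R1 ≤ nrm (zz n) ∧ (R2 : ℝ) ≤ nrm (zz n) ∧ 0 < nrm (zz n) := by
        filter_upwards [eventually_ge_atTop ⌈R1⌉₊, eventually_ge_atTop R2,
          eventually_ge_atTop 1] with n e1 e2 e3
        have e4 : R1 ≤ n := (Nat.le_ceil R1).trans (Nat.cast_le.2 e1)
        have e5 : (R2 : ℝ) ≤ n := Nat.cast_le.2 e2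
        have e6 : (1 : ℝ) ≤ n := by exact_mod_cast e3
        have e7 := hz2 n
        exact ⟨by linarith, by linarith, by linarith⟩
      constructor
      · have h1 : mu z / nrm z ≤ m + ε := by
          have h2 : mu z / nrm z - ε ≤ m := by
            refine ge_of_tendsto hm ?_
            filter_upwards [hev] with n hn
            have h3 := hR1 (zz n) z (hz1 n) hz hn.1 g1
            show mu z / nrm z - ε ≤ mu (zz n) / nrm (zz n)
            linarith
          linarith
        have h4 : m ≤ mu z / nrm z + ε := by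
          refine le_of_tendsto hm ?_
          filter_upwards [hev] with n hn
          exact hR1 z (zz n) hz (hz1 n) g1 hn.1
        have h5 : mu z ≤ (m + ε) * nrm z := (div_le_iff₀ hz0).1 h1
        have h6 : (m - ε) * nrm z ≤ mu z := (le_div_iff₀ hz0).1 (by linarith)
        rw [abs_le]
        constructor <;> nlinarith
      · refine le_of_tendsto (hm.mul_const (ip w z)) ?_
        filter_upwards [hev] with n hn
        have h1 := hR2 z (zz n) hz (hz1 n) g2 hn.2.1
        show mu (zz n) / nrm (zz n) * ip w z ≤ (mu w + ε) * nrm z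
        rw [div_mul_eq_mul_div, div_le_iff₀ hn.2.2]
        refine h1.trans ?_
        rw [mul_assoc]
        refine mul_le_mul_of_nonneg_right (by linarith) ?_
        exact mul_nonneg hz0.le hn.2.2.le
  · push Not at hcase
    obtain ⟨n, hn⟩ := hcase
    exact ⟨1, one_pos, fun w ε _ => ⟨n, fun z hz hRz => absurd hRz (not_le.2 (hn z hz))⟩⟩

end OneR
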